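import Pool.Agent.H24.CU.Basic

/-!
# Row AL (algebra of the defining form)

PROOFS.  `α(x) = x × F(x)`.  (1) `∑ x_j α_j = 0`, `∑ F_j α_j = 0`: expand (`Fin.sum_univ_three`,
`crossProduct` components `x_1 F_2 - x_2 F_1`, `x_2 F_0 - x_0 F_2`, `x_0 F_1 - x_1 F_0`), `ring`.
(2) homogeneity: `F_j(c x) = c^deg F_j(x)` (`MvPolynomial.IsHomogeneous.eval₂`/`eval_smul`-type lemma, or
expand), so `α(c x) = c^(deg+1) α(x)`, `vec (c x) = c^deg vec x`.
(3) Lagrange identity `nsq (x × v) = nsq x nsq v - |herm v x|^2`: expand in real coordinates or use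
`|a b' - ..|^2` sums; `ring` after writing `normSq`.
(4) the components of `α` are the evaluations of homogeneous polynomials of degree `deg + 1`
(`X i * F j - X j * F i`), and not all of them are zero: otherwise `α = 0` everywhere and the set in
`finite_sing` is all of `ℙ ℂ V`, which is infinite (the points of `(1, t, 0)`, `t : ℂ`, are distinct:
if `(1,t,0) = c (1,t',0)` then `c = 1`, `t = t'`).
(5) decomposition of a form at a regular point: pure linear algebra, direct expansion.  For `x ≠ 0`,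
`e = nsq η ≠ 0` (`η = α(x)`), `F = vec x`, `N = nsq x`, and a matrix `A` with `∑_j x_j A_jk = 0`,
`∑_k A_jk conj x_k = 0`:
  `A_jk = N^2 dens W_jk + η_j c_k + c'_j conj η_k`,   `dens = A(F,F)/e`, `W = fubiniStudy x`,
  `c_k = (∑_i conj η_i A_ik)/e - (A(F,F) N / e^2) conj η_k`,
  `c'_j = (∑_k A_jk η_k)/e - ((∑_ik conj η_i A_ik η_k)/e^2) η_j`.
Proof of the identity: both sides are matrices `G` with `∑_j x_j G_jk = 0 = ∑_k G_jk conj x_k`
(note `∑ x_j η_j = 0`); the vectors `x, F, conj η` form a basis of `C^3` (`det (x, F, conj η) = nsq η`);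
so it is enough to compare `G(a,b) = ∑ a_j G_jk conj b_k` for `a, b ∈ {F, conj η}`:
`W(F,F) = e/N^2` (Lagrange), `W(F, conj η) = 0 = W(conj η, F)` (as `∑ F_jη_j = 0 = ∑ x_j η_j`),
`W(conj η, conj η) = e/N`; `∑ F_j η_j = 0`.  Check: `(F,F)`: `A(F,F) = N^2 dens e/N^2`. OK
`(conj η, F)`: `A(conj η, F) = e ∑ c_k conj F_k = A(conj η,F)`. OK  `(F, conj η)`: symmetric. OK
`(conj η, conj η)`: `N^2 dens e/N + e (A(conj η,conj η)/e - A(F,F) N/e^2 e) + (A(cη,cη)/e - A(cη,cη)/e) e`
`= A(conj η, conj η)`. OK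
-/

namespace Pool.Agent.H24.CU

open scoped ComplexConjugate

theorem sum_mul_alpha (𝓕 : Foliation) (x : V) : ∑ j, x j * 𝓕.alpha x j = 0 := by
  unfold Foliation.alpha
  rw [cross_apply, Fin.sum_univ_three]
  simp only [Matrix.cons_val_zero, Matrix.cons_val_one, Matrix.cons_val]
  ring

theorem sum_vec_mul_alpha (𝓕 : Foliation) (x : V) : ∑ j, 𝓕.vec x j * 𝓕.alpha x j = 0 := by
  unfold Foliation.alpha Foliation.vec
  rw [cross_apply, Fin.sum_univ_three]
  simp only [Matrix.cons_val_zero, Matrix.cons_val_one, Matrix.cons_val]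
  ring

private theorem AL_eval (P : MvPolynomial (Fin 3) ℂ) (n : ℕ) (hP : P.IsHomogeneous n) (c : ℂ)
    (x : V) : MvPolynomial.eval (c • x) P = c ^ n * MvPolynomial.eval x P := by
  rw [MvPolynomial.eval_eq', MvPolynomial.eval_eq', Finset.mul_sum]
  refine Finset.sum_congr rfl fun d hd => ?_
  have h1 := hP (MvPolynomial.mem_support_iff.1 hd)
  have h2 : ∑ i, d i = n := by
    rw [← h1, Finsupp.weight_apply, Finsupp.sum_fintype _ _ (by simp)]
    simp
  have h3 : ∏ i, (c • x) i ^ d i = c ^ n * ∏ i, x i ^ d i := by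
    rw [← h2, ← Finset.prod_pow_eq_pow_sum, ← Finset.prod_mul_distrib]
    refine Finset.prod_congr rfl fun i _ => ?_
    rw [Pi.smul_apply, smul_eq_mul, mul_pow]
  rw [h3]
  ring

theorem vec_smul (𝓕 : Foliation) (c : ℂ) (x : V) : 𝓕.vec (c • x) = c ^ 𝓕.deg • 𝓕.vec x := by
  funext j
  exact AL_eval (𝓕.F j) 𝓕.deg (𝓕.hom j) c x

theorem alpha_smul (𝓕 : Foliation) (c : ℂ) (x : V) :
    𝓕.alpha (c • x) = c ^ (𝓕.deg + 1) • 𝓕.alpha x := by
  have h1 : 𝓕.alpha (c • x) = crossProduct (c • x) (𝓕.vec (c • x)) := rfl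
  have h2 : 𝓕.alpha x = crossProduct x (𝓕.vec x) := rfl
  rw [h1, h2, vec_smul, cross_apply, cross_apply]
  funext j
  fin_cases j <;>
  · simp only [Pi.smul_apply, smul_eq_mul, Fin.zero_eta, Fin.mk_one, Fin.reduceFinMk,
      Matrix.cons_val_zero, Matrix.cons_val_one, Matrix.cons_val]
    ring

theorem nsq_cross (x v : V) :
    nsq (crossProduct x v) = nsq x * nsq v - Complex.normSq (herm v x) := by
  unfold nsq herm
  rw [cross_apply]
  simp only [Fin.sum_univ_three, Matrix.cons_val_zero, Matrix.cons_val_one, Matrix.cons_val,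
    Complex.normSq_apply, Complex.sub_re, Complex.sub_im, Complex.mul_re, Complex.mul_im,
    Complex.add_re, Complex.add_im, Complex.conj_re, Complex.conj_im]
  ring

theorem exists_alpha_poly (𝓕 : Foliation) :
    ∃ Q : Fin 3 → MvPolynomial (Fin 3) ℂ, (∀ j, (Q j).IsHomogeneous (𝓕.deg + 1)) ∧
      (∀ x j, 𝓕.alpha x j = MvPolynomial.eval x (Q j)) ∧ ∃ j, Q j ≠ 0 := by
  obtain ⟨Q, hQ⟩ : ∃ Q : Fin 3 → MvPolynomial (Fin 3) ℂ,
    Q = ![MvPolynomial.X 1 * 𝓕.F 2 - MvPolynomial.X 2 * 𝓕.F 1,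
      MvPolynomial.X 2 * 𝓕.F 0 - MvPolynomial.X 0 * 𝓕.F 2,
      MvPolynomial.X 0 * 𝓕.F 1 - MvPolynomial.X 1 * 𝓕.F 0] := ⟨_, rfl⟩
  have hm : ∀ i j, (MvPolynomial.X i * 𝓕.F j : MvPolynomial (Fin 3) ℂ).IsHomogeneous
      (𝓕.deg + 1) := fun i j => by
    rw [add_comm]
    exact (MvPolynomial.isHomogeneous_X ℂ i).mul (𝓕.hom j)
  have hev : ∀ x j, 𝓕.alpha x j = MvPolynomial.eval x (Q j) := by
    intro x j
    unfold Foliation.alpha
    rw [cross_apply, hQ]
    fin_cases j <;> simp
  refine ⟨Q, ?_, hev, ?_⟩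
  · intro j
    rw [hQ]
    fin_cases j
    · exact (hm 1 2).sub (hm 2 1)
    · exact (hm 2 0).sub (hm 0 2)
    · exact (hm 0 1).sub (hm 1 0)
  · by_contra hcon
    push Not at hcon
    have h0 : ∀ x, 𝓕.alpha x = 0 := fun x => by
      funext j
      rw [hev, hcon j, map_zero]
      rfl
    have hfin := 𝓕.finite_sing
    have huniv : {ℓ : Projectivization ℂ V | crossProduct ℓ.rep
        (fun j => MvPolynomial.eval ℓ.rep (𝓕.F j)) = 0} = Set.univ :=
      Set.eq_univ_of_forall fun ℓ => h0 ℓ.rep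
    rw [huniv] at hfin
    have hne : ∀ t : ℂ, (![1, t, 0] : V) ≠ 0 := fun t h => by
      have := congrFun h 0
      simp at this
    have hinj : Function.Injective (fun t : ℂ => Projectivization.mk ℂ (![1, t, 0] : V)
        (hne t)) := by
      intro t t' h
      obtain ⟨a, ha⟩ := (Projectivization.mk_eq_mk_iff' ℂ _ _ (hne t) (hne t')).1 h
      have e0 := congrFun ha 0
      have e1 := congrFun ha 1
      simp at e0 e1
      rw [e0, one_mul] at e1
      exact e1.symm
    have : Infinite (Projectivization ℂ V) := Infinite.of_injective _ hinj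
    exact Set.infinite_univ hfin

private noncomputable def AL_bl (G : Fin 3 → Fin 3 → ℂ) (a b : V) : ℂ :=
  ∑ j, ∑ k, a j * G j k * b k

private theorem AL_zero (x F η : V) (hdet : (Matrix.of ![x, F, fun i => conj (η i)]).det ≠ 0)
    (G : Fin 3 → Fin 3 → ℂ)
    (h : ∀ p q, AL_bl G ((![x, F, fun i => conj (η i)] : Fin 3 → V) p)
      (fun k => conj ((![x, F, fun i => conj (η i)] : Fin 3 → V) q k)) = 0) (j k : Fin 3) :
    G j k = 0 := by
  obtain ⟨M, hM⟩ : ∃ M : Matrix (Fin 3) (Fin 3) ℂ, M = Matrix.of ![x, F, fun i => conj (η i)] :=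
    ⟨_, rfl⟩
  have hMp : ∀ p i, M p i = (![x, F, fun i => conj (η i)] : Fin 3 → V) p i := fun p i => by
    rw [hM]
    rfl
  rw [← hM] at hdet
  have step1 : ∀ q j, ∑ k, G j k * conj (M q k) = 0 := by
    intro q
    have h1 : M.mulVec (fun j => ∑ k, G j k * conj (M q k)) = 0 := by
      funext p
      show ∑ j, M p j * ∑ k, G j k * conj (M q k) = 0
      rw [← h p q, AL_bl]
      refine Finset.sum_congr rfl fun j _ => ?_
      rw [Finset.mul_sum]
      refine Finset.sum_congr rfl fun k _ => ?_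
      rw [hMp, hMp]
      ring
    intro j
    exact congrFun (Matrix.eq_zero_of_mulVec_eq_zero hdet h1) j
  have h2 : M.mulVec (fun k => conj (G j k)) = 0 := by
    funext q
    show ∑ k, M q k * conj (G j k) = 0
    have h3 := congrArg conj (step1 q j)
    rw [map_sum, map_zero] at h3
    rw [← h3]
    refine Finset.sum_congr rfl fun k _ => ?_
    rw [map_mul, Complex.conj_conj]
    ring
  have h4 := congrFun (Matrix.eq_zero_of_mulVec_eq_zero hdet h2) k
  have h5 := congrArg conj h4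
  simpa using h5

private theorem AL_det (x F η : V) (hη : η ≠ 0) (h1 : ∑ j, x j * η j = 0)
    (h2 : ∑ j, F j * η j = 0) (h3 : nsq η = nsq x * nsq F - Complex.normSq (herm F x)) :
    (Matrix.of ![x, F, fun i => conj (η i)]).det ≠ 0 := by
  intro h
  -- `c x + d F + t conj η = 0` for a nonzero row vector
  obtain ⟨v, hv, hv0⟩ := Matrix.exists_vecMul_eq_zero_iff.2 h
  have hc : ∀ i, v 0 * x i + v 1 * F i + v 2 * conj (η i) = 0 := by
    intro i
    have := congrFun hv0 i
    simpa [Matrix.vecMul, dotProduct, Fin.sum_univ_three] using this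
  have he : (nsq η : ℂ) ≠ 0 := by
    exact_mod_cast (nsq_pos hη).ne'
  have hs : (nsq η : ℂ) = ∑ i, conj (η i) * η i := by
    unfold nsq
    push_cast
    exact Finset.sum_congr rfl fun i _ => Complex.normSq_eq_conj_mul_self
  have hv2 : v 2 = 0 := by
    have e1 : ∑ i, (v 0 * x i + v 1 * F i + v 2 * conj (η i)) * η i = 0 :=
      Finset.sum_eq_zero fun i _ => by rw [hc i, zero_mul]
    have e2 : ∑ i, (v 0 * x i + v 1 * F i + v 2 * conj (η i)) * η i =
        v 0 * (∑ i, x i * η i) + v 1 * (∑ i, F i * η i) + v 2 * (∑ i, conj (η i) * η i) := by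
      simp only [Fin.sum_univ_three]
      ring
    rw [e2, h1, h2, ← hs, mul_zero, mul_zero, zero_add, zero_add] at e1
    exact (mul_eq_zero.1 e1).resolve_right he
  -- the cross product of `x` and `F` vanishes
  have hcr : nsq (crossProduct x F) = nsq η := by
    rw [nsq_cross, h3]
  have hx0 : ∀ i, v 0 * x i + v 1 * F i = 0 := fun i => by
    have := hc i
    rwa [hv2, zero_mul, add_zero] at this
  have hcross : crossProduct x F = 0 := by
    have hv01 : v 0 ≠ 0 ∨ v 1 ≠ 0 := by
      by_contra hcon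
      push Not at hcon
      apply hv
      funext i
      fin_cases i
      · exact hcon.1
      · exact hcon.2
      · exact hv2
    have a0 := hx0 0
    have a1 := hx0 1
    have a2 := hx0 2
    rw [cross_apply]
    funext i
    rcases hv01 with hw | hw
    · fin_cases i
      · show x 1 * F 2 - x 2 * F 1 = 0
        apply mul_left_cancel₀ hw
        linear_combination F 2 * a1 - F 1 * a2
      · show x 2 * F 0 - x 0 * F 2 = 0
        apply mul_left_cancel₀ hw
        linear_combination F 0 * a2 - F 2 * a0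
      · show x 0 * F 1 - x 1 * F 0 = 0
        apply mul_left_cancel₀ hw
        linear_combination F 1 * a0 - F 0 * a1
    · fin_cases i
      · show x 1 * F 2 - x 2 * F 1 = 0
        apply mul_left_cancel₀ hw
        linear_combination x 1 * a2 - x 2 * a1
      · show x 2 * F 0 - x 0 * F 2 = 0
        apply mul_left_cancel₀ hw
        linear_combination x 2 * a0 - x 0 * a2
      · show x 0 * F 1 - x 1 * F 0 = 0
        apply mul_left_cancel₀ hw
        linear_combination x 0 * a1 - x 1 * a0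
  rw [hcross, nsq_eq_zero.2 rfl] at hcr
  exact (nsq_pos hη).ne hcr

private theorem AL_exp (x η a b : V) (A : Matrix (Fin 3) (Fin 3) ℂ) (N e q : ℂ)
    {ab ax xb ae eb : ℂ} (hab : ∑ j, a j * b j = ab) (hax : ∑ j, a j * conj (x j) = ax)
    (hxb : ∑ j, x j * b j = xb) (hae : ∑ j, a j * η j = ae)
    (heb : ∑ j, conj (η j) * b j = eb) :
    AL_bl (fun j k => A j k - (N ^ 2 * (q / e) *
        ((if j = k then N⁻¹ else 0) - conj (x j) * x k / N ^ 2)
      + η j * ((∑ i, conj (η i) * A i k) / e - q * N / e ^ 2 * conj (η k))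
      + ((∑ i, A j i * η i) / e - (∑ i, ∑ l, conj (η i) * A i l * η l) / e ^ 2 * η j)
        * conj (η k))) a b =
    AL_bl A a b - N ^ 2 * (q / e) * (ab / N - ax * xb / N ^ 2) -
      ae * (AL_bl A (fun i => conj (η i)) b / e - q * N / e ^ 2 * eb) -
      (AL_bl A a η / e - AL_bl A (fun i => conj (η i)) η / e ^ 2 * ae) * eb := by
  rw [← hab, ← hax, ← hxb, ← hae, ← heb]
  unfold AL_bl
  simp only [Fin.sum_univ_three, Fin.isValue, if_true, if_false, Fin.reduceEq]
  ring

theorem form_decomp (x η F : V) (A : Matrix (Fin 3) (Fin 3) ℂ) (hx : x ≠ 0) (hη : η ≠ 0)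
    (h1 : ∑ j, x j * η j = 0) (h2 : ∑ j, F j * η j = 0)
    (h3 : nsq η = nsq x * nsq F - Complex.normSq (herm F x))
    (h4 : ∀ k, ∑ j, x j * A j k = 0) (h5 : ∀ j, ∑ k, A j k * conj (x k) = 0) (j k : Fin 3) :
    A j k = (nsq x : ℂ) ^ 2 * ((∑ j, ∑ k, A j k * F j * conj (F k)) / (nsq η : ℂ)) *
        fubiniStudy x j k
      + η j * ((∑ i, conj (η i) * A i k) / (nsq η : ℂ)
          - (∑ j, ∑ k, A j k * F j * conj (F k)) * (nsq x : ℂ) / (nsq η : ℂ) ^ 2 * conj (η k))
      + ((∑ i, A j i * η i) / (nsq η : ℂ)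
          - (∑ i, ∑ l, conj (η i) * A i l * η l) / (nsq η : ℂ) ^ 2 * η j) * conj (η k) := by
  have hN : (nsq x : ℂ) ≠ 0 := by exact_mod_cast (nsq_pos hx).ne'
  have he : (nsq η : ℂ) ≠ 0 := by exact_mod_cast (nsq_pos hη).ne'
  have sq : ∀ v : V, ∑ i, v i * conj (v i) = (nsq v : ℂ) := fun v => by
    unfold nsq
    push_cast
    exact Finset.sum_congr rfl fun i _ => by rw [Complex.mul_conj]
  have sq' : ∀ v : V, ∑ i, conj (v i) * v i = (nsq v : ℂ) := fun v => by
    rw [← sq v]
    exact Finset.sum_congr rfl fun i _ => mul_comm _ _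
  have cj : ∀ u v : V, ∑ i, u i * v i = 0 → ∑ i, conj (u i) * conj (v i) = 0 := fun u v h => by
    have := congrArg conj h
    rw [map_sum, map_zero] at this
    rw [← this]
    exact Finset.sum_congr rfl fun i _ => (map_mul conj _ _).symm
  have h1' : ∑ j, conj (x j) * conj (η j) = 0 := cj x η h1
  have h2' : ∑ j, conj (F j) * conj (η j) = 0 := cj F η h2
  have h1s : ∑ j, conj (η j) * conj (x j) = 0 := by
    rw [← h1']
    exact Finset.sum_congr rfl fun i _ => mul_comm _ _
  have h2s : ∑ j, conj (η j) * conj (F j) = 0 := by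
    rw [← h2']
    exact Finset.sum_congr rfl fun i _ => mul_comm _ _
  obtain ⟨hh, hhh⟩ : ∃ hh : ℂ, ∑ j, F j * conj (x j) = hh := ⟨_, rfl⟩
  have hhc : ∑ j, x j * conj (F j) = conj hh := by
    rw [← hhh, map_sum]
    refine Finset.sum_congr rfl fun i _ => ?_
    rw [map_mul, Complex.conj_conj, mul_comm]
  have hlag : (nsq η : ℂ) = nsq x * nsq F - hh * conj hh := by
    have e1 : herm F x = hh := hhh
    rw [h3, e1]
    push_cast
    rw [Complex.mul_conj]
  -- the form vanishes against `x` on the left and `conj x` on the right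
  have z1 : ∀ b : V, AL_bl A x b = 0 := fun b => by
    have a0 := h4 0
    have a1 := h4 1
    have a2 := h4 2
    unfold AL_bl
    simp only [Fin.sum_univ_three] at a0 a1 a2 ⊢
    linear_combination b 0 * a0 + b 1 * a1 + b 2 * a2
  have z2 : ∀ a : V, AL_bl A a (fun k => conj (x k)) = 0 := fun a => by
    have a0 := h5 0
    have a1 := h5 1
    have a2 := h5 2
    unfold AL_bl
    simp only [Fin.sum_univ_three] at a0 a1 a2 ⊢
    linear_combination a 0 * a0 + a 1 * a1 + a 2 * a2
  obtain ⟨Q, hQ⟩ : ∃ Q : ℂ, Q = ∑ j, ∑ k, A j k * F j * conj (F k) := ⟨_, rfl⟩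
  have hQ' : AL_bl A F (fun k => conj (F k)) = Q := by
    rw [hQ]
    unfold AL_bl
    exact Finset.sum_congr rfl fun j _ => Finset.sum_congr rfl fun k _ => by ring
  rw [← hQ]
  refine sub_eq_zero.1 (AL_zero x F η (AL_det x F η hη h1 h2 h3) (fun j k => A j k -
    ((nsq x : ℂ) ^ 2 * (Q / (nsq η : ℂ)) *
        ((if j = k then (nsq x : ℂ)⁻¹ else 0) - conj (x j) * x k / (nsq x : ℂ) ^ 2)
      + η j * ((∑ i, conj (η i) * A i k) / (nsq η : ℂ)
          - Q * (nsq x : ℂ) / (nsq η : ℂ) ^ 2 * conj (η k))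
      + ((∑ i, A j i * η i) / (nsq η : ℂ)
          - (∑ i, ∑ l, conj (η i) * A i l * η l) / (nsq η : ℂ) ^ 2 * η j) * conj (η k))) ?_ j k)
  intro p q
  fin_cases p
  · -- `x` on the left
    refine (AL_exp x η x _ A _ _ Q rfl (sq x) rfl h1 rfl).trans ?_
    rw [z1, z1]
    field_simp
    ring
  · fin_cases q
    · refine (AL_exp x η F (fun k => conj (x k)) A _ _ Q hhh hhh (sq x) h2 h1s).trans ?_
      rw [z2, z2]
      field_simp
      ring
    · refine (AL_exp x η F (fun k => conj (F k)) A _ _ Q (sq F) hhh hhc h2 h2s).trans ?_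
      rw [hQ']
      field_simp
      rw [hlag]
      ring
    · refine (AL_exp x η F (fun k => conj (conj (η k))) A _ _ Q
        (by simpa using h2) hhh (by simpa using h1) h2 (by simpa using sq' η)).trans ?_
      have e1 : (fun k => conj (conj (η k))) = η := funext fun k => Complex.conj_conj _
      rw [e1]
      field_simp
      ring
  · fin_cases q
    · refine (AL_exp x η (fun i => conj (η i)) (fun k => conj (x k)) A _ _ Q h1s h1s (sq x)
        (sq' η) h1s).trans ?_
      rw [z2]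
      field_simp
      ring
    · refine (AL_exp x η (fun i => conj (η i)) (fun k => conj (F k)) A _ _ Q h2s h1s hhc
        (sq' η) h2s).trans ?_
      field_simp
      ring
    · refine (AL_exp x η (fun i => conj (η i)) (fun k => conj (conj (η k))) A _ _ Q
        (by simpa using sq' η) h1s (by simpa using h1) (sq' η) (by simpa using sq' η)).trans ?_
      have e1 : (fun k => conj (conj (η k))) = η := funext fun k => Complex.conj_conj _
      rw [e1]
      field_simp
      ring

end Pool.Agent.H24.CU
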