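import Pool.Agent.H24.CU.Basic

/-!
# Row LC (calculus of the Levi form)

PROOFS.  `levi g p v` only depends on the second derivative of `g` at `p`: if `g` is `C^2` at `p`,
`fderiv ℝ (fun q => fderiv ℝ g q v) p w = (fderiv ℝ (fderiv ℝ g) p w) v` (`fderiv ℝ g` is
differentiable at `p`; `fderiv_clm_apply` or `HasFDerivAt.clm_apply`), a symmetric bilinear form
(`ContDiffAt.isSymmSndFDerivAt` / `second_derivative_symmetric`).
(1) congr: `f =ᶠ[𝓝 p] g` gives `fderiv f =ᶠ fderiv g` (`Filter.EventuallyEq.fderiv`).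
(2) add, const_mul, mul (product rule twice; `D²(fg)(v,v) = f D²g + g D²f + 2 Df(v) Dg(v)`), comp
(`D²(h∘f)(v,v) = h'(f) D²f(v,v) + h''(f) Df(v)^2`).
(3) smul of the vector: `c = a + i b`: `c v = a v + b (i v)`, `i c v = a (i v) - b v`, expand with symmetry:
the mixed terms cancel, `a^2 + b^2 = normSq c` remains.
(4) composition with a holomorphic map `H` (complex differentiable near `p`, hence smooth;
`DifferentiableOn.contDiffOn`, or assume as stated that `H` is differentiable everywhere on `E'`; `E'` is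
finite dimensional only in the applications: we assume `ContDiffAt ℝ 2 H p` separately):
`fderiv ℝ H q = (fderiv ℂ H q).restrictScalars ℝ`, so `D H (i v) = i D H v` and
`D²(g∘H)(v,v) = D²g(DH v, DH v) + Dg(D²H(v,v))`, with `D²H(iv,iv) = - D²H(v,v)`: differentiate
`DH_q(i v) = i DH_q(v)` in `q` in the direction `i v`: `D²H(iv, iv) = i D²H(iv, v) = i D²H(v, iv)
= i·i D²H(v,v)`.
(5) for a complex differentiable function `H : E → ℂ`: `levi (normSq ∘ H) = normSq (DH v)`: apply (4)
to `g = normSq` on `ℂ` (`levi normSq ζ w = normSq w` by direct computation: `normSq` is a quadratic form).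
`fderiv ℝ (normSq ∘ H) p v = 2 Re (conj (H p) (DH v))`.
-/

namespace Pool.Agent.H24.CU

open scoped ComplexConjugate ContDiff Topology

variable {E : Type*} [NormedAddCommGroup E] [NormedSpace ℂ E] [NormedSpace ℝ E]
  [IsScalarTower ℝ ℂ E]
  {E' : Type*} [NormedAddCommGroup E'] [NormedSpace ℂ E'] [NormedSpace ℝ E'] [IsScalarTower ℝ ℂ E']

set_option linter.unusedSectionVars false

theorem LC_snd {F : Type*} [NormedAddCommGroup F] [NormedSpace ℝ F] {f : E → F} {p : E}
    (hf : ContDiffAt ℝ 2 f p) : DifferentiableAt ℝ (fderiv ℝ f) p :=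
  (hf.fderiv_right (m := 1) (by norm_num)).differentiableAt one_ne_zero

theorem LC_ev {F : Type*} [NormedAddCommGroup F] [NormedSpace ℝ F] {f : E → F} {p : E}
    (hf : ContDiffAt ℝ 2 f p) : ∀ᶠ q in 𝓝 p, DifferentiableAt ℝ f q := by
  have h := (hf.eventually (by simp)).mono fun q hq => hq.differentiableAt (by simp)
  exact h

theorem LC_dapp {F : Type*} [NormedAddCommGroup F] [NormedSpace ℝ F] {f : E → F} {p : E}
    (hf : ContDiffAt ℝ 2 f p) (v : E) : DifferentiableAt ℝ (fun q => fderiv ℝ f q v) p :=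
  (LC_snd hf).clm_apply (differentiableAt_const v)

theorem LC_app {F : Type*} [NormedAddCommGroup F] [NormedSpace ℝ F] {f : E → F} {p : E}
    (hf : ContDiffAt ℝ 2 f p) (v w : E) :
    fderiv ℝ (fun q => fderiv ℝ f q v) p w = fderiv ℝ (fderiv ℝ f) p w v := by
  rw [fderiv_clm_apply (LC_snd hf) (differentiableAt_const v)]
  simp

theorem LC_symm {F : Type*} [NormedAddCommGroup F] [NormedSpace ℝ F] {f : E → F} {p : E}
    (hf : ContDiffAt ℝ 2 f p) (v w : E) :
    fderiv ℝ (fderiv ℝ f) p w v = fderiv ℝ (fderiv ℝ f) p v w := by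
  have h : IsSymmSndFDerivAt ℝ f p := hf.isSymmSndFDerivAt (by simp)
  exact h w v

omit [NormedSpace ℝ E] [IsScalarTower ℝ ℂ E] in
theorem LC_II (v : E) : Complex.I • Complex.I • v = -v := by
  rw [smul_smul, Complex.I_mul_I, neg_one_smul]

theorem LC_c (c : ℂ) (v : E) : c • v = c.re • v + c.im • (Complex.I • v) := by
  have h : ∀ (r : ℝ) (x : E), r • x = (r : ℂ) • x := by
    intro r x
    have h1 : r • ((1 : ℂ) • x) = (r • (1 : ℂ)) • x := (smul_assoc r (1 : ℂ) x).symm
    rw [one_smul] at h1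
    rw [h1, Complex.real_smul, mul_one]
  rw [h, h, smul_smul, ← add_smul, Complex.re_add_im]

theorem levi_congr {f g : E → ℝ} {p : E} (h : f =ᶠ[𝓝 p] g) (v : E) : levi f p v = levi g p v := by
  have h1 : ∀ w : E, (fun q => fderiv ℝ f q w) =ᶠ[𝓝 p] fun q => fderiv ℝ g q w := by
    intro w
    filter_upwards [h.fderiv (𝕜 := ℝ)] with q hq
    rw [hq]
  unfold levi
  rw [(h1 v).fderiv_eq, (h1 (Complex.I • v)).fderiv_eq]

theorem gradm_congr {f g k : E → ℝ} {p : E} (h : f =ᶠ[𝓝 p] g) (v : E) :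
    gradm f k p v = gradm g k p v := by
  unfold gradm
  rw [h.fderiv_eq]

theorem gradm_comm (f g : E → ℝ) (p v : E) : gradm f g p v = gradm g f p v := by
  unfold gradm
  ring

theorem gradm_self_nonneg (f : E → ℝ) (p v : E) : 0 ≤ gradm f f p v := by
  unfold gradm
  have h1 := mul_self_nonneg (fderiv ℝ f p v)
  have h2 := mul_self_nonneg (fderiv ℝ f p (Complex.I • v))
  linarith

theorem gradm_sq_le (f g : E → ℝ) (p v : E) :
    gradm f g p v ^ 2 ≤ gradm f f p v * gradm g g p v := by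
  unfold gradm
  nlinarith [sq_nonneg (fderiv ℝ f p v * fderiv ℝ g p (Complex.I • v) -
    fderiv ℝ f p (Complex.I • v) * fderiv ℝ g p v)]

theorem levi_const (c : ℝ) (p v : E) : levi (fun _ : E => c) p v = 0 := by
  unfold levi
  simp

theorem levi_add {f g : E → ℝ} {p : E} (hf : ContDiffAt ℝ 2 f p) (hg : ContDiffAt ℝ 2 g p) (v : E) :
    levi (fun q => f q + g q) p v = levi f p v + levi g p v := by
  have h1 : ∀ w : E, fderiv ℝ (fun q => fderiv ℝ (fun q => f q + g q) q w) p w =
      fderiv ℝ (fun q => fderiv ℝ f q w) p w + fderiv ℝ (fun q => fderiv ℝ g q w) p w := by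
    intro w
    have h2 : (fun q => fderiv ℝ (fun q => f q + g q) q w) =ᶠ[𝓝 p]
        fun q => fderiv ℝ f q w + fderiv ℝ g q w := by
      filter_upwards [LC_ev hf, LC_ev hg] with q h3 h4
      rw [fderiv_fun_add h3 h4]
      rfl
    rw [h2.fderiv_eq, fderiv_fun_add (LC_dapp hf w) (LC_dapp hg w)]
    rfl
  unfold levi
  rw [h1, h1]
  ring

theorem levi_mul {f g : E → ℝ} {p : E} (hf : ContDiffAt ℝ 2 f p) (hg : ContDiffAt ℝ 2 g p) (v : E) :
    levi (fun q => f q * g q) p v = f p * levi g p v + g p * levi f p v + 2 * gradm f g p v := by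
  have h1 : ∀ w : E, fderiv ℝ (fun q => fderiv ℝ (fun q => f q * g q) q w) p w =
      f p * fderiv ℝ (fun q => fderiv ℝ g q w) p w + g p * fderiv ℝ (fun q => fderiv ℝ f q w) p w +
        2 * (fderiv ℝ f p w * fderiv ℝ g p w) := by
    intro w
    have h2 : (fun q => fderiv ℝ (fun q => f q * g q) q w) =ᶠ[𝓝 p]
        fun q => f q * fderiv ℝ g q w + g q * fderiv ℝ f q w := by
      filter_upwards [LC_ev hf, LC_ev hg] with q h3 h4
      rw [fderiv_fun_mul h3 h4]
      rfl
    have df : DifferentiableAt ℝ f p := hf.differentiableAt (by simp)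
    have dg : DifferentiableAt ℝ g p := hg.differentiableAt (by simp)
    have d1 : DifferentiableAt ℝ (fun q => f q * fderiv ℝ g q w) p := df.mul (LC_dapp hg w)
    have d2 : DifferentiableAt ℝ (fun q => g q * fderiv ℝ f q w) p := dg.mul (LC_dapp hf w)
    rw [h2.fderiv_eq, fderiv_fun_add d1 d2,
      fderiv_fun_mul df (LC_dapp hg w), fderiv_fun_mul dg (LC_dapp hf w)]
    simp only [add_apply, smul_apply, smul_eq_mul]
    ring
  unfold levi gradm
  rw [h1, h1]
  ring

theorem levi_const_mul {f : E → ℝ} {p : E} (hf : ContDiffAt ℝ 2 f p) (c : ℝ) (v : E) :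
    levi (fun q => c * f q) p v = c * levi f p v := by
  rw [levi_mul (f := fun _ => c) contDiffAt_const hf, levi_const]
  unfold gradm
  simp

theorem levi_sub {f g : E → ℝ} {p : E} (hf : ContDiffAt ℝ 2 f p) (hg : ContDiffAt ℝ 2 g p) (v : E) :
    levi (fun q => f q - g q) p v = levi f p v - levi g p v := by
  have h : (fun q => f q - g q) = fun q => f q + (-1) * g q := by
    funext q
    ring
  rw [h, levi_add hf (contDiffAt_const.mul hg), levi_const_mul hg]
  ring

theorem levi_comp {f : E → ℝ} {h : ℝ → ℝ} {p : E} (hf : ContDiffAt ℝ 2 f p)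
    (hh : ContDiffAt ℝ 2 h (f p)) (v : E) :
    levi (fun q => h (f q)) p v =
      deriv h (f p) * levi f p v + deriv (deriv h) (f p) * gradm f f p v := by
  have hd : ∀ᶠ t in 𝓝 (f p), DifferentiableAt ℝ h t :=
    (hh.eventually (by simp)).mono fun q hq => hq.differentiableAt (by simp)
  have hd2 : ∀ᶠ q in 𝓝 p, DifferentiableAt ℝ h (f q) := hf.continuousAt.eventually hd
  have hdd : DifferentiableAt ℝ (deriv h) (f p) := by
    have h3 : DifferentiableAt ℝ (fderiv ℝ h) (f p) :=
      (hh.fderiv_right (m := 1) (by norm_num)).differentiableAt one_ne_zero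
    have h4 : deriv h = fun t => fderiv ℝ h t 1 := by
      funext t
      exact (fderiv_apply_one_eq_deriv).symm
    rw [h4]
    exact h3.clm_apply (differentiableAt_const _)
  have df : DifferentiableAt ℝ f p := hf.differentiableAt (by simp)
  have h1 : ∀ w : E, fderiv ℝ (fun q => fderiv ℝ (fun q => h (f q)) q w) p w =
      deriv h (f p) * fderiv ℝ (fun q => fderiv ℝ f q w) p w +
        deriv (deriv h) (f p) * (fderiv ℝ f p w * fderiv ℝ f p w) := by
    intro w
    have h2 : (fun q => fderiv ℝ (fun q => h (f q)) q w) =ᶠ[𝓝 p]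
        fun q => deriv h (f q) * fderiv ℝ f q w := by
      filter_upwards [LC_ev hf, hd2] with q h3 h4
      rw [show (fun q => h (f q)) = h ∘ f from rfl,
        (h4.hasDerivAt.comp_hasFDerivAt q h3.hasFDerivAt).fderiv]
      rfl
    have h5 : HasFDerivAt (fun q => deriv h (f q)) (deriv (deriv h) (f p) • fderiv ℝ f p) p :=
      hdd.hasDerivAt.comp_hasFDerivAt p df.hasFDerivAt
    rw [h2.fderiv_eq, fderiv_fun_mul h5.differentiableAt (LC_dapp hf w), h5.fderiv]
    simp only [add_apply, smul_apply, smul_eq_mul]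
    ring
  unfold levi gradm
  rw [h1, h1]
  ring

theorem gradm_comp_left {f k : E → ℝ} {h : ℝ → ℝ} {p : E} (hf : DifferentiableAt ℝ f p)
    (hh : DifferentiableAt ℝ h (f p)) (v : E) :
    gradm (fun q => h (f q)) k p v = deriv h (f p) * gradm f k p v := by
  have h1 : fderiv ℝ (fun q => h (f q)) p = deriv h (f p) • fderiv ℝ f p :=
    (hh.hasDerivAt.comp_hasFDerivAt p hf.hasFDerivAt).fderiv
  unfold gradm
  rw [h1]
  simp only [smul_apply, smul_eq_mul]
  ring

theorem levi_smul_vec {f : E → ℝ} {p : E} (hf : ContDiffAt ℝ 2 f p) (c : ℂ) (v : E) :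
    levi f p (c • v) = Complex.normSq c * levi f p v := by
  unfold levi
  rw [LC_app hf, LC_app hf, LC_app hf, LC_app hf]
  have e1 : c • v = c.re • v + c.im • (Complex.I • v) := LC_c c v
  have e2 : Complex.I • c • v = c.re • (Complex.I • v) - c.im • v := by
    rw [smul_comm, LC_c c (Complex.I • v), LC_II, smul_neg, sub_eq_add_neg]
  rw [e1] at e2 ⊢
  rw [e2]
  simp only [map_add, map_sub, map_smul, add_apply, sub_apply, smul_apply, smul_eq_mul]
  rw [LC_symm hf (Complex.I • v) v, Complex.normSq_apply]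
  ring

theorem gradm_smul_vec (f g : E → ℝ) (p : E) (c : ℂ) (v : E) :
    gradm f g p (c • v) = Complex.normSq c * gradm f g p v := by
  unfold gradm
  have e1 : c • v = c.re • v + c.im • (Complex.I • v) := LC_c c v
  have e2 : Complex.I • c • v = c.re • (Complex.I • v) - c.im • v := by
    rw [smul_comm, LC_c c (Complex.I • v), LC_II, smul_neg, sub_eq_add_neg]
  rw [e1] at e2 ⊢
  rw [e2]
  simp only [map_add, map_sub, map_smul, smul_eq_mul]
  rw [Complex.normSq_apply]
  ring

theorem LC_hol {H : E' → E} {p : E'} (hH : DifferentiableAt ℂ H p) (v : E') :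
    fderiv ℝ H p v = fderiv ℂ H p v := by
  rw [(hH.hasFDerivAt.restrictScalars ℝ).fderiv]
  rfl

theorem LC_holI {H : E' → E} {p : E'} (hH : DifferentiableAt ℂ H p) (v : E') :
    fderiv ℝ H p (Complex.I • v) = Complex.I • fderiv ℝ H p v := by
  rw [LC_hol hH, LC_hol hH, map_smul]

theorem LC_holD {H : E' → E} {p : E'} (hH : ∀ᶠ q in 𝓝 p, DifferentiableAt ℂ H q)
    (hH2 : ContDiffAt ℝ 2 H p) (v w : E') :
    fderiv ℝ (fderiv ℝ H) p w (Complex.I • v) = Complex.I • fderiv ℝ (fderiv ℝ H) p w v := by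
  rw [← LC_app hH2, ← LC_app hH2]
  have h1 : (fun q => fderiv ℝ H q (Complex.I • v)) =ᶠ[𝓝 p] fun q => Complex.I • fderiv ℝ H q v := by
    filter_upwards [hH] with q hq
    exact LC_holI hq v
  rw [h1.fderiv_eq, fderiv_fun_const_smul (LC_dapp hH2 v)]
  rfl

theorem levi_comp_hol {g : E → ℝ} {H : E' → E} {p : E'} (hH : ∀ᶠ q in 𝓝 p, DifferentiableAt ℂ H q)
    (hH2 : ContDiffAt ℝ 2 H p) (hg : ContDiffAt ℝ 2 g (H p)) (v : E') :
    levi (fun q => g (H q)) p v = levi g (H p) (fderiv ℂ H p v) := by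
  have hH0 : DifferentiableAt ℂ H p := hH.self_of_nhds
  have hg2 : ∀ᶠ q in 𝓝 p, DifferentiableAt ℝ g (H q) := hH2.continuousAt.eventually (LC_ev hg)
  have h1 : ∀ w : E', fderiv ℝ (fun q => fderiv ℝ (fun q => g (H q)) q w) p w =
      fderiv ℝ (fderiv ℝ g) (H p) (fderiv ℝ H p w) (fderiv ℝ H p w) +
        fderiv ℝ g (H p) (fderiv ℝ (fderiv ℝ H) p w w) := by
    intro w
    have h2 : (fun q => fderiv ℝ (fun q => g (H q)) q w) =ᶠ[𝓝 p]
        fun q => fderiv ℝ g (H q) (fderiv ℝ H q w) := by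
      filter_upwards [LC_ev hH2, hg2] with q h3 h4
      rw [show (fun q => g (H q)) = g ∘ H from rfl, fderiv_comp q h4 h3]
      rfl
    have h5 : HasFDerivAt (fun q => fderiv ℝ g (H q))
        ((fderiv ℝ (fderiv ℝ g) (H p)).comp (fderiv ℝ H p)) p :=
      (LC_snd hg).hasFDerivAt.comp p (hH2.differentiableAt (by simp)).hasFDerivAt
    rw [h2.fderiv_eq, fderiv_clm_apply h5.differentiableAt (LC_dapp hH2 w), h5.fderiv]
    simp only [add_apply, ContinuousLinearMap.comp_apply,
      ContinuousLinearMap.flip_apply]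
    rw [LC_app hH2]
    ring
  have h6 : fderiv ℝ (fderiv ℝ H) p (Complex.I • v) (Complex.I • v) =
      - fderiv ℝ (fderiv ℝ H) p v v := by
    rw [LC_holD hH hH2, LC_symm hH2, LC_holD hH hH2, LC_II]
  unfold levi
  rw [h1, h1, h6, map_neg, LC_holI hH0, ← LC_hol hH0, LC_app hg, LC_app hg]
  ring

theorem gradm_comp_hol {f g : E → ℝ} {H : E' → E} {p : E'} (hH : DifferentiableAt ℂ H p)
    (hf : DifferentiableAt ℝ f (H p)) (hg : DifferentiableAt ℝ g (H p)) (v : E') :
    gradm (fun q => f (H q)) (fun q => g (H q)) p v = gradm f g (H p) (fderiv ℂ H p v) := by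
  have h0 : DifferentiableAt ℝ H p := (hH.hasFDerivAt.restrictScalars ℝ).differentiableAt
  have h1 : ∀ w, fderiv ℝ (fun q => f (H q)) p w = fderiv ℝ f (H p) (fderiv ℝ H p w) := by
    intro w
    rw [show (fun q => f (H q)) = f ∘ H from rfl, fderiv_comp p hf h0]
    rfl
  have h2 : ∀ w, fderiv ℝ (fun q => g (H q)) p w = fderiv ℝ g (H p) (fderiv ℝ H p w) := by
    intro w
    rw [show (fun q => g (H q)) = g ∘ H from rfl, fderiv_comp p hg h0]
    rfl
  unfold gradm
  rw [h1, h1, h2, h2, LC_holI hH, ← LC_hol hH]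

theorem LC_levi_clm (l : E →L[ℝ] ℝ) (p v : E) : levi (fun q => l q) p v = 0 := by
  unfold levi
  have h : ∀ w : E, (fun q => fderiv ℝ (fun q => l q) q w) = fun _ => l w := by
    intro w
    funext q
    rw [l.fderiv]
  rw [h, h]
  simp

theorem LC_nsq (z w : ℂ) : levi (fun q : ℂ => Complex.normSq q) z w = Complex.normSq w := by
  have h0 : (fun q : ℂ => Complex.normSq q) =
      fun q => Complex.reCLM q * Complex.reCLM q + Complex.imCLM q * Complex.imCLM q := by
    funext q
    rw [Complex.normSq_apply]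
    rfl
  have c1 : ContDiffAt ℝ 2 (fun q : ℂ => Complex.reCLM q) z := Complex.reCLM.contDiff.contDiffAt
  have c2 : ContDiffAt ℝ 2 (fun q : ℂ => Complex.imCLM q) z := Complex.imCLM.contDiff.contDiffAt
  rw [h0, levi_add (c1.mul c1) (c2.mul c2), levi_mul c1 c1, levi_mul c2 c2, LC_levi_clm,
    LC_levi_clm]
  unfold gradm
  rw [show fderiv ℝ (fun q : ℂ => Complex.reCLM q) z = Complex.reCLM from Complex.reCLM.fderiv,
    show fderiv ℝ (fun q : ℂ => Complex.imCLM q) z = Complex.imCLM from Complex.imCLM.fderiv]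
  simp only [Complex.reCLM_apply, Complex.imCLM_apply, smul_eq_mul, Complex.mul_re, Complex.mul_im,
    Complex.I_re, Complex.I_im, Complex.normSq_apply]
  ring

theorem levi_normSq {H : E → ℂ} {p : E} (hH : ∀ᶠ q in 𝓝 p, DifferentiableAt ℂ H q)
    (hH2 : ContDiffAt ℝ 2 H p) (v : E) :
    levi (fun q => Complex.normSq (H q)) p v = Complex.normSq (fderiv ℂ H p v) := by
  have c1 : ContDiffAt ℝ 2 (fun q : ℂ => Complex.normSq q) (H p) := by
    have h0 : (fun q : ℂ => Complex.normSq q) =
        fun q => Complex.reCLM q * Complex.reCLM q + Complex.imCLM q * Complex.imCLM q := by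
      funext q
      rw [Complex.normSq_apply]
      rfl
    rw [h0]
    exact (Complex.reCLM.contDiff.contDiffAt.mul Complex.reCLM.contDiff.contDiffAt).add
      (Complex.imCLM.contDiff.contDiffAt.mul Complex.imCLM.contDiff.contDiffAt)
  rw [levi_comp_hol (g := fun q : ℂ => Complex.normSq q) hH hH2 c1, LC_nsq]

theorem fderiv_normSq {H : E → ℂ} {p : E} (hH : DifferentiableAt ℂ H p) (v : E) :
    fderiv ℝ (fun q => Complex.normSq (H q)) p v = 2 * (conj (H p) * fderiv ℂ H p v).re := by
  have h0 : HasFDerivAt H ((fderiv ℂ H p).restrictScalars ℝ) p := hH.hasFDerivAt.restrictScalars ℝ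
  have h1 : HasFDerivAt (fun q => Complex.reCLM (H q))
      (Complex.reCLM.comp ((fderiv ℂ H p).restrictScalars ℝ)) p :=
    Complex.reCLM.hasFDerivAt.comp p h0
  have h2 : HasFDerivAt (fun q => Complex.imCLM (H q))
      (Complex.imCLM.comp ((fderiv ℂ H p).restrictScalars ℝ)) p :=
    Complex.imCLM.hasFDerivAt.comp p h0
  have h3 : (fun q => Complex.normSq (H q)) =
      fun q => Complex.reCLM (H q) * Complex.reCLM (H q) + Complex.imCLM (H q) * Complex.imCLM (H q) := by
    funext q
    rw [Complex.normSq_apply]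
    rfl
  have h4 : HasFDerivAt (fun q => Complex.reCLM (H q) * Complex.reCLM (H q) +
      Complex.imCLM (H q) * Complex.imCLM (H q)) _ p := (h1.mul h1).add (h2.mul h2)
  rw [h3, h4.fderiv]
  simp only [add_apply, smul_apply,
    ContinuousLinearMap.comp_apply, ContinuousLinearMap.coe_restrictScalars', smul_eq_mul,
    Complex.reCLM_apply, Complex.imCLM_apply, Complex.mul_re, Complex.conj_re, Complex.conj_im]
  ring

end Pool.Agent.H24.CU
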