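import Pool.Agent.H24.CU.LocDefs
import Pool.Agent.H24.CU.LC

/-!
# Row MB (local mass bound)

PROOF.  `N p = normSq p.1 + normSq p.2`, norm on `ℂ × ℂ` = sup norm, `‖p‖^2 <= N p <= 2 ‖p‖^2`.
Choose `r' > 0` with `4 r' <= r` and `1/2 <= normSq (X p).1`, `N (X p) <= 4` for `‖p‖ <= 4 r'`
(continuity, `X 0 = (1,0)`).  `χ` smooth, `χ = 1` on `‖p‖ <= r'`, support in `‖p‖ < 2 r'`, `0 <= χ <= 1`.
For `0 < s < r'` put `L p = log (N p + s^2)`, `g = χ L` (smooth, compact support in `ball 0 r`).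
`0 = ∫ levi g p (X p) dM = ∫ (χ levi L + L levi χ + 2 gradm χ L) dM` (`levi_mul`).
`levi L p v = ((N + s^2) N(v) - |<v,p>|^2)/(N + s^2)^2 >= s^2 N(v)/(N + s^2)^2` (`levi_comp`, `levi_normSq`,
Cauchy-Schwarz `|<v,p>|^2 <= N(v) N(p)`, `<v,p> = v_1 conj p_1 + v_2 conj p_2`), so `>= 0`, and on
`ball 0 s`: `N <= 2 s^2`, `levi L p (X p) >= s^2 (1/2) / (9 s^4) = 1/(18 s^2)`.
`levi χ`, `gradm χ L` vanish unless `r' <= ‖p‖ <= 2 r'`, where `|L|` and the first derivatives of `L` are
bounded by a constant independent of `s < r'` (`r'^2 <= N + s^2 <= 9 r'^2`), so the other terms are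
bounded by `C M(univ)`.  Hence `M (ball 0 s) <= 18 C M(univ) s^2`.
-/

namespace Pool.Agent.H24.CU

open MeasureTheory
open scoped ComplexConjugate ContDiff

theorem MB_sigma : ∃ C : ℝ, 0 ≤ C ∧ ∀ x, |deriv Real.smoothTransition x| ≤ C ∧
    (1 < x → deriv Real.smoothTransition x = 0) := by
  have hcd : ContDiff ℝ 1 Real.smoothTransition := Real.smoothTransition.contDiff
  have hc : Continuous (deriv Real.smoothTransition) := hcd.continuous_deriv le_rfl
  obtain ⟨C, hC⟩ := (isCompact_Icc (a := (0 : ℝ)) (b := 1)).exists_bound_of_continuousOn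
    hc.continuousOn
  have h1 : ∀ x : ℝ, 1 < x → deriv Real.smoothTransition x = 0 := by
    intro x hx
    have h2 : Real.smoothTransition =ᶠ[nhds x] fun _ => 1 := by
      filter_upwards [Ioi_mem_nhds hx] with y hy
      exact Real.smoothTransition.one_of_one_le (le_of_lt hy)
    rw [h2.deriv_eq, deriv_const]
  have h0 : ∀ x : ℝ, x < 0 → deriv Real.smoothTransition x = 0 := by
    intro x hx
    have h2 : Real.smoothTransition =ᶠ[nhds x] fun _ => 0 := by
      filter_upwards [Iio_mem_nhds hx] with y hy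
      exact Real.smoothTransition.zero_of_nonpos (le_of_lt hy)
    rw [h2.deriv_eq, deriv_const]
  refine ⟨|C|, abs_nonneg _, fun x => ⟨?_, h1 x⟩⟩
  rcases lt_or_ge x 0 with hx | hx
  · rw [h0 x hx, abs_zero]
    exact abs_nonneg _
  rcases lt_or_ge 1 x with hx1 | hx1
  · rw [h1 x hx1, abs_zero]
    exact abs_nonneg _
  · exact (hC x ⟨hx, hx1⟩).trans (le_abs_self C)

theorem MB_H (t1 : ℝ) : ∃ H : ℝ → ℝ, ContDiff ℝ ∞ H ∧
    (∀ t, deriv H t = Real.smoothTransition (t1 - t)) ∧ (∀ t, t1 ≤ t → H t = 0) ∧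
    (∀ t, deriv (deriv H) t = - deriv Real.smoothTransition (t1 - t)) := by
  have hc : Continuous (fun u : ℝ => Real.smoothTransition (t1 - u)) :=
    Real.smoothTransition.continuous.comp (continuous_const.sub continuous_id)
  have hd : ∀ t, HasDerivAt (fun t => ∫ u in t1..t, Real.smoothTransition (t1 - u))
      (Real.smoothTransition (t1 - t)) t := fun t =>
    (hc.integral_hasStrictDerivAt t1 t).hasDerivAt
  have hde : deriv (fun t => ∫ u in t1..t, Real.smoothTransition (t1 - u)) =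
      fun t => Real.smoothTransition (t1 - t) := funext fun t => (hd t).deriv
  refine ⟨fun t => ∫ u in t1..t, Real.smoothTransition (t1 - u), ?_, fun t => (hd t).deriv, ?_, ?_⟩
  · rw [contDiff_infty_iff_deriv]
    refine ⟨fun t => (hd t).differentiableAt, ?_⟩
    rw [hde]
    exact Real.smoothTransition.contDiff.comp (contDiff_const.sub contDiff_id)
  · intro t ht
    show (∫ u in t1..t, Real.smoothTransition (t1 - u)) = 0
    rw [intervalIntegral.integral_congr (g := fun _ => (0 : ℝ)), intervalIntegral.integral_zero]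
    intro u hu
    rw [Set.uIcc_of_le ht] at hu
    exact Real.smoothTransition.zero_of_nonpos (by linarith [hu.1])
  · intro t
    rw [hde]
    have h1 : HasDerivAt Real.smoothTransition (deriv Real.smoothTransition (t1 - t)) (t1 - t) :=
      ((Real.smoothTransition.contDiff (n := 1)).differentiable (by simp) _).hasDerivAt
    have h2 := h1.comp t ((hasDerivAt_id t).const_sub t1)
    have h3 : deriv (fun t => Real.smoothTransition (t1 - t)) t = _ := h2.deriv
    rw [h3]
    ring

/-- the squared Euclidean norm on `C^2` -/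
noncomputable def MB_N (p : ℂ × ℂ) : ℝ := Complex.normSq p.1 + Complex.normSq p.2

theorem MB_N_nonneg (p : ℂ × ℂ) : 0 ≤ MB_N p :=
  add_nonneg (Complex.normSq_nonneg _) (Complex.normSq_nonneg _)

theorem MB_cd1 : ContDiff ℝ ∞ (fun p : ℂ × ℂ => Complex.normSq p.1) := by
  have h : (fun p : ℂ × ℂ => Complex.normSq p.1) = fun p => ‖p.1‖ ^ 2 := by
    funext p
    rw [Complex.normSq_eq_norm_sq]
  rw [h]
  exact (contDiff_norm_sq ℝ).comp contDiff_fst

theorem MB_cd2 : ContDiff ℝ ∞ (fun p : ℂ × ℂ => Complex.normSq p.2) := by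
  have h : (fun p : ℂ × ℂ => Complex.normSq p.2) = fun p => ‖p.2‖ ^ 2 := by
    funext p
    rw [Complex.normSq_eq_norm_sq]
  rw [h]
  exact (contDiff_norm_sq ℝ).comp contDiff_snd

theorem MB_cd : ContDiff ℝ ∞ MB_N := MB_cd1.add MB_cd2

theorem MB_two {E F : Type*} [NormedAddCommGroup E] [NormedSpace ℝ E] [NormedAddCommGroup F]
    [NormedSpace ℝ F] {f : E → F} (h : ContDiff ℝ ∞ f) : ContDiff ℝ 2 f := by
  exact_mod_cast (contDiff_infty.1 h 2)

theorem MB_le (p : ℂ × ℂ) : ‖p‖ ^ 2 ≤ MB_N p ∧ MB_N p ≤ 2 * ‖p‖ ^ 2 := by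
  unfold MB_N
  rw [Complex.normSq_eq_norm_sq, Complex.normSq_eq_norm_sq, Prod.norm_def]
  have h1 := norm_nonneg p.1
  have h2 := norm_nonneg p.2
  rcases le_total ‖p.1‖ ‖p.2‖ with h | h
  · rw [max_eq_right h]
    constructor <;> nlinarith
  · rw [max_eq_left h]
    constructor <;> nlinarith

theorem MB_levi (p v : ℂ × ℂ) : levi MB_N p v = MB_N v := by
  have h1 : MB_N = fun q : ℂ × ℂ => Complex.normSq q.1 + Complex.normSq q.2 := rfl
  rw [h1, levi_add (MB_two MB_cd1).contDiffAt (MB_two MB_cd2).contDiffAt,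
    levi_normSq (H := fun q : ℂ × ℂ => q.1) (Filter.Eventually.of_forall fun q => differentiableAt_fst)
      contDiffAt_fst,
    levi_normSq (H := fun q : ℂ × ℂ => q.2) (Filter.Eventually.of_forall fun q => differentiableAt_snd)
      contDiffAt_snd, fderiv_fst, fderiv_snd]
  rfl

theorem MB_fderiv (p v : ℂ × ℂ) :
    fderiv ℝ MB_N p v = 2 * (conj p.1 * v.1 + conj p.2 * v.2).re := by
  have h1 : MB_N = fun q : ℂ × ℂ => Complex.normSq q.1 + Complex.normSq q.2 := rfl
  rw [h1, fderiv_fun_add ((MB_two MB_cd1).differentiable (by simp) p)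
    ((MB_two MB_cd2).differentiable (by simp) p)]
  rw [add_apply, fderiv_normSq (H := fun q : ℂ × ℂ => q.1) differentiableAt_fst,
    fderiv_normSq (H := fun q : ℂ × ℂ => q.2) differentiableAt_snd, fderiv_fst, fderiv_snd,
    Complex.add_re]
  show 2 * (conj p.1 * v.1).re + 2 * (conj p.2 * v.2).re = _
  ring

theorem MB_gradm (p v : ℂ × ℂ) :
    gradm MB_N MB_N p v = Complex.normSq (conj p.1 * v.1 + conj p.2 * v.2) := by
  unfold gradm
  rw [MB_fderiv, MB_fderiv, Complex.normSq_apply]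
  have h1 : (conj p.1 * (Complex.I • v).1 + conj p.2 * (Complex.I • v).2).re =
      -(conj p.1 * v.1 + conj p.2 * v.2).im := by
    rw [Prod.smul_fst, Prod.smul_snd, smul_eq_mul, smul_eq_mul]
    have h2 : conj p.1 * (Complex.I * v.1) + conj p.2 * (Complex.I * v.2) =
        Complex.I * (conj p.1 * v.1 + conj p.2 * v.2) := by ring
    rw [h2, Complex.I_mul_re]
  rw [h1]
  ring

theorem MB_cs (p v : ℂ × ℂ) :
    Complex.normSq (conj p.1 * v.1 + conj p.2 * v.2) ≤ MB_N p * MB_N v := by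
  have h1 : MB_N p * MB_N v - Complex.normSq (conj p.1 * v.1 + conj p.2 * v.2) =
      Complex.normSq (p.1 * v.2 - p.2 * v.1) := by
    unfold MB_N
    simp only [Complex.normSq_apply, Complex.add_re, Complex.add_im, Complex.sub_re, Complex.sub_im,
      Complex.mul_re, Complex.mul_im, Complex.conj_re, Complex.conj_im]
    ring
  have h2 := Complex.normSq_nonneg (p.1 * v.2 - p.2 * v.1)
  linarith

theorem MB_lower {H : ℝ → ℝ} {t1 C ρ : ℝ} (hH : ContDiff ℝ ∞ H)
    (hH1 : ∀ t, deriv H t = Real.smoothTransition (t1 - t))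
    (hH2 : ∀ t, deriv (deriv H) t = - deriv Real.smoothTransition (t1 - t))
    (hC0 : 0 ≤ C) (hC : ∀ x, |deriv Real.smoothTransition x| ≤ C ∧
      (1 < x → deriv Real.smoothTransition x = 0)) (hρ : 0 < ρ) (ht1 : Real.exp t1 = ρ ^ 2)
    {s : ℝ} (hs : 0 < s) (p v : ℂ × ℂ) (hv : MB_N v ≤ 4) :
    Real.smoothTransition (t1 - Real.log (MB_N p + s ^ 2)) * (MB_N v * s ^ 2 / (MB_N p + s ^ 2) ^ 2) -
      C * (12 / ρ ^ 2) ≤ levi (fun q => H (Real.log (MB_N q + s ^ 2))) p v := by
  have hN := MB_N_nonneg p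
  have hn := MB_N_nonneg v
  have hcs := MB_cs p v
  obtain ⟨D, hD⟩ : ∃ D, D = MB_N p + s ^ 2 := ⟨_, rfl⟩
  have hs2 : 0 < s ^ 2 := by positivity
  have hD0 : 0 < D := by rw [hD]; linarith
  have c1 : ContDiffAt ℝ 2 MB_N p := (MB_two MB_cd).contDiffAt
  have c2 : ContDiffAt ℝ 2 (fun τ : ℝ => Real.log (τ + s ^ 2)) (MB_N p) :=
    (contDiffAt_id.add contDiffAt_const).log (by simp only [id]; rw [← hD]; exact hD0.ne')
  have c3 : ContDiffAt ℝ 2 (fun q => Real.log (MB_N q + s ^ 2)) p :=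
    (c1.add contDiffAt_const).log (by rw [← hD]; exact hD0.ne')
  have d1 : ∀ τ : ℝ, 0 < τ + s ^ 2 → HasDerivAt (fun τ : ℝ => Real.log (τ + s ^ 2))
      (1 / (τ + s ^ 2)) τ := fun τ hτ => ((hasDerivAt_id τ).add_const (s ^ 2)).log hτ.ne'
  have e1 : deriv (fun τ : ℝ => Real.log (τ + s ^ 2)) (MB_N p) = 1 / D := by
    rw [(d1 _ (by rw [← hD]; exact hD0)).deriv, hD]
  have e2 : deriv (deriv (fun τ : ℝ => Real.log (τ + s ^ 2))) (MB_N p) = -(1 / D ^ 2) := by
    have h1 : deriv (fun τ : ℝ => Real.log (τ + s ^ 2)) =ᶠ[nhds (MB_N p)]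
        fun τ => 1 / (τ + s ^ 2) := by
      have h2 : ∀ᶠ τ : ℝ in nhds (MB_N p), -(s ^ 2) < τ :=
        Ioi_mem_nhds (by linarith)
      filter_upwards [h2] with τ hτ
      exact (d1 τ (by linarith)).deriv
    rw [h1.deriv_eq]
    have h3 : HasDerivAt (fun τ : ℝ => 1 / (τ + s ^ 2)) (-(1 / D ^ 2)) (MB_N p) := by
      have h4 := ((hasDerivAt_id (MB_N p)).add_const (s ^ 2)).inv
        (by simp only [id]; rw [← hD]; exact hD0.ne')
      have h5 : (fun τ : ℝ => 1 / (τ + s ^ 2)) = (fun τ : ℝ => id τ + s ^ 2)⁻¹ := by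
        funext τ
        simp
      rw [h5]
      refine h4.congr_deriv ?_
      simp only [id]
      rw [← hD]
      ring
    exact h3.deriv
  have e3 : levi (fun q => Real.log (MB_N q + s ^ 2)) p v =
      MB_N v / D - Complex.normSq (conj p.1 * v.1 + conj p.2 * v.2) / D ^ 2 := by
    rw [levi_comp (h := fun τ : ℝ => Real.log (τ + s ^ 2)) c1 c2, e1, e2, MB_levi, MB_gradm]
    ring
  have e4 : gradm (fun q => Real.log (MB_N q + s ^ 2)) (fun q => Real.log (MB_N q + s ^ 2)) p v =
      Complex.normSq (conj p.1 * v.1 + conj p.2 * v.2) / D ^ 2 := by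
    have dN : DifferentiableAt ℝ MB_N p := c1.differentiableAt (by simp)
    have dl := c2.differentiableAt (by simp)
    rw [gradm_comp_left (h := fun τ : ℝ => Real.log (τ + s ^ 2)) dN dl, gradm_comm,
      gradm_comp_left (h := fun τ : ℝ => Real.log (τ + s ^ 2)) dN dl, e1, MB_gradm]
    ring
  have e5 : levi (fun q => H (Real.log (MB_N q + s ^ 2))) p v =
      Real.smoothTransition (t1 - Real.log D) *
        (MB_N v / D - Complex.normSq (conj p.1 * v.1 + conj p.2 * v.2) / D ^ 2) -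
      deriv Real.smoothTransition (t1 - Real.log D) *
        (Complex.normSq (conj p.1 * v.1 + conj p.2 * v.2) / D ^ 2) := by
    rw [levi_comp (f := fun q => Real.log (MB_N q + s ^ 2)) c3 (MB_two hH).contDiffAt, e3, e4, hH1,
      hH2, ← hD]
    ring
  rw [e5, ← hD]
  obtain ⟨z, hz⟩ : ∃ z, z = Complex.normSq (conj p.1 * v.1 + conj p.2 * v.2) := ⟨_, rfl⟩
  have hz0 : 0 ≤ z := by rw [hz]; exact Complex.normSq_nonneg _
  rw [← hz] at hcs ⊢
  obtain ⟨σ, hσ⟩ : ∃ σ, σ = Real.smoothTransition (t1 - Real.log D) := ⟨_, rfl⟩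
  have hσ0 : 0 ≤ σ := by rw [hσ]; exact Real.smoothTransition.nonneg _
  rw [← hσ]
  have hA : MB_N v * s ^ 2 / D ^ 2 ≤ MB_N v / D - z / D ^ 2 := by
    have h1 : MB_N v / D - z / D ^ 2 - MB_N v * s ^ 2 / D ^ 2 =
        (MB_N p * MB_N v - z) / D ^ 2 := by
      have h2 : MB_N v / D = MB_N v * D / D ^ 2 := by
        field_simp
      rw [h2, ← sub_div, ← sub_div]
      congr 1
      rw [hD]
      ring
    have h3 : 0 ≤ (MB_N p * MB_N v - z) / D ^ 2 := by
      apply div_nonneg (by linarith) (by positivity)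
    linarith
  have hA' : σ * (MB_N v * s ^ 2 / D ^ 2) ≤ σ * (MB_N v / D - z / D ^ 2) :=
    mul_le_mul_of_nonneg_left hA hσ0
  have hB : deriv Real.smoothTransition (t1 - Real.log D) * (z / D ^ 2) ≤ C * (12 / ρ ^ 2) := by
    rcases lt_or_ge 1 (t1 - Real.log D) with h | h
    · rw [(hC _).2 h, zero_mul]
      positivity
    · have h1 : t1 - 1 ≤ Real.log D := by linarith
      have h2 : Real.exp (t1 - 1) ≤ D := by
        rw [← Real.exp_log hD0]
        exact Real.exp_le_exp.2 h1
      have h3 : ρ ^ 2 ≤ 3 * D := by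
        have h4 : Real.exp t1 = Real.exp (t1 - 1) * Real.exp 1 := by
          rw [← Real.exp_add]
          congr 1
          ring
        have h5 : Real.exp 1 < 3 := Real.exp_one_lt_three
        have h6 : 0 < Real.exp 1 := Real.exp_pos _
        rw [← ht1, h4]
        nlinarith
      have h4 : z / D ^ 2 ≤ 12 / ρ ^ 2 := by
        have h5 : z / D ^ 2 ≤ 4 / D := by
          rw [div_le_div_iff₀ (by positivity) hD0]
          have h6 : z ≤ 4 * D := by
            have h7 : MB_N p * MB_N v ≤ MB_N p * 4 := mul_le_mul_of_nonneg_left hv hN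
            have h8 : MB_N p ≤ D := by rw [hD]; linarith
            linarith
          nlinarith
        refine h5.trans ?_
        rw [div_le_div_iff₀ hD0 (by positivity)]
        linarith
      have h5 : deriv Real.smoothTransition (t1 - Real.log D) ≤ C :=
        (le_abs_self _).trans (hC _).1
      have h6 : 0 ≤ z / D ^ 2 := by positivity
      calc _ ≤ C * (z / D ^ 2) := mul_le_mul_of_nonneg_right h5 h6
        _ ≤ _ := mul_le_mul_of_nonneg_left h4 hC0
  linarith

theorem MB_cont {g : ℂ × ℂ → ℝ} (hg : ContDiff ℝ ∞ g) {X : ℂ × ℂ → ℂ × ℂ} (hX : Continuous X) :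
    Continuous (fun p => levi g p (X p)) := by
  have h1 : (fun p => levi g p (X p)) = fun p => (fderiv ℝ (fderiv ℝ g) p (X p) (X p) +
      fderiv ℝ (fderiv ℝ g) p (Complex.I • X p) (Complex.I • X p)) / 4 := by
    funext p
    unfold levi
    rw [LC_app (MB_two hg).contDiffAt, LC_app (MB_two hg).contDiffAt]
  rw [h1]
  have h2 : ContDiff ℝ ∞ (fderiv ℝ g) := hg.fderiv_right (by simp)
  have h3 : Continuous (fderiv ℝ (fderiv ℝ g)) := h2.continuous_fderiv (by simp)
  have h4 : Continuous (fun p => Complex.I • X p) := (continuous_const (y := Complex.I)).smul hX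
  exact (((h3.clm_apply hX).clm_apply hX).add ((h3.clm_apply h4).clm_apply h4)).div_const 4

theorem Loc.mass {X : ℂ × ℂ → ℂ × ℂ} {r : ℝ} {M : Measure (ℂ × ℂ)} (h : Loc X r M) :
    ∃ C r' : ℝ, 0 < C ∧ 0 < r' ∧ r' ≤ r ∧ ∀ s : ℝ, 0 < s → s < r' →
      (M (Metric.ball 0 s)).toReal ≤ C * s ^ 2 := by
  have hfin := h.fin
  obtain ⟨C, hC0, hC⟩ := MB_sigma
  have hXc : Continuous X := h.hol.continuous
  have hNX : ContinuousAt (fun p => MB_N (X p)) 0 := (MB_cd.continuous.comp hXc).continuousAt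
  obtain ⟨δ, hδ, hδ1⟩ := Metric.continuousAt_iff.1 hNX (1 / 2) (by norm_num)
  have hN0 : MB_N (X 0) = 1 := by
    rw [h.zero]
    simp [MB_N]
  obtain ⟨ρ, hρd⟩ : ∃ ρ, ρ = min δ r / 2 := ⟨_, rfl⟩
  have hr := h.r_pos
  have hρ0 : 0 < ρ := by
    rw [hρd]
    have := lt_min hδ hr
    linarith
  have hρδ : ρ < δ := by
    rw [hρd]
    have h1 := min_le_left δ r
    have := lt_min hδ hr
    linarith
  have hρr : ρ < r := by
    rw [hρd]
    have h1 := min_le_right δ r
    have := lt_min hδ hr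
    linarith
  have hX1 : ∀ p : ℂ × ℂ, ‖p‖ ≤ ρ → 1 / 2 ≤ MB_N (X p) ∧ MB_N (X p) ≤ 4 := by
    intro p hp
    have h1 := hδ1 (x := p) (by rw [dist_zero_right]; linarith)
    rw [hN0, Real.dist_eq, abs_lt] at h1
    constructor <;> linarith [h1.1, h1.2]
  obtain ⟨t1, ht1⟩ : ∃ t1, Real.exp t1 = ρ ^ 2 := ⟨Real.log (ρ ^ 2), Real.exp_log (by positivity)⟩
  obtain ⟨H, hH, hH1, hH3, hH2⟩ := MB_H t1
  refine ⟨18 * (C * (12 / ρ ^ 2)) * (M Set.univ).toReal + 1, ρ / 3, by positivity, by positivity,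
    by linarith, ?_⟩
  intro s hs hsr
  have hs2 : 0 < s ^ 2 := by positivity
  have hpos : ∀ q : ℂ × ℂ, 0 < MB_N q + s ^ 2 := fun q => by
    have := MB_N_nonneg q
    linarith
  have hg : ContDiff ℝ ∞ (fun q => H (Real.log (MB_N q + s ^ 2))) :=
    hH.comp ((MB_cd.add contDiff_const).log fun q => (hpos q).ne')
  have hzero : ∀ q : ℂ × ℂ, ρ < ‖q‖ → H (Real.log (MB_N q + s ^ 2)) = 0 := by
    intro q hq
    apply hH3
    rw [Real.le_log_iff_exp_le (hpos q), ht1]
    have h1 := (MB_le q).1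
    nlinarith
  have hsub : tsupport (fun q => H (Real.log (MB_N q + s ^ 2))) ⊆ Metric.closedBall 0 ρ := by
    apply closure_minimal _ Metric.isClosed_closedBall
    intro q hq
    rw [Function.mem_support] at hq
    rw [mem_closedBall_zero_iff]
    by_contra hc
    push Not at hc
    exact hq (hzero q hc)
  have hcs : HasCompactSupport (fun q => H (Real.log (MB_N q + s ^ 2))) :=
    HasCompactSupport.of_support_subset_isCompact (isCompact_closedBall 0 ρ)
      (subset_closure.trans hsub)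
  have hint := h.harm _ hg hcs (hsub.trans (Metric.closedBall_subset_ball hρr))
  have hout : ∀ p : ℂ × ℂ, ρ < ‖p‖ →
      levi (fun q => H (Real.log (MB_N q + s ^ 2))) p (X p) = 0 := by
    intro p hp
    have h1 : (fun q => H (Real.log (MB_N q + s ^ 2))) =ᶠ[nhds p] fun _ => 0 := by
      have h2 : {q : ℂ × ℂ | ρ < ‖q‖} ∈ nhds p :=
        (isOpen_lt continuous_const continuous_norm).mem_nhds hp
      filter_upwards [h2] with q hq
      exact hzero q hq
    rw [levi_congr h1, levi_const]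
  have hK : 0 ≤ C * (12 / ρ ^ 2) := by positivity
  have hlow : ∀ p : ℂ × ℂ, (Metric.ball (0 : ℂ × ℂ) s).indicator (fun _ => 1 / (18 * s ^ 2)) p -
      C * (12 / ρ ^ 2) ≤ levi (fun q => H (Real.log (MB_N q + s ^ 2))) p (X p) := by
    intro p
    by_cases hp : p ∈ Metric.ball (0 : ℂ × ℂ) s
    · rw [Set.indicator_of_mem hp]
      rw [mem_ball_zero_iff] at hp
      have hpρ : ‖p‖ ≤ ρ := by linarith
      obtain ⟨x1, x2⟩ := hX1 p hpρ
      have h1 := MB_lower hH hH1 hH2 hC0 hC hρ0 ht1 hs p (X p) x2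
      refine le_trans ?_ h1
      have h2 : MB_N p + s ^ 2 ≤ 3 * s ^ 2 := by
        have h3 := (MB_le p).2
        have h4 := norm_nonneg p
        nlinarith
      have h3 : Real.smoothTransition (t1 - Real.log (MB_N p + s ^ 2)) = 1 := by
        apply Real.smoothTransition.one_of_one_le
        have h4 : Real.log (MB_N p + s ^ 2) ≤ t1 - 1 := by
          rw [Real.log_le_iff_le_exp (hpos p), Real.exp_sub, ht1, le_div_iff₀ (Real.exp_pos 1)]
          have h5 : Real.exp 1 < 3 := Real.exp_one_lt_three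
          have h6 : (MB_N p + s ^ 2) * Real.exp 1 ≤ 3 * s ^ 2 * 3 :=
            mul_le_mul h2 h5.le (Real.exp_pos 1).le (by positivity)
          nlinarith
        linarith
      rw [h3, one_mul]
      have h4 : 1 / (18 * s ^ 2) ≤ MB_N (X p) * s ^ 2 / (MB_N p + s ^ 2) ^ 2 := by
        rw [div_le_div_iff₀ (by positivity) (by have := hpos p; positivity)]
        have h5 : (MB_N p + s ^ 2) ^ 2 ≤ (3 * s ^ 2) ^ 2 :=
          pow_le_pow_left₀ (hpos p).le h2 2
        nlinarith [mul_pos hs2 hs2]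
      linarith
    · rw [Set.indicator_of_notMem hp]
      rcases le_or_gt ‖p‖ ρ with hpρ | hpρ
      · obtain ⟨x1, x2⟩ := hX1 p hpρ
        have h1 := MB_lower hH hH1 hH2 hC0 hC hρ0 ht1 hs p (X p) x2
        refine le_trans ?_ h1
        have h2 := Real.smoothTransition.nonneg (t1 - Real.log (MB_N p + s ^ 2))
        have h3 : 0 ≤ MB_N (X p) * s ^ 2 / (MB_N p + s ^ 2) ^ 2 := by
          have := hpos p
          have := MB_N_nonneg (X p)
          positivity
        have h4 := mul_nonneg h2 h3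
        linarith
      · rw [hout p hpρ]
        linarith
  have hI1 : Integrable (fun p => levi (fun q => H (Real.log (MB_N q + s ^ 2))) p (X p)) M := by
    apply (MB_cont hg hXc).integrable_of_hasCompactSupport
    apply HasCompactSupport.of_support_subset_isCompact (isCompact_closedBall 0 ρ)
    intro p hp
    rw [Function.mem_support] at hp
    rw [mem_closedBall_zero_iff]
    by_contra hc
    push Not at hc
    exact hp (hout p hc)
  have hI2 : Integrable (fun p => (Metric.ball (0 : ℂ × ℂ) s).indicator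
      (fun _ => 1 / (18 * s ^ 2)) p - C * (12 / ρ ^ 2)) M :=
    ((integrable_const _).indicator Metric.isOpen_ball.measurableSet).sub (integrable_const _)
  have h1 := integral_mono hI2 hI1 hlow
  rw [hint, integral_sub ((integrable_const _).indicator Metric.isOpen_ball.measurableSet)
    (integrable_const _), integral_indicator Metric.isOpen_ball.measurableSet, integral_const,
    integral_const, measureReal_restrict_apply_univ, smul_eq_mul, smul_eq_mul] at h1
  have h2 : (M (Metric.ball 0 s)).toReal * (1 / (18 * s ^ 2)) ≤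
      (M Set.univ).toReal * (C * (12 / ρ ^ 2)) := by
    have h3 : M.real (Metric.ball 0 s) = (M (Metric.ball 0 s)).toReal := rfl
    have h4 : M.real Set.univ = (M Set.univ).toReal := rfl
    rw [h3, h4] at h1
    linarith
  have h3 : (M (Metric.ball 0 s)).toReal ≤
      (M Set.univ).toReal * (C * (12 / ρ ^ 2)) * (18 * s ^ 2) := by
    rw [mul_one_div, div_le_iff₀ (by positivity)] at h2
    exact h2
  refine h3.trans ?_
  nlinarith

end Pool.Agent.H24.CU
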