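import Pool.Agent.H24.CU.LocDefs
import Pool.Agent.H24.CU.LC

/-!
# Row TF (the test function along the leaf)

SETTING.  `X` holomorphic, `X 0 = (1,0)`, `Y` the leaf (`Leaf X r ρ Y`).  For `0 < b' <= b`, `0 < a`:
`Φ : ℝ → ℝ` a fixed smooth function, `Φ = 1` on `(-∞, 1/4]`, `Φ = 0` on `[1, ∞)`, `0 <= Φ <= 1` (for instance
`Φ t = Real.smoothTransition ((1 - t) * 4 / 3)`), with bounded first and second derivatives.
`W p = p.2 - Y p.1` (holomorphic on `‖p.1‖ < ρ`), `φ p = Φ (normSq (W p) / a^2)`,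
`g p = Φ (normSq p.1 / b^2) * log ((normSq p.1 + b'^2) / b^2)`, `G = φ g` (and `G = 0` for `‖p.1‖ >= ρ`).
CLAIM.  There are `K >= 1`, `r₂ > 0` (depending on `X, Y, r, ρ` only), `2 r₂ < ρ`, such that for all
`0 < b' <= b/2`, `b <= r₂`, `0 < a <= r₂` there is a smooth compactly supported `G : ℂ × ℂ → ℝ` with
`tsupport G ⊆ ball 0 r` and for all `p` with `‖p.1‖ < ρ`
 `levi G p (X p) >= (1/2) b'^2/(normSq p.1 + b'^2)^2` if `‖p.1‖ <= b/2`, `‖W p‖ <= a/2`, up to the error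
 `- K (1/(‖p.1‖ + b'))`; and everywhere on `{‖p.1‖ <= b, ‖W p‖ <= a}`:
 `levi G p (X p) >= - K / b^2 - K / (‖p.1‖ + b')`, and `levi G p (X p) = 0` if `‖p.1‖ > b` or `‖W p‖ > a`.
PROOF.  `X W := fderiv ℂ W p (X p) = X_2 - Y'(p.1) X_1` vanishes where `W p = 0` (`Leaf.ode`), it is
holomorphic, so `|X W| <= K1 |W|` on `{‖p.1‖ <= r₂', ‖p.2‖ <= r₂'}` (mean value inequality in the variable
`p.2` from `Y p.1` to `p.2`; `|Y z| <= K0 |z|`).  Choose `r₂` so small that `‖p.1‖ <= r₂, ‖W p‖ <= r₂` implies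
`‖p.1‖, ‖p.2‖ <= r₂'` (and `< r`) and `1/2 <= normSq (X p).1 <= 2`.
`levi (normSq W)(X) = |XW|^2`, `gradm (normSq W)(normSq W)(X) = |W|^2 |XW|^2`, so on `‖W p‖ <= a`:
`levi φ (X) = Φ' |XW|^2/a^2 + Φ'' |W|^2|XW|^2/a^4` is bounded by a constant, `gradm φ φ (X) = Φ'^2 |W|^2 |XW|^2/a^4`
is bounded (they vanish for `‖W p‖ > a`).  `levi g (X) = normSq (X p).1 * levi1 g`, where for functions of
`z = p.1` only (`levi_comp_hol` with the projection): with `L = log((|z|^2+b'^2)/b^2)`, `levi1 L = b'^2/(|z|^2+b'^2)^2`,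
`gradm L L = |z|^2/(|z|^2+b'^2)^2 <= 1/(|z|^2 + b'^2) <= 2/(|z|+b')^2`; for `χ = Φ(|z|^2/b^2)`: `χ = 1` for
`|z| <= b/2`, `levi1 χ`, `gradm χ χ` are `O(1/b^2)` and supported in `b/2 <= |z| <= b`, where `|L| <= 2`
(`b'^2 <= b^2/4`: `1/4 <= (|z|^2+b'^2)/b^2 <= 5/4`).  So
`levi1 g = χ levi1 L + L levi1 χ + 2 gradm χ L >= χ levi1 L - K2/b^2 1_{b/2 <= |z| <= b}`,
`gradm g g <= K2/(|z| + b')^2`, `|g| <= |L| <= K2 b/(|z|+b') <= K2 /(|z|+b')` (`|log x| <= 2/√x + ..` for `x = (|z|^2+b'^2)/b^2 <= 2`,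
`√x >= (|z|+b')/(2b)`, and `b <= 1`).
`levi G (X) = φ levi g (X) + g levi φ (X) + 2 gradm φ g (X)`
`>= φ normSq X_1 χ levi1 L - K/b^2 1_{|z| >= b/2} - K/(|z|+b')`.
-/

namespace Pool.Agent.H24.CU

open scoped ContDiff Topology ComplexConjugate

noncomputable def TF_Phi (t : ℝ) : ℝ := Real.smoothTransition ((1 - t) * 2)

theorem TF_cd : ContDiff ℝ ∞ TF_Phi :=
  Real.smoothTransition.contDiff.comp ((contDiff_const.sub contDiff_id).mul contDiff_const)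

theorem TF_one {t : ℝ} (h : t ≤ 1 / 2) : TF_Phi t = 1 :=
  Real.smoothTransition.one_of_one_le (by linarith)

theorem TF_zero {t : ℝ} (h : 1 ≤ t) : TF_Phi t = 0 :=
  Real.smoothTransition.zero_of_nonpos (by linarith)

theorem TF_nonneg (t : ℝ) : 0 ≤ TF_Phi t := Real.smoothTransition.nonneg _

theorem TF_le_one (t : ℝ) : TF_Phi t ≤ 1 := Real.smoothTransition.le_one _

theorem TF_d0 (t : ℝ) : HasDerivAt TF_Phi (deriv TF_Phi t) t :=
  (TF_cd.differentiable (by simp) t).hasDerivAt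

theorem TF_cd1 : ContDiff ℝ ∞ (deriv TF_Phi) := by
  have h := TF_cd
  rw [show (∞ : WithTop ℕ∞) = ∞ + 1 from rfl] at h
  exact (contDiff_succ_iff_deriv.1 h).2.2

theorem TF_d1 (t : ℝ) : HasDerivAt (deriv TF_Phi) (deriv (deriv TF_Phi) t) t :=
  (TF_cd1.differentiable (by simp) t).hasDerivAt

theorem TF_cd2 : ContDiff ℝ ∞ (deriv (deriv TF_Phi)) := by
  have h := TF_cd1
  rw [show (∞ : WithTop ℕ∞) = ∞ + 1 from rfl] at h
  exact (contDiff_succ_iff_deriv.1 h).2.2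

theorem TF_z1 {t : ℝ} (h : t < 1 / 2) : deriv TF_Phi t = 0 := by
  have h1 : TF_Phi =ᶠ[𝓝 t] fun _ => (1 : ℝ) := by
    filter_upwards [Iio_mem_nhds h] with s hs
    exact TF_one (le_of_lt hs)
  rw [h1.deriv_eq, deriv_const]

theorem TF_z2 {t : ℝ} (h : t < 1 / 2) : deriv (deriv TF_Phi) t = 0 := by
  have h1 : deriv TF_Phi =ᶠ[𝓝 t] fun _ => (0 : ℝ) := by
    filter_upwards [Iio_mem_nhds h] with s hs
    exact TF_z1 hs
  rw [h1.deriv_eq, deriv_const]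

theorem TF_bound : ∃ C : ℝ, 1 ≤ C ∧ ∀ t ∈ Set.Icc (0 : ℝ) 1,
    |deriv TF_Phi t| ≤ C ∧ |deriv (deriv TF_Phi) t| ≤ C := by
  obtain ⟨C1, h1⟩ := isCompact_Icc.exists_bound_of_continuousOn
    (TF_cd1.continuous.continuousOn (s := Set.Icc (0 : ℝ) 1))
  obtain ⟨C2, h2⟩ := isCompact_Icc.exists_bound_of_continuousOn
    (TF_cd2.continuous.continuousOn (s := Set.Icc (0 : ℝ) 1))
  refine ⟨max 1 (max C1 C2), le_max_left _ _, fun t ht => ⟨?_, ?_⟩⟩
  · exact (h1 t ht).trans ((le_max_left _ _).trans (le_max_right _ _))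
  · exact (h2 t ht).trans ((le_max_right _ _).trans (le_max_right _ _))

/-- The rescaled cut-off. -/
theorem TF_sc1 (c t : ℝ) :
    HasDerivAt (fun s => TF_Phi (s / c)) (deriv TF_Phi (t / c) / c) t := by
  have h := (TF_d0 (t / c)).comp t ((hasDerivAt_id t).div_const c)
  have e : deriv TF_Phi (t / c) * (1 / c) = deriv TF_Phi (t / c) / c := by ring
  rw [e] at h
  exact h

theorem TF_sc2 (c t : ℝ) :
    HasDerivAt (fun s => deriv TF_Phi (s / c) / c) (deriv (deriv TF_Phi) (t / c) / c ^ 2) t := by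
  have h := ((TF_d1 (t / c)).comp t ((hasDerivAt_id t).div_const c)).div_const c
  have e : deriv (deriv TF_Phi) (t / c) * (1 / c) / c = deriv (deriv TF_Phi) (t / c) / c ^ 2 := by
    rw [pow_two, ← div_div]
    ring
  rw [e] at h
  exact h

theorem TF_dk (c t : ℝ) : deriv (fun s => TF_Phi (s / c)) t = deriv TF_Phi (t / c) / c :=
  (TF_sc1 c t).deriv

theorem TF_ddk (c t : ℝ) :
    deriv (deriv (fun s => TF_Phi (s / c))) t = deriv (deriv TF_Phi) (t / c) / c ^ 2 := by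
  have h : deriv (fun s => TF_Phi (s / c)) = fun s => deriv TF_Phi (s / c) / c := by
    funext s
    exact TF_dk c s
  rw [h]
  exact (TF_sc2 c t).deriv

/-- The profile of the logarithm, cut off. -/
noncomputable def TF_k (B s t : ℝ) : ℝ := TF_Phi (t / B) * Real.log ((t + s) / B)

theorem TF_log {B s t : ℝ} (hB : 0 < B) (ht : 0 < t + s) :
    HasDerivAt (fun u => Real.log ((u + s) / B)) (1 / (t + s)) t := by
  have h1 : HasDerivAt (fun u : ℝ => (u + s) / B) (1 / B) t :=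
    ((hasDerivAt_id t).add_const s).div_const B
  have h2 := h1.log (div_pos ht hB).ne'
  have e : 1 / B / ((t + s) / B) = 1 / (t + s) := by
    field_simp
  rw [e] at h2
  exact h2

theorem TF_k1 {B s t : ℝ} (hB : 0 < B) (ht : 0 < t + s) :
    deriv (TF_k B s) t = deriv TF_Phi (t / B) / B * Real.log ((t + s) / B) +
      TF_Phi (t / B) * (1 / (t + s)) :=
  ((TF_sc1 B t).mul (TF_log hB ht)).deriv

theorem TF_k2 {B s t : ℝ} (hB : 0 < B) (ht : 0 < t + s) :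
    deriv (deriv (TF_k B s)) t = deriv (deriv TF_Phi) (t / B) / B ^ 2 * Real.log ((t + s) / B) +
      2 * (deriv TF_Phi (t / B) / B * (1 / (t + s))) - TF_Phi (t / B) * (1 / (t + s) ^ 2) := by
  have h0 : deriv (TF_k B s) =ᶠ[𝓝 t] fun u => deriv TF_Phi (u / B) / B * Real.log ((u + s) / B) +
      TF_Phi (u / B) * (1 / (u + s)) := by
    have hc : ContinuousAt (fun u : ℝ => u + s) t := by fun_prop
    filter_upwards [hc.eventually (lt_mem_nhds ht)] with u hu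
    exact TF_k1 hB hu
  have h1 : HasDerivAt (fun u : ℝ => 1 / (u + s)) (-(1 / (t + s) ^ 2)) t := by
    have h := ((hasDerivAt_id t).add_const s).inv ht.ne'
    have e1 : (fun u : ℝ => 1 / (u + s)) = (fun u : ℝ => id u + s)⁻¹ := by
      funext u
      simp
    rw [e1]
    have e : -1 / (id t + s) ^ 2 = -(1 / (t + s) ^ 2) := by
      rw [id]
      ring
    rw [← e]
    exact h
  have h2 := ((TF_sc2 B t).mul (TF_log hB ht)).add ((TF_sc1 B t).mul h1)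
  have h3 : deriv (fun u => deriv TF_Phi (u / B) / B * Real.log ((u + s) / B) +
      TF_Phi (u / B) * (1 / (u + s))) t = _ := h2.deriv
  rw [h0.deriv_eq, h3]
  ring

theorem TF_logabs {x u : ℝ} (hx : x ≤ 5 / 4) (hu : 0 < u) (hux : u ^ 2 ≤ x) :
    |Real.log x| ≤ 2 / u := by
  have hx0 : 0 < x := lt_of_lt_of_le (by positivity) hux
  have hu2 : u ≤ 2 := by nlinarith
  rw [abs_le]
  constructor
  · have h1 : 2 * Real.log u ≤ Real.log x := by
      rw [← Real.log_rpow hu]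
      apply Real.log_le_log (Real.rpow_pos_of_pos hu _)
      rw [Real.rpow_two]
      exact hux
    have h2 := Real.one_sub_inv_le_log_of_pos hu
    have h3 : 2 / u = 2 * u⁻¹ := div_eq_mul_inv _ _
    rw [h3]
    linarith
  · have h1 := Real.log_le_sub_one_of_pos hx0
    have h2 : 1 ≤ 2 / u := by
      rw [le_div_iff₀ hu]
      linarith
    linarith

theorem TF_log1 {B s t : ℝ} (hB : 0 < B) (hs : 0 < s) (hsB : s ≤ B / 4) (htB : t ≤ B)
    (h2 : 1 / 2 ≤ t / B) : |Real.log ((t + s) / B)| ≤ 1 := by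
  have ht : B / 2 ≤ t := by
    rw [le_div_iff₀ hB] at h2
    linarith
  have h3 : (t + s) / B ≤ 5 / 4 := by
    rw [div_le_iff₀ hB]
    linarith
  have h4 : 1 / 2 ≤ (t + s) / B := by
    rw [le_div_iff₀ hB]
    linarith
  have h5 : 0 < (t + s) / B := by linarith
  rw [abs_le]
  constructor
  · have h6 := Real.one_sub_inv_le_log_of_pos h5
    have h7 : ((t + s) / B)⁻¹ ≤ (1 / 2)⁻¹ := inv_anti₀ (by norm_num) h4
    have h8 : ((1 : ℝ) / 2)⁻¹ = 2 := by norm_num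
    linarith
  · have h6 := Real.log_le_sub_one_of_pos h5
    linarith

theorem TF_id {B s t : ℝ} (hB : 0 < B) (hs : 0 < t + s) :
    deriv (TF_k B s) t + t * deriv (deriv (TF_k B s)) t =
      TF_Phi (t / B) * (s / (t + s) ^ 2) +
      Real.log ((t + s) / B) * (deriv TF_Phi (t / B) / B + t / B * (deriv (deriv TF_Phi) (t / B) / B)) +
      2 * (t / (t + s)) * (deriv TF_Phi (t / B) / B) := by
  rw [TF_k1 hB hs, TF_k2 hB hs]
  have h1 : s / (t + s) ^ 2 = 1 / (t + s) - t * (1 / (t + s) ^ 2) := by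
    field_simp
    ring
  rw [h1]
  have h2 : t / (t + s) = t * (1 / (t + s)) := by ring
  rw [h2]
  field_simp
  ring

theorem TF_lower {B s t C : ℝ} (hB : 0 < B) (hs : 0 < s) (hsB : s ≤ B / 4) (ht : 0 ≤ t)
    (htB : t ≤ B) (hC : 1 ≤ C)
    (hCb : ∀ t ∈ Set.Icc (0 : ℝ) 1, |deriv TF_Phi t| ≤ C ∧ |deriv (deriv TF_Phi) t| ≤ C) :
    -(4 * C / B) ≤ deriv (TF_k B s) t + t * deriv (deriv (TF_k B s)) t := by
  have hts : 0 < t + s := by linarith
  rw [TF_id hB hts]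
  have hx : t / B ∈ Set.Icc (0 : ℝ) 1 := ⟨by positivity, by rw [div_le_one hB]; exact htB⟩
  obtain ⟨b1, b2⟩ := hCb _ hx
  have f0 : 0 ≤ TF_Phi (t / B) * (s / (t + s) ^ 2) := mul_nonneg (TF_nonneg _) (by positivity)
  have hCB : 0 < C / B := by positivity
  have e1 : |deriv TF_Phi (t / B) / B| ≤ C / B := by
    rw [abs_div, abs_of_pos hB]
    gcongr
  have e2 : |deriv (deriv TF_Phi) (t / B) / B| ≤ C / B := by
    rw [abs_div, abs_of_pos hB]
    gcongr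
  have e3 : |t / B * (deriv (deriv TF_Phi) (t / B) / B)| ≤ C / B := by
    rw [abs_mul, abs_of_nonneg hx.1]
    calc t / B * |deriv (deriv TF_Phi) (t / B) / B| ≤ 1 * (C / B) :=
          mul_le_mul hx.2 e2 (abs_nonneg _) zero_le_one
      _ = C / B := one_mul _
  have g1 : |Real.log ((t + s) / B) *
      (deriv TF_Phi (t / B) / B + t / B * (deriv (deriv TF_Phi) (t / B) / B))| ≤ 2 * (C / B) := by
    by_cases hlt : t / B < 1 / 2
    · rw [TF_z1 hlt, TF_z2 hlt]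
      simp only [zero_div, mul_zero, add_zero, abs_zero]
      positivity
    · have hl := TF_log1 hB hs hsB htB (not_lt.1 hlt)
      rw [abs_mul]
      calc |Real.log ((t + s) / B)| *
            |deriv TF_Phi (t / B) / B + t / B * (deriv (deriv TF_Phi) (t / B) / B)|
          ≤ 1 * (C / B + C / B) :=
            mul_le_mul hl ((abs_add_le _ _).trans (add_le_add e1 e3)) (abs_nonneg _) zero_le_one
        _ = 2 * (C / B) := by ring
  have g2 : |2 * (t / (t + s)) * (deriv TF_Phi (t / B) / B)| ≤ 2 * (C / B) := by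
    have h3 : t / (t + s) ≤ 1 := by
      rw [div_le_one hts]
      linarith
    have h4 : 0 ≤ t / (t + s) := by positivity
    rw [abs_mul, abs_mul, abs_of_nonneg h4, abs_of_pos (by norm_num : (0 : ℝ) < 2)]
    calc 2 * (t / (t + s)) * |deriv TF_Phi (t / B) / B| ≤ 2 * 1 * (C / B) :=
          mul_le_mul (by linarith) e1 (abs_nonneg _) (by norm_num)
      _ = 2 * (C / B) := by ring
  have g1' := (abs_le.1 g1).1
  have g2' := (abs_le.1 g2).1
  have e4 : 4 * C / B = 2 * (C / B) + 2 * (C / B) := by ring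
  rw [e4]
  linarith

theorem TF_inner {B s t : ℝ} (hB : 0 < B) (hs : 0 < s) (ht : 0 ≤ t)
    (htB : t ≤ B / 4) :
    deriv (TF_k B s) t + t * deriv (deriv (TF_k B s)) t = s / (t + s) ^ 2 := by
  have hts : 0 < t + s := by linarith
  have hlt : t / B < 1 / 2 := by
    rw [div_lt_iff₀ hB]
    linarith
  rw [TF_id hB hts, TF_z1 hlt, TF_z2 hlt, TF_one hlt.le]
  ring

theorem TF_grad {B s t C : ℝ} (hB : 0 < B) (hs : 0 < s) (hsB : s ≤ B / 4) (ht : 0 ≤ t)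
    (htB : t ≤ B) (hC : 1 ≤ C)
    (hCb : ∀ t ∈ Set.Icc (0 : ℝ) 1, |deriv TF_Phi t| ≤ C ∧ |deriv (deriv TF_Phi) t| ≤ C) :
    deriv (TF_k B s) t ^ 2 * t ≤ 9 * C ^ 2 / (t + s) := by
  have hts : 0 < t + s := by linarith
  have hx : t / B ∈ Set.Icc (0 : ℝ) 1 := ⟨by positivity, by rw [div_le_one hB]; exact htB⟩
  obtain ⟨b1, b2⟩ := hCb _ hx
  have hCB : 0 < C / B := by positivity
  have e1 : |deriv TF_Phi (t / B) / B| ≤ C / B := by
    rw [abs_div, abs_of_pos hB]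
    gcongr
  have hinv : C / B ≤ 2 * C / (t + s) := by
    rw [div_le_div_iff₀ hB hts]
    have : 0 ≤ C := by linarith
    nlinarith
  have g1 : |deriv TF_Phi (t / B) / B * Real.log ((t + s) / B)| ≤ C / B := by
    by_cases hlt : t / B < 1 / 2
    · rw [TF_z1 hlt]
      simp only [zero_div, zero_mul, abs_zero]
      exact hCB.le
    · have hl := TF_log1 hB hs hsB htB (not_lt.1 hlt)
      rw [abs_mul]
      calc |deriv TF_Phi (t / B) / B| * |Real.log ((t + s) / B)| ≤ C / B * 1 :=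
            mul_le_mul e1 hl (abs_nonneg _) hCB.le
        _ = C / B := mul_one _
  have g2 : |TF_Phi (t / B) * (1 / (t + s))| ≤ C / (t + s) := by
    rw [abs_mul, abs_of_nonneg (TF_nonneg _), abs_of_pos (by positivity : 0 < 1 / (t + s))]
    calc TF_Phi (t / B) * (1 / (t + s)) ≤ C * (1 / (t + s)) := by
          gcongr
          exact (TF_le_one _).trans hC
      _ = C / (t + s) := by ring
  have g3 : |deriv (TF_k B s) t| ≤ 3 * C / (t + s) := by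
    rw [TF_k1 hB hts]
    have e5 : 3 * C / (t + s) = 2 * C / (t + s) + C / (t + s) := by ring
    rw [e5]
    exact (abs_add_le _ _).trans (add_le_add (g1.trans hinv) g2)
  have g4 : deriv (TF_k B s) t ^ 2 ≤ (3 * C / (t + s)) ^ 2 := by
    rw [← sq_abs]
    exact pow_le_pow_left₀ (abs_nonneg _) g3 2
  calc deriv (TF_k B s) t ^ 2 * t ≤ (3 * C / (t + s)) ^ 2 * (t + s) :=
        mul_le_mul g4 (by linarith) ht (by positivity)
    _ = 9 * C ^ 2 / (t + s) := by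
        field_simp
        ring

theorem TF_size {b z b' : ℝ} (hb : 0 < b) (hb1 : b ≤ 1) (hb' : 0 < b') (hbb : b' ≤ b / 2)
    (hz : 0 ≤ z) (hzb : z ≤ b) : |TF_k (b ^ 2) (b' ^ 2) (z ^ 2)| ≤ 4 / (z + b') := by
  have hy : 0 < z + b' := by linarith
  have h1 : |Real.log ((z ^ 2 + b' ^ 2) / b ^ 2)| ≤ 2 / ((z + b') / (2 * b)) := by
    apply TF_logabs
    · rw [div_le_iff₀ (by positivity)]
      nlinarith
    · positivity
    · rw [div_pow, div_le_div_iff₀ (by positivity) (by positivity)]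
      have hs : (z + b') ^ 2 ≤ 2 * (z ^ 2 + b' ^ 2) := by nlinarith [sq_nonneg (z - b')]
      have hs2 : 0 ≤ z ^ 2 + b' ^ 2 := by positivity
      have hb2 : 0 < b ^ 2 := by positivity
      calc (z + b') ^ 2 * b ^ 2 ≤ 2 * (z ^ 2 + b' ^ 2) * b ^ 2 := by gcongr
        _ ≤ (z ^ 2 + b' ^ 2) * (2 * b) ^ 2 := by nlinarith
  have h2 : 2 / ((z + b') / (2 * b)) = 4 * b / (z + b') := by
    field_simp
    ring
  rw [h2] at h1
  unfold TF_k
  rw [abs_mul, abs_of_nonneg (TF_nonneg _)]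
  calc TF_Phi (z ^ 2 / b ^ 2) * |Real.log ((z ^ 2 + b' ^ 2) / b ^ 2)| ≤ 1 * (4 * b / (z + b')) :=
        mul_le_mul (TF_le_one _) h1 (abs_nonneg _) zero_le_one
    _ ≤ 4 / (z + b') := by
        rw [one_mul]
        gcongr
        linarith

theorem TF_lip {X : ℂ × ℂ → ℂ × ℂ} (hX : Differentiable ℂ X) {r : ℝ} :
    ∃ M : ℝ, 0 ≤ M ∧ ∀ z w w' : ℂ, ‖z‖ ≤ r → ‖w‖ ≤ r → ‖w'‖ ≤ r →
      ‖X (z, w) - X (z, w')‖ ≤ M * ‖w - w'‖ := by
  obtain ⟨C, hC⟩ := (isCompact_closedBall (0 : ℂ × ℂ) (r + 1)).exists_bound_of_continuousOn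
    hX.continuous.continuousOn
  refine ⟨max C 0, le_max_right _ _, fun z w w' hz hw hw' => ?_⟩
  have hd : Differentiable ℂ fun u : ℂ => X (z, u) :=
    hX.comp ((differentiable_const z).prodMk differentiable_id)
  have hb : ∀ u ∈ Metric.closedBall (0 : ℂ) r, ‖deriv (fun u : ℂ => X (z, u)) u‖ ≤ max C 0 := by
    intro u hu
    have hu' : ‖u‖ ≤ r := by simpa using hu
    have h1 := Complex.norm_deriv_le_of_forall_mem_sphere_norm_le (c := u) (R := 1) (C := max C 0)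
      (f := fun u : ℂ => X (z, u)) one_pos hd.diffContOnCl (by
        intro v hv
        refine (hC (z, v) ?_).trans (le_max_left _ _)
        have hv' : ‖v - u‖ = 1 := by
          rw [← dist_eq_norm]
          exact hv
        have hv2 : ‖v‖ ≤ r + 1 := by
          calc ‖v‖ = ‖u + (v - u)‖ := by congr 1; ring
            _ ≤ ‖u‖ + ‖v - u‖ := norm_add_le _ _
            _ ≤ r + 1 := by linarith
        rw [mem_closedBall_zero_iff, Prod.norm_def]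
        exact max_le (by linarith) hv2)
    simpa using h1
  have h2 := (convex_closedBall (0 : ℂ) r).norm_image_sub_le_of_norm_deriv_le
    (f := fun u : ℂ => X (z, u)) (fun u _ => hd u) hb (x := w') (y := w)
    (by simpa using hw') (by simpa using hw)
  exact h2

theorem TF_geom {X : ℂ × ℂ → ℂ × ℂ} (hX : Differentiable ℂ X) (h0 : X 0 = (1, 0)) {r ρ : ℝ}
    {Y : ℂ → ℂ} (hr : 0 < r) (hY : Leaf X r ρ Y) :
    ∃ K0 K1 r₂ : ℝ, 1 ≤ K0 ∧ 0 ≤ K1 ∧ 0 < r₂ ∧ r₂ ≤ 1 ∧ 2 * r₂ < ρ ∧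
      (∀ z : ℂ, ‖z‖ ≤ 2 * r₂ → ‖Y z‖ ≤ K0 * ‖z‖) ∧
      (∀ p : ℂ × ℂ, ‖p.1‖ ≤ r₂ → ‖p.2 - Y p.1‖ ≤ r₂ → p ∈ Metric.ball (0 : ℂ × ℂ) r ∧
        1 / 2 ≤ Complex.normSq (X p).1 ∧ Complex.normSq (X p).1 ≤ 2 ∧
        ‖(X p).2 - deriv Y p.1 * (X p).1‖ ≤ K1 * ‖p.2 - Y p.1‖) := by
  have hρ := hY.pos
  have hsub : Metric.closedBall (0 : ℂ) (ρ / 2) ⊆ Metric.ball 0 ρ :=
    Metric.closedBall_subset_ball (by linarith)
  obtain ⟨C, hC⟩ := (isCompact_closedBall (0 : ℂ) (ρ / 2)).exists_bound_of_continuousOn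
    ((hY.hol.deriv Metric.isOpen_ball).continuousOn.mono hsub)
  obtain ⟨M, hM0, hM⟩ := TF_lip hX (r := r)
  set K0 := max C 1 with hK0
  have hK01 : 1 ≤ K0 := le_max_right _ _
  have hYd : ∀ z ∈ Metric.closedBall (0 : ℂ) (ρ / 2), DifferentiableAt ℂ Y z := fun z hz =>
    (hY.hol z (hsub hz)).differentiableAt (Metric.isOpen_ball.mem_nhds (hsub hz))
  have hYb : ∀ z : ℂ, ‖z‖ ≤ ρ / 2 → ‖Y z‖ ≤ K0 * ‖z‖ := by
    intro z hz
    have h2 := (convex_closedBall (0 : ℂ) (ρ / 2)).norm_image_sub_le_of_norm_deriv_le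
      hYd (fun z hz => (hC z hz).trans (le_max_left C 1)) (x := 0) (y := z)
      (by simp; linarith) (by simpa using hz)
    rw [hY.zero, sub_zero, sub_zero] at h2
    exact h2
  have hXc : ContinuousAt X 0 := hX.continuous.continuousAt
  obtain ⟨δ, hδ, hδ'⟩ := Metric.continuousAt_iff.1 hXc (1 / 4) (by norm_num)
  set r₂ := min (ρ / 5) (min 1 (min r δ / (3 * K0))) with hr₂
  have hm : 0 < min r δ := lt_min hr hδ
  have hpos : 0 < r₂ := lt_min (by positivity) (lt_min one_pos (by positivity))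
  have h1 : r₂ ≤ ρ / 5 := min_le_left _ _
  have h2 : r₂ ≤ 1 := (min_le_right _ _).trans (min_le_left _ _)
  have h3 : r₂ ≤ min r δ / (3 * K0) := (min_le_right _ _).trans (min_le_right _ _)
  have h4 : r₂ * (3 * K0) ≤ min r δ := by
    rwa [le_div_iff₀ (by positivity)] at h3
  have hr1 : min r δ ≤ r := min_le_left _ _
  have hδ1 : min r δ ≤ δ := min_le_right _ _
  have h5 : r₂ + K0 * r₂ < min r δ := by nlinarith
  have h6 : r₂ < min r δ := by nlinarith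
  refine ⟨K0, (1 + K0) * M, r₂, hK01, by positivity, hpos, h2, by linarith,
    fun z hz => hYb z (by linarith), fun p hp1 hp2 => ?_⟩
  have hp1' : ‖p.1‖ ≤ ρ / 2 := by linarith
  have hYp : ‖Y p.1‖ ≤ K0 * r₂ := (hYb p.1 hp1').trans (by gcongr)
  have hp3 : ‖p.2‖ < min r δ := by
    calc ‖p.2‖ = ‖(p.2 - Y p.1) + Y p.1‖ := by congr 1; ring
      _ ≤ ‖p.2 - Y p.1‖ + ‖Y p.1‖ := norm_add_le _ _
      _ ≤ r₂ + K0 * r₂ := add_le_add hp2 hYp
      _ < min r δ := h5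
  have hpn : ‖p‖ < min r δ := by
    rw [Prod.norm_def]
    exact max_lt (by linarith) hp3
  have hX1 : ‖(X p).1 - 1‖ < 1 / 4 := by
    have h7 := @hδ' p (by rw [dist_zero_right]; linarith)
    rw [h0, dist_eq_norm, Prod.norm_def] at h7
    exact lt_of_le_of_lt (le_max_left _ _) h7
  have hu : ‖(X p).1‖ ≤ 5 / 4 := by
    calc ‖(X p).1‖ = ‖((X p).1 - 1) + 1‖ := by congr 1; ring
      _ ≤ ‖(X p).1 - 1‖ + ‖(1 : ℂ)‖ := norm_add_le _ _
      _ ≤ 5 / 4 := by rw [norm_one]; linarith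
  have hl : 3 / 4 ≤ ‖(X p).1‖ := by
    have h8 : ‖(1 : ℂ)‖ ≤ ‖(X p).1‖ + ‖(X p).1 - 1‖ := by
      calc ‖(1 : ℂ)‖ = ‖(X p).1 - ((X p).1 - 1)‖ := by congr 1; ring
        _ ≤ _ := norm_sub_le _ _
    rw [norm_one] at h8
    linarith
  refine ⟨by rw [mem_ball_zero_iff]; linarith, ?_, ?_, ?_⟩
  · rw [Complex.normSq_eq_norm_sq]
    nlinarith
  · rw [Complex.normSq_eq_norm_sq]
    nlinarith
  · have hmem : p.1 ∈ Metric.ball (0 : ℂ) ρ := by
      rw [mem_ball_zero_iff]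
      linarith
    have ho := hY.ode p.1 hmem
    have hlip := hM p.1 p.2 (Y p.1) (by linarith) (by linarith) (by linarith)
    have hc : ‖deriv Y p.1‖ ≤ K0 := (hC p.1 (by simpa using hp1')).trans (le_max_left _ _)
    have e1 : (X p).2 - deriv Y p.1 * (X p).1 = (X (p.1, p.2) - X (p.1, Y p.1)).2 -
        deriv Y p.1 * (X (p.1, p.2) - X (p.1, Y p.1)).1 := by
      rw [Prod.snd_sub, Prod.fst_sub, mul_sub, ho]
      ring
    rw [e1]
    have n1 : ‖(X (p.1, p.2) - X (p.1, Y p.1)).1‖ ≤ M * ‖p.2 - Y p.1‖ :=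
      (norm_fst_le _).trans hlip
    have n2 : ‖(X (p.1, p.2) - X (p.1, Y p.1)).2‖ ≤ M * ‖p.2 - Y p.1‖ :=
      (norm_snd_le _).trans hlip
    calc ‖(X (p.1, p.2) - X (p.1, Y p.1)).2 - deriv Y p.1 * (X (p.1, p.2) - X (p.1, Y p.1)).1‖
        ≤ ‖(X (p.1, p.2) - X (p.1, Y p.1)).2‖ +
          ‖deriv Y p.1 * (X (p.1, p.2) - X (p.1, Y p.1)).1‖ := norm_sub_le _ _
      _ ≤ M * ‖p.2 - Y p.1‖ + K0 * (M * ‖p.2 - Y p.1‖) := by
          rw [norm_mul]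
          exact add_le_add n2 (mul_le_mul hc n1 (norm_nonneg _) (by linarith))
      _ = (1 + K0) * M * ‖p.2 - Y p.1‖ := by ring

theorem TF_nsq : ContDiff ℝ ∞ fun q : ℂ => Complex.normSq q := by
  have h0 : (fun q : ℂ => Complex.normSq q) =
      fun q => Complex.reCLM q * Complex.reCLM q + Complex.imCLM q * Complex.imCLM q := by
    funext q
    rw [Complex.normSq_apply]
    rfl
  rw [h0]
  exact (Complex.reCLM.contDiff.mul Complex.reCLM.contDiff).add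
    (Complex.imCLM.contDiff.mul Complex.imCLM.contDiff)

theorem TF_gnn {H : ℂ × ℂ → ℂ} {p : ℂ × ℂ} (hH : DifferentiableAt ℂ H p) (v : ℂ × ℂ) :
    gradm (fun q => Complex.normSq (H q)) (fun q => Complex.normSq (H q)) p v =
      Complex.normSq (H p) * Complex.normSq (fderiv ℂ H p v) := by
  unfold gradm
  rw [fderiv_normSq hH, fderiv_normSq hH, map_smul]
  simp only [smul_eq_mul, Complex.mul_re, Complex.mul_im, Complex.I_re, Complex.I_im,
    Complex.conj_re, Complex.conj_im, Complex.normSq_apply]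
  ring

theorem TF_levi {H : ℂ × ℂ → ℂ} {p : ℂ × ℂ} {k : ℝ → ℝ}
    (hH : ∀ᶠ q in 𝓝 p, DifferentiableAt ℂ H q) (hH2 : ContDiffAt ℝ 2 H p)
    (hk : ContDiffAt ℝ 2 k (Complex.normSq (H p))) (v : ℂ × ℂ) :
    levi (fun q => k (Complex.normSq (H q))) p v =
      Complex.normSq (fderiv ℂ H p v) * (deriv k (Complex.normSq (H p)) +
        Complex.normSq (H p) * deriv (deriv k) (Complex.normSq (H p))) := by
  have hf : ContDiffAt ℝ 2 (fun q => Complex.normSq (H q)) p :=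
    ContDiffAt.comp p ((TF_nsq.of_le (WithTop.coe_le_coe.2 (le_top (a := (2 : ℕ∞))))).contDiffAt) hH2
  rw [levi_comp (f := fun q => Complex.normSq (H q)) hf hk, levi_normSq hH hH2,
    TF_gnn hH.self_of_nhds]
  ring

theorem TF_gradm {H : ℂ × ℂ → ℂ} {p : ℂ × ℂ} {k : ℝ → ℝ}
    (hH : DifferentiableAt ℂ H p) (hH2 : ContDiffAt ℝ 2 H p)
    (hk : DifferentiableAt ℝ k (Complex.normSq (H p))) (v : ℂ × ℂ) :
    gradm (fun q => k (Complex.normSq (H q))) (fun q => k (Complex.normSq (H q))) p v =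
      Complex.normSq (fderiv ℂ H p v) * (deriv k (Complex.normSq (H p)) ^ 2 *
        Complex.normSq (H p)) := by
  have hf : ContDiffAt ℝ 2 (fun q => Complex.normSq (H q)) p :=
    ContDiffAt.comp p ((TF_nsq.of_le (WithTop.coe_le_coe.2 (le_top (a := (2 : ℕ∞))))).contDiffAt) hH2
  have hf' : DifferentiableAt ℝ (fun q => Complex.normSq (H q)) p := hf.differentiableAt (by simp)
  rw [gradm_comp_left (f := fun q => Complex.normSq (H q)) hf' hk, gradm_comm,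
    gradm_comp_left (f := fun q => Complex.normSq (H q)) hf' hk, TF_gnn hH]
  ring

theorem TF_Wd {X : ℂ × ℂ → ℂ × ℂ} {r ρ : ℝ} {Y : ℂ → ℂ} (hY : Leaf X r ρ Y) {p : ℂ × ℂ}
    (hp : ‖p.1‖ < ρ) : HasFDerivAt (fun q : ℂ × ℂ => q.2 - Y q.1)
      (ContinuousLinearMap.snd ℂ ℂ ℂ - deriv Y p.1 • ContinuousLinearMap.fst ℂ ℂ ℂ) p := by
  have hm : p.1 ∈ Metric.ball (0 : ℂ) ρ := by rwa [mem_ball_zero_iff]
  have h1 : HasDerivAt Y (deriv Y p.1) p.1 :=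
    ((hY.hol p.1 hm).differentiableAt (Metric.isOpen_ball.mem_nhds hm)).hasDerivAt
  exact hasFDerivAt_snd.sub (h1.comp_hasFDerivAt p hasFDerivAt_fst)

theorem TF_Wf {X : ℂ × ℂ → ℂ × ℂ} {r ρ : ℝ} {Y : ℂ → ℂ} (hY : Leaf X r ρ Y) {p : ℂ × ℂ}
    (hp : ‖p.1‖ < ρ) (v : ℂ × ℂ) :
    fderiv ℂ (fun q : ℂ × ℂ => q.2 - Y q.1) p v = v.2 - deriv Y p.1 * v.1 := by
  rw [(TF_Wd hY hp).fderiv]
  simp

theorem TF_Wev {X : ℂ × ℂ → ℂ × ℂ} {r ρ : ℝ} {Y : ℂ → ℂ} (hY : Leaf X r ρ Y) {p : ℂ × ℂ}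
    (hp : ‖p.1‖ < ρ) : ∀ᶠ q in 𝓝 p, DifferentiableAt ℂ (fun q : ℂ × ℂ => q.2 - Y q.1) q := by
  have hc : ContinuousAt (fun q : ℂ × ℂ => ‖q.1‖) p := by fun_prop
  filter_upwards [hc.eventually (gt_mem_nhds hp)] with q hq
  exact (TF_Wd hY hq).differentiableAt

theorem TF_Wcd {X : ℂ × ℂ → ℂ × ℂ} {r ρ : ℝ} {Y : ℂ → ℂ} (hY : Leaf X r ρ Y) {p : ℂ × ℂ}
    (hp : ‖p.1‖ < ρ) : ContDiffAt ℝ ∞ (fun q : ℂ × ℂ => q.2 - Y q.1) p := by
  have hm : p.1 ∈ Metric.ball (0 : ℂ) ρ := by rwa [mem_ball_zero_iff]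
  have h1 : ContDiffAt ℂ ∞ Y p.1 :=
    (hY.hol.analyticAt (Metric.isOpen_ball.mem_nhds hm)).contDiffAt
  have h2 : ContDiffAt ℝ ∞ Y p.1 := h1.restrict_scalars ℝ
  exact contDiffAt_snd.sub (ContDiffAt.comp p h2 contDiffAt_fst)

theorem TF_kcd {B s t : ℝ} (hB : 0 < B) (ht : 0 < t + s) : ContDiffAt ℝ ∞ (TF_k B s) t := by
  have h1 : ContDiffAt ℝ ∞ (fun u : ℝ => TF_Phi (u / B)) t :=
    (TF_cd.comp (contDiff_id.div_const B)).contDiffAt
  have h2 : ContDiffAt ℝ ∞ (fun u : ℝ => (u + s) / B) t :=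
    ((contDiff_id.add contDiff_const).div_const B).contDiffAt
  have h3 : ContDiffAt ℝ ∞ (fun u : ℝ => Real.log ((u + s) / B)) t :=
    h2.log (div_pos ht hB).ne'
  exact h1.mul h3

theorem TF_two {E : Type*} [NormedAddCommGroup E] [NormedSpace ℝ E] {F : Type*}
    [NormedAddCommGroup F] [NormedSpace ℝ F] {f : E → F} {p : E} (h : ContDiffAt ℝ ∞ f p) :
    ContDiffAt ℝ 2 f p :=
  h.of_le (WithTop.coe_le_coe.2 (le_top (a := (2 : ℕ∞))))

/-- The test function. -/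
noncomputable def TF_G (Y : ℂ → ℂ) (a b b' : ℝ) (p : ℂ × ℂ) : ℝ :=
  TF_Phi (Complex.normSq (p.2 - Y p.1) / a ^ 2) * TF_k (b ^ 2) (b' ^ 2) (Complex.normSq p.1)

theorem TF_big {a : ℝ} (ha : 0 < a) {w : ℂ} (h : a < ‖w‖) :
    TF_Phi (Complex.normSq w / a ^ 2) = 0 := by
  apply TF_zero
  rw [le_div_iff₀ (by positivity), Complex.normSq_eq_norm_sq, one_mul]
  gcongr

theorem TF_kbig {b b' : ℝ} (hb : 0 < b) {z : ℂ} (h : b < ‖z‖) :
    TF_k (b ^ 2) (b' ^ 2) (Complex.normSq z) = 0 := by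
  unfold TF_k
  rw [TF_big hb h, zero_mul]

theorem TF_Gzero {Y : ℂ → ℂ} {a b b' : ℝ} (ha : 0 < a) (hb : 0 < b) {p : ℂ × ℂ}
    (hp : ¬ (‖p.1‖ ≤ b ∧ ‖p.2 - Y p.1‖ ≤ a)) : TF_G Y a b b' p = 0 := by
  unfold TF_G
  by_cases h : ‖p.1‖ ≤ b
  · have h2 : a < ‖p.2 - Y p.1‖ := by
      by_contra h3
      exact hp ⟨h, not_lt.1 h3⟩
    rw [TF_big ha h2, zero_mul]
  · rw [TF_kbig hb (not_le.1 h), mul_zero]

theorem TF_Gev {X : ℂ × ℂ → ℂ × ℂ} {r ρ : ℝ} {Y : ℂ → ℂ} (hY : Leaf X r ρ Y) {a b b' : ℝ}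
    (ha : 0 < a) (hb : 0 < b) (hbρ : b < ρ) {p : ℂ × ℂ}
    (hp : ¬ (‖p.1‖ ≤ b ∧ ‖p.2 - Y p.1‖ ≤ a)) : TF_G Y a b b' =ᶠ[𝓝 p] fun _ => (0 : ℝ) := by
  by_cases h : ‖p.1‖ ≤ b
  · have h2 : a < ‖p.2 - Y p.1‖ := by
      by_contra h3
      exact hp ⟨h, not_lt.1 h3⟩
    have hc : ContinuousAt (fun q : ℂ × ℂ => ‖q.2 - Y q.1‖) p :=
      (TF_Wcd hY (by linarith)).continuousAt.norm
    filter_upwards [hc.eventually (lt_mem_nhds h2)] with q hq
    exact TF_Gzero ha hb fun hh => absurd hh.2 (not_le.2 hq)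
  · have hc : ContinuousAt (fun q : ℂ × ℂ => ‖q.1‖) p := by fun_prop
    filter_upwards [hc.eventually (lt_mem_nhds (not_le.1 h))] with q hq
    exact TF_Gzero ha hb fun hh => absurd hh.1 (not_le.2 hq)

theorem TF_phicd {X : ℂ × ℂ → ℂ × ℂ} {r ρ : ℝ} {Y : ℂ → ℂ} (hY : Leaf X r ρ Y) (a : ℝ)
    {p : ℂ × ℂ} (hp : ‖p.1‖ < ρ) :
    ContDiffAt ℝ ∞ (fun q : ℂ × ℂ => TF_Phi (Complex.normSq (q.2 - Y q.1) / a ^ 2)) p :=
  ContDiffAt.comp (g := TF_Phi) (f := fun q : ℂ × ℂ => Complex.normSq (q.2 - Y q.1) / a ^ 2) p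
    TF_cd.contDiffAt ((ContDiffAt.comp p TF_nsq.contDiffAt (TF_Wcd hY hp)).div_const _)

theorem TF_gcd {b b' : ℝ} (hb : 0 < b) (hb' : 0 < b') (p : ℂ × ℂ) :
    ContDiffAt ℝ ∞ (fun q : ℂ × ℂ => TF_k (b ^ 2) (b' ^ 2) (Complex.normSq q.1)) p :=
  ContDiffAt.comp p (TF_kcd (by positivity) (by
    have := Complex.normSq_nonneg p.1
    positivity)) (TF_nsq.contDiffAt.comp p contDiffAt_fst)

theorem TF_Gcd {X : ℂ × ℂ → ℂ × ℂ} {r ρ : ℝ} {Y : ℂ → ℂ} (hY : Leaf X r ρ Y) {a b b' : ℝ}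
    (ha : 0 < a) (hb : 0 < b) (hb' : 0 < b') (hbρ : b < ρ) : ContDiff ℝ ∞ (TF_G Y a b b') := by
  rw [contDiff_iff_contDiffAt]
  intro p
  by_cases hp : ‖p.1‖ ≤ b
  · exact (TF_phicd hY a (by linarith)).mul (TF_gcd hb hb' p)
  · exact contDiffAt_const.congr_of_eventuallyEq (TF_Gev hY ha hb hbρ fun hh => hp hh.1)

theorem TF_tube {X : ℂ × ℂ → ℂ × ℂ} {r ρ : ℝ} {Y : ℂ → ℂ} (hY : Leaf X r ρ Y) {a b : ℝ}
    (hbρ : b < ρ) : IsCompact {p : ℂ × ℂ | ‖p.1‖ ≤ b ∧ ‖p.2 - Y p.1‖ ≤ a} := by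
  have h1 : {p : ℂ × ℂ | ‖p.1‖ ≤ b ∧ ‖p.2 - Y p.1‖ ≤ a} =
      (fun q : ℂ × ℂ => (q.1, q.2 + Y q.1)) ''
        (Metric.closedBall (0 : ℂ) b ×ˢ Metric.closedBall (0 : ℂ) a) := by
    ext p
    constructor
    · rintro ⟨h2, h3⟩
      refine ⟨(p.1, p.2 - Y p.1), ⟨by simpa using h2, by simpa using h3⟩, ?_⟩
      simp
    · rintro ⟨q, ⟨h2, h3⟩, rfl⟩
      exact ⟨by simpa using h2, by simpa using h3⟩
  rw [h1]
  apply IsCompact.image_of_continuousOn ((isCompact_closedBall _ _).prod (isCompact_closedBall _ _))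
  have hYc : ContinuousOn (fun q : ℂ × ℂ => Y q.1)
      (Metric.closedBall (0 : ℂ) b ×ˢ Metric.closedBall (0 : ℂ) a) :=
    hY.hol.continuousOn.comp continuousOn_fst fun q hq =>
      Metric.closedBall_subset_ball hbρ hq.1
  exact continuousOn_fst.prodMk (continuousOn_snd.add hYc)

theorem TF_phik (c t : ℝ) : ContDiffAt ℝ 2 (fun s : ℝ => TF_Phi (s / c)) t :=
  TF_two (TF_cd.comp (contDiff_id.div_const c)).contDiffAt

/-- Bounds for the first factor. -/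
theorem TF_phi_bounds {X : ℂ × ℂ → ℂ × ℂ} {r ρ : ℝ} {Y : ℂ → ℂ} (hY : Leaf X r ρ Y) {a K1 C : ℝ}
    (ha : 0 < a) (hK1 : 0 ≤ K1) (hC : 1 ≤ C)
    (hCb : ∀ t ∈ Set.Icc (0 : ℝ) 1, |deriv TF_Phi t| ≤ C ∧ |deriv (deriv TF_Phi) t| ≤ C)
    {p : ℂ × ℂ} (hp : ‖p.1‖ < ρ) (hW : ‖p.2 - Y p.1‖ ≤ a) {v : ℂ × ℂ}
    (hv : ‖v.2 - deriv Y p.1 * v.1‖ ≤ K1 * ‖p.2 - Y p.1‖) :
    |levi (fun q : ℂ × ℂ => TF_Phi (Complex.normSq (q.2 - Y q.1) / a ^ 2)) p v| ≤
        2 * C * K1 ^ 2 ∧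
      gradm (fun q : ℂ × ℂ => TF_Phi (Complex.normSq (q.2 - Y q.1) / a ^ 2))
        (fun q : ℂ × ℂ => TF_Phi (Complex.normSq (q.2 - Y q.1) / a ^ 2)) p v ≤
        C ^ 2 * K1 ^ 2 := by
  have e1 := TF_levi (k := fun s : ℝ => TF_Phi (s / a ^ 2)) (TF_Wev hY hp) (TF_two (TF_Wcd hY hp))
    (TF_phik (a ^ 2) _) v
  have e2 := TF_gradm (k := fun s : ℝ => TF_Phi (s / a ^ 2)) (TF_Wd hY hp).differentiableAt
    (TF_two (TF_Wcd hY hp)) ((TF_phik (a ^ 2) _).differentiableAt (by simp)) v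
  rw [TF_Wf hY hp, TF_dk, TF_ddk] at e1
  rw [TF_Wf hY hp, TF_dk] at e2
  rw [e1, e2]
  set t := Complex.normSq (p.2 - Y p.1) with ht
  have ht0 : 0 ≤ t := Complex.normSq_nonneg _
  have ht1 : t ≤ a ^ 2 := by
    rw [ht, Complex.normSq_eq_norm_sq]
    gcongr
  have ha2 : 0 < a ^ 2 := by positivity
  have hx : t / a ^ 2 ∈ Set.Icc (0 : ℝ) 1 := ⟨by positivity, by rw [div_le_one ha2]; exact ht1⟩
  obtain ⟨b1, b2⟩ := hCb _ hx
  have hn : Complex.normSq (v.2 - deriv Y p.1 * v.1) ≤ K1 ^ 2 * a ^ 2 := by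
    rw [Complex.normSq_eq_norm_sq, ← mul_pow]
    apply pow_le_pow_left₀ (norm_nonneg _)
    exact hv.trans (by gcongr)
  have hn0 : 0 ≤ Complex.normSq (v.2 - deriv Y p.1 * v.1) := Complex.normSq_nonneg _
  have f1 : |deriv TF_Phi (t / a ^ 2) / a ^ 2| ≤ C / a ^ 2 := by
    rw [abs_div, abs_of_pos ha2]
    gcongr
  have f2 : |t * (deriv (deriv TF_Phi) (t / a ^ 2) / (a ^ 2) ^ 2)| ≤ C / a ^ 2 := by
    rw [abs_mul, abs_div, abs_of_nonneg ht0, abs_of_pos (by positivity : 0 < (a ^ 2) ^ 2)]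
    calc t * (|deriv (deriv TF_Phi) (t / a ^ 2)| / (a ^ 2) ^ 2) ≤ a ^ 2 * (C / (a ^ 2) ^ 2) := by
          gcongr
      _ = C / a ^ 2 := by
          field_simp
  constructor
  · rw [abs_mul, abs_of_nonneg hn0]
    calc Complex.normSq (v.2 - deriv Y p.1 * v.1) * |deriv TF_Phi (t / a ^ 2) / a ^ 2 +
          t * (deriv (deriv TF_Phi) (t / a ^ 2) / (a ^ 2) ^ 2)|
        ≤ (K1 ^ 2 * a ^ 2) * (C / a ^ 2 + C / a ^ 2) :=
          mul_le_mul hn ((abs_add_le _ _).trans (add_le_add f1 f2)) (abs_nonneg _) (by positivity)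
      _ = 2 * C * K1 ^ 2 := by
          field_simp
          ring
  · have f3 : (deriv TF_Phi (t / a ^ 2) / a ^ 2) ^ 2 ≤ (C / a ^ 2) ^ 2 := by
      rw [← sq_abs]
      exact pow_le_pow_left₀ (abs_nonneg _) f1 2
    calc Complex.normSq (v.2 - deriv Y p.1 * v.1) * ((deriv TF_Phi (t / a ^ 2) / a ^ 2) ^ 2 * t)
        ≤ (K1 ^ 2 * a ^ 2) * ((C / a ^ 2) ^ 2 * a ^ 2) :=
          mul_le_mul hn (mul_le_mul f3 ht1 ht0 (by positivity)) (by positivity) (by positivity)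
      _ = C ^ 2 * K1 ^ 2 := by
          field_simp

/-- The second factor. -/
theorem TF_g_levi {b b' : ℝ} (hb : 0 < b) (hb' : 0 < b') (p v : ℂ × ℂ) :
    levi (fun q : ℂ × ℂ => TF_k (b ^ 2) (b' ^ 2) (Complex.normSq q.1)) p v =
      Complex.normSq v.1 * (deriv (TF_k (b ^ 2) (b' ^ 2)) (Complex.normSq p.1) +
        Complex.normSq p.1 * deriv (deriv (TF_k (b ^ 2) (b' ^ 2))) (Complex.normSq p.1)) ∧
    gradm (fun q : ℂ × ℂ => TF_k (b ^ 2) (b' ^ 2) (Complex.normSq q.1))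
      (fun q : ℂ × ℂ => TF_k (b ^ 2) (b' ^ 2) (Complex.normSq q.1)) p v =
      Complex.normSq v.1 * (deriv (TF_k (b ^ 2) (b' ^ 2)) (Complex.normSq p.1) ^ 2 *
        Complex.normSq p.1) := by
  have hpos : 0 < Complex.normSq p.1 + b' ^ 2 := by
    have := Complex.normSq_nonneg p.1
    positivity
  have hk : ContDiffAt ℝ 2 (TF_k (b ^ 2) (b' ^ 2)) (Complex.normSq p.1) :=
    TF_two (TF_kcd (by positivity) hpos)
  have hev : ∀ᶠ q in 𝓝 p, DifferentiableAt ℂ (Prod.fst : ℂ × ℂ → ℂ) q :=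
    Filter.Eventually.of_forall fun q => differentiableAt_fst
  have hc : ContDiffAt ℝ 2 (Prod.fst : ℂ × ℂ → ℂ) p := contDiffAt_fst
  have e1 := TF_levi (k := TF_k (b ^ 2) (b' ^ 2)) hev hc hk v
  have e2 := TF_gradm (k := TF_k (b ^ 2) (b' ^ 2)) hev.self_of_nhds hc
    (hk.differentiableAt (by simp)) v
  rw [show fderiv ℂ (Prod.fst : ℂ × ℂ → ℂ) p v = v.1 by rw [fderiv_fst]; rfl] at e1 e2
  exact ⟨e1, e2⟩

theorem TF_mlow {x n m c : ℝ} (hc : 0 ≤ c) (hn0 : 0 ≤ n) (hn : n ≤ m) (h : -c ≤ x) :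
    -(m * c) ≤ n * x := by
  have h1 : n * (-c) ≤ n * x := mul_le_mul_of_nonneg_left h hn0
  have h2 : n * c ≤ m * c := mul_le_mul_of_nonneg_right hn hc
  linarith

theorem TF_sq2 {x y s : ℝ} (hx : 0 ≤ x) (h : x ^ 2 + y ^ 2 = s) : (x + y) ^ 2 ≤ 2 * s := by
  nlinarith [sq_nonneg (x - y)]

theorem TF_quarter {x c : ℝ} (hx : 0 ≤ x) (h : x ≤ c / 2) : x ^ 2 ≤ c ^ 2 / 4 := by
  nlinarith

theorem exists_test {X : ℂ × ℂ → ℂ × ℂ} (hX : Differentiable ℂ X) (h0 : X 0 = (1, 0)) {r ρ : ℝ}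
    {Y : ℂ → ℂ} (hr : 0 < r) (hY : Leaf X r ρ Y) :
    ∃ K r₂ : ℝ, 1 ≤ K ∧ 0 < r₂ ∧ 2 * r₂ < ρ ∧ (∀ z : ℂ, ‖z‖ ≤ 2 * r₂ → ‖Y z‖ ≤ K * ‖z‖) ∧
      (∀ p : ℂ × ℂ, ‖p.1‖ ≤ r₂ → ‖p.2 - Y p.1‖ ≤ r₂ → p ∈ Metric.ball (0 : ℂ × ℂ) r) ∧
      ∀ a b b' : ℝ, 0 < a → a ≤ r₂ → 0 < b' → b' ≤ b / 2 → b ≤ r₂ →
        ∃ G : ℂ × ℂ → ℝ, ContDiff ℝ ∞ G ∧ HasCompactSupport G ∧
          tsupport G ⊆ Metric.ball 0 r ∧
          (∀ p : ℂ × ℂ, ‖p.1‖ ≤ b / 2 → ‖p.2 - Y p.1‖ ≤ a / 2 →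
            1 / 2 * (b' ^ 2 / (Complex.normSq p.1 + b' ^ 2) ^ 2) - K / (‖p.1‖ + b') ≤
              levi G p (X p)) ∧
          (∀ p : ℂ × ℂ, ‖p.1‖ ≤ b → ‖p.2 - Y p.1‖ ≤ a →
            - (K / b ^ 2) - K / (‖p.1‖ + b') ≤ levi G p (X p)) ∧
          (∀ p : ℂ × ℂ, ¬ (‖p.1‖ ≤ b ∧ ‖p.2 - Y p.1‖ ≤ a) → levi G p (X p) = 0) := by
  obtain ⟨K0, K1, r₂, hK0, hK1, hr2, hr21, hr2ρ, hYb, hg⟩ := TF_geom hX h0 hr hY
  obtain ⟨C, hC, hCb⟩ := TF_bound
  set K := K0 + 8 * C + 8 * C * K1 ^ 2 + 12 * C ^ 2 * K1 with hK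
  have hC0 : 0 ≤ C := by linarith
  have p1 : 0 ≤ 8 * C := by positivity
  have p2 : 0 ≤ 8 * C * K1 ^ 2 := by positivity
  have p3 : 0 ≤ 12 * C ^ 2 * K1 := by positivity
  have hKK : K0 ≤ K := by rw [hK]; linarith
  have hKp : 0 ≤ K := by linarith
  refine ⟨K, r₂, by linarith, hr2, hr2ρ, fun z hz => (hYb z hz).trans (by gcongr),
    fun p h1 h2 => (hg p h1 h2).1, ?_⟩
  intro a b b' ha har hb' hbb hbr
  have hb : 0 < b := by linarith
  have hbρ : b < ρ := by linarith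
  have hsub : {p : ℂ × ℂ | ‖p.1‖ ≤ b ∧ ‖p.2 - Y p.1‖ ≤ a} ⊆ Metric.ball (0 : ℂ × ℂ) r :=
    fun p hp => (hg p (hp.1.trans hbr) (hp.2.trans har)).1
  have hmul : ∀ p v : ℂ × ℂ, ‖p.1‖ ≤ b → levi (TF_G Y a b b') p v =
      TF_Phi (Complex.normSq (p.2 - Y p.1) / a ^ 2) *
        levi (fun q : ℂ × ℂ => TF_k (b ^ 2) (b' ^ 2) (Complex.normSq q.1)) p v +
      TF_k (b ^ 2) (b' ^ 2) (Complex.normSq p.1) *
        levi (fun q : ℂ × ℂ => TF_Phi (Complex.normSq (q.2 - Y q.1) / a ^ 2)) p v +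
      2 * gradm (fun q : ℂ × ℂ => TF_Phi (Complex.normSq (q.2 - Y q.1) / a ^ 2))
        (fun q : ℂ × ℂ => TF_k (b ^ 2) (b' ^ 2) (Complex.normSq q.1)) p v := fun p v hp =>
    levi_mul (TF_two (TF_phicd hY a (by linarith))) (TF_two (TF_gcd hb hb' p)) v
  refine ⟨TF_G Y a b b', TF_Gcd hY ha hb hb' hbρ,
    HasCompactSupport.intro (TF_tube hY hbρ) (fun p hp => TF_Gzero ha hb hp), ?_, ?_, ?_, ?_⟩
  · refine Set.Subset.trans (closure_minimal ?_ (TF_tube hY hbρ).isClosed) hsub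
    intro p hp
    by_contra hh
    exact hp (TF_Gzero ha hb hh)
  · intro p h1 h2
    have h1' : ‖p.1‖ ≤ b := by linarith
    have h2' : ‖p.2 - Y p.1‖ ≤ a := by linarith
    obtain ⟨-, n1, n2, n3⟩ := hg p (h1'.trans hbr) (h2'.trans har)
    obtain ⟨g1, g2⟩ := TF_g_levi hb hb' p (X p)
    have hlt : Complex.normSq (p.2 - Y p.1) / a ^ 2 < 1 / 2 := by
      rw [div_lt_iff₀ (by positivity), Complex.normSq_eq_norm_sq]
      have h7 := TF_quarter (norm_nonneg _) h2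
      have h8 : 0 < a ^ 2 := by positivity
      linarith
    have hev : (fun q : ℂ × ℂ => TF_Phi (Complex.normSq (q.2 - Y q.1) / a ^ 2)) =ᶠ[𝓝 p]
        fun _ => (1 : ℝ) := by
      have hc : ContinuousAt (fun q : ℂ × ℂ => Complex.normSq (q.2 - Y q.1) / a ^ 2) p :=
        ((ContDiffAt.comp p TF_nsq.contDiffAt (TF_Wcd hY (p := p) (by linarith))).div_const
          _).continuousAt
      filter_upwards [hc.eventually (gt_mem_nhds hlt)] with q hq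
      exact TF_one (le_of_lt hq)
    have l1 : levi (fun q : ℂ × ℂ => TF_Phi (Complex.normSq (q.2 - Y q.1) / a ^ 2)) p (X p) = 0 := by
      rw [levi_congr hev, levi_const]
    have l2 : gradm (fun q : ℂ × ℂ => TF_Phi (Complex.normSq (q.2 - Y q.1) / a ^ 2))
        (fun q : ℂ × ℂ => TF_k (b ^ 2) (b' ^ 2) (Complex.normSq q.1)) p (X p) = 0 := by
      rw [gradm_congr hev]
      unfold gradm
      simp
    have hin := TF_inner (B := b ^ 2) (s := b' ^ 2) (t := Complex.normSq p.1) (by positivity)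
      (by positivity) (Complex.normSq_nonneg _) (by
        rw [Complex.normSq_eq_norm_sq]
        exact TF_quarter (norm_nonneg _) h1)
    rw [hmul p (X p) h1', l1, l2, TF_one hlt.le, g1, hin]
    have hq : 0 ≤ b' ^ 2 / (Complex.normSq p.1 + b' ^ 2) ^ 2 := by positivity
    have hq2 : 0 ≤ K / (‖p.1‖ + b') := by positivity
    have hq3 : 1 / 2 * (b' ^ 2 / (Complex.normSq p.1 + b' ^ 2) ^ 2) ≤
        Complex.normSq (X p).1 * (b' ^ 2 / (Complex.normSq p.1 + b' ^ 2) ^ 2) := by gcongr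
    linarith
  · intro p h1 h2
    obtain ⟨-, n1, n2, n3⟩ := hg p (h1.trans hbr) (h2.trans har)
    obtain ⟨g1, g2⟩ := TF_g_levi hb hb' p (X p)
    obtain ⟨f1, f2⟩ := TF_phi_bounds hY ha hK1 hC hCb (p := p) (by linarith) h2 n3
    have hy : 0 < ‖p.1‖ + b' := by positivity
    have ht0 := Complex.normSq_nonneg p.1
    have htb : Complex.normSq p.1 ≤ b ^ 2 := by
      rw [Complex.normSq_eq_norm_sq]
      gcongr
    have hsB : b' ^ 2 ≤ b ^ 2 / 4 := TF_quarter hb'.le hbb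
    have hlow := TF_lower (B := b ^ 2) (s := b' ^ 2) (t := Complex.normSq p.1) (by positivity)
      (by positivity) hsB ht0 htb hC hCb
    have hgr := TF_grad (B := b ^ 2) (s := b' ^ 2) (t := Complex.normSq p.1) (by positivity)
      (by positivity) hsB ht0 htb hC hCb
    have hsz := TF_size hb (hbr.trans hr21) hb' hbb (norm_nonneg p.1) h1
    rw [← Complex.normSq_eq_norm_sq] at hsz
    rw [hmul p (X p) h1]
    -- first term
    have k1 : -(8 * C / b ^ 2) ≤ levi (fun q : ℂ × ℂ => TF_k (b ^ 2) (b' ^ 2)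
        (Complex.normSq q.1)) p (X p) := by
      rw [g1]
      have h5 : 0 ≤ 4 * C / b ^ 2 := by positivity
      have e5 : 8 * C / b ^ 2 = 2 * (4 * C / b ^ 2) := by ring
      rw [e5]
      exact TF_mlow h5 (Complex.normSq_nonneg (X p).1) n2 hlow
    have k2 : -(8 * C / b ^ 2) ≤ TF_Phi (Complex.normSq (p.2 - Y p.1) / a ^ 2) *
        levi (fun q : ℂ × ℂ => TF_k (b ^ 2) (b' ^ 2) (Complex.normSq q.1)) p (X p) := by
      have h5 : 0 ≤ 8 * C / b ^ 2 := by positivity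
      have h6 := TF_nonneg (Complex.normSq (p.2 - Y p.1) / a ^ 2)
      have h7 := TF_le_one (Complex.normSq (p.2 - Y p.1) / a ^ 2)
      have h8 := TF_mlow h5 h6 h7 k1
      rwa [one_mul] at h8
    have k3 : -(8 * C * K1 ^ 2 / (‖p.1‖ + b')) ≤ TF_k (b ^ 2) (b' ^ 2) (Complex.normSq p.1) *
        levi (fun q : ℂ × ℂ => TF_Phi (Complex.normSq (q.2 - Y q.1) / a ^ 2)) p (X p) := by
      apply neg_le_of_abs_le
      rw [abs_mul]
      calc _ ≤ 4 / (‖p.1‖ + b') * (2 * C * K1 ^ 2) :=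
            mul_le_mul hsz f1 (abs_nonneg _) (by positivity)
        _ = 8 * C * K1 ^ 2 / (‖p.1‖ + b') := by ring
    have k4 : -(12 * C ^ 2 * K1 / (‖p.1‖ + b')) ≤
        2 * gradm (fun q : ℂ × ℂ => TF_Phi (Complex.normSq (q.2 - Y q.1) / a ^ 2))
        (fun q : ℂ × ℂ => TF_k (b ^ 2) (b' ^ 2) (Complex.normSq q.1)) p (X p) := by
      have h8 := gradm_sq_le (fun q : ℂ × ℂ => TF_Phi (Complex.normSq (q.2 - Y q.1) / a ^ 2))
        (fun q : ℂ × ℂ => TF_k (b ^ 2) (b' ^ 2) (Complex.normSq q.1)) p (X p)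
      have h9 : gradm (fun q : ℂ × ℂ => TF_k (b ^ 2) (b' ^ 2) (Complex.normSq q.1))
          (fun q : ℂ × ℂ => TF_k (b ^ 2) (b' ^ 2) (Complex.normSq q.1)) p (X p) ≤
          36 * C ^ 2 / (‖p.1‖ + b') ^ 2 := by
        rw [g2]
        have h10 : 0 < Complex.normSq p.1 + b' ^ 2 := by positivity
        have h11 : (‖p.1‖ + b') ^ 2 ≤ 2 * (Complex.normSq p.1 + b' ^ 2) :=
          TF_sq2 (norm_nonneg _) (by rw [Complex.normSq_eq_norm_sq])
        calc Complex.normSq (X p).1 * (deriv (TF_k (b ^ 2) (b' ^ 2)) (Complex.normSq p.1) ^ 2 *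
              Complex.normSq p.1) ≤ 2 * (9 * C ^ 2 / (Complex.normSq p.1 + b' ^ 2)) :=
              mul_le_mul n2 hgr (by positivity) (by norm_num)
          _ ≤ 36 * C ^ 2 / (‖p.1‖ + b') ^ 2 := by
              rw [← mul_div_assoc, div_le_div_iff₀ h10 (by positivity)]
              have h15 := mul_le_mul_of_nonneg_left h11 (by positivity : 0 ≤ 18 * C ^ 2)
              linarith
      have h12 : gradm (fun q : ℂ × ℂ => TF_Phi (Complex.normSq (q.2 - Y q.1) / a ^ 2))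
          (fun q : ℂ × ℂ => TF_k (b ^ 2) (b' ^ 2) (Complex.normSq q.1)) p (X p) ^ 2 ≤
          (6 * C ^ 2 * K1 / (‖p.1‖ + b')) ^ 2 := by
        refine h8.trans ((mul_le_mul f2 h9 (gradm_self_nonneg _ _ _) (by positivity)).trans
          (le_of_eq ?_))
        field_simp
        ring
      have h13 := abs_le_of_sq_le_sq h12 (by positivity)
      have h14 := (abs_le.1 h13).1
      have e6 : 12 * C ^ 2 * K1 / (‖p.1‖ + b') = 2 * (6 * C ^ 2 * K1 / (‖p.1‖ + b')) := by ring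
      rw [e6]
      linarith
    have m1 : 8 * C / b ^ 2 ≤ K / b ^ 2 := by
      gcongr
      rw [hK]
      linarith
    have m2 : 8 * C * K1 ^ 2 / (‖p.1‖ + b') + 12 * C ^ 2 * K1 / (‖p.1‖ + b') ≤
        K / (‖p.1‖ + b') := by
      rw [← add_div]
      gcongr
      rw [hK]
      linarith
    linarith
  · intro p hp
    rw [levi_congr (TF_Gev hY ha hb hbρ hp), levi_const]

end Pool.Agent.H24.CU
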