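import Pool.Agent.H24.CU.TT
import Pool.Agent.H24.CU.TF
import Pool.Agent.H24.CU.MB

/-!
# Row B1 (a positive Lelong number at the origin charges the leaf)

PROOF.  `K, r₂` of `exists_test`, `C, r'` of `Loc.mass`; `Tube a b = {p | ‖p.1‖ <= b ∧ ‖p.2 - Y p.1‖ <= a}`
(closed in `{‖p.1‖ < ρ}`; measurable: `Y` is continuous on the closed disc of radius `2 r₂`; intersect with it).
Let `b <= r₂` small, `s` small with `ν s^2 <= M(ball 0 s)`, `b' = s`, `a = 2 (1 + K) s` (`a <= r₂`, `b' <= b/2`).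
(i) `ball 0 s ⊆ {‖p.1‖ <= b/2, ‖p.2 - Y p.1‖ <= a/2}` (`|Y p.1| <= K s`), and there
`b'^2/(normSq p.1 + b'^2)^2 >= 1/(4 s^2)`.
(ii) for `b' <= t <= b`: `Tube a b ∩ {‖p.1‖ <= t} ⊆ ball 0 (a + (K+2) t)` and `a <= 2(1+K) t`, so its mass is
`<= C (3K+4)^2 t^2 = C' t^2` if `(3K+4) b < r'`.  By `tube_integral`,
`∫_{Tube a b} 1/(‖p.1‖+b') dM <= 9 C' b`.
(iii) `0 = ∫ levi G p (X p) dM = ∫_{Tube a b}`; on `ball 0 s` use the first lower bound, on the rest of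
`{‖p.1‖ <= b/2, ‖W‖ <= a/2}` also (the main term is `>= 0`), elsewhere the second:
`0 >= (1/(8 s^2)) M (ball 0 s) - (K/b^2) M (Tube a b) - K ∫_{Tube a b} 1/(‖p.1‖+b') dM`
`>= ν/8 - (K/b^2) M (Tube a b) - 9 K C' b`  (`levi G` is bounded/continuous with compact support, so all
is integrable).  Hence `M (Tube a b) >= (b^2/K)(ν/8 - 9 K C' b) >= (ν/(16 K)) b^2` for `b <= b₀`.
(iv) this holds for arbitrarily small `s`, i.e. for a sequence `a → 0`; the sets `Tube a b` decrease to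
`{‖p.1‖ <= b, p.2 = Y p.1}`, so (continuity from above, `M` finite) its mass is `>= (ν/(16K)) b^2`.
-/

namespace Pool.Agent.H24.CU

open MeasureTheory Filter
open scoped Topology ContDiff

private theorem B1_levi_cont {G : ℂ × ℂ → ℝ} (hG : ContDiff ℝ ∞ G) {X : ℂ × ℂ → ℂ × ℂ}
    (hX : Continuous X) : Continuous (fun p => levi G p (X p)) := by
  have hG2 : ContDiff ℝ 2 G := by exact_mod_cast contDiff_infty.mp hG 2
  have h1 : ∀ p v : ℂ × ℂ, fderiv ℝ (fun q => fderiv ℝ G q v) p v =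
      fderiv ℝ (fderiv ℝ G) p v v := fun p v => LC_app hG2.contDiffAt v v
  have h2 : Continuous (fderiv ℝ (fderiv ℝ G)) := by
    have h3 : ContDiff ℝ 1 (fderiv ℝ G) := hG2.fderiv_right (m := 1) (by norm_num)
    exact h3.continuous_fderiv one_ne_zero
  have h4 : (fun p => levi G p (X p)) = fun p =>
      (fderiv ℝ (fderiv ℝ G) p (X p) (X p) +
        fderiv ℝ (fderiv ℝ G) p (Complex.I • X p) (Complex.I • X p)) / 4 := by
    funext p
    unfold levi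
    rw [h1, h1]
  rw [h4]
  have h5 : Continuous (fun p => Complex.I • X p) := by fun_prop
  exact (((h2.clm_apply hX).clm_apply hX).add ((h2.clm_apply h5).clm_apply h5)).div_const 4

private theorem B1_levi_supp {G : ℂ × ℂ → ℝ} (hG : HasCompactSupport G) {X : ℂ × ℂ → ℂ × ℂ} :
    HasCompactSupport (fun p => levi G p (X p)) := by
  refine HasCompactSupport.of_support_subset_isCompact (K := tsupport G) hG ?_
  intro p hp
  by_contra hp2
  apply hp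
  have h1 : G =ᶠ[𝓝 p] fun _ => (0 : ℝ) := notMem_tsupport_iff_eventuallyEq.mp hp2
  show levi G p (X p) = 0
  rw [levi_congr h1, levi_const]

private theorem B1_tube_closed {Y : ℂ → ℂ} {ρ a b : ℝ}
    (hY : DifferentiableOn ℂ Y (Metric.ball 0 ρ)) (hb : b < ρ) :
    IsClosed {p : ℂ × ℂ | ‖p.1‖ ≤ b ∧ ‖p.2 - Y p.1‖ ≤ a} := by
  have h1 : IsClosed {p : ℂ × ℂ | ‖p.1‖ ≤ b} := isClosed_le (by fun_prop) (by fun_prop)
  have h2 : ContinuousOn (fun p : ℂ × ℂ => ‖p.2 - Y p.1‖) {p : ℂ × ℂ | ‖p.1‖ ≤ b} := by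
    have h3 : ContinuousOn (fun p : ℂ × ℂ => Y p.1) {p : ℂ × ℂ | ‖p.1‖ ≤ b} := by
      refine hY.continuousOn.comp continuous_fst.continuousOn ?_
      intro p hp
      rw [mem_ball_zero_iff]
      exact lt_of_le_of_lt hp hb
    exact (continuous_snd.continuousOn.sub h3).norm
  exact h2.preimage_isClosed_of_isClosed h1 (isClosed_Iic (a := a))

private theorem B1_tube_mass {M : Measure (ℂ × ℂ)} {Y : ℂ → ℂ}
    [IsFiniteMeasure M] {K r₂ C r' s b : ℝ} (hK : 1 ≤ K) (hs : 0 < s)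
    (hb2 : b ≤ r₂) (hr₂ : 0 < r₂)
    (hYK : ∀ z : ℂ, ‖z‖ ≤ 2 * r₂ → ‖Y z‖ ≤ K * ‖z‖)
    (hC2 : ∀ s : ℝ, 0 < s → s < r' → (M (Metric.ball 0 s)).toReal ≤ C * s ^ 2)
    (hbr : (3 * K + 4) * b < r') (t : ℝ) (hst : s ≤ t) (htb : t ≤ b) :
    (M ({p : ℂ × ℂ | ‖p.1‖ ≤ b ∧ ‖p.2 - Y p.1‖ ≤ 2 * (1 + K) * s} ∩
      {p | ‖p.1‖ ≤ t})).toReal ≤ (C * (3 * K + 4) ^ 2) * t ^ 2 := by
  have ht : 0 < t := lt_of_lt_of_le hs hst
  have h1 : ({p : ℂ × ℂ | ‖p.1‖ ≤ b ∧ ‖p.2 - Y p.1‖ ≤ 2 * (1 + K) * s} ∩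
      {p | ‖p.1‖ ≤ t}) ⊆ Metric.ball 0 ((3 * K + 4) * t) := by
    rintro p ⟨⟨hp1, hp2⟩, hp3⟩
    have hp3' : ‖p.1‖ ≤ t := hp3
    rw [mem_ball_zero_iff, Prod.norm_def, max_lt_iff]
    have h2 := hYK p.1 (by linarith)
    have h3 : ‖p.2‖ ≤ ‖p.2 - Y p.1‖ + ‖Y p.1‖ := by
      have := norm_add_le (p.2 - Y p.1) (Y p.1)
      simpa using this
    have h4 : K * ‖p.1‖ ≤ K * t := mul_le_mul_of_nonneg_left hp3' (by linarith)
    have h5 : K * s ≤ K * t := mul_le_mul_of_nonneg_left hst (by linarith)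
    have h6 : 0 < K * t := by positivity
    constructor
    · nlinarith
    · nlinarith
  have h7 : (3 * K + 4) * t < r' := by
    have : (3 * K + 4) * t ≤ (3 * K + 4) * b := mul_le_mul_of_nonneg_left htb (by linarith)
    linarith
  have h8 := hC2 ((3 * K + 4) * t) (by positivity) h7
  have h9 : (M ({p : ℂ × ℂ | ‖p.1‖ ≤ b ∧ ‖p.2 - Y p.1‖ ≤ 2 * (1 + K) * s} ∩
      {p | ‖p.1‖ ≤ t})).toReal ≤ (M (Metric.ball 0 ((3 * K + 4) * t))).toReal :=
    ENNReal.toReal_mono (measure_ne_top _ _) (measure_mono h1)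
  calc _ ≤ _ := h9
    _ ≤ _ := h8
    _ = _ := by ring

private theorem B1_step {X : ℂ × ℂ → ℂ × ℂ} {r ρ : ℝ} {M : Measure (ℂ × ℂ)} {Y : ℂ → ℂ}
    (h : Loc X r M) (hY : Leaf X r ρ Y) {ν K r₂ C r' s b : ℝ} (hν : 0 < ν)
    (hK : 1 ≤ K) (hC : 0 < C) (hs : 0 < s)
    (hb2 : b ≤ r₂) (hr₂ : 0 < r₂) (hr₂ρ : 2 * r₂ < ρ)
    (hYK : ∀ z : ℂ, ‖z‖ ≤ 2 * r₂ → ‖Y z‖ ≤ K * ‖z‖)
    (htest : ∀ a b b' : ℝ, 0 < a → a ≤ r₂ → 0 < b' → b' ≤ b / 2 → b ≤ r₂ →
        ∃ G : ℂ × ℂ → ℝ, ContDiff ℝ ∞ G ∧ HasCompactSupport G ∧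
          tsupport G ⊆ Metric.ball 0 r ∧
          (∀ p : ℂ × ℂ, ‖p.1‖ ≤ b / 2 → ‖p.2 - Y p.1‖ ≤ a / 2 →
            1 / 2 * (b' ^ 2 / (Complex.normSq p.1 + b' ^ 2) ^ 2) - K / (‖p.1‖ + b') ≤
              levi G p (X p)) ∧
          (∀ p : ℂ × ℂ, ‖p.1‖ ≤ b → ‖p.2 - Y p.1‖ ≤ a →
            - (K / b ^ 2) - K / (‖p.1‖ + b') ≤ levi G p (X p)) ∧
          (∀ p : ℂ × ℂ, ¬ (‖p.1‖ ≤ b ∧ ‖p.2 - Y p.1‖ ≤ a) → levi G p (X p) = 0))
    (hC2 : ∀ s : ℝ, 0 < s → s < r' → (M (Metric.ball 0 s)).toReal ≤ C * s ^ 2)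
    (hbr : (3 * K + 4) * b < r') (hb : 0 < b)
    (hbν : 144 * K * (C * (3 * K + 4) ^ 2) * b ≤ ν)
    (hsb : s ≤ b / 2) (hsa : 2 * (1 + K) * s ≤ r₂)
    (hsν : ν * s ^ 2 ≤ (M (Metric.ball 0 s)).toReal) :
    ν / (16 * K) * b ^ 2 ≤
      (M {p : ℂ × ℂ | ‖p.1‖ ≤ b ∧ ‖p.2 - Y p.1‖ ≤ 2 * (1 + K) * s}).toReal := by
  have := h.fin
  obtain ⟨G, hG, hGc, hGr, hG1, hG2, hG3⟩ :=
    htest (2 * (1 + K) * s) b s (by positivity) hsa hs hsb hb2
  have hXc : Continuous X := h.hol.continuous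
  have hcont := B1_levi_cont hG hXc
  have hint : Integrable (fun p => levi G p (X p)) M :=
    hcont.integrable_of_hasCompactSupport (B1_levi_supp hGc)
  have hzero := h.harm G hG hGc hGr
  set T : Set (ℂ × ℂ) := {p : ℂ × ℂ | ‖p.1‖ ≤ b ∧ ‖p.2 - Y p.1‖ ≤ 2 * (1 + K) * s} with hT
  have hbρ : b < ρ := by linarith
  have hTm : MeasurableSet T := (B1_tube_closed hY.hol hbρ).measurableSet
  have hball : Metric.ball (0 : ℂ × ℂ) s ⊆
      {p : ℂ × ℂ | ‖p.1‖ ≤ b / 2 ∧ ‖p.2 - Y p.1‖ ≤ 2 * (1 + K) * s / 2} := by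
    intro p hp
    rw [mem_ball_zero_iff, Prod.norm_def, max_lt_iff] at hp
    have h2 := hYK p.1 (by linarith [hp.1])
    have h3 : ‖p.2 - Y p.1‖ ≤ ‖p.2‖ + ‖Y p.1‖ := norm_sub_le _ _
    have h4 : K * ‖p.1‖ ≤ K * s := mul_le_mul_of_nonneg_left hp.1.le (by linarith)
    refine ⟨by linarith [hp.1], ?_⟩
    have h5 := hp.2
    nlinarith
  have hballT : Metric.ball (0 : ℂ × ℂ) s ⊆ T := by
    intro p hp
    have h2 := hball hp
    refine ⟨?_, ?_⟩
    · have := h2.1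
      linarith
    · have h3 := h2.2
      have h4 : 0 < 2 * (1 + K) * s := by positivity
      linarith
  have hres : ∫ p in T, levi G p (X p) ∂M = 0 := by
    rw [← hzero]
    refine setIntegral_eq_integral_of_forall_compl_eq_zero ?_
    intro p hp
    exact hG3 p hp
  -- the lower bound function
  have hI1 : Integrable ((Metric.ball (0 : ℂ × ℂ) s).indicator (fun _ => 1 / (8 * s ^ 2))) M :=
    (integrable_const _).indicator Metric.isOpen_ball.measurableSet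
  have hcont2 : Continuous (fun p : ℂ × ℂ => 1 / (‖p.1‖ + s)) := by
    refine continuous_const.div (by fun_prop) ?_
    intro p
    have := norm_nonneg p.1
    positivity
  have hI2 : Integrable (fun p : ℂ × ℂ => 1 / (‖p.1‖ + s)) M := by
    refine Integrable.of_bound hcont2.aestronglyMeasurable (1 / s) ?_
    refine Filter.Eventually.of_forall fun p => ?_
    have h1 := norm_nonneg p.1
    rw [Real.norm_of_nonneg (by positivity)]
    exact one_div_le_one_div_of_le hs (by linarith)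
  have hI3 : Integrable (fun _ : ℂ × ℂ => K / b ^ 2) M := integrable_const _
  have hle : ∫ p in T, ((Metric.ball (0 : ℂ × ℂ) s).indicator (fun _ => 1 / (8 * s ^ 2)) p -
      K / b ^ 2 - K * (1 / (‖p.1‖ + s))) ∂M ≤ ∫ p in T, levi G p (X p) ∂M := by
    refine setIntegral_mono_on ?_ hint.integrableOn hTm ?_
    · exact ((hI1.sub hI3).sub (hI2.const_mul K)).integrableOn
    · intro p hp
      have hn := norm_nonneg p.1
      have hd : 0 < ‖p.1‖ + s := by positivity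
      have he : K * (1 / (‖p.1‖ + s)) = K / (‖p.1‖ + s) := by ring
      rw [he]
      by_cases hp2 : p ∈ Metric.ball (0 : ℂ × ℂ) s
      · rw [Set.indicator_of_mem hp2]
        have h1 := hball hp2
        have h2 := hG1 p h1.1 h1.2
        rw [mem_ball_zero_iff, Prod.norm_def, max_lt_iff] at hp2
        have h3 : Complex.normSq p.1 ≤ s ^ 2 := by
          rw [Complex.normSq_eq_norm_sq]
          exact pow_le_pow_left₀ hn hp2.1.le 2
        have h4 : 0 ≤ Complex.normSq p.1 := Complex.normSq_nonneg _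
        have h5 : 1 / (8 * s ^ 2) ≤ 1 / 2 * (s ^ 2 / (Complex.normSq p.1 + s ^ 2) ^ 2) := by
          have h6 : (Complex.normSq p.1 + s ^ 2) ^ 2 ≤ (2 * s ^ 2) ^ 2 :=
            pow_le_pow_left₀ (by positivity) (by linarith) 2
          have h7 : s ^ 2 / (2 * s ^ 2) ^ 2 ≤ s ^ 2 / (Complex.normSq p.1 + s ^ 2) ^ 2 :=
            div_le_div_of_nonneg_left (by positivity) (by positivity) h6
          have h8 : 1 / (8 * s ^ 2) = 1 / 2 * (s ^ 2 / (2 * s ^ 2) ^ 2) := by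
            field_simp
            ring
          rw [h8]
          linarith
        have h9 : 0 ≤ K / b ^ 2 := by positivity
        linarith
      · rw [Set.indicator_of_notMem hp2]
        have h2 := hG2 p hp.1 hp.2
        linarith
  rw [hres] at hle
  have hsplit : ∫ p in T, ((Metric.ball (0 : ℂ × ℂ) s).indicator (fun _ => 1 / (8 * s ^ 2)) p -
      K / b ^ 2 - K * (1 / (‖p.1‖ + s))) ∂M =
      (M (Metric.ball (0 : ℂ × ℂ) s)).toReal * (1 / (8 * s ^ 2)) -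
        (M T).toReal * (K / b ^ 2) - K * ∫ p in T, (1 / (‖p.1‖ + s)) ∂M := by
    have e1 : ∫ p in T, ((Metric.ball (0 : ℂ × ℂ) s).indicator (fun _ => 1 / (8 * s ^ 2)) p -
        K / b ^ 2 - K * (1 / (‖p.1‖ + s))) ∂M =
        (∫ p in T, ((Metric.ball (0 : ℂ × ℂ) s).indicator (fun _ => 1 / (8 * s ^ 2)) p -
        K / b ^ 2) ∂M) - ∫ p in T, K * (1 / (‖p.1‖ + s)) ∂M :=
      integral_sub (hI1.sub hI3).integrableOn (hI2.const_mul K).integrableOn
    have e2 : ∫ p in T, ((Metric.ball (0 : ℂ × ℂ) s).indicator (fun _ => 1 / (8 * s ^ 2)) p -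
        K / b ^ 2) ∂M = (∫ p in T, (Metric.ball (0 : ℂ × ℂ) s).indicator
          (fun _ => 1 / (8 * s ^ 2)) p ∂M) - ∫ _ in T, K / b ^ 2 ∂M :=
      integral_sub hI1.integrableOn hI3.integrableOn
    rw [e1, e2, integral_const_mul, setIntegral_const,
      setIntegral_indicator Metric.isOpen_ball.measurableSet, setIntegral_const,
      Set.inter_eq_right.mpr hballT]
    simp only [smul_eq_mul, measureReal_def]
  have hti : ∫ p in T, (1 / (‖p.1‖ + s)) ∂M ≤ 9 * (C * (3 * K + 4) ^ 2) * b := by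
    have h1 := tube_integral M T hTm (C * (3 * K + 4) ^ 2) b s (by positivity) hs (by linarith)
      (fun t ht1 ht2 => B1_tube_mass hK hs hb2 hr₂ hYK hC2 hbr t ht1 ht2)
    have h2 : T ∩ {p | ‖p.1‖ ≤ b} = T := by
      rw [Set.inter_eq_left]
      intro p hp
      exact hp.1
    rwa [h2] at h1
  rw [hsplit] at hle
  have h1 : ν / 8 ≤ (M (Metric.ball (0 : ℂ × ℂ) s)).toReal * (1 / (8 * s ^ 2)) := by
    have h2 : ν / 8 = (ν * s ^ 2) * (1 / (8 * s ^ 2)) := by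
      field_simp
    rw [h2]
    exact mul_le_mul_of_nonneg_right hsν (by positivity)
  have h3 : K * ∫ p in T, (1 / (‖p.1‖ + s)) ∂M ≤ ν / 16 := by
    have h4 : K * ∫ p in T, (1 / (‖p.1‖ + s)) ∂M ≤ K * (9 * (C * (3 * K + 4) ^ 2) * b) :=
      mul_le_mul_of_nonneg_left hti (by linarith)
    have h5 : K * (9 * (C * (3 * K + 4) ^ 2) * b) =
        (144 * K * (C * (3 * K + 4) ^ 2) * b) / 16 := by ring
    linarith
  have h6 : ν / 16 ≤ (M T).toReal * (K / b ^ 2) := by linarith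
  have h7 : ν / (16 * K) * b ^ 2 = (ν / 16) * (b ^ 2 / K) := by
    field_simp
  have h8 : (M T).toReal = ((M T).toReal * (K / b ^ 2)) * (b ^ 2 / K) := by
    have hK0 : K ≠ 0 := by linarith
    field_simp
  rw [h7, h8]
  exact mul_le_mul_of_nonneg_right h6 (by positivity)

theorem plaque_mass {X : ℂ × ℂ → ℂ × ℂ} {r ρ : ℝ} {M : Measure (ℂ × ℂ)} {Y : ℂ → ℂ}
    (h : Loc X r M) (hY : Leaf X r ρ Y) (ν : ℝ) (hν : 0 < ν)
    (hf : ∃ᶠ s in 𝓝[>] (0 : ℝ), ν * s ^ 2 ≤ (M (Metric.ball 0 s)).toReal) :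
    ∃ c b₀ : ℝ, 0 < c ∧ 0 < b₀ ∧ b₀ < ρ ∧ ∀ b : ℝ, 0 < b → b < b₀ →
      c * b ^ 2 ≤ (M {p : ℂ × ℂ | ‖p.1‖ ≤ b ∧ p.2 = Y p.1}).toReal := by
  have := h.fin
  obtain ⟨K, r₂, hK, hr₂, hr₂ρ, hYK, -, htest⟩ := exists_test h.hol h.zero h.r_pos hY
  obtain ⟨C, r', hC, hr', -, hC2⟩ := h.mass
  have hD : 0 < 144 * K * (C * (3 * K + 4) ^ 2) := by positivity
  refine ⟨ν / (16 * K), min r₂ (min (r' / (3 * K + 4)) (ν / (144 * K * (C * (3 * K + 4) ^ 2)))),
    by positivity, ?_, ?_, ?_⟩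
  · refine lt_min hr₂ (lt_min ?_ ?_)
    · positivity
    · positivity
  · exact lt_of_le_of_lt (min_le_left _ _) (by linarith)
  intro b hb hb0
  have hb1 : b < r₂ := lt_of_lt_of_le hb0 (min_le_left _ _)
  have hb2 : b < r' / (3 * K + 4) :=
    lt_of_lt_of_le hb0 ((min_le_right _ _).trans (min_le_left _ _))
  have hb3 : b < ν / (144 * K * (C * (3 * K + 4) ^ 2)) :=
    lt_of_lt_of_le hb0 ((min_le_right _ _).trans (min_le_right _ _))
  have hbr : (3 * K + 4) * b < r' := by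
    rw [lt_div_iff₀ (by positivity)] at hb2
    linarith
  have hbν : 144 * K * (C * (3 * K + 4) ^ 2) * b ≤ ν := by
    rw [lt_div_iff₀ hD] at hb3
    linarith
  have hbρ : b < ρ := by linarith
  -- every tube has the mass
  have hkey : ∀ a : ℝ, 0 < a → ν / (16 * K) * b ^ 2 ≤
      (M {p : ℂ × ℂ | ‖p.1‖ ≤ b ∧ ‖p.2 - Y p.1‖ ≤ a}).toReal := by
    intro a ha
    have hδ : 0 < min (b / 2) (min (r₂ / (2 * (1 + K))) (a / (2 * (1 + K)))) := by
      refine lt_min (by positivity) (lt_min (by positivity) (by positivity))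
    have hev : ∀ᶠ s in 𝓝[>] (0 : ℝ), 0 < s ∧
        s < min (b / 2) (min (r₂ / (2 * (1 + K))) (a / (2 * (1 + K)))) := by
      filter_upwards [Ioo_mem_nhdsGT hδ] with s hs
      exact hs
    obtain ⟨s, hs1, hs2, hs3⟩ := (hf.and_eventually hev).exists
    have hs4 : s < b / 2 := lt_of_lt_of_le hs3 (min_le_left _ _)
    have hs5 : s < r₂ / (2 * (1 + K)) :=
      lt_of_lt_of_le hs3 ((min_le_right _ _).trans (min_le_left _ _))
    have hs6 : s < a / (2 * (1 + K)) :=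
      lt_of_lt_of_le hs3 ((min_le_right _ _).trans (min_le_right _ _))
    have hs7 : 2 * (1 + K) * s ≤ r₂ := by
      rw [lt_div_iff₀ (by positivity)] at hs5
      linarith
    have hs8 : 2 * (1 + K) * s ≤ a := by
      rw [lt_div_iff₀ (by positivity)] at hs6
      linarith
    have h1 := B1_step h hY hν hK hC hs2 hb1.le hr₂ hr₂ρ hYK htest hC2 hbr hb hbν hs4.le hs7 hs1
    refine h1.trans ?_
    refine ENNReal.toReal_mono (measure_ne_top _ _) (measure_mono ?_)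
    rintro p ⟨hp1, hp2⟩
    exact ⟨hp1, hp2.trans hs8⟩
  -- continuity from above
  have hanti : Antitone (fun n : ℕ =>
      {p : ℂ × ℂ | ‖p.1‖ ≤ b ∧ ‖p.2 - Y p.1‖ ≤ 1 / ((n : ℝ) + 1)}) := by
    intro m n hmn p hp
    refine ⟨hp.1, hp.2.trans ?_⟩
    exact one_div_le_one_div_of_le (by positivity) (by exact_mod_cast Nat.succ_le_succ hmn)
  have hinter : (⋂ n : ℕ, {p : ℂ × ℂ | ‖p.1‖ ≤ b ∧ ‖p.2 - Y p.1‖ ≤ 1 / ((n : ℝ) + 1)}) =
      {p : ℂ × ℂ | ‖p.1‖ ≤ b ∧ p.2 = Y p.1} := by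
    ext p
    simp only [Set.mem_iInter, Set.mem_ofPred_eq]
    constructor
    · intro hp
      refine ⟨(hp 0).1, ?_⟩
      have h1 : ‖p.2 - Y p.1‖ ≤ 0 :=
        ge_of_tendsto' tendsto_one_div_add_atTop_nhds_zero_nat fun n => (hp n).2
      exact sub_eq_zero.mp (norm_le_zero_iff.mp h1)
    · rintro ⟨hp1, hp2⟩ n
      refine ⟨hp1, ?_⟩
      rw [hp2, sub_self, norm_zero]
      positivity
  have hlim := tendsto_measure_iInter_atTop (μ := M) (s := fun n : ℕ =>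
      {p : ℂ × ℂ | ‖p.1‖ ≤ b ∧ ‖p.2 - Y p.1‖ ≤ 1 / ((n : ℝ) + 1)})
      (fun n => ((B1_tube_closed hY.hol hbρ).measurableSet).nullMeasurableSet) hanti
      ⟨0, measure_ne_top _ _⟩
  rw [hinter] at hlim
  have hlim2 := (ENNReal.tendsto_toReal (measure_ne_top M _)).comp hlim
  refine ge_of_tendsto' hlim2 fun n => ?_
  exact hkey (1 / ((n : ℝ) + 1)) (by positivity)

end Pool.Agent.H24.CU
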