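import Pool.Agent.H24.CU.LW

/-!
# Row DBF (the form dbar z of a smooth (1,0)-form; closed implies dd^c-closed)

PROOFS.  `exists_dbForm`: for `z` with `IsForm10 z` the matrix field `A x j k = dzbar k z_j (x)` for `x ≠ 0`, `A 0 = 0`, is in `Form11`.  Smooth: `fderiv` of a smooth function on the open set
`{0}ᶜ` evaluated at a constant vector.  Homogeneity: differentiate `z (c • x) = c⁻¹ • z x` in `x`: `fderiv z_j (c x) (c w) = c⁻¹ fderiv z_j x w`, so
`dzbar k z_j (c x) = c⁻¹ (conj c)⁻¹ dzbar k z_j x`.  Basic: `∑_j x_j dzbar k z_j = dzbar k (∑ x_j z_j) = 0` (the coordinates are holomorphic: `dzbar k x_j = 0`).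
`∑_k conj(x_k) dzbar k z_j (x) = (D z_j(x)(x) + i D z_j(x)(i x))/2` (see `LW`: `∑_k conj(v_k) dzbar k f = (Df(v) + i Df(iv))/2`), and the derivatives at `s = 1` of
`s ↦ z_j(s x) = s⁻¹ z_j(x)` in the directions `1`, `i` are `D z_j(x)(x) = - z_j(x)`, `D z_j(x)(i x) = - i z_j(x)`: the sum is `0`.
`PosCurrent.Closed.ddc`: for `u` with `IsFun u` put `z x = (dz j u x)_j`; `IsForm10 z`: smooth, `dz j u (c x) = c⁻¹ dz j u x` (differentiate `u (c x) = u x`), `∑ x_j dz j u x = 0`
(`u (s x) = u x`), and `dzbar k (dz j u) x = dz j (dzbar k u) x` at `x ≠ 0` (symmetry of the second derivative); use the first half of `Closed`.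
-/

namespace Pool.Agent.H24.CU

open scoped ComplexConjugate ContDiff

theorem DBF_inv (a : ℂ) : HasDerivAt (fun t : ℝ => (1 + (t : ℂ) * a)⁻¹) (-a) 0 := by
  have h2 : HasDerivAt (fun t : ℝ => 1 + (t : ℂ) * a) (1 * a) 0 :=
    ((Complex.ofRealCLM.hasDerivAt (x := (0 : ℝ))).mul_const a).const_add 1
  have h3 := h2.inv (by simp)
  have h4 : (fun t : ℝ => (1 + (t : ℂ) * a)⁻¹) = (fun t : ℝ => 1 + (t : ℂ) * a)⁻¹ := rfl
  rw [h4]
  refine h3.congr_deriv ?_
  simp

theorem exists_dbForm (z : V → V) (hz : IsForm10 z) :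
    ∃ A : Form11, ∀ x : V, x ≠ 0 → ∀ j k, A.1 x j k = dzbar k (fun y => z y j) x := by
  classical
  have hs : ∀ j, ContDiffOn ℝ ∞ (fun y => z y j) {0}ᶜ := fun j => contDiffOn_pi.1 hz.smooth j
  have hd : ∀ j, ∀ y : V, y ≠ 0 → DifferentiableAt ℝ (fun y => z y j) y := fun j => LW_diff (hs j)
  have hh : ∀ (j : Fin 3) (c : ℂ) (y : V), c ≠ 0 → y ≠ 0 →
      (fun y => z y j) (c • y) = c⁻¹ * (fun y => z y j) y := by
    intro j c y hc hy
    beta_reduce
    rw [hz.hom c y hc hy, Pi.smul_apply, smul_eq_mul]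
  refine ⟨⟨fun x => if x = 0 then 0 else Matrix.of fun j k => dzbar k (fun y => z y j) x,
    ?_, ?_, ?_, ?_⟩, ?_⟩
  · intro j k
    refine (LW_smooth_dzbar (hs j) k).congr ?_
    intro x hx
    have hx' : x ≠ 0 := hx
    simp only [if_neg hx', Matrix.of_apply]
  · simp
  · intro c x hc hx
    have hcx : c • x ≠ 0 := smul_ne_zero hc hx
    simp only [if_neg hx, if_neg hcx]
    ext j k
    rw [Matrix.smul_apply, Matrix.of_apply, Matrix.of_apply, LW_dzbar, LW_dzbar,
      LW_hom_b hc (fun y hy => hh j c y hc hy) (hd j) hx, smul_eq_mul, ← mul_inv,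
      mul_comm (conj c) c, Complex.mul_conj]
  · intro x hx
    simp only [if_neg hx, Matrix.of_apply]
    constructor
    · intro k
      obtain ⟨c, hc⟩ : ∃ c : Fin 3 → (V →L[ℝ] ℂ), ∀ j y, c j y = y j :=
        ⟨fun j => (ContinuousLinearMap.proj (R := ℂ) (φ := fun _ : Fin 3 => ℂ) j).restrictScalars ℝ,
          fun j y => rfl⟩
      have hGd : HasFDerivAt (fun y : V => ∑ j, c j y * z y j)
          (∑ j, (c j x • fderiv ℝ (fun y => z y j) x + z x j • c j)) x :=
        HasFDerivAt.fun_sum fun j _ => ((c j).hasFDerivAt).mul (hd j x hx).hasFDerivAt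
      have hG : (fun y : V => ∑ j, c j y * z y j) =ᶠ[nhds x] fun _ => 0 := by
        filter_upwards [LW_open.mem_nhds hx] with y hy
        rw [← hz.basic y hy]
        exact Finset.sum_congr rfl fun j _ => by rw [hc]
      have h0 := (hGd.congr_of_eventuallyEq hG.symm).unique (hasFDerivAt_const (0 : ℂ) x)
      have h1 : ∀ w : V, ∑ j, (x j * fderiv ℝ (fun y => z y j) x w + z x j * w j) = 0 := by
        intro w
        have h2 := DFunLike.congr_fun h0 w
        rw [_root_.sum_apply] at h2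
        simp only [add_apply, smul_apply, smul_eq_mul, hc, zero_apply] at h2
        exact h2
      have h3 := h1 (Pi.single k 1)
      have h4 := h1 (Complex.I • Pi.single k 1)
      have h5 : ∑ j, x j * dzbar k (fun y => z y j) x =
          ((∑ j, (x j * fderiv ℝ (fun y => z y j) x (Pi.single k 1) +
            z x j * (Pi.single k (1 : ℂ) : V) j)) + Complex.I *
          (∑ j, (x j * fderiv ℝ (fun y => z y j) x (Complex.I • Pi.single k 1) +
            z x j * (Complex.I • (Pi.single k (1 : ℂ) : V)) j))) / 2 := by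
        rw [Finset.mul_sum, ← Finset.sum_add_distrib, Finset.sum_div]
        refine Finset.sum_congr rfl fun j _ => ?_
        rw [LW_dzbar, LW_b, Pi.smul_apply, smul_eq_mul]
        linear_combination (-(1 / 2 : ℂ) * z x j * (Pi.single k (1 : ℂ) : V) j) * Complex.I_sq
      rw [h5, h3, h4]
      simp
    · intro j
      have h1 : ∑ k, dzbar k (fun y => z y j) x * conj (x k) =
          LW_b (fderiv ℝ (fun y => z y j) x) x := by
        rw [LW_b_sum]
        refine Finset.sum_congr rfl fun k _ => ?_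
        rw [LW_dzbar]
      have e1 := LW_euler (g := fun y => z y j) (m := fun c => c⁻¹) (hh j) hx (hd j x hx) 1 _
        (DBF_inv 1)
      have e2 := LW_euler (g := fun y => z y j) (m := fun c => c⁻¹) (hh j) hx (hd j x hx)
        Complex.I _ (DBF_inv Complex.I)
      rw [one_smul] at e1
      rw [h1, LW_b, e1, e2]
      linear_combination (-(1 / 2 : ℂ) * z x j) * Complex.I_sq
  · intro x hx j k
    show (if x = 0 then (0 : Matrix (Fin 3) (Fin 3) ℂ) else
      Matrix.of fun j k => dzbar k (fun y => z y j) x) j k = _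
    rw [if_neg hx, Matrix.of_apply]

theorem DBF_d_fderiv {U : V → ℂ} {x : V} (hU : ContDiffAt ℝ 2 U x) (k : Fin 3) (w : V) :
    fderiv ℝ (dz k U) x w = LW_a (fderiv ℝ (fderiv ℝ U) x w) (Pi.single k 1) := by
  have d1 := LC_dapp hU (Pi.single k (1 : ℂ))
  have d2 := LC_dapp hU (Pi.single k Complex.I)
  have h2 : HasFDerivAt (fun q => (fderiv ℝ U q (Pi.single k 1) -
      Complex.I * fderiv ℝ U q (Pi.single k Complex.I)) * (2 : ℂ)⁻¹) _ x :=
    (d1.hasFDerivAt.sub (d2.hasFDerivAt.const_mul Complex.I)).mul_const (2 : ℂ)⁻¹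
  have h3 : dz k U = fun q => (fderiv ℝ U q (Pi.single k 1) -
      Complex.I * fderiv ℝ U q (Pi.single k Complex.I)) * (2 : ℂ)⁻¹ := by
    funext q
    show (fderiv ℝ U q (Pi.single k 1) - Complex.I * fderiv ℝ U q (Pi.single k Complex.I)) / 2 = _
    rw [div_eq_mul_inv]
  rw [h3, h2.fderiv]
  simp only [sub_apply, smul_apply, smul_eq_mul]
  rw [LC_app hU, LC_app hU]
  unfold LW_a
  rw [LW_single]
  ring

theorem DBF_comm {U : V → ℂ} {x : V} (hU : ContDiffAt ℝ 2 U x) (j k : Fin 3) :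
    dz j (dzbar k U) x = dzbar k (dz j U) x := by
  rw [LW_dz, LW_dzbar, LW_a, LW_b, LW_dbar_fderiv hU, LW_dbar_fderiv hU, DBF_d_fderiv hU,
    DBF_d_fderiv hU]
  unfold LW_a LW_b
  obtain ⟨a, ha⟩ : ∃ a : V, a = Pi.single j 1 := ⟨_, rfl⟩
  obtain ⟨b, hb⟩ : ∃ b : V, b = Pi.single k 1 := ⟨_, rfl⟩
  rw [← ha, ← hb]
  have s1 := LC_symm hU a b
  have s2 := LC_symm hU (Complex.I • a) b
  have s3 := LC_symm hU a (Complex.I • b)
  have s4 := LC_symm hU (Complex.I • a) (Complex.I • b)
  rw [s1, s2, s3, s4]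
  ring

theorem DBF_form10 {u : V → ℂ} (hu : IsFun u) : IsForm10 (fun x j => dz j u x) where
  smooth := contDiffOn_pi.2 fun j => LW_smooth_dz hu.smooth j
  hom := by
    intro c x hc hx
    funext j
    rw [Pi.smul_apply, smul_eq_mul, LW_dz, LW_dz,
      LW_hom_a (μ := 1) hc (fun z hz => by rw [one_mul]; exact hu.hom c z hc hz)
        (LW_diff hu.smooth) hx, mul_one]
  basic := by
    intro x hx
    have h1 : ∑ j, x j * dz j u x = LW_a (fderiv ℝ u x) x := by
      rw [LW_a_sum]
      refine Finset.sum_congr rfl fun j _ => ?_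
      rw [LW_dz, mul_comm]
    have e1 := LW_euler (g := u) (m := fun _ => 1)
      (fun c z hc hz => by rw [one_mul]; exact hu.hom c z hc hz) hx (LW_diff hu.smooth x hx) 1 0
      (hasDerivAt_const _ _)
    have e2 := LW_euler (g := u) (m := fun _ => 1)
      (fun c z hc hz => by rw [one_mul]; exact hu.hom c z hc hz) hx (LW_diff hu.smooth x hx)
      Complex.I 0 (hasDerivAt_const _ _)
    rw [one_smul] at e1
    rw [h1, LW_a, e1, e2]
    simp

theorem PosCurrent.Closed.ddc {T : PosCurrent} (hT : T.Closed) : T.DdcClosed := by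
  intro u hu A hA
  refine (hT (fun x j => dz j u x) (DBF_form10 hu)).1 A ?_
  intro x hx j k
  rw [hA x hx j k]
  have hU : ContDiffAt ℝ 2 u x :=
    (hu.smooth.contDiffAt (LW_open.mem_nhds hx)).of_le ENat.LEInfty.out
  exact DBF_comm hU j k

end Pool.Agent.H24.CU
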