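import Pool.Agent.H24.CU.RZ
import Pool.Agent.H24.CU.AL

/-!
# Row RN (null sets, cut-off functions, bounds)

PROOFS.  (1) `curve_null`: for `ε > 0` take `χ, A` from `hT`; `1 <= χ` on `{P = 0} \ {0}` and `χ >= 0`,
`χ` is measurable/integrable for `μ` (bounded and continuous on the compact sphere, `μ` is carried by
the sphere), so `μ {P = 0} <= ∫ χ dμ = (T.toLin A).re < ε` (the point `0` is not on the sphere, hence
`μ {0} = 0`).
(2) `sing_null`: `exists_alpha_poly` gives `j` with `Q j ≠ 0` homogeneous, `{α = 0} ⊆ {Q j = 0}`.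
(3) `exists_cutoff`: `r x = nsq (α x) / nsq x ^ (deg+1)` is conic, smooth off `0` (a quotient of
polynomials in `x, conj x`) and `>= 0`.  Put `χ x = Real.smoothTransition (r x / δ - 1)`: it is `0` if
`r x <= δ`, `1` if `r x >= 2 δ`, values in `[0,1]`.
(4) `dens_bound`: on the compact sphere `|A_jk| <= c`.  With `F' = F - herm F x • x` (for `nsq x = 1`),
`∑ A_jk F_j conj F_k = ∑ A_jk F'_j conj F'_k` (basic), `|..| <= 9 c nsq F'`, and
`nsq F' = nsq F - |herm F x|^2 = nsq (α x)` (`nsq_cross`).  If `α x = 0` then `dens = 0` (`x / 0 = 0`).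
(5) measurability of `dens A.1` : the entries of `A` are continuous on `{0}ᶜ` and `A 0 = 0`, so they are
measurable (`ContinuousOn` on an open set plus a point), `vec`, `alpha` are continuous.
-/

namespace Pool.Agent.H24.CU

open MeasureTheory
open scoped ComplexConjugate ComplexOrder ContDiff

theorem RN_meas {f : V → ℂ} (hf : ContDiffOn ℝ ∞ f {0}ᶜ) : Measurable f :=
  measurable_of_continuousOn_compl_singleton 0 hf.continuousOn

theorem RN_sphere_ne {x : V} (hx : nsq x = 1) : x ≠ 0 := by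
  rintro rfl
  rw [nsq_eq_zero.2 rfl] at hx
  exact zero_ne_one hx

theorem RN_normSq_contDiff : ContDiff ℝ ∞ (fun z : ℂ => Complex.normSq z) := by
  have h : (fun z : ℂ => Complex.normSq z) = fun z : ℂ => z.re * z.re + z.im * z.im := by
    funext z
    rw [Complex.normSq_apply]
  rw [h]
  exact (Complex.reCLM.contDiff.mul Complex.reCLM.contDiff).add
    (Complex.imCLM.contDiff.mul Complex.imCLM.contDiff)

theorem RN_nsq_contDiff : ContDiff ℝ ∞ nsq := by
  unfold nsq
  exact ContDiff.sum fun j _ => RN_normSq_contDiff.comp (contDiff_apply ℝ ℂ j)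

theorem RN_poly_contDiff (P : MvPolynomial (Fin 3) ℂ) :
    ContDiff ℝ ∞ (fun x : V => MvPolynomial.eval x P) := by
  have h : ContDiff ℂ ∞ (fun x : V => MvPolynomial.eval x P) := by
    have h1 := (AnalyticOnNhd.eval_mvPolynomial (𝕜 := ℂ) P)
    exact h1.contDiff
  exact h.restrict_scalars ℝ

theorem RN_alpha_contDiff (𝓕 : Foliation) : ContDiff ℝ ∞ 𝓕.alpha := by
  obtain ⟨Q, _, hQ, _⟩ := exists_alpha_poly 𝓕
  rw [contDiff_pi]
  intro j
  have h : (fun x => 𝓕.alpha x j) = fun x => MvPolynomial.eval x (Q j) := by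
    funext x
    exact hQ x j
  rw [h]
  exact RN_poly_contDiff (Q j)

theorem RN_vec_contDiff (𝓕 : Foliation) : ContDiff ℝ ∞ 𝓕.vec := by
  rw [contDiff_pi]
  intro j
  exact RN_poly_contDiff (𝓕.F j)

theorem RN_isCompact : IsCompact {x : V | nsq x = 1} := by
  refine Metric.isCompact_of_isClosed_isBounded ?_ ?_
  · exact isClosed_eq RN_nsq_contDiff.continuous continuous_const
  · rw [Metric.isBounded_iff_subset_closedBall 0]
    refine ⟨1, fun x hx => ?_⟩
    rw [mem_closedBall_zero_iff, pi_norm_le_iff_of_nonneg zero_le_one]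
    intro j
    have h1 : Complex.normSq (x j) ≤ 1 := by
      have h2 : nsq x = 1 := hx
      rw [← h2]
      exact Finset.single_le_sum (f := fun j => Complex.normSq (x j))
        (fun i _ => Complex.normSq_nonneg _) (Finset.mem_univ j)
    rw [Complex.normSq_eq_norm_sq] at h1
    exact (sq_le_one_iff₀ (norm_nonneg _)).1 h1

theorem RN_bounded {f : V → ℂ} (hf : ContDiffOn ℝ ∞ f {0}ᶜ) :
    ∃ C : ℝ, 0 ≤ C ∧ ∀ x : V, nsq x = 1 → ‖f x‖ ≤ C := by
  obtain ⟨C, hC⟩ := RN_isCompact.exists_bound_of_continuousOn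
    (hf.continuousOn.mono fun x hx => RN_sphere_ne hx)
  exact ⟨max C 0, le_max_right _ _, fun x hx => (hC x hx).trans (le_max_left _ _)⟩

theorem curve_null (T : PosCurrent) (hT : T.Diffuse) (μ : Measure V) [IsFiniteMeasure μ]
    (hs : μ {x | nsq x ≠ 1} = 0) (h : IsRiesz T μ) (n : ℕ) (P : MvPolynomial (Fin 3) ℂ)
    (hP : P.IsHomogeneous n) (hP0 : P ≠ 0) : μ {x | MvPolynomial.eval x P = 0} = 0 := by
  have hae : ∀ᵐ x ∂μ, nsq x = 1 := hs
  have hZ : MeasurableSet {x : V | MvPolynomial.eval x P = 0} :=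
    (isClosed_eq (RN_poly_contDiff P).continuous continuous_const).measurableSet
  have key : ∀ ε : ℝ, 0 < ε → (μ {x | MvPolynomial.eval x P = 0}).toReal ≤ ε := by
    intro ε hε
    obtain ⟨χ, A, h1, h2, h3, h4, h5⟩ := hT n P hP hP0 ε hε
    have h6 := h χ A h1 h4
    rw [h6, Complex.ofReal_re] at h5
    have hm : Measurable χ := by
      have := RN_meas h1.smooth
      exact Complex.measurable_re.comp this
    obtain ⟨C, hC0, hC⟩ := RN_bounded h1.smooth
    have hi : Integrable χ μ := by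
      refine Integrable.of_bound hm.aestronglyMeasurable C ?_
      filter_upwards [hae] with x hx
      have := hC x hx
      rwa [Complex.norm_real] at this
    have h7 : ∫ x, Set.indicator {x : V | MvPolynomial.eval x P = 0} (fun _ => (1 : ℝ)) x ∂μ ≤
        ∫ x, χ x ∂μ := by
      refine integral_mono_ae ((integrable_const 1).indicator hZ) hi ?_
      filter_upwards [hae] with x hx
      by_cases hx2 : MvPolynomial.eval x P = 0
      · rw [Set.indicator_of_mem (show x ∈ {x : V | MvPolynomial.eval x P = 0} from hx2)]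
        exact h3 x (RN_sphere_ne hx) hx2
      · rw [Set.indicator_of_notMem (show x ∉ {x : V | MvPolynomial.eval x P = 0} from hx2)]
        exact h2 x
    rw [integral_indicator hZ, setIntegral_const, smul_eq_mul, mul_one] at h7
    exact h7.trans h5.le
  have h0 : (μ {x | MvPolynomial.eval x P = 0}).toReal ≤ 0 :=
    le_of_forall_pos_le_add fun ε hε => by
      rw [zero_add]
      exact key ε hε
  have h1 : (μ {x | MvPolynomial.eval x P = 0}).toReal = 0 := le_antisymm h0 ENNReal.toReal_nonneg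
  rcases (ENNReal.toReal_eq_zero_iff _).1 h1 with h2 | h2
  · exact h2
  · exact absurd h2 (measure_ne_top μ _)

theorem sing_null (𝓕 : Foliation) (T : PosCurrent) (hT : T.Diffuse) (μ : Measure V)
    [IsFiniteMeasure μ] (hs : μ {x | nsq x ≠ 1} = 0) (h : IsRiesz T μ) :
    μ {x | 𝓕.alpha x = 0} = 0 := by
  obtain ⟨Q, hQ1, hQ2, j, hj⟩ := exists_alpha_poly 𝓕
  refine measure_mono_null ?_ (curve_null T hT μ hs h (𝓕.deg + 1) (Q j) (hQ1 j) hj)
  intro x hx
  have h1 : 𝓕.alpha x = 0 := hx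
  have h2 : MvPolynomial.eval x (Q j) = 0 := by
    rw [← hQ2 x j, h1]
    rfl
  exact h2

theorem exists_cutoff (𝓕 : Foliation) (δ : ℝ) (hδ : 0 < δ) :
    ∃ χ : V → ℝ, IsFun (fun x => (χ x : ℂ)) ∧ (∀ x, 0 ≤ χ x) ∧ (∀ x, χ x ≤ 1) ∧
      (∀ x : V, x ≠ 0 → nsq (𝓕.alpha x) ≤ δ * nsq x ^ (𝓕.deg + 1) → χ x = 0) ∧
      (∀ x : V, x ≠ 0 → 2 * δ * nsq x ^ (𝓕.deg + 1) ≤ nsq (𝓕.alpha x) → χ x = 1) := by
  refine ⟨fun x => Real.smoothTransition (nsq (𝓕.alpha x) / nsq x ^ (𝓕.deg + 1) / δ - 1),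
    ⟨?_, ?_⟩, fun x => Real.smoothTransition.nonneg _, fun x => Real.smoothTransition.le_one _,
    fun x hx h => ?_, fun x hx h => ?_⟩
  · have h1 : ContDiffOn ℝ ∞ (fun x : V => nsq (𝓕.alpha x) / nsq x ^ (𝓕.deg + 1) / δ - 1)
        {0}ᶜ := by
      refine ContDiffOn.sub (ContDiffOn.div_const (ContDiffOn.div ?_ ?_ ?_) δ) contDiffOn_const
      · exact (RN_nsq_contDiff.comp (RN_alpha_contDiff 𝓕)).contDiffOn
      · exact (RN_nsq_contDiff.pow _).contDiffOn
      · intro x hx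
        exact pow_ne_zero _ (nsq_pos hx).ne'
    have h2 : ContDiff ℝ ∞ Real.smoothTransition := Real.smoothTransition.contDiff
    exact Complex.ofRealCLM.contDiff.comp_contDiffOn (h2.comp_contDiffOn h1)
  · intro c x hc hx
    beta_reduce
    congr 3
    rw [alpha_smul, nsq_smul, nsq_smul, mul_pow, map_pow]
    rw [mul_div_mul_left]
    exact pow_ne_zero _ (Complex.normSq_pos.2 hc).ne'
  · apply Real.smoothTransition.zero_of_nonpos
    have h1 : 0 < nsq x ^ (𝓕.deg + 1) := pow_pos (nsq_pos hx) _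
    have h2 : nsq (𝓕.alpha x) / nsq x ^ (𝓕.deg + 1) ≤ δ := (div_le_iff₀ h1).2 h
    have h3 : nsq (𝓕.alpha x) / nsq x ^ (𝓕.deg + 1) / δ ≤ 1 := (div_le_one₀ hδ).2 h2
    linarith
  · apply Real.smoothTransition.one_of_one_le
    have h1 : 0 < nsq x ^ (𝓕.deg + 1) := pow_pos (nsq_pos hx) _
    have h2 : 2 * δ ≤ nsq (𝓕.alpha x) / nsq x ^ (𝓕.deg + 1) := (le_div_iff₀ h1).2 h
    have h3 : 2 ≤ nsq (𝓕.alpha x) / nsq x ^ (𝓕.deg + 1) / δ := (le_div_iff₀ hδ).2 h2
    linarith

theorem RN_expand (A : Matrix (Fin 3) (Fin 3) ℂ) (x F : V) (t : ℂ)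
    (h1 : ∀ k, ∑ j, x j * A j k = 0) (h2 : ∀ j, ∑ k, A j k * conj (x k) = 0) :
    ∑ j, ∑ k, A j k * (F j - t * x j) * conj (F k - t * x k) =
      ∑ j, ∑ k, A j k * F j * conj (F k) := by
  have e1 := h1 0
  have e2 := h1 1
  have e3 := h1 2
  have g1 := h2 0
  have g2 := h2 1
  have g3 := h2 2
  simp only [Fin.sum_univ_three, map_sub, map_mul] at *
  linear_combination (-(t * (conj (F 0) - conj t * conj (x 0)))) * e1
    + (-(t * (conj (F 1) - conj t * conj (x 1)))) * e2
    + (-(t * (conj (F 2) - conj t * conj (x 2)))) * e3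
    - conj t * F 0 * g1 - conj t * F 1 * g2 - conj t * F 2 * g3

theorem RN_nsq_sub (x F : V) (hx : nsq x = 1) :
    nsq (fun j => F j - herm F x * x j) = nsq F - Complex.normSq (herm F x) := by
  have key : (((nsq (fun j => F j - herm F x * x j)) : ℝ) : ℂ) =
      ((nsq F - Complex.normSq (herm F x) : ℝ) : ℂ) := by
    have hx' : x 0 * conj (x 0) + x 1 * conj (x 1) + x 2 * conj (x 2) = 1 := by
      have : ((nsq x : ℝ) : ℂ) = 1 := by rw [hx, Complex.ofReal_one]
      rw [← this]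
      simp only [nsq, Fin.sum_univ_three, Complex.ofReal_add, Complex.normSq_eq_conj_mul_self]
      ring
    have hh : herm F x = F 0 * conj (x 0) + F 1 * conj (x 1) + F 2 * conj (x 2) := by
      simp only [herm, Fin.sum_univ_three]
    have hh' : conj (herm F x) = conj (F 0) * x 0 + conj (F 1) * x 1 + conj (F 2) * x 2 := by
      rw [hh]
      simp only [map_add, map_mul, Complex.conj_conj]
    simp only [nsq, Fin.sum_univ_three, Complex.ofReal_add, Complex.ofReal_sub,
      Complex.normSq_eq_conj_mul_self, map_sub, map_mul]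
    generalize herm F x = t at *
    linear_combination (conj t * t) * hx' - conj t * hh.symm - t * hh'.symm
  exact_mod_cast key

theorem RN_norm_le (v : V) (j : Fin 3) : ‖v j‖ ≤ Real.sqrt (nsq v) := by
  apply Real.le_sqrt_of_sq_le
  rw [← Complex.normSq_eq_norm_sq]
  exact Finset.single_le_sum (f := fun j => Complex.normSq (v j))
    (fun i _ => Complex.normSq_nonneg _) (Finset.mem_univ j)

theorem RN_quad_le (A : Matrix (Fin 3) (Fin 3) ℂ) (v : V) (c : ℝ) (hc : 0 ≤ c)
    (hA : ∀ j k, ‖A j k‖ ≤ c) : ‖∑ j, ∑ k, A j k * v j * conj (v k)‖ ≤ 9 * c * nsq v := by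
  have h1 : ∀ j k, ‖A j k * v j * conj (v k)‖ ≤ c * nsq v := by
    intro j k
    rw [norm_mul, norm_mul, Complex.norm_conj, mul_assoc]
    refine mul_le_mul (hA j k) ?_ (by positivity) hc
    calc ‖v j‖ * ‖v k‖ ≤ Real.sqrt (nsq v) * Real.sqrt (nsq v) :=
          mul_le_mul (RN_norm_le v j) (RN_norm_le v k) (norm_nonneg _) (Real.sqrt_nonneg _)
      _ = nsq v := Real.mul_self_sqrt (nsq_nonneg v)
  calc ‖∑ j, ∑ k, A j k * v j * conj (v k)‖ ≤ ∑ j : Fin 3, ‖∑ k, A j k * v j * conj (v k)‖ :=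
        norm_sum_le _ _
    _ ≤ ∑ j : Fin 3, ∑ k : Fin 3, ‖A j k * v j * conj (v k)‖ :=
        Finset.sum_le_sum fun j _ => norm_sum_le _ _
    _ ≤ ∑ j : Fin 3, ∑ k : Fin 3, c * nsq v :=
        Finset.sum_le_sum fun j _ => Finset.sum_le_sum fun k _ => h1 j k
    _ = 9 * c * nsq v := by
        simp only [Finset.sum_const, Finset.card_univ, Fintype.card_fin, nsmul_eq_mul]
        push_cast
        ring

theorem RN_entries_bound (A : Form11) :
    ∃ c : ℝ, 0 ≤ c ∧ ∀ x : V, nsq x = 1 → ∀ j k, ‖A.1 x j k‖ ≤ c := by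
  have h : ∀ j k, ∃ C : ℝ, 0 ≤ C ∧ ∀ x : V, nsq x = 1 → ‖A.1 x j k‖ ≤ C := fun j k =>
    RN_bounded (A.2.1 j k)
  choose C hC0 hC using h
  refine ⟨∑ j, ∑ k, C j k, Finset.sum_nonneg fun j _ => Finset.sum_nonneg fun k _ => hC0 j k,
    fun x hx j k => (hC j k x hx).trans ?_⟩
  calc C j k ≤ ∑ k, C j k := Finset.single_le_sum (f := fun k => C j k)
        (fun k _ => hC0 j k) (Finset.mem_univ k)
    _ ≤ ∑ j, ∑ k, C j k := Finset.single_le_sum (f := fun j => ∑ k, C j k)
        (fun j _ => Finset.sum_nonneg fun k _ => hC0 j k) (Finset.mem_univ j)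

theorem dens_bound (𝓕 : Foliation) (A : Form11) :
    ∃ C : ℝ, 0 ≤ C ∧ ∀ x : V, nsq x = 1 → ‖𝓕.dens A.1 x‖ ≤ C := by
  obtain ⟨c, hc, hA⟩ := RN_entries_bound A
  refine ⟨9 * c, by positivity, fun x hx => ?_⟩
  have hx0 := RN_sphere_ne hx
  have h1 := RN_expand (A.1 x) x (𝓕.vec x) (herm (𝓕.vec x) x) (A.2.2.2.2 x hx0).1
    (A.2.2.2.2 x hx0).2
  have h2 := RN_quad_le (A.1 x) (fun j => 𝓕.vec x j - herm (𝓕.vec x) x * x j) c hc (hA x hx)
  rw [RN_nsq_sub x (𝓕.vec x) hx] at h2
  beta_reduce at h2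
  rw [h1] at h2
  have h3 : nsq (𝓕.alpha x) = nsq (𝓕.vec x) - Complex.normSq (herm (𝓕.vec x) x) := by
    have := nsq_cross x (𝓕.vec x)
    rw [hx, one_mul] at this
    exact this
  rw [← h3] at h2
  unfold Foliation.dens
  rw [norm_div, Complex.norm_real, Real.norm_of_nonneg (nsq_nonneg _)]
  exact div_le_of_le_mul₀ (nsq_nonneg _) (by positivity) h2

theorem measurable_dens (𝓕 : Foliation) (A : Form11) : Measurable (𝓕.dens A.1) := by
  unfold Foliation.dens
  have hv : ∀ j, Measurable fun x => 𝓕.vec x j := fun j =>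
    ((continuous_apply j).comp (RN_vec_contDiff 𝓕).continuous).measurable
  refine Measurable.div ?_ ?_
  · refine Finset.measurable_fun_sum _ fun j _ => Finset.measurable_fun_sum _ fun k _ => ?_
    refine ((RN_meas (A.2.1 j k)).mul (hv j)).mul ?_
    exact Complex.continuous_conj.measurable.comp (hv k)
  · exact Complex.measurable_ofReal.comp
      (RN_nsq_contDiff.comp (RN_alpha_contDiff 𝓕)).continuous.measurable

end Pool.Agent.H24.CU
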