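import Pool.Agent.H24.CU.RD
import Pool.Agent.H24.CU.RN

/-!
# Row RF (representation theorem)

PROOF.  `μ` from `riesz`; `curve` and `sing` from `curve_null`, `sing_null`.
`pair`: fix `A`, and `δ_n = 1/(n+1)`, `χ_n` from `exists_cutoff`.  Let `B_n = χ_n A` (`exists_mul`),
`B'_n = (1 - χ_n) A`, `D'_n = (1 - χ_n) W`.  `T A = T B_n + T B'_n` (`Form11.ext_off`, linearity).
`‖T B'_n‖ <= C (T D'_n).re = C ∫ (1 - χ_n) dμ` (`exists_bound`, `IsRiesz`) and `1 - χ_n -> indicator of
{α = 0}` on the sphere, dominated convergence: the limit is `C μ {α = 0} = 0`.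
`T B_n = T D_n`, `D_n x = u_n x • W`, `u_n = χ_n N^2 dens` (`directed_reduce`); the real and imaginary
parts of `u_n` are `IsFun`, so by `IsRiesz` (applied to `re` and `im`, linearity of `T`)
`T D_n = ∫ u_n dμ = ∫ χ_n dens A.1 dμ` (`nsq = 1` on the sphere), which tends to `∫ dens A.1 dμ`
(`dens_bound`, dominated convergence, `μ {α = 0} = 0`).
`rep_mass`: apply `pair` to `A = W` (`exists_scaled` with `u = 1`): for `nsq y = 1` and `α y ≠ 0`,
`dens W y = ((nsq F nsq y - |herm F y|^2)/1)/nsq α = 1` (`fubiniStudy_quad`, `nsq_cross`).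
`ne_zero`: if `T.toLin ≠ 0` then `μ univ ≠ 0` (otherwise all integrals vanish).
-/

namespace Pool.Agent.H24.CU

open MeasureTheory
open scoped ComplexConjugate ComplexOrder ContDiff

theorem RF_meas {f : V → ℂ} (h : ContDiffOn ℝ ∞ f {0}ᶜ) : Measurable f :=
  measurable_of_continuousOn_compl_singleton 0 h.continuousOn

theorem RF_isFun_sub {χ : V → ℝ} (h : IsFun (fun x => (χ x : ℂ))) :
    IsFun (fun x => ((1 - χ x : ℝ) : ℂ)) := by
  refine ⟨?_, ?_⟩
  · have := (contDiffOn_const (c := (1 : ℂ))).sub h.smooth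
    refine this.congr ?_
    intro x hx
    push_cast
    rfl
  · intro c x hc hx
    have := h.hom c x hc hx
    push_cast
    rw [this]

theorem RF_isFun_re {u : V → ℂ} (h : IsFun u) : IsFun (fun x => (((u x).re : ℝ) : ℂ)) := by
  refine ⟨?_, ?_⟩
  · exact Complex.ofRealCLM.contDiff.comp_contDiffOn (Complex.reCLM.contDiff.comp_contDiffOn h.smooth)
  · intro c x hc hx
    rw [h.hom c x hc hx]

theorem RF_isFun_im {u : V → ℂ} (h : IsFun u) : IsFun (fun x => (((u x).im : ℝ) : ℂ)) := by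
  refine ⟨?_, ?_⟩
  · exact Complex.ofRealCLM.contDiff.comp_contDiffOn (Complex.imCLM.contDiff.comp_contDiffOn h.smooth)
  · intro c x hc hx
    rw [h.hom c x hc hx]

theorem RF_complex (T : PosCurrent) (μ : Measure V) (hR : IsRiesz T μ) (u : V → ℂ) (hu : IsFun u)
    (hi : Integrable u μ) (D : Form11) (hD : ∀ x : V, x ≠ 0 → D.1 x = u x • fubiniStudy x) :
    T.toLin D = ∫ x, u x ∂μ := by
  obtain ⟨D1, h1⟩ := exists_scaled _ (RF_isFun_re hu)
  obtain ⟨D2, h2⟩ := exists_scaled _ (RF_isFun_im hu)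
  have e1 := hR (fun x => (u x).re) D1 (RF_isFun_re hu) h1
  have e2 := hR (fun x => (u x).im) D2 (RF_isFun_im hu) h2
  have hDD : D = D1 + Complex.I • D2 := by
    apply Form11.ext_off
    intro x hx
    have : (D1 + Complex.I • D2).1 x = D1.1 x + Complex.I • D2.1 x := rfl
    rw [this, hD x hx, h1 x hx, h2 x hx, smul_smul, ← add_smul]
    congr 1
    conv_lhs => rw [← Complex.re_add_im (u x)]
    ring
  rw [hDD, map_add, map_smul, e1, e2, smul_eq_mul]
  have := integral_re_add_im (𝕜 := ℂ) hi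
  rw [← this]
  simp only [RCLike.re_to_complex, RCLike.im_to_complex, RCLike.I_to_complex,
    Complex.coe_algebraMap, mul_comm]

theorem exists_rep (𝓕 : Foliation) (T : PosCurrent) (hT : T.Directed 𝓕) (hd : T.Diffuse) :
    ∃ μ : Measure V, Rep 𝓕 T μ := by
  obtain ⟨μ, hfin, hsph, hR⟩ := riesz T
  have hsing := sing_null 𝓕 T hd μ hsph hR
  refine ⟨μ, hfin, hsph, hsing, fun n P hP hP0 => curve_null T hd μ hsph hR n P hP hP0, ?_⟩
  intro A
  obtain ⟨C, hC0, hC⟩ := dens_bound 𝓕 A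
  obtain ⟨C', hC'0, hC'⟩ := exists_bound A
  have hδ : ∀ n : ℕ, (0 : ℝ) < 1 / ((n : ℝ) + 1) := fun n => Nat.one_div_pos_of_nat
  choose χ hχf hχ0 hχ1 hχs hχt using fun n : ℕ => exists_cutoff 𝓕 (1 / ((n : ℝ) + 1)) (hδ n)
  choose B hB using fun n : ℕ => exists_mul A _ (hχf n)
  choose B' hB' using fun n : ℕ => exists_mul A _ (RF_isFun_sub (hχf n))
  choose D' hD' using fun n : ℕ => exists_scaled _ (RF_isFun_sub (hχf n))
  -- the sum
  have hsum : ∀ n, T.toLin A = T.toLin (B n) + T.toLin (B' n) := by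
    intro n
    rw [← map_add]
    congr 1
    apply Form11.ext_off
    intro x hx
    have : (B n + B' n).1 x = (B n).1 x + (B' n).1 x := rfl
    rw [this, hB n x hx, hB' n x hx, ← add_smul]
    push_cast
    rw [add_sub_cancel, one_smul]
  -- almost everywhere facts
  have hae1 : ∀ᵐ y ∂μ, nsq y = 1 := by
    rw [ae_iff]
    exact hsph
  have hae2 : ∀ᵐ y ∂μ, 𝓕.alpha y ≠ 0 := by
    rw [ae_iff]
    simpa using hsing
  have hev : ∀ y : V, nsq y = 1 → 𝓕.alpha y ≠ 0 → ∀ᶠ n : ℕ in Filter.atTop, χ n y = 1 := by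
    intro y hy hα
    have hy0 : y ≠ 0 := by
      rintro rfl
      rw [nsq_eq_zero.2 rfl] at hy
      exact zero_ne_one hy
    have hp : 0 < nsq (𝓕.alpha y) := nsq_pos hα
    have ht : Filter.Tendsto (fun n : ℕ => 2 * (1 / ((n : ℝ) + 1))) Filter.atTop (nhds 0) := by
      have := (tendsto_one_div_add_atTop_nhds_zero_nat (𝕜 := ℝ)).const_mul 2
      rwa [mul_zero] at this
    filter_upwards [ht.eventually (gt_mem_nhds hp)] with n hn
    refine hχt n y hy0 ?_
    rw [hy, one_pow, mul_one]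
    exact hn.le
  have hmχ : ∀ n, Measurable (fun x => (1 - χ n x : ℝ)) := by
    intro n
    have h1 := RF_meas (RF_isFun_sub (hχf n)).smooth
    have h2 := Complex.measurable_re.comp h1
    exact h2
  -- first limit
  have hlim1 : Filter.Tendsto (fun n => ∫ x, (1 - χ n x : ℝ) ∂μ) Filter.atTop (nhds 0) := by
    have := tendsto_integral_of_dominated_convergence (μ := μ)
      (F := fun n x => (1 - χ n x : ℝ)) (f := fun _ => (0 : ℝ)) (fun _ => (1 : ℝ))
      (fun n => (hmχ n).aestronglyMeasurable) (integrable_const _)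
      (fun n => Filter.Eventually.of_forall fun x => by
        rw [Real.norm_eq_abs, abs_le]
        have a := hχ0 n x
        have b := hχ1 n x
        constructor <;> linarith)
      (by
        filter_upwards [hae1, hae2] with y h1 h2
        refine tendsto_const_nhds.congr' ?_
        filter_upwards [hev y h1 h2] with n hn
        rw [hn, sub_self])
    simpa using this
  have hlimB' : Filter.Tendsto (fun n => T.toLin (B' n)) Filter.atTop (nhds 0) := by
    have h1 : ∀ n, ‖T.toLin (B' n)‖ ≤ C' * ∫ x, (1 - χ n x : ℝ) ∂μ := by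
      intro n
      have h2 := hC' T (fun x => 1 - χ n x) (B' n) (D' n) (RF_isFun_sub (hχf n))
        (fun x => by have := hχ1 n x; linarith) (hB' n) (hD' n)
      have h3 := hR (fun x => 1 - χ n x) (D' n) (RF_isFun_sub (hχf n)) (hD' n)
      rw [h3, Complex.ofReal_re] at h2
      exact h2
    refine squeeze_zero_norm h1 ?_
    have := hlim1.const_mul C'
    rwa [mul_zero] at this
  -- second limit
  have hmd := measurable_dens 𝓕 A
  have hred := fun n : ℕ => directed_reduce 𝓕 T hT A (χ n) (hχf n) (1 / ((n : ℝ) + 1)) (hδ n)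
    (hχs n) (fun x => (χ n x : ℂ) * (nsq x : ℂ) ^ 2 * 𝓕.dens A.1 x) (fun x _ => rfl)
  choose D hD using fun n : ℕ => exists_scaled _ (hred n).1
  have hbd : ∀ n, ∀ᵐ x ∂μ, ‖(χ n x : ℂ) * (nsq x : ℂ) ^ 2 * 𝓕.dens A.1 x‖ ≤ C := by
    intro n
    filter_upwards [hae1] with y h1
    rw [h1, norm_mul, norm_mul]
    have h2 := hC y h1
    have h3 : ‖(χ n y : ℂ)‖ ≤ 1 := by
      rw [Complex.norm_real, Real.norm_eq_abs, abs_of_nonneg (hχ0 n y)]
      exact hχ1 n y
    have h4 : ‖((1 : ℝ) : ℂ) ^ 2‖ = 1 := by simp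
    rw [h4, mul_one]
    calc ‖(χ n y : ℂ)‖ * ‖𝓕.dens A.1 y‖ ≤ 1 * C :=
          mul_le_mul h3 h2 (norm_nonneg _) zero_le_one
      _ = C := one_mul C
  have hmu : ∀ n, AEStronglyMeasurable
      (fun x => (χ n x : ℂ) * (nsq x : ℂ) ^ 2 * 𝓕.dens A.1 x) μ := fun n =>
    (RF_meas (hred n).1.smooth).aestronglyMeasurable
  have hB2 : ∀ n, T.toLin (B n) = ∫ x, (χ n x : ℂ) * (nsq x : ℂ) ^ 2 * 𝓕.dens A.1 x ∂μ := by
    intro n
    rw [(hred n).2 (B n) (D n) (hB n) (hD n)]
    exact RF_complex T μ hR _ (hred n).1 (Integrable.of_bound (hmu n) C (hbd n)) (D n) (hD n)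
  have hlimB : Filter.Tendsto (fun n => T.toLin (B n)) Filter.atTop
      (nhds (∫ y, 𝓕.dens A.1 y ∂μ)) := by
    simp only [hB2]
    refine tendsto_integral_of_dominated_convergence (fun _ => C) hmu (integrable_const _) hbd ?_
    filter_upwards [hae1, hae2] with y h1 h2
    refine tendsto_const_nhds.congr' ?_
    filter_upwards [hev y h1 h2] with n hn
    rw [hn, h1]
    simp
  have hfinal := hlimB.add hlimB'
  rw [add_zero] at hfinal
  refine tendsto_nhds_unique (tendsto_const_nhds (x := T.toLin A) (f := (Filter.atTop : Filter ℕ))) ?_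
  refine hfinal.congr ?_
  intro n
  exact (hsum n).symm

theorem dens_fubiniStudy (𝓕 : Foliation) (y : V) (hy : nsq y = 1) (hα : 𝓕.alpha y ≠ 0) :
    𝓕.dens fubiniStudy y = 1 := by
  have hy0 : y ≠ 0 := by
    rintro rfl
    rw [nsq_eq_zero.2 rfl] at hy
    exact zero_ne_one hy
  have hp : nsq (𝓕.alpha y) ≠ 0 := (nsq_pos hα).ne'
  have h1 : 𝓕.alpha y = crossProduct y (𝓕.vec y) := rfl
  have h2 := nsq_cross y (𝓕.vec y)
  unfold Foliation.dens
  rw [fubiniStudy_quad y hy0 (𝓕.vec y), ← h2, ← h1, hy, one_pow, div_one]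
  exact div_self (Complex.ofReal_ne_zero.2 hp)

theorem Rep.univ_ne_zero {𝓕 : Foliation} {T : PosCurrent} {μ : Measure V} (h : Rep 𝓕 T μ)
    (hT : T.toLin ≠ 0) : μ Set.univ ≠ 0 := by
  intro h0
  apply hT
  have hμ : μ = 0 := Measure.measure_univ_eq_zero.1 h0
  refine LinearMap.ext fun A => ?_
  rw [h.pair A, hμ, integral_zero_measure]
  rfl

end Pool.Agent.H24.CU
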