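import Pool.Agent.H24.CU.LW
import Pool.Agent.H24.CU.RN

/-!
# Row RH (the measure of a dd^c-closed directed current)

PROOF.  Given real `u` with `IsFun u`, take `A` of `exists_leviForm`; `T.toLin A = 0` by `DdcClosed`,
so `∫ dens A.1 dμ = 0` by `pair`.  For `y ≠ 0`, `dens A.1 y = levi u y (vec y) / nsq (α y)` as a complex
number (`sum_dz_dzbar`; `u` is `C^2` at `y`), and `μ {0} = 0` (sphere), so the real integral is `0`
(`integral_congr_ae`, `integral_ofReal`).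
`bounded`: the same identity and `dens_bound`.  `integrable` follows (finite measure, measurability
from `measurable_dens`, real part).
-/

namespace Pool.Agent.H24.CU

open MeasureTheory
open scoped ComplexConjugate ContDiff

theorem RH_eq (𝓕 : Foliation) {u : V → ℝ} (hu : IsFun (fun x => (u x : ℂ))) {A : Form11}
    (hA : ∀ x : V, x ≠ 0 → ∀ j k, A.1 x j k = dz j (dzbar k (fun y => (u y : ℂ))) x)
    {y : V} (hy : y ≠ 0) :
    𝓕.dens A.1 y = ((levi u y (𝓕.vec y) / nsq (𝓕.alpha y) : ℝ) : ℂ) := by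
  have h1 : ContDiffAt ℝ ∞ (fun x => (u x : ℂ)) y :=
    hu.smooth.contDiffAt (isOpen_compl_singleton.mem_nhds hy)
  have h2 : ContDiffAt ℝ ∞ u y := Complex.reCLM.contDiff.contDiffAt.comp y h1
  have h3 : ContDiffAt ℝ 2 u y := h2.of_le (by norm_cast)
  unfold Foliation.dens
  rw [Complex.ofReal_div, ← sum_dz_dzbar h3 (𝓕.vec y)]
  congr 1
  refine Finset.sum_congr rfl fun j _ => Finset.sum_congr rfl fun k _ => ?_
  rw [hA y hy j k]

theorem RH_ae {μ : Measure V} (hs : μ {x | nsq x ≠ 1} = 0) : ∀ᵐ x ∂μ, nsq x = 1 := hs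

theorem Rep.toHarm {𝓕 : Foliation} {T : PosCurrent} {μ : Measure V} (h : Rep 𝓕 T μ)
    (hT : T.DdcClosed) : Harm 𝓕 μ := by
  refine ⟨h.fin, h.sph, h.sing, fun u hu => ?_⟩
  obtain ⟨A, hA⟩ := exists_leviForm _ hu
  have h1 : T.toLin A = 0 := hT _ hu A hA
  rw [h.pair A] at h1
  have h2 : ∫ y, 𝓕.dens A.1 y ∂μ =
      ∫ y, ((levi u y (𝓕.vec y) / nsq (𝓕.alpha y) : ℝ) : ℂ) ∂μ := by
    refine integral_congr_ae ?_
    filter_upwards [RH_ae h.sph] with y hy
    exact RH_eq 𝓕 hu hA (RN_sphere_ne hy)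
  rw [h2, integral_complex_ofReal] at h1
  exact_mod_cast h1

theorem levi_div_bound (𝓕 : Foliation) (u : V → ℝ) (hu : IsFun (fun x => (u x : ℂ))) :
    ∃ C : ℝ, 0 ≤ C ∧ ∀ y : V, nsq y = 1 → |levi u y (𝓕.vec y) / nsq (𝓕.alpha y)| ≤ C := by
  obtain ⟨A, hA⟩ := exists_leviForm _ hu
  obtain ⟨C, hC, hb⟩ := dens_bound 𝓕 A
  refine ⟨C, hC, fun y hy => ?_⟩
  have h1 := hb y hy
  rw [RH_eq 𝓕 hu hA (RN_sphere_ne hy), Complex.norm_real, Real.norm_eq_abs] at h1
  exact h1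

theorem integrable_levi_div (𝓕 : Foliation) (μ : Measure V) [IsFiniteMeasure μ]
    (hs : μ {x | nsq x ≠ 1} = 0) (u : V → ℝ) (hu : IsFun (fun x => (u x : ℂ))) :
    Integrable (fun y => levi u y (𝓕.vec y) / nsq (𝓕.alpha y)) μ := by
  obtain ⟨A, hA⟩ := exists_leviForm _ hu
  obtain ⟨C, hC, hb⟩ := levi_div_bound 𝓕 u hu
  have hm : Measurable fun y => (𝓕.dens A.1 y).re :=
    Complex.measurable_re.comp (measurable_dens 𝓕 A)
  have hae : (fun y => (𝓕.dens A.1 y).re) =ᵐ[μ]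
      fun y => levi u y (𝓕.vec y) / nsq (𝓕.alpha y) := by
    filter_upwards [RH_ae hs] with y hy
    rw [RH_eq 𝓕 hu hA (RN_sphere_ne hy), Complex.ofReal_re]
  refine Integrable.of_bound (hm.aestronglyMeasurable.congr hae) C ?_
  filter_upwards [RH_ae hs] with y hy
  rw [Real.norm_eq_abs]
  exact hb y hy

end Pool.Agent.H24.CU
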