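import Pool.Agent.H24.CU.SDefs
import Pool.Agent.H24.CU.DBF
import Pool.Agent.H24.CU.RH
import Pool.Agent.H24.CU.RF
import Pool.Agent.H85.DC.Defs2

/-!
# Row BR (bridge between the faithful currents and the measures of block DC)

`DC.N = nsq`, `DC.ip = herm`, `DC.tau = tau`, `DC.dz = dz`, `DC.dzb = dzbar`, `DC.Zf 𝓕.F = 𝓕.vec`, `DC.eta 𝓕.F = 𝓕.alpha` (`cross_apply`), `DC.pr 𝓕.F = 𝓕.dens`: all
by unfolding (`rfl` or `simp [cross_apply]`).
PROOFS.  `toCurClosed`: for `ζ` with `DC.IsCov ζ`, `IsForm10 ζ`; `A` of `exists_dbForm`; `0 = T.toLin A = ∫ dens A.1 dμ`, and `dens A.1 y = DC.pr F (DC.db ζ) y` for `y ≠ 0`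
(`μ {0} = 0` because `nsq 0 ≠ 1`).
`toDdcClosed`: same with `exists_leviForm`.
`closed_of`: given `z` with `IsForm10 z`, let `z' = z` off `0`, `z' 0 = 0`: `DC.IsCov z'`, `db z' = db z` off `0`; so `T.toLin A = ∫ dens A dμ = ∫ pr (db z') dμ = 0` for the first half; for the second half
`A x j k = dz j (conj z_k) = conj (dzbar j z_k)`, so `A = Bᴴ` with `B` of `exists_dbForm` off `0`, and `T.toLin A = ∫ dens A dμ = conj (∫ dens B dμ) = 0` (`dens (Bᴴ) = conj (dens B)`, `integral_conj`).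
`toIsCur`: `μ univ = 1`.  Scaling: `integral_smul_measure`.
`exists_singSet`: `P = {0} ∪` representatives of the finite set `𝓕.finite_sing`; for `y ≠ 0` with `eta y = 0`: `(mk y).rep = a • y`, `a ≠ 0`, and `alpha (a y) = a^(deg+1) alpha y` (AL or direct).
-/

namespace Pool.Agent.H24.CU

open MeasureTheory
open scoped ComplexConjugate ContDiff

theorem eta_eq (𝓕 : Foliation) (y : V) : Pool.Agent.H85.DC.eta 𝓕.F y = 𝓕.alpha y := by
  unfold Foliation.alpha
  rw [cross_apply]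
  rfl

theorem pr_eq_dens (𝓕 : Foliation) (A : V → Matrix (Fin 3) (Fin 3) ℂ) (y : V) :
    Pool.Agent.H85.DC.pr 𝓕.F A y = 𝓕.dens A y := by
  unfold Pool.Agent.H85.DC.pr Foliation.dens
  rw [eta_eq]
  rfl

theorem BR_cr (x y : V) : Pool.Agent.H85.DC.cr x y = crossProduct x y := by
  rw [cross_apply]
  rfl

theorem K2_eq (𝓕 : Foliation) (y : V) : Pool.Agent.H85.DC.K2 𝓕.F y = 𝓕.K2 y := by
  have h : Pool.Agent.H85.DC.eta 𝓕.F = 𝓕.alpha := funext fun y => eta_eq 𝓕 y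
  unfold Pool.Agent.H85.DC.K2 Foliation.K2
  rw [h, BR_cr]
  rfl

theorem BR_eval (P : MvPolynomial (Fin 3) ℂ) (n : ℕ) (hP : P.IsHomogeneous n) (c : ℂ)
    (x : V) : MvPolynomial.eval (c • x) P = c ^ n * MvPolynomial.eval x P := by
  rw [MvPolynomial.eval_eq', MvPolynomial.eval_eq', Finset.mul_sum]
  refine Finset.sum_congr rfl fun d hd => ?_
  have h1 := hP (MvPolynomial.mem_support_iff.1 hd)
  have h2 : ∑ i, d i = n := by
    rw [← h1, Finsupp.weight_apply, Finsupp.sum_fintype _ _ (by simp)]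
    simp
  have h3 : ∏ i, (c • x) i ^ d i = c ^ n * ∏ i, x i ^ d i := by
    rw [← h2, ← Finset.prod_pow_eq_pow_sum, ← Finset.prod_mul_distrib]
    refine Finset.prod_congr rfl fun i _ => ?_
    rw [Pi.smul_apply, smul_eq_mul, mul_pow]
  rw [h3]
  ring

theorem BR_alpha (𝓕 : Foliation) (c : ℂ) (x : V) :
    𝓕.alpha (c • x) = c ^ (𝓕.deg + 1) • 𝓕.alpha x := by
  have h1 : 𝓕.alpha (c • x) = crossProduct (c • x) (𝓕.vec (c • x)) := rfl
  have h2 : 𝓕.alpha x = crossProduct x (𝓕.vec x) := rfl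
  have h3 : 𝓕.vec (c • x) = c ^ 𝓕.deg • 𝓕.vec x := by
    funext j
    exact BR_eval (𝓕.F j) 𝓕.deg (𝓕.hom j) c x
  rw [h1, h2, h3, cross_apply, cross_apply]
  funext j
  fin_cases j <;>
  · simp only [Pi.smul_apply, smul_eq_mul, Fin.zero_eta, Fin.mk_one, Fin.reduceFinMk,
      Matrix.cons_val_zero, Matrix.cons_val_one, Matrix.cons_val]
    ring

theorem exists_singSet (𝓕 : Foliation) :
    ∃ P : Finset V, ∀ y : V, Pool.Agent.H85.DC.eta 𝓕.F y = 0 → ∃ p ∈ P, ∃ c : ℂ, y = c • p := by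
  classical
  refine ⟨insert 0 (𝓕.finite_sing.toFinset.image (fun l => l.rep)), ?_⟩
  intro y hy
  rw [eta_eq] at hy
  by_cases h0 : y = 0
  · exact ⟨0, Finset.mem_insert_self _ _, 0, by rw [h0, smul_zero]⟩
  · obtain ⟨a, ha⟩ := Projectivization.exists_smul_eq_mk_rep ℂ y h0
    have ha' : (a : ℂ) • y = (Projectivization.mk ℂ y h0).rep := ha
    refine ⟨(Projectivization.mk ℂ y h0).rep, ?_, (a : ℂ)⁻¹, ?_⟩
    · refine Finset.mem_insert_of_mem (Finset.mem_image_of_mem _ ?_)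
      rw [Set.Finite.mem_toFinset]
      show 𝓕.alpha (Projectivization.mk ℂ y h0).rep = 0
      rw [← ha', BR_alpha, hy, smul_zero]
    · rw [← ha', smul_smul, inv_mul_cancel₀ a.ne_zero, one_smul]

variable {𝓕 : Foliation} {T : PosCurrent} {μ : Measure V}

theorem Rep.BR_ae (h : Rep 𝓕 T μ) : ∀ᵐ y ∂μ, y ≠ 0 := by
  have h1 : ∀ᵐ y ∂μ, nsq y = 1 := h.sph
  filter_upwards [h1] with y hy h0
  rw [h0, nsq_eq_zero.2 rfl] at hy
  exact zero_ne_one hy

theorem BR_dens_congr {A B : V → Matrix (Fin 3) (Fin 3) ℂ} {y : V} (h : A y = B y) :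
    𝓕.dens A y = 𝓕.dens B y := by
  unfold Foliation.dens
  rw [h]

theorem Rep.toDdcClosed (h : Rep 𝓕 T μ) (hT : T.DdcClosed) :
    Pool.Agent.H85.DC.DdcClosed 𝓕.F μ := by
  intro u hu
  have hu' : IsFun u := ⟨hu.smooth, fun c x hc _ => hu.hom c x hc⟩
  obtain ⟨A, hA⟩ := exists_leviForm u hu'
  have h1 : T.toLin A = 0 := hT u hu' A hA
  rw [h.pair A] at h1
  rw [← h1]
  refine integral_congr_ae ?_
  filter_upwards [h.BR_ae] with y hy
  rw [pr_eq_dens]
  refine BR_dens_congr ?_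
  funext j k
  exact (hA y hy j k).symm

theorem Rep.toCurClosed (h : Rep 𝓕 T μ) (hT : T.Closed) : Pool.Agent.H85.DC.CurClosed 𝓕.F μ := by
  intro z hz
  have hz' : IsForm10 z := ⟨hz.smooth, fun c x hc _ => hz.hom c x hc, hz.kill⟩
  obtain ⟨A, hA⟩ := exists_dbForm z hz'
  have h1 : T.toLin A = 0 := (hT z hz').1 A hA
  rw [h.pair A] at h1
  rw [← h1]
  refine integral_congr_ae ?_
  filter_upwards [h.BR_ae] with y hy
  rw [pr_eq_dens]
  refine BR_dens_congr ?_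
  funext j k
  exact (hA y hy j k).symm

/-- the normalised form -/
theorem BR_norm {z : V → V} (hz : IsForm10 z) :
    ∃ z' : V → V, Pool.Agent.H85.DC.IsCov z' ∧
      ∀ x : V, x ≠ 0 → ∀ j k, Pool.Agent.H85.DC.db z' x j k = dzbar k (fun y => z y j) x := by
  classical
  obtain ⟨z', hz'⟩ : ∃ z' : V → V, z' = fun x => if x = 0 then 0 else z x := ⟨_, rfl⟩
  have h0 : z' 0 = 0 := by rw [hz']; simp
  have h1 : ∀ x, x ≠ 0 → z' x = z x := by
    intro x hx
    rw [hz']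
    simp [hx]
  refine ⟨z', ⟨?_, ?_, ?_⟩, ?_⟩
  · exact hz.smooth.congr (fun x hx => h1 x hx)
  · intro l x hl
    by_cases hx : x = 0
    · rw [hx, smul_zero, h0, smul_zero]
    · rw [h1 x hx, h1 _ (smul_ne_zero hl hx), hz.hom l x hl hx]
  · intro x hx
    rw [h1 x hx]
    exact hz.basic x hx
  · intro x hx j k
    have he : (fun y => z' y j) =ᶠ[nhds x] fun y => z y j := by
      filter_upwards [isOpen_compl_singleton.mem_nhds hx] with y hy
      rw [h1 y hy]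
    show (fderiv ℝ (fun y => z' y j) x (Pi.single k 1) +
      Complex.I * fderiv ℝ (fun y => z' y j) x (Pi.single k Complex.I)) / 2 = _
    rw [he.fderiv_eq]
    rfl

theorem BR_conj {f : V → ℂ} {x : V} (hf : DifferentiableAt ℝ f x) (j : Fin 3) :
    dz j (fun y => conj (f y)) x = conj (dzbar j f x) := by
  have h1 : ∀ v, fderiv ℝ (fun y => conj (f y)) x v = conj (fderiv ℝ f x v) := by
    intro v
    have h2 : HasFDerivAt (fun y => Complex.conjCLE (f y))
        ((Complex.conjCLE : ℂ →L[ℝ] ℂ).comp (fderiv ℝ f x)) x :=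
      (Complex.conjCLE : ℂ →L[ℝ] ℂ).hasFDerivAt.comp x hf.hasFDerivAt
    have h3 : (fun y => conj (f y)) = fun y => Complex.conjCLE (f y) := rfl
    rw [h3, h2.fderiv]
    rfl
  unfold dz dzbar
  rw [h1, h1]
  simp only [map_div₀, map_add, map_mul, Complex.conj_I, map_ofNat]
  ring

theorem BR_densH (𝓕 : Foliation) {A B : V → Matrix (Fin 3) (Fin 3) ℂ} {y : V}
    (h : ∀ j k, A y j k = conj (B y k j)) : 𝓕.dens A y = conj (𝓕.dens B y) := by
  unfold Foliation.dens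
  rw [map_div₀, Complex.conj_ofReal]
  congr 1
  rw [map_sum, Finset.sum_comm]
  refine Finset.sum_congr rfl fun j _ => ?_
  rw [map_sum]
  refine Finset.sum_congr rfl fun k _ => ?_
  rw [h, map_mul, map_mul, Complex.conj_conj]
  ring

theorem Rep.closed_of (h : Rep 𝓕 T μ) (hc : Pool.Agent.H85.DC.CurClosed 𝓕.F μ) : T.Closed := by
  intro z hz
  obtain ⟨z', hz', hzz⟩ := BR_norm hz
  have h0 := hc z' hz'
  have key : ∀ A : Form11, (∀ x : V, x ≠ 0 → ∀ j k, A.1 x j k = dzbar k (fun y => z y j) x) →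
      T.toLin A = 0 := by
    intro A hA
    rw [h.pair A, ← h0]
    refine integral_congr_ae ?_
    filter_upwards [h.BR_ae] with y hy
    rw [pr_eq_dens]
    refine BR_dens_congr ?_
    funext j k
    rw [hA y hy j k, hzz y hy j k]
  refine ⟨key, ?_⟩
  intro A hA
  obtain ⟨B, hB⟩ := exists_dbForm z hz
  have h1 := key B hB
  rw [h.pair B] at h1
  rw [h.pair A]
  have h2 : ∫ y, 𝓕.dens A.1 y ∂μ = ∫ y, conj (𝓕.dens B.1 y) ∂μ := by
    refine integral_congr_ae ?_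
    filter_upwards [h.BR_ae] with y hy
    refine BR_densH 𝓕 ?_
    intro j k
    rw [hA y hy j k, hB y hy k j]
    refine BR_conj ?_ j
    have h3 : ContDiffAt ℝ ∞ (fun y => z y) y :=
      hz.smooth.contDiffAt (isOpen_compl_singleton.mem_nhds hy)
    have h4 : DifferentiableAt ℝ z y := h3.differentiableAt (by simp)
    exact differentiableAt_pi.1 h4 k
  rw [h2, integral_conj, h1, map_zero]

theorem Rep.toIsCur (h : Rep 𝓕 T μ) (h1 : μ Set.univ = 1) : Pool.Agent.H85.DC.IsCur 𝓕.F μ := by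
  refine ⟨h1, h.sph, ?_⟩
  rw [ae_iff]
  have h2 : {y | ¬ Pool.Agent.H85.DC.eta 𝓕.F y ≠ 0} = {x | 𝓕.alpha x = 0} := by
    ext y
    show ¬ Pool.Agent.H85.DC.eta 𝓕.F y ≠ 0 ↔ 𝓕.alpha y = 0
    rw [eta_eq, not_not]
  rw [h2]
  exact h.sing

theorem scale_ddc (F : Fin 3 → MvPolynomial (Fin 3) ℂ) (s : ENNReal)
    (h : Pool.Agent.H85.DC.DdcClosed F μ) : Pool.Agent.H85.DC.DdcClosed F (s • μ) := by
  intro u hu
  rw [integral_smul_measure, h u hu, smul_zero]

theorem scale_cur (F : Fin 3 → MvPolynomial (Fin 3) ℂ) (s : ENNReal)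
    (h : Pool.Agent.H85.DC.CurClosed F μ) : Pool.Agent.H85.DC.CurClosed F (s • μ) := by
  intro u hu
  rw [integral_smul_measure, h u hu, smul_zero]

end Pool.Agent.H24.CU
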