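import Pool.Agent.H24.CU.Defs

/-!
# Notation for the interface block of MP_6873ef
-/

namespace Pool.Agent.H24.CU

open MeasureTheory
open scoped ComplexConjugate ComplexOrder ContDiff

/-- Hermitian product on `C^3` (linear in the first variable). -/
noncomputable def herm (x y : V) : ℂ := ∑ j, x j * conj (y j)

/-- squared sine of the Fubini-Study angle -/
noncomputable def tau (x y : V) : ℝ := 1 - Complex.normSq (herm x y) / (nsq x * nsq y)

/-- The value of the homogeneous vector field. -/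
noncomputable def Foliation.vec (𝓕 : Foliation) (x : V) : V :=
  fun j => MvPolynomial.eval x (𝓕.F j)

/-- The density `A_y(w_y, w_y)` for a unit vector `y`, where `w_y` is the unit vector orthogonal to
`y` in the span of `y` and `F(y)`; it is `A_y(F(y), F(y)) / |α(y)|^2`. -/
noncomputable def Foliation.dens (𝓕 : Foliation) (A : V → Matrix (Fin 3) (Fin 3) ℂ) (y : V) : ℂ :=
  (∑ j, ∑ k, A y j k * 𝓕.vec y j * conj (𝓕.vec y k)) / (nsq (𝓕.alpha y) : ℂ)

/-- The measure `μ` on the unit sphere represents the directed current `T`. -/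
structure Rep (𝓕 : Foliation) (T : PosCurrent) (μ : Measure V) : Prop where
  fin : IsFiniteMeasure μ
  sph : μ {x | nsq x ≠ 1} = 0
  sing : μ {x | 𝓕.alpha x = 0} = 0
  curve : ∀ (n : ℕ) (P : MvPolynomial (Fin 3) ℂ), P.IsHomogeneous n → P ≠ 0 →
    μ {x | MvPolynomial.eval x P = 0} = 0
  pair : ∀ A : Form11, T.toLin A = ∫ y, 𝓕.dens A.1 y ∂μ

section Levi

variable {E : Type*} [NormedAddCommGroup E] [NormedSpace ℂ E] [NormedSpace ℝ E]

/-- The Levi form `∑ g_{j conj k} v_j conj(v_k)` of a real function `g` at `p`, in the direction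
`v`: one quarter of the Laplacian at `0` of `ζ ↦ g (p + ζ v)`. -/
noncomputable def levi (g : E → ℝ) (p v : E) : ℝ :=
  (fderiv ℝ (fun q => fderiv ℝ g q v) p v +
    fderiv ℝ (fun q => fderiv ℝ g q (Complex.I • v)) p (Complex.I • v)) / 4

/-- The mixed gradient `Re (∂_v f · conj (∂_v g))`. -/
noncomputable def gradm (f g : E → ℝ) (p v : E) : ℝ :=
  (fderiv ℝ f p v * fderiv ℝ g p v +
    fderiv ℝ f p (Complex.I • v) * fderiv ℝ g p (Complex.I • v)) / 4

end Levi

/-- `μ` is the measure of a `dd^c`-closed directed current. -/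
structure Harm (𝓕 : Foliation) (μ : Measure V) : Prop where
  fin : IsFiniteMeasure μ
  sph : μ {x | nsq x ≠ 1} = 0
  sing : μ {x | 𝓕.alpha x = 0} = 0
  harm : ∀ u : V → ℝ, IsFun (fun x => (u x : ℂ)) →
    ∫ y, levi u y (𝓕.vec y) / nsq (𝓕.alpha y) ∂μ = 0

theorem Form11.ext_off {A B : Form11} (h : ∀ x : V, x ≠ 0 → A.1 x = B.1 x) : A = B := by
  apply Subtype.ext
  funext x
  by_cases hx : x = 0
  · subst hx
    rw [A.2.2.1, B.2.2.1]
  · exact h x hx

theorem nsq_nonneg (x : V) : 0 ≤ nsq x := Finset.sum_nonneg fun _ _ => Complex.normSq_nonneg _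

theorem nsq_eq_zero {x : V} : nsq x = 0 ↔ x = 0 := by
  constructor
  · intro h
    have h2 := (Finset.sum_eq_zero_iff_of_nonneg (fun j _ => Complex.normSq_nonneg (x j))).1 h
    funext j
    exact Complex.normSq_eq_zero.1 (h2 j (Finset.mem_univ j))
  · rintro rfl
    simp [nsq]

theorem nsq_pos {x : V} (hx : x ≠ 0) : 0 < nsq x :=
  lt_of_le_of_ne (nsq_nonneg x) fun h => hx (nsq_eq_zero.1 h.symm)

theorem nsq_smul (c : ℂ) (x : V) : nsq (c • x) = Complex.normSq c * nsq x := by
  simp [nsq, Finset.mul_sum]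

end Pool.Agent.H24.CU
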