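import Pool.Agent.H24.CU.LocDefs
import Pool.Agent.H24.CU.AL

/-!
# Row CH (existence of the chart)

PROOF.  `a = vec y₀`, `b = conj (α y₀)`.  The vectors `y₀, a, b` are linearly independent:
`det (y₀, a, b) = ∑ (y₀ × a)_j b_j = ∑ α_j conj α_j = nsq (α y₀) ≠ 0`.  Let `D = nsq (α y₀)` and the
linear forms (dual basis) `ℓ0 x = det(x,a,b)/D`, `ℓ1 x = det(y₀,x,b)/D`, `ℓ2 x = det(y₀,a,x)/D`;
`x = ℓ0 x • y₀ + ℓ1 x • a + ℓ2 x • b` (Cramer).  `psi p = y₀ + p_1 a + p_2 b`, `ℓ0 (psi p) = 1`,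
`ℓ1 (psi p) = p_1`, `ℓ2 (psi p) = p_2`; `psi p ≠ 0`.
`c₀ p = ℓ0 (vec (psi p))`, `X p = (ℓ1 (vec (psi p)) - p_1 c₀ p, ℓ2 (vec (psi p)) - p_2 c₀ p)`:
polynomial, hence complex differentiable; `vec` holds by the expansion in the basis; `X 0 = (1,0)`
because `vec (psi 0) = a`.
`reg`: `p ↦ α (psi p)` is continuous and nonzero at `p = 0` (`psi 0 = y₀`): choose `r`.
MEASURE.  `π y = (ℓ1 y / ℓ0 y, ℓ2 y / ℓ0 y)`, measurable.  `C = cone y₀ (ball 0 r)
= {y | nsq y = 1, ℓ0 y ≠ 0, π y ∈ ball 0 r}` (if `y = t • psi p` then `ℓ0 y = t`, `π y = p`),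
measurable.  `w y = normSq (ℓ0 y) ^ deg / normSq (ℓ0 y) / nsq (α y)`;
`M = Measure.map π ((μ.restrict C).withDensity (fun y => ENNReal.ofReal (w y)))`.
For `E ⊆ ball 0 r` measurable, `cone E = C ∩ π⁻¹ E`.  For `y ∈ C`, `y = ℓ0 y • psi (π y)`, so
`Φ y = normSq (ℓ0 y)^deg / normSq (ℓ0 y) Φ (psi (π y))`, i.e. `Φ y / nsq (α y) = w y Φ (psi (π y))`; now use
`lintegral_map`, `lintegral_withDensity_eq_lintegral_mul`, respectively `integral_map`,
`integral_withDensity_eq_integral_toReal_smul` (`Φ ∘ psi` is measurable).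
Finite: on `C`, `ℓ0 y` is bounded above and below (`1 = nsq y = normSq (ℓ0 y) nsq (psi (π y))` and
`nsq (psi p)` is bounded above and below on the compact closed ball) and `nsq (α y) =
normSq (ℓ0 y)^(deg+1) nsq (α (psi (π y)))` is bounded below by `reg` and compactness; so `w` is bounded.
`compare`: apply `transfer` (lintegral part) with `Φ y = nsq (α y) / nsq y ^ 2` (weight `deg + 1 - 2`):
on the sphere `Φ / nsq α = 1` off `{α = 0}`, so `μ (cone E) = ∫⁻_E ofReal (nsq (α (psi p)) / nsq (psi p)^2) dM`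
(the cone over the ball does not meet `{α = 0}`), and the integrand is between two positive constants on
the closed ball (compactness, `reg`).
`cone_of_tau`: write `y = c y₀ + v`, `v` orthogonal to `y₀` (`c = herm y y₀`), `normSq c + nsq v = 1`,
`tau y₀ y = nsq v < s^2`, so `|c| >= 1/2` for `s <= 1/2`; `ℓ1 y = ℓ1 v`, `ℓ2 y = ℓ2 v` are `O(s)`,
`ℓ0 y = c + ℓ0 v` has modulus `>= 1/4` for small `s`; hence `π y` has norm `< K s` and
`y = ℓ0 y • psi (π y)`.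
-/

namespace Pool.Agent.H24.CU

open MeasureTheory
open scoped ComplexConjugate ContDiff

theorem CH_eval_diff (P : MvPolynomial (Fin 3) ℂ) :
    Differentiable ℂ (fun x : V => MvPolynomial.eval x P) := by
  induction P using MvPolynomial.induction_on with
  | C a => simp
  | add p q hp hq =>
    simp only [map_add]
    exact hp.add hq
  | mul_X p i hp =>
    have h : Differentiable ℂ (fun x : V => x i) := differentiable_apply i
    simp only [map_mul, MvPolynomial.eval_X]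
    exact hp.mul h

theorem CH_vec_diff (𝓕 : Foliation) : Differentiable ℂ 𝓕.vec :=
  differentiable_pi.2 fun j => CH_eval_diff (𝓕.F j)

theorem CH_vec_cont (𝓕 : Foliation) : Continuous 𝓕.vec := (CH_vec_diff 𝓕).continuous

theorem CH_alpha_cont (𝓕 : Foliation) : Continuous 𝓕.alpha := by
  obtain ⟨Q, -, hQ, -⟩ := exists_alpha_poly 𝓕
  refine continuous_pi fun j => ?_
  have : (fun x => 𝓕.alpha x j) = fun x : V => MvPolynomial.eval x (Q j) := funext fun x => hQ x j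
  rw [this]
  exact (CH_eval_diff (Q j)).continuous

theorem CH_nsq_cont : Continuous nsq := by
  unfold nsq
  exact continuous_finsetSum _ fun j _ => Complex.continuous_normSq.comp (continuous_apply j)

theorem CH_psi_diff (𝓕 : Foliation) (y₀ : V) : Differentiable ℂ (𝓕.psi y₀) := by
  unfold Foliation.psi
  exact ((differentiable_const y₀).add (differentiable_fst.smul_const _)).add
    (differentiable_snd.smul_const _)

theorem CH_psi_zero (𝓕 : Foliation) (y₀ : V) : 𝓕.psi y₀ 0 = y₀ := by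
  simp [Foliation.psi]

/-- the dual basis of `y₀, vec y₀, conj (alpha y₀)` -/
structure CH_Dual (𝓕 : Foliation) (y₀ : V) (l : Fin 3 → V →L[ℂ] ℂ) : Prop where
  exp : ∀ x, x = l 0 x • y₀ + l 1 x • 𝓕.vec y₀ + l 2 x • (fun j => conj (𝓕.alpha y₀ j))
  l00 : l 0 y₀ = 1
  l01 : l 0 (𝓕.vec y₀) = 0
  l02 : l 0 (fun j => conj (𝓕.alpha y₀ j)) = 0
  l10 : l 1 y₀ = 0
  l11 : l 1 (𝓕.vec y₀) = 1
  l12 : l 1 (fun j => conj (𝓕.alpha y₀ j)) = 0
  l20 : l 2 y₀ = 0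
  l21 : l 2 (𝓕.vec y₀) = 0
  l22 : l 2 (fun j => conj (𝓕.alpha y₀ j)) = 1

theorem CH_dual (𝓕 : Foliation) (y₀ : V) (h0 : 𝓕.alpha y₀ ≠ 0) : ∃ l, CH_Dual 𝓕 y₀ l := by
  obtain ⟨b, hb⟩ : ∃ b : V, b = fun j => conj (𝓕.alpha y₀ j) := ⟨_, rfl⟩
  obtain ⟨a, ha⟩ : ∃ a : V, a = 𝓕.vec y₀ := ⟨_, rfl⟩
  have hdet : (Matrix.of ![y₀, a, b]).det ≠ 0 := by
    have e : (Matrix.of ![y₀, a, b]).det = ∑ j, 𝓕.alpha y₀ j * b j := by
      have hα : 𝓕.alpha y₀ = crossProduct y₀ a := by rw [ha]; rfl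
      rw [hα, Matrix.det_fin_three, Fin.sum_univ_three, cross_apply]
      simp only [Matrix.of_apply, Matrix.cons_val_zero, Matrix.cons_val_one, Matrix.cons_val]
      ring
    have e2 : ∑ j, 𝓕.alpha y₀ j * b j = (nsq (𝓕.alpha y₀) : ℂ) := by
      unfold nsq
      push_cast
      refine Finset.sum_congr rfl fun i _ => ?_
      rw [hb, Complex.mul_conj]
    rw [e, e2]
    exact_mod_cast (nsq_pos h0).ne'
  have hli : LinearIndependent ℂ (![y₀, a, b] : Fin 3 → V) :=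
    Matrix.linearIndependent_rows_of_det_ne_zero hdet
  obtain ⟨bas, hbas⟩ : ∃ bas : Module.Basis (Fin 3) ℂ V, ⇑bas = ![y₀, a, b] :=
    ⟨basisOfLinearIndependentOfCardEqFinrank hli (by simp),
      coe_basisOfLinearIndependentOfCardEqFinrank hli (by simp)⟩
  have b0 : bas 0 = y₀ := by rw [hbas]; rfl
  have b1 : bas 1 = a := by rw [hbas]; rfl
  have b2 : bas 2 = b := by rw [hbas]; rfl
  have hc : ∀ i j, bas.coord i (bas j) = if i = j then 1 else 0 := by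
    intro i j
    rw [Module.Basis.coord_apply, Module.Basis.repr_self, Finsupp.single_apply]
    by_cases h : i = j
    · simp [h]
    · simp [h, Ne.symm h]
  refine ⟨fun i => LinearMap.toContinuousLinearMap (bas.coord i), ?_, ?_, ?_, ?_, ?_, ?_, ?_, ?_, ?_, ?_⟩
  · intro x
    have h := bas.sum_repr x
    rw [Fin.sum_univ_three, b0, b1, b2] at h
    rw [← ha, ← hb]
    exact h.symm
  · exact (by rw [← b0]; exact hc 0 0 : bas.coord 0 y₀ = 1)
  · rw [← ha]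
    exact (by rw [← b1]; exact hc 0 1 : bas.coord 0 a = 0)
  · rw [← hb]
    exact (by rw [← b2]; exact hc 0 2 : bas.coord 0 b = 0)
  · exact (by rw [← b0]; exact hc 1 0 : bas.coord 1 y₀ = 0)
  · rw [← ha]
    exact (by rw [← b1]; exact hc 1 1 : bas.coord 1 a = 1)
  · rw [← hb]
    exact (by rw [← b2]; exact hc 1 2 : bas.coord 1 b = 0)
  · exact (by rw [← b0]; exact hc 2 0 : bas.coord 2 y₀ = 0)
  · rw [← ha]
    exact (by rw [← b1]; exact hc 2 1 : bas.coord 2 a = 0)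
  · rw [← hb]
    exact (by rw [← b2]; exact hc 2 2 : bas.coord 2 b = 1)

/-- the affine coordinates of a vector -/
noncomputable def CH_pi (l : Fin 3 → V →L[ℂ] ℂ) (y : V) : ℂ × ℂ := (l 1 y / l 0 y, l 2 y / l 0 y)

section dual

variable {𝓕 : Foliation} {y₀ : V} {l : Fin 3 → V →L[ℂ] ℂ}

theorem CH_Dual.psi (hl : CH_Dual 𝓕 y₀ l) (p : ℂ × ℂ) :
    l 0 (𝓕.psi y₀ p) = 1 ∧ l 1 (𝓕.psi y₀ p) = p.1 ∧ l 2 (𝓕.psi y₀ p) = p.2 := by
  unfold Foliation.psi
  refine ⟨?_, ?_, ?_⟩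
  · rw [map_add, map_add, map_smul, map_smul, hl.l00, hl.l01, hl.l02]; simp
  · rw [map_add, map_add, map_smul, map_smul, hl.l10, hl.l11, hl.l12]; simp
  · rw [map_add, map_add, map_smul, map_smul, hl.l20, hl.l21, hl.l22]; simp

theorem CH_Dual.rec' (hl : CH_Dual 𝓕 y₀ l) {y : V} (h : l 0 y ≠ 0) :
    y = l 0 y • 𝓕.psi y₀ (CH_pi l y) := by
  conv_lhs => rw [hl.exp y]
  unfold Foliation.psi CH_pi
  simp only [smul_add, smul_smul]
  rw [mul_div_cancel₀ _ h, mul_div_cancel₀ _ h]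

theorem CH_Dual.mem_cone (hl : CH_Dual 𝓕 y₀ l) (E : Set (ℂ × ℂ)) (y : V) :
    y ∈ 𝓕.cone y₀ E ↔ nsq y = 1 ∧ l 0 y ≠ 0 ∧ CH_pi l y ∈ E := by
  constructor
  · rintro ⟨h1, p, hp, t, ht, rfl⟩
    obtain ⟨h2, h3, h4⟩ := hl.psi p
    have h5 : l 0 (t • 𝓕.psi y₀ p) = t := by rw [map_smul, h2, smul_eq_mul, mul_one]
    refine ⟨h1, by rw [h5]; exact ht, ?_⟩
    have h6 : CH_pi l (t • 𝓕.psi y₀ p) = p := by
      unfold CH_pi
      rw [h5, map_smul, map_smul, h3, h4, smul_eq_mul, smul_eq_mul, mul_div_cancel_left₀ _ ht,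
        mul_div_cancel_left₀ _ ht]
    rw [h6]
    exact hp
  · rintro ⟨h1, h2, h3⟩
    exact ⟨h1, CH_pi l y, h3, l 0 y, h2, hl.rec' h2⟩

theorem CH_pi_meas (l : Fin 3 → V →L[ℂ] ℂ) : Measurable (CH_pi l) := by
  unfold CH_pi
  exact (((l 1).continuous.measurable).div ((l 0).continuous.measurable)).prodMk
    (((l 2).continuous.measurable).div ((l 0).continuous.measurable))

theorem CH_Dual.cone_meas (hl : CH_Dual 𝓕 y₀ l) {E : Set (ℂ × ℂ)} (hE : MeasurableSet E) :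
    MeasurableSet (𝓕.cone y₀ E) := by
  have h : 𝓕.cone y₀ E = {y | nsq y = 1} ∩ ({y | l 0 y ≠ 0} ∩ CH_pi l ⁻¹' E) := by
    ext y
    exact hl.mem_cone E y
  rw [h]
  refine MeasurableSet.inter ?_ (MeasurableSet.inter ?_ (CH_pi_meas l hE))
  · exact (isClosed_eq CH_nsq_cont continuous_const).measurableSet
  · exact (isOpen_ne_fun (l 0).continuous continuous_const).measurableSet

/-- the density -/
noncomputable def CH_w (𝓕 : Foliation) (l : Fin 3 → V →L[ℂ] ℂ) (y : V) : ℝ :=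
  Complex.normSq (l 0 y) ^ 𝓕.deg / Complex.normSq (l 0 y) / nsq (𝓕.alpha y)

theorem CH_w_nonneg (𝓕 : Foliation) (l : Fin 3 → V →L[ℂ] ℂ) (y : V) : 0 ≤ CH_w 𝓕 l y := by
  unfold CH_w
  exact div_nonneg (div_nonneg (pow_nonneg (Complex.normSq_nonneg _) _) (Complex.normSq_nonneg _))
    (nsq_nonneg _)

theorem CH_w_meas (𝓕 : Foliation) (l : Fin 3 → V →L[ℂ] ℂ) : Measurable (CH_w 𝓕 l) := by
  unfold CH_w
  have h1 : Measurable fun y : V => Complex.normSq (l 0 y) :=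
    (Complex.continuous_normSq.comp (l 0).continuous).measurable
  have h2 : Measurable fun y : V => nsq (𝓕.alpha y) := (CH_nsq_cont.comp (CH_alpha_cont 𝓕)).measurable
  exact ((h1.pow_const _).div h1).div h2

theorem CH_Dual.w_eq (hl : CH_Dual 𝓕 y₀ l) {y : V} (h1 : nsq y = 1) (h0 : l 0 y ≠ 0)
    (hα : 𝓕.alpha (𝓕.psi y₀ (CH_pi l y)) ≠ 0) :
    CH_w 𝓕 l y = nsq (𝓕.psi y₀ (CH_pi l y)) ^ 2 / nsq (𝓕.alpha (𝓕.psi y₀ (CH_pi l y))) := by
  have hT : Complex.normSq (l 0 y) ≠ 0 := fun h => h0 (Complex.normSq_eq_zero.1 h)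
  have hA : nsq (𝓕.alpha (𝓕.psi y₀ (CH_pi l y))) ≠ 0 := (nsq_pos hα).ne'
  have e1 : nsq y = Complex.normSq (l 0 y) * nsq (𝓕.psi y₀ (CH_pi l y)) := by
    conv_lhs => rw [hl.rec' h0]
    rw [nsq_smul]
  have e2 : nsq (𝓕.alpha y) =
      Complex.normSq (l 0 y) ^ (𝓕.deg + 1) * nsq (𝓕.alpha (𝓕.psi y₀ (CH_pi l y))) := by
    conv_lhs => rw [hl.rec' h0]
    rw [alpha_smul, nsq_smul, map_pow]
  have e3 : nsq (𝓕.psi y₀ (CH_pi l y)) = (Complex.normSq (l 0 y))⁻¹ := by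
    rw [e1] at h1
    exact eq_inv_of_mul_eq_one_right h1
  unfold CH_w
  rw [e2, e3]
  field_simp
  ring

theorem CH_Dual.phi_eq (hl : CH_Dual 𝓕 y₀ l) {Φ : V → ℝ}
    (hΦ : ∀ (t : ℂ) (y : V), t ≠ 0 → y ≠ 0 →
      Φ (t • y) = Complex.normSq t ^ 𝓕.deg / Complex.normSq t * Φ y)
    {y : V} (h0 : l 0 y ≠ 0) :
    Φ y / nsq (𝓕.alpha y) = CH_w 𝓕 l y * Φ (𝓕.psi y₀ (CH_pi l y)) := by
  have hne : 𝓕.psi y₀ (CH_pi l y) ≠ 0 := by
    intro h
    have := (hl.psi (CH_pi l y)).1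
    rw [h, map_zero] at this
    exact zero_ne_one this
  have e := hΦ (l 0 y) _ h0 hne
  rw [← hl.rec' h0] at e
  rw [e]
  unfold CH_w
  ring

end dual

theorem exists_chart (𝓕 : Foliation) (μ : Measure V) [IsFiniteMeasure μ] (y₀ : V)
    (h0 : 𝓕.alpha y₀ ≠ 0) : ∃ X c₀ r M, Chart 𝓕 μ y₀ X c₀ r M := by
  obtain ⟨l, hl⟩ := CH_dual 𝓕 y₀ h0
  have hψd := CH_psi_diff 𝓕 y₀
  have hψc : Continuous (𝓕.psi y₀) := hψd.continuous
  have hvd : Differentiable ℂ fun p => 𝓕.vec (𝓕.psi y₀ p) := (CH_vec_diff 𝓕).comp hψd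
  have hl0 : Differentiable ℂ fun p => l 0 (𝓕.vec (𝓕.psi y₀ p)) := (l 0).differentiable.comp hvd
  have hl1 : Differentiable ℂ fun p => l 1 (𝓕.vec (𝓕.psi y₀ p)) := (l 1).differentiable.comp hvd
  have hl2 : Differentiable ℂ fun p => l 2 (𝓕.vec (𝓕.psi y₀ p)) := (l 2).differentiable.comp hvd
  -- the radius
  have hac : Continuous fun p => 𝓕.alpha (𝓕.psi y₀ p) := (CH_alpha_cont 𝓕).comp hψc
  have hr : ∃ r : ℝ, 0 < r ∧ ∀ p ∈ Metric.closedBall (0 : ℂ × ℂ) r, 𝓕.alpha (𝓕.psi y₀ p) ≠ 0 := by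
    have h1 : ∀ᶠ p in nhds (0 : ℂ × ℂ), 𝓕.alpha (𝓕.psi y₀ p) ≠ 0 := by
      refine hac.continuousAt.eventually_ne ?_
      rw [CH_psi_zero]
      exact h0
    obtain ⟨r, hr0, hr⟩ := Metric.nhds_basis_closedBall.eventually_iff.1 h1
    exact ⟨r, hr0, fun p hp => hr hp⟩
  obtain ⟨r, hr0, hr⟩ := hr
  set C := 𝓕.cone y₀ (Metric.ball 0 r) with hC
  have hCm : MeasurableSet C := hl.cone_meas Metric.isOpen_ball.measurableSet
  have hwm : Measurable fun y => ENNReal.ofReal (CH_w 𝓕 l y) := (CH_w_meas 𝓕 l).ennreal_ofReal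
  set ν := (μ.restrict C).withDensity (fun y => ENNReal.ofReal (CH_w 𝓕 l y)) with hν
  have hπ := CH_pi_meas l
  refine ⟨fun p => (l 1 (𝓕.vec (𝓕.psi y₀ p)) - p.1 * l 0 (𝓕.vec (𝓕.psi y₀ p)),
    l 2 (𝓕.vec (𝓕.psi y₀ p)) - p.2 * l 0 (𝓕.vec (𝓕.psi y₀ p))),
    fun p => l 0 (𝓕.vec (𝓕.psi y₀ p)), r, Measure.map (CH_pi l) ν, ?_⟩
  have hcone : ∀ E : Set (ℂ × ℂ), E ⊆ Metric.ball 0 r → CH_pi l ⁻¹' E ∩ C = 𝓕.cone y₀ E := by
    intro E hE
    ext y
    rw [Set.mem_inter_iff, hC, hl.mem_cone, hl.mem_cone, Set.mem_preimage]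
    constructor
    · rintro ⟨h1, h2, h3, -⟩
      exact ⟨h2, h3, h1⟩
    · rintro ⟨h1, h2, h3⟩
      exact ⟨h3, h1, h2, hE h3⟩
  refine ⟨hr0, ?_, hl0, ?_, ?_, ?_, hr, ?_, ?_⟩
  · exact (hl1.sub (differentiable_fst.mul hl0)).prodMk (hl2.sub (differentiable_snd.mul hl0))
  · show (l 1 (𝓕.vec (𝓕.psi y₀ 0)) - (0 : ℂ × ℂ).1 * l 0 (𝓕.vec (𝓕.psi y₀ 0)),
      l 2 (𝓕.vec (𝓕.psi y₀ 0)) - (0 : ℂ × ℂ).2 * l 0 (𝓕.vec (𝓕.psi y₀ 0))) = ((1, 0) : ℂ × ℂ)
    rw [CH_psi_zero, hl.l11, hl.l21, hl.l01]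
    simp
  · -- finiteness
    refine ⟨?_⟩
    rw [Measure.map_apply hπ MeasurableSet.univ, Set.preimage_univ, hν, withDensity_apply _ MeasurableSet.univ,
      Measure.restrict_univ]
    have hcont : ContinuousOn (fun p => nsq (𝓕.psi y₀ p) ^ 2 / nsq (𝓕.alpha (𝓕.psi y₀ p)))
        (Metric.closedBall (0 : ℂ × ℂ) r) := by
      refine ContinuousOn.div ((CH_nsq_cont.comp hψc).pow 2).continuousOn
        (CH_nsq_cont.comp hac).continuousOn ?_
      intro p hp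
      exact (nsq_pos (hr p hp)).ne'
    obtain ⟨W, hW⟩ := (isCompact_closedBall (0 : ℂ × ℂ) r).exists_bound_of_continuousOn hcont
    have hle : ∫⁻ y in C, ENNReal.ofReal (CH_w 𝓕 l y) ∂μ ≤ ∫⁻ _ in C, ENNReal.ofReal W ∂μ := by
      refine setLIntegral_mono' hCm ?_
      intro y hy
      apply ENNReal.ofReal_le_ofReal
      rw [hC, hl.mem_cone] at hy
      obtain ⟨h1, h2, h3⟩ := hy
      have h4 := Metric.ball_subset_closedBall h3
      rw [hl.w_eq h1 h2 (hr _ h4)]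
      exact (Real.le_norm_self _).trans (hW _ h4)
    refine lt_of_le_of_lt hle ?_
    rw [setLIntegral_const]
    exact ENNReal.mul_lt_top ENNReal.ofReal_lt_top (measure_lt_top _ _)
  · intro p h
    have := (hl.psi p).1
    rw [h, map_zero] at this
    exact zero_ne_one this
  · intro p
    conv_lhs => rw [hl.exp (𝓕.vec (𝓕.psi y₀ p))]
    show _ = l 0 (𝓕.vec (𝓕.psi y₀ p)) • (y₀ + p.1 • 𝓕.vec y₀ + p.2 • (fun j => conj (𝓕.alpha y₀ j))) +
      (l 1 (𝓕.vec (𝓕.psi y₀ p)) - p.1 * l 0 (𝓕.vec (𝓕.psi y₀ p))) • 𝓕.vec y₀ +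
      (l 2 (𝓕.vec (𝓕.psi y₀ p)) - p.2 * l 0 (𝓕.vec (𝓕.psi y₀ p))) • (fun j => conj (𝓕.alpha y₀ j))
    funext j
    simp only [Pi.add_apply, Pi.smul_apply, smul_eq_mul]
    ring
  · intro Φ hΦm hΦ E hE hEr
    have hcm : MeasurableSet (𝓕.cone y₀ E) := hl.cone_meas hE
    constructor
    · have hm : Measurable fun p => Φ (𝓕.psi y₀ p) := hΦm.comp hψc.measurable
      rw [setIntegral_map hE hm.aestronglyMeasurable hπ.aemeasurable, hν,
        setIntegral_withDensity_eq_setIntegral_toReal_smul hwm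
          (Filter.Eventually.of_forall fun _ => ENNReal.ofReal_lt_top) _ (hπ hE),
        Measure.restrict_restrict (hπ hE), hcone E hEr]
      refine setIntegral_congr_fun hcm ?_
      intro y hy
      obtain ⟨h1, h2, h3⟩ := (hl.mem_cone E y).1 hy
      show Φ y / nsq (𝓕.alpha y) = (ENNReal.ofReal (CH_w 𝓕 l y)).toReal • Φ (𝓕.psi y₀ (CH_pi l y))
      rw [ENNReal.toReal_ofReal (CH_w_nonneg 𝓕 l y), smul_eq_mul]
      exact hl.phi_eq hΦ h2
    · have hm : Measurable fun p => ENNReal.ofReal (Φ (𝓕.psi y₀ p)) :=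
        (hΦm.comp hψc.measurable).ennreal_ofReal
      have hm2 : Measurable fun y => ENNReal.ofReal (Φ (𝓕.psi y₀ (CH_pi l y))) := hm.comp hπ
      rw [setLIntegral_map hE hm hπ, hν,
        setLIntegral_withDensity_eq_setLIntegral_mul _ hwm hm2 (hπ hE),
        Measure.restrict_restrict (hπ hE), hcone E hEr]
      refine setLIntegral_congr_fun hcm ?_
      intro y hy
      obtain ⟨h1, h2, h3⟩ := (hl.mem_cone E y).1 hy
      show ENNReal.ofReal (Φ y / nsq (𝓕.alpha y)) =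
        ENNReal.ofReal (CH_w 𝓕 l y) * ENNReal.ofReal (Φ (𝓕.psi y₀ (CH_pi l y)))
      rw [← ENNReal.ofReal_mul (CH_w_nonneg 𝓕 l y), hl.phi_eq hΦ h2]

theorem Chart.compare {𝓕 : Foliation} {μ : Measure V} [IsFiniteMeasure μ] {y₀ : V}
    {X : ℂ × ℂ → ℂ × ℂ} {c₀ : ℂ × ℂ → ℂ} {r : ℝ} {M : Measure (ℂ × ℂ)}
    (h : Chart 𝓕 μ y₀ X c₀ r M) :
    ∃ c C : ℝ, 0 < c ∧ 0 < C ∧ ∀ E : Set (ℂ × ℂ), MeasurableSet E → E ⊆ Metric.ball 0 r →
      c * (M E).toReal ≤ (μ (𝓕.cone y₀ E)).toReal ∧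
      (μ (𝓕.cone y₀ E)).toReal ≤ C * (M E).toReal := by
  have h0 : 𝓕.alpha y₀ ≠ 0 := by
    have := h.reg 0 (Metric.mem_closedBall_self h.r_pos.le)
    rwa [CH_psi_zero] at this
  obtain ⟨l, hl⟩ := CH_dual 𝓕 y₀ h0
  have hfin := h.fin
  have hψc : Continuous (𝓕.psi y₀) := (CH_psi_diff 𝓕 y₀).continuous
  have hac : Continuous fun p => 𝓕.alpha (𝓕.psi y₀ p) := (CH_alpha_cont 𝓕).comp hψc
  have hN : ∀ p, 0 < nsq (𝓕.psi y₀ p) := fun p => nsq_pos (h.psi_ne p)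
  set Φ : V → ℝ := fun y => nsq (𝓕.alpha y) / nsq y ^ 2 with hΦ
  have hg : ContinuousOn (fun p => Φ (𝓕.psi y₀ p)) (Metric.closedBall (0 : ℂ × ℂ) r) := by
    refine ContinuousOn.div (CH_nsq_cont.comp hac).continuousOn
      ((CH_nsq_cont.comp hψc).pow 2).continuousOn ?_
    intro p _
    exact pow_ne_zero 2 (hN p).ne'
  have hpos : ∀ p ∈ Metric.closedBall (0 : ℂ × ℂ) r, 0 < Φ (𝓕.psi y₀ p) := fun p hp =>
    div_pos (nsq_pos (h.reg p hp)) (pow_pos (hN p) 2)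
  have hcomp := isCompact_closedBall (0 : ℂ × ℂ) r
  have hne : (Metric.closedBall (0 : ℂ × ℂ) r).Nonempty := ⟨0, Metric.mem_closedBall_self h.r_pos.le⟩
  obtain ⟨p₁, hp₁, hmin⟩ := hcomp.exists_isMinOn hne hg
  obtain ⟨p₂, hp₂, hmax⟩ := hcomp.exists_isMaxOn hne hg
  refine ⟨Φ (𝓕.psi y₀ p₁), Φ (𝓕.psi y₀ p₂), hpos _ hp₁, hpos _ hp₂, ?_⟩
  intro E hE hEr
  have hΦm : Measurable Φ :=
    (CH_nsq_cont.comp (CH_alpha_cont 𝓕)).measurable.div (CH_nsq_cont.measurable.pow_const 2)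
  have hΦh : ∀ (t : ℂ) (y : V), t ≠ 0 → y ≠ 0 →
      Φ (t • y) = Complex.normSq t ^ 𝓕.deg / Complex.normSq t * Φ y := by
    intro t y ht hy
    have hT : Complex.normSq t ≠ 0 := fun h => ht (Complex.normSq_eq_zero.1 h)
    have hy' : nsq y ≠ 0 := (nsq_pos hy).ne'
    show nsq (𝓕.alpha (t • y)) / nsq (t • y) ^ 2 =
      Complex.normSq t ^ 𝓕.deg / Complex.normSq t * (nsq (𝓕.alpha y) / nsq y ^ 2)
    rw [alpha_smul, nsq_smul, nsq_smul, map_pow]
    field_simp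
    ring
  have ht := (h.transfer Φ hΦm hΦh E hE hEr).2
  have hl1 : ∫⁻ y in 𝓕.cone y₀ E, ENNReal.ofReal (Φ y / nsq (𝓕.alpha y)) ∂μ =
      μ (𝓕.cone y₀ E) := by
    have e : ∫⁻ y in 𝓕.cone y₀ E, ENNReal.ofReal (Φ y / nsq (𝓕.alpha y)) ∂μ =
        ∫⁻ _ in 𝓕.cone y₀ E, 1 ∂μ := by
      refine setLIntegral_congr_fun (hl.cone_meas hE) ?_
      intro y hy
      obtain ⟨h1, h2, h3⟩ := (hl.mem_cone E y).1 hy
      have h4 : 𝓕.alpha y ≠ 0 := by
        rw [hl.rec' h2, alpha_smul]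
        exact smul_ne_zero (pow_ne_zero _ h2)
          (h.reg _ (Metric.ball_subset_closedBall (hEr h3)))
      have h5 : nsq (𝓕.alpha y) ≠ 0 := (nsq_pos h4).ne'
      show ENNReal.ofReal (nsq (𝓕.alpha y) / nsq y ^ 2 / nsq (𝓕.alpha y)) = 1
      rw [h1]
      have : nsq (𝓕.alpha y) / 1 ^ 2 / nsq (𝓕.alpha y) = 1 := by
        rw [one_pow, div_one, div_self h5]
      rw [this, ENNReal.ofReal_one]
    rw [e, setLIntegral_one]
  rw [hl1] at ht
  have hlow : ENNReal.ofReal (Φ (𝓕.psi y₀ p₁)) * M E ≤ μ (𝓕.cone y₀ E) := by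
    rw [ht, ← setLIntegral_const]
    refine setLIntegral_mono' hE fun p hp => ?_
    exact ENNReal.ofReal_le_ofReal (hmin (Metric.ball_subset_closedBall (hEr hp)))
  have hupp : μ (𝓕.cone y₀ E) ≤ ENNReal.ofReal (Φ (𝓕.psi y₀ p₂)) * M E := by
    rw [ht, ← setLIntegral_const]
    refine setLIntegral_mono' hE fun p hp => ?_
    exact ENNReal.ofReal_le_ofReal (hmax (Metric.ball_subset_closedBall (hEr hp)))
  constructor
  · have h1 := ENNReal.toReal_mono (measure_ne_top μ _) hlow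
    rwa [ENNReal.toReal_mul, ENNReal.toReal_ofReal (hpos _ hp₁).le] at h1
  · have h1 := ENNReal.toReal_mono
      (ENNReal.mul_ne_top ENNReal.ofReal_ne_top (measure_ne_top M E)) hupp
    rwa [ENNReal.toReal_mul, ENNReal.toReal_ofReal (hpos _ hp₂).le] at h1

theorem CH_norm_le (v : V) : ‖v‖ ≤ Real.sqrt (nsq v) := by
  refine (pi_norm_le_iff_of_nonneg (Real.sqrt_nonneg _)).2 fun j => ?_
  apply Real.le_sqrt_of_sq_le
  rw [← Complex.normSq_eq_norm_sq]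
  exact Finset.single_le_sum (f := fun j => Complex.normSq (v j))
    (fun i _ => Complex.normSq_nonneg _) (Finset.mem_univ j)

/-- Points close to `y₀` in the Fubini-Study distance lie over a small bidisc. -/
theorem cone_of_tau (𝓕 : Foliation) (y₀ : V) (h1 : nsq y₀ = 1) (h0 : 𝓕.alpha y₀ ≠ 0) :
    ∃ K s₀ : ℝ, 0 < K ∧ 0 < s₀ ∧ ∀ s : ℝ, 0 < s → s < s₀ → ∀ y : V, nsq y = 1 →
      tau y₀ y < s ^ 2 → y ∈ 𝓕.cone y₀ (Metric.ball 0 (K * s)) := by
  obtain ⟨l, hl⟩ := CH_dual 𝓕 y₀ h0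
  set L : ℝ := ‖l 0‖ + ‖l 1‖ + ‖l 2‖ + 1 with hL
  have n0 := norm_nonneg (l 0)
  have n1 := norm_nonneg (l 1)
  have n2 := norm_nonneg (l 2)
  have hL1 : 1 ≤ L := by linarith
  refine ⟨4 * L, 1 / (4 * L), by linarith, by positivity, ?_⟩
  intro s hs hs0 y hy hτ
  rw [lt_div_iff₀ (by positivity)] at hs0
  have hLs : L * s < 1 / 4 := by linarith
  have hs4 : s < 1 / 4 := by nlinarith
  obtain ⟨c, hc⟩ : ∃ c : ℂ, c = herm y y₀ := ⟨_, rfl⟩
  obtain ⟨v, hv⟩ : ∃ v : V, v = y - c • y₀ := ⟨_, rfl⟩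
  have hyv : y = c • y₀ + v := by rw [hv]; simp
  have hcc : Complex.normSq c = Complex.normSq (herm y₀ y) := by
    have : herm y₀ y = conj c := by
      rw [hc]
      unfold herm
      rw [map_sum]
      refine Finset.sum_congr rfl fun j _ => ?_
      rw [map_mul, Complex.conj_conj, mul_comm]
    rw [this, Complex.normSq_conj]
  have hnv : nsq v = 1 - Complex.normSq c := by
    have e1 : (nsq v : ℂ) = (nsq y : ℂ) - c * conj (herm y y₀) - conj c * herm y y₀ +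
        c * conj c * (nsq y₀ : ℂ) := by
      rw [hv]
      unfold nsq herm
      push_cast
      simp only [Fin.sum_univ_three, Pi.sub_apply, Pi.smul_apply, smul_eq_mul,
        Complex.normSq_eq_conj_mul_self, map_sub, map_add, map_mul, Complex.conj_conj]
      ring
    rw [← hc, hy, h1] at e1
    have e2 : (nsq v : ℂ) = ((1 - Complex.normSq c : ℝ) : ℂ) := by
      rw [e1]
      push_cast
      rw [← Complex.mul_conj]
      ring
    exact_mod_cast e2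
  have hnv2 : nsq v < s ^ 2 := by
    unfold tau at hτ
    rw [h1, hy, ← hcc] at hτ
    rw [hnv]
    simpa using hτ
  have hvn : ‖v‖ < s := by
    refine lt_of_le_of_lt (CH_norm_le v) ?_
    rw [Real.sqrt_lt' hs]
    exact hnv2
  have hb : ∀ i, ‖l i‖ ≤ L → ‖l i v‖ ≤ L * s := by
    intro i hi
    refine ((l i).le_opNorm v).trans ?_
    exact mul_le_mul hi hvn.le (norm_nonneg _) (by linarith)
  have hb0 := hb 0 (by linarith)
  have hb1 : ‖l 1 v‖ < L * s := by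
    refine lt_of_le_of_lt ((l 1).le_opNorm v) ?_
    have h2 : ‖l 1‖ * ‖v‖ ≤ ‖l 1‖ * s := mul_le_mul_of_nonneg_left hvn.le n1
    nlinarith
  have hb2 : ‖l 2 v‖ < L * s := by
    refine lt_of_le_of_lt ((l 2).le_opNorm v) ?_
    have h2 : ‖l 2‖ * ‖v‖ ≤ ‖l 2‖ * s := mul_le_mul_of_nonneg_left hvn.le n2
    nlinarith
  have e0 : l 0 y = c + l 0 v := by
    conv_lhs => rw [hyv]
    rw [map_add, map_smul, hl.l00, smul_eq_mul, mul_one]
  have e1 : l 1 y = l 1 v := by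
    conv_lhs => rw [hyv]
    rw [map_add, map_smul, hl.l10, smul_eq_mul, mul_zero, zero_add]
  have e2 : l 2 y = l 2 v := by
    conv_lhs => rw [hyv]
    rw [map_add, map_smul, hl.l20, smul_eq_mul, mul_zero, zero_add]
  have hcn : 1 / 2 ≤ ‖c‖ := by
    have h2 : ‖c‖ ^ 2 = 1 - nsq v := by rw [← Complex.normSq_eq_norm_sq, hnv]; ring
    have h3 := norm_nonneg c
    by_contra hcon
    push Not at hcon
    nlinarith
  have hl0 : 1 / 4 ≤ ‖l 0 y‖ := by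
    rw [e0]
    have h2 : ‖c‖ ≤ ‖c + l 0 v‖ + ‖l 0 v‖ := by
      have : c = (c + l 0 v) - l 0 v := by ring
      calc ‖c‖ = ‖(c + l 0 v) - l 0 v‖ := by rw [← this]
        _ ≤ _ := norm_sub_le _ _
    linarith
  have hl0' : l 0 y ≠ 0 := by
    intro h
    rw [h, norm_zero] at hl0
    linarith
  refine (hl.mem_cone _ y).2 ⟨hy, hl0', ?_⟩
  rw [Metric.mem_ball, dist_zero_right, Prod.norm_def]
  have hp0 : 0 < ‖l 0 y‖ := by linarith
  refine max_lt ?_ ?_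
  · show ‖l 1 y / l 0 y‖ < 4 * L * s
    rw [norm_div, e1, div_lt_iff₀ hp0]
    have : 0 < L * s := by positivity
    nlinarith
  · show ‖l 2 y / l 0 y‖ < 4 * L * s
    rw [norm_div, e2, div_lt_iff₀ hp0]
    have : 0 < L * s := by positivity
    nlinarith

end Pool.Agent.H24.CU
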