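import Pool.Agent.H24.CU.CH
import Pool.Agent.H24.CU.LC
import Pool.Agent.H24.CU.RH

/-!
# Row CL (radial lemma; the chart measure is harmonic)

PROOFS.  (1) `levi_psi`: `f` is real, `C^2` off `0`, and `f (t • y) = f y + m * log (normSq t)` for all
`t ≠ 0`, `y ≠ 0` (`m` real; `m = 0` for conic functions).  Let `H : (ℂ × ℂ) × ℂ → V`,
`H (p, t) = (1 + t) • psi p`, complex differentiable, `fderiv ℂ H (p, 0) (v, c) = c • psi p + v.1 • vec y₀
+ v.2 • conj α(y₀)`; with `v = X p`, `c = c₀ p` this is `vec (psi p)` (`Chart.vec`).  By `levi_comp_hol`,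
`levi f (psi p) (vec (psi p)) = levi (f ∘ H) (p,0) (X p, c₀ p)`.  Near `(p,0)`,
`f (H (q,t)) = f (psi q) + m log (normSq (1 + t))`; `levi` of the second summand is `0` (`log |1+t|^2` is
harmonic in `t`: `levi_comp_hol` with the projection to `t`, and `levi (log ∘ normSq) 1 w = 0` by
`levi_comp`, `levi_normSq`: `1 * normSq w - 1 * normSq w = 0` at the point `1`, as
`gradm normSq normSq ζ w = normSq ζ * normSq w`), and `levi` of the first is `levi (f ∘ psi) p (X p)`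
(`levi_comp_hol` with the projection to `q`).
(2) `levi_weight`: from `f (t • y) = f y + m log(normSq t)` for fixed `t`: `levi f (t y) (t v) = levi f y v`
(`levi_comp_hol` with the linear map `t •`), so
`levi f (t y) (vec (t y)) = levi f (t y) (t • (t^(deg) / t • vec y)) = (normSq t)^deg / normSq t * levi f y (vec y)`
(`vec_smul`, `levi_smul_vec`).
(3) `Chart.loc`: let `g` be smooth with compact support in `ball 0 r`.  `u y = g (π y)` if `ℓ0 y ≠ 0` and
`0` otherwise (notation of row CH; here take: `u y = g p` if there are `p ∈ tsupport g` and `t ≠ 0` with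
`y = t • psi p`, else `0`; the pair `(p,t)` is unique).  `IsFun u`: off `0` it is smooth: the cone
over the compact set `tsupport g` is closed in `{0}ᶜ`, and on the open set `{ℓ0 ≠ 0}` it is `g ∘ π`.
`Φ y = levi u y (vec y)` has the right weight by (2) (at `y ≠ 0`), is measurable
(it is continuous on `{0}ᶜ`; modify at `0`), and vanishes outside the cone over `tsupport g` (there `u` is
locally `0`).  So `0 = ∫ levi u y (vec y) / nsq α dμ = ∫_{cone (ball 0 r)} .. = ∫_{ball 0 r} levi u (psi p) (vec (psi p)) dM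
= ∫_{ball 0 r} levi g p (X p) dM` by (1) (`u ∘ psi = g` near `p` in the ball), and `levi g p = 0` outside
`tsupport g`.
-/

namespace Pool.Agent.H24.CU

open MeasureTheory
open scoped ComplexConjugate ContDiff

variable {𝓕 : Foliation} {μ : Measure V} {y₀ : V} {X : ℂ × ℂ → ℂ × ℂ} {c₀ : ℂ × ℂ → ℂ} {r : ℝ}
  {M : Measure (ℂ × ℂ)}

/-- the homotopy -/
noncomputable def CL_H (𝓕 : Foliation) (y₀ : V) (z : (ℂ × ℂ) × ℂ) : V :=
  (1 + z.2) • 𝓕.psi y₀ z.1

lemma CL_psi_contDiff (𝓕 : Foliation) (y₀ : V) {n : WithTop ℕ∞} :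
    ContDiff ℂ n (fun p : ℂ × ℂ => 𝓕.psi y₀ p) := by
  unfold Foliation.psi
  exact (contDiff_const.add (contDiff_fst.smul contDiff_const)).add
    (contDiff_snd.smul contDiff_const)

lemma CL_psi_contDiffR (𝓕 : Foliation) (y₀ : V) {n : WithTop ℕ∞} :
    ContDiff ℝ n (fun p : ℂ × ℂ => 𝓕.psi y₀ p) := (CL_psi_contDiff 𝓕 y₀).restrict_scalars ℝ

lemma CL_psi_deriv (𝓕 : Foliation) (y₀ : V) (p v : ℂ × ℂ) :
    fderiv ℂ (fun p : ℂ × ℂ => 𝓕.psi y₀ p) p v =
      v.1 • 𝓕.vec y₀ + v.2 • (fun j => conj (𝓕.alpha y₀ j)) := by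
  have h : HasFDerivAt (fun p : ℂ × ℂ => 𝓕.psi y₀ p)
      (((0 : ℂ × ℂ →L[ℂ] V) + (ContinuousLinearMap.fst ℂ ℂ ℂ).smulRight (𝓕.vec y₀)) +
        (ContinuousLinearMap.snd ℂ ℂ ℂ).smulRight (fun j => conj (𝓕.alpha y₀ j))) p :=
    ((hasFDerivAt_const y₀ p).add ((hasFDerivAt_fst).smul_const (𝓕.vec y₀))).add
      ((hasFDerivAt_snd).smul_const _)
  rw [h.fderiv]
  simp

lemma CL_H_contDiff (𝓕 : Foliation) (y₀ : V) {n : WithTop ℕ∞} :
    ContDiff ℂ n (CL_H 𝓕 y₀) := by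
  unfold CL_H
  exact (contDiff_const.add contDiff_snd).smul ((CL_psi_contDiff 𝓕 y₀).comp contDiff_fst)

lemma CL_H_deriv (𝓕 : Foliation) (y₀ : V) (p v : ℂ × ℂ) (c : ℂ) :
    fderiv ℂ (CL_H 𝓕 y₀) (p, 0) (v, c) =
      c • 𝓕.psi y₀ p + v.1 • 𝓕.vec y₀ + v.2 • (fun j => conj (𝓕.alpha y₀ j)) := by
  have hp : HasFDerivAt (fun z : (ℂ × ℂ) × ℂ => 𝓕.psi y₀ z.1)
      ((fderiv ℂ (fun p : ℂ × ℂ => 𝓕.psi y₀ p) p).comp (ContinuousLinearMap.fst ℂ (ℂ × ℂ) ℂ))
      (p, (0 : ℂ)) := by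
    have h1 : HasFDerivAt (fun p : ℂ × ℂ => 𝓕.psi y₀ p)
        (fderiv ℂ (fun p : ℂ × ℂ => 𝓕.psi y₀ p) p) ((p, (0 : ℂ)) : (ℂ × ℂ) × ℂ).1 :=
      (((CL_psi_contDiff 𝓕 y₀ (n := 1)).differentiable (by simp)) p).hasFDerivAt
    have h2 : HasFDerivAt (Prod.fst : (ℂ × ℂ) × ℂ → ℂ × ℂ)
        (ContinuousLinearMap.fst ℂ (ℂ × ℂ) ℂ) (p, (0 : ℂ)) := hasFDerivAt_fst
    exact h1.comp (p, (0 : ℂ)) h2
  have ht : HasFDerivAt (fun z : (ℂ × ℂ) × ℂ => 1 + z.2)
      (0 + ContinuousLinearMap.snd ℂ (ℂ × ℂ) ℂ) (p, (0 : ℂ)) :=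
    (hasFDerivAt_const 1 _).add hasFDerivAt_snd
  have h := (ht.smul hp).fderiv
  have h2 : fderiv ℂ (CL_H 𝓕 y₀) (p, 0) = _ := h
  rw [h2]
  simp only [add_apply, ContinuousLinearMap.comp_apply, ContinuousLinearMap.smulRight_apply, ContinuousLinearMap.coe_fst', ContinuousLinearMap.coe_snd',
    CL_psi_deriv, add_zero, one_smul, zero_add]
  abel

lemma CL_normSq_contDiff {n : WithTop ℕ∞} : ContDiff ℝ n (fun t : ℂ => Complex.normSq t) := by
  have h0 : (fun q : ℂ => Complex.normSq q) =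
      fun q => Complex.reCLM q * Complex.reCLM q + Complex.imCLM q * Complex.imCLM q := by
    funext q
    rw [Complex.normSq_apply]
    rfl
  rw [h0]
  exact (Complex.reCLM.contDiff.mul Complex.reCLM.contDiff).add
    (Complex.imCLM.contDiff.mul Complex.imCLM.contDiff)

lemma CL_log (w : ℂ) : levi (fun t : ℂ => Real.log (Complex.normSq t)) 1 w = 0 := by
  have c1 : ContDiffAt ℝ 2 (fun t : ℂ => Complex.normSq t) 1 := CL_normSq_contDiff.contDiffAt
  have c2 : ContDiffAt ℝ 2 Real.log (Complex.normSq 1) :=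
    Real.contDiffAt_log.2 (by simp)
  rw [levi_comp (h := Real.log) c1 c2, LC_nsq]
  have e1 : deriv Real.log (Complex.normSq 1) = 1 := by
    rw [Real.deriv_log]; simp
  have e2 : deriv (deriv Real.log) (Complex.normSq 1) = -1 := by
    have : deriv Real.log = fun x => x⁻¹ := by
      funext x
      exact Real.deriv_log x
    rw [this, deriv_inv]
    simp
  have e3 : gradm (fun t : ℂ => Complex.normSq t) (fun t : ℂ => Complex.normSq t) 1 w =
      Complex.normSq w := by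
    unfold gradm
    have hd : ∀ v : ℂ, fderiv ℝ (fun t : ℂ => Complex.normSq t) 1 v = 2 * v.re := by
      intro v
      have := fderiv_normSq (H := fun t : ℂ => t) (p := 1) differentiableAt_id v
      rw [this]
      have e : fderiv ℂ (fun t : ℂ => t) 1 = ContinuousLinearMap.id ℂ ℂ := fderiv_fun_id
      rw [e]
      simp
    rw [hd, hd, Complex.normSq_apply]
    simp
    ring
  rw [e1, e2, e3]
  ring

theorem Chart.levi_psi (h : Chart 𝓕 μ y₀ X c₀ r M) (f : V → ℝ) (hf : ContDiffOn ℝ 2 f {0}ᶜ) (m : ℝ)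
    (hom : ∀ (t : ℂ) (y : V), t ≠ 0 → y ≠ 0 → f (t • y) = f y + m * Real.log (Complex.normSq t))
    (p : ℂ × ℂ) :
    levi f (𝓕.psi y₀ p) (𝓕.vec (𝓕.psi y₀ p)) = levi (fun q => f (𝓕.psi y₀ q)) p (X p) := by
  have hfat : ∀ y : V, y ≠ 0 → ContDiffAt ℝ 2 f y := fun y hy =>
    hf.contDiffAt (isOpen_compl_singleton.mem_nhds hy)
  have hH0 : CL_H 𝓕 y₀ (p, 0) = 𝓕.psi y₀ p := by
    simp [CL_H]
  have e1 : 𝓕.vec (𝓕.psi y₀ p) = fderiv ℂ (CL_H 𝓕 y₀) (p, 0) (X p, c₀ p) := by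
    rw [CL_H_deriv, h.vec]
  have hHd : ∀ᶠ q in nhds (p, (0 : ℂ)), DifferentiableAt ℂ (CL_H 𝓕 y₀) q :=
    Filter.Eventually.of_forall fun q => (CL_H_contDiff 𝓕 y₀ (n := 1)).differentiable (by simp) q
  have hH2 : ContDiffAt ℝ 2 (CL_H 𝓕 y₀) (p, (0 : ℂ)) :=
    ((CL_H_contDiff 𝓕 y₀).restrict_scalars ℝ).contDiffAt
  have e2 := levi_comp_hol (g := f) hHd hH2 (by rw [hH0]; exact hfat _ (h.psi_ne p)) (X p, c₀ p)
  rw [← e1, hH0] at e2
  rw [← e2]
  have e3 : (fun q => f (CL_H 𝓕 y₀ q)) =ᶠ[nhds (p, (0 : ℂ))]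
      fun z => f (𝓕.psi y₀ z.1) + m * Real.log (Complex.normSq (1 + z.2)) := by
    have ho : ∀ᶠ z : (ℂ × ℂ) × ℂ in nhds (p, (0 : ℂ)), 1 + z.2 ≠ 0 := by
      have hc : ContinuousAt (fun z : (ℂ × ℂ) × ℂ => 1 + z.2) (p, (0 : ℂ)) := by fun_prop
      exact hc.eventually_ne (by simp)
    filter_upwards [ho] with z hz
    exact hom _ _ hz (h.psi_ne z.1)
  rw [levi_congr e3]
  have c1 : ContDiffAt ℝ 2 (fun q : ℂ × ℂ => f (𝓕.psi y₀ q)) p :=
    (hfat _ (h.psi_ne p)).comp p (CL_psi_contDiffR 𝓕 y₀).contDiffAt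
  have c2 : ContDiffAt ℝ 2 (fun z : (ℂ × ℂ) × ℂ => f (𝓕.psi y₀ z.1)) (p, (0 : ℂ)) :=
    ContDiffAt.comp (p, (0 : ℂ)) (g := fun q : ℂ × ℂ => f (𝓕.psi y₀ q)) c1 contDiffAt_fst
  have g1 : ContDiffAt ℝ 2 (fun t : ℂ => Real.log (Complex.normSq t)) 1 :=
    ContDiffAt.log CL_normSq_contDiff.contDiffAt (by simp)
  have hk : ContDiffAt ℂ 2 (fun z : (ℂ × ℂ) × ℂ => 1 + z.2) (p, (0 : ℂ)) :=
    contDiffAt_const.add contDiffAt_snd
  have hkR : ContDiffAt ℝ 2 (fun z : (ℂ × ℂ) × ℂ => 1 + z.2) (p, (0 : ℂ)) :=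
    contDiffAt_const.add contDiffAt_snd
  have c3 : ContDiffAt ℝ 2 (fun z : (ℂ × ℂ) × ℂ => Real.log (Complex.normSq (1 + z.2)))
      (p, (0 : ℂ)) := by
    refine ContDiffAt.log ?_ (by simp)
    exact ContDiffAt.comp (p, (0 : ℂ)) (g := fun t : ℂ => Complex.normSq t)
      CL_normSq_contDiff.contDiffAt hkR
  rw [levi_add c2 (contDiffAt_const.mul c3), levi_const_mul c3]
  have e4 : levi (fun z : (ℂ × ℂ) × ℂ => f (𝓕.psi y₀ z.1)) (p, (0 : ℂ)) (X p, c₀ p) =
      levi (fun q => f (𝓕.psi y₀ q)) p (X p) := by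
    have hfst : ∀ᶠ q in nhds (p, (0 : ℂ)), DifferentiableAt ℂ (Prod.fst : (ℂ × ℂ) × ℂ → ℂ × ℂ) q :=
      Filter.Eventually.of_forall fun q => differentiableAt_fst
    have h5 := levi_comp_hol (g := fun q : ℂ × ℂ => f (𝓕.psi y₀ q)) (p := (p, (0 : ℂ)))
      hfst contDiffAt_fst c1 (X p, c₀ p)
    rw [h5, fderiv_fst]
    rfl
  have e5 : levi (fun z : (ℂ × ℂ) × ℂ => Real.log (Complex.normSq (1 + z.2))) (p, (0 : ℂ))
      (X p, c₀ p) = 0 := by
    have hfst : ∀ᶠ q in nhds (p, (0 : ℂ)),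
        DifferentiableAt ℂ (fun z : (ℂ × ℂ) × ℂ => 1 + z.2) q :=
      Filter.Eventually.of_forall fun q => by fun_prop
    have h5 := levi_comp_hol (g := fun t : ℂ => Real.log (Complex.normSq t)) (p := (p, (0 : ℂ)))
      hfst hkR (by simpa using g1) (X p, c₀ p)
    rw [h5]
    simp only [add_zero]
    exact CL_log _
  rw [e4, e5]
  ring

theorem levi_weight (𝓕 : Foliation) (f : V → ℝ) (hf : ContDiffOn ℝ 2 f {0}ᶜ) (m : ℝ)
    (hom : ∀ (t : ℂ) (y : V), t ≠ 0 → y ≠ 0 → f (t • y) = f y + m * Real.log (Complex.normSq t))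
    (t : ℂ) (y : V) (ht : t ≠ 0) (hy : y ≠ 0) :
    levi f (t • y) (𝓕.vec (t • y)) =
      Complex.normSq t ^ 𝓕.deg / Complex.normSq t * levi f y (𝓕.vec y) := by
  have hfat : ∀ y : V, y ≠ 0 → ContDiffAt ℝ 2 f y := fun y hy =>
    hf.contDiffAt (isOpen_compl_singleton.mem_nhds hy)
  have hty : t • y ≠ 0 := smul_ne_zero ht hy
  have e0 : 𝓕.vec (t • y) = (t ^ 𝓕.deg / t) • (t • 𝓕.vec y) := by
    rw [vec_smul, smul_smul, div_mul_cancel₀ _ ht]
  rw [e0, levi_smul_vec (hfat _ hty), map_div₀, map_pow]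
  congr 1
  have hl : ∀ᶠ q in nhds y, DifferentiableAt ℂ (fun q : V => t • q) q :=
    Filter.Eventually.of_forall fun q => by fun_prop
  have hl2 : ContDiffAt ℝ 2 (fun q : V => t • q) y :=
    (((contDiff_id (𝕜 := ℂ) (n := 2)).const_smul t).restrict_scalars ℝ).contDiffAt
  have e1 := levi_comp_hol (g := f) (H := fun q : V => t • q) (p := y) hl hl2 (hfat _ hty)
    (𝓕.vec y)
  have e2 : fderiv ℂ (fun q : V => t • q) y (𝓕.vec y) = t • 𝓕.vec y := by
    have h3 : HasFDerivAt (fun q : V => t • q) (t • ContinuousLinearMap.id ℂ V) y :=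
      (hasFDerivAt_id y).const_smul t
    rw [h3.fderiv]
    rfl
  rw [e2] at e1
  rw [← e1]
  have e3 : (fun q => f (t • q)) =ᶠ[nhds y] fun q => f q + m * Real.log (Complex.normSq t) := by
    filter_upwards [isOpen_compl_singleton.mem_nhds hy] with q hq
    exact hom t q ht hq
  rw [levi_congr e3, levi_add (hfat y hy) contDiffAt_const, levi_const, add_zero]

/-- the frame is linearly independent -/
lemma CL_indep (𝓕 : Foliation) {y₀ : V} (h0 : 𝓕.alpha y₀ ≠ 0) :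
    LinearIndependent ℂ ![y₀, 𝓕.vec y₀, (fun j => conj (𝓕.alpha y₀ j))] := by
  rw [Fintype.linearIndependent_iff]
  intro g hg
  rw [Fin.sum_univ_three] at hg
  simp only [Matrix.cons_val_zero, Matrix.cons_val_one, Matrix.cons_val] at hg
  have hN : ∑ j, conj (𝓕.alpha y₀ j) * 𝓕.alpha y₀ j ≠ 0 := by
    have e : ∑ j, conj (𝓕.alpha y₀ j) * 𝓕.alpha y₀ j = ((nsq (𝓕.alpha y₀) : ℝ) : ℂ) := by
      unfold nsq
      push_cast
      refine Finset.sum_congr rfl fun j _ => ?_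
      rw [mul_comm, Complex.mul_conj]
    rw [e]
    exact_mod_cast (nsq_pos h0).ne'
  have hg2 : g 2 = 0 := by
    have h1 : ∑ j, (g 0 • y₀ + g 1 • 𝓕.vec y₀ + g 2 • (fun j => conj (𝓕.alpha y₀ j))) j *
        𝓕.alpha y₀ j = 0 := by
      rw [hg]
      simp
    have h2 : ∑ j, (g 0 • y₀ + g 1 • 𝓕.vec y₀ + g 2 • (fun j => conj (𝓕.alpha y₀ j))) j *
        𝓕.alpha y₀ j = g 0 * ∑ j, y₀ j * 𝓕.alpha y₀ j + g 1 * ∑ j, 𝓕.vec y₀ j * 𝓕.alpha y₀ j +
          g 2 * ∑ j, conj (𝓕.alpha y₀ j) * 𝓕.alpha y₀ j := by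
      rw [Finset.mul_sum, Finset.mul_sum, Finset.mul_sum, ← Finset.sum_add_distrib,
        ← Finset.sum_add_distrib]
      refine Finset.sum_congr rfl fun j _ => ?_
      simp only [Pi.add_apply, Pi.smul_apply, smul_eq_mul]
      ring
    rw [h2, sum_mul_alpha, sum_vec_mul_alpha, mul_zero, mul_zero, zero_add, zero_add] at h1
    exact (mul_eq_zero.1 h1).resolve_right hN
  rw [hg2, zero_smul, add_zero] at hg
  have hg1 : g 1 = 0 := by
    have h1 : crossProduct y₀ (g 0 • y₀ + g 1 • 𝓕.vec y₀) = g 1 • 𝓕.alpha y₀ := by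
      rw [map_add, map_smul, map_smul, cross_self, smul_zero, zero_add]
      rfl
    rw [hg, map_zero] at h1
    exact (smul_eq_zero.1 h1.symm).resolve_right h0
  rw [hg1, zero_smul, add_zero] at hg
  have hy0 : y₀ ≠ 0 := by
    rintro rfl
    apply h0
    unfold Foliation.alpha
    rw [map_zero]
    rfl
  have hg0 : g 0 = 0 := (smul_eq_zero.1 hg).resolve_right hy0
  intro i
  fin_cases i
  · exact hg0
  · exact hg1
  · exact hg2

/-- coordinates with respect to the frame -/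
lemma CL_coord (𝓕 : Foliation) {y₀ : V} (h0 : 𝓕.alpha y₀ ≠ 0) :
    ∃ e : V ≃L[ℂ] (Fin 3 → ℂ), (∀ p : ℂ × ℂ, e (𝓕.psi y₀ p) = ![1, p.1, p.2]) ∧
      ∀ y : V, e y 0 ≠ 0 → y = e y 0 • 𝓕.psi y₀ (e y 1 / e y 0, e y 2 / e y 0) := by
  let b : Module.Basis (Fin 3) ℂ V := basisOfLinearIndependentOfCardEqFinrank (CL_indep 𝓕 h0)
    (by simp [V])
  have hb : ∀ i, b i = ![y₀, 𝓕.vec y₀, (fun j => conj (𝓕.alpha y₀ j))] i := by
    intro i
    rw [show b = basisOfLinearIndependentOfCardEqFinrank (CL_indep 𝓕 h0) (by simp [V]) from rfl,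
      coe_basisOfLinearIndependentOfCardEqFinrank]
  have hb0 : b 0 = y₀ := hb 0
  have hb1 : b 1 = 𝓕.vec y₀ := hb 1
  have hb2 : b 2 = (fun j => conj (𝓕.alpha y₀ j)) := hb 2
  have hpsi : ∀ p : ℂ × ℂ, 𝓕.psi y₀ p = ∑ i, (![1, p.1, p.2] : Fin 3 → ℂ) i • b i := by
    intro p
    rw [Fin.sum_univ_three, hb0, hb1, hb2]
    simp [Foliation.psi]
  have he : ∀ p : ℂ × ℂ, b.equivFun (𝓕.psi y₀ p) = ![1, p.1, p.2] := by
    intro p
    rw [hpsi, ← b.equivFun_symm_apply, LinearEquiv.apply_symm_apply]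
  refine ⟨b.equivFun.toContinuousLinearEquiv, he, fun y hy => ?_⟩
  have hy' : b.equivFun y 0 ≠ 0 := hy
  change y = b.equivFun y 0 • 𝓕.psi y₀ (b.equivFun y 1 / b.equivFun y 0,
    b.equivFun y 2 / b.equivFun y 0)
  apply b.equivFun.injective
  rw [map_smul, he]
  funext i
  fin_cases i
  · change b.equivFun y 0 = b.equivFun y 0 * 1
    rw [mul_one]
  · change b.equivFun y 1 = b.equivFun y 0 * (b.equivFun y 1 / b.equivFun y 0)
    field_simp
  · change b.equivFun y 2 = b.equivFun y 0 * (b.equivFun y 2 / b.equivFun y 0)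
    field_simp

lemma CL_levi_cont {f : V → ℝ} (hf : ContDiffOn ℝ 2 f {0}ᶜ) {w : V → V} (hw : Continuous w) :
    ContinuousOn (fun y => levi f y (w y)) {0}ᶜ := by
  have hfat : ∀ y : V, y ≠ 0 → ContDiffAt ℝ 2 f y := fun y hy =>
    hf.contDiffAt (isOpen_compl_singleton.mem_nhds hy)
  intro y hy
  apply ContinuousAt.continuousWithinAt
  have hc : ContinuousAt (fderiv ℝ (fderiv ℝ f)) y := by
    have h1 : ContDiffAt ℝ 1 (fderiv ℝ f) y := (hfat y hy).fderiv_right (by norm_num)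
    have h2 : ContDiffAt ℝ 0 (fderiv ℝ (fderiv ℝ f)) y := h1.fderiv_right (by norm_num)
    exact h2.continuousAt
  have he : (fun y => levi f y (w y)) =ᶠ[nhds y] fun y =>
      (fderiv ℝ (fderiv ℝ f) y (w y) (w y) +
        fderiv ℝ (fderiv ℝ f) y (Complex.I • w y) (Complex.I • w y)) / 4 := by
    filter_upwards [isOpen_compl_singleton.mem_nhds hy] with q hq
    unfold levi
    rw [LC_app (hfat q hq), LC_app (hfat q hq)]
  refine ContinuousAt.congr ?_ he.symm
  have hw1 : ContinuousAt w y := hw.continuousAt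
  have hw2 : ContinuousAt (fun y => Complex.I • w y) y :=
    (continuous_const_smul Complex.I).continuousAt.comp hw1
  exact (((hc.clm_apply hw1).clm_apply hw1).add ((hc.clm_apply hw2).clm_apply hw2)).div_const _

lemma CL_vec_cont (𝓕 : Foliation) : Continuous 𝓕.vec := by
  unfold Foliation.vec
  exact continuous_pi fun j => MvPolynomial.continuous_eval (𝓕.F j)

theorem Chart.loc (h : Chart 𝓕 μ y₀ X c₀ r M) (hμ : Harm 𝓕 μ) : Loc X r M := by
  refine ⟨h.r_pos, h.hol, h.zero, h.fin, fun g hg hgc hgs => ?_⟩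
  have h0 : 𝓕.alpha y₀ ≠ 0 := by
    have := h.reg 0 (Metric.mem_closedBall_self h.r_pos.le)
    simpa [Foliation.psi] using this
  obtain ⟨e, he, hey⟩ := CL_coord 𝓕 h0
  have hecont : ∀ i, Continuous fun y : V => e y i := fun i =>
    (continuous_apply i).comp e.continuous
  -- the projection
  let π : V → ℂ × ℂ := fun y => (e y 1 / e y 0, e y 2 / e y 0)
  let u : V → ℝ := fun y => if e y 0 = 0 then 0 else g (π y)
  have hupsi : ∀ q, u (𝓕.psi y₀ q) = g q := by
    intro q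
    have h1 := he q
    have e0 : e (𝓕.psi y₀ q) 0 = 1 := by rw [h1]; rfl
    have e1 : e (𝓕.psi y₀ q) 1 = q.1 := by rw [h1]; rfl
    have e2 : e (𝓕.psi y₀ q) 2 = q.2 := by rw [h1]; rfl
    simp only [u, π, e0, e1, e2, one_ne_zero, if_false, div_one]
  have huhom : ∀ (t : ℂ) (y : V), t ≠ 0 → u (t • y) = u y := by
    intro t y ht
    have e1 : ∀ i, e (t • y) i = t * e y i := fun i => by rw [map_smul]; rfl
    simp only [u, π, e1, mul_eq_zero, ht, false_or]
    rw [mul_div_mul_left _ _ ht, mul_div_mul_left _ _ ht]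
  -- g vanishes outside of the ball
  have hg0 : ∀ q, q ∉ Metric.ball (0 : ℂ × ℂ) r → g q = 0 := fun q hq => by
    by_contra hne
    exact hq (hgs (subset_tsupport g hne))
  -- u vanishes near the points outside of the cone
  have hu0 : ∀ y : V, y ≠ 0 → (e y 0 = 0 ∨ π y ∉ tsupport g) → u =ᶠ[nhds y] fun _ => 0 := by
    intro y hy hor
    by_cases h00 : e y 0 = 0
    · have hmax : 0 < max ‖e y 1‖ ‖e y 2‖ := by
        by_contra hcon
        rw [not_lt] at hcon
        have h1 : ‖e y 1‖ ≤ 0 := (le_max_left _ _).trans hcon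
        have h2 : ‖e y 2‖ ≤ 0 := (le_max_right _ _).trans hcon
        have h3 : e y = 0 := by
          funext i
          fin_cases i
          · exact h00
          · exact norm_le_zero_iff.1 h1
          · exact norm_le_zero_iff.1 h2
        exact hy ((map_eq_zero_iff e e.injective).1 h3)
      have hopen : ∀ᶠ q in nhds y, r * ‖e q 0‖ < max ‖e q 1‖ ‖e q 2‖ := by
        have hc1 : Continuous fun q : V => r * ‖e q 0‖ := continuous_const.mul (hecont 0).norm
        have hc2 : Continuous fun q : V => max ‖e q 1‖ ‖e q 2‖ :=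
          (hecont 1).norm.max (hecont 2).norm
        refine (isOpen_lt hc1 hc2).mem_nhds ?_
        change r * ‖e y 0‖ < max ‖e y 1‖ ‖e y 2‖
        rw [h00, norm_zero, mul_zero]
        exact hmax
      filter_upwards [hopen] with q hq
      by_cases hq0 : e q 0 = 0
      · simp only [u, hq0, if_true]
      · simp only [u, hq0, if_false]
        apply hg0
        rw [Metric.mem_ball, dist_zero_right, not_lt, Prod.norm_def]
        have hn : 0 < ‖e q 0‖ := norm_pos_iff.2 hq0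
        change r ≤ max ‖e q 1 / e q 0‖ ‖e q 2 / e q 0‖
        rw [norm_div, norm_div, max_div_div_right hn.le, le_div_iff₀ hn]
        exact hq.le
    · have hπ : π y ∉ tsupport g := hor.resolve_left h00
      have hπc : ContinuousAt π y :=
        ((hecont 1).continuousAt.div (hecont 0).continuousAt h00).prodMk
          ((hecont 2).continuousAt.div (hecont 0).continuousAt h00)
      have h1 : ∀ᶠ q in nhds y, π q ∉ tsupport g :=
        hπc.eventually ((isClosed_tsupport g).isOpen_compl.mem_nhds hπ)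
      filter_upwards [h1] with q hq
      simp only [u]
      split_ifs with h3
      · rfl
      · exact image_eq_zero_of_notMem_tsupport hq
  -- smoothness
  have husm : ContDiffOn ℝ ∞ u {0}ᶜ := by
    intro y hy
    apply ContDiffAt.contDiffWithinAt
    by_cases h00 : e y 0 = 0
    · exact contDiffAt_const.congr_of_eventuallyEq (hu0 y hy (Or.inl h00))
    · have h1 : u =ᶠ[nhds y] fun q => g (π q) := by
        filter_upwards [(hecont 0).continuousAt.eventually_ne h00] with q hq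
        simp only [u, hq, if_false]
      refine ContDiffAt.congr_of_eventuallyEq ?_ h1
      have hei : ∀ i, ContDiffAt ℂ ∞ (fun q : V => e q i) y := by
        intro i
        exact ((contDiff_apply ℂ ℂ i).comp e.contDiff).contDiffAt
      have hπs : ContDiffAt ℝ ∞ π y :=
        (((hei 1).div (hei 0) h00).prodMk ((hei 2).div (hei 0) h00)).restrict_scalars ℝ
      exact hg.contDiffAt.comp y hπs
  have hfun : IsFun (fun x => (u x : ℂ)) := by
    refine ⟨Complex.ofRealCLM.contDiff.comp_contDiffOn husm, fun c x hc _ => ?_⟩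
    change ((u (c • x) : ℝ) : ℂ) = (u x : ℂ)
    rw [huhom c x hc]
  have hu2 : ContDiffOn ℝ 2 u {0}ᶜ := husm.of_le (by
    change ((2 : ℕ∞) : WithTop ℕ∞) ≤ ((⊤ : ℕ∞) : WithTop ℕ∞)
    exact WithTop.coe_le_coe.2 le_top)
  have hom0 : ∀ (t : ℂ) (y : V), t ≠ 0 → y ≠ 0 →
      u (t • y) = u y + 0 * Real.log (Complex.normSq t) := by
    intro t y ht _
    rw [huhom t y ht, zero_mul, add_zero]
  classical
  let Φ : V → ℝ := Set.piecewise {(0 : V)}ᶜ (fun y => levi u y (𝓕.vec y)) (fun _ => 0)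
  have hΦ : ∀ y : V, y ≠ 0 → Φ y = levi u y (𝓕.vec y) := fun y hy =>
    Set.piecewise_eq_of_mem _ _ _ hy
  have hΦm : Measurable Φ :=
    (CL_levi_cont hu2 (CL_vec_cont 𝓕)).measurable_piecewise continuousOn_const
      (measurableSet_singleton (0 : V)).compl
  have hw : ∀ (t : ℂ) (y : V), t ≠ 0 → y ≠ 0 →
      Φ (t • y) = Complex.normSq t ^ 𝓕.deg / Complex.normSq t * Φ y := by
    intro t y ht hy
    rw [hΦ _ (smul_ne_zero ht hy), hΦ _ hy]
    exact levi_weight 𝓕 u hu2 0 hom0 t y ht hy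
  have htr := (h.transfer Φ hΦm hw (Metric.ball 0 r) Metric.isOpen_ball.measurableSet
    subset_rfl).1
  have hlev0 : ∀ {y : V} {v : V}, u =ᶠ[nhds y] (fun _ => 0) → levi u y v = 0 := by
    intro y v hy
    rw [levi_congr hy, levi_const]
  have hae : ∀ᵐ y ∂μ, nsq y = 1 := by
    rw [ae_iff]
    exact hμ.sph
  have hne : ∀ y : V, nsq y = 1 → y ≠ 0 := by
    rintro y hy rfl
    simp [nsq] at hy
  have hL : ∫ y in 𝓕.cone y₀ (Metric.ball 0 r), Φ y / nsq (𝓕.alpha y) ∂μ = 0 := by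
    rw [setIntegral_eq_integral_of_ae_compl_eq_zero]
    · rw [← hμ.harm u hfun]
      refine integral_congr_ae ?_
      filter_upwards [hae] with y hy
      rw [hΦ y (hne y hy)]
    · filter_upwards [hae] with y hy hyc
      have hy0 := hne y hy
      have hor : e y 0 = 0 ∨ π y ∉ tsupport g := by
        by_contra hcon
        rw [not_or, not_not] at hcon
        exact hyc ⟨hy, π y, hgs hcon.2, e y 0, hcon.1, hey y hcon.1⟩
      rw [hΦ y hy0, hlev0 (hu0 y hy0 hor), zero_div]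
  have hR : ∫ p in Metric.ball (0 : ℂ × ℂ) r, Φ (𝓕.psi y₀ p) ∂M =
      ∫ p, levi g p (X p) ∂M := by
    have h1 : ∀ p, Φ (𝓕.psi y₀ p) = levi g p (X p) := by
      intro p
      rw [hΦ _ (h.psi_ne p), h.levi_psi u hu2 0 hom0 p]
      simp only [hupsi]
    simp only [h1]
    refine setIntegral_eq_integral_of_forall_compl_eq_zero fun p hp => ?_
    have hpt : p ∉ tsupport g := fun hin => hp (hgs hin)
    have h2 : g =ᶠ[nhds p] fun _ => 0 := by
      filter_upwards [(isClosed_tsupport g).isOpen_compl.mem_nhds hpt] with q hq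
      exact image_eq_zero_of_notMem_tsupport hq
    rw [levi_congr h2, levi_const]
  rw [← hR, ← htr, hL]

end Pool.Agent.H24.CU
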