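import Mathlib

/-!
# Row DZ (a measure with zero two-dimensional density does not charge holomorphic curves)

PROOFS.  (1) `null_of_lipschitz`.  Fix `ε > 0`.  `S_k = {t ∈ S | ∀ s, 0 < s → s < 1/(k+1) → M (ball (γ t) s) <= ofReal (ε s^2)}`
is increasing in `k` with union `S`, so `M (γ '' S) = ⨆ M (γ '' S_k)` (`Directed`/`Monotone.measure_iUnion`: valid for arbitrary sets).
`S ⊆ [-R, R]^2` (as a subset of `ℂ`).  For `n >= 1` cut the square of side `2R` into `n^2` squares of side `2R/n`, diameter `<= 3R/n`.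
For each small square `Q` meeting `S_k` choose `t_Q` in the intersection: `γ (Q ∩ S) ⊆ ball (γ t_Q) (K' 4R/n)`, `K' = K + 1`.
For `n` large `4 K' R/n < 1/(k+1)`, so `M (γ '' S_k) <= n^2 ofReal (ε (4 K' R/n)^2) = ofReal (16 ε K'^2 R^2)`.
So `M (γ '' S) <= ofReal (16 K'^2 R^2 ε)` for all `ε > 0`, hence `0`.
(2) `null_of_holo`: `U' = U ∩ γ⁻¹ W` is open (`γ` is continuous on `U`); every point of `U'` has a closed disc `D ⊆ U'` around it on which `γ` is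
Lipschitz (`γ` is `C^1` on `U`: holomorphic functions; `DifferentiableOn.contDiffOn`, `ContDiffAt.exists_lipschitzOnWith`); countably many of
them cover `U'` (Lindelöf: `TopologicalSpace.countable_cover_nhdsWithin`).  `M (γ '' U) <= M (γ '' U') + M Wᶜ = 0`.
-/

namespace Pool.Agent.H24.CU

open MeasureTheory

/-- covering estimate -/
theorem DZ_cover (M : Measure (ℂ × ℂ)) (γ : ℂ → ℂ × ℂ) (S : Set ℂ) (K : NNReal) {R ε : ℝ}
    (hR : 0 < R) (hε : 0 < ε) (hS : ∀ z ∈ S, ‖z‖ ≤ R) (hγ : LipschitzOnWith K γ S) {k : ℕ}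
    (h0 : ∀ t ∈ S, ∀ s : ℝ, 0 < s → s < 1 / ((k : ℝ) + 1) →
      M (Metric.ball (γ t) s) ≤ ENNReal.ofReal (ε * s ^ 2)) :
    M (γ '' S) ≤ ENNReal.ofReal (36 * ε * ((K : ℝ) + 1) ^ 2 * R ^ 2) := by
  classical
  have hK0 : (0 : ℝ) ≤ K := K.2
  obtain ⟨n, hn⟩ : ∃ n : ℕ, 2 * ((K : ℝ) + 1) * R * ((k : ℝ) + 1) < n := exists_nat_gt _
  have hnpos : (0 : ℝ) < n := lt_of_le_of_lt (by positivity) hn
  have hn1 : (1 : ℝ) ≤ n := by
    have : 0 < n := by exact_mod_cast hnpos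
    exact_mod_cast this
  obtain ⟨δ, hδ⟩ : ∃ δ : ℝ, δ = R / n := ⟨_, rfl⟩
  have hδ0 : 0 < δ := by rw [hδ]; positivity
  have hs1 : 2 * ((K : ℝ) + 1) * δ < 1 / ((k : ℝ) + 1) := by
    rw [hδ, lt_div_iff₀ (by positivity), mul_div_assoc', div_mul_eq_mul_div, div_lt_one hnpos]
    exact hn
  have hs0 : 0 < 2 * ((K : ℝ) + 1) * δ := by positivity
  -- the squares
  obtain ⟨Q, hQ⟩ : ∃ Q : ℤ × ℤ → Set ℂ, Q = fun p => {z | ⌊z.re / δ⌋ = p.1 ∧ ⌊z.im / δ⌋ = p.2} :=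
    ⟨_, rfl⟩
  obtain ⟨I, hI⟩ : ∃ I : Finset (ℤ × ℤ), I = Finset.Icc (-(n : ℤ)) n ×ˢ Finset.Icc (-(n : ℤ)) n :=
    ⟨_, rfl⟩
  have hfl : ∀ x : ℝ, |x| ≤ R → ⌊x / δ⌋ ∈ Finset.Icc (-(n : ℤ)) n := by
    intro x hx
    have h1 := abs_le.1 hx
    have e1 : R / δ = n := by rw [hδ]; field_simp
    have e2 : x / δ ≤ n := by rw [← e1]; exact (div_le_div_iff_of_pos_right hδ0).2 h1.2
    have e3 : -(n : ℝ) ≤ x / δ := by
      rw [← e1, ← neg_div]; exact (div_le_div_iff_of_pos_right hδ0).2 h1.1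
    rw [Finset.mem_Icc]
    constructor
    · rw [Int.le_floor]; push_cast; exact e3
    · have : ((⌊x / δ⌋ : ℤ) : ℝ) ≤ n := (Int.floor_le _).trans e2
      exact_mod_cast this
  have hcov : γ '' S ⊆ ⋃ p ∈ I, γ '' (S ∩ Q p) := by
    rintro _ ⟨z, hz, rfl⟩
    have hzn := hS z hz
    refine Set.mem_iUnion₂.2 ⟨(⌊z.re / δ⌋, ⌊z.im / δ⌋), ?_, z, ⟨hz, ?_⟩, rfl⟩
    · rw [hI, Finset.mem_product]
      exact ⟨hfl _ ((Complex.abs_re_le_norm z).trans hzn), hfl _ ((Complex.abs_im_le_norm z).trans hzn)⟩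
    · rw [hQ]
      exact ⟨rfl, rfl⟩
  have hclose : ∀ x y : ℝ, ⌊x / δ⌋ = ⌊y / δ⌋ → |x - y| < δ := by
    intro x y h
    have := Int.abs_sub_lt_one_of_floor_eq_floor h
    rw [← sub_div, abs_div, abs_of_pos hδ0, div_lt_one hδ0] at this
    exact this
  have hpiece : ∀ p ∈ I, M (γ '' (S ∩ Q p)) ≤
      ENNReal.ofReal (ε * (2 * ((K : ℝ) + 1) * δ) ^ 2) := by
    intro p _
    rcases (S ∩ Q p).eq_empty_or_nonempty with he | ⟨t, ht⟩
    · rw [he, Set.image_empty, measure_empty]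
      exact bot_le
    · refine le_trans (measure_mono ?_) (h0 t ht.1 _ hs0 hs1)
      rintro _ ⟨z, hz, rfl⟩
      rw [Metric.mem_ball]
      have h1 : dist (γ z) (γ t) ≤ K * dist z t := hγ.dist_le_mul z hz.1 t ht.1
      have h2 : dist z t < 2 * δ := by
        have hz2 := hz.2
        have ht2 := ht.2
        rw [hQ] at hz2 ht2
        have a1 := hclose z.re t.re (hz2.1.trans ht2.1.symm)
        have a2 := hclose z.im t.im (hz2.2.trans ht2.2.symm)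
        rw [dist_eq_norm]
        calc ‖z - t‖ ≤ |(z - t).re| + |(z - t).im| := Complex.norm_le_abs_re_add_abs_im _
          _ < 2 * δ := by
            rw [Complex.sub_re, Complex.sub_im]
            linarith
      calc dist (γ z) (γ t) ≤ K * dist z t := h1
        _ ≤ K * (2 * δ) := mul_le_mul_of_nonneg_left h2.le hK0
        _ < 2 * ((K : ℝ) + 1) * δ := by nlinarith
  have hcard : (I.card : ℝ) ≤ 9 * (n : ℝ) ^ 2 := by
    have h1 : I.card = (2 * n + 1) * (2 * n + 1) := by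
      rw [hI, Finset.card_product, Int.card_Icc]
      have : ((n : ℤ) + 1 - -(n : ℤ)).toNat = 2 * n + 1 := by omega
      rw [this]
    rw [h1]
    push_cast
    nlinarith
  calc M (γ '' S) ≤ M (⋃ p ∈ I, γ '' (S ∩ Q p)) := measure_mono hcov
    _ ≤ ∑ p ∈ I, M (γ '' (S ∩ Q p)) := measure_biUnion_finset_le I _
    _ ≤ ∑ _p ∈ I, ENNReal.ofReal (ε * (2 * ((K : ℝ) + 1) * δ) ^ 2) := Finset.sum_le_sum hpiece
    _ = (I.card : ENNReal) * ENNReal.ofReal (ε * (2 * ((K : ℝ) + 1) * δ) ^ 2) := by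
        rw [Finset.sum_const, nsmul_eq_mul]
    _ = ENNReal.ofReal ((I.card : ℝ) * (ε * (2 * ((K : ℝ) + 1) * δ) ^ 2)) := by
        rw [ENNReal.ofReal_mul (p := (I.card : ℝ)) (by positivity), ENNReal.ofReal_natCast]
    _ ≤ ENNReal.ofReal (36 * ε * ((K : ℝ) + 1) ^ 2 * R ^ 2) := by
        apply ENNReal.ofReal_le_ofReal
        calc (I.card : ℝ) * (ε * (2 * ((K : ℝ) + 1) * δ) ^ 2)
            ≤ 9 * (n : ℝ) ^ 2 * (ε * (2 * ((K : ℝ) + 1) * δ) ^ 2) :=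
              mul_le_mul_of_nonneg_right hcard (by positivity)
          _ = 36 * ε * ((K : ℝ) + 1) ^ 2 * R ^ 2 := by
              rw [hδ]
              field_simp
              ring

theorem null_of_lipschitz (M : Measure (ℂ × ℂ)) (γ : ℂ → ℂ × ℂ) (S : Set ℂ) (K : NNReal)
    (hS : Bornology.IsBounded S) (hγ : LipschitzOnWith K γ S)
    (h0 : ∀ t ∈ S, ∀ ε : ℝ, 0 < ε → ∀ᶠ s in nhdsWithin (0 : ℝ) (Set.Ioi 0),
      M (Metric.ball (γ t) s) ≤ ENNReal.ofReal (ε * s ^ 2)) : M (γ '' S) = 0 := by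
  obtain ⟨R, hR0, hR⟩ : ∃ R : ℝ, 0 < R ∧ ∀ z ∈ S, ‖z‖ ≤ R := by
    obtain ⟨R, hR0, hR⟩ := hS.exists_pos_norm_le
    exact ⟨R, hR0, hR⟩
  have hK0 : (0 : ℝ) ≤ K := K.2
  have key : ∀ ε : ℝ, 0 < ε → M (γ '' S) ≤ ENNReal.ofReal (36 * ε * ((K : ℝ) + 1) ^ 2 * R ^ 2) := by
    intro ε hε
    obtain ⟨T, hT⟩ : ∃ T : ℕ → Set ℂ, T = fun k : ℕ => {t | t ∈ S ∧ ∀ s : ℝ, 0 < s →
        s < 1 / ((k : ℝ) + 1) → M (Metric.ball (γ t) s) ≤ ENNReal.ofReal (ε * s ^ 2)} := ⟨_, rfl⟩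
    have hTmono : Monotone T := by
      intro k l hkl t ht
      rw [hT] at ht ⊢
      refine ⟨ht.1, fun s hs hsl => ht.2 s hs (hsl.trans_le ?_)⟩
      have : (k : ℝ) ≤ l := by exact_mod_cast hkl
      apply one_div_le_one_div_of_le (by positivity)
      linarith
    have hTU : S = ⋃ k, T k := by
      apply Set.Subset.antisymm
      · intro t ht
        have h1 := h0 t ht ε hε
        rw [eventually_nhdsWithin_iff, Metric.eventually_nhds_iff] at h1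
        obtain ⟨r, hr, hr1⟩ := h1
        obtain ⟨k, hk⟩ := exists_nat_one_div_lt hr
        refine Set.mem_iUnion.2 ⟨k, ?_⟩
        rw [hT]
        refine ⟨ht, fun s hs hsk => ?_⟩
        have h2 : dist s 0 < r := by
          rw [Real.dist_eq, sub_zero, abs_of_pos hs]
          exact hsk.trans hk
        exact hr1 h2 hs
      · intro t ht
        obtain ⟨k, hk⟩ := Set.mem_iUnion.1 ht
        rw [hT] at hk
        exact hk.1
    have h2 : γ '' S = ⋃ k, γ '' (T k) := by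
      conv_lhs => rw [hTU]
      exact Set.image_iUnion
    have h3 : Monotone fun k => γ '' (T k) := fun k l hkl => Set.image_mono (hTmono hkl)
    rw [h2, h3.measure_iUnion]
    apply iSup_le
    intro k
    have hsub : T k ⊆ S := fun t ht => by
      rw [hT] at ht
      exact ht.1
    apply DZ_cover M γ (T k) K hR0 hε (fun z hz => hR z (hsub hz)) (hγ.mono hsub) (k := k)
    intro t ht s hs hsk
    rw [hT] at ht
    exact ht.2 s hs hsk
  refine le_antisymm ?_ (by exact bot_le : (0 : ENNReal) ≤ _)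
  apply ENNReal.le_of_forall_pos_le_add
  intro ε hε _
  have hε' : (0 : ℝ) < ε := by exact_mod_cast hε
  obtain ⟨c, hc⟩ : ∃ c : ℝ, c = 36 * ((K : ℝ) + 1) ^ 2 * R ^ 2 := ⟨_, rfl⟩
  have hc0 : 0 < c := by rw [hc]; positivity
  refine (key (ε / c) (by positivity)).trans ?_
  rw [zero_add]
  have h4 : 36 * ((ε : ℝ) / c) * ((K : ℝ) + 1) ^ 2 * R ^ 2 = ε := by
    have : 36 * ((ε : ℝ) / c) * ((K : ℝ) + 1) ^ 2 * R ^ 2 = ε * (36 * ((K : ℝ) + 1) ^ 2 * R ^ 2) / c := by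
      ring
    rw [this, ← hc, mul_div_assoc, div_self hc0.ne', mul_one]
  rw [h4, ENNReal.ofReal_coe_nnreal]

theorem null_of_holo (M : Measure (ℂ × ℂ)) (γ : ℂ → ℂ × ℂ) (U : Set ℂ) (hU : IsOpen U)
    (hγ : DifferentiableOn ℂ γ U) (W : Set (ℂ × ℂ)) (hW : IsOpen W) (hM : M Wᶜ = 0)
    (h0 : ∀ q ∈ W, ∀ ε : ℝ, 0 < ε → ∀ᶠ s in nhdsWithin (0 : ℝ) (Set.Ioi 0),
      M (Metric.ball q s) ≤ ENNReal.ofReal (ε * s ^ 2)) : M (γ '' U) = 0 := by
  have hU' : IsOpen (U ∩ γ ⁻¹' W) := hγ.continuousOn.isOpen_inter_preimage hU hW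
  have hlip : ∀ t ∈ U ∩ γ ⁻¹' W, ∃ K : NNReal, ∃ N ∈ nhds t, LipschitzOnWith K γ N := by
    intro t ht
    have h1 : ContDiffAt ℂ 1 γ t := (hγ.contDiffOn hU).contDiffAt (hU.mem_nhds ht.1)
    exact h1.exists_lipschitzOnWith
  choose! K N hN hKN using hlip
  obtain ⟨f, hf⟩ : ∃ f : ℂ → Set ℂ, f = fun t => N t ∩ Metric.ball t 1 ∩ (U ∩ γ ⁻¹' W) := ⟨_, rfl⟩
  have hfn : ∀ t ∈ U ∩ γ ⁻¹' W, f t ∈ nhdsWithin t (U ∩ γ ⁻¹' W) := by
    intro t ht
    rw [hf]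
    apply mem_nhdsWithin_of_mem_nhds
    exact Filter.inter_mem (Filter.inter_mem (hN t ht) (Metric.ball_mem_nhds t one_pos))
      (hU'.mem_nhds ht)
  obtain ⟨T, hT, hTc, hTU⟩ := TopologicalSpace.countable_cover_nhdsWithin hfn
  have hnull : M (γ '' (U ∩ γ ⁻¹' W)) = 0 := by
    have hsub : γ '' (U ∩ γ ⁻¹' W) ⊆ ⋃ t ∈ T, γ '' (f t) := by
      rw [← Set.image_iUnion₂]
      exact Set.image_mono hTU
    apply measure_mono_null hsub
    rw [measure_biUnion_null_iff hTc]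
    intro t ht
    have htU := hT ht
    apply null_of_lipschitz M γ (f t) (K t)
    · apply (Metric.isBounded_ball (x := t) (r := 1)).subset
      intro z hz
      rw [hf] at hz
      exact hz.1.2
    · apply (hKN t htU).mono
      intro z hz
      rw [hf] at hz
      exact hz.1.1
    · intro z hz ε hε
      rw [hf] at hz
      exact h0 (γ z) hz.2.2 ε hε
  have hsub2 : γ '' U ⊆ γ '' (U ∩ γ ⁻¹' W) ∪ Wᶜ := by
    rintro _ ⟨z, hz, rfl⟩
    by_cases hzW : γ z ∈ W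
    · exact Or.inl ⟨z, ⟨hz, hzW⟩, rfl⟩
    · exact Or.inr hzW
  exact measure_mono_null hsub2 (measure_union_null hnull hM)

end Pool.Agent.H24.CU
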