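import Mathlib

/-!
# Currents on the projective plane in homogeneous coordinates

`V = C^3`.  A smooth form on `P^2` is represented by its pull back to `C^3` minus the origin.
-/

namespace Pool.Agent.H24.CU

open scoped ComplexConjugate ComplexOrder ContDiff LinearAlgebra.Projectivization

/-- Homogeneous coordinates of the projective plane. -/
abbrev V := Fin 3 → ℂ

/-- Squared Euclidean length of `x`. -/
noncomputable def nsq (x : V) : ℝ := ∑ j, Complex.normSq (x j)

/-- The Wirtinger derivative `∂f/∂x_j`. -/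
noncomputable def dz (j : Fin 3) (f : V → ℂ) (x : V) : ℂ :=
  (fderiv ℝ f x (Pi.single j 1) - Complex.I * fderiv ℝ f x (Pi.single j Complex.I)) / 2

/-- The Wirtinger derivative `∂f/∂conj(x_j)`. -/
noncomputable def dzbar (j : Fin 3) (f : V → ℂ) (x : V) : ℂ :=
  (fderiv ℝ f x (Pi.single j 1) + Complex.I * fderiv ℝ f x (Pi.single j Complex.I)) / 2

/-- `u` is (the pull back to `C^3` minus `0` of) a smooth complex function on `P^2`. -/
structure IsFun (u : V → ℂ) : Prop where
  smooth : ContDiffOn ℝ ∞ u {0}ᶜ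
  hom : ∀ (c : ℂ) (x : V), c ≠ 0 → x ≠ 0 → u (c • x) = u x

/-- `∑ z_j dx_j` is (the pull back of) a smooth `(1,0)`-form on `P^2`. -/
structure IsForm10 (z : V → V) : Prop where
  smooth : ContDiffOn ℝ ∞ z {0}ᶜ
  hom : ∀ (c : ℂ) (x : V), c ≠ 0 → x ≠ 0 → z (c • x) = c⁻¹ • z x
  basic : ∀ x : V, x ≠ 0 → ∑ j, x j * z x j = 0

/-- The space of smooth complex `(1,1)`-forms on `P^2`: the matrix field `A` stands for the form
`i ∑ A_jk dx_j ∧ d conj(x_k)` on `C^3` minus `0` (the value at `0` is normalised to be `0`). -/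
def Form11 : Submodule ℂ (V → Matrix (Fin 3) (Fin 3) ℂ) where
  carrier := {A | (∀ j k, ContDiffOn ℝ ∞ (fun x => A x j k) {0}ᶜ) ∧ A 0 = 0 ∧
    (∀ (c : ℂ) (x : V), c ≠ 0 → x ≠ 0 → A (c • x) = ((Complex.normSq c : ℂ))⁻¹ • A x) ∧
    (∀ x : V, x ≠ 0 → (∀ k, ∑ j, x j * A x j k = 0) ∧ (∀ j, ∑ k, A x j k * conj (x k) = 0))}
  add_mem' := by
    rintro A B ⟨h1, h2, h3, h4⟩ ⟨g1, g2, g3, g4⟩
    refine ⟨fun j k => (h1 j k).add (g1 j k), by simp [h2, g2], fun c x hc hx => ?_, fun x hx => ⟨fun k => ?_, fun j => ?_⟩⟩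
    · simp only [Pi.add_apply]
      rw [h3 c x hc hx, g3 c x hc hx, smul_add]
    · have a := (h4 x hx).1 k
      have b := (g4 x hx).1 k
      simp only [Pi.add_apply, Matrix.add_apply, mul_add, Finset.sum_add_distrib, a, b, add_zero]
    · have a := (h4 x hx).2 j
      have b := (g4 x hx).2 j
      simp only [Pi.add_apply, Matrix.add_apply, add_mul, Finset.sum_add_distrib, a, b, add_zero]
  zero_mem' := by
    refine ⟨fun j k => contDiffOn_const, rfl, fun c x hc hx => by simp, fun x hx => ⟨fun k => by simp, fun j => by simp⟩⟩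
  smul_mem' := by
    rintro t A ⟨h1, h2, h3, h4⟩
    refine ⟨fun j k => (h1 j k).const_smul t, by simp [h2], fun c x hc hx => ?_, fun x hx => ⟨fun k => ?_, fun j => ?_⟩⟩
    · simp only [Pi.smul_apply]
      rw [h3 c x hc hx, smul_comm]
    · have a := (h4 x hx).1 k
      simp only [Pi.smul_apply, Matrix.smul_apply, smul_eq_mul]
      rw [← mul_zero t, ← a, Finset.mul_sum]
      exact Finset.sum_congr rfl fun j _ => by ring
    · have a := (h4 x hx).2 j
      simp only [Pi.smul_apply, Matrix.smul_apply, smul_eq_mul]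
      rw [← mul_zero t, ← a, Finset.mul_sum]
      exact Finset.sum_congr rfl fun j _ => by ring

/-- The Fubini-Study form `i ∂ conj∂ log |x|^2`. -/
noncomputable def fubiniStudy (x : V) : Matrix (Fin 3) (Fin 3) ℂ :=
  fun j k => (if j = k then ((nsq x : ℂ))⁻¹ else 0) - conj (x j) * x k / (nsq x : ℂ) ^ 2

/-- Positive currents of bidimension `(1,1)` on `P^2`: linear functionals on smooth `(1,1)`-forms
which are nonnegative on (semi)positive forms. -/
structure PosCurrent where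
  /-- the functional -/
  toLin : Form11 →ₗ[ℂ] ℂ
  /-- positivity -/
  pos : ∀ A : Form11, (∀ x : V, (A.1 x).PosSemidef) → 0 ≤ (toLin A).re ∧ (toLin A).im = 0

/-- `dT = 0`. -/
def PosCurrent.Closed (T : PosCurrent) : Prop :=
  ∀ z : V → V, IsForm10 z →
    (∀ A : Form11, (∀ x : V, x ≠ 0 → ∀ j k, A.1 x j k = dzbar k (fun y => z y j) x) →
      T.toLin A = 0) ∧
    (∀ A : Form11, (∀ x : V, x ≠ 0 → ∀ j k, A.1 x j k = dz j (fun y => conj (z y k)) x) →
      T.toLin A = 0)

/-- `dd^c T = 0`. -/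
def PosCurrent.DdcClosed (T : PosCurrent) : Prop :=
  ∀ u : V → ℂ, IsFun u → ∀ A : Form11,
    (∀ x : V, x ≠ 0 → ∀ j k, A.1 x j k = dz j (dzbar k u) x) → T.toLin A = 0

/-- `T` gives no mass to any algebraic curve `P = 0` of `P^2`: the mass of a compact set is the
infimum of `T(χ ω)` over smooth `χ ≥ 0` with `χ ≥ 1` on the set. -/
def PosCurrent.Diffuse (T : PosCurrent) : Prop :=
  ∀ (n : ℕ) (P : MvPolynomial (Fin 3) ℂ), P.IsHomogeneous n → P ≠ 0 → ∀ ε : ℝ, 0 < ε →
    ∃ (χ : V → ℝ) (A : Form11), IsFun (fun x => (χ x : ℂ)) ∧ (∀ x, 0 ≤ χ x) ∧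
      (∀ x : V, x ≠ 0 → MvPolynomial.eval x P = 0 → 1 ≤ χ x) ∧
      (∀ x : V, x ≠ 0 → A.1 x = (χ x : ℂ) • fubiniStudy x) ∧ (T.toLin A).re < ε

/-- A holomorphic foliation of `P^2` given by a homogeneous polynomial vector field
`F_0 ∂/∂x_0 + F_1 ∂/∂x_1 + F_2 ∂/∂x_2` on `C^3`, with finite singular set. -/
structure Foliation where
  /-- the degree -/
  deg : ℕ
  /-- the components of the vector field -/
  F : Fin 3 → MvPolynomial (Fin 3) ℂ
  hom : ∀ j, (F j).IsHomogeneous deg
  finite_sing : {ℓ : ℙ ℂ V | crossProduct ℓ.rep (fun j => MvPolynomial.eval ℓ.rep (F j)) = 0}.Finite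

/-- The coefficients of the `1`-form `α = ∑ α_j dx_j` on `C^3` defining the foliation (the
contraction of `dx_0 ∧ dx_1 ∧ dx_2` with the radial field and the vector field). -/
noncomputable def Foliation.alpha (𝓕 : Foliation) (x : V) : V :=
  crossProduct x (fun j => MvPolynomial.eval x (𝓕.F j))

/-- `T` is directed by the foliation: `T ∧ α = 0`, i.e. `T` vanishes on all the forms `α ∧ β`
with `β` a smooth `(0,1)`-form with values in the dual line bundle. -/
def PosCurrent.Directed (T : PosCurrent) (𝓕 : Foliation) : Prop :=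
  ∀ (c : V → V) (A : Form11), ContDiffOn ℝ ∞ c {0}ᶜ →
    (∀ x : V, x ≠ 0 → A.1 x = Matrix.vecMulVec (𝓕.alpha x) (c x)) → T.toLin A = 0

/-- The full negative answer. -/
def FinalStatement : Prop :=
  ∀ (𝓕 : Foliation) (T S : PosCurrent),
    T.Directed 𝓕 → T.Closed → T.Diffuse → T.toLin ≠ 0 →
    S.Directed 𝓕 → S.DdcClosed → S.Diffuse → S.Closed

end Pool.Agent.H24.CU
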