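import Pool.Agent.H24.CU.LocDefs

/-!
# Row OD (existence of the local leaf)

PROOF.  `f(z,w) = (X(z,w)).2 / (X(z,w)).1`.  Choose `r1 > 0`, `r1 <= r/2`, with `|(X p).1| >= 1/2` for
`‖p‖ <= r1`; there `|f| <= B` and `|f(z,w) - f(z,w')| <= K |w - w'|` (mean value inequality on the convex
compact ball, `f` is holomorphic near it).  `ρ > 0` with `ρ <= r1`, `ρ B < r1`, `ρ K <= 1/2`.
Picard iteration: `Y_0 = 0`; given `Y_n` holomorphic on `ball 0 ρ`, `|Y_n| < r1`, `Y_n 0 = 0`, let `Y_{n+1}` be the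
primitive of `z ↦ f(z, Y_n z)` on the disc vanishing at `0` (primitives of holomorphic functions on
discs: `DifferentiableOn.isExactOn_ball` / `Complex.IsExactOn` or the series; alternatively
`Y_{n+1}(z) = ∫_0^1 z f(t z, Y_n(t z)) dt`).  `|Y_{n+1} z| <= B |z| < r1` and
`|Y_{n+1} z - Y_n z| <= ρ K sup |Y_n - Y_{n-1}| <= (1/2) sup |..|` (mean value inequality from `0` to `z`).
So `Y_n` converges uniformly on the disc to `Y`; `Y` is holomorphic
(`TendstoLocallyUniformlyOn.differentiableOn`), the derivatives converge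
(`TendstoLocallyUniformlyOn.deriv`), so `Y' z = f(z, Y z)`, `Y 0 = 0`, `|Y z| <= B |z|`.
-/

namespace Pool.Agent.H24.CU

open Metric Filter Topology

/-- the right hand side of the differential equation -/
noncomputable def OD_f (X : ℂ × ℂ → ℂ × ℂ) (p : ℂ × ℂ) : ℂ := (X p).2 * ((X p).1)⁻¹

theorem OD_nz {a : ℂ} (h : ‖a - 1‖ ≤ 1 / 2) : a ≠ 0 := by
  rintro rfl
  rw [zero_sub, norm_neg, norm_one] at h
  norm_num at h

theorem OD_diff {X : ℂ × ℂ → ℂ × ℂ} (hX : Differentiable ℂ X) {p : ℂ × ℂ}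
    (h : ‖(X p).1 - 1‖ ≤ 1 / 2) : DifferentiableAt ℂ (OD_f X) p :=
  ((hX p).snd).mul (((hX p).fst).inv (OD_nz h))

/-- data for the iteration -/
structure OD_D (X : ℂ × ℂ → ℂ × ℂ) (R B : ℝ) : Prop where
  hX : Differentiable ℂ X
  hR : 0 < R
  hB : 0 ≤ B
  one : ∀ p ∈ closedBall (0 : ℂ × ℂ) R, ‖(X p).1 - 1‖ ≤ 1 / 2
  bd : ∀ p ∈ closedBall (0 : ℂ × ℂ) R, ‖OD_f X p‖ ≤ B

theorem OD_data (X : ℂ × ℂ → ℂ × ℂ) (hX : Differentiable ℂ X) (h0 : X 0 = (1, 0)) (r : ℝ)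
    (hr : 0 < r) : ∃ R B, R < r ∧ OD_D X R B := by
  have hc : ContinuousAt (fun p => (X p).1) 0 := (continuous_fst.comp hX.continuous).continuousAt
  obtain ⟨δ, hδ, h1⟩ := Metric.continuousAt_iff.1 hc (1 / 2) (by norm_num)
  have h2 : ∀ p ∈ closedBall (0 : ℂ × ℂ) (min (δ / 2) (r / 2)), ‖(X p).1 - 1‖ ≤ 1 / 2 := by
    intro p hp
    rw [mem_closedBall] at hp
    have h3 : dist p 0 < δ := by
      have := min_le_left (δ / 2) (r / 2)
      linarith
    have h4 := h1 h3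
    rw [h0, dist_eq_norm] at h4
    exact h4.le
  have h5 : ContinuousOn (OD_f X) (closedBall (0 : ℂ × ℂ) (min (δ / 2) (r / 2))) := by
    intro p hp
    exact (OD_diff hX (h2 p hp)).continuousAt.continuousWithinAt
  obtain ⟨B, hB⟩ := (isCompact_closedBall _ _).exists_bound_of_continuousOn h5
  have hR : 0 < min (δ / 2) (r / 2) := lt_min (by positivity) (by positivity)
  refine ⟨min (δ / 2) (r / 2), B, ?_, hX, hR, ?_, h2, hB⟩
  · have := min_le_right (δ / 2) (r / 2)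
    linarith
  · exact (norm_nonneg _).trans (hB 0 (mem_closedBall_self hR.le))

theorem OD_mem {z w : ℂ} {R : ℝ} (hz : ‖z‖ ≤ R) (hw : ‖w‖ ≤ R) :
    (z, w) ∈ closedBall (0 : ℂ × ℂ) R := by
  rw [mem_closedBall, dist_zero_right, Prod.norm_def]
  exact max_le hz hw

theorem OD_lip {X : ℂ × ℂ → ℂ × ℂ} {R B : ℝ} (h : OD_D X R B) {z w w' : ℂ} (hz : ‖z‖ ≤ R)
    (hw : ‖w‖ ≤ R / 2) (hw' : ‖w'‖ ≤ R / 2) :
    ‖OD_f X (z, w') - OD_f X (z, w)‖ ≤ B / (R / 2) * ‖w' - w‖ := by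
  have hR := h.hR
  have hd : ∀ x : ℂ, ‖x‖ ≤ R → DifferentiableAt ℂ (fun w => OD_f X (z, w)) x := by
    intro x hx
    have h1 := OD_diff h.hX (h.one _ (OD_mem hz hx))
    exact DifferentiableAt.comp (g := OD_f X) x h1
      ((differentiableAt_const z).prodMk differentiableAt_id)
  refine Convex.norm_image_sub_le_of_norm_deriv_le (f := fun w => OD_f X (z, w))
    (s := closedBall 0 (R / 2)) ?_ ?_ (convex_closedBall _ _) ?_ ?_
  · intro x hx
    rw [mem_closedBall, dist_zero_right] at hx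
    exact hd x (by linarith)
  · intro x hx
    rw [mem_closedBall, dist_zero_right] at hx
    refine Complex.norm_deriv_le_of_forall_mem_sphere_norm_le (by positivity) ?_ ?_
    · refine DifferentiableOn.diffContOnCl ?_
      intro y hy
      refine (hd y ?_).differentiableWithinAt
      have h2 := closure_ball_subset_closedBall hy
      rw [mem_closedBall, dist_eq_norm] at h2
      have h3 := norm_sub_norm_le y x
      linarith
    · intro y hy
      rw [mem_sphere, dist_eq_norm] at hy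
      have h3 := norm_sub_norm_le y x
      exact h.bd _ (OD_mem hz (by linarith))
  · rw [mem_closedBall, dist_zero_right]
    exact hw
  · rw [mem_closedBall, dist_zero_right]
    exact hw'

theorem OD_step {X : ℂ × ℂ → ℂ × ℂ} {R B ρ : ℝ} (h : OD_D X R B) (hρ : 0 < ρ) (hρR : ρ ≤ R)
    (hρB : B * ρ ≤ R / 2) (Y : ℂ → ℂ) (hY : DifferentiableOn ℂ Y (ball 0 ρ))
    (hYb : ∀ z ∈ ball (0 : ℂ) ρ, ‖Y z‖ ≤ R / 2) :
    ∃ W : ℂ → ℂ, W 0 = 0 ∧ (∀ z ∈ ball (0 : ℂ) ρ, HasDerivAt W (OD_f X (z, Y z)) z) ∧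
      ∀ z ∈ ball (0 : ℂ) ρ, ‖W z‖ ≤ R / 2 := by
  have hR := h.hR
  have hb : ∀ z ∈ ball (0 : ℂ) ρ, (z, Y z) ∈ closedBall (0 : ℂ × ℂ) R := by
    intro z hz
    have h1 := hYb z hz
    rw [mem_ball, dist_zero_right] at hz
    exact OD_mem (by linarith) (by linarith)
  have hd : DifferentiableOn ℂ (fun z => OD_f X (z, Y z)) (ball 0 ρ) := by
    intro z hz
    have h1 := OD_diff h.hX (h.one _ (hb z hz))
    have h2 : DifferentiableWithinAt ℂ (fun z => (z, Y z)) (ball 0 ρ) z :=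
      differentiableWithinAt_id.prodMk (hY z hz)
    exact DifferentiableAt.comp_differentiableWithinAt (g := OD_f X) z h1 h2
  obtain ⟨W, hW0, hW⟩ := hd.isExactOn_ball.with_val_at 0 0
  refine ⟨W, hW0, hW, ?_⟩
  intro z hz
  have h1 := Convex.norm_image_sub_le_of_norm_hasDerivWithin_le (f := W)
    (f' := fun z => OD_f X (z, Y z)) (s := ball (0 : ℂ) ρ) (C := B) (x := 0) (y := z)
    (fun x hx => (hW x hx).hasDerivWithinAt) (fun x hx => h.bd _ (hb x hx)) (convex_ball _ _)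
    (mem_ball_self hρ) hz
  rw [hW0, sub_zero, sub_zero] at h1
  rw [mem_ball, dist_zero_right] at hz
  have h2 : B * ‖z‖ ≤ B * ρ := mul_le_mul_of_nonneg_left hz.le h.hB
  linarith

theorem OD_contr {X : ℂ × ℂ → ℂ × ℂ} {R B ρ : ℝ} (h : OD_D X R B) (hρ : 0 < ρ) (hρR : ρ ≤ R)
    (hρK : B / (R / 2) * ρ ≤ 1 / 2) (Y Y' W W' : ℂ → ℂ)
    (hYb : ∀ z ∈ ball (0 : ℂ) ρ, ‖Y z‖ ≤ R / 2) (hYb' : ∀ z ∈ ball (0 : ℂ) ρ, ‖Y' z‖ ≤ R / 2)
    (hW0 : W 0 = 0) (hW0' : W' 0 = 0)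
    (hW : ∀ z ∈ ball (0 : ℂ) ρ, HasDerivAt W (OD_f X (z, Y z)) z)
    (hW' : ∀ z ∈ ball (0 : ℂ) ρ, HasDerivAt W' (OD_f X (z, Y' z)) z)
    (D : ℝ) (hD : ∀ z ∈ ball (0 : ℂ) ρ, ‖Y' z - Y z‖ ≤ D) :
    ∀ z ∈ ball (0 : ℂ) ρ, ‖W' z - W z‖ ≤ D / 2 := by
  intro z hz
  have hR := h.hR
  have hD0 : 0 ≤ D := (norm_nonneg _).trans (hD 0 (mem_ball_self hρ))
  have hK0 : 0 ≤ B / (R / 2) := div_nonneg h.hB (by positivity)
  have h1 := Convex.norm_image_sub_le_of_norm_hasDerivWithin_le (f := fun z => W' z - W z)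
    (f' := fun z => OD_f X (z, Y' z) - OD_f X (z, Y z)) (s := ball (0 : ℂ) ρ)
    (C := B / (R / 2) * D) (x := 0) (y := z)
    (fun x hx => ((hW' x hx).sub (hW x hx)).hasDerivWithinAt)
    (fun x hx => by
      have hx' : ‖x‖ ≤ R := by
        rw [mem_ball, dist_zero_right] at hx
        linarith
      exact (OD_lip h hx' (hYb x hx) (hYb' x hx)).trans
        (mul_le_mul_of_nonneg_left (hD x hx) hK0)) (convex_ball _ _)
    (mem_ball_self hρ) hz
  simp only [hW0, hW0', sub_zero] at h1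
  rw [mem_ball, dist_zero_right] at hz
  have h2 : B / (R / 2) * D * ‖z‖ ≤ B / (R / 2) * D * ρ :=
    mul_le_mul_of_nonneg_left hz.le (mul_nonneg hK0 hD0)
  have h3 : B / (R / 2) * D * ρ = (B / (R / 2) * ρ) * D := by ring
  have h4 : (B / (R / 2) * ρ) * D ≤ 1 / 2 * D := mul_le_mul_of_nonneg_right hρK hD0
  linarith

theorem exists_leaf (X : ℂ × ℂ → ℂ × ℂ) (hX : Differentiable ℂ X) (h0 : X 0 = (1, 0)) (r : ℝ)
    (hr : 0 < r) : ∃ (ρ : ℝ) (Y : ℂ → ℂ), Leaf X r ρ Y := by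
  obtain ⟨R, B, hRr, h⟩ := OD_data X hX h0 r hr
  have hR := h.hR
  have hB := h.hB
  -- the radius
  obtain ⟨ρ, hρ⟩ : ∃ ρ, ρ = R / (4 * (B + 1)) := ⟨_, rfl⟩
  have hρ0 : 0 < ρ := by rw [hρ]; positivity
  have hρR : ρ ≤ R := by
    rw [hρ, div_le_iff₀ (by positivity)]
    nlinarith
  have hρB : B * ρ ≤ R / 2 := by
    rw [hρ, mul_div_assoc', div_le_div_iff₀ (by positivity) (by norm_num)]
    nlinarith
  have hρK : B / (R / 2) * ρ ≤ 1 / 2 := by
    have e : B / (R / 2) * ρ = 2 * B / (4 * (B + 1)) := by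
      rw [hρ]
      field_simp
    rw [e, div_le_div_iff₀ (by positivity) (by norm_num)]
    linarith
  -- the iteration
  let S : Type := {Y : ℂ → ℂ // DifferentiableOn ℂ Y (ball 0 ρ) ∧
    ∀ z ∈ ball (0 : ℂ) ρ, ‖Y z‖ ≤ R / 2}
  have hT : ∀ Y : S, ∃ W : S, W.1 0 = 0 ∧
      ∀ z ∈ ball (0 : ℂ) ρ, HasDerivAt W.1 (OD_f X (z, Y.1 z)) z := by
    intro Y
    obtain ⟨W, h1, h2, h3⟩ := OD_step h hρ0 hρR hρB Y.1 Y.2.1 Y.2.2
    exact ⟨⟨W, fun z hz => (h2 z hz).differentiableAt.differentiableWithinAt, h3⟩, h1, h2⟩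
  choose T hT0 hTd using hT
  have hC : ∀ (Y Y' : S) (D : ℝ), (∀ z ∈ ball (0 : ℂ) ρ, ‖Y'.1 z - Y.1 z‖ ≤ D) →
      ∀ z ∈ ball (0 : ℂ) ρ, ‖(T Y').1 z - (T Y).1 z‖ ≤ D / 2 := by
    intro Y Y' D hD
    exact OD_contr h hρ0 hρR hρK Y.1 Y'.1 (T Y).1 (T Y').1 Y.2.2 Y'.2.2 (hT0 Y) (hT0 Y')
      (hTd Y) (hTd Y') D hD
  let Y0 : S := ⟨fun _ => 0, differentiableOn_const _, fun z _ => by
    rw [norm_zero]
    positivity⟩
  let Yn : ℕ → S := fun n => T^[n] Y0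
  have hYs : ∀ n, Yn (n + 1) = T (Yn n) := fun n => Function.iterate_succ_apply' T n Y0
  have hdist : ∀ n, ∀ z ∈ ball (0 : ℂ) ρ, ‖(Yn (n + 1)).1 z - (Yn n).1 z‖ ≤ R * (1 / 2) ^ n := by
    intro n
    induction n with
    | zero =>
      intro z hz
      rw [pow_zero, mul_one]
      have h1 := (Yn 1).2.2 z hz
      have h2 := (Yn 0).2.2 z hz
      have h3 := norm_sub_le ((Yn 1).1 z) ((Yn 0).1 z)
      linarith
    | succ n ih =>
      intro z hz
      rw [hYs (n + 1), hYs n]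
      have h1 := hC (Yn n) (Yn (n + 1)) _ ih z hz
      rw [hYs n] at h1
      refine h1.trans (le_of_eq ?_)
      rw [pow_succ]
      ring
  have hd' : ∀ z ∈ ball (0 : ℂ) ρ, ∀ n, dist ((Yn n).1 z) ((Yn (n + 1)).1 z) ≤
      R * (1 / 2) ^ n := by
    intro z hz n
    rw [dist_comm, dist_eq_norm]
    exact hdist n z hz
  have hlim : ∀ z ∈ ball (0 : ℂ) ρ, ∃ y, Tendsto (fun n => (Yn n).1 z) atTop (𝓝 y) := by
    intro z hz
    exact cauchySeq_tendsto_of_complete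
      (cauchySeq_of_le_geometric (1 / 2) R (by norm_num) (hd' z hz))
  obtain ⟨Y, hY⟩ : ∃ Y : ℂ → ℂ, ∀ z ∈ ball (0 : ℂ) ρ,
      Tendsto (fun n => (Yn n).1 z) atTop (𝓝 (Y z)) := by
    classical
    refine ⟨fun z => if hz : z ∈ ball (0 : ℂ) ρ then (hlim z hz).choose else 0, ?_⟩
    intro z hz
    simp only [dif_pos hz]
    exact (hlim z hz).choose_spec
  have hconv : ∀ n, ∀ z ∈ ball (0 : ℂ) ρ, ‖Y z - (Yn n).1 z‖ ≤ 2 * R * (1 / 2) ^ n := by
    intro n z hz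
    have h1 := dist_le_of_le_geometric_of_tendsto (1 / 2) R (by norm_num) (hd' z hz) (hY z hz) n
    rw [dist_comm, dist_eq_norm] at h1
    refine h1.trans (le_of_eq ?_)
    ring
  have h2p : Tendsto (fun n : ℕ => 2 * R * (1 / 2 : ℝ) ^ n) atTop (𝓝 0) := by
    have h1 := (tendsto_pow_atTop_nhds_zero_of_lt_one (r := (1 / 2 : ℝ)) (by norm_num)
      (by norm_num)).const_mul (2 * R)
    rwa [mul_zero] at h1
  have hunif : TendstoUniformlyOn (fun n => (Yn n).1) Y atTop (ball (0 : ℂ) ρ) := by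
    rw [Metric.tendstoUniformlyOn_iff]
    intro ε hε
    filter_upwards [h2p.eventually (gt_mem_nhds hε)] with n hn z hz
    rw [dist_eq_norm]
    exact (hconv n z hz).trans_lt hn
  have hYd : DifferentiableOn ℂ Y (ball 0 ρ) :=
    hunif.tendstoLocallyUniformlyOn.differentiableOn
      (Eventually.of_forall fun n => (Yn n).2.1) isOpen_ball
  have hYb : ∀ z ∈ ball (0 : ℂ) ρ, ‖Y z‖ ≤ R / 2 := by
    intro z hz
    exact le_of_tendsto (hY z hz).norm (Eventually.of_forall fun n => (Yn n).2.2 z hz)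
  let Ys : S := ⟨Y, hYd, hYb⟩
  have hfix : ∀ z ∈ ball (0 : ℂ) ρ, (T Ys).1 z = Y z := by
    intro z hz
    have h1 : ∀ n, ‖(T Ys).1 z - (Yn (n + 1)).1 z‖ ≤ 2 * R * (1 / 2) ^ n := by
      intro n
      rw [hYs n]
      have h2 := hC (Yn n) Ys _ (hconv n) z hz
      have h3 : 0 ≤ 2 * R * (1 / 2 : ℝ) ^ n := by positivity
      linarith
    have h2 : Tendsto (fun n => (Yn (n + 1)).1 z) atTop (𝓝 (Y z)) :=
      (hY z hz).comp (tendsto_add_atTop_nat 1)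
    have h3 : Tendsto (fun n => (Yn (n + 1)).1 z) atTop (𝓝 ((T Ys).1 z)) := by
      rw [tendsto_iff_norm_sub_tendsto_zero]
      refine squeeze_zero (fun n => norm_nonneg _) (fun n => ?_) h2p
      rw [norm_sub_rev]
      exact h1 n
    exact tendsto_nhds_unique h3 h2
  have hder : ∀ z ∈ ball (0 : ℂ) ρ, HasDerivAt Y (OD_f X (z, Y z)) z := by
    intro z hz
    refine (hTd Ys z hz).congr_of_eventuallyEq ?_
    filter_upwards [isOpen_ball.mem_nhds hz] with w hw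
    exact (hfix w hw).symm
  have hmem : ∀ z ∈ ball (0 : ℂ) ρ, (z, Y z) ∈ closedBall (0 : ℂ × ℂ) R := by
    intro z hz
    have h1 := hYb z hz
    rw [mem_ball, dist_zero_right] at hz
    exact OD_mem (by linarith) (by linarith)
  refine ⟨ρ, Y, hρ0, hYd, ?_, ?_, ?_, ?_⟩
  · rw [← hfix 0 (mem_ball_self hρ0)]
    exact hT0 Ys
  · intro z hz
    exact closedBall_subset_ball hRr (hmem z hz)
  · intro z hz
    exact OD_nz (h.one _ (hmem z hz))
  · intro z hz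
    rw [(hder z hz).deriv]
    unfold OD_f
    rw [mul_assoc, inv_mul_cancel₀ (OD_nz (h.one _ (hmem z hz))), mul_one]

end Pool.Agent.H24.CU
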