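import Pool.Agent.H24.CU.LocDefs

/-!
# Row SA (annuli on the leaf)

PROOF.  `Γ t = {p | ‖p.1‖ <= t ∧ p.2 = Y p.1}`.  Lower bound `M (Γ t) >= c t^2` for `t < b₀`; upper bound:
`|Y z| <= K |z|` for small `z` (`Y` holomorphic at `0`, `Y 0 = 0`: difference quotient bounded near `0`), so
`Γ t ⊆ ball 0 ((K + 2) t)` and `M (Γ t) <= C (K+2)^2 t^2` for small `t` (`hmass`).
Choose `Λ > 1` with `C (K+2)^2 / Λ^2 <= c/2`.  Then
`M (Γ t \ Γ (t/Λ)) >= c t^2 - C (K+2)^2 t^2/Λ^2 >= (c/2) t^2`.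
-/

namespace Pool.Agent.H24.CU

open MeasureTheory

theorem annulus_mass {X : ℂ × ℂ → ℂ × ℂ} {r ρ : ℝ} {M : Measure (ℂ × ℂ)} [IsFiniteMeasure M]
    {Y : ℂ → ℂ} (hY : Leaf X r ρ Y) (C r' : ℝ) (hC : 0 < C) (hr' : 0 < r')
    (hmass : ∀ s : ℝ, 0 < s → s < r' → (M (Metric.ball 0 s)).toReal ≤ C * s ^ 2)
    (c b₀ : ℝ) (hc : 0 < c) (hb : 0 < b₀) (hbρ : b₀ < ρ)
    (hp : ∀ b : ℝ, 0 < b → b < b₀ →
      c * b ^ 2 ≤ (M {p : ℂ × ℂ | ‖p.1‖ ≤ b ∧ p.2 = Y p.1}).toReal) :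
    ∃ Λ c' t₀ : ℝ, 1 < Λ ∧ 0 < c' ∧ 0 < t₀ ∧ t₀ < b₀ ∧ ∀ t : ℝ, 0 < t → t ≤ t₀ →
      c' * t ^ 2 ≤ (M {p : ℂ × ℂ | t / Λ < ‖p.1‖ ∧ ‖p.1‖ ≤ t ∧ p.2 = Y p.1}).toReal := by
  have hd : DifferentiableAt ℂ Y 0 :=
    hY.hol.differentiableAt (Metric.ball_mem_nhds 0 hY.pos)
  have hO := hd.hasFDerivAt.isBigO_sub
  obtain ⟨K, hK, hKO⟩ := hO.exists_nonneg
  rw [Asymptotics.isBigOWith_iff, Metric.eventually_nhds_iff] at hKO
  obtain ⟨δ, hδ, hKδ⟩ := hKO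
  have hKz : ∀ z : ℂ, ‖z‖ < δ → ‖Y z‖ ≤ K * ‖z‖ := by
    intro z hz
    have := hKδ (y := z) (by simpa [dist_eq_norm] using hz)
    simpa [hY.zero] using this
  set Q : ℝ := C * (K + 2) ^ 2 with hQ
  have hQ0 : 0 < Q := by positivity
  set Λ : ℝ := 1 + 2 * Q / c with hΛ
  have hΛ1 : 1 < Λ := by
    have : 0 < 2 * Q / c := by positivity
    linarith
  have hΛ0 : 0 < Λ := by linarith
  have hΛ2 : Q / Λ ^ 2 ≤ c / 2 := by
    rw [div_le_iff₀ (by positivity)]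
    have h1 : Λ ≤ Λ ^ 2 := by nlinarith
    have h2 : 2 * Q / c ≤ Λ ^ 2 := by linarith
    have h3 : 2 * Q ≤ Λ ^ 2 * c := by rwa [div_le_iff₀ hc] at h2
    linarith
  set t₀ : ℝ := min (b₀ / 2) (min (δ / 2) (r' / (K + 2) / 2)) with ht₀
  have hK2 : 0 < K + 2 := by linarith
  have ht₀0 : 0 < t₀ := by
    refine lt_min (by positivity) (lt_min (by positivity) (by positivity))
  have ht₀b : t₀ < b₀ := lt_of_le_of_lt (min_le_left _ _) (by linarith)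
  have ht₀δ : t₀ < δ := lt_of_le_of_lt ((min_le_right _ _).trans (min_le_left _ _)) (by linarith)
  have ht₀r : (K + 2) * t₀ < r' := by
    have h1 : t₀ ≤ r' / (K + 2) / 2 := (min_le_right _ _).trans (min_le_right _ _)
    have h2 : (K + 2) * t₀ ≤ (K + 2) * (r' / (K + 2) / 2) := by gcongr
    have h3 : (K + 2) * (r' / (K + 2) / 2) = r' / 2 := by field_simp
    linarith
  have hup : ∀ s : ℝ, 0 < s → s ≤ t₀ →
      (M {p : ℂ × ℂ | ‖p.1‖ ≤ s ∧ p.2 = Y p.1}).toReal ≤ Q * s ^ 2 := by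
    intro s hs hst
    have hsub : {p : ℂ × ℂ | ‖p.1‖ ≤ s ∧ p.2 = Y p.1} ⊆ Metric.ball 0 ((K + 2) * s) := by
      rintro ⟨z, w⟩ ⟨h1, h2⟩
      simp only at h1 h2
      subst h2
      rw [mem_ball_zero_iff, Prod.norm_def, max_lt_iff]
      constructor
      · simp only
        nlinarith
      · simp only
        have h3 := hKz z (by linarith)
        have h4 : K * ‖z‖ ≤ K * s := by gcongr
        nlinarith
    have h5 := hmass ((K + 2) * s) (by positivity) (by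
      have : (K + 2) * s ≤ (K + 2) * t₀ := by gcongr
      linarith)
    have h6 : (M {p : ℂ × ℂ | ‖p.1‖ ≤ s ∧ p.2 = Y p.1}).toReal ≤
        (M (Metric.ball 0 ((K + 2) * s))).toReal :=
      ENNReal.toReal_mono (measure_ne_top _ _) (measure_mono hsub)
    calc _ ≤ _ := h6
      _ ≤ C * ((K + 2) * s) ^ 2 := h5
      _ = Q * s ^ 2 := by rw [hQ]; ring
  refine ⟨Λ, c / 2, t₀, hΛ1, by positivity, ht₀0, ht₀b, ?_⟩
  intro t ht htt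
  have hlow := hp t ht (by linarith)
  have htΛ : 0 < t / Λ := by positivity
  have htΛt : t / Λ ≤ t := div_le_self ht.le hΛ1.le
  have hupp := hup (t / Λ) htΛ (htΛt.trans htt)
  have hcov : {p : ℂ × ℂ | ‖p.1‖ ≤ t ∧ p.2 = Y p.1} ⊆
      {p : ℂ × ℂ | ‖p.1‖ ≤ t / Λ ∧ p.2 = Y p.1} ∪
        {p : ℂ × ℂ | t / Λ < ‖p.1‖ ∧ ‖p.1‖ ≤ t ∧ p.2 = Y p.1} := by
    rintro p ⟨h1, h2⟩
    by_cases h : ‖p.1‖ ≤ t / Λ
    · exact Or.inl ⟨h, h2⟩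
    · exact Or.inr ⟨not_le.1 h, h1, h2⟩
  have h7 : (M {p : ℂ × ℂ | ‖p.1‖ ≤ t ∧ p.2 = Y p.1}).toReal ≤
      (M {p : ℂ × ℂ | ‖p.1‖ ≤ t / Λ ∧ p.2 = Y p.1}).toReal +
        (M {p : ℂ × ℂ | t / Λ < ‖p.1‖ ∧ ‖p.1‖ ≤ t ∧ p.2 = Y p.1}).toReal := by
    rw [← ENNReal.toReal_add (measure_ne_top _ _) (measure_ne_top _ _)]
    exact ENNReal.toReal_mono (by finiteness) ((measure_mono hcov).trans (measure_union_le _ _))
  have h8 : Q * (t / Λ) ^ 2 ≤ c / 2 * t ^ 2 := by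
    have : Q * (t / Λ) ^ 2 = Q / Λ ^ 2 * t ^ 2 := by
      field_simp
    rw [this]
    gcongr
  linarith

end Pool.Agent.H24.CU
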