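import Pool.Agent.H24.CU.Basic

/-!
# Row SG (Siegel lemma: polynomials vanishing to high order along a germ of curve)

PROOF.  For `c : Fin (l+1) × Fin (l+1) → ℂ` let
`P_c = ∑_{(a,b)} c_ab X_0^a X_1^b X_2^(2l - a - b)` (`a + b <= 2 l`), homogeneous of degree `2 l`, linear in
`c`; it is nonzero if `c ≠ 0` (distinct monomials: coefficient at the exponent `(a, b, 2l-a-b)`).
The map `c ↦ (iteratedDeriv i (fun z => eval (γ z) P_c) 0)_{i < m}` is linear (the functions are
analytic at `0`, `iteratedDeriv` is additive on functions smooth at `0`; `AnalyticAt.contDiffAt`) from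
a space of dimension `(l+1)^2` to one of dimension `m < (l+1)^2`, so it has a nonzero kernel
(`LinearMap.exists_ne_zero_..`/ rank-nullity, `LinearMap.ker_ne_bot_of_finrank_lt`).
-/

namespace Pool.Agent.H24.CU

noncomputable def SG_e (l : ℕ) (p : Fin (l + 1) × Fin (l + 1)) : Fin 3 →₀ ℕ :=
  Finsupp.single 0 (p.1 : ℕ) + Finsupp.single 1 (p.2 : ℕ) +
    Finsupp.single 2 (2 * l - (p.1 : ℕ) - (p.2 : ℕ))

theorem SG_e_inj (l : ℕ) : Function.Injective (SG_e l) := by
  intro p q h
  have h0 := DFunLike.congr_fun h 0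
  have h1 := DFunLike.congr_fun h 1
  simp [SG_e] at h0 h1
  exact Prod.ext (Fin.ext h0) (Fin.ext h1)

theorem SG_analytic {γ : ℂ → V} (hγ : AnalyticAt ℂ γ 0) (P : MvPolynomial (Fin 3) ℂ) :
    AnalyticAt ℂ (fun z => MvPolynomial.eval (γ z) P) 0 := by
  induction P using MvPolynomial.induction_on with
  | C a =>
    have h : (fun z => MvPolynomial.eval (γ z) (MvPolynomial.C a)) = fun _ => a := by
      funext z
      simp
    rw [h]
    exact analyticAt_const
  | add f g hf hg =>
    have h : (fun z => MvPolynomial.eval (γ z) (f + g)) =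
        fun z => MvPolynomial.eval (γ z) f + MvPolynomial.eval (γ z) g := by
      funext z
      simp
    rw [h]
    exact hf.add hg
  | mul_X f i hf =>
    have h : (fun z => MvPolynomial.eval (γ z) (f * MvPolynomial.X i)) =
        fun z => MvPolynomial.eval (γ z) f * γ z i := by
      funext z
      simp
    rw [h]
    refine hf.mul ?_
    exact ((ContinuousLinearMap.proj (R := ℂ) (φ := fun _ : Fin 3 => ℂ) i).analyticAt (γ 0)).comp hγ

theorem exists_poly_vanishing (γ : ℂ → V) (hγ : AnalyticAt ℂ γ 0) (m l : ℕ) (h : m < (l + 1) ^ 2) :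
    ∃ P : MvPolynomial (Fin 3) ℂ, P.IsHomogeneous (2 * l) ∧ P ≠ 0 ∧
      ∀ i < m, iteratedDeriv i (fun z => MvPolynomial.eval (γ z) P) 0 = 0 := by
  classical
  obtain ⟨Φ, hΦ⟩ : ∃ Φ : (Fin (l + 1) × Fin (l + 1) → ℂ) →ₗ[ℂ] (Fin m → ℂ), ∀ c i,
      Φ c i = ∑ p, c p * iteratedDeriv (i : ℕ)
        (fun z => MvPolynomial.eval (γ z) (MvPolynomial.monomial (SG_e l p) 1)) 0 :=
    ⟨{ toFun := fun c i => ∑ p, c p * iteratedDeriv (i : ℕ)
          (fun z => MvPolynomial.eval (γ z) (MvPolynomial.monomial (SG_e l p) 1)) 0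
       map_add' := by
        intro c d
        funext i
        simp only [Pi.add_apply, add_mul, Finset.sum_add_distrib]
       map_smul' := by
        intro a c
        funext i
        simp only [Pi.smul_apply, smul_eq_mul, RingHom.id_apply, Finset.mul_sum, mul_assoc] },
      fun c i => rfl⟩
  have hker : LinearMap.ker Φ ≠ ⊥ := by
    apply LinearMap.ker_ne_bot_of_finrank_lt
    rw [Module.finrank_fin_fun, Module.finrank_fintype_fun_eq_card, Fintype.card_prod,
      Fintype.card_fin]
    nlinarith
  obtain ⟨c, hc, hc0⟩ := Submodule.exists_mem_ne_zero_of_ne_bot hker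
  rw [LinearMap.mem_ker] at hc
  refine ⟨∑ p, MvPolynomial.monomial (SG_e l p) (c p), ?_, ?_, ?_⟩
  · apply MvPolynomial.IsHomogeneous.sum
    intro p _
    apply MvPolynomial.isHomogeneous_monomial
    have h1 := p.1.isLt
    have h2 := p.2.isLt
    simp only [SG_e, map_add, Finsupp.degree_single]
    omega
  · intro h0
    apply hc0
    funext p
    have h1 := congrArg (MvPolynomial.coeff (SG_e l p)) h0
    rw [MvPolynomial.coeff_sum, Finset.sum_eq_single p] at h1
    · simpa using h1
    · intro q _ hq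
      rw [MvPolynomial.coeff_monomial, if_neg]
      intro h2
      exact hq (SG_e_inj l h2)
    · intro hp
      exact absurd (Finset.mem_univ p) hp
  · intro i hi
    have h1 : (fun z => MvPolynomial.eval (γ z) (∑ p, MvPolynomial.monomial (SG_e l p) (c p))) =
        fun z => ∑ p, c p * MvPolynomial.eval (γ z) (MvPolynomial.monomial (SG_e l p) 1) := by
      funext z
      rw [map_sum]
      refine Finset.sum_congr rfl fun p _ => ?_
      have h2 : MvPolynomial.monomial (SG_e l p) (c p) =
          MvPolynomial.C (c p) * MvPolynomial.monomial (SG_e l p) 1 := by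
        rw [MvPolynomial.C_mul_monomial, mul_one]
      rw [h2, map_mul, MvPolynomial.eval_C]
    have hcd : ∀ p, ContDiffAt ℂ i
        (fun z => MvPolynomial.eval (γ z) (MvPolynomial.monomial (SG_e l p) 1)) 0 := fun p =>
      (SG_analytic hγ _).contDiffAt
    rw [h1, iteratedDeriv_fun_sum fun p _ => contDiffAt_const.mul (hcd p)]
    have h3 := congrFun hc ⟨i, hi⟩
    rw [hΦ] at h3
    simp only [Pi.zero_apply] at h3
    refine Eq.trans (Finset.sum_congr rfl fun p _ => ?_) h3
    exact iteratedDeriv_const_mul (c p) (hcd p)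

end Pool.Agent.H24.CU
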