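import Pool.Agent.H24.CU.SM
import Pool.Agent.H24.CU.SA
import Pool.Agent.H24.CU.SG
import Pool.Agent.H24.CU.B1
import Pool.Agent.H24.CU.OD

/-!
# Row LZ (zero Lelong numbers off the singular set)

PROOF.  Suppose not: there is `ν₁ > 0` with `ν₁ s^2 <= μ {tau y₀ y < s^2}` frequently as `s → 0+`
(the ratio is `>= 0`).  Chart at `y₀` (`exists_chart`, `Chart.loc`), `cone_of_tau` and `Chart.compare`:
`μ {tau < s^2} <= μ (cone (ball 0 (K s))) <= C M (ball 0 (K s))` for small `s` (`μ` is carried by the sphere),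
so `ν s^2 <= M (ball 0 s)` frequently, `ν = ν₁/(C K^2)` (rescale `s`).
`exists_leaf`, `plaque_mass`, `Loc.mass`, `annulus_mass`, `order_le`: `κ > 0`.
Choose `l` with `(l+1)^2 > m := ⌊2 l/κ⌋ + 1` (possible for large `l`), so `κ m > 2 l`.
`γ z = psi (z, Y z)` is analytic at `0` (`Y` is holomorphic near `0`).  `P` from `exists_poly_vanishing`
(degree `2 l`), `a z = eval (γ z) P` analytic at `0`, with `iteratedDeriv i a 0 = 0` for `i < m`.
Case 1: `a` is not eventually `0` at `0`: `a z = z^m' f z` near `0`, `f` analytic, `f 0 ≠ 0`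
(`AnalyticAt.exists_eventuallyEq_pow_smul_nonzero_iff` or `analyticOrderAt`), and `m' >= m` because the
derivatives of order `< m` vanish (if `m' < m` then `iteratedDeriv m' a 0 = m'! f 0 ≠ 0`), `m' >= 1`; `order_le`:
`κ m' <= 2 l < κ m <= κ m'`, a contradiction.
Case 2: `a = 0` near `0`: for small `b` the set `Γ b = {‖p.1‖ <= b, p.2 = Y p.1}` satisfies
`cone (Γ b) ⊆ {P = 0}` (homogeneity: `eval (t • psi p) P = t^(2l) eval (psi p) P`), and
`μ (cone (Γ b)) >= c₁ M (Γ b) > 0` (`Chart.compare`, `plaque_mass`), contradicting `hcurve`.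
-/

namespace Pool.Agent.H24.CU

open MeasureTheory Filter
open scoped Topology

private theorem LZ_eval (P : MvPolynomial (Fin 3) ℂ) (n : ℕ) (hP : P.IsHomogeneous n) (c : ℂ)
    (x : V) : MvPolynomial.eval (c • x) P = c ^ n * MvPolynomial.eval x P := by
  rw [MvPolynomial.eval_eq', MvPolynomial.eval_eq', Finset.mul_sum]
  refine Finset.sum_congr rfl fun d hd => ?_
  have h1 := hP (MvPolynomial.mem_support_iff.1 hd)
  have h2 : ∑ i, d i = n := by
    rw [← h1, Finsupp.weight_apply, Finsupp.sum_fintype _ _ (by simp)]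
    simp
  have h3 : ∏ i, (c • x) i ^ d i = c ^ n * ∏ i, x i ^ d i := by
    rw [← h2, ← Finset.prod_pow_eq_pow_sum, ← Finset.prod_mul_distrib]
    refine Finset.prod_congr rfl fun i _ => ?_
    rw [Pi.smul_apply, smul_eq_mul, mul_pow]
  rw [h3]
  ring

theorem lelong_zero (𝓕 : Foliation) (μ : Measure V) (hμ : Harm 𝓕 μ)
    (hcurve : ∀ (n : ℕ) (P : MvPolynomial (Fin 3) ℂ), P.IsHomogeneous n → P ≠ 0 →
      μ {x | MvPolynomial.eval x P = 0} = 0)
    (y₀ : V) (h1 : nsq y₀ = 1) (h0 : 𝓕.alpha y₀ ≠ 0) :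
    Tendsto (fun s : ℝ => (μ {y | tau y₀ y < s ^ 2}).toReal / s ^ 2) (𝓝[>] 0) (𝓝 0) := by
  have := hμ.fin
  obtain ⟨X, c₀, r, M, hC⟩ := exists_chart 𝓕 μ y₀ h0
  have := hC.fin
  have hL := hC.loc hμ
  obtain ⟨K, s₀, hK, hs₀, hcone⟩ := cone_of_tau 𝓕 y₀ h1 h0
  obtain ⟨c, C, hc, hC0, hcomp⟩ := hC.compare
  have hr := hC.r_pos
  rw [Metric.tendsto_nhds]
  intro ε hε
  by_contra hcon
  rw [Filter.not_eventually] at hcon
  -- the lower bound for `M`
  have hfreq : ∃ᶠ s in 𝓝[>] (0 : ℝ), ε / (C * K ^ 2) * s ^ 2 ≤ (M (Metric.ball 0 s)).toReal := by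
    have ht : Tendsto (fun s : ℝ => K * s) (𝓝[>] 0) (𝓝[>] 0) := by
      refine tendsto_nhdsWithin_iff.2 ⟨?_, ?_⟩
      · have h2 : Tendsto (fun s : ℝ => K * s) (𝓝 0) (𝓝 (K * 0)) :=
          (continuous_const.mul continuous_id).tendsto 0
        rw [mul_zero] at h2
        exact h2.mono_left nhdsWithin_le_nhds
      · filter_upwards [self_mem_nhdsWithin] with s hs
        exact mul_pos hK hs
    refine ht.frequently (hcon.mp ?_)
    have he1 : ∀ᶠ s in 𝓝[>] (0 : ℝ), 0 < s := self_mem_nhdsWithin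
    have he2 : ∀ᶠ s in 𝓝[>] (0 : ℝ), s < s₀ :=
      nhdsWithin_le_nhds (Iio_mem_nhds hs₀)
    have he3 : ∀ᶠ s in 𝓝[>] (0 : ℝ), s < r / K :=
      nhdsWithin_le_nhds (Iio_mem_nhds (div_pos hr hK))
    filter_upwards [he1, he2, he3] with s hs1 hs2 hs3 hs4
    have hsK : K * s < r := by
      rw [lt_div_iff₀ hK] at hs3
      linarith
    have hμle : (μ {y | tau y₀ y < s ^ 2}).toReal ≤ C * (M (Metric.ball 0 (K * s))).toReal := by
      refine le_trans ?_ (hcomp (Metric.ball 0 (K * s)) Metric.isOpen_ball.measurableSet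
        (Metric.ball_subset_ball hsK.le)).2
      refine ENNReal.toReal_mono (measure_ne_top _ _) ?_
      have hsub : {y | tau y₀ y < s ^ 2} ⊆ 𝓕.cone y₀ (Metric.ball 0 (K * s)) ∪ {x | nsq x ≠ 1} := by
        intro y hy
        by_cases hy1 : nsq y = 1
        · exact Or.inl (hcone s hs1 hs2 y hy1 hy)
        · exact Or.inr hy1
      refine (measure_mono hsub).trans ((measure_union_le _ _).trans ?_)
      rw [hμ.sph, add_zero]
    rw [Real.dist_eq, sub_zero, not_lt, abs_of_nonneg (by positivity)] at hs4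
    have hs5 : ε * s ^ 2 ≤ (μ {y | tau y₀ y < s ^ 2}).toReal := by
      rwa [le_div_iff₀ (by positivity)] at hs4
    have hs6 : ε / (C * K ^ 2) * (K * s) ^ 2 = ε * s ^ 2 / C := by
      field_simp
    rw [hs6, div_le_iff₀ hC0]
    linarith
  obtain ⟨ρ, Y, hY⟩ := exists_leaf X hC.hol hC.zero r hC.r_pos
  obtain ⟨c₂, b₀, hc₂, hb₀, hb₀ρ, hpl⟩ := plaque_mass hL hY _ (by positivity) hfreq
  obtain ⟨C₃, r', hC₃, hr', hr'r, hmass⟩ := hL.mass
  obtain ⟨Λ, c', t₀, hΛ, hc', ht₀, ht₀b, hann⟩ :=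
    annulus_mass hY C₃ r' hC₃ hr' hmass c₂ b₀ hc₂ hb₀ hb₀ρ hpl
  obtain ⟨κ, hκ, hord⟩ := order_le hC hμ hY Λ c' t₀ hΛ hc' ht₀ (ht₀b.trans hb₀ρ) hann
  -- the numbers
  obtain ⟨l, hl⟩ : ∃ l : ℕ, l = ⌈2 / κ⌉₊ + 1 := ⟨_, rfl⟩
  have hlκ : 2 / κ ≤ l := by
    rw [hl]
    push_cast
    linarith [Nat.le_ceil (2 / κ)]
  obtain ⟨m, hm⟩ : ∃ m : ℕ, m = ⌊2 * (l : ℝ) / κ⌋₊ + 1 := ⟨_, rfl⟩
  have hm1 : 1 ≤ m := by omega
  have hκm : 2 * (l : ℝ) < κ * m := by
    have h2 := Nat.lt_floor_add_one (2 * (l : ℝ) / κ)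
    rw [div_lt_iff₀ hκ] at h2
    rw [hm]
    push_cast
    linarith
  have hml : m < (l + 1) ^ 2 := by
    have hl1 : (1 : ℝ) ≤ l := by
      rw [hl]
      push_cast
      linarith [Nat.cast_nonneg (α := ℝ) ⌈2 / κ⌉₊]
    have h2 : (m : ℝ) < ((l : ℝ) + 1) ^ 2 := by
      rw [hm]
      push_cast
      have h3 : (⌊2 * (l : ℝ) / κ⌋₊ : ℝ) ≤ 2 * (l : ℝ) / κ := Nat.floor_le (by positivity)
      have h4 : 2 * (l : ℝ) / κ = l * (2 / κ) := by ring
      have h5 : (l : ℝ) * (2 / κ) ≤ l * l := mul_le_mul_of_nonneg_left hlκ (by linarith)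
      nlinarith
    exact_mod_cast h2
  have hYa : AnalyticAt ℂ Y 0 := hY.hol.analyticAt (Metric.ball_mem_nhds 0 hY.pos)
  have hγ : AnalyticAt ℂ (fun z => 𝓕.psi y₀ (z, Y z)) 0 := by
    unfold Foliation.psi
    exact (analyticAt_const.add (analyticAt_id.smul analyticAt_const)).add
      (hYa.smul analyticAt_const)
  obtain ⟨P, hPh, hP0, hPd⟩ := exists_poly_vanishing _ hγ m l hml
  have ha : AnalyticAt ℂ (fun z => MvPolynomial.eval (𝓕.psi y₀ (z, Y z)) P) 0 := by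
    have h2 := AnalyticAt.aeval_mvPolynomial (𝕜 := ℂ) (B := ℂ) (f := fun z => 𝓕.psi y₀ (z, Y z))
      (z := (0 : ℂ)) (fun i => by
        exact ((ContinuousLinearMap.proj (R := ℂ) (φ := fun _ : Fin 3 => ℂ) i).analyticAt _).comp
          hγ) P
    exact h2
  by_cases hz : ∀ᶠ z in 𝓝 (0 : ℂ), MvPolynomial.eval (𝓕.psi y₀ (z, Y z)) P = 0
  · -- the leaf is contained in the curve `P = 0`
    obtain ⟨δ, hδ, hδz⟩ := Metric.eventually_nhds_iff.1 hz
    obtain ⟨b, hb⟩ : ∃ b : ℝ, b = min δ b₀ / 2 := ⟨_, rfl⟩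
    have hmin : 0 < min δ b₀ := lt_min hδ hb₀
    have hb0 : 0 < b := by rw [hb]; linarith
    have hbδ : b < δ := by
      rw [hb]
      linarith [min_le_left δ b₀]
    have hbb : b < b₀ := by
      rw [hb]
      linarith [min_le_right δ b₀]
    have hsub : Metric.closedBall (0 : ℂ) b ⊆ Metric.ball 0 ρ :=
      Metric.closedBall_subset_ball (hbb.trans hb₀ρ)
    have hΓ : {p : ℂ × ℂ | ‖p.1‖ ≤ b ∧ p.2 = Y p.1} =
        (fun z => (z, Y z)) '' Metric.closedBall (0 : ℂ) b := by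
      ext p
      constructor
      · rintro ⟨h2, h3⟩
        refine ⟨p.1, mem_closedBall_zero_iff.2 h2, ?_⟩
        show (p.1, Y p.1) = p
        rw [← h3]
      · rintro ⟨z, hz1, rfl⟩
        exact ⟨mem_closedBall_zero_iff.1 hz1, rfl⟩
    have hΓc : IsCompact {p : ℂ × ℂ | ‖p.1‖ ≤ b ∧ p.2 = Y p.1} := by
      rw [hΓ]
      exact (isCompact_closedBall _ _).image_of_continuousOn
        (continuousOn_id.prodMk (hY.hol.continuousOn.mono hsub))
    have hΓr : {p : ℂ × ℂ | ‖p.1‖ ≤ b ∧ p.2 = Y p.1} ⊆ Metric.ball 0 r := by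
      rw [hΓ]
      rintro _ ⟨z, hz1, rfl⟩
      exact hY.mem z (hsub hz1)
    have h2 := (hcomp _ hΓc.isClosed.measurableSet hΓr).1
    have h3 : μ (𝓕.cone y₀ {p : ℂ × ℂ | ‖p.1‖ ≤ b ∧ p.2 = Y p.1}) = 0 := by
      refine measure_mono_null ?_ (hcurve (2 * l) P hPh hP0)
      rintro y ⟨-, p, hp, t, -, rfl⟩
      show MvPolynomial.eval (t • 𝓕.psi y₀ p) P = 0
      have h4 : p = (p.1, Y p.1) := by
        rw [← hp.2]
      rw [LZ_eval P _ hPh, h4, hδz (by rw [dist_zero_right]; exact hp.1.trans_lt hbδ), mul_zero]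
    rw [h3, ENNReal.toReal_zero] at h2
    have h4 := hpl b hb0 hbb
    have h5 : 0 < c₂ * b ^ 2 := by positivity
    have h6 : 0 < c * (M {p : ℂ × ℂ | ‖p.1‖ ≤ b ∧ p.2 = Y p.1}).toReal :=
      mul_pos hc (h5.trans_le h4)
    linarith
  · obtain ⟨m', f, hf, hf0, hfe⟩ := ha.exists_eventuallyEq_pow_smul_nonzero_iff.2 hz
    have hm' : m ≤ m' := by
      have h2 := (natCast_le_analyticOrderAt_iff_iteratedDeriv_eq_zero ha).2 hPd
      have h3 := (ha.analyticOrderAt_eq_natCast (n := m')).2 ⟨f, hf, hf0, hfe⟩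
      rw [h3] at h2
      exact_mod_cast h2
    have h2 := hord (2 * l) P hPh m' (hm1.trans hm') f hf hf0 (by
      filter_upwards [hfe] with z hz1
      rw [hz1, sub_zero, smul_eq_mul])
    push_cast at h2
    have h3 : κ * m ≤ κ * m' := mul_le_mul_of_nonneg_left (by exact_mod_cast hm') hκ.le
    linarith

end Pool.Agent.H24.CU
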