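import Pool.Agent.H24.CU.KD
import Pool.Agent.H24.CU.LZ

/-!
# Final assembly (helper24)
-/

namespace Pool.Agent.H24.CU

open MeasureTheory
open scoped ComplexConjugate ContDiff

open Pool.Agent.H85 in
/-- The global theorem of block DC (helpers 85, 76). -/
def MainE : Prop :=
  ∀ (F : Fin 3 → MvPolynomial (Fin 3) ℂ) (d : ℕ), (∀ j, (F j).IsHomogeneous d) →
    (∃ P : Finset V, ∀ y : V, DC.eta F y = 0 → ∃ p ∈ P, ∃ c : ℂ, y = c • p) →
    ∀ μS μT : Measure V, DC.IsCur F μS → DC.IsCur F μT → DC.DdcClosed F μS → DC.DdcClosed F μT →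
    (∀ y : V, DC.N y = 1 → DC.eta F y ≠ 0 →
      Filter.Tendsto (fun s : ℝ => (μS {y' | DC.tau y y' < s ^ 2}).toReal / s ^ 2)
        (nhdsWithin 0 (Set.Ioi 0)) (nhds 0)) →
    (∀ y : V, DC.N y = 1 → DC.eta F y ≠ 0 →
      Filter.Tendsto (fun s : ℝ => (μT {y' | DC.tau y y' < s ^ 2}).toReal / s ^ 2)
        (nhdsWithin 0 (Set.Ioi 0)) (nhds 0)) →
    DC.EnergyE F μT → DC.CurClosed F μT → DC.CurClosed F μS

theorem scale_lelong {μ : Measure V} {s : ENNReal} (𝓕 : Foliation) (h : 𝓕.LelZero μ) :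
    𝓕.LelZero (s • μ) := by
  intro y h1 h0
  have h2 := (h y h1 h0).const_mul s.toReal
  rw [mul_zero] at h2
  refine h2.congr fun t => ?_
  rw [Measure.smul_apply, smul_eq_mul, ENNReal.toReal_mul]
  ring

theorem scale_energy {μ : Measure V} {s : ENNReal} (hs : s ≠ ⊤)
    {F : Fin 3 → MvPolynomial (Fin 3) ℂ} (h : Pool.Agent.H85.DC.EnergyE F μ) :
    Pool.Agent.H85.DC.EnergyE F (s • μ) := by
  obtain ⟨C, hC⟩ := h
  refine ⟨s.toReal * C, fun r h0 h1 => ?_⟩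
  rw [Measure.restrict_smul, lintegral_smul_measure, mul_assoc, ENNReal.ofReal_mul ENNReal.toReal_nonneg,
    ENNReal.ofReal_toReal hs, smul_eq_mul]
  gcongr
  exact hC r h0 h1

/-- All the properties of the (normalised) measure of a nonzero diffuse harmonic directed current. -/
theorem measure_of {𝓕 : Foliation} {T : PosCurrent} {μ : Measure V} (hR : Rep 𝓕 T μ)
    (hT : T.DdcClosed) (hne : μ Set.univ ≠ 0) :
    Pool.Agent.H85.DC.IsCur 𝓕.F ((μ Set.univ)⁻¹ • μ) ∧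
      Pool.Agent.H85.DC.DdcClosed 𝓕.F ((μ Set.univ)⁻¹ • μ) ∧ 𝓕.LelZero μ ∧
      𝓕.LelZero ((μ Set.univ)⁻¹ • μ) := by
  have hfin := hR.fin
  have hl : 𝓕.LelZero μ := fun y h1 h0 => lelong_zero 𝓕 μ (hR.toHarm hT) hR.curve y h1 h0
  refine ⟨⟨?_, ?_, ?_⟩, scale_ddc _ _ (hR.toDdcClosed hT), hl, scale_lelong 𝓕 hl⟩
  · rw [Measure.smul_apply, smul_eq_mul]
    exact ENNReal.inv_mul_cancel hne (measure_ne_top μ _)
  · refine Measure.ae_smul_measure ?_ _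
    have h1 := hR.sph
    exact h1
  · refine Measure.ae_smul_measure ?_ _
    have h1 := hR.sing
    rw [ae_iff]
    simpa [eta_eq] using h1

theorem lel_dc {𝓕 : Foliation} {μ : Measure V} (h : 𝓕.LelZero μ) (y : V)
    (h1 : Pool.Agent.H85.DC.N y = 1) (h0 : Pool.Agent.H85.DC.eta 𝓕.F y ≠ 0) :
    Filter.Tendsto (fun s : ℝ => (μ {y' | Pool.Agent.H85.DC.tau y y' < s ^ 2}).toReal / s ^ 2)
      (nhdsWithin 0 (Set.Ioi 0)) (nhds 0) := by
  rw [eta_eq] at h0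
  exact h y h1 h0

theorem final_of (hmain : MainE)
    (hgood : ∀ A B : FC76.P2, (∃ K, FC76.MultLe A B K) → FC76.Good A B) : FinalStatement := by
  intro 𝓕 T S dT cT diT nT dS ddS diS
  have ddT : T.DdcClosed := cT.ddc
  obtain ⟨μ, hμ⟩ := exists_rep 𝓕 T dT diT
  obtain ⟨ν, hν⟩ := exists_rep 𝓕 S dS diS
  have hμf := hμ.fin
  have hνf := hν.fin
  by_cases hν0 : ν Set.univ = 0
  · have h0 : ν = 0 := Measure.measure_univ_eq_zero.1 hν0
    refine hν.closed_of fun ζ _ => ?_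
    rw [h0, integral_zero_measure]
  have hμ0 := hμ.univ_ne_zero nT
  obtain ⟨t1, t2, t3, t4⟩ := measure_of hμ ddT hμ0
  obtain ⟨s1, s2, s3, s4⟩ := measure_of hν ddS hν0
  have hcT := hμ.toCurClosed cT
  have hE : Pool.Agent.H85.DC.EnergyE 𝓕.F μ := energyE 𝓕 μ (hμ.toHarm ddT) hcT t3 hgood
  have hE2 := scale_energy (s := (μ Set.univ)⁻¹) (ENNReal.inv_ne_top.2 hμ0) hE
  have key := hmain 𝓕.F 𝓕.deg 𝓕.hom (exists_singSet 𝓕) _ _ s1 t1 s2 t2 (lel_dc s4) (lel_dc t4) hE2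
    (scale_cur _ _ hcT)
  have h3 := scale_cur 𝓕.F (ν Set.univ) key
  rw [smul_smul, ENNReal.mul_inv_cancel hν0 (measure_ne_top ν _), one_smul] at h3
  exact hν.closed_of h3

end Pool.Agent.H24.CU
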