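import Pool.Agent.H24.CU.SDefs
import Pool.Agent.H24.CU.AL

/-!
# Row FRM (unitary frames of `C^3`)

PROOFS.  `exists_frame`: `b` = a unit vector with `herm p b = 0`: if `(p 0, p 1) ≠ 0` normalise
`(-conj (p 1), conj (p 0), 0)`, otherwise `b = (1, 0, 0)`; `c = conj (p × b)` (componentwise):
`herm p c = ∑ p_j (p × b)_j = 0`, `herm b c = 0`, `nsq c = nsq (p × b) = nsq p nsq b - |herm|^2 = 1` (`nsq_cross`).
`expand`: an orthonormal system of three vectors is a basis: the matrix `U` with rows `p, b, c` satisfies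
`U U^* = 1`, hence `U^* U = 1` (`Matrix.mul_eq_one_comm`), i.e. `resolution`:
`p_i conj p_j + b_i conj b_j + c_i conj c_j = δ_ij`; multiply by `x_j` and sum: `expand`.
`herm_chi`: linearity of `herm` in the first variable.  `nsq_chi`: `nsq (∑ a_i e_i) = ∑ |a_i|^2`.
`nsq_cross_chi`: `nsq (u × v) = nsq u nsq v - normSq (herm u v)` (`nsq_cross`) with `u = chi q`, `v = A b + B c`:
`(1 + |q|^2)(|A|^2 + |B|^2) - |q_1 conj A + q_2 conj B|^2 = |A|^2 + |B|^2 + |q_1 B - q_2 A|^2` (Lagrange).
`tau_chi`: `herm p (chi q) = 1`.  `scone_iff`: `y = t • chi q` has `herm y p = t`, `herm y b = t q_1`, `herm y c = t q_2`;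
conversely `y = herm y p • chi (..)` by `expand`.
-/

namespace Pool.Agent.H24.CU

open scoped ComplexConjugate

theorem FRM_conj (x y : V) : herm y x = conj (herm x y) := by
  unfold herm
  rw [map_sum]
  refine Finset.sum_congr rfl fun i _ => ?_
  rw [map_mul, Complex.conj_conj, mul_comm]

theorem FRM_self (x : V) : herm x x = (nsq x : ℂ) := by
  unfold herm nsq
  push_cast
  exact Finset.sum_congr rfl fun i _ => by rw [Complex.mul_conj]

theorem FRM_add (x y z : V) : herm (x + y) z = herm x z + herm y z := by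
  unfold herm
  rw [← Finset.sum_add_distrib]
  exact Finset.sum_congr rfl fun i _ => by rw [Pi.add_apply, add_mul]

theorem FRM_smul (t : ℂ) (x z : V) : herm (t • x) z = t * herm x z := by
  unfold herm
  rw [Finset.mul_sum]
  exact Finset.sum_congr rfl fun i _ => by rw [Pi.smul_apply, smul_eq_mul, mul_assoc]

theorem FRM_smul_right (t : ℂ) (x z : V) : herm x (t • z) = conj t * herm x z := by
  rw [FRM_conj (t • z) x, FRM_smul, map_mul, ← FRM_conj]

theorem FRM_zero {x y : V} (h : herm x y = 0) : herm y x = 0 := by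
  rw [FRM_conj x y, h, map_zero]

theorem exists_frame (p : V) (hp : nsq p = 1) : ∃ b c : V, Frame p b c := by
  obtain ⟨b, hb1, hb2⟩ : ∃ b : V, nsq b = 1 ∧ herm p b = 0 := by
    by_cases h : p 0 = 0 ∧ p 1 = 0
    · refine ⟨![1, 0, 0], ?_, ?_⟩
      · simp [nsq, Fin.sum_univ_three]
      · simp [herm, Fin.sum_univ_three, h.1]
    · obtain ⟨S, hS⟩ : ∃ S : ℝ, S = Complex.normSq (p 0) + Complex.normSq (p 1) := ⟨_, rfl⟩
      have hS0 : 0 < S := by
        rw [hS]
        have h0 := Complex.normSq_nonneg (p 0)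
        have h1 := Complex.normSq_nonneg (p 1)
        rcases not_and_or.1 h with h2 | h2
        · have := Complex.normSq_pos.2 h2
          linarith
        · have := Complex.normSq_pos.2 h2
          linarith
      have hs0 : 0 < Real.sqrt S := Real.sqrt_pos.2 hS0
      refine ⟨(((Real.sqrt S)⁻¹ : ℝ) : ℂ) • ![-conj (p 1), conj (p 0), 0], ?_, ?_⟩
      · rw [nsq_smul, Complex.normSq_ofReal]
        have : nsq ![-conj (p 1), conj (p 0), 0] = S := by
          simp only [nsq, Fin.sum_univ_three, Matrix.cons_val_zero, Matrix.cons_val_one, Matrix.cons_val,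
            Complex.normSq_neg, Complex.normSq_conj, map_zero]
          rw [hS]
          ring
        rw [this]
        have h3 : Real.sqrt S * Real.sqrt S = S := Real.mul_self_sqrt hS0.le
        rw [← mul_inv, h3, inv_mul_cancel₀ hS0.ne']
      · rw [FRM_smul_right]
        have : herm p ![-conj (p 1), conj (p 0), 0] = 0 := by
          simp only [herm, Fin.sum_univ_three, Matrix.cons_val_zero, Matrix.cons_val_one, Matrix.cons_val,
            map_neg, Complex.conj_conj, map_zero]
          ring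
        rw [this, mul_zero]
  have e1 : ∑ j, p j * crossProduct p b j = 0 := by
    rw [cross_apply, Fin.sum_univ_three]
    simp only [Matrix.cons_val_zero, Matrix.cons_val_one, Matrix.cons_val]
    ring
  have e2 : ∑ j, b j * crossProduct p b j = 0 := by
    rw [cross_apply, Fin.sum_univ_three]
    simp only [Matrix.cons_val_zero, Matrix.cons_val_one, Matrix.cons_val]
    ring
  refine ⟨b, fun j => conj (crossProduct p b j), hp, hb1, ?_, hb2, ?_, ?_⟩
  · have h1 : nsq (fun j => conj (crossProduct p b j)) = nsq (crossProduct p b) := by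
      unfold nsq
      exact Finset.sum_congr rfl fun j _ => Complex.normSq_conj _
    rw [h1, nsq_cross, hp, hb1, FRM_zero hb2, map_zero]
    norm_num
  · rw [← e1]
    unfold herm
    exact Finset.sum_congr rfl fun j _ => by rw [Complex.conj_conj]
  · rw [← e2]
    unfold herm
    exact Finset.sum_congr rfl fun j _ => by rw [Complex.conj_conj]

variable {p b c : V}

theorem Frame.resolution (h : Frame p b c) (i j : Fin 3) :
    p i * conj (p j) + b i * conj (b j) + c i * conj (c j) = if i = j then 1 else 0 := by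
  obtain ⟨U, hU⟩ : ∃ U : Matrix (Fin 3) (Fin 3) ℂ, U = Matrix.of ![p, b, c] := ⟨_, rfl⟩
  have hUr : ∀ r k, U r k = (![p, b, c] : Fin 3 → V) r k := fun r k => by rw [hU]; rfl
  have h1 : U * U.conjTranspose = 1 := by
    ext r q
    rw [Matrix.mul_apply]
    have e1 : ∑ k, U r k * U.conjTranspose k q =
        herm ((![p, b, c] : Fin 3 → V) r) ((![p, b, c] : Fin 3 → V) q) := by
      unfold herm
      refine Finset.sum_congr rfl fun k _ => ?_
      rw [Matrix.conjTranspose_apply, hUr, hUr]
      rfl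
    rw [e1]
    have pp := FRM_self p
    have bb := FRM_self b
    have cc := FRM_self c
    rw [h.pp] at pp
    rw [h.bb] at bb
    rw [h.cc] at cc
    have bp := FRM_zero h.pb
    have cp := FRM_zero h.pc
    have cb := FRM_zero h.bc
    have pb := h.pb
    have pc := h.pc
    have bc := h.bc
    fin_cases r <;> fin_cases q <;>
      simp [pp, bb, cc, pb, pc, bc, bp, cp, cb]
  have h2 : U.conjTranspose * U = 1 := mul_eq_one_comm.1 h1
  have h3 := congrFun (congrFun h2 j) i
  rw [Matrix.mul_apply, Fin.sum_univ_three] at h3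
  simp only [Matrix.conjTranspose_apply, hUr, Matrix.cons_val_zero, Matrix.cons_val_one, Matrix.cons_val,
    Matrix.one_apply] at h3
  have h4 : (if i = j then (1 : ℂ) else 0) = if j = i then 1 else 0 := by
    simp only [eq_comm]
  rw [h4, ← h3]
  simp only [RCLike.star_def]
  ring

theorem Frame.expand (h : Frame p b c) (x : V) :
    x = herm x p • p + herm x b • b + herm x c • c := by
  funext i
  simp only [Pi.add_apply, Pi.smul_apply, smul_eq_mul]
  have h1 : x i = ∑ j, x j * (if i = j then 1 else 0) := by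
    simp
  have h2 : ∀ j, x j * (if i = j then (1 : ℂ) else 0) =
      x j * conj (p j) * p i + x j * conj (b j) * b i + x j * conj (c j) * c i := by
    intro j
    rw [← h.resolution i j]
    ring
  rw [h1, Finset.sum_congr rfl (fun j _ => h2 j), Finset.sum_add_distrib, Finset.sum_add_distrib]
  unfold herm
  rw [← Finset.sum_mul, ← Finset.sum_mul, ← Finset.sum_mul]

theorem Frame.herm_chi (h : Frame p b c) (q : ℂ × ℂ) :
    herm (chi p b c q) p = 1 ∧ herm (chi p b c q) b = q.1 ∧ herm (chi p b c q) c = q.2 := by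
  have pp := FRM_self p
  have bb := FRM_self b
  have cc := FRM_self c
  rw [h.pp] at pp
  rw [h.bb] at bb
  rw [h.cc] at cc
  have bp := FRM_zero h.pb
  have cp := FRM_zero h.pc
  have cb := FRM_zero h.bc
  unfold chi
  simp only [FRM_add, FRM_smul, pp, bb, cc, h.pb, h.pc, h.bc, bp, cp, cb]
  refine ⟨?_, ?_, ?_⟩ <;> simp

theorem Frame.FRM_chi' (h : Frame p b c) (q : ℂ × ℂ) :
    herm p (chi p b c q) = 1 ∧ herm b (chi p b c q) = conj q.1 ∧ herm c (chi p b c q) = conj q.2 := by
  obtain ⟨h1, h2, h3⟩ := h.herm_chi q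
  rw [FRM_conj (chi p b c q) p, FRM_conj (chi p b c q) b, FRM_conj (chi p b c q) c, h1, h2, h3, map_one]
  exact ⟨rfl, rfl, rfl⟩

theorem FRM_nsq (q : ℂ × ℂ) : FC76.nsq q = Complex.normSq q.1 + Complex.normSq q.2 := by
  unfold FC76.nsq
  rw [Complex.normSq_eq_norm_sq, Complex.normSq_eq_norm_sq]

theorem FRM_nsq_nonneg (q : ℂ × ℂ) : 0 ≤ FC76.nsq q := by
  rw [FRM_nsq]
  exact add_nonneg (Complex.normSq_nonneg _) (Complex.normSq_nonneg _)

theorem Frame.FRM_AB (h : Frame p b c) (A B : ℂ) : nsq (A • b + B • c) = Complex.normSq A + Complex.normSq B := by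
  have h1 : ((nsq (A • b + B • c) : ℝ) : ℂ) = ((Complex.normSq A + Complex.normSq B : ℝ) : ℂ) := by
    rw [← FRM_self]
    have bb := FRM_self b
    have cc := FRM_self c
    rw [h.bb] at bb
    rw [h.cc] at cc
    have cb := FRM_zero h.bc
    have e1 : herm b (A • b + B • c) = conj A := by
      rw [FRM_conj (A • b + B • c) b, FRM_add, FRM_smul, FRM_smul, bb, cb]
      simp
    have e2 : herm c (A • b + B • c) = conj B := by
      rw [FRM_conj (A • b + B • c) c, FRM_add, FRM_smul, FRM_smul, cc, h.bc]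
      simp
    rw [FRM_add, FRM_smul, FRM_smul, e1, e2, Complex.mul_conj, Complex.mul_conj]
    push_cast
    ring
  exact_mod_cast h1

theorem Frame.nsq_chi (h : Frame p b c) (q : ℂ × ℂ) : nsq (chi p b c q) = 1 + FC76.nsq q := by
  have h1 : ((nsq (chi p b c q) : ℝ) : ℂ) = ((1 + FC76.nsq q : ℝ) : ℂ) := by
    rw [← FRM_self]
    obtain ⟨e1, e2, e3⟩ := h.FRM_chi' q
    obtain ⟨y, hy⟩ : ∃ y, y = chi p b c q := ⟨_, rfl⟩
    rw [← hy] at e1 e2 e3 ⊢
    have e4 : herm y y = herm (p + q.1 • b + q.2 • c) y :=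
      congrArg (fun z => herm z y) (hy : y = p + q.1 • b + q.2 • c)
    rw [e4, FRM_add, FRM_add, FRM_smul, FRM_smul, e1, e2, e3, Complex.mul_conj, Complex.mul_conj, FRM_nsq]
    push_cast
    ring
  exact_mod_cast h1

theorem Frame.chi_ne (h : Frame p b c) (q : ℂ × ℂ) : chi p b c q ≠ 0 := by
  intro h0
  have h1 := h.nsq_chi q
  rw [h0, nsq_eq_zero.2 rfl] at h1
  have := FRM_nsq_nonneg q
  linarith

theorem Frame.nsq_cross_chi (h : Frame p b c) (q : ℂ × ℂ) (A B : ℂ) :
    nsq (crossProduct (chi p b c q) (A • b + B • c)) =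
      Complex.normSq A + Complex.normSq B + Complex.normSq (q.1 * B - q.2 * A) := by
  obtain ⟨e1, e2, e3⟩ := h.FRM_chi' q
  rw [nsq_cross, h.nsq_chi, h.FRM_AB, FRM_add, FRM_smul, FRM_smul, e2, e3, FRM_nsq]
  simp only [Complex.normSq_apply, Complex.sub_re, Complex.sub_im, Complex.mul_re, Complex.mul_im,
    Complex.add_re, Complex.add_im, Complex.conj_re, Complex.conj_im]
  ring

theorem Frame.tau_chi (h : Frame p b c) (q : ℂ × ℂ) :
    tau p (chi p b c q) = FC76.nsq q / (1 + FC76.nsq q) := by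
  unfold tau
  have h0 := FRM_nsq_nonneg q
  rw [(h.FRM_chi' q).1, h.pp, h.nsq_chi, map_one, one_mul]
  field_simp
  ring

/-- Distance of two points of the chart. -/
theorem Frame.tau_chi_le (h : Frame p b c) (q q' : ℂ × ℂ) :
    tau (chi p b c q) (chi p b c q') ≤ nsq (chi p b c q' - chi p b c q) := by
  have hN := h.nsq_chi q
  have hN' := h.nsq_chi q'
  have hq := FRM_nsq_nonneg q
  have hq' := FRM_nsq_nonneg q'
  obtain ⟨x, hx⟩ : ∃ x, x = chi p b c q := ⟨_, rfl⟩
  obtain ⟨y, hy⟩ : ∃ y, y = chi p b c q' := ⟨_, rfl⟩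
  rw [← hx, ← hy]
  rw [← hx] at hN
  rw [← hy] at hN'
  have hx1 : 1 ≤ nsq x := by rw [hN]; linarith
  have hy1 : 1 ≤ nsq y := by rw [hN']; linarith
  have e1 : crossProduct x y = crossProduct x (y - x) := by
    rw [map_sub, cross_self, sub_zero]
  have e2 : nsq (crossProduct x y) ≤ nsq x * nsq (y - x) := by
    rw [e1, nsq_cross]
    have := Complex.normSq_nonneg (herm (y - x) x)
    linarith
  have e3 : nsq x * nsq y - Complex.normSq (herm x y) ≤ nsq x * nsq (y - x) := by
    rw [nsq_cross, FRM_conj x y, Complex.normSq_conj] at e2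
    exact e2
  have e4 : tau x y * (nsq x * nsq y) = nsq x * nsq y - Complex.normSq (herm x y) := by
    unfold tau
    field_simp
  have h0 : 0 ≤ nsq (y - x) := nsq_nonneg _
  have e5 : tau x y * (nsq x * nsq y) ≤ nsq (y - x) * (nsq x * nsq y) := by
    rw [e4]
    calc _ ≤ nsq x * nsq (y - x) := e3
      _ = nsq x * nsq (y - x) * 1 := by ring
      _ ≤ nsq x * nsq (y - x) * nsq y := by gcongr
      _ = _ := by ring
  exact le_of_mul_le_mul_right e5 (by positivity)

theorem tau_comm (x y : V) : tau x y = tau y x := by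
  unfold tau
  rw [FRM_conj x y, Complex.normSq_conj, mul_comm (nsq x)]

theorem tau_smul (s t : ℂ) (hs : s ≠ 0) (ht : t ≠ 0) (x y : V) : tau (s • x) (t • y) = tau x y := by
  unfold tau
  rw [FRM_smul, FRM_smul_right, nsq_smul, nsq_smul]
  have h1 : Complex.normSq s ≠ 0 := (Complex.normSq_pos.2 hs).ne'
  have h2 : Complex.normSq t ≠ 0 := (Complex.normSq_pos.2 ht).ne'
  rw [map_mul, map_mul, Complex.normSq_conj]
  congr 1
  have e1 : Complex.normSq s * (Complex.normSq t * Complex.normSq (herm x y)) =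
      (Complex.normSq s * Complex.normSq t) * Complex.normSq (herm x y) := by ring
  have e2 : Complex.normSq s * nsq x * (Complex.normSq t * nsq y) =
      (Complex.normSq s * Complex.normSq t) * (nsq x * nsq y) := by ring
  rw [e1, e2, mul_div_mul_left _ _ (mul_ne_zero h1 h2)]

theorem Frame.scone_iff (h : Frame p b c) (E : Set (ℂ × ℂ)) (y : V) :
    y ∈ scone p b c E ↔ nsq y = 1 ∧ herm y p ≠ 0 ∧
      (herm y b / herm y p, herm y c / herm y p) ∈ E := by
  unfold scone
  constructor
  · rintro ⟨hy, q, hq, t, ht, rfl⟩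
    obtain ⟨e1, e2, e3⟩ := h.herm_chi q
    refine ⟨hy, ?_, ?_⟩
    · rw [FRM_smul, e1, mul_one]
      exact ht
    · rw [FRM_smul, FRM_smul, FRM_smul, e1, e2, e3, mul_one, mul_div_cancel_left₀ _ ht, mul_div_cancel_left₀ _ ht]
      exact hq
  · rintro ⟨hy, hne, hE⟩
    refine ⟨hy, _, hE, herm y p, hne, ?_⟩
    conv_lhs => rw [h.expand y]
    unfold chi
    rw [smul_add, smul_add, smul_smul, smul_smul, mul_div_cancel₀ _ hne, mul_div_cancel₀ _ hne]

end Pool.Agent.H24.CU
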