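import Pool.Agent.H24.CU.Basic

/-!
# Row FS (elementary facts on the Fubini-Study form and on Form11)

PROOFS.  (1) `fubiniStudy x` for `x ≠ 0`, `N = nsq x`: it is Hermitian; for `v`,
`star v ⬝ᵥ (fubiniStudy x *ᵥ v) = |v|^2/N - |∑ x_k v_k|^2/N^2 >= 0` by Cauchy-Schwarz
(`|∑ x_k v_k|^2 <= N |v|^2`).  For `x = 0` all the entries are `0` (`0⁻¹ = 0`, division by `0`).
(2) quadratic form as stated: direct expansion.
(3) `exists_scaled`, `exists_mul`, `exists_adj`: put `B 0 = 0` and `B x = ...` for `x ≠ 0`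
(`if x = 0 then 0 else ..`; for the adjoint no case distinction is needed). Smoothness on the open set
`{0}ᶜ` entrywise (`ContDiffOn.congr`; `nsq` is smooth and nonzero there; `conj` is smooth over `ℝ`).
-/

namespace Pool.Agent.H24.CU

open MeasureTheory
open scoped ComplexConjugate ComplexOrder ContDiff

theorem FS_lagrange (w x : V) : nsq x * nsq w - Complex.normSq (herm w x) =
    Complex.normSq (w 0 * x 1 - w 1 * x 0) + Complex.normSq (w 0 * x 2 - w 2 * x 0) +
      Complex.normSq (w 1 * x 2 - w 2 * x 1) := by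
  simp only [nsq, herm, Fin.sum_univ_three, Complex.normSq_apply, Complex.add_re, Complex.add_im,
    Complex.mul_re, Complex.mul_im, Complex.conj_re, Complex.conj_im, Complex.sub_re,
    Complex.sub_im]
  ring

theorem FS_nsq_cast (x : V) : ((nsq x : ℝ) : ℂ) = ∑ j, x j * conj (x j) := by
  simp only [nsq, Complex.ofReal_sum, Complex.mul_conj]

theorem FS_normSq_cast (z : ℂ) : ((Complex.normSq z : ℝ) : ℂ) = z * conj z :=
  (Complex.mul_conj z).symm

theorem fubiniStudy_quad (x : V) (hx : x ≠ 0) (v : V) :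
    ∑ j, ∑ k, fubiniStudy x j k * v j * conj (v k) =
      (((nsq x * nsq v - Complex.normSq (herm v x)) / nsq x ^ 2 : ℝ) : ℂ) := by
  have hN : ((nsq x : ℝ) : ℂ) ≠ 0 := by exact_mod_cast (nsq_pos hx).ne'
  have h1 : ∀ j k, fubiniStudy x j k * v j * conj (v k) =
      (if j = k then ((nsq x : ℂ))⁻¹ * (v j * conj (v k)) else 0) -
        (v j * conj (x j)) * (x k * conj (v k)) / (nsq x : ℂ) ^ 2 := by
    intro j k
    unfold fubiniStudy
    split_ifs with h
    · ring
    · ring
  have h2 : ∀ j, ∑ k, fubiniStudy x j k * v j * conj (v k) =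
      ((nsq x : ℂ))⁻¹ * (v j * conj (v j)) -
        (v j * conj (x j)) * (∑ k, x k * conj (v k)) / (nsq x : ℂ) ^ 2 := by
    intro j
    rw [Finset.sum_congr rfl fun k _ => h1 j k, Finset.sum_sub_distrib, Finset.sum_ite_eq,
      if_pos (Finset.mem_univ j), Finset.mul_sum, Finset.sum_div]
  rw [Finset.sum_congr rfl fun j _ => h2 j, Finset.sum_sub_distrib, ← Finset.mul_sum,
    ← Finset.sum_div, ← Finset.sum_mul, ← FS_nsq_cast v]
  have h3 : (∑ j, v j * conj (x j)) = herm v x := rfl
  have h4 : (∑ k, x k * conj (v k)) = conj (herm v x) := by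
    rw [herm, map_sum]
    exact Finset.sum_congr rfl fun k _ => by rw [map_mul, Complex.conj_conj, mul_comm]
  rw [h3, h4, ← FS_normSq_cast]
  push_cast
  field_simp

theorem FS_zero : fubiniStudy 0 = 0 := by
  ext j k
  simp [fubiniStudy, nsq]

theorem FS_conj (x : V) (j k : Fin 3) : conj (fubiniStudy x j k) = fubiniStudy x k j := by
  unfold fubiniStudy
  rw [map_sub, map_div₀, map_mul, map_pow, Complex.conj_conj, Complex.conj_ofReal]
  have h : (starRingEnd ℂ) (if j = k then ((nsq x : ℂ))⁻¹ else 0) =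
      if k = j then ((nsq x : ℂ))⁻¹ else 0 := by
    by_cases hjk : j = k
    · rw [if_pos hjk, if_pos hjk.symm, map_inv₀, Complex.conj_ofReal]
    · rw [if_neg hjk, if_neg (Ne.symm hjk), map_zero]
  rw [h, mul_comm (x j)]

theorem fubiniStudy_posSemidef (x : V) : (fubiniStudy x).PosSemidef := by
  by_cases hx : x = 0
  · subst hx
    rw [FS_zero]
    exact Matrix.PosSemidef.zero
  · refine Matrix.PosSemidef.of_dotProduct_mulVec_nonneg ?_ ?_
    · ext j k
      rw [Matrix.conjTranspose_apply]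
      exact FS_conj x k j
    · intro v
      have h1 : star v ⬝ᵥ (Matrix.mulVec (fubiniStudy x) v) =
          ∑ j, ∑ k, fubiniStudy x j k * (star v) j * conj ((star v) k) := by
        simp only [dotProduct, Matrix.mulVec, Finset.mul_sum]
        refine Finset.sum_congr rfl fun j _ => Finset.sum_congr rfl fun k _ => ?_
        simp only [Pi.star_apply, RCLike.star_def, Complex.conj_conj]
        ring
      rw [h1, fubiniStudy_quad x hx, FS_lagrange]
      have h2 : (0 : ℝ) ≤ (Complex.normSq ((star v) 0 * x 1 - (star v) 1 * x 0) +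
          Complex.normSq ((star v) 0 * x 2 - (star v) 2 * x 0) +
          Complex.normSq ((star v) 1 * x 2 - (star v) 2 * x 1)) / nsq x ^ 2 := by
        refine div_nonneg (add_nonneg (add_nonneg ?_ ?_) ?_) (sq_nonneg _) <;>
          exact Complex.normSq_nonneg _
      exact_mod_cast h2

theorem FS_smooth_coord (j : Fin 3) : ContDiff ℝ ∞ (fun x : V => x j) :=
  contDiff_apply ℝ ℂ j

theorem FS_smooth_conj (j : Fin 3) : ContDiff ℝ ∞ (fun x : V => conj (x j)) :=
  Complex.conjCLE.contDiff.comp (FS_smooth_coord j)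

theorem FS_smooth_nsq : ContDiff ℝ ∞ (fun x : V => ((nsq x : ℝ) : ℂ)) := by
  have h : (fun x : V => ((nsq x : ℝ) : ℂ)) = fun x => ∑ j, x j * conj (x j) :=
    funext fun x => FS_nsq_cast x
  rw [h]
  exact ContDiff.sum fun j _ => (FS_smooth_coord j).mul (FS_smooth_conj j)

theorem FS_smooth_inv : ContDiffOn ℝ ∞ (fun x : V => ((nsq x : ℝ) : ℂ)⁻¹) {0}ᶜ :=
  FS_smooth_nsq.contDiffOn.inv fun x hx => by exact_mod_cast (nsq_pos hx).ne'

theorem FS_smooth_fs (j k : Fin 3) : ContDiffOn ℝ ∞ (fun x : V => fubiniStudy x j k) {0}ᶜ := by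
  have h : (fun x : V => fubiniStudy x j k) = fun x => (if j = k then ((nsq x : ℂ))⁻¹ else 0) -
      conj (x j) * x k * (((nsq x : ℝ) : ℂ)⁻¹ * ((nsq x : ℝ) : ℂ)⁻¹) := by
    funext x
    unfold fubiniStudy
    rw [div_eq_mul_inv, ← mul_inv, ← pow_two]
  rw [h]
  refine ContDiffOn.sub ?_ ((((FS_smooth_conj j).mul (FS_smooth_coord k)).contDiffOn).mul
    (FS_smooth_inv.mul FS_smooth_inv))
  by_cases hjk : j = k
  · simp only [if_pos hjk]
    exact FS_smooth_inv
  · simp only [if_neg hjk]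
    exact contDiffOn_const

theorem FS_hom (c : ℂ) (x : V) (hc : c ≠ 0) :
    fubiniStudy (c • x) = ((Complex.normSq c : ℂ))⁻¹ • fubiniStudy x := by
  have hcc : (starRingEnd ℂ) c ≠ 0 := by simpa using hc
  ext j k
  rw [Matrix.smul_apply, smul_eq_mul]
  unfold fubiniStudy
  simp only [nsq_smul, Pi.smul_apply, smul_eq_mul, map_mul, Complex.ofReal_mul]
  rw [FS_normSq_cast c]
  by_cases hN : ((nsq x : ℝ) : ℂ) = 0
  · simp [hN]
  · split_ifs with hjk
    · field_simp
    · rw [zero_sub, zero_sub]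
      field_simp

theorem FS_basic_left (x : V) (hx : x ≠ 0) (k : Fin 3) : ∑ j, x j * fubiniStudy x j k = 0 := by
  have hN : ((nsq x : ℝ) : ℂ) ≠ 0 := by exact_mod_cast (nsq_pos hx).ne'
  have h1 : ∀ j, x j * fubiniStudy x j k = (if j = k then x j * ((nsq x : ℂ))⁻¹ else 0) -
      (x j * conj (x j)) * (x k / (nsq x : ℂ) ^ 2) := by
    intro j
    unfold fubiniStudy
    split_ifs with h
    · ring
    · ring
  rw [Finset.sum_congr rfl fun j _ => h1 j, Finset.sum_sub_distrib, Finset.sum_ite_eq',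
    if_pos (Finset.mem_univ k), ← Finset.sum_mul, ← FS_nsq_cast]
  field_simp
  ring

theorem FS_basic_right (x : V) (hx : x ≠ 0) (j : Fin 3) :
    ∑ k, fubiniStudy x j k * conj (x k) = 0 := by
  have h := congrArg (starRingEnd ℂ) (FS_basic_left x hx j)
  rw [map_sum, map_zero] at h
  rw [← h]
  refine Finset.sum_congr rfl fun k _ => ?_
  rw [map_mul, FS_conj, mul_comm]

/-- Building a form from a smooth homogeneous basic matrix field given off the origin. -/
theorem FS_build (F : V → Matrix (Fin 3) (Fin 3) ℂ)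
    (h1 : ∀ j k, ContDiffOn ℝ ∞ (fun x => F x j k) {0}ᶜ)
    (h3 : ∀ (c : ℂ) (x : V), c ≠ 0 → x ≠ 0 → F (c • x) = ((Complex.normSq c : ℂ))⁻¹ • F x)
    (h4 : ∀ x : V, x ≠ 0 → (∀ k, ∑ j, x j * F x j k = 0) ∧ (∀ j, ∑ k, F x j k * conj (x k) = 0)) :
    ∃ A : Form11, ∀ x : V, x ≠ 0 → A.1 x = F x := by
  classical
  refine ⟨⟨fun x => if x = 0 then 0 else F x, ?_, ?_, ?_, ?_⟩, fun x hx => if_neg hx⟩
  · intro j k
    refine (h1 j k).congr fun x hx => ?_
    have hx' : x ≠ 0 := hx
    show (if x = 0 then (0 : Matrix (Fin 3) (Fin 3) ℂ) else F x) j k = _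
    rw [if_neg hx']
  · exact if_pos rfl
  · intro c x hc hx
    show (if c • x = 0 then (0 : Matrix (Fin 3) (Fin 3) ℂ) else F (c • x)) =
      ((Complex.normSq c : ℂ))⁻¹ • (if x = 0 then (0 : Matrix (Fin 3) (Fin 3) ℂ) else F x)
    rw [if_neg (smul_ne_zero hc hx), if_neg hx, h3 c x hc hx]
  · intro x hx
    show (∀ k, ∑ j, x j * (if x = 0 then (0 : Matrix (Fin 3) (Fin 3) ℂ) else F x) j k = 0) ∧
      (∀ j, ∑ k, (if x = 0 then (0 : Matrix (Fin 3) (Fin 3) ℂ) else F x) j k * conj (x k) = 0)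
    rw [if_neg hx]
    exact h4 x hx

theorem exists_scaled (u : V → ℂ) (hu : IsFun u) :
    ∃ A : Form11, ∀ x : V, x ≠ 0 → A.1 x = u x • fubiniStudy x := by
  refine FS_build (fun x => u x • fubiniStudy x) ?_ ?_ ?_
  · intro j k
    exact hu.smooth.mul (FS_smooth_fs j k)
  · intro c x hc hx
    show u (c • x) • fubiniStudy (c • x) = _
    rw [hu.hom c x hc hx, FS_hom c x hc, smul_comm]
  · intro x hx
    refine ⟨fun k => ?_, fun j => ?_⟩
    · have h := FS_basic_left x hx k
      rw [← mul_zero (u x), ← h, Finset.mul_sum]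
      refine Finset.sum_congr rfl fun j _ => ?_
      simp only [Matrix.smul_apply, smul_eq_mul]
      ring
    · have h := FS_basic_right x hx j
      rw [← mul_zero (u x), ← h, Finset.mul_sum]
      refine Finset.sum_congr rfl fun k _ => ?_
      simp only [Matrix.smul_apply, smul_eq_mul]
      ring

theorem exists_mul (A : Form11) (u : V → ℂ) (hu : IsFun u) :
    ∃ B : Form11, ∀ x : V, x ≠ 0 → B.1 x = u x • A.1 x := by
  obtain ⟨a1, -, a3, a4⟩ := A.2
  refine FS_build (fun x => u x • A.1 x) ?_ ?_ ?_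
  · intro j k
    exact hu.smooth.mul (a1 j k)
  · intro c x hc hx
    show u (c • x) • A.1 (c • x) = _
    rw [hu.hom c x hc hx, a3 c x hc hx, smul_comm]
  · intro x hx
    refine ⟨fun k => ?_, fun j => ?_⟩
    · have h := (a4 x hx).1 k
      rw [← mul_zero (u x), ← h, Finset.mul_sum]
      refine Finset.sum_congr rfl fun j _ => ?_
      simp only [Matrix.smul_apply, smul_eq_mul]
      ring
    · have h := (a4 x hx).2 j
      rw [← mul_zero (u x), ← h, Finset.mul_sum]
      refine Finset.sum_congr rfl fun k _ => ?_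
      simp only [Matrix.smul_apply, smul_eq_mul]
      ring

theorem exists_adj (A : Form11) : ∃ B : Form11, ∀ x : V, B.1 x = (A.1 x).conjTranspose := by
  obtain ⟨a1, a2, a3, a4⟩ := A.2
  refine ⟨⟨fun x => (A.1 x).conjTranspose, ?_, ?_, ?_, ?_⟩, fun x => rfl⟩
  · intro j k
    exact Complex.conjCLE.contDiff.comp_contDiffOn (a1 k j)
  · show (A.1 0).conjTranspose = 0
    rw [a2, Matrix.conjTranspose_zero]
  · intro c x hc hx
    show (A.1 (c • x)).conjTranspose = _
    rw [a3 c x hc hx, Matrix.conjTranspose_smul, star_inv₀, RCLike.star_def, Complex.conj_ofReal]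
  · intro x hx
    refine ⟨fun k => ?_, fun j => ?_⟩
    · have h := congrArg (starRingEnd ℂ) ((a4 x hx).2 k)
      rw [map_sum, map_zero] at h
      rw [← h]
      refine Finset.sum_congr rfl fun j _ => ?_
      simp only [Matrix.conjTranspose_apply, RCLike.star_def, map_mul, Complex.conj_conj]
      ring
    · have h := congrArg (starRingEnd ℂ) ((a4 x hx).1 j)
      rw [map_sum, map_zero] at h
      rw [← h]
      refine Finset.sum_congr rfl fun k _ => ?_
      simp only [Matrix.conjTranspose_apply, RCLike.star_def, map_mul]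
      ring

end Pool.Agent.H24.CU
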