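import Pool.Agent.H24.CU.CL

/-!
# Row GI (global degree inequality)

PROOF.  `P` homogeneous of degree `k`, `s > 0`, `f y = log (normSq (P y) + s^2 nsq y ^ k)` for `y ≠ 0`
(the argument is positive), smooth off `0`, `f (t y) = f y + k log (normSq t)`.
`v y = f y - k log (nsq y)` is `IsFun` (degree 0).  (1) levi of `log ∘ nsq`:
`levi (log nsq) y w = (nsq y nsq w - |herm w y|^2)/nsq y^2` (`levi_comp`, `nsq = ∑ normSq (y_j)`,
`levi nsq y w = nsq w`, `gradm nsq nsq y w = |herm w y|^2`), so for `w = vec y` it is `nsq (α y)/nsq y^2`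
(`nsq_cross`), and `levi (log nsq) y (vec y) / nsq (α y) = 1` if `nsq y = 1`, `α y ≠ 0`.
(2) `levi f y w >= 0` for `y ≠ 0`: it is `log` of a sum of squares of moduli of holomorphic functions:
`nsq y ^ k = ∑_I |y^I|^2 (multinomial)`; simplest: with `A = normSq (P y)`, `B = s^2 nsq y^k = s^2 exp (k log nsq y)`,
`levi A = |a'|^2`, `gradm A A = A |a'|^2`, `levi B >= gradm B B / B` (because `log B` has `levi >= 0`), and
`(A + B)(levi A + levi B) >= gradm (A+B) (A+B)` by `gradm A B <= sqrt(gradm A A gradm B B) <= sqrt (A B |a'|^2 β)`,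
`β = gradm B B / B`, AM-GM (`A β + B |a'|^2 >= 2 sqrt(A β B |a'|^2)`).  So `levi (log (A+B)) >= 0`.
(3) `0 = ∫ levi v y (vec y)/nsq α dμ` (`Harm.harm`), integrable (`integrable_levi_div`), and on the
sphere off `{α = 0}`: `levi f y (vec y)/nsq α = levi v y (vec y)/nsq α + k >= 0`.  Therefore
`∫⁻ ofReal (levi f y (vec y)/nsq (α y)) dμ = ofReal (k μ univ)`; restrict to `cone E`, use the lintegral part
of `transfer` with `Φ y = levi f y (vec y)` (weight: `levi_weight`; measurability: continuous off `0`; to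
have the weight at all `y ≠ 0` nothing else is needed) and `levi_psi`.
-/

namespace Pool.Agent.H24.CU

open MeasureTheory
open scoped ComplexConjugate ContDiff

variable {𝓕 : Foliation} {μ : Measure V} {y₀ : V} {X : ℂ × ℂ → ℂ × ℂ} {c₀ : ℂ × ℂ → ℂ} {r : ℝ}
  {M : Measure (ℂ × ℂ)}

theorem GI_two_le : (2 : WithTop ℕ∞) ≤ ∞ := WithTop.coe_le_coe.2 le_top

theorem GI_fderiv_apply (j : Fin 3) (y w : V) : fderiv ℂ (fun y : V => y j) y w = w j := by
  rw [(hasFDerivAt_apply (𝕜 := ℂ) j y).fderiv]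
  rfl

theorem GI_diff_apply (j : Fin 3) (y : V) : DifferentiableAt ℂ (fun y : V => y j) y :=
  (hasFDerivAt_apply (𝕜 := ℂ) j y).differentiableAt

theorem GI_cd (j : Fin 3) (y : V) : ContDiffAt ℝ 2 (fun y : V => Complex.normSq (y j)) y :=
  ((RN_normSq_contDiff.comp (contDiff_apply ℝ ℂ j)).of_le GI_two_le).contDiffAt

theorem GI_nsq2 (y : V) : ContDiffAt ℝ 2 nsq y :=
  (RN_nsq_contDiff.of_le GI_two_le).contDiffAt

theorem GI_levi_nsq (y w : V) : levi nsq y w = nsq w := by
  have h0 : nsq = fun y : V =>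
      (Complex.normSq (y 0) + Complex.normSq (y 1)) + Complex.normSq (y 2) := by
    funext y
    simp [nsq, Fin.sum_univ_three]
  have l : ∀ j : Fin 3, levi (fun y : V => Complex.normSq (y j)) y w =
      Complex.normSq (w j) := by
    intro j
    have h1 := levi_normSq (H := fun y : V => y j) (p := y)
      (Filter.Eventually.of_forall fun q => GI_diff_apply j q)
      ((contDiff_apply ℝ ℂ j).contDiffAt) w
    rw [h1, GI_fderiv_apply]
  rw [h0, levi_add ((GI_cd 0 y).add (GI_cd 1 y)) (GI_cd 2 y), levi_add (GI_cd 0 y) (GI_cd 1 y),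
    l, l, l]

theorem GI_fderiv_nsq (y w : V) : fderiv ℝ nsq y w = 2 * (herm w y).re := by
  have h0 : nsq = fun y : V => ∑ j, Complex.normSq (y j) := rfl
  have hd : ∀ j : Fin 3, DifferentiableAt ℝ (fun y : V => Complex.normSq (y j)) y := fun j =>
    (GI_cd j y).differentiableAt (by simp)
  rw [h0, fderiv_fun_sum fun j _ => hd j]
  simp only [sum_apply]
  have h1 : ∀ j : Fin 3, fderiv ℝ (fun y : V => Complex.normSq (y j)) y w =
      2 * (conj (y j) * w j).re := by
    intro j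
    rw [fderiv_normSq (H := fun y : V => y j) (GI_diff_apply j y) w, GI_fderiv_apply]
  simp only [h1]
  unfold herm
  rw [← Finset.mul_sum, Complex.re_sum]
  congr 1
  exact Finset.sum_congr rfl fun j _ => by rw [mul_comm]

theorem GI_herm_smul (c : ℂ) (w y : V) : herm (c • w) y = c * herm w y := by
  unfold herm
  rw [Finset.mul_sum]
  exact Finset.sum_congr rfl fun j _ => by simp [mul_assoc]

theorem GI_gradm_nsq (y w : V) : gradm nsq nsq y w = Complex.normSq (herm w y) := by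
  unfold gradm
  rw [GI_fderiv_nsq, GI_fderiv_nsq, GI_herm_smul, Complex.normSq_apply]
  simp only [Complex.mul_re, Complex.I_re, Complex.I_im]
  ring

/-- Levi form of a logarithm. -/
theorem GI_levi_log {g : V → ℝ} {y : V} (hg : ContDiffAt ℝ 2 g y) (h0 : g y ≠ 0) (w : V) :
    levi (fun x => Real.log (g x)) y w =
      (g y * levi g y w - gradm g g y w) / g y ^ 2 := by
  rw [levi_comp hg (Real.contDiffAt_log.2 h0)]
  have h1 : deriv Real.log (g y) = (g y)⁻¹ := Real.deriv_log _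
  have h2 : deriv (deriv Real.log) (g y) = - ((g y) ^ 2)⁻¹ := by
    rw [Real.deriv_log']
    exact deriv_inv
  rw [h1, h2]
  field_simp
  ring

theorem levi_log_nsq (y w : V) (hy : y ≠ 0) :
    levi (fun x => Real.log (nsq x)) y w =
      (nsq y * nsq w - Complex.normSq (herm w y)) / nsq y ^ 2 := by
  rw [GI_levi_log (GI_nsq2 y) (nsq_pos hy).ne', GI_levi_nsq, GI_gradm_nsq]

theorem GI_evalhom (P : MvPolynomial (Fin 3) ℂ) (n : ℕ) (hP : P.IsHomogeneous n) (c : ℂ)
    (x : V) : MvPolynomial.eval (c • x) P = c ^ n * MvPolynomial.eval x P := by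
  rw [MvPolynomial.eval_eq', MvPolynomial.eval_eq', Finset.mul_sum]
  refine Finset.sum_congr rfl fun d hd => ?_
  have h1 := hP (MvPolynomial.mem_support_iff.1 hd)
  have h2 : ∑ i, d i = n := by
    rw [← h1, Finsupp.weight_apply, Finsupp.sum_fintype _ _ (by simp)]
    simp
  have h3 : ∏ i, (c • x) i ^ d i = c ^ n * ∏ i, x i ^ d i := by
    rw [← h2, ← Finset.prod_pow_eq_pow_sum, ← Finset.prod_mul_distrib]
    refine Finset.prod_congr rfl fun i _ => ?_
    rw [Pi.smul_apply, smul_eq_mul, mul_pow]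
  rw [h3]
  ring

/-- Quadratic inequality: plurisubharmonicity of the logarithm of a sum. -/
theorem GI_add {A B : V → ℝ} {y : V} (hA : ContDiffAt ℝ 2 A y) (hB : ContDiffAt ℝ 2 B y)
    (hA0 : 0 ≤ A y) (hB0 : 0 < B y) (w : V) (hlA : 0 ≤ levi A y w)
    (h1 : gradm A A y w ≤ A y * levi A y w) (h2 : gradm B B y w ≤ B y * levi B y w) :
    0 ≤ levi (fun x => Real.log (A x + B x)) y w := by
  have hAB : ContDiffAt ℝ 2 (fun x => A x + B x) y := hA.add hB
  have hpos : 0 < A y + B y := by linarith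
  rw [GI_levi_log hAB hpos.ne', levi_add hA hB]
  have hg : gradm (fun x => A x + B x) (fun x => A x + B x) y w =
      gradm A A y w + 2 * gradm A B y w + gradm B B y w := by
    unfold gradm
    rw [fderiv_fun_add (hA.differentiableAt (by simp)) (hB.differentiableAt (by simp))]
    simp only [add_apply]
    ring
  rw [hg]
  refine div_nonneg ?_ (by positivity)
  have h3 := gradm_sq_le A B y w
  have h4 := gradm_self_nonneg A y w
  have h5 := gradm_self_nonneg B y w
  have h6 : 0 ≤ levi B y w := by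
    by_contra hneg
    push Not at hneg
    have := mul_neg_of_pos_of_neg hB0 hneg
    linarith
  have h7 : 2 * gradm A B y w ≤ A y * levi B y w + B y * levi A y w := by
    have h8 : (2 * gradm A B y w) ^ 2 ≤ (A y * levi B y w + B y * levi A y w) ^ 2 := by
      have h9 : gradm A A y w * gradm B B y w ≤ (A y * levi A y w) * (B y * levi B y w) :=
        mul_le_mul h1 h2 h5 (mul_nonneg hA0 hlA)
      nlinarith [sq_nonneg (A y * levi B y w - B y * levi A y w)]
    exact (abs_le_of_sq_le_sq' h8 (by positivity)).2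
  nlinarith

theorem GI_normSq_eval (P : MvPolynomial (Fin 3) ℂ) (y w : V) :
    0 ≤ levi (fun x => Complex.normSq (MvPolynomial.eval x P)) y w ∧
    gradm (fun x => Complex.normSq (MvPolynomial.eval x P))
      (fun x => Complex.normSq (MvPolynomial.eval x P)) y w =
      Complex.normSq (MvPolynomial.eval y P) *
        levi (fun x => Complex.normSq (MvPolynomial.eval x P)) y w := by
  have hd : ∀ q : V, DifferentiableAt ℂ (fun x : V => MvPolynomial.eval x P) q := by
    intro q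
    have h1 := (AnalyticOnNhd.eval_mvPolynomial (𝕜 := ℂ) P) q (Set.mem_univ q)
    exact h1.differentiableAt
  have hc : ContDiffAt ℝ 2 (fun x : V => MvPolynomial.eval x P) y :=
    ((RN_poly_contDiff P).of_le GI_two_le).contDiffAt
  have h1 := levi_normSq (H := fun x : V => MvPolynomial.eval x P) (p := y)
    (Filter.Eventually.of_forall hd) hc w
  rw [h1]
  refine ⟨Complex.normSq_nonneg _, ?_⟩
  have h2 := fderiv_normSq (H := fun x : V => MvPolynomial.eval x P) (hd y)
  unfold gradm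
  rw [h2, h2, map_smul, ← Complex.normSq_conj (MvPolynomial.eval y P), ← Complex.normSq_mul,
    Complex.normSq_apply (_ * _)]
  simp only [smul_eq_mul, Complex.mul_re, Complex.mul_im, Complex.I_re, Complex.I_im]
  ring

/-- The plurisubharmonic weight. -/
noncomputable def GI_f (P : MvPolynomial (Fin 3) ℂ) (s : ℝ) (k : ℕ) (y : V) : ℝ :=
  Real.log (Complex.normSq (MvPolynomial.eval y P) + s ^ 2 * nsq y ^ k)

theorem GI_arg_pos (P : MvPolynomial (Fin 3) ℂ) (s : ℝ) (hs : 0 < s) (k : ℕ) {y : V}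
    (hy : y ≠ 0) : 0 < Complex.normSq (MvPolynomial.eval y P) + s ^ 2 * nsq y ^ k := by
  have h1 := nsq_pos hy
  have h2 := Complex.normSq_nonneg (MvPolynomial.eval y P)
  positivity

theorem GI_arg_smooth (P : MvPolynomial (Fin 3) ℂ) (s : ℝ) (k : ℕ) :
    ContDiff ℝ ∞ (fun y : V => Complex.normSq (MvPolynomial.eval y P) + s ^ 2 * nsq y ^ k) :=
  (RN_normSq_contDiff.comp (RN_poly_contDiff P)).add
    (contDiff_const.mul (RN_nsq_contDiff.pow k))

theorem GI_f_smooth (P : MvPolynomial (Fin 3) ℂ) (s : ℝ) (hs : 0 < s) (k : ℕ) :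
    ContDiffOn ℝ ∞ (GI_f P s k) {0}ᶜ := by
  intro y hy
  exact ((Real.contDiffAt_log.2 (GI_arg_pos P s hs k hy).ne').comp y
    (GI_arg_smooth P s k).contDiffAt).contDiffWithinAt

theorem GI_f_at (P : MvPolynomial (Fin 3) ℂ) (s : ℝ) (hs : 0 < s) (k : ℕ) {y : V}
    (hy : y ≠ 0) : ContDiffAt ℝ 2 (GI_f P s k) y :=
  ((GI_f_smooth P s hs k).contDiffAt (isOpen_compl_singleton.mem_nhds hy)).of_le
    GI_two_le

theorem GI_f_hom (P : MvPolynomial (Fin 3) ℂ) (s : ℝ) (hs : 0 < s) (k : ℕ)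
    (hP : P.IsHomogeneous k) (t : ℂ) (y : V) (ht : t ≠ 0) (hy : y ≠ 0) :
    GI_f P s k (t • y) = GI_f P s k y + k * Real.log (Complex.normSq t) := by
  unfold GI_f
  have h1 : MvPolynomial.eval (t • y) P = t ^ k * MvPolynomial.eval y P := by
    exact GI_evalhom P k hP t y
  have h3 : 0 < Complex.normSq t := Complex.normSq_pos.2 ht
  rw [h1, nsq_smul, Complex.normSq_mul, map_pow, mul_pow]
  have h4 : Complex.normSq t ^ k * Complex.normSq (MvPolynomial.eval y P) +
      s ^ 2 * (Complex.normSq t ^ k * nsq y ^ k) =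
      Complex.normSq t ^ k *
        (Complex.normSq (MvPolynomial.eval y P) + s ^ 2 * nsq y ^ k) := by ring
  rw [h4, Real.log_mul (pow_pos h3 k).ne' (GI_arg_pos P s hs k hy).ne', Real.log_pow]
  ring

theorem GI_f_levi_nonneg (P : MvPolynomial (Fin 3) ℂ) (s : ℝ) (hs : 0 < s) (k : ℕ) {y : V}
    (hy : y ≠ 0) (w : V) : 0 ≤ levi (GI_f P s k) y w := by
  have hn := nsq_pos hy
  obtain ⟨a1, a2⟩ := GI_normSq_eval P y w
  have hA : ContDiffAt ℝ 2 (fun x : V => Complex.normSq (MvPolynomial.eval x P)) y :=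
    ((RN_normSq_contDiff.comp (RN_poly_contDiff P)).of_le
      GI_two_le).contDiffAt
  have hBs : ContDiff ℝ ∞ (fun x : V => s ^ 2 * nsq x ^ k) :=
    contDiff_const.mul (RN_nsq_contDiff.pow k)
  have hB : ContDiffAt ℝ 2 (fun x : V => s ^ 2 * nsq x ^ k) y :=
    (hBs.of_le GI_two_le).contDiffAt
  have hB0 : 0 < s ^ 2 * nsq y ^ k := by positivity
  refine GI_add hA hB (Complex.normSq_nonneg _) hB0 w a1 a2.le ?_
  have h1 := GI_levi_log hB hB0.ne' w
  have h2 : levi (fun x : V => Real.log (s ^ 2 * nsq x ^ k)) y w =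
      k * levi (fun x => Real.log (nsq x)) y w := by
    have h3 : (fun x : V => Real.log (s ^ 2 * nsq x ^ k)) =ᶠ[nhds y]
        fun x => Real.log (s ^ 2) + k * Real.log (nsq x) := by
      filter_upwards [isOpen_compl_singleton.mem_nhds hy] with x hx
      rw [Real.log_mul (by positivity) (pow_pos (nsq_pos hx) k).ne', Real.log_pow (x := nsq x) k]
    have h4 : ContDiffAt ℝ 2 (fun x : V => Real.log (nsq x)) y :=
      (Real.contDiffAt_log.2 hn.ne').comp y (GI_nsq2 y)
    rw [levi_congr h3, levi_add contDiffAt_const (contDiffAt_const.mul h4), levi_const,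
      levi_const_mul h4, zero_add]
  have h5 : 0 ≤ levi (fun x => Real.log (nsq x)) y w := by
    rw [levi_log_nsq y w hy]
    refine div_nonneg ?_ (by positivity)
    rw [← nsq_cross]
    exact nsq_nonneg _
  rw [h2] at h1
  have h6 : 0 ≤ ((s ^ 2 * nsq y ^ k) * levi (fun x : V => s ^ 2 * nsq x ^ k) y w -
      gradm (fun x : V => s ^ 2 * nsq x ^ k) (fun x : V => s ^ 2 * nsq x ^ k) y w) /
      (s ^ 2 * nsq y ^ k) ^ 2 := by
    rw [← h1]
    positivity
  have h7 : 0 < (s ^ 2 * nsq y ^ k) ^ 2 := by positivity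
  have h8 := (div_nonneg_iff.1 h6).resolve_right (fun h => absurd h.2 (not_le.2 h7))
  linarith [h8.1]

theorem GI_measurable (g : V → ℝ) (hg : ContDiffOn ℝ ∞ g {0}ᶜ) (𝓕 : Foliation) :
    Measurable fun y => levi g y (𝓕.vec y) := by
  refine measurable_of_continuousOn_compl_singleton 0 ?_
  have h1 : ContDiffOn ℝ ∞ (fderiv ℝ g) {0}ᶜ :=
    hg.fderiv_of_isOpen isOpen_compl_singleton (by simp)
  have h2 : ContinuousOn (fderiv ℝ (fderiv ℝ g)) {0}ᶜ :=
    (h1.fderiv_of_isOpen isOpen_compl_singleton (m := ∞) (by simp)).continuousOn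
  have hv : ContinuousOn 𝓕.vec {0}ᶜ := (RN_vec_contDiff 𝓕).continuous.continuousOn
  have hv2 : ContinuousOn (fun y => Complex.I • 𝓕.vec y) {0}ᶜ := by
    have h := hv.const_smul Complex.I
    exact h
  have h3 : ContinuousOn (fun y => (fderiv ℝ (fderiv ℝ g) y (𝓕.vec y) (𝓕.vec y) +
      fderiv ℝ (fderiv ℝ g) y (Complex.I • 𝓕.vec y) (Complex.I • 𝓕.vec y)) / 4) {0}ᶜ :=
    (((h2.clm_apply hv).clm_apply hv).add ((h2.clm_apply hv2).clm_apply hv2)).div_const 4
  refine h3.congr fun y hy => ?_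
  have h4 : ContDiffAt ℝ 2 g y :=
    (hg.contDiffAt (isOpen_compl_singleton.mem_nhds hy)).of_le GI_two_le
  change levi g y (𝓕.vec y) = _
  unfold levi
  rw [LC_app h4, LC_app h4]

theorem global_ineq (h : Chart 𝓕 μ y₀ X c₀ r M) (hμ : Harm 𝓕 μ) (k : ℕ)
    (P : MvPolynomial (Fin 3) ℂ) (hP : P.IsHomogeneous k) (s : ℝ) (hs : 0 < s)
    (E : Set (ℂ × ℂ)) (hE : MeasurableSet E) (hE2 : E ⊆ Metric.ball 0 r) :
    ∫⁻ p in E, ENNReal.ofReal (levi (fun q => Real.log (Complex.normSq
        (MvPolynomial.eval (𝓕.psi y₀ q) P) + s ^ 2 * nsq (𝓕.psi y₀ q) ^ k)) p (X p)) ∂M ≤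
      ENNReal.ofReal (k * (μ Set.univ).toReal) := by
  have hfin : IsFiniteMeasure μ := hμ.fin
  set f : V → ℝ := GI_f P s k with hf
  have hfs := GI_f_smooth P s hs k
  have hf2 : ContDiffOn ℝ 2 f {0}ᶜ := hfs.of_le GI_two_le
  have hhom : ∀ (t : ℂ) (y : V), t ≠ 0 → y ≠ 0 →
      f (t • y) = f y + (k : ℝ) * Real.log (Complex.normSq t) := fun t y ht hy =>
    GI_f_hom P s hs k hP t y ht hy
  have hL : ∀ y : V, y ≠ 0 → ContDiffAt ℝ 2 (fun x : V => Real.log (nsq x)) y := fun y hy =>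
    (Real.contDiffAt_log.2 (nsq_pos hy).ne').comp y (GI_nsq2 y)
  -- the function on the projective plane
  have hv : IsFun (fun x => (((f x - k * Real.log (nsq x) : ℝ)) : ℂ)) := by
    constructor
    · have h1 : ContDiffOn ℝ ∞ (fun x : V => Real.log (nsq x)) {0}ᶜ := fun y hy =>
        ((Real.contDiffAt_log.2 (nsq_pos hy).ne').comp y
          RN_nsq_contDiff.contDiffAt).contDiffWithinAt
      exact Complex.ofRealCLM.contDiff.comp_contDiffOn (hfs.sub (contDiffOn_const.mul h1))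
    · intro c x hc hx
      have h1 : 0 < Complex.normSq c := Complex.normSq_pos.2 hc
      rw [hhom c x hc hx, nsq_smul, Real.log_mul h1.ne' (nsq_pos hx).ne']
      congr 1
      ring
  have h0 := hμ.harm (fun x => f x - k * Real.log (nsq x)) hv
  have hi := integrable_levi_div 𝓕 μ hμ.sph (fun x => f x - k * Real.log (nsq x)) hv
  have hae : ∀ᵐ y ∂μ, levi f y (𝓕.vec y) / nsq (𝓕.alpha y) =
      levi (fun x => f x - k * Real.log (nsq x)) y (𝓕.vec y) / nsq (𝓕.alpha y) + k := by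
    have e1 : ∀ᵐ y ∂μ, nsq y = 1 := hμ.sph
    have e2 : ∀ᵐ y ∂μ, 𝓕.alpha y ≠ 0 := by
      have h3 : μ {y | ¬ (𝓕.alpha y ≠ 0)} = 0 := by
        simpa only [not_not] using hμ.sing
      exact h3
    filter_upwards [e1, e2] with y hy1 hy2
    have hy0 : y ≠ 0 := RN_sphere_ne hy1
    have hL0 := hL y hy0
    have hfy : ContDiffAt ℝ 2 f y := GI_f_at P s hs k hy0
    rw [levi_sub hfy (contDiffAt_const.mul hL0), levi_const_mul hL0, levi_log_nsq y _ hy0,
      ← nsq_cross, hy1]
    have h4 : crossProduct y (𝓕.vec y) = 𝓕.alpha y := rfl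
    rw [h4]
    have h5 : nsq (𝓕.alpha y) ≠ 0 := (nsq_pos hy2).ne'
    field_simp
    ring
  have hnn : ∀ᵐ y ∂μ, 0 ≤ levi f y (𝓕.vec y) / nsq (𝓕.alpha y) := by
    have e1 : ∀ᵐ y ∂μ, nsq y = 1 := hμ.sph
    filter_upwards [e1] with y hy1
    exact div_nonneg (GI_f_levi_nonneg P s hs k (RN_sphere_ne hy1) _) (nsq_nonneg _)
  have hif : Integrable (fun y => levi f y (𝓕.vec y) / nsq (𝓕.alpha y)) μ :=
    (hi.add (integrable_const (k : ℝ))).congr (by
      filter_upwards [hae] with y hy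
      rw [hy]
      rfl)
  have hint : ∫ y, levi f y (𝓕.vec y) / nsq (𝓕.alpha y) ∂μ = k * (μ Set.univ).toReal := by
    rw [integral_congr_ae hae, integral_add hi (integrable_const _), h0, integral_const,
      zero_add, smul_eq_mul, mul_comm]
    rfl
  have htot : ∫⁻ y, ENNReal.ofReal (levi f y (𝓕.vec y) / nsq (𝓕.alpha y)) ∂μ =
      ENNReal.ofReal (k * (μ Set.univ).toReal) := by
    rw [← hint, ofReal_integral_eq_lintegral_ofReal hif hnn]
  have htr := (h.transfer (fun y => levi f y (𝓕.vec y)) (GI_measurable f hfs 𝓕)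
    (fun t y ht hy => levi_weight 𝓕 f hf2 k hhom t y ht hy) E hE hE2).2
  have hps : ∀ p : ℂ × ℂ, levi f (𝓕.psi y₀ p) (𝓕.vec (𝓕.psi y₀ p)) =
      levi (fun q => Real.log (Complex.normSq
        (MvPolynomial.eval (𝓕.psi y₀ q) P) + s ^ 2 * nsq (𝓕.psi y₀ q) ^ k)) p (X p) :=
    fun p => h.levi_psi f hf2 k hhom p
  simp only [hps] at htr
  rw [← htr, ← htot]
  exact setLIntegral_le_lintegral _ _

end Pool.Agent.H24.CU
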