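import Pool.Agent.H24.CU.SDefs
import Pool.Agent.H24.CU.AL
import Pool.Agent.H24.CU.LC

/-!
# Row KA (pointwise inequality for the transversal variation)

Bilinear product `a·b = ∑ a_j b_j`, `det(u,v,w) = u·(v × w)`, `η = α(y) = y × F(y)`, `y` a unit vector, `d = deg`, `Dη(v) = fderiv ℂ alpha y v = v × F + y × DF(v)`.
`w = (F - a y)/|η|`, `a = herm F y` (unit vector orthogonal to `y`: `nsq (F - a y) = nsq F - |a|^2 = nsq η`), `v = conj(η)/|η|`; `(y, w, v)` is an
orthonormal basis (`η·y = 0`, `η·F = 0`).  For every `x`: `nsq (x × η) = nsq x nsq η - |herm x η|^2` (`nsq_cross`), `herm x η = x·conj(η) = |η| (x·v)`,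
`nsq x = |x·y|^2 + |x·w|^2 + |x·v|^2` (the conjugates form an orthonormal basis), so `nsq (x × η) = nsq η (|x·y|^2 + |x·w|^2)`.
With `x = Dη(v)`: `K2 y = nsq (Dη(conj η) × η)/nsq(η)^3 = (|x·y|^2 + |x·w|^2)/nsq η`.
(i) `η(z)·z = 0` for all `z`; differentiate in the direction `v`: `x·y = -η·v = -|η|`, so the first term is `1`.
(ii) `x·w - Dη(w)·v = det(v,F,w) - det(w,F,v) + det(y,DF v,w) - det(y,DF w,v) = -2 det(F,v,w) + [det(y,DF v,w) + det(y,v,DF w)]`
`= -2 det(F,v,w) + tr(DF) det(y,v,w) - det(DF y, v, w) = (div F) det(y,v,w) - (d+2) det(F,v,w)` (Euler `DF y = d F`; the trace identity for a 3x3 matrix),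
`det(F,v,w) = a det(y,v,w)`, `|det(y,v,w)| = 1`: `|x·w - Dη(w)·v| = |dv y|`.
(iii) `Dη(w)·v = (Dη(w)·conj η)/|η| = |η| ∂_w log nsq η`, where `∂_w f = (D_w f - i D_{iw} f)/2` for real `f`, `|∂_w f|^2 = gradm f f y w`
(`∂_w nsq(η) = Dη(w)·conj(η)` because `η` is holomorphic).  `la = log nsq η - (d+1) log nsq`, `∂_w log nsq = herm w y / nsq y = 0` at `y`, and `∂_y la = 0` (`la` is
homogeneous of degree `0` under `C^*`), so `∂_F la = a ∂_y la + |η| ∂_w la = |η| ∂_w log nsq η`: `|Dη(w)·v|^2 = nsq η |∂_w la|^2 = gradm la la y F`.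
Together: `|x·w|^2 <= 2 gradm la la y F + 2 |dv|^2`, `K2 <= 1 + 2 (gradm + |dv|^2)/nsq η`.
-/

namespace Pool.Agent.H24.CU

open scoped ComplexConjugate ContDiff

theorem KA_eval (P : MvPolynomial (Fin 3) ℂ) (y : V) :
    HasFDerivAt (fun x : V => MvPolynomial.eval x P)
      (∑ k, MvPolynomial.eval y (MvPolynomial.pderiv k P) •
        (ContinuousLinearMap.proj k : V →L[ℂ] ℂ)) y := by
  induction P using MvPolynomial.induction_on with
  | C a =>
    have h : (fun x : V => MvPolynomial.eval x (MvPolynomial.C a)) = fun _ => a := by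
      funext x
      simp
    rw [h]
    refine (hasFDerivAt_const a y).congr_fderiv ?_
    ext v
    simp
  | add p q hp hq =>
    have h : (fun x : V => MvPolynomial.eval x (p + q)) =
        fun x => MvPolynomial.eval x p + MvPolynomial.eval x q := by
      funext x
      simp
    rw [h]
    refine (hp.add hq).congr_fderiv ?_
    ext v
    simp only [add_apply, sum_apply,
      smul_apply, map_add, smul_eq_mul, add_mul, Finset.sum_add_distrib]
  | mul_X p i hp =>
    have h : (fun x : V => MvPolynomial.eval x (p * MvPolynomial.X i)) =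
        fun x => MvPolynomial.eval x p * x i := by
      funext x
      simp
    rw [h]
    have hx : HasFDerivAt (fun x : V => x i) (ContinuousLinearMap.proj i : V →L[ℂ] ℂ) y :=
      (ContinuousLinearMap.proj i : V →L[ℂ] ℂ).hasFDerivAt
    refine (hp.mul hx).congr_fderiv ?_
    ext v
    simp only [MvPolynomial.pderiv_mul, MvPolynomial.pderiv_X, map_add, map_mul, MvPolynomial.eval_X,
      add_apply, smul_apply, sum_apply,
      ContinuousLinearMap.proj_apply, smul_eq_mul, add_mul, Finset.sum_add_distrib]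
    rw [add_comm]
    congr 1
    · rw [Finset.mul_sum]
      refine Finset.sum_congr rfl fun k _ => ?_
      ring
    · rw [Finset.sum_eq_single i]
      · simp
      · intro k _ hk
        simp [Pi.single_apply, hk, Ne.symm hk]
      · intro hi
        exact absurd (Finset.mem_univ i) hi

/-- the Jacobian matrix -/
noncomputable def KA_J (𝓕 : Foliation) (y : V) (j k : Fin 3) : ℂ :=
  MvPolynomial.eval y (MvPolynomial.pderiv k (𝓕.F j))

/-- the explicit derivative of `α` -/
noncomputable def KA_D (J : Fin 3 → Fin 3 → ℂ) (y F v : V) : V :=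
  crossProduct v F + crossProduct y (fun j => ∑ k, J j k * v k)

theorem KA_comp (𝓕 : Foliation) (y : V) (i j : Fin 3) :
    HasFDerivAt (fun x : V => x i * MvPolynomial.eval x (𝓕.F j))
      (y i • (∑ k, MvPolynomial.eval y (MvPolynomial.pderiv k (𝓕.F j)) •
        (ContinuousLinearMap.proj k : V →L[ℂ] ℂ)) +
        MvPolynomial.eval y (𝓕.F j) • (ContinuousLinearMap.proj i : V →L[ℂ] ℂ)) y :=
  ((ContinuousLinearMap.proj i : V →L[ℂ] ℂ).hasFDerivAt (x := y)).mul (KA_eval (𝓕.F j) y)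

theorem KA_alpha_eq (𝓕 : Foliation) : 𝓕.alpha = fun x : V => ![x 1 * MvPolynomial.eval x (𝓕.F 2) -
    x 2 * MvPolynomial.eval x (𝓕.F 1), x 2 * MvPolynomial.eval x (𝓕.F 0) -
    x 0 * MvPolynomial.eval x (𝓕.F 2), x 0 * MvPolynomial.eval x (𝓕.F 1) -
    x 1 * MvPolynomial.eval x (𝓕.F 0)] := by
  funext x
  unfold Foliation.alpha
  rw [cross_apply]

theorem KA_comp_deriv (𝓕 : Foliation) (y : V) (j : Fin 3) :
    ∃ L : V →L[ℂ] ℂ, HasFDerivAt (fun x : V => 𝓕.alpha x j) L y ∧
      ∀ v, L v = KA_D (KA_J 𝓕 y) y (𝓕.vec y) v j := by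
  have key : ∀ a b : Fin 3, ∃ L : V →L[ℂ] ℂ,
      HasFDerivAt (fun x : V => x a * MvPolynomial.eval x (𝓕.F b) -
        x b * MvPolynomial.eval x (𝓕.F a)) L y ∧
      ∀ v, L v = v a * 𝓕.vec y b - v b * 𝓕.vec y a +
        (y a * (∑ k, KA_J 𝓕 y b k * v k) - y b * ∑ k, KA_J 𝓕 y a k * v k) := by
    intro a b
    refine ⟨_, (KA_comp 𝓕 y a b).sub (KA_comp 𝓕 y b a), fun v => ?_⟩
    simp only [sub_apply, add_apply,
      smul_apply, sum_apply,
      ContinuousLinearMap.proj_apply, smul_eq_mul, KA_J, Foliation.vec]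
    ring
  unfold KA_D
  rw [KA_alpha_eq]
  simp only [cross_apply]
  fin_cases j
  · exact key 1 2
  · exact key 2 0
  · exact key 0 1

theorem KA_hasFD (𝓕 : Foliation) (y : V) : DifferentiableAt ℂ 𝓕.alpha y := by
  rw [differentiableAt_pi]
  intro j
  obtain ⟨L, hL, -⟩ := KA_comp_deriv 𝓕 y j
  exact hL.differentiableAt

theorem KA_fd_comp (𝓕 : Foliation) (y v : V) (j : Fin 3) :
    fderiv ℂ (fun x => 𝓕.alpha x j) y v = KA_D (KA_J 𝓕 y) y (𝓕.vec y) v j := by
  obtain ⟨L, hL, hL2⟩ := KA_comp_deriv 𝓕 y j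
  rw [hL.fderiv]
  exact hL2 v

theorem KA_fd (𝓕 : Foliation) (y v : V) :
    fderiv ℂ 𝓕.alpha y v = KA_D (KA_J 𝓕 y) y (𝓕.vec y) v := by
  funext j
  have h := hasFDerivAt_pi'.1 (KA_hasFD 𝓕 y).hasFDerivAt j
  rw [← KA_fd_comp, h.fderiv]
  rfl

theorem KA_bac (X y F : V) : crossProduct X (crossProduct y F) =
    (∑ j, X j * F j) • y - (∑ j, X j * y j) • F := by
  rw [cross_apply, cross_apply]
  funext j
  simp only [Fin.sum_univ_three, Pi.sub_apply, Pi.smul_apply, smul_eq_mul]
  fin_cases j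
  · simp only [Fin.zero_eta, Matrix.cons_val_zero, Matrix.cons_val_one, Matrix.cons_val]
    ring
  · simp only [Fin.mk_one, Matrix.cons_val_zero, Matrix.cons_val_one, Matrix.cons_val]
    ring
  · simp only [Fin.reduceFinMk, Matrix.cons_val_zero, Matrix.cons_val_one, Matrix.cons_val]
    ring

theorem KA_nsq (a b : ℂ) (y w : V) (h : herm w y = 0) :
    nsq (a • y - b • w) = Complex.normSq a * nsq y + Complex.normSq b * nsq w := by
  have h1 : ∑ j, y j * conj (w j) = 0 := by
    have h2 := congrArg conj h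
    unfold herm at h2
    rw [map_sum, map_zero] at h2
    rw [← h2]
    refine Finset.sum_congr rfl fun j _ => ?_
    rw [map_mul, Complex.conj_conj, mul_comm]
  have h3 : ∑ j, ((a * y j) * conj (b * w j)).re = 0 := by
    rw [← Complex.re_sum]
    have h4 : ∑ j, (a * y j) * conj (b * w j) = a * conj b * ∑ j, y j * conj (w j) := by
      rw [Finset.mul_sum]
      refine Finset.sum_congr rfl fun j _ => ?_
      rw [map_mul]
      ring
    rw [h4, h1, mul_zero, Complex.zero_re]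
  unfold nsq
  have h5 : ∀ j, Complex.normSq ((a • y - b • w) j) = Complex.normSq a * Complex.normSq (y j) +
      Complex.normSq b * Complex.normSq (w j) - 2 * ((a * y j) * conj (b * w j)).re := by
    intro j
    rw [Pi.sub_apply, Pi.smul_apply, Pi.smul_apply, smul_eq_mul, smul_eq_mul, Complex.normSq_sub,
      Complex.normSq_mul, Complex.normSq_mul]
  rw [Finset.sum_congr rfl fun j _ => h5 j, Finset.sum_sub_distrib, Finset.sum_add_distrib,
    ← Finset.mul_sum, ← Finset.mul_sum, ← Finset.mul_sum, h3, mul_zero, sub_zero]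

theorem KA_alg1 (J : Fin 3 → Fin 3 → ℂ) (y F c : V) :
    ∑ j, KA_D J y F c j * y j = -∑ j, c j * (crossProduct y F) j := by
  unfold KA_D
  rw [cross_apply, cross_apply, cross_apply]
  simp only [Fin.sum_univ_three, Pi.add_apply, Matrix.cons_val_zero, Matrix.cons_val_one,
    Matrix.cons_val]
  ring

theorem KA_alg2 (J : Fin 3 → Fin 3 → ℂ) (y F c w : V) (a d : ℂ)
    (he : ∀ j, ∑ k, J j k * y k = d * F j) (hF : ∀ j, F j = a * y j + w j) :
    ∑ j, KA_D J y F c j * w j - ∑ j, c j * KA_D J y F w j =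
      ((∑ j, J j j) - (d + 2) * a) * (-∑ j, c j * (crossProduct y F) j) := by
  have e0 := he 0
  have e1 := he 1
  have e2 := he 2
  have f0 := hF 0
  have f1 := hF 1
  have f2 := hF 2
  unfold KA_D
  rw [cross_apply, cross_apply, cross_apply, cross_apply, cross_apply]
  simp only [Fin.sum_univ_three, Pi.add_apply, Matrix.cons_val_zero, Matrix.cons_val_one,
    Matrix.cons_val] at e0 e1 e2 ⊢
  rw [f0, f1, f2] at *
  linear_combination (-(c 1 * w 2 - c 2 * w 1)) * e0 + (-(c 2 * w 0 - c 0 * w 2)) * e1 +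
    (-(c 0 * w 1 - c 1 * w 0)) * e2

theorem KA_alg3 (J : Fin 3 → Fin 3 → ℂ) (y F : V) (d : ℂ)
    (he : ∀ j, ∑ k, J j k * y k = d * F j) (j : Fin 3) :
    KA_D J y F y j = (d + 1) * (crossProduct y F) j := by
  unfold KA_D
  have h : (fun j => ∑ k, J j k * y k) = fun j => d * F j := funext he
  rw [h, cross_apply, cross_apply]
  fin_cases j
  · simp only [Pi.add_apply, Fin.zero_eta, Matrix.cons_val_zero]
    ring
  · simp only [Pi.add_apply, Fin.mk_one, Matrix.cons_val_one, Matrix.cons_val_zero]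
    ring
  · simp only [Pi.add_apply, Fin.reduceFinMk, Matrix.cons_val]
    ring

theorem KA_lin (J : Fin 3 → Fin 3 → ℂ) (y F : V) (a : ℂ) (v w : V) (j : Fin 3) :
    KA_D J y F (fun i => a * v i + w i) j = a * KA_D J y F v j + KA_D J y F w j := by
  unfold KA_D
  rw [cross_apply, cross_apply, cross_apply, cross_apply, cross_apply, cross_apply]
  simp only [Fin.sum_univ_three, Pi.add_apply]
  fin_cases j
  · simp only [Fin.zero_eta, Matrix.cons_val_zero]
    ring
  · simp only [Fin.mk_one, Matrix.cons_val_one, Matrix.cons_val_zero]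
    ring
  · simp only [Fin.reduceFinMk, Matrix.cons_val]
    ring

theorem KA_euler (𝓕 : Foliation) (y : V) (j : Fin 3) :
    ∑ k, KA_J 𝓕 y j k * y k = (𝓕.deg : ℂ) * 𝓕.vec y j := by
  have h := (𝓕.hom j).sum_X_mul_pderiv
  have h2 := congrArg (MvPolynomial.eval y) h
  rw [map_sum, map_nsmul] at h2
  unfold KA_J Foliation.vec
  rw [nsmul_eq_mul] at h2
  rw [← h2]
  refine Finset.sum_congr rfl fun k _ => ?_
  rw [map_mul, MvPolynomial.eval_X, mul_comm]

theorem KA_normSq_diff {H : V → ℂ} {y : V} (hH : DifferentiableAt ℂ H y) :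
    DifferentiableAt ℝ (fun q => Complex.normSq (H q)) y := by
  have h1 : DifferentiableAt ℝ H y := (hH.hasFDerivAt.restrictScalars ℝ).differentiableAt
  have h2 : (fun q => Complex.normSq (H q)) = fun q => ‖H q‖ ^ 2 := by
    funext q
    exact Complex.normSq_eq_norm_sq _
  rw [h2]
  exact h1.norm_sq ℝ

theorem KA_nsq_deriv {H : V → V} {y : V} (hH : ∀ j, DifferentiableAt ℂ (fun q => H q j) y) :
    DifferentiableAt ℝ (fun q => nsq (H q)) y ∧ ∀ v, fderiv ℝ (fun q => nsq (H q)) y v =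
      2 * (∑ j, conj (H y j) * fderiv ℂ (fun q => H q j) y v).re := by
  have h1 : ∀ j, DifferentiableAt ℝ (fun q => Complex.normSq (H q j)) y := fun j =>
    KA_normSq_diff (hH j)
  have h2 : (fun q => nsq (H q)) = fun q => ∑ j, Complex.normSq (H q j) := rfl
  have h3 : HasFDerivAt (fun q => ∑ j, Complex.normSq (H q j))
      (∑ j, fderiv ℝ (fun q => Complex.normSq (H q j)) y) y :=
    HasFDerivAt.fun_sum fun j _ => (h1 j).hasFDerivAt
  constructor
  · rw [h2]
    exact h3.differentiableAt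
  · intro v
    rw [h2, h3.fderiv, sum_apply, Complex.re_sum, Finset.mul_sum]
    refine Finset.sum_congr rfl fun j _ => ?_
    exact fderiv_normSq (hH j) v

theorem KA_la (𝓕 : Foliation) (y : V) (hy : nsq y = 1) (h0 : 𝓕.alpha y ≠ 0) (v : V) :
    fderiv ℝ 𝓕.la y v = 2 * ((∑ j, conj (𝓕.alpha y j) * KA_D (KA_J 𝓕 y) y (𝓕.vec y) v j) /
      (nsq (𝓕.alpha y) : ℂ) - ((𝓕.deg : ℂ) + 1) * herm v y).re := by
  have hE := nsq_pos h0
  obtain ⟨d1, d2⟩ := KA_nsq_deriv (H := 𝓕.alpha) (y := y) (fun j => by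
    obtain ⟨L, hL, -⟩ := KA_comp_deriv 𝓕 y j
    exact hL.differentiableAt)
  have hid : ∀ j : Fin 3, HasFDerivAt (fun q : V => q j) (ContinuousLinearMap.proj j : V →L[ℂ] ℂ) y :=
    fun j => (ContinuousLinearMap.proj j : V →L[ℂ] ℂ).hasFDerivAt
  obtain ⟨e1, e2⟩ := KA_nsq_deriv (H := fun q : V => q) (y := y) (fun j => (hid j).differentiableAt)
  have e1' : DifferentiableAt ℝ nsq y := e1
  have hf : HasFDerivAt 𝓕.la ((nsq (𝓕.alpha y))⁻¹ • fderiv ℝ (fun q => nsq (𝓕.alpha q)) y -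
      ((𝓕.deg : ℝ) + 1) • ((nsq y)⁻¹ • fderiv ℝ nsq y)) y :=
    (d1.hasFDerivAt.log hE.ne').sub ((e1'.hasFDerivAt.log (by rw [hy]; norm_num)).const_mul _)
  have e3 : fderiv ℝ nsq y v = 2 * (herm v y).re := by
    have := e2 v
    rw [show (fun q : V => nsq q) = nsq from rfl] at this
    rw [this]
    unfold herm
    congr 2
    refine Finset.sum_congr rfl fun j _ => ?_
    rw [(hid j).fderiv, mul_comm]
    rfl
  rw [hf.fderiv]
  simp only [sub_apply, smul_apply, smul_eq_mul]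
  rw [d2 v, e3, hy]
  simp only [KA_fd_comp]
  rw [Complex.sub_re]
  have h5 : ((∑ j, conj (𝓕.alpha y j) * KA_D (KA_J 𝓕 y) y (𝓕.vec y) v j) /
      (nsq (𝓕.alpha y) : ℂ)).re = (nsq (𝓕.alpha y))⁻¹ *
      (∑ j, conj (𝓕.alpha y j) * KA_D (KA_J 𝓕 y) y (𝓕.vec y) v j).re := by
    rw [Complex.div_ofReal_re]
    ring
  have h6 : (((𝓕.deg : ℂ) + 1) * herm v y).re = ((𝓕.deg : ℝ) + 1) * (herm v y).re := by
    have : ((𝓕.deg : ℂ) + 1) = (((𝓕.deg : ℝ) + 1 : ℝ) : ℂ) := by push_cast; rfl
    rw [this, Complex.re_ofReal_mul]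
  rw [h5, h6]
  ring

theorem KA_DI (J : Fin 3 → Fin 3 → ℂ) (y F v : V) (j : Fin 3) :
    KA_D J y F (Complex.I • v) j = Complex.I * KA_D J y F v j := by
  have h := KA_lin J y F Complex.I v 0 j
  have h2 : (fun i => Complex.I * v i + (0 : V) i) = Complex.I • v := by
    funext i
    simp
  have h3 : KA_D J y F 0 j = 0 := by
    unfold KA_D
    have h4 : (fun j : Fin 3 => ∑ k, J j k * (0 : V) k) = 0 := by
      funext i
      simp
    rw [h4]
    simp
  rw [h2, h3, add_zero] at h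
  exact h

theorem KA_gradm (𝓕 : Foliation) (y : V) (hy : nsq y = 1) (h0 : 𝓕.alpha y ≠ 0) (v : V) :
    gradm 𝓕.la 𝓕.la y v =
      Complex.normSq ((∑ j, conj (𝓕.alpha y j) * KA_D (KA_J 𝓕 y) y (𝓕.vec y) v j) /
      (nsq (𝓕.alpha y) : ℂ) - ((𝓕.deg : ℂ) + 1) * herm v y) := by
  unfold gradm
  rw [KA_la 𝓕 y hy h0, KA_la 𝓕 y hy h0]
  have h1 : (∑ j, conj (𝓕.alpha y j) * KA_D (KA_J 𝓕 y) y (𝓕.vec y) (Complex.I • v) j) /
      (nsq (𝓕.alpha y) : ℂ) - ((𝓕.deg : ℂ) + 1) * herm (Complex.I • v) y = Complex.I *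
      ((∑ j, conj (𝓕.alpha y j) * KA_D (KA_J 𝓕 y) y (𝓕.vec y) v j) /
      (nsq (𝓕.alpha y) : ℂ) - ((𝓕.deg : ℂ) + 1) * herm v y) := by
    have h2 : herm (Complex.I • v) y = Complex.I * herm v y := by
      unfold herm
      rw [Finset.mul_sum]
      refine Finset.sum_congr rfl fun j _ => ?_
      rw [Pi.smul_apply, smul_eq_mul, mul_assoc]
    have h3 : ∑ j, conj (𝓕.alpha y j) * KA_D (KA_J 𝓕 y) y (𝓕.vec y) (Complex.I • v) j =
        Complex.I * ∑ j, conj (𝓕.alpha y j) * KA_D (KA_J 𝓕 y) y (𝓕.vec y) v j := by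
      rw [Finset.mul_sum]
      refine Finset.sum_congr rfl fun j _ => ?_
      rw [KA_DI]
      ring
    rw [h2, h3]
    ring
  rw [h1, Complex.normSq_apply, Complex.I_mul_re]
  ring

theorem K2_le (𝓕 : Foliation) (y : V) (hy : nsq y = 1) (h0 : 𝓕.alpha y ≠ 0) :
    𝓕.K2 y ≤ 3 * (1 + gradm 𝓕.la 𝓕.la y (𝓕.vec y) / nsq (𝓕.alpha y) +
      Complex.normSq (𝓕.dv y) / nsq (𝓕.alpha y)) := by
  have hE := nsq_pos h0
  set η := 𝓕.alpha y with hη
  set F := 𝓕.vec y with hFdef
  set J := KA_J 𝓕 y with hJ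
  have hηF : η = crossProduct y F := rfl
  set a := herm F y with ha
  set w : V := fun j => F j - a * y j with hw
  set c : V := fun j => conj (η j) with hc
  set E := nsq η with hEd
  have hEc : (E : ℂ) ≠ 0 := by exact_mod_cast hE.ne'
  have hFw : ∀ j, F j = a * y j + w j := by
    intro j
    simp only [hw]
    ring
  have hyy : ∑ j, y j * conj (y j) = 1 := by
    have h1 : ((nsq y : ℝ) : ℂ) = 1 := by
      rw [hy]
      norm_num
    rw [← h1]
    unfold nsq
    push_cast
    exact Finset.sum_congr rfl fun j _ => Complex.mul_conj _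
  have hwy : herm w y = 0 := by
    unfold herm
    have h1 : ∀ j, w j * conj (y j) = F j * conj (y j) - a * (y j * conj (y j)) := by
      intro j
      simp only [hw]
      ring
    rw [Finset.sum_congr rfl fun j _ => h1 j, Finset.sum_sub_distrib, ← Finset.mul_sum, hyy,
      mul_one]
    exact sub_self _
  have hcη : ∑ j, c j * η j = (E : ℂ) := by
    rw [hEd]
    unfold nsq
    push_cast
    refine Finset.sum_congr rfl fun j _ => ?_
    simp only [hc]
    rw [mul_comm, Complex.mul_conj]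
  have he := KA_euler 𝓕 y
  -- norm of w
  have hnw : nsq w = E := by
    have h1 := KA_nsq a (-1) y w hwy
    have h2 : a • y - (-1 : ℂ) • w = F := by
      funext j
      rw [Pi.sub_apply, Pi.smul_apply, Pi.smul_apply, smul_eq_mul, smul_eq_mul, hFw j]
      ring
    rw [h2, hy] at h1
    have h3 := nsq_cross y F
    rw [← hηF, hy] at h3
    have h4 : Complex.normSq (-1 : ℂ) = 1 := by simp
    rw [h4] at h1
    rw [hEd, h3, h1]
    ring
  set X := KA_D J y F c with hX
  have hXy : ∑ j, X j * y j = -(E : ℂ) := by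
    rw [hX, KA_alg1, ← hηF, hcη]
  have hB := KA_alg2 J y F c w a (𝓕.deg : ℂ) he hFw
  rw [← hX, ← hηF, hcη] at hB
  set B := ∑ j, c j * KA_D J y F w j with hBd
  have hdv : 𝓕.dv y = (∑ j, J j j) - ((𝓕.deg : ℂ) + 2) * a := by
    unfold Foliation.dv
    rw [hy]
    simp only [Complex.ofReal_one, div_one]
    rfl
  rw [← hdv] at hB
  -- K2
  have hK : 𝓕.K2 y = (E ^ 3 + Complex.normSq (∑ j, X j * w j)) / E ^ 3 := by
    unfold Foliation.K2
    rw [KA_fd]
    show nsq (crossProduct X η) / E ^ 3 = _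
    rw [hηF, KA_bac]
    have h1 : (∑ j, X j * F j) • y - (∑ j, X j * y j) • F =
        (∑ j, X j * w j) • y - (∑ j, X j * y j) • w := by
      have h2 : ∑ j, X j * F j = a * (∑ j, X j * y j) + ∑ j, X j * w j := by
        rw [Finset.mul_sum, ← Finset.sum_add_distrib]
        refine Finset.sum_congr rfl fun j _ => ?_
        rw [hFw j]
        ring
      funext j
      simp only [Pi.sub_apply, Pi.smul_apply, smul_eq_mul]
      rw [h2, hFw j]
      ring
    rw [h1, KA_nsq _ _ _ _ hwy, hy, hnw, hXy, Complex.normSq_neg, Complex.normSq_ofReal]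
    congr 1
    ring
  -- gradm
  have hG : gradm 𝓕.la 𝓕.la y F * E ^ 2 = Complex.normSq B := by
    rw [KA_gradm 𝓕 y hy h0]
    have h1 : (∑ j, conj (𝓕.alpha y j) * KA_D (KA_J 𝓕 y) y (𝓕.vec y) F j) =
        a * (((𝓕.deg : ℂ) + 1) * (E : ℂ)) + B := by
      have h2 : F = fun i => a * y i + w i := funext hFw
      have h3 : ∀ j, conj (𝓕.alpha y j) * KA_D (KA_J 𝓕 y) y (𝓕.vec y) F j =
          a * (((𝓕.deg : ℂ) + 1) * (c j * η j)) + c j * KA_D J y F w j := by
        intro j
        have h4 : KA_D (KA_J 𝓕 y) y (𝓕.vec y) F j = a * KA_D J y F y j + KA_D J y F w j := by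
          show KA_D J y F F j = _
          conv_lhs => rw [show KA_D J y F F j = KA_D J y F (fun i => a * y i + w i) j from by
            rw [← h2]]
          exact KA_lin J y F a y w j
        rw [h4, KA_alg3 J y F (𝓕.deg : ℂ) he j, ← hηF]
        show c j * _ = _
        ring
      rw [Finset.sum_congr rfl fun j _ => h3 j, Finset.sum_add_distrib, ← Finset.mul_sum,
        ← Finset.mul_sum, hcη]
    rw [h1]
    have h5 : (a * (((𝓕.deg : ℂ) + 1) * (E : ℂ)) + B) / (E : ℂ) - ((𝓕.deg : ℂ) + 1) * herm F y =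
        B / (E : ℂ) := by
      rw [← ha]
      field_simp
      ring
    rw [h5, map_div₀, Complex.normSq_ofReal]
    field_simp
  have hXw : ∑ j, X j * w j = B - 𝓕.dv y * (E : ℂ) := by
    linear_combination hB
  have hle : Complex.normSq (∑ j, X j * w j) ≤ 2 * Complex.normSq B +
      2 * (Complex.normSq (𝓕.dv y) * E ^ 2) := by
    rw [hXw]
    have h1 : ∀ z u : ℂ, Complex.normSq (z - u) ≤ 2 * Complex.normSq z + 2 * Complex.normSq u := by
      intro z u
      simp only [Complex.normSq_apply, Complex.sub_re, Complex.sub_im]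
      nlinarith [sq_nonneg (z.re + u.re), sq_nonneg (z.im + u.im)]
    have h2 := h1 B (𝓕.dv y * (E : ℂ))
    rw [Complex.normSq_mul, Complex.normSq_ofReal] at h2
    calc _ ≤ _ := h2
      _ = _ := by ring
  rw [← hG] at hle
  have hgn := gradm_self_nonneg 𝓕.la y F
  have hdn := Complex.normSq_nonneg (𝓕.dv y)
  rw [hK]
  rw [div_le_iff₀ (by positivity)]
  have h7 : 3 * (1 + gradm 𝓕.la 𝓕.la y F / E + Complex.normSq (𝓕.dv y) / E) * E ^ 3 =
      3 * E ^ 3 + 3 * (gradm 𝓕.la 𝓕.la y F * E ^ 2) + 3 * (Complex.normSq (𝓕.dv y) * E ^ 2) := by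
    field_simp
  rw [h7]
  have h8 : 0 ≤ gradm 𝓕.la 𝓕.la y F * E ^ 2 := by positivity
  have h9 : 0 ≤ Complex.normSq (𝓕.dv y) * E ^ 2 := by positivity
  have h10 : 0 ≤ E ^ 3 := by positivity
  linarith

theorem measurable_K2 (𝓕 : Foliation) : Measurable 𝓕.K2 := by
  have hev : ∀ P : MvPolynomial (Fin 3) ℂ, Continuous (fun x : V => MvPolynomial.eval x P) :=
    fun P => MvPolynomial.continuous_eval P
  have hal : ∀ j, Continuous (fun x : V => 𝓕.alpha x j) := by
    intro j
    rw [KA_alpha_eq]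
    fin_cases j
    · exact ((continuous_apply 1).mul (hev _)).sub ((continuous_apply 2).mul (hev _))
    · exact ((continuous_apply 2).mul (hev _)).sub ((continuous_apply 0).mul (hev _))
    · exact ((continuous_apply 0).mul (hev _)).sub ((continuous_apply 1).mul (hev _))
  have hcc : ∀ j, Continuous (fun x : V => conj (𝓕.alpha x j)) := fun j =>
    Complex.continuous_conj.comp (hal j)
  have hvec : ∀ j, Continuous (fun x : V => 𝓕.vec x j) := fun j => hev (𝓕.F j)
  have hJ : ∀ j k, Continuous (fun x : V => KA_J 𝓕 x j k) := fun j k => hev _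
  have hJc : ∀ j, Continuous (fun x : V => ∑ k, KA_J 𝓕 x j k * conj (𝓕.alpha x k)) := fun j =>
    continuous_finsetSum _ fun k _ => (hJ j k).mul (hcc k)
  have hX : ∀ j, Continuous (fun x : V =>
      KA_D (KA_J 𝓕 x) x (𝓕.vec x) (fun j => conj (𝓕.alpha x j)) j) := by
    intro j
    unfold KA_D
    simp only [cross_apply]
    fin_cases j
    · exact (((hcc 1).mul (hvec 2)).sub ((hcc 2).mul (hvec 1))).add
        (((continuous_apply 1).mul (hJc 2)).sub ((continuous_apply 2).mul (hJc 1)))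
    · exact (((hcc 2).mul (hvec 0)).sub ((hcc 0).mul (hvec 2))).add
        (((continuous_apply 2).mul (hJc 0)).sub ((continuous_apply 0).mul (hJc 2)))
    · exact (((hcc 0).mul (hvec 1)).sub ((hcc 1).mul (hvec 0))).add
        (((continuous_apply 0).mul (hJc 1)).sub ((continuous_apply 1).mul (hJc 0)))
  have hns : ∀ H : V → V, (∀ j, Continuous (fun x => H x j)) → Continuous (fun x => nsq (H x)) := by
    intro H hH
    unfold nsq
    exact continuous_finsetSum _ fun j _ => Complex.continuous_normSq.comp (hH j)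
  have hcr : ∀ j, Continuous (fun x : V => (crossProduct (KA_D (KA_J 𝓕 x) x (𝓕.vec x)
      (fun j => conj (𝓕.alpha x j))) (𝓕.alpha x)) j) := by
    intro j
    simp only [cross_apply]
    fin_cases j
    · exact ((hX 1).mul (hal 2)).sub ((hX 2).mul (hal 1))
    · exact ((hX 2).mul (hal 0)).sub ((hX 0).mul (hal 2))
    · exact ((hX 0).mul (hal 1)).sub ((hX 1).mul (hal 0))
  have heq : 𝓕.K2 = fun y => nsq (crossProduct (KA_D (KA_J 𝓕 y) y (𝓕.vec y)
      (fun j => conj (𝓕.alpha y j))) (𝓕.alpha y)) / nsq (𝓕.alpha y) ^ 3 := by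
    funext y
    unfold Foliation.K2
    rw [KA_fd]
  rw [heq]
  exact (hns _ hcr).measurable.div ((hns _ hal).pow 3).measurable

end Pool.Agent.H24.CU
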