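import Pool.Agent.H24.CU.SDefs
import Pool.Agent.H24.CU.CL
import Pool.Agent.H24.CU.GI
import Pool.Agent.H24.CU.RH
import Pool.Agent.H76.FL.LD

/-!
# Row KB (energy of `log |α|` off the singular set)

PROOF.  `Φ` from `FC76.exists_convexCutoff`: smooth, `Φ = 0` on `(-∞,0]`, `0 <= Φ' <= 1`, `Φ'' >= 0`, `Φ'' >= c > 0` on `[1,2]`.
For real `R`: `u y = Φ (la y + R)` if `α y ≠ 0`, `0` otherwise.  `IsFun u`: homogeneous of degree `0` (`alpha (t y) = t^(deg+1) alpha y`);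
smooth on `{α ≠ 0}`; near a zero of `α` (off the origin) `la → -∞`, so `u = 0` there.
`levi u = Φ'(la + R) levi la + Φ''(la + R) gradm la la` (`levi_comp`) where `α ≠ 0`.
`levi la y (vec y) = levi (log nsq α) y (vec y) - (deg+1) levi (log nsq) y (vec y)`, first term `>= 0` (`log` of the sum of the squares of
three holomorphic functions: `levi_comp`, `levi (nsq α) y v = nsq (Dα v)`, `gradm (nsq α)(nsq α) = |herm (Dα v) α|^2 <= nsq (Dα v) nsq α`),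
second: `levi_log_nsq` and `nsq_cross`: `= nsq (α y) / nsq y^2`.  So on the unit sphere off `{α = 0}`:
`levi u y (vec y)/nsq (α y) >= Φ''(la y + R) gradm la la y (vec y)/nsq (α y) - (deg + 1)`.
`∫ levi u y (vec y)/nsq (α y) dμ = 0` (`Harm.harm`; integrable by `integrable_levi_div`), so
`∫⁻_{1 <= la + R <= 2} ofReal (gradm la la y (vec y)/nsq (α y)) dμ <= ofReal ((deg + 1) μ(univ)/c)`.
On the sphere `la y = log nsq (α y)`; `{r <= nsq (α y)}` is covered by the sets `1 - R <= la <= 2 - R` with `R = 1 - log r - i`, `i = 0, 1, .., n`,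
`n <= B + log (1/r) + 1`, `B >= log (sup nsq α) `, `B >= 0`.  Sum: `<= (n+1)(deg+1) μ(univ)/c <= C (1 + log (1/r))`.
-/

namespace Pool.Agent.H24.CU

open MeasureTheory
open scoped ComplexConjugate ContDiff

theorem KB_add {A B : V → ℝ} {y w : V} (hA : ContDiffAt ℝ 2 A y) (hB : ContDiffAt ℝ 2 B y)
    (hA0 : 0 ≤ A y) (hB0 : 0 ≤ B y) (hlA : 0 ≤ levi A y w) (hlB : 0 ≤ levi B y w)
    (h1 : gradm A A y w ≤ A y * levi A y w) (h2 : gradm B B y w ≤ B y * levi B y w) :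
    ContDiffAt ℝ 2 (fun x => A x + B x) y ∧ 0 ≤ A y + B y ∧ 0 ≤ levi (fun x => A x + B x) y w ∧
    gradm (fun x => A x + B x) (fun x => A x + B x) y w ≤
      (A y + B y) * levi (fun x => A x + B x) y w := by
  have hAB : ContDiffAt ℝ 2 (fun x => A x + B x) y := hA.add hB
  have hg : gradm (fun x => A x + B x) (fun x => A x + B x) y w =
      gradm A A y w + 2 * gradm A B y w + gradm B B y w := by
    unfold gradm
    rw [fderiv_fun_add (hA.differentiableAt (by simp)) (hB.differentiableAt (by simp))]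
    simp only [add_apply]
    ring
  have h3 := gradm_sq_le A B y w
  have h5 := gradm_self_nonneg B y w
  have h7 : 2 * gradm A B y w ≤ A y * levi B y w + B y * levi A y w := by
    have h8 : (2 * gradm A B y w) ^ 2 ≤ (A y * levi B y w + B y * levi A y w) ^ 2 := by
      have h9 : gradm A A y w * gradm B B y w ≤ (A y * levi A y w) * (B y * levi B y w) :=
        mul_le_mul h1 h2 h5 (mul_nonneg hA0 hlA)
      nlinarith [sq_nonneg (A y * levi B y w - B y * levi A y w)]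
    exact (abs_le_of_sq_le_sq' h8 (by positivity)).2
  refine ⟨hAB, add_nonneg hA0 hB0, ?_, ?_⟩
  · rw [levi_add hA hB]
    exact add_nonneg hlA hlB
  · rw [levi_add hA hB, hg]
    nlinarith

theorem KB_nsq_alpha (𝓕 : Foliation) (y v : V) :
    ContDiffAt ℝ 2 (fun x => nsq (𝓕.alpha x)) y ∧
      gradm (fun x => nsq (𝓕.alpha x)) (fun x => nsq (𝓕.alpha x)) y v ≤
        nsq (𝓕.alpha y) * levi (fun x => nsq (𝓕.alpha x)) y v := by
  obtain ⟨Q, _, hQ, _⟩ := exists_alpha_poly 𝓕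
  have h0 : (fun x => nsq (𝓕.alpha x)) = fun x =>
      ((Complex.normSq (MvPolynomial.eval x (Q 0)) + Complex.normSq (MvPolynomial.eval x (Q 1))) +
        Complex.normSq (MvPolynomial.eval x (Q 2))) := by
    funext x
    unfold nsq
    rw [Fin.sum_univ_three, hQ, hQ, hQ]
  have hs : ∀ P : MvPolynomial (Fin 3) ℂ,
      ContDiffAt ℝ 2 (fun x : V => Complex.normSq (MvPolynomial.eval x P)) y := fun P =>
    ((RN_normSq_contDiff.comp (RN_poly_contDiff P)).of_le GI_two_le).contDiffAt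
  have a0 := GI_normSq_eval (Q 0) y v
  have a1 := GI_normSq_eval (Q 1) y v
  have a2 := GI_normSq_eval (Q 2) y v
  obtain ⟨b1, b2, b3, b4⟩ := KB_add (hs (Q 0)) (hs (Q 1)) (Complex.normSq_nonneg _)
    (Complex.normSq_nonneg _) a0.1 a1.1 a0.2.le a1.2.le
  obtain ⟨c1, _, _, c4⟩ := KB_add b1 (hs (Q 2)) b2 (Complex.normSq_nonneg _) b3 a2.1 b4 a2.2.le
  rw [h0]
  refine ⟨c1, ?_⟩
  have h1 : nsq (𝓕.alpha y) = (Complex.normSq (MvPolynomial.eval y (Q 0)) +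
      Complex.normSq (MvPolynomial.eval y (Q 1))) +
        Complex.normSq (MvPolynomial.eval y (Q 2)) := congrFun h0 y
  rw [h1]
  exact c4

theorem levi_log_alpha_nonneg (𝓕 : Foliation) (y v : V) (h0 : 𝓕.alpha y ≠ 0) :
    0 ≤ levi (fun x => Real.log (nsq (𝓕.alpha x))) y v := by
  obtain ⟨h1, h2⟩ := KB_nsq_alpha 𝓕 y v
  rw [GI_levi_log h1 (nsq_pos h0).ne']
  refine div_nonneg ?_ (by positivity)
  linarith

theorem KB_la_hom (𝓕 : Foliation) {c : ℂ} {x : V} (hc : c ≠ 0) (hx : x ≠ 0) (h0 : 𝓕.alpha x ≠ 0) :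
    𝓕.la (c • x) = 𝓕.la x := by
  unfold Foliation.la
  have h1 : 0 < Complex.normSq c := Complex.normSq_pos.2 hc
  rw [alpha_smul, nsq_smul, nsq_smul, map_pow, Real.log_mul (pow_pos h1 _).ne' (nsq_pos h0).ne',
    Real.log_mul h1.ne' (nsq_pos hx).ne', Real.log_pow]
  push_cast
  ring

theorem KB_alpha_ne (𝓕 : Foliation) {c : ℂ} {x : V} (hc : c ≠ 0) :
    𝓕.alpha (c • x) = 0 ↔ 𝓕.alpha x = 0 := by
  rw [alpha_smul]
  constructor
  · intro h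
    rcases smul_eq_zero.1 h with h1 | h1
    · exact absurd h1 (pow_ne_zero _ hc)
    · exact h1
  · intro h
    rw [h, smul_zero]

theorem KB_la_smooth (𝓕 : Foliation) {y : V} (hy : y ≠ 0) (h0 : 𝓕.alpha y ≠ 0) :
    ContDiffAt ℝ ∞ 𝓕.la y := by
  have h1 : ContDiffAt ℝ ∞ (fun x : V => nsq (𝓕.alpha x)) y :=
    (RN_nsq_contDiff.comp (RN_alpha_contDiff 𝓕)).contDiffAt
  have h2 : ContDiffAt ℝ ∞ (fun x : V => Real.log (nsq (𝓕.alpha x))) y :=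
    h1.log (nsq_pos h0).ne'
  have h3 : ContDiffAt ℝ ∞ (fun x : V => Real.log (nsq x)) y :=
    RN_nsq_contDiff.contDiffAt.log (nsq_pos hy).ne'
  exact h2.sub (contDiffAt_const.mul h3)

open Classical in
/-- the test function -/
noncomputable def KB_u (𝓕 : Foliation) (Φ : ℝ → ℝ) (R : ℝ) (y : V) : ℝ :=
  if 𝓕.alpha y = 0 then 0 else Φ (𝓕.la y + R)

theorem KB_near_ne (𝓕 : Foliation) {y : V} (h0 : 𝓕.alpha y ≠ 0) : ∀ᶠ x in nhds y, 𝓕.alpha x ≠ 0 :=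
  (RN_alpha_contDiff 𝓕).continuous.continuousAt.eventually_ne h0

theorem KB_near_zero (𝓕 : Foliation) {Φ : ℝ → ℝ} (hΦ : ∀ t ≤ 0, Φ t = 0) (R : ℝ) {y : V}
    (hy : y ≠ 0) (h0 : 𝓕.alpha y = 0) : ∀ᶠ x in nhds y, KB_u 𝓕 Φ R x = 0 := by
  have hc : Continuous fun x : V => nsq (𝓕.alpha x) - Real.exp (-R) * nsq x ^ (𝓕.deg + 1) :=
    (RN_nsq_contDiff.comp (RN_alpha_contDiff 𝓕)).continuous.sub
      (continuous_const.mul (RN_nsq_contDiff.continuous.pow _))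
  have h1 : nsq (𝓕.alpha y) - Real.exp (-R) * nsq y ^ (𝓕.deg + 1) < 0 := by
    rw [h0, nsq_eq_zero.2 rfl]
    have := nsq_pos hy
    have h2 : 0 < Real.exp (-R) * nsq y ^ (𝓕.deg + 1) := by positivity
    linarith
  filter_upwards [hc.continuousAt.eventually_lt_const h1, isOpen_compl_singleton.mem_nhds hy]
    with x hx hx0
  unfold KB_u
  split_ifs with h
  · rfl
  · refine hΦ _ ?_
    have hx0' : 0 < nsq x := nsq_pos hx0
    have ha : 0 < nsq (𝓕.alpha x) := nsq_pos h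
    have h3 : nsq (𝓕.alpha x) ≤ Real.exp (-R) * nsq x ^ (𝓕.deg + 1) := by linarith
    have h4 := Real.log_le_log ha h3
    rw [Real.log_mul (Real.exp_pos _).ne' (pow_pos hx0' _).ne', Real.log_exp, Real.log_pow] at h4
    unfold Foliation.la
    push_cast at h4
    linarith

theorem KB_u_eq (𝓕 : Foliation) (Φ : ℝ → ℝ) (R : ℝ) {y : V} (h0 : 𝓕.alpha y ≠ 0) :
    KB_u 𝓕 Φ R =ᶠ[nhds y] fun x => (fun t => Φ (t + R)) (𝓕.la x) := by
  filter_upwards [KB_near_ne 𝓕 h0] with x hx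
  unfold KB_u
  rw [if_neg hx]

theorem KB_fun (𝓕 : Foliation) {Φ : ℝ → ℝ} (hs : ContDiff ℝ ∞ Φ) (hΦ : ∀ t ≤ 0, Φ t = 0) (R : ℝ) :
    IsFun (fun x => (KB_u 𝓕 Φ R x : ℂ)) where
  smooth := by
    intro y hy
    have h1 : ContDiffAt ℝ ∞ (KB_u 𝓕 Φ R) y := by
      by_cases h0 : 𝓕.alpha y = 0
      · refine ContDiffAt.congr_of_eventuallyEq (contDiffAt_const (c := (0 : ℝ))) ?_
        exact KB_near_zero 𝓕 hΦ R hy h0
      · refine ContDiffAt.congr_of_eventuallyEq ?_ (KB_u_eq 𝓕 Φ R h0)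
        have h2 : ContDiffAt ℝ ∞ (fun t : ℝ => Φ (t + R)) (𝓕.la y) :=
          (hs.comp (contDiff_id.add contDiff_const)).contDiffAt
        exact h2.comp y (KB_la_smooth 𝓕 hy h0)
    exact (Complex.ofRealCLM.contDiff.contDiffAt.comp y h1).contDiffWithinAt
  hom := by
    intro c x hc hx
    have h1 : KB_u 𝓕 Φ R (c • x) = KB_u 𝓕 Φ R x := by
      unfold KB_u
      by_cases h0 : 𝓕.alpha x = 0
      · rw [if_pos h0, if_pos ((KB_alpha_ne 𝓕 hc).2 h0)]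
      · rw [if_neg h0, if_neg (fun h => h0 ((KB_alpha_ne 𝓕 hc).1 h)), KB_la_hom 𝓕 hc hx h0]
    rw [h1]

theorem KB_levi_la (𝓕 : Foliation) {y : V} (hy : nsq y = 1) (h0 : 𝓕.alpha y ≠ 0) :
    -((𝓕.deg : ℝ) + 1) * nsq (𝓕.alpha y) ≤ levi 𝓕.la y (𝓕.vec y) := by
  have hy0 : y ≠ 0 := RN_sphere_ne hy
  have h1 : ContDiffAt ℝ 2 (fun x : V => Real.log (nsq (𝓕.alpha x))) y :=
    ((RN_nsq_contDiff.comp (RN_alpha_contDiff 𝓕)).of_le GI_two_le).contDiffAt.log (nsq_pos h0).ne'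
  have h3 : ContDiffAt ℝ 2 (fun x : V => Real.log (nsq x)) y :=
    (RN_nsq_contDiff.of_le GI_two_le).contDiffAt.log (nsq_pos hy0).ne'
  have h4 : levi 𝓕.la y (𝓕.vec y) = levi (fun x => Real.log (nsq (𝓕.alpha x))) y (𝓕.vec y) -
      ((𝓕.deg : ℝ) + 1) * levi (fun x => Real.log (nsq x)) y (𝓕.vec y) := by
    have h5 : 𝓕.la = fun x => Real.log (nsq (𝓕.alpha x)) -
        ((𝓕.deg : ℝ) + 1) * Real.log (nsq x) := rfl
    rw [h5, levi_sub h1 (contDiffAt_const.mul h3), levi_const_mul h3]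
  have h6 : levi (fun x => Real.log (nsq x)) y (𝓕.vec y) = nsq (𝓕.alpha y) := by
    rw [levi_log_nsq y _ hy0]
    have h7 : 𝓕.alpha y = crossProduct y (𝓕.vec y) := rfl
    rw [h7, nsq_cross, hy]
    ring
  have h8 := levi_log_alpha_nonneg 𝓕 y (𝓕.vec y) h0
  rw [h4, h6]
  linarith

theorem KB_point (𝓕 : Foliation) {Φ : ℝ → ℝ} (hs : ContDiff ℝ ∞ Φ)
    (hΦ1 : ∀ t, 0 ≤ deriv Φ t ∧ deriv Φ t ≤ 1) (R : ℝ) {y : V} (hy : nsq y = 1)
    (h0 : 𝓕.alpha y ≠ 0) :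
    deriv (deriv Φ) (𝓕.la y + R) * (gradm 𝓕.la 𝓕.la y (𝓕.vec y) / nsq (𝓕.alpha y)) ≤
      levi (KB_u 𝓕 Φ R) y (𝓕.vec y) / nsq (𝓕.alpha y) + ((𝓕.deg : ℝ) + 1) := by
  have hy0 : y ≠ 0 := RN_sphere_ne hy
  have hla : ContDiffAt ℝ 2 𝓕.la y := (KB_la_smooth 𝓕 hy0 h0).of_le GI_two_le
  have hh : ContDiffAt ℝ 2 (fun t : ℝ => Φ (t + R)) (𝓕.la y) :=
    ((hs.comp (contDiff_id.add contDiff_const)).of_le GI_two_le).contDiffAt
  have h1 : levi (KB_u 𝓕 Φ R) y (𝓕.vec y) = deriv (fun t : ℝ => Φ (t + R)) (𝓕.la y) *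
      levi 𝓕.la y (𝓕.vec y) + deriv (deriv (fun t : ℝ => Φ (t + R))) (𝓕.la y) *
        gradm 𝓕.la 𝓕.la y (𝓕.vec y) := by
    rw [levi_congr (KB_u_eq 𝓕 Φ R h0)]
    exact levi_comp hla hh (𝓕.vec y)
  have h2 : deriv (fun t : ℝ => Φ (t + R)) = fun t => deriv Φ (t + R) := by
    funext t
    exact deriv_comp_add_const Φ R t
  have h3 : deriv (fun t : ℝ => deriv Φ (t + R)) = fun t => deriv (deriv Φ) (t + R) := by
    funext t
    exact deriv_comp_add_const (deriv Φ) R t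
  rw [h2, h3] at h1
  have ha : 0 < nsq (𝓕.alpha y) := nsq_pos h0
  have h4 := KB_levi_la 𝓕 hy h0
  obtain ⟨h5, h6⟩ := hΦ1 (𝓕.la y + R)
  have h7 : -((𝓕.deg : ℝ) + 1) * nsq (𝓕.alpha y) ≤
      deriv Φ (𝓕.la y + R) * levi 𝓕.la y (𝓕.vec y) := by
    have h8 := mul_le_mul_of_nonneg_left h4 h5
    have h9 : deriv Φ (𝓕.la y + R) * (((𝓕.deg : ℝ) + 1) * nsq (𝓕.alpha y)) ≤
        1 * (((𝓕.deg : ℝ) + 1) * nsq (𝓕.alpha y)) :=
      mul_le_mul_of_nonneg_right h6 (by positivity)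
    linarith
  rw [h1, ← mul_div_assoc, ← sub_le_iff_le_add, ← mul_div_cancel_right₀ ((𝓕.deg : ℝ) + 1) ha.ne',
    ← sub_div]
  apply div_le_div_of_nonneg_right _ ha.le
  linarith

theorem KB_la_meas (𝓕 : Foliation) : Measurable 𝓕.la := by
  have h1 : Measurable fun x : V => nsq (𝓕.alpha x) :=
    (RN_nsq_contDiff.comp (RN_alpha_contDiff 𝓕)).continuous.measurable
  have h2 : Measurable fun x : V => nsq x := RN_nsq_contDiff.continuous.measurable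
  exact (Real.measurable_log.comp h1).sub ((Real.measurable_log.comp h2).const_mul _)

theorem KB_slab (𝓕 : Foliation) (μ : Measure V) (hμ : Harm 𝓕 μ) {Φ : ℝ → ℝ}
    (hs : ContDiff ℝ ∞ Φ) (hΦ : ∀ t ≤ 0, Φ t = 0)
    (hΦ1 : ∀ t, 0 ≤ deriv Φ t ∧ deriv Φ t ≤ 1) (hΦ2 : ∀ t, 0 ≤ deriv (deriv Φ) t) {c : ℝ}
    (hc : 0 < c) (hΦc : ∀ t ∈ Set.Icc (1 : ℝ) 2, c ≤ deriv (deriv Φ) t) (R : ℝ) :
    ∫⁻ y in {y | 1 ≤ 𝓕.la y + R ∧ 𝓕.la y + R ≤ 2},
        ENNReal.ofReal (gradm 𝓕.la 𝓕.la y (𝓕.vec y) / nsq (𝓕.alpha y)) ∂μ ≤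
      ENNReal.ofReal (((𝓕.deg : ℝ) + 1) * (μ Set.univ).toReal / c) := by
  have := hμ.fin
  have hfun := KB_fun 𝓕 hs hΦ R
  have hint := integrable_levi_div 𝓕 μ hμ.sph (KB_u 𝓕 Φ R) hfun
  have hsph : ∀ᵐ y ∂μ, nsq y = 1 := hμ.sph
  have hsing : ∀ᵐ y ∂μ, 𝓕.alpha y ≠ 0 := by
    have h1 := hμ.sing
    rw [ae_iff]
    simpa using h1
  have hmeas : MeasurableSet {y | 1 ≤ 𝓕.la y + R ∧ 𝓕.la y + R ≤ 2} := by
    have h1 : Measurable fun y => 𝓕.la y + R := (KB_la_meas 𝓕).add_const R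
    exact (measurableSet_le measurable_const h1).inter (measurableSet_le h1 measurable_const)
  have hint2 : Integrable (fun y => c⁻¹ * (levi (KB_u 𝓕 Φ R) y (𝓕.vec y) / nsq (𝓕.alpha y) +
      ((𝓕.deg : ℝ) + 1))) μ := (hint.add (integrable_const _)).const_mul _
  have hpos : ∀ᵐ y ∂μ, 0 ≤ c⁻¹ * (levi (KB_u 𝓕 Φ R) y (𝓕.vec y) / nsq (𝓕.alpha y) +
      ((𝓕.deg : ℝ) + 1)) := by
    filter_upwards [hsph, hsing] with y hy h0
    have h1 := KB_point 𝓕 hs hΦ1 R hy h0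
    have h2 : 0 ≤ gradm 𝓕.la 𝓕.la y (𝓕.vec y) / nsq (𝓕.alpha y) :=
      div_nonneg (gradm_self_nonneg _ _ _) (nsq_nonneg _)
    have h3 := mul_nonneg (hΦ2 (𝓕.la y + R)) h2
    exact mul_nonneg (inv_nonneg.2 hc.le) (h3.trans h1)
  calc ∫⁻ y in {y | 1 ≤ 𝓕.la y + R ∧ 𝓕.la y + R ≤ 2},
        ENNReal.ofReal (gradm 𝓕.la 𝓕.la y (𝓕.vec y) / nsq (𝓕.alpha y)) ∂μ
      ≤ ∫⁻ y in {y | 1 ≤ 𝓕.la y + R ∧ 𝓕.la y + R ≤ 2},
        ENNReal.ofReal (c⁻¹ * (levi (KB_u 𝓕 Φ R) y (𝓕.vec y) / nsq (𝓕.alpha y) +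
          ((𝓕.deg : ℝ) + 1))) ∂μ := by
        refine lintegral_mono_ae ?_
        filter_upwards [ae_restrict_mem hmeas, ae_restrict_of_ae hsph, ae_restrict_of_ae hsing]
          with y hy1 hy h0
        apply ENNReal.ofReal_le_ofReal
        have h1 := KB_point 𝓕 hs hΦ1 R hy h0
        have h2 : 0 ≤ gradm 𝓕.la 𝓕.la y (𝓕.vec y) / nsq (𝓕.alpha y) :=
          div_nonneg (gradm_self_nonneg _ _ _) (nsq_nonneg _)
        have h3 := mul_le_mul_of_nonneg_right (hΦc _ hy1) h2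
        have h4 := mul_le_mul_of_nonneg_left (h3.trans h1) (inv_nonneg.2 hc.le)
        rwa [← mul_assoc, inv_mul_cancel₀ hc.ne', one_mul] at h4
    _ ≤ ∫⁻ y, ENNReal.ofReal (c⁻¹ * (levi (KB_u 𝓕 Φ R) y (𝓕.vec y) / nsq (𝓕.alpha y) +
          ((𝓕.deg : ℝ) + 1))) ∂μ := setLIntegral_le_lintegral _ _
    _ = ENNReal.ofReal (∫ y, c⁻¹ * (levi (KB_u 𝓕 Φ R) y (𝓕.vec y) / nsq (𝓕.alpha y) +
          ((𝓕.deg : ℝ) + 1)) ∂μ) := (ofReal_integral_eq_lintegral_ofReal hint2 hpos).symm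
    _ = ENNReal.ofReal (((𝓕.deg : ℝ) + 1) * (μ Set.univ).toReal / c) := by
        rw [integral_const_mul, integral_add hint (integrable_const _), hμ.harm _ hfun,
          integral_const]
        congr 1
        simp only [smul_eq_mul, Measure.real]
        field_simp
        ring

theorem la_energy (𝓕 : Foliation) (μ : Measure V) (hμ : Harm 𝓕 μ) :
    ∃ C : ℝ, 0 ≤ C ∧ ∀ r : ℝ, 0 < r → r < 1 →
      ∫⁻ y in {y | r ≤ nsq (𝓕.alpha y)},
        ENNReal.ofReal (gradm 𝓕.la 𝓕.la y (𝓕.vec y) / nsq (𝓕.alpha y)) ∂μ ≤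
      ENNReal.ofReal (C * (1 + Real.log (1 / r))) := by
  obtain ⟨Φ, hs, hΦ, hΦ1, hΦ2, ⟨c, hc, hΦc⟩, _, _⟩ := FC76.exists_convexCutoff
  have := hμ.fin
  -- upper bound of `la`
  obtain ⟨B, hB0, hB⟩ : ∃ B : ℝ, 0 ≤ B ∧ ∀ y : V, nsq y = 1 → 𝓕.alpha y ≠ 0 → 𝓕.la y ≤ B := by
    have hcont : ContDiffOn ℝ ∞ (fun x : V => ((nsq (𝓕.alpha x) : ℝ) : ℂ)) {0}ᶜ :=
      (Complex.ofRealCLM.contDiff.comp (RN_nsq_contDiff.comp (RN_alpha_contDiff 𝓕))).contDiffOn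
    obtain ⟨K, hK, hK2⟩ := RN_bounded hcont
    refine ⟨Real.log (K + 1), Real.log_nonneg (by linarith), fun y hy h0 => ?_⟩
    unfold Foliation.la
    rw [hy, Real.log_one, mul_zero, sub_zero]
    refine Real.log_le_log (nsq_pos h0) ?_
    have h1 := hK2 y hy
    rw [Complex.norm_real, Real.norm_of_nonneg (nsq_nonneg _)] at h1
    linarith
  obtain ⟨K, hKdef⟩ : ∃ K : ℝ, K = ((𝓕.deg : ℝ) + 1) * (μ Set.univ).toReal / c := ⟨_, rfl⟩
  have hK0 : 0 ≤ K := by rw [hKdef]; positivity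
  refine ⟨(B + 1) * K, by positivity, fun r hr hr1 => ?_⟩
  have hlr : 0 ≤ Real.log (1 / r) := Real.log_nonneg (by rw [le_div_iff₀ hr]; linarith)
  have hlr2 : Real.log (1 / r) = -Real.log r := by rw [one_div, Real.log_inv]
  obtain ⟨n, hn⟩ : ∃ n : ℕ, n = ⌊B + Real.log (1 / r)⌋₊ := ⟨_, rfl⟩
  have hsph : ∀ᵐ y ∂μ, nsq y = 1 := hμ.sph
  have hsing : ∀ᵐ y ∂μ, 𝓕.alpha y ≠ 0 := by
    have h1 := hμ.sing
    rw [ae_iff]
    simpa using h1
  have hcover : {y | r ≤ nsq (𝓕.alpha y)} ≤ᵐ[μ] ⋃ i : Fin (n + 1),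
      {y | 1 ≤ 𝓕.la y + (1 - Real.log r - i) ∧ 𝓕.la y + (1 - Real.log r - i) ≤ 2} := by
    filter_upwards [hsph, hsing] with y hy h0
    intro hry
    have hry' : r ≤ nsq (𝓕.alpha y) := hry
    have h1 : 𝓕.la y = Real.log (nsq (𝓕.alpha y)) := by
      unfold Foliation.la
      rw [hy, Real.log_one, mul_zero, sub_zero]
    have h2 : 0 ≤ 𝓕.la y - Real.log r := by
      rw [h1]
      have := Real.log_le_log hr hry'
      linarith
    have h3 := hB y hy h0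
    have h4 : ⌊𝓕.la y - Real.log r⌋₊ < n + 1 := by
      rw [hn]
      refine Nat.lt_succ_of_le (Nat.floor_le_floor ?_)
      rw [hlr2]
      linarith
    refine Set.mem_iUnion.2 ⟨⟨⌊𝓕.la y - Real.log r⌋₊, h4⟩, ?_, ?_⟩
    · have := Nat.floor_le h2
      show 1 ≤ 𝓕.la y + (1 - Real.log r - (⌊𝓕.la y - Real.log r⌋₊ : ℝ))
      linarith
    · have := Nat.lt_floor_add_one (𝓕.la y - Real.log r)
      show 𝓕.la y + (1 - Real.log r - (⌊𝓕.la y - Real.log r⌋₊ : ℝ)) ≤ 2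
      linarith
  calc ∫⁻ y in {y | r ≤ nsq (𝓕.alpha y)},
        ENNReal.ofReal (gradm 𝓕.la 𝓕.la y (𝓕.vec y) / nsq (𝓕.alpha y)) ∂μ
      ≤ ∫⁻ y in ⋃ i : Fin (n + 1),
          {y | 1 ≤ 𝓕.la y + (1 - Real.log r - i) ∧ 𝓕.la y + (1 - Real.log r - i) ≤ 2},
        ENNReal.ofReal (gradm 𝓕.la 𝓕.la y (𝓕.vec y) / nsq (𝓕.alpha y)) ∂μ :=
        lintegral_mono_set' hcover
    _ ≤ ∑' i : Fin (n + 1), ∫⁻ y in
          {y | 1 ≤ 𝓕.la y + (1 - Real.log r - i) ∧ 𝓕.la y + (1 - Real.log r - i) ≤ 2},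
        ENNReal.ofReal (gradm 𝓕.la 𝓕.la y (𝓕.vec y) / nsq (𝓕.alpha y)) ∂μ :=
        lintegral_iUnion_le _ _
    _ ≤ ∑' _ : Fin (n + 1), ENNReal.ofReal K := by
        refine ENNReal.tsum_le_tsum fun i => ?_
        rw [hKdef]
        exact KB_slab 𝓕 μ hμ hs hΦ hΦ1 hΦ2 hc hΦc _
    _ = ENNReal.ofReal ((n + 1) * K) := by
        rw [tsum_fintype, Finset.sum_const, Finset.card_univ, Fintype.card_fin, nsmul_eq_mul,
          ENNReal.ofReal_mul (by positivity)]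
        congr 1
        rw [show ((n : ℝ) + 1) = ((n + 1 : ℕ) : ℝ) by push_cast; rfl, ENNReal.ofReal_natCast]
    _ ≤ ENNReal.ofReal ((B + 1) * K * (1 + Real.log (1 / r))) := by
        apply ENNReal.ofReal_le_ofReal
        have h1 : (n : ℝ) ≤ B + Real.log (1 / r) := by
          rw [hn]
          exact Nat.floor_le (by positivity)
        have h2 : (n : ℝ) + 1 ≤ (B + 1) * (1 + Real.log (1 / r)) := by nlinarith
        calc ((n : ℝ) + 1) * K ≤ ((B + 1) * (1 + Real.log (1 / r))) * K :=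
              mul_le_mul_of_nonneg_right h2 hK0
          _ = (B + 1) * K * (1 + Real.log (1 / r)) := by ring

end Pool.Agent.H24.CU
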