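import Pool.Agent.H24.CU.SIN

/-!
# Row KC (the divergence near a singular point)

PROOF.  `Z = vf (resA) (resB)`, `EBound` gives `ρ', C`; put `ρ'' = min ρ' ρ`.  `tau p y < r₁` with `r₁ = ρ''^2/(1 + ρ''^2)` and `nsq y = 1` imply `herm y p ≠ 0` (`tau < 1`),
`y ∈ scone (ball 0 ρ'')` (`Frame.scone_iff`; with `q = π y`: `tau p y = tau p (chi q) = |q|^2/(1+|q|^2)`, `|q|^2 = FC76.nsq q >= ‖q‖^2`).
If `r <= nsq (alpha y)`: `y = t • chi q`, `|t| <= 1` (`nsq (chi q) >= 1`), `nsq (alpha y) = |t|^(2(deg+1)) nsq (alpha (chi q)) <= 3 nsq (Z q)` (`nsq_alpha_bounds`) and `nsq (Z q) <= L ‖q‖^2` for `‖q‖ <= 1`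
(`Z 0 = 0` by `alpha_zero_iff` at `0`, `chi 0 = p`; `Z` is `C^1`, hence Lipschitz on the unit ball), so `‖q‖ >= sqrt (r/(3L)) > r/L'` with `L' > 1` depending only on `L` (`r < 1`).
So the set is contained in `scone E`, `E = {q ∈ ball 0 ρ'' | r/L' < ‖q‖}`; `lint` with
`Φ y = normSq (dv y)` (`dv_wt`, `measurable_dv`): the integral is `<= ∫⁻_E ofReal (normSq (dv (chi q))) dM`;
`Frame.dv_chi`: `normSq (dv (chi q)) <= 2 ‖ev divp q‖^2 + 2 (deg+2)^2 * 2 * nsq (Z q)` (`|A conj q_1 + B conj q_2|^2 <= nsq(Z) |q|^2`, `|q|^2 <= 2`, `nsq chi >= 1`);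
`EBound` at `r/L'` (`ev 1 q = 1 > r/L'`) and `sin_fin`.  `log (L'/r) = log L' + log (1/r)`.
-/

namespace Pool.Agent.H24.CU

open MeasureTheory
open scoped ComplexConjugate

variable {𝓕 : Foliation} {μ : Measure V} {p b c : V} {ρ : ℝ} {M : Measure (ℂ × ℂ)}

theorem KC_lip (f : FC76.P2) (h0 : FC76.ev f 0 = 0) :
    ∃ K : ℝ, 0 ≤ K ∧ ∀ q : ℂ × ℂ, ‖q‖ ≤ 1 → ‖FC76.ev f q‖ ≤ K * ‖q‖ := by
  have hc : ContinuousOn (fderiv ℂ (FC76.ev f)) (Metric.closedBall 0 1) :=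
    ((FC76.contDiff_ev f).continuous_fderiv (by simp)).continuousOn
  obtain ⟨C, hC⟩ := (isCompact_closedBall (0 : ℂ × ℂ) 1).exists_bound_of_continuousOn hc
  refine ⟨C, ?_, ?_⟩
  · exact (norm_nonneg _).trans (hC 0 (by simp))
  · intro q hq
    have h1 := Convex.norm_image_sub_le_of_norm_fderiv_le (𝕜 := ℂ) (f := FC76.ev f)
      (s := Metric.closedBall (0 : ℂ × ℂ) 1) (x := 0) (y := q) (C := C)
      (fun x _ => (FC76.contDiff_ev f).differentiable (by simp) x) hC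
      (convex_closedBall _ _) (by simp) (by simpa using hq)
    rw [h0, sub_zero, sub_zero] at h1
    exact h1

theorem KC_cs (A B x y : ℂ) : ‖A * conj x + B * conj y‖ ^ 2 ≤
    (‖A‖ ^ 2 + ‖B‖ ^ 2) * (‖x‖ ^ 2 + ‖y‖ ^ 2) := by
  have h1 : ‖A * conj x + B * conj y‖ ≤ ‖A‖ * ‖x‖ + ‖B‖ * ‖y‖ := by
    refine (norm_add_le _ _).trans ?_
    rw [norm_mul, norm_mul, RCLike.norm_conj, RCLike.norm_conj]
  have h2 := pow_le_pow_left₀ (norm_nonneg _) h1 2
  nlinarith [sq_nonneg (‖A‖ * ‖y‖ - ‖B‖ * ‖x‖)]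

/-- a unit vector close to `p` is in the chart -/
theorem KC_mem (h : Frame p b c) {δ : ℝ} (hδ : 0 < δ) {y : V} (hy : nsq y = 1)
    (ht : tau p y < δ ^ 2 / (1 + δ ^ 2)) :
    ∃ q : ℂ × ℂ, ‖q‖ < δ ∧ ∃ t : ℂ, t ≠ 0 ∧ y = t • chi p b c q ∧ Complex.normSq t ≤ 1 := by
  have hne : herm y p ≠ 0 := by
    intro h0
    have h1 : herm p y = 0 := by
      have h2 : herm p y = conj (herm y p) := by
        unfold herm
        rw [map_sum]
        refine Finset.sum_congr rfl fun j _ => ?_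
        rw [map_mul, Complex.conj_conj, mul_comm]
      rw [h2, h0, map_zero]
    unfold tau at ht
    rw [h1, map_zero, zero_div, sub_zero, lt_div_iff₀ (by positivity)] at ht
    linarith
  obtain ⟨q, hq⟩ : ∃ q : ℂ × ℂ, q = (herm y b / herm y p, herm y c / herm y p) := ⟨_, rfl⟩
  have hyq : y = herm y p • chi p b c q := by
    conv_lhs => rw [h.expand y]
    rw [hq]
    unfold chi
    rw [smul_add, smul_add, smul_smul, smul_smul, mul_div_cancel₀ _ hne, mul_div_cancel₀ _ hne]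
  have hnq : 0 ≤ FC76.nsq q := FC76.nsq_nonneg q
  have htau : tau p y = FC76.nsq q / (1 + FC76.nsq q) := by
    have h1 : tau ((1 : ℂ) • p) (herm y p • chi p b c q) = tau p (chi p b c q) :=
      tau_smul 1 _ one_ne_zero hne _ _
    rw [one_smul, ← hyq, h.tau_chi] at h1
    exact h1
  have hlt : FC76.nsq q < δ ^ 2 := by
    rw [htau, div_lt_div_iff₀ (by positivity) (by positivity)] at ht
    linarith
  refine ⟨q, ?_, herm y p, hne, hyq, ?_⟩
  · have h1 := (FC76.norm_sq_le_nsq q).1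
    by_contra hcon
    push Not at hcon
    have h2 := pow_le_pow_left₀ hδ.le hcon 2
    linarith
  · have h1 : Complex.normSq (herm y p) * (1 + FC76.nsq q) = 1 := by
      rw [← h.nsq_chi q, ← nsq_smul, ← hyq, hy]
    have h2 := Complex.normSq_nonneg (herm y p)
    nlinarith

theorem SChart.dv_bound [IsFiniteMeasure μ] (h : SChart 𝓕 μ p b c ρ M) (hp : 𝓕.alpha p = 0)
    (hs0 : μ {x | 𝓕.alpha x = 0} = 0)
    (hE : FC76.EBound (resA 𝓕 p b c) (resB 𝓕 p b c) 1 M) :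
    ∃ r₁ C : ℝ, 0 < r₁ ∧ 0 ≤ C ∧ ∀ r : ℝ, 0 < r → r < 1 →
      ∫⁻ y in {y | nsq y = 1 ∧ tau p y < r₁ ∧ r ≤ nsq (𝓕.alpha y)},
        ENNReal.ofReal (Complex.normSq (𝓕.dv y) / nsq (𝓕.alpha y)) ∂μ ≤
      ENNReal.ofReal (C * (1 + Real.log (1 / r))) := by
  obtain ⟨ρ', hρ', C, hC⟩ := hE
  have hF := h.frame
  -- notation
  obtain ⟨A, hA⟩ : ∃ A, A = resA 𝓕 p b c := ⟨_, rfl⟩
  obtain ⟨B, hB⟩ : ∃ B, B = resB 𝓕 p b c := ⟨_, rfl⟩
  have hfin := h.sin_fin hs0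
  rw [← hA, ← hB] at hC hfin
  obtain ⟨S, hS⟩ : ∃ S : ENNReal, S = ∫⁻ q, ENNReal.ofReal (FC76.nsq (FC76.vf A B q)) ∂M := ⟨_, rfl⟩
  have hSt : S ≠ ⊤ := by rw [hS]; exact hfin.ne
  have hchi0 : chi p b c 0 = p := by
    unfold chi
    simp
  have hz := (hF.alpha_zero_iff 𝓕 0).1 (by rw [hchi0]; exact hp)
  rw [← hA, ← hB] at hz
  obtain ⟨KA, hKA, hKA'⟩ := KC_lip A hz.1
  obtain ⟨KB, hKB, hKB'⟩ := KC_lip B hz.2
  obtain ⟨L, hL⟩ : ∃ L : ℝ, L = KA ^ 2 + KB ^ 2 + 1 := ⟨_, rfl⟩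
  have hL1 : 1 ≤ L := by rw [hL]; nlinarith [sq_nonneg KA, sq_nonneg KB]
  have hZL : ∀ q : ℂ × ℂ, ‖q‖ ≤ 1 → FC76.nsq (FC76.vf A B q) ≤ L * ‖q‖ ^ 2 := by
    intro q hq
    have h1 := pow_le_pow_left₀ (norm_nonneg _) (hKA' q hq) 2
    have h2 := pow_le_pow_left₀ (norm_nonneg _) (hKB' q hq) 2
    show ‖FC76.ev A q‖ ^ 2 + ‖FC76.ev B q‖ ^ 2 ≤ L * ‖q‖ ^ 2
    rw [hL]
    nlinarith [sq_nonneg ‖q‖]
  obtain ⟨δ, hδ⟩ : ∃ δ : ℝ, δ = min ρ' ρ := ⟨_, rfl⟩
  have hδ0 : 0 < δ := by rw [hδ]; exact lt_min hρ' h.r_pos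
  have hδρ' : δ ≤ ρ' := by rw [hδ]; exact min_le_left _ _
  have hδρ : δ ≤ ρ := by rw [hδ]; exact min_le_right _ _
  have hδ1 : δ ≤ 1 := hδρ.trans h.r_le
  obtain ⟨L', hL'⟩ : ∃ L' : ℝ, L' = 3 * L + 1 := ⟨_, rfl⟩
  have hL'1 : 1 < L' := by rw [hL']; linarith
  have hlogL' : 0 ≤ Real.log L' := Real.log_nonneg hL'1.le
  obtain ⟨D, hD⟩ : ∃ D : ℝ, D = 4 * ((𝓕.deg : ℝ) + 2) ^ 2 := ⟨_, rfl⟩
  have hD0 : 0 ≤ D := by rw [hD]; positivity
  refine ⟨δ ^ 2 / (1 + δ ^ 2), 2 * |C| * (1 + Real.log L') + D * S.toReal, by positivity,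
    by positivity, ?_⟩
  intro r hr hr1
  have hlogr : 0 ≤ Real.log (1 / r) := Real.log_nonneg (by rw [le_div_iff₀ hr]; linarith)
  obtain ⟨E, hEd⟩ : ∃ E : Set (ℂ × ℂ), E = {q | q ∈ Metric.ball (0 : ℂ × ℂ) δ ∧ r / L' < ‖q‖} :=
    ⟨_, rfl⟩
  have hEm : MeasurableSet E := by
    rw [hEd]
    exact Metric.isOpen_ball.measurableSet.inter
      (isOpen_lt continuous_const continuous_norm).measurableSet
  have hEρ : E ⊆ Metric.ball 0 ρ := by
    rw [hEd]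
    rintro q ⟨hq, -⟩
    exact Metric.ball_subset_ball hδρ hq
  have hsub : {y | nsq y = 1 ∧ tau p y < δ ^ 2 / (1 + δ ^ 2) ∧ r ≤ nsq (𝓕.alpha y)} ⊆
      scone p b c E := by
    rintro y ⟨hy, hty, hry⟩
    obtain ⟨q, hq, t, ht0, hyt, ht1⟩ := KC_mem hF hδ0 hy hty
    refine ⟨hy, q, ?_, t, ht0, hyt⟩
    rw [hEd]
    refine ⟨by rwa [mem_ball_zero_iff], ?_⟩
    have hq1 : ‖q‖ ≤ 1 := hq.le.trans hδ1
    have h1 := (hF.nsq_alpha_bounds 𝓕 q hq1).2
    rw [← hA, ← hB] at h1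
    have h2 := hZL q hq1
    have h3 : nsq (𝓕.alpha y) ≤ nsq (𝓕.alpha (chi p b c q)) := by
      rw [hyt, alpha_smul, nsq_smul, map_pow]
      have h4 : Complex.normSq t ^ (𝓕.deg + 1) ≤ 1 := pow_le_one₀ (Complex.normSq_nonneg t) ht1
      exact mul_le_of_le_one_left (nsq_nonneg _) h4
    have h5 : r ≤ 3 * (L * ‖q‖ ^ 2) := by linarith
    by_contra hcon
    push Not at hcon
    have hL'0 : 0 < L' := by linarith
    have h6 : ‖q‖ ^ 2 ≤ (r / L') ^ 2 := pow_le_pow_left₀ (norm_nonneg _) hcon 2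
    have h7 : r * L' ^ 2 ≤ 3 * L * r ^ 2 := by
      have h8 : r ≤ 3 * (L * (r / L') ^ 2) := by nlinarith
      rw [div_pow] at h8
      have h9 : 3 * (L * (r ^ 2 / L' ^ 2)) = (3 * L * r ^ 2) / L' ^ 2 := by ring
      rw [h9, le_div_iff₀ (by positivity)] at h8
      exact h8
    have h8 : L' ^ 2 ≤ 3 * L * r := by
      have : r * L' ^ 2 ≤ r * (3 * L * r) := by nlinarith
      exact le_of_mul_le_mul_left this hr
    rw [hL'] at h8
    nlinarith
  -- transfer to the chart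
  have hlint := h.lint (fun y => Complex.normSq (𝓕.dv y))
    (by
      have h1 : (fun y => Complex.normSq (𝓕.dv y)) = fun y => ‖𝓕.dv y‖ ^ 2 := by
        funext y
        rw [Complex.normSq_eq_norm_sq]
      rw [h1]
      exact (measurable_dv 𝓕).norm.pow_const 2) (dv_wt 𝓕) E hEm hEρ
  have hAc : Continuous (FC76.ev A) := (FC76.contDiff_real_ev A).continuous
  have hBc : Continuous (FC76.ev B) := (FC76.contDiff_real_ev B).continuous
  have hdc : Continuous (FC76.ev (FC76.divp A B)) := (FC76.contDiff_real_ev _).continuous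
  have hpt : ∀ q ∈ E, ENNReal.ofReal (Complex.normSq (𝓕.dv (chi p b c q))) ≤
      2 * ENNReal.ofReal (‖FC76.ev (FC76.divp A B) q‖ ^ 2) +
        ENNReal.ofReal D * ENNReal.ofReal (FC76.nsq (FC76.vf A B q)) := by
    intro q hq
    rw [hEd] at hq
    have hq1 : ‖q‖ ≤ 1 := by
      have := mem_ball_zero_iff.1 hq.1
      linarith
    have h2 : (2 : ENNReal) = ENNReal.ofReal 2 := by simp
    rw [h2, ← ENNReal.ofReal_mul (by norm_num), ← ENNReal.ofReal_mul hD0,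
      ← ENNReal.ofReal_add (by positivity) (mul_nonneg hD0 (FC76.nsq_nonneg _))]
    refine ENNReal.ofReal_le_ofReal ?_
    rw [hF.dv_chi 𝓕 q, ← hA, ← hB, Complex.normSq_eq_norm_sq]
    obtain ⟨u, hu⟩ : ∃ u : ℂ, u = FC76.ev (FC76.divp A B) q := ⟨_, rfl⟩
    obtain ⟨w, hw⟩ : ∃ w : ℂ, w = ((𝓕.deg : ℂ) + 2) * (FC76.ev A q * conj q.1 +
        FC76.ev B q * conj q.2) / (nsq (chi p b c q) : ℂ) := ⟨_, rfl⟩
    rw [← hu, ← hw]
    have h3 : ‖u - w‖ ^ 2 ≤ 2 * ‖u‖ ^ 2 + 2 * ‖w‖ ^ 2 := by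
      have h4 := norm_sub_le u w
      have h5 := pow_le_pow_left₀ (norm_nonneg _) h4 2
      nlinarith [sq_nonneg (‖u‖ - ‖w‖)]
    have h6 : ‖w‖ ^ 2 ≤ ((𝓕.deg : ℝ) + 2) ^ 2 * (2 * FC76.nsq (FC76.vf A B q)) := by
      have h7 : 1 ≤ nsq (chi p b c q) := by
        rw [hF.nsq_chi]
        linarith [FC76.nsq_nonneg q]
      have h8 : ‖w‖ ≤ ‖((𝓕.deg : ℂ) + 2) * (FC76.ev A q * conj q.1 + FC76.ev B q * conj q.2)‖ := by
        rw [hw, norm_div]
        refine div_le_self (norm_nonneg _) ?_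
        rw [Complex.norm_real, Real.norm_of_nonneg (by linarith)]
        exact h7
      have h9 := pow_le_pow_left₀ (norm_nonneg _) h8 2
      refine h9.trans ?_
      rw [norm_mul, mul_pow]
      have h10 : ‖((𝓕.deg : ℂ) + 2)‖ = (𝓕.deg : ℝ) + 2 := by
        have : ((𝓕.deg : ℂ) + 2) = (((𝓕.deg : ℝ) + 2 : ℝ) : ℂ) := by push_cast; rfl
        rw [this, Complex.norm_real, Real.norm_of_nonneg (by positivity)]
      rw [h10]
      refine mul_le_mul_of_nonneg_left ?_ (by positivity)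
      refine (KC_cs _ _ _ _).trans ?_
      have h11 := (FC76.norm_sq_le_nsq q).2
      have h12 : ‖q.1‖ ^ 2 + ‖q.2‖ ^ 2 ≤ 2 := by
        have h13 : FC76.nsq q ≤ 2 := by nlinarith [norm_nonneg q]
        exact h13
      have h14 : 0 ≤ ‖FC76.ev A q‖ ^ 2 + ‖FC76.ev B q‖ ^ 2 := by positivity
      show (‖FC76.ev A q‖ ^ 2 + ‖FC76.ev B q‖ ^ 2) * (‖q.1‖ ^ 2 + ‖q.2‖ ^ 2) ≤
        2 * (‖FC76.ev A q‖ ^ 2 + ‖FC76.ev B q‖ ^ 2)
      nlinarith
    rw [hD]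
    linarith
  have hmd : Measurable (fun q : ℂ × ℂ => ENNReal.ofReal (‖FC76.ev (FC76.divp A B) q‖ ^ 2)) :=
    (hdc.norm.pow 2).measurable.ennreal_ofReal
  have hmn : Measurable (fun q : ℂ × ℂ => ENNReal.ofReal (FC76.nsq (FC76.vf A B q))) := by
    have h1 : Continuous (fun q : ℂ × ℂ => FC76.nsq (FC76.vf A B q)) := by
      unfold FC76.nsq FC76.vf
      exact (hAc.norm.pow 2).add (hBc.norm.pow 2)
    exact h1.measurable.ennreal_ofReal
  have hr' : 0 < r / L' := div_pos hr (by linarith)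
  have hr'1 : r / L' < 1 := by
    rw [div_lt_one (by linarith)]
    linarith
  have hCr := hC (r / L') hr' hr'1
  have hlog' : Real.log (1 / (r / L')) = Real.log L' + Real.log (1 / r) := by
    rw [one_div_div, Real.log_div (by linarith) hr.ne', one_div, Real.log_inv]
    ring
  calc ∫⁻ y in {y | nsq y = 1 ∧ tau p y < δ ^ 2 / (1 + δ ^ 2) ∧ r ≤ nsq (𝓕.alpha y)},
        ENNReal.ofReal (Complex.normSq (𝓕.dv y) / nsq (𝓕.alpha y)) ∂μ
      ≤ ∫⁻ y in scone p b c E, ENNReal.ofReal (Complex.normSq (𝓕.dv y) / nsq (𝓕.alpha y)) ∂μ :=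
        lintegral_mono_set hsub
    _ = ∫⁻ q in E, ENNReal.ofReal (Complex.normSq (𝓕.dv (chi p b c q))) ∂M := hlint
    _ ≤ ∫⁻ q in E, (2 * ENNReal.ofReal (‖FC76.ev (FC76.divp A B) q‖ ^ 2) +
        ENNReal.ofReal D * ENNReal.ofReal (FC76.nsq (FC76.vf A B q))) ∂M :=
        setLIntegral_mono' hEm hpt
    _ = 2 * ∫⁻ q in E, ENNReal.ofReal (‖FC76.ev (FC76.divp A B) q‖ ^ 2) ∂M +
        ENNReal.ofReal D * ∫⁻ q in E, ENNReal.ofReal (FC76.nsq (FC76.vf A B q)) ∂M := by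
        rw [lintegral_add_left (hmd.const_mul _), lintegral_const_mul _ hmd,
          lintegral_const_mul _ hmn]
    _ ≤ 2 * ENNReal.ofReal (|C| * (1 + (Real.log L' + Real.log (1 / r)))) +
        ENNReal.ofReal D * S := by
        refine add_le_add (mul_le_mul_right ?_ _) (mul_le_mul_right ?_ _)
        · refine le_trans (lintegral_mono_set ?_) (hCr.trans (ENNReal.ofReal_le_ofReal ?_))
          · rw [hEd]
            rintro q ⟨hq1, hq2⟩
            refine ⟨Metric.ball_subset_ball hδρ' hq1, ?_, hq2⟩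
            have : FC76.ev 1 q = 1 := by
              unfold FC76.ev
              simp
            rw [this, norm_one]
            exact hr'1
          · rw [hlog']
            refine mul_le_mul_of_nonneg_right (le_abs_self C) (by linarith)
        · rw [hS]
          exact setLIntegral_le_lintegral _ _
    _ = ENNReal.ofReal (2 * (|C| * (1 + (Real.log L' + Real.log (1 / r)))) + D * S.toReal) := by
        have h2 : (2 : ENNReal) = ENNReal.ofReal 2 := by simp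
        rw [ENNReal.ofReal_add (by positivity) (by positivity), ENNReal.ofReal_mul (p := 2) (by norm_num),
          ENNReal.ofReal_mul hD0, ENNReal.ofReal_toReal hSt, ← h2]
    _ ≤ ENNReal.ofReal ((2 * |C| * (1 + Real.log L') + D * S.toReal) * (1 + Real.log (1 / r))) := by
        refine ENNReal.ofReal_le_ofReal ?_
        have h1 : 0 ≤ D * S.toReal * Real.log (1 / r) := by positivity
        have h2 : 0 ≤ 2 * |C| * (Real.log L' * Real.log (1 / r)) := by positivity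
        nlinarith

end Pool.Agent.H24.CU
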