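import Pool.Agent.H76.FC.DA
import Pool.Agent.H76.FC.DB

/-!
# Row MUL (finite local multiplicity)

PROOF.  Let `S` be the finite set of common zeros of `A, B` different from `0`, `I = (A, B)`.  For every `s ∈ S` choose a linear form `l_s` (a polynomial
`X i - C (s i)` with `s i ≠ 0`) with `l_s(s) = 0`, `l_s(0) ≠ 0`, `u = ∏ l_s`, `u(0) ≠ 0`.  For `i = 0, 1`, `u * X i` vanishes on all the common zeros, so by
Hilbert's Nullstellensatz (`MvPolynomial.vanishingIdeal_zeroLocus_eq_radical`) `(u * X i)^N ∈ I`, same `N >= 1` for both.  Hence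
`u^(2N) * m ∈ I` for every monomial `m` of degree `>= 2 N` (it is divisible by `X 0 ^ N` or by `X 1 ^ N`), so `u^(2N) * mI^(2N) ⊆ I`.
`u^(2N)` is invertible modulo `mI^n` (constant term `≠ 0`: `u^(2N) = a (1 - v)`, `v ∈ mI`, geometric series), so `mI^(2N) ⊆ I ⊔ mI^n` for all `n`.
Therefore `P2 ⧸ (I ⊔ mI^n)` is a quotient of `P2 ⧸ mI^(2N)`, which is spanned by the monomials of degree `< 2N` (`at most (2N)^2` of them).
`K = (2N)^2`; `finrank` of a quotient (surjective linear map) is at most the `finrank` of the finite dimensional source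
(`LinearMap.finrank_le_finrank_of_surjective`-like lemma; or `finrank_le_of_span`/`finrank_span_le_card`).
-/

open MvPolynomial

namespace Pool.Agent.H24.CU

/-- a polynomial separating `0` from the other points of a finite set -/
theorem MUL_sep (S : Set (Fin 2 → ℂ)) (hS : S.Finite) :
    ∃ u : FC76.P2, eval 0 u ≠ 0 ∧ ∀ s ∈ S, s ≠ 0 → eval s u = 0 := by
  classical
  have hex : ∀ s : Fin 2 → ℂ, ∃ l : FC76.P2, eval s l = 0 ∧ (s ≠ 0 → eval 0 l ≠ 0) := by
    intro s
    by_cases hs : s = 0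
    · exact ⟨0, by simp, fun h => absurd hs h⟩
    · obtain ⟨i, hi⟩ := Function.ne_iff.1 hs
      refine ⟨X i - C (s i), by simp, fun _ => ?_⟩
      simpa using hi
  choose l hl1 hl2 using hex
  refine ⟨∏ s ∈ hS.toFinset.erase 0, l s, ?_, fun s hs hs0 => ?_⟩
  · rw [map_prod]
    exact Finset.prod_ne_zero_iff.2 fun s hs => hl2 s (Finset.ne_of_mem_erase hs)
  · rw [map_prod]
    exact Finset.prod_eq_zero (Finset.mem_erase.2 ⟨hs0, hS.mem_toFinset.2 hs⟩) (hl1 s)

/-- Nullstellensatz -/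
theorem MUL_null (A B : FC76.P2) (u : FC76.P2)
    (hu : ∀ q : Fin 2 → ℂ, eval q A = 0 → eval q B = 0 → q ≠ 0 → eval q u = 0) :
    ∃ M : ℕ, ∀ f ∈ (FC76.mI ^ M : Ideal FC76.P2), u ^ M * f ∈ Ideal.span ({A, B} : Set FC76.P2) := by
  obtain ⟨M, hM⟩ := (Ideal.span ({A, B} : Set FC76.P2)).exists_radical_pow_le_of_fg
    (Ideal.fg_of_isNoetherianRing _)
  refine ⟨M, fun f hf => hM ?_⟩
  have h1 : Ideal.span {u} * FC76.mI ≤ (Ideal.span ({A, B} : Set FC76.P2)).radical := by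
    rw [Ideal.span_singleton_mul_le_iff]
    intro z hz
    rw [← vanishingIdeal_zeroLocus_eq_radical (K := ℂ), mem_vanishingIdeal_iff]
    intro q hq
    have hA : eval q A = 0 := by
      rw [← coe_aeval_eq_eval]
      exact hq A (Ideal.subset_span (Set.mem_insert _ _))
    have hB : eval q B = 0 := by
      rw [← coe_aeval_eq_eval]
      exact hq B (Ideal.subset_span (Set.mem_insert_of_mem _ rfl))
    have h2 : eval q (u * z) = 0 := by
      rw [map_mul]
      by_cases hq0 : q = 0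
      · rw [hq0, FC76.eval_zero_eq_cf z, (FC76.mem_mI_iff z).1 (by rwa [pow_one]), mul_zero]
      · rw [hu q hA hB hq0, zero_mul]
    rw [← coe_aeval_eq_eval] at h2
    exact h2
  have h2 : u ^ M * f ∈ (Ideal.span {u} * FC76.mI) ^ M := by
    rw [mul_pow, Ideal.span_singleton_pow]
    exact Ideal.mul_mem_mul (Ideal.mem_span_singleton_self _) hf
  exact Ideal.pow_right_mono h1 M h2

theorem MUL_le (I : Ideal FC76.P2) (u : FC76.P2) (h0 : eval 0 u ≠ 0) (M : ℕ)
    (h : ∀ f ∈ (FC76.mI ^ M : Ideal FC76.P2), u ^ M * f ∈ I) (n : ℕ) :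
    FC76.mI ^ M ≤ I ⊔ FC76.mI ^ n := by
  have hco : IsCoprime (Ideal.span {u}) FC76.mI := by
    rw [Ideal.isCoprime_iff_exists]
    refine ⟨u * C (eval 0 u)⁻¹, Ideal.mul_mem_right _ _ (Ideal.mem_span_singleton_self _),
      1 - u * C (eval 0 u)⁻¹, ?_, by ring⟩
    rw [← pow_one FC76.mI, FC76.mem_mI_iff, ← FC76.eval_zero_eq_cf, map_sub, map_mul, map_one,
      eval_C, mul_inv_cancel₀ h0, sub_self]
  obtain ⟨i, hi, j, hj, hij⟩ := Ideal.isCoprime_iff_exists.1 (hco.pow (m := M) (n := n))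
  rw [Ideal.span_singleton_pow] at hi
  obtain ⟨w, rfl⟩ := Ideal.mem_span_singleton'.1 hi
  intro f hf
  have e : f = w * (u ^ M * f) + f * j := by
    calc f = f * (w * u ^ M + j) := by rw [hij, mul_one]
      _ = w * (u ^ M * f) + f * j := by ring
  rw [e]
  exact Ideal.add_mem _ (Ideal.mem_sup_left (Ideal.mul_mem_left _ _ (h f hf)))
    (Ideal.mem_sup_right (Ideal.mul_mem_left _ _ hj))

theorem exists_multLe (A B : FC76.P2)
    (hfin : {q : Fin 2 → ℂ | eval q A = 0 ∧ eval q B = 0}.Finite) : ∃ K, FC76.MultLe A B K := by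
  obtain ⟨u, hu0, hu⟩ := MUL_sep _ hfin
  obtain ⟨M, hM⟩ := MUL_null A B u fun q hA hB hq => hu q ⟨hA, hB⟩ hq
  refine ⟨Module.finrank ℂ (FC76.P2 ⧸ (FC76.mI ^ M : Ideal FC76.P2)), fun n => ?_⟩
  have hle := MUL_le _ u hu0 M hM n
  have : FiniteDimensional ℂ (FC76.P2 ⧸ (FC76.mI ^ M : Ideal FC76.P2)) := FC76.fd_of_le _ M le_rfl
  refine LinearMap.finrank_le_finrank_of_surjective
    (f := (Ideal.Quotient.factorₐ ℂ hle).toLinearMap) ?_
  intro w
  obtain ⟨g, rfl⟩ := Ideal.Quotient.mk_surjective w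
  exact ⟨Ideal.Quotient.mk _ g, rfl⟩

end Pool.Agent.H24.CU
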