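import Pool.Agent.H24.CU.SVA
import Pool.Agent.H24.CU.CL

/-!
# Row SVU (pull back of functions of the chart to `C^3`)

`ℓ0 y = herm y p`, `π = pim p b c`.
PROOFS.  `pbu_zero`: as `pbf_zero` of row SVA (if `ℓ0 y₀ = 0`, `y₀ ≠ 0` then `‖π y‖` is large near `y₀` where `ℓ0 y ≠ 0`).
`pbu_isFun`: smooth on `{ℓ0 ≠ 0}` (composition), zero near the other points; homogeneous.
`pbu_levi`: let `H (q', t) = (1 + t) • chi q'`, complex differentiable; derivative at `(q, 0)` in the direction `(v, s)`: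
`s • chi q + v.1 • b + v.2 • c`, which is `vec (chi q)` for `v = Z q`, `s = ev (res0) q` (`Frame.vec_chi`).  `levi_comp_hol`:
`levi (pbu G) (chi q) (vec (chi q)) = levi (pbu G ∘ H) (q, 0) (Z q, s)`, and `pbu G (H (q', t)) = G q'` near `(q, 0)` (`π (chi q') = q'`,
`Frame.herm_chi`), so by `levi_comp_hol` with the projection it is `levi G q (Z q)`.
-/

namespace Pool.Agent.H24.CU

open scoped ComplexConjugate ContDiff

/-- The pull back of a function. -/
noncomputable def pbu (p b c : V) (G : ℂ × ℂ → ℝ) (y : V) : ℝ :=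
  if herm y p = 0 then 0 else G (pim p b c y)

variable {p b c : V}

/-- `herm · a` as a continuous linear map. -/
noncomputable def SVU_l (a : V) : V →L[ℂ] ℂ := ∑ j, conj (a j) • ContinuousLinearMap.proj j

theorem SVU_l_apply (a y : V) : SVU_l a y = herm y a := by
  unfold SVU_l herm
  rw [_root_.sum_apply]
  refine Finset.sum_congr rfl fun j _ => ?_
  rw [_root_.smul_apply, ContinuousLinearMap.proj_apply, smul_eq_mul, mul_comm]

theorem SVU_cont (a : V) : Continuous fun y : V => herm y a := by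
  have h : (fun y : V => herm y a) = fun y => SVU_l a y := by
    funext y
    exact (SVU_l_apply a y).symm
  rw [h]
  exact (SVU_l a).continuous

theorem SVU_herm_smul (t : ℂ) (y a : V) : herm (t • y) a = t * herm y a := by
  rw [← SVU_l_apply, ← SVU_l_apply, map_smul, smul_eq_mul]

theorem SVU_herm_add (y z a : V) : herm (y + z) a = herm y a + herm z a := by
  rw [← SVU_l_apply, ← SVU_l_apply, ← SVU_l_apply, map_add]

theorem SVU_herm_sub (y z a : V) : herm (y - z) a = herm y a - herm z a := by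
  rw [← SVU_l_apply, ← SVU_l_apply, ← SVU_l_apply, map_sub]

theorem SVU_b (h : Frame p b c) : herm b p = 0 ∧ herm b b = 1 ∧ herm b c = 0 := by
  have h1 := h.herm_chi (1, 0)
  have h0 := h.herm_chi (0, 0)
  have e : b = chi p b c (1, 0) - chi p b c (0, 0) := by
    unfold chi
    simp
  refine ⟨?_, ?_, ?_⟩
  · have := SVU_herm_sub (chi p b c (1, 0)) (chi p b c (0, 0)) p
    rw [← e, h1.1, h0.1] at this
    simpa using this
  · have := SVU_herm_sub (chi p b c (1, 0)) (chi p b c (0, 0)) b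
    rw [← e, h1.2.1, h0.2.1] at this
    simpa using this
  · have := SVU_herm_sub (chi p b c (1, 0)) (chi p b c (0, 0)) c
    rw [← e, h1.2.2, h0.2.2] at this
    simpa using this

theorem SVU_c (h : Frame p b c) : herm c p = 0 ∧ herm c b = 0 ∧ herm c c = 1 := by
  have h1 := h.herm_chi (0, 1)
  have h0 := h.herm_chi (0, 0)
  have e : c = chi p b c (0, 1) - chi p b c (0, 0) := by
    unfold chi
    simp
  refine ⟨?_, ?_, ?_⟩
  · have := SVU_herm_sub (chi p b c (0, 1)) (chi p b c (0, 0)) p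
    rw [← e, h1.1, h0.1] at this
    simpa using this
  · have := SVU_herm_sub (chi p b c (0, 1)) (chi p b c (0, 0)) b
    rw [← e, h1.2.1, h0.2.1] at this
    simpa using this
  · have := SVU_herm_sub (chi p b c (0, 1)) (chi p b c (0, 0)) c
    rw [← e, h1.2.2, h0.2.2] at this
    simpa using this

theorem SVU_pim_contDiffAt {y : V} (hy : herm y p ≠ 0) :
    ContDiffAt ℂ ∞ (pim p b c) y := by
  have h : pim p b c = fun y => (SVU_l b y / SVU_l p y, SVU_l c y / SVU_l p y) := by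
    funext y
    rw [SVU_l_apply, SVU_l_apply, SVU_l_apply]
    rfl
  rw [h]
  have hy' : SVU_l p y ≠ 0 := by rwa [SVU_l_apply]
  exact ((SVU_l b).contDiff.contDiffAt.div (SVU_l p).contDiff.contDiffAt hy').prodMk
    ((SVU_l c).contDiff.contDiffAt.div (SVU_l p).contDiff.contDiffAt hy')

theorem SVU_ev {G : ℂ × ℂ → ℝ} {y : V} (hy : herm y p ≠ 0) :
    pbu p b c G =ᶠ[nhds y] fun y => G (pim p b c y) := by
  filter_upwards [(SVU_cont p).continuousAt.eventually_ne hy] with y' hy'
  unfold pbu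
  rw [if_neg hy']

theorem SVU_contDiffAt {G : ℂ × ℂ → ℝ} (hG : ContDiff ℝ ∞ G) {y : V} (hy : herm y p ≠ 0) :
    ContDiffAt ℝ ∞ (pbu p b c G) y := by
  have h1 : ContDiffAt ℝ ∞ (pim p b c) y := (SVU_pim_contDiffAt hy).restrict_scalars ℝ
  exact (hG.contDiffAt.comp y h1).congr_of_eventuallyEq (SVU_ev hy)

theorem pbu_zero (h : Frame p b c) {G : ℂ × ℂ → ℝ} (hG : HasCompactSupport G) (y : V) (hy : y ≠ 0)
    (hp : herm y p = 0) : ∀ᶠ y' in nhds y, pbu p b c G y' = 0 := by
  obtain ⟨R, hR⟩ := hG.isCompact.isBounded.subset_closedBall (0 : ℂ × ℂ)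
  have hne : ((herm y b, herm y c) : ℂ × ℂ) ≠ 0 := by
    intro h0
    apply hy
    have h1 : herm y b = 0 := congrArg Prod.fst h0
    have h2 : herm y c = 0 := congrArg Prod.snd h0
    rw [h.expand y, hp, h1, h2]
    simp
  have hcont : Continuous fun y' : V => ‖((herm y' b, herm y' c) : ℂ × ℂ)‖ - R * ‖herm y' p‖ :=
    ((SVU_cont b).prodMk (SVU_cont c)).norm.sub (continuous_const.mul (SVU_cont p).norm)
  have hpos : 0 < ‖((herm y b, herm y c) : ℂ × ℂ)‖ - R * ‖herm y p‖ := by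
    rw [hp, norm_zero, mul_zero, sub_zero]
    exact norm_pos_iff.mpr hne
  filter_upwards [hcont.continuousAt.eventually (lt_mem_nhds hpos)] with y' hy'
  unfold pbu
  split_ifs with h0
  · rfl
  · by_contra hne'
    have h1 : pim p b c y' ∈ Metric.closedBall (0 : ℂ × ℂ) R :=
      hR (subset_tsupport G hne')
    rw [mem_closedBall_zero_iff] at h1
    have h2 : pim p b c y' = (herm y' p)⁻¹ • ((herm y' b, herm y' c) : ℂ × ℂ) := by
      unfold pim
      rw [Prod.smul_mk, smul_eq_mul, smul_eq_mul, div_eq_inv_mul, div_eq_inv_mul]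
    rw [h2, norm_smul, norm_inv] at h1
    have h3 : 0 < ‖herm y' p‖ := norm_pos_iff.mpr h0
    have h4 : ‖((herm y' b, herm y' c) : ℂ × ℂ)‖ ≤ R * ‖herm y' p‖ := by
      rw [inv_mul_le_iff₀ h3] at h1
      linarith
    linarith

theorem pbu_isFun (h : Frame p b c) {G : ℂ × ℂ → ℝ} (hG : ContDiff ℝ ∞ G)
    (hG2 : HasCompactSupport G) : IsFun (fun y => (pbu p b c G y : ℂ)) := by
  refine ⟨fun y hy => ?_, fun t y ht _ => ?_⟩
  · apply ContDiffAt.contDiffWithinAt
    have h1 : ContDiffAt ℝ ∞ (pbu p b c G) y := by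
      by_cases hp : herm y p = 0
      · have h2 : pbu p b c G =ᶠ[nhds y] fun _ => 0 := pbu_zero h hG2 y hy hp
        exact contDiffAt_const.congr_of_eventuallyEq h2
      · exact SVU_contDiffAt hG hp
    exact Complex.ofRealCLM.contDiff.contDiffAt.comp y h1
  · have h1 : pbu p b c G (t • y) = pbu p b c G y := by
      unfold pbu pim
      rw [SVU_herm_smul, SVU_herm_smul, SVU_herm_smul]
      by_cases h0 : herm y p = 0
      · rw [h0, mul_zero, if_pos rfl, if_pos rfl]
      · rw [if_neg (mul_ne_zero ht h0), if_neg h0, mul_div_mul_left _ _ ht,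
          mul_div_mul_left _ _ ht]
    rw [h1]

theorem SVU_fderiv (h : Frame p b c) (q : ℂ × ℂ) (w : V) :
    fderiv ℂ (pim p b c) (chi p b c q) w =
      (herm w b - q.1 * herm w p, herm w c - q.2 * herm w p) := by
  obtain ⟨h0, h1, h2⟩ := h.herm_chi q
  have e : pim p b c = fun y => (SVU_l b y * (SVU_l p y)⁻¹, SVU_l c y * (SVU_l p y)⁻¹) := by
    funext y
    rw [SVU_l_apply, SVU_l_apply, SVU_l_apply, ← div_eq_mul_inv, ← div_eq_mul_inv]
    rfl
  have hne : SVU_l p (chi p b c q) ≠ 0 := by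
    rw [SVU_l_apply, h0]
    exact one_ne_zero
  have di : HasFDerivAt (fun y => (SVU_l p y)⁻¹)
      ((-(SVU_l p (chi p b c q) ^ 2)⁻¹) • SVU_l p) (chi p b c q) :=
    (hasDerivAt_inv hne).comp_hasFDerivAt (chi p b c q) (SVU_l p).hasFDerivAt
  have d1 : HasFDerivAt (fun y => SVU_l b y * (SVU_l p y)⁻¹) _ (chi p b c q) :=
    ((SVU_l b).hasFDerivAt (x := chi p b c q)).mul di
  have d2 : HasFDerivAt (fun y => SVU_l c y * (SVU_l p y)⁻¹) _ (chi p b c q) :=
    ((SVU_l c).hasFDerivAt (x := chi p b c q)).mul di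
  rw [e, (d1.prodMk d2).fderiv]
  simp only [ContinuousLinearMap.prod_apply, _root_.smul_apply, _root_.add_apply, smul_eq_mul,
    SVU_l_apply, h0, h1, h2]
  ext <;> norm_num <;> ring

theorem pbu_levi (h : Frame p b c) (𝓕 : Foliation) {G : ℂ × ℂ → ℝ} (hG : ContDiff ℝ ∞ G)
    (q : ℂ × ℂ) :
    levi (pbu p b c G) (chi p b c q) (𝓕.vec (chi p b c q)) =
      levi G q (FC76.vf (resA 𝓕 p b c) (resB 𝓕 p b c) q) := by
  obtain ⟨h0, h1, h2⟩ := h.herm_chi q
  have hne : herm (chi p b c q) p ≠ 0 := by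
    rw [h0]
    exact one_ne_zero
  rw [levi_congr (SVU_ev hne)]
  have hd : ∀ᶠ y in nhds (chi p b c q), DifferentiableAt ℂ (pim p b c) y := by
    filter_upwards [(SVU_cont p).continuousAt.eventually_ne hne] with y hy
    exact (SVU_pim_contDiffAt hy).differentiableAt (by simp)
  have hd2 : ContDiffAt ℝ 2 (pim p b c) (chi p b c q) :=
    ((SVU_pim_contDiffAt hne).restrict_scalars ℝ).of_le (by norm_cast)
  have hG2 : ContDiffAt ℝ 2 G (pim p b c (chi p b c q)) :=
    hG.contDiffAt.of_le (by norm_cast)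
  rw [levi_comp_hol hd hd2 hG2, SVU_fderiv h]
  have e1 : pim p b c (chi p b c q) = q := by
    unfold pim
    rw [h0, h1, h2, div_one, div_one]
  have e2 : (herm (𝓕.vec (chi p b c q)) b - q.1 * herm (𝓕.vec (chi p b c q)) p,
      herm (𝓕.vec (chi p b c q)) c - q.2 * herm (𝓕.vec (chi p b c q)) p) =
      FC76.vf (resA 𝓕 p b c) (resB 𝓕 p b c) q := by
    obtain ⟨b0, b1, b2⟩ := SVU_b h
    obtain ⟨c0, c1, c2⟩ := SVU_c h
    rw [h.vec_chi 𝓕 q]
    simp only [SVU_herm_add, SVU_herm_smul, h0, h1, h2, b0, b1, b2, c0, c1, c2]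
    unfold FC76.vf
    ext <;> simp <;> ring
  rw [e1, e2]

end Pool.Agent.H24.CU
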