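import Pool.Agent.H24.CU.SIN
import Pool.Agent.H24.CU.SVU

/-!
# Row SDD (the dd^c equation in the chart, across the centre)

PROOF.  `u = pbu p b c G`, `pbu_isFun`; `0 = ∫ levi u y (vec y)/nsq (α y) dμ` (`Harm.harm`).  `Φ y = levi u y (vec y)`: weight (`levi_weight` with `m = 0`), continuous off `0` (modify at
`0` to have measurability), `Φ (chi q) = levi G q (Z q)` (`pbu_levi`).  `μ` is carried by the unit sphere; for a unit vector `y` outside `scone (ball 0 ρ)`: if `herm y p = 0`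
then `u = 0` near `y` (`pbu_zero`), otherwise `y = t • chi q` with `q` outside the ball and `levi G q = 0` there (`q ∉ tsupport G`).  So
`0 = ∫_{scone (ball)} Φ/nsq α dμ = ∫_ball levi G q (Z q) dM` (`SChart.int` for the complex valued function `(Φ : ℂ)`, `integral_ofReal`), and `M` is carried by the ball.
`lev_eq`: `FC76.lev G q v = D^2G(v,v) + D^2G(iv,iv)` with `fderiv (fderiv G) q v v`, and `fderiv (fun q => fderiv G q v) q v` is the same for `G` smooth; `levi` has the factor `1/4`.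
-/

namespace Pool.Agent.H24.CU

open MeasureTheory
open scoped ComplexConjugate ContDiff

variable {𝓕 : Foliation} {μ : Measure V} {p b c : V} {ρ : ℝ} {M : Measure (ℂ × ℂ)}

theorem lev_eq (G : ℂ × ℂ → ℝ) (hG : ContDiff ℝ ∞ G) (q v : ℂ × ℂ) :
    FC76.lev G q v = 4 * levi G q v := by
  have h1 : ContDiffAt ℝ ∞ G q := hG.contDiffAt
  have h2 : ContDiffAt ℝ 2 G q := h1.of_le (by norm_cast)
  unfold FC76.lev levi
  rw [LC_app h2, LC_app h2]
  ring

theorem SDD_herm_cont (p : V) : Continuous fun y : V => herm y p := by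
  unfold herm
  fun_prop

theorem SChart.sdd (h : SChart 𝓕 μ p b c ρ M) (hμ : Harm 𝓕 μ)
    (G : ℂ × ℂ → ℝ) (hG : ContDiff ℝ ∞ G) (hG2 : HasCompactSupport G)
    (hG3 : tsupport G ⊆ Metric.ball 0 ρ) :
    ∫ q, FC76.lev G q (FC76.vf (resA 𝓕 p b c) (resB 𝓕 p b c) q) ∂M = 0 := by
  have hu := pbu_isFun h.frame hG hG2
  obtain ⟨u, hudef⟩ : ∃ u, u = pbu p b c G := ⟨_, rfl⟩
  rw [← hudef] at hu
  have husm : ContDiffOn ℝ 2 u {0}ᶜ := by
    intro y hy
    have h1 : ContDiffAt ℝ ∞ (fun x => (u x : ℂ)) y :=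
      hu.smooth.contDiffAt (isOpen_compl_singleton.mem_nhds hy)
    have h2 : ContDiffAt ℝ ∞ u y := Complex.reCLM.contDiff.contDiffAt.comp y h1
    have h3 : ContDiffAt ℝ 2 u y := h2.of_le (by norm_cast)
    exact h3.contDiffWithinAt
  have hom0 : ∀ (t : ℂ) (y : V), t ≠ 0 → y ≠ 0 →
      u (t • y) = u y + 0 * Real.log (Complex.normSq t) := by
    intro t y ht hy
    have h1 := hu.hom t y ht hy
    have h2 : u (t • y) = u y := by exact_mod_cast h1
    rw [h2]
    ring
  classical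
  let Φ : V → ℝ := Set.piecewise {(0 : V)}ᶜ (fun y => levi u y (𝓕.vec y)) (fun _ => 0)
  have hΦ : ∀ y : V, y ≠ 0 → Φ y = levi u y (𝓕.vec y) := fun y hy =>
    Set.piecewise_eq_of_mem _ _ _ hy
  have hΦm : Measurable Φ :=
    (CL_levi_cont husm (CL_vec_cont 𝓕)).measurable_piecewise continuousOn_const
      (measurableSet_singleton (0 : V)).compl
  have hw : 𝓕.Wt (fun y => (Φ y : ℂ)) := by
    intro t y ht hy
    show ((Φ (t • y) : ℝ) : ℂ) = _ * ((Φ y : ℝ) : ℂ)
    rw [hΦ _ (smul_ne_zero ht hy), hΦ _ hy, levi_weight 𝓕 u husm 0 hom0 t y ht hy,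
      ← Complex.ofReal_mul]
  have htr := h.int (fun y => (Φ y : ℂ)) (Complex.measurable_ofReal.comp hΦm) hw
    (Metric.ball 0 ρ) Metric.isOpen_ball.measurableSet subset_rfl
  have hlev0 : ∀ {y : V} {v : V}, u =ᶠ[nhds y] (fun _ => 0) → levi u y v = 0 := by
    intro y v hy
    rw [levi_congr hy, levi_const]
  have hae : ∀ᵐ y ∂μ, nsq y = 1 := by
    rw [ae_iff]
    exact hμ.sph
  have hne : ∀ y : V, nsq y = 1 → y ≠ 0 := by
    rintro y hy rfl
    simp [nsq] at hy
  -- `u` vanishes near the points outside of the cone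
  have hu0 : ∀ y : V, nsq y = 1 → y ∉ scone p b c (Metric.ball 0 ρ) →
      u =ᶠ[nhds y] fun _ => 0 := by
    intro y hy hyc
    by_cases hp : herm y p = 0
    · rw [hudef]
      exact pbu_zero h.frame hG2 y (hne y hy) hp
    · have hπ : pim p b c y ∉ tsupport G := by
        intro hin
        exact hyc ((h.frame.scone_iff _ y).2 ⟨hy, hp, hG3 hin⟩)
      have hπc : ContinuousAt (pim p b c) y := by
        unfold pim
        exact ((SDD_herm_cont b).continuousAt.div (SDD_herm_cont p).continuousAt hp).prodMk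
          ((SDD_herm_cont c).continuousAt.div (SDD_herm_cont p).continuousAt hp)
      have h1 : ∀ᶠ q in nhds y, pim p b c q ∉ tsupport G :=
        hπc.eventually ((isClosed_tsupport G).isOpen_compl.mem_nhds hπ)
      filter_upwards [h1] with q hq
      rw [hudef]
      unfold pbu
      split_ifs with h3
      · rfl
      · exact image_eq_zero_of_notMem_tsupport hq
  have hL : ∫ y in scone p b c (Metric.ball 0 ρ), Φ y / nsq (𝓕.alpha y) ∂μ = 0 := by
    rw [setIntegral_eq_integral_of_ae_compl_eq_zero]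
    · rw [← hμ.harm u hu]
      refine integral_congr_ae ?_
      filter_upwards [hae] with y hy
      rw [hΦ y (hne y hy)]
    · filter_upwards [hae] with y hy hyc
      rw [hΦ y (hne y hy), hlev0 (hu0 y hy hyc), zero_div]
  have hL2 : ∫ y in scone p b c (Metric.ball 0 ρ), ((Φ y : ℝ) : ℂ) /
      ((nsq (𝓕.alpha y) : ℝ) : ℂ) ∂μ = 0 := by
    have e1 : ∀ y : V, ((Φ y : ℝ) : ℂ) / ((nsq (𝓕.alpha y) : ℝ) : ℂ) =
        ((Φ y / nsq (𝓕.alpha y) : ℝ) : ℂ) := fun y => by push_cast; rfl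
    simp only [e1]
    rw [integral_complex_ofReal, hL, Complex.ofReal_zero]
  have hR : ∫ q in Metric.ball (0 : ℂ × ℂ) ρ, Φ (chi p b c q) ∂M = 0 := by
    have e2 : (((∫ q in Metric.ball (0 : ℂ × ℂ) ρ, Φ (chi p b c q) ∂M) : ℝ) : ℂ) = 0 := by
      rw [← integral_complex_ofReal, ← htr]
      exact hL2
    exact_mod_cast e2
  have hcpt : ∀ q, FC76.lev G q (FC76.vf (resA 𝓕 p b c) (resB 𝓕 p b c) q) =
      4 * Φ (chi p b c q) := by
    intro q
    rw [lev_eq G hG, hΦ _ (h.frame.chi_ne q), hudef, pbu_levi h.frame 𝓕 hG q]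
  have hset : ∫ q in Metric.ball (0 : ℂ × ℂ) ρ,
      FC76.lev G q (FC76.vf (resA 𝓕 p b c) (resB 𝓕 p b c) q) ∂M =
      ∫ q, FC76.lev G q (FC76.vf (resA 𝓕 p b c) (resB 𝓕 p b c) q) ∂M := by
    refine setIntegral_eq_integral_of_forall_compl_eq_zero fun q hq => ?_
    have hpt : q ∉ tsupport G := fun hin => hq (hG3 hin)
    have h2 : G =ᶠ[nhds q] fun _ => 0 := by
      filter_upwards [(isClosed_tsupport G).isOpen_compl.mem_nhds hpt] with q hq
      exact image_eq_zero_of_notMem_tsupport hq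
    rw [lev_eq G hG, levi_congr h2, levi_const, mul_zero]
  rw [← hset]
  simp only [hcpt]
  rw [integral_const_mul, hR, mul_zero]

end Pool.Agent.H24.CU
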