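import Pool.Agent.H24.CU.SIV
import Pool.Agent.H24.CU.SDD
import Pool.Agent.H24.CU.DZ

/-!
# Row SINV (assembly: the chart measure at a singular point satisfies `FC76.Inv`)
-/

namespace Pool.Agent.H24.CU

open MeasureTheory
open scoped ComplexConjugate ContDiff

variable {𝓕 : Foliation} {μ : Measure V} {p b c : V} {ρ : ℝ} {M : Measure (ℂ × ℂ)}

theorem SINV_open_dom (ρ : ℝ) : IsOpen (FC76.dom 1 ρ) := by
  have h : FC76.dom 1 ρ = Metric.ball (0 : ℂ × ℂ) ρ ∩ {0}ᶜ := by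
    ext q
    rw [mem_dom_one]
    rfl
  rw [h]
  exact Metric.isOpen_ball.inter isOpen_compl_singleton

theorem SINV_open_pdisc (R : ℝ) : IsOpen (FC76.pdisc R) := by
  have h : FC76.pdisc R = {t : ℂ | 0 < ‖t‖} ∩ {t : ℂ | ‖t‖ < R} := rfl
  rw [h]
  exact (isOpen_lt continuous_const continuous_norm).inter (isOpen_lt continuous_norm continuous_const)

theorem SChart.toInv (h : SChart 𝓕 μ p b c ρ M) (hp : 𝓕.alpha p = 0) (hμ : Harm 𝓕 μ)
    (hcl : Pool.Agent.H85.DC.CurClosed 𝓕.F μ) (hL : 𝓕.LelZero μ) :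
    FC76.Inv (resA 𝓕 p b c) (resB 𝓕 p b c) 1 ρ M := by
  have hfin := hμ.fin
  refine { carried := h.sin_carried hp, locfin := fun K hK hK2 => h.sin_locfin hμ.sing K hK hK2,
           fin := h.sin_fin hμ.sing,
           inv := fun g hg hg2 hg3 => h.siv hμ.sph hcl g hg hg2 hg3, log := sin_log _ _ M,
           dd := fun G hG hG2 hG3 => h.sdd hμ G hG hG2 hG3, dif := ?_ }
  intro γ R _ hγ
  refine null_of_holo M γ (FC76.pdisc R) (SINV_open_pdisc R) hγ (FC76.dom 1 ρ) (SINV_open_dom ρ)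
    (h.sin_carried hp) fun q hq ε hε => ?_
  rw [mem_dom_one] at hq
  exact h.sin_small hμ.sing hL q hq.1 hq.2 ε hε

end Pool.Agent.H24.CU
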