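import Pool.Agent.H24.CU.KA
import Pool.Agent.H24.CU.KB
import Pool.Agent.H24.CU.KC
import Pool.Agent.H24.CU.SINV
import Pool.Agent.H24.CU.MUL
import Pool.Agent.H24.CU.BR

/-!
# Row KD (the energy condition (E) for closed currents)

PROOF.  `K2_le` on the unit sphere (which carries `μ`), off `{α = 0}`: three terms, on `{r <= nsq (alpha y)}`.
Term 1: `3 μ(univ)`.  Term 2: `la_energy`.
Term 3: let `P` be the finite set of unit vectors with `alpha p = 0`, one for each line (normalise the vectors of `exists_singSet`; `alpha (t y) = t^(deg+1) alpha y`); every unit zero of `alpha`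
is a unimodular multiple of some `p ∈ P`.  For each `p ∈ P` a frame (`exists_frame`), a chart (`exists_schart`), `toInv`, `hgood` with `exists_multLe` (the common zeros of `resA, resB` are the
`q` with `alpha (chi q) = 0`: `Frame.alpha_zero_iff`, finite by `finite_zero_chart`, transported by `q ↦ ![q.1, q.2]`), so `EBound`, and `dv_bound` gives `r₁(p) > 0, C(p)`.
The set of unit vectors `y` with `r₁(p) <= tau p y` for all `p ∈ P` is compact (closed subset of the unit sphere) and does not meet `{alpha = 0}` (`tau p (t • p) = 0`), so the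
continuous function `normSq (dv y)/nsq (alpha y)` is bounded on it.  Sum over the finite set `P`.
Finally `DC.K2 𝓕.F y = 𝓕.K2 y` (`K2_eq`), `DC.N (DC.eta 𝓕.F y) = nsq (𝓕.alpha y)`.
-/

namespace Pool.Agent.H24.CU

open MeasureTheory
open scoped ComplexConjugate

/-- The density of the third term. -/
noncomputable def KD_D (𝓕 : Foliation) (y : V) : ℝ := Complex.normSq (𝓕.dv y) / nsq (𝓕.alpha y)

theorem KD_D_nonneg (𝓕 : Foliation) (y : V) : 0 ≤ KD_D 𝓕 y :=
  div_nonneg (Complex.normSq_nonneg _) (nsq_nonneg _)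

theorem KD_cont_nsq : Continuous nsq := by
  unfold nsq
  exact continuous_finsetSum _ fun j _ => Complex.continuous_normSq.comp (continuous_apply j)

theorem KD_cont_herm (p : V) : Continuous (fun y : V => herm p y) := by
  unfold herm
  exact continuous_finsetSum _ fun j _ => continuous_const.mul
    (Complex.continuous_conj.comp (continuous_apply j))

theorem KD_cont_alpha (𝓕 : Foliation) : Continuous 𝓕.alpha := by
  obtain ⟨Q, -, hQ, -⟩ := exists_alpha_poly 𝓕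
  refine continuous_pi fun j => ?_
  have h : (fun x => 𝓕.alpha x j) = fun x => MvPolynomial.eval x (Q j) := funext fun x => hQ x j
  rw [h]
  exact MvPolynomial.continuous_eval _

theorem KD_cont_vec (𝓕 : Foliation) : Continuous 𝓕.vec := by
  unfold Foliation.vec
  exact continuous_pi fun j => MvPolynomial.continuous_eval _

theorem KD_cont_dv (𝓕 : Foliation) : ContinuousOn 𝓕.dv {y | nsq y = 1} := by
  unfold Foliation.dv
  refine ContinuousOn.sub ?_ ?_
  · exact (continuous_finsetSum _ fun j _ => MvPolynomial.continuous_eval _).continuousOn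
  · refine ContinuousOn.div ?_ (Complex.continuous_ofReal.comp KD_cont_nsq).continuousOn ?_
    · refine (continuous_const.mul ?_).continuousOn
      unfold herm
      exact continuous_finsetSum _ fun j _ => ((continuous_apply j).comp (KD_cont_vec 𝓕)).mul
        (Complex.continuous_conj.comp (continuous_apply j))
    · intro y hy
      rw [show nsq y = 1 from hy, Complex.ofReal_one]
      exact one_ne_zero

theorem KD_compact_sphere : IsCompact {y : V | nsq y = 1} := by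
  refine Metric.isCompact_of_isClosed_isBounded (isClosed_singleton.preimage KD_cont_nsq) ?_
  refine (Metric.isBounded_closedBall (x := (0 : V)) (r := 1)).subset ?_
  intro y hy
  rw [mem_closedBall_zero_iff]
  refine (pi_norm_le_iff_of_nonneg zero_le_one).2 fun j => ?_
  have h1 : Complex.normSq (y j) ≤ 1 := by
    rw [← show nsq y = 1 from hy]
    exact Finset.single_le_sum (f := fun j => Complex.normSq (y j))
      (fun i _ => Complex.normSq_nonneg _) (Finset.mem_univ j)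
  rw [Complex.normSq_eq_norm_sq] at h1
  nlinarith [norm_nonneg (y j)]

theorem KD_tau_cont (p : V) (hp : nsq p = 1) :
    ContinuousOn (fun y => tau p y) {y : V | nsq y = 1} := by
  unfold tau
  refine continuousOn_const.sub (ContinuousOn.div ?_ ?_ ?_)
  · exact (Complex.continuous_normSq.comp (KD_cont_herm p)).continuousOn
  · exact (continuous_const.mul KD_cont_nsq).continuousOn
  · intro y hy
    rw [hp, show nsq y = 1 from hy]
    norm_num

theorem KD_tau_self (p : V) (hp : nsq p = 1) (c : ℂ) (hc : c ≠ 0) : tau p (c • p) = 0 := by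
  have h1 : herm p (c • p) = conj c := by
    unfold herm
    have h2 : ∑ j, p j * conj ((c • p) j) = conj c * ((nsq p : ℝ) : ℂ) := by
      unfold nsq
      push_cast
      rw [Finset.mul_sum]
      refine Finset.sum_congr rfl fun j _ => ?_
      rw [Pi.smul_apply, smul_eq_mul, map_mul, ← Complex.mul_conj]
      ring
    rw [h2, hp]
    simp
  unfold tau
  rw [h1, nsq_smul, hp, Complex.normSq_conj, mul_one, one_mul, div_self, sub_self]
  exact fun h => hc (Complex.normSq_eq_zero.mp h)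

/-- Unit representatives of the singular points. -/
theorem KD_P (𝓕 : Foliation) : ∃ Q : Finset V, (∀ p ∈ Q, nsq p = 1 ∧ 𝓕.alpha p = 0) ∧
    ∀ y : V, nsq y = 1 → 𝓕.alpha y = 0 → ∃ p ∈ Q, ∃ c : ℂ, c ≠ 0 ∧ y = c • p := by
  classical
  obtain ⟨P, hP⟩ := exists_singSet 𝓕
  obtain ⟨n, hn⟩ : ∃ n : V → V, n = fun p => (((Real.sqrt (nsq p))⁻¹ : ℝ) : ℂ) • p := ⟨_, rfl⟩
  refine ⟨(P.filter fun p => p ≠ 0 ∧ 𝓕.alpha p = 0).image n, ?_, ?_⟩
  · intro p hp
    obtain ⟨p', hp', rfl⟩ := Finset.mem_image.mp hp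
    obtain ⟨_, h0, h1⟩ := Finset.mem_filter.mp hp'
    have hpos := nsq_pos h0
    rw [hn]
    constructor
    · show nsq (_ • p') = 1
      rw [nsq_smul, Complex.normSq_ofReal, ← mul_inv, Real.mul_self_sqrt hpos.le]
      exact inv_mul_cancel₀ hpos.ne'
    · show 𝓕.alpha (_ • p') = 0
      rw [alpha_smul, h1, smul_zero]
  · intro y hy h0
    obtain ⟨p, hp, c, hc⟩ := hP y ((eta_eq 𝓕 y).trans h0)
    have hc0 : c ≠ 0 := by
      rintro rfl
      rw [hc, zero_smul, nsq_eq_zero.mpr rfl] at hy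
      exact zero_ne_one hy
    have hp0 : p ≠ 0 := by
      rintro rfl
      rw [hc, smul_zero, nsq_eq_zero.mpr rfl] at hy
      exact zero_ne_one hy
    have hap : 𝓕.alpha p = 0 := by
      rw [hc, alpha_smul] at h0
      exact (smul_eq_zero.mp h0).resolve_left (pow_ne_zero _ hc0)
    have hpos := nsq_pos hp0
    have hsq : Real.sqrt (nsq p) ≠ 0 := (Real.sqrt_pos.mpr hpos).ne'
    refine ⟨n p, Finset.mem_image.mpr ⟨p, Finset.mem_filter.mpr ⟨hp, hp0, hap⟩, rfl⟩,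
      c * ((Real.sqrt (nsq p) : ℝ) : ℂ), ?_, ?_⟩
    · refine mul_ne_zero hc0 ?_
      exact_mod_cast hsq
    · rw [hn, hc]
      show c • p = _ • (_ • p)
      rw [smul_smul, mul_assoc, ← Complex.ofReal_mul, mul_inv_cancel₀ hsq, Complex.ofReal_one,
        mul_one]

theorem KD_loc (𝓕 : Foliation) (μ : Measure V) (hμ : Harm 𝓕 μ)
    (hcl : Pool.Agent.H85.DC.CurClosed 𝓕.F μ) (hL : 𝓕.LelZero μ)
    (hgood : ∀ A B : FC76.P2, (∃ K, FC76.MultLe A B K) → FC76.Good A B)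
    (p : V) (hp : nsq p = 1 ∧ 𝓕.alpha p = 0) :
    ∃ r₁ C : ℝ, 0 < r₁ ∧ 0 ≤ C ∧ ∀ r : ℝ, 0 < r → r < 1 →
      ∫⁻ y in {y | nsq y = 1 ∧ tau p y < r₁ ∧ r ≤ nsq (𝓕.alpha y)},
        ENNReal.ofReal (Complex.normSq (𝓕.dv y) / nsq (𝓕.alpha y)) ∂μ ≤
      ENNReal.ofReal (C * (1 + Real.log (1 / r))) := by
  have hfin := hμ.fin
  obtain ⟨b, c, hF⟩ := exists_frame p hp.1
  obtain ⟨ρ, M, hS⟩ := exists_schart 𝓕 μ hF
  have hI := hS.toInv hp.2 hμ hcl hL
  have hz : {q : Fin 2 → ℂ | MvPolynomial.eval q (resA 𝓕 p b c) = 0 ∧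
      MvPolynomial.eval q (resB 𝓕 p b c) = 0}.Finite := by
    refine ((finite_zero_chart 𝓕 hF).image (fun q : ℂ × ℂ => ![q.1, q.2])).subset ?_
    rintro q ⟨h1, h2⟩
    have he : (![q 0, q 1] : Fin 2 → ℂ) = q := by
      funext i
      fin_cases i <;> rfl
    refine ⟨(q 0, q 1), ?_, he⟩
    show 𝓕.alpha (chi p b c (q 0, q 1)) = 0
    rw [hF.alpha_zero_iff]
    unfold FC76.ev
    show MvPolynomial.eval ![q 0, q 1] _ = 0 ∧ MvPolynomial.eval ![q 0, q 1] _ = 0
    rw [he]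
    exact ⟨h1, h2⟩
  have hE := hgood _ _ (exists_multLe _ _ hz) 1 ρ M hS.r_pos hI
  exact hS.dv_bound hp.2 hμ.sing hE

theorem KD_union (μ : Measure V) (f : V → ENNReal) (A : V → Set V) (K : Set V) (Q : Finset V) :
    ∫⁻ y in K ∪ ⋃ p ∈ Q, A p, f y ∂μ ≤ ∫⁻ y in K, f y ∂μ + ∑ p ∈ Q, ∫⁻ y in A p, f y ∂μ := by
  classical
  induction Q using Finset.induction_on with
  | empty => simp
  | insert p Q hp ih =>
    have he : K ∪ ⋃ p' ∈ insert p Q, A p' = (K ∪ ⋃ p' ∈ Q, A p') ∪ A p := by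
      rw [Finset.set_biUnion_insert, Set.union_assoc, Set.union_comm (⋃ p' ∈ Q, A p')]
    rw [he, Finset.sum_insert hp]
    refine (lintegral_union_le f _ _).trans ?_
    refine (add_le_add_left ih _).trans ?_
    rw [add_assoc, add_comm (∑ p' ∈ Q, _)]

theorem KD_third (𝓕 : Foliation) (μ : Measure V) (hμ : Harm 𝓕 μ)
    (hcl : Pool.Agent.H85.DC.CurClosed 𝓕.F μ) (hL : 𝓕.LelZero μ)
    (hgood : ∀ A B : FC76.P2, (∃ K, FC76.MultLe A B K) → FC76.Good A B) :
    ∃ C : ℝ, 0 ≤ C ∧ ∀ r : ℝ, 0 < r → r < 1 →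
      ∫⁻ y in {y | r ≤ nsq (𝓕.alpha y)}, ENNReal.ofReal (KD_D 𝓕 y) ∂μ ≤
      ENNReal.ofReal (C * (1 + Real.log (1 / r))) := by
  have hfin := hμ.fin
  obtain ⟨Q, hQ, hQ'⟩ := KD_P 𝓕
  have hloc : ∀ p : V, ∃ r₁ C : ℝ, 0 < r₁ ∧ 0 ≤ C ∧ (p ∈ Q → ∀ r : ℝ, 0 < r → r < 1 →
      ∫⁻ y in {y | nsq y = 1 ∧ tau p y < r₁ ∧ r ≤ nsq (𝓕.alpha y)},
        ENNReal.ofReal (KD_D 𝓕 y) ∂μ ≤
      ENNReal.ofReal (C * (1 + Real.log (1 / r)))) := by
    intro p
    by_cases h : p ∈ Q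
    · obtain ⟨r₁, C, h1, h2, h3⟩ := KD_loc 𝓕 μ hμ hcl hL hgood p (hQ p h)
      exact ⟨r₁, C, h1, h2, fun _ => h3⟩
    · exact ⟨1, 0, one_pos, le_rfl, fun h' => absurd h' h⟩
  choose r₁ C h1 h2 h3 using hloc
  obtain ⟨K, hK⟩ : ∃ K : Set V, K = {y | nsq y = 1 ∧ ∀ p ∈ Q, r₁ p ≤ tau p y} := ⟨_, rfl⟩
  have hKs : K ⊆ {y | nsq y = 1} := by
    rw [hK]
    exact fun y hy => hy.1
  have hKc : IsCompact K := by
    have hS : IsClosed {y : V | nsq y = 1} := isClosed_singleton.preimage KD_cont_nsq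
    have he : K = {y : V | nsq y = 1} ∩ ⋂ p ∈ Q, ({y : V | nsq y = 1} ∩
        (fun y => tau p y) ⁻¹' Set.Ici (r₁ p)) := by
      rw [hK]
      ext y
      constructor
      · rintro ⟨g1, g2⟩
        exact ⟨g1, Set.mem_iInter₂.mpr fun p hp => ⟨g1, g2 p hp⟩⟩
      · rintro ⟨g1, g2⟩
        exact ⟨g1, fun p hp => (Set.mem_iInter₂.mp g2 p hp).2⟩
    refine KD_compact_sphere.of_isClosed_subset ?_ hKs
    rw [he]
    refine hS.inter (isClosed_biInter fun p hp => ?_)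
    exact (KD_tau_cont p (hQ p hp).1).preimage_isClosed_of_isClosed hS isClosed_Ici
  have hne : ∀ y ∈ K, 𝓕.alpha y ≠ 0 := by
    intro y hy h0
    obtain ⟨p, hp, c, hc, he⟩ := hQ' y (hKs hy) h0
    rw [hK] at hy
    have h5 := hy.2 p hp
    rw [he, KD_tau_self p (hQ p hp).1 c hc] at h5
    exact absurd (h1 p) (not_lt.mpr h5)
  have hcont : ContinuousOn (KD_D 𝓕) K := by
    unfold KD_D
    refine ContinuousOn.div ?_ ?_ ?_
    · exact Complex.continuous_normSq.comp_continuousOn ((KD_cont_dv 𝓕).mono hKs)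
    · exact (KD_cont_nsq.comp (KD_cont_alpha 𝓕)).continuousOn
    · intro y hy
      exact (nsq_pos (hne y hy)).ne'
  obtain ⟨B, hB⟩ := hKc.exists_bound_of_continuousOn hcont
  obtain ⟨m, hm⟩ : ∃ m : ℝ, m = (μ Set.univ).toReal := ⟨_, rfl⟩
  have hm0 : 0 ≤ m := by rw [hm]; exact ENNReal.toReal_nonneg
  have hmu : μ Set.univ = ENNReal.ofReal m := by
    rw [hm, ENNReal.ofReal_toReal (measure_ne_top _ _)]
  refine ⟨|B| * m + ∑ p ∈ Q, C p, ?_, ?_⟩
  · have := Finset.sum_nonneg fun p (_ : p ∈ Q) => h2 p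
    positivity
  intro r hr hr1
  have hlog : 0 ≤ Real.log (1 / r) := Real.log_nonneg (by
    rw [le_div_iff₀ hr]
    linarith)
  have hs1 : ∫⁻ y in {y | r ≤ nsq (𝓕.alpha y)}, ENNReal.ofReal (KD_D 𝓕 y) ∂μ ≤
      ∫⁻ y in K ∪ ⋃ p ∈ Q, {y | nsq y = 1 ∧ tau p y < r₁ p ∧ r ≤ nsq (𝓕.alpha y)},
        ENNReal.ofReal (KD_D 𝓕 y) ∂μ := by
    refine lintegral_mono' (Measure.restrict_mono_ae ?_) le_rfl
    have hsph : ∀ᵐ y ∂μ, nsq y = 1 := hμ.sph
    filter_upwards [hsph] with y hy hyr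
    by_cases hc : ∃ p ∈ Q, tau p y < r₁ p
    · obtain ⟨p, hp, ht⟩ := hc
      right
      exact Set.mem_biUnion hp ⟨hy, ht, hyr⟩
    · left
      rw [hK]
      push Not at hc
      exact ⟨hy, hc⟩
  refine hs1.trans ((KD_union μ _ _ K Q).trans ?_)
  have hs2 : ∫⁻ y in K, ENNReal.ofReal (KD_D 𝓕 y) ∂μ ≤ ENNReal.ofReal (|B| * m) := by
    have h5 : ∫⁻ y in K, ENNReal.ofReal (KD_D 𝓕 y) ∂μ ≤ ∫⁻ _ in K, ENNReal.ofReal |B| ∂μ := by
      refine setLIntegral_mono measurable_const fun y hy => ?_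
      exact ENNReal.ofReal_le_ofReal ((Real.le_norm_self _).trans ((hB y hy).trans (le_abs_self _)))
    refine h5.trans ?_
    rw [setLIntegral_const, ENNReal.ofReal_mul (abs_nonneg _), ← hmu]
    exact mul_le_mul' le_rfl (measure_mono (Set.subset_univ _))
  have hs3 : ∑ p ∈ Q, ∫⁻ y in {y | nsq y = 1 ∧ tau p y < r₁ p ∧ r ≤ nsq (𝓕.alpha y)},
      ENNReal.ofReal (KD_D 𝓕 y) ∂μ ≤ ENNReal.ofReal (∑ p ∈ Q, C p * (1 + Real.log (1 / r))) := by
    rw [ENNReal.ofReal_sum_of_nonneg fun p _ => mul_nonneg (h2 p) (by linarith)]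
    exact Finset.sum_le_sum fun p hp => h3 p hp r hr hr1
  refine (add_le_add hs2 hs3).trans ?_
  have hsum : 0 ≤ ∑ p ∈ Q, C p * (1 + Real.log (1 / r)) :=
    Finset.sum_nonneg fun p _ => mul_nonneg (h2 p) (by linarith)
  rw [← ENNReal.ofReal_add (by positivity) hsum]
  refine ENNReal.ofReal_le_ofReal ?_
  rw [← Finset.sum_mul, add_mul]
  have : |B| * m ≤ |B| * m * (1 + Real.log (1 / r)) :=
    le_mul_of_one_le_right (by positivity) (by linarith)
  linarith

theorem energyE (𝓕 : Foliation) (μ : Measure V) (hμ : Harm 𝓕 μ)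
    (hcl : Pool.Agent.H85.DC.CurClosed 𝓕.F μ) (hL : 𝓕.LelZero μ)
    (hgood : ∀ A B : FC76.P2, (∃ K, FC76.MultLe A B K) → FC76.Good A B) :
    Pool.Agent.H85.DC.EnergyE 𝓕.F μ := by
  have hfin := hμ.fin
  obtain ⟨C1, hC1, hb1⟩ := la_energy 𝓕 μ hμ
  obtain ⟨C2, hC2, hb2⟩ := KD_third 𝓕 μ hμ hcl hL hgood
  obtain ⟨m, hm⟩ : ∃ m : ℝ, m = (μ Set.univ).toReal := ⟨_, rfl⟩
  have hm0 : 0 ≤ m := by rw [hm]; exact ENNReal.toReal_nonneg
  have hmu : μ Set.univ = ENNReal.ofReal m := by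
    rw [hm, ENNReal.ofReal_toReal (measure_ne_top _ _)]
  refine ⟨3 * (m + C2 + C1), fun r hr hr1 => ?_⟩
  have hlog : 0 ≤ Real.log (1 / r) := Real.log_nonneg (by
    rw [le_div_iff₀ hr]
    linarith)
  have hset : {y | r ≤ Pool.Agent.H85.DC.N (Pool.Agent.H85.DC.eta 𝓕.F y)} =
      {y | r ≤ nsq (𝓕.alpha y)} := by
    ext y
    show r ≤ Pool.Agent.H85.DC.N (Pool.Agent.H85.DC.eta 𝓕.F y) ↔ r ≤ nsq (𝓕.alpha y)
    rw [eta_eq]
    rfl
  rw [hset]
  have hDm : Measurable fun y => ENNReal.ofReal (KD_D 𝓕 y) := by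
    unfold KD_D
    refine ENNReal.measurable_ofReal.comp ?_
    exact (Complex.continuous_normSq.measurable.comp (measurable_dv 𝓕)).div
      (KD_cont_nsq.comp (KD_cont_alpha 𝓕)).measurable
  have hs1 : ∫⁻ y in {y | r ≤ nsq (𝓕.alpha y)}, ENNReal.ofReal (Pool.Agent.H85.DC.K2 𝓕.F y) ∂μ ≤
      ∫⁻ y in {y | r ≤ nsq (𝓕.alpha y)}, ENNReal.ofReal 3 * ((1 + ENNReal.ofReal (KD_D 𝓕 y)) +
        ENNReal.ofReal (gradm 𝓕.la 𝓕.la y (𝓕.vec y) / nsq (𝓕.alpha y))) ∂μ := by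
    refine lintegral_mono_ae (ae_restrict_of_ae ?_)
    have hsph : ∀ᵐ y ∂μ, nsq y = 1 := hμ.sph
    have hsing : ∀ᵐ y ∂μ, 𝓕.alpha y ≠ 0 := by
      rw [ae_iff]
      simpa using hμ.sing
    filter_upwards [hsph, hsing] with y hy h0
    rw [K2_eq]
    have hg : 0 ≤ gradm 𝓕.la 𝓕.la y (𝓕.vec y) / nsq (𝓕.alpha y) := by
      refine div_nonneg ?_ (nsq_nonneg _)
      unfold gradm
      have a1 := mul_self_nonneg (fderiv ℝ 𝓕.la y (𝓕.vec y))
      have a2 := mul_self_nonneg (fderiv ℝ 𝓕.la y (Complex.I • 𝓕.vec y))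
      linarith
    have hD := KD_D_nonneg 𝓕 y
    rw [← ENNReal.ofReal_one, ← ENNReal.ofReal_add zero_le_one hD,
      ← ENNReal.ofReal_add (by linarith) hg, ← ENNReal.ofReal_mul (by norm_num)]
    refine ENNReal.ofReal_le_ofReal ((K2_le 𝓕 y hy h0).trans ?_)
    unfold KD_D
    linarith
  refine hs1.trans ?_
  have hDm2 : Measurable fun y => (1 : ENNReal) + ENNReal.ofReal (KD_D 𝓕 y) :=
    measurable_const.add hDm
  rw [lintegral_const_mul' _ _ ENNReal.ofReal_ne_top, lintegral_add_left hDm2,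
    lintegral_add_left measurable_const]
  have e1 : ∫⁻ _ in {y | r ≤ nsq (𝓕.alpha y)}, (1 : ENNReal) ∂μ ≤ ENNReal.ofReal m := by
    rw [setLIntegral_one, ← hmu]
    exact measure_mono (Set.subset_univ _)
  have e2 := hb2 r hr hr1
  have e3 := hb1 r hr hr1
  refine (mul_le_mul' le_rfl (add_le_add (add_le_add e1 e2) e3)).trans ?_
  have n2 : 0 ≤ C2 * (1 + Real.log (1 / r)) := mul_nonneg hC2 (by linarith)
  have n1 : 0 ≤ C1 * (1 + Real.log (1 / r)) := mul_nonneg hC1 (by linarith)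
  rw [← ENNReal.ofReal_add hm0 n2, ← ENNReal.ofReal_add (by linarith) n1,
    ← ENNReal.ofReal_mul (by norm_num)]
  refine ENNReal.ofReal_le_ofReal ?_
  have : m ≤ m * (1 + Real.log (1 / r)) := le_mul_of_one_le_right hm0 (by linarith)
  nlinarith

end Pool.Agent.H24.CU
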