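import Pool.Agent.H24.CU.LC
import Pool.Agent.H65.HolC

/-!
# Row LP (pointwise lower bound)

PROOF.  `q = normSq (Q w) exp(-φ w) > 0` near `p`.  `log (normSq Q + s^2 exp φ) = φ + log (q + s^2)`.
`log q = log normSq Q - φ`, `levi (log normSq Q) p v = 0` (`levi_comp`, `levi_normSq`:
`(1/n) |Q'|^2 - (1/n^2) n |Q'|^2 = 0`, `n = normSq Q`, `gradm n n = n |Q'|^2` from `fderiv_normSq`), so
`levi (log q) = - levi φ`.  `log (q + s^2) = h (log q)`, `h t = log (exp t + s^2)`, `h' = q/(q+s^2)`,
`h'' = q s^2/(q+s^2)^2`.  So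
`levi (log (normSq Q + s^2 exp φ)) = levi φ - (q/(q+s^2)) levi φ + (s^2 q/(q+s^2)^2) gradm (log q)(log q)`
`= (s^2/(q+s^2)) levi φ + (s^2 q/(q+s^2)^2) G`, first term `>= 0`.
`G = gradm (log n - φ)(log n - φ) = gradm(log n)(log n) - 2 gradm (log n) φ + gradm φ φ
 >= (1/2) gradm (log n)(log n) - gradm φ φ` (`gradm_sq_le`, `2ab <= a²/2 + 2b²`), and
`gradm (log n)(log n) = |Q'|^2/n = normSq (Q'/Q)`.
-/

namespace Pool.Agent.H24.CU

open scoped ContDiff ComplexConjugate

theorem LP_h (s : ℝ) (hs : 0 < s) :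
    ContDiff ℝ 2 (fun t => Real.log (Real.exp t + s ^ 2)) ∧
    (∀ t, deriv (fun t => Real.log (Real.exp t + s ^ 2)) t = Real.exp t / (Real.exp t + s ^ 2)) ∧
    ∀ t, deriv (deriv (fun t => Real.log (Real.exp t + s ^ 2))) t =
      s ^ 2 * Real.exp t / (Real.exp t + s ^ 2) ^ 2 := by
  have hpos : ∀ t, Real.exp t + s ^ 2 ≠ 0 := fun t => by
    have := Real.exp_pos t
    positivity
  have h1 : ∀ t, HasDerivAt (fun t => Real.exp t + s ^ 2) (Real.exp t) t := fun t =>
    (Real.hasDerivAt_exp t).add_const _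
  have h2 : ∀ t, deriv (fun t => Real.log (Real.exp t + s ^ 2)) t =
      Real.exp t / (Real.exp t + s ^ 2) := fun t => ((h1 t).log (hpos t)).deriv
  refine ⟨(Real.contDiff_exp.add contDiff_const).log hpos, h2, ?_⟩
  intro t
  have h3 : deriv (fun t => Real.log (Real.exp t + s ^ 2)) = fun t =>
      Real.exp t / (Real.exp t + s ^ 2) := funext h2
  rw [h3]
  have h4 := ((Real.hasDerivAt_exp t).div (h1 t) (hpos t)).deriv
  have h5 : deriv (fun t => Real.exp t / (Real.exp t + s ^ 2)) t =
      (Real.exp t * (Real.exp t + s ^ 2) - Real.exp t * Real.exp t) / (Real.exp t + s ^ 2) ^ 2 := h4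
  rw [h5]
  congr 1
  ring

theorem levi_log_lower {Q : ℂ × ℂ → ℂ} (hQ : Differentiable ℂ Q) {φ : ℂ × ℂ → ℝ} {p : ℂ × ℂ}
    (hφ : ContDiffAt ℝ 2 φ p) (v : ℂ × ℂ) (hpos : 0 ≤ levi φ p v) (s : ℝ) (hs : 0 < s)
    (hQ0 : Q p ≠ 0) :
    s ^ 2 * (Complex.normSq (Q p) * Real.exp (- φ p)) /
        (Complex.normSq (Q p) * Real.exp (- φ p) + s ^ 2) ^ 2 *
        (Complex.normSq (fderiv ℂ Q p v / Q p) / 2 - gradm φ φ p v) ≤
      levi (fun w => Real.log (Complex.normSq (Q w) + s ^ 2 * Real.exp (φ w))) p v := by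
  have hQ2 : ContDiffAt ℝ 2 Q p := (((H65.holC_contDiff hQ).restrict_scalars ℝ).contDiffAt).of_le (by norm_cast)
  have hQev : ∀ᶠ q in nhds p, DifferentiableAt ℂ Q q := Filter.Eventually.of_forall fun q => hQ q
  have hn0 : 0 < Complex.normSq (Q p) := Complex.normSq_pos.2 hQ0
  have hQne : ∀ᶠ q in nhds p, Q q ≠ 0 := hQ.continuous.continuousAt.eventually_ne hQ0
  have cn : ContDiffAt ℝ 2 (fun q => Complex.normSq (Q q)) p := by
    have h0 : (fun q => Complex.normSq (Q q)) =
        fun q => Complex.reCLM (Q q) * Complex.reCLM (Q q) + Complex.imCLM (Q q) * Complex.imCLM (Q q) := by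
      funext q
      rw [Complex.normSq_apply]
      rfl
    rw [h0]
    have c1 : ContDiffAt ℝ 2 (fun q => Complex.reCLM (Q q)) p :=
      Complex.reCLM.contDiff.contDiffAt.comp p hQ2
    have c2 : ContDiffAt ℝ 2 (fun q => Complex.imCLM (Q q)) p :=
      Complex.imCLM.contDiff.contDiffAt.comp p hQ2
    exact (c1.mul c1).add (c2.mul c2)
  have cl : ContDiffAt ℝ 2 (fun q => Real.log (Complex.normSq (Q q))) p := cn.log hn0.ne'
  have dn : DifferentiableAt ℝ (fun q => Complex.normSq (Q q)) p := cn.differentiableAt (by simp)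
  have dl : DifferentiableAt ℝ (fun q => Real.log (Complex.normSq (Q q))) p :=
    cl.differentiableAt (by simp)
  have dφ : DifferentiableAt ℝ φ p := hφ.differentiableAt (by simp)
  -- the first derivative of log n
  have hD : ∀ w, fderiv ℝ (fun q => Real.log (Complex.normSq (Q q))) p w =
      2 * (conj (Q p) * fderiv ℂ Q p w).re / Complex.normSq (Q p) := by
    intro w
    have h1 : fderiv ℝ (fun q => Real.log (Complex.normSq (Q q))) p =
        (Complex.normSq (Q p))⁻¹ • fderiv ℝ (fun q => Complex.normSq (Q q)) p :=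
      (dn.hasFDerivAt.log hn0.ne').fderiv
    rw [h1]
    show (Complex.normSq (Q p))⁻¹ * fderiv ℝ (fun q => Complex.normSq (Q q)) p w = _
    rw [fderiv_normSq (hQ p)]
    ring
  obtain ⟨z, hz⟩ : ∃ z : ℂ, z = conj (Q p) * fderiv ℂ Q p v := ⟨_, rfl⟩
  have hzv : fderiv ℝ (fun q => Real.log (Complex.normSq (Q q))) p v =
      2 * z.re / Complex.normSq (Q p) := by rw [hD, hz]
  have hziv : fderiv ℝ (fun q => Real.log (Complex.normSq (Q q))) p (Complex.I • v) =
      -(2 * z.im) / Complex.normSq (Q p) := by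
    rw [hD, map_smul, smul_eq_mul]
    have h1 : conj (Q p) * (Complex.I * fderiv ℂ Q p v) = Complex.I * z := by
      rw [hz]
      ring
    rw [h1, Complex.I_mul_re]
    ring
  have hzn : z.re ^ 2 + z.im ^ 2 = Complex.normSq (Q p) * Complex.normSq (fderiv ℂ Q p v) := by
    have h1 : Complex.normSq z = Complex.normSq (Q p) * Complex.normSq (fderiv ℂ Q p v) := by
      rw [hz, Complex.normSq_mul, Complex.normSq_conj]
    rw [← h1, Complex.normSq_apply]
    ring
  have hll : gradm (fun q => Real.log (Complex.normSq (Q q)))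
      (fun q => Real.log (Complex.normSq (Q q))) p v = Complex.normSq (fderiv ℂ Q p v / Q p) := by
    unfold gradm
    rw [hzv, hziv, Complex.normSq_div]
    have h1 : (2 * z.re / Complex.normSq (Q p) * (2 * z.re / Complex.normSq (Q p)) +
        -(2 * z.im) / Complex.normSq (Q p) * (-(2 * z.im) / Complex.normSq (Q p))) =
        4 * (z.re ^ 2 + z.im ^ 2) / Complex.normSq (Q p) ^ 2 := by ring
    rw [h1, hzn]
    field_simp
  -- levi of log n vanishes
  have hl0 : levi (fun q => Real.log (Complex.normSq (Q q))) p v = 0 := by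
    rw [levi_comp (h := Real.log) cn (Real.contDiffAt_log.2 hn0.ne') v, levi_normSq hQev hQ2]
    have h1 : deriv Real.log (Complex.normSq (Q p)) = (Complex.normSq (Q p))⁻¹ := by simp
    have h2 : deriv (deriv Real.log) (Complex.normSq (Q p)) = -(Complex.normSq (Q p) ^ 2)⁻¹ := by
      have h3 : deriv Real.log = fun x => x⁻¹ := by
        funext x
        simp
      rw [h3]
      exact (hasDerivAt_inv hn0.ne').deriv
    have h4 : gradm (fun q => Complex.normSq (Q q)) (fun q => Complex.normSq (Q q)) p v =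
        Complex.normSq (Q p) * Complex.normSq (fderiv ℂ Q p v) := by
      unfold gradm
      have h5 : fderiv ℝ (fun q => Complex.normSq (Q q)) p v = 2 * z.re := by
        rw [fderiv_normSq (hQ p), hz]
      have h6 : fderiv ℝ (fun q => Complex.normSq (Q q)) p (Complex.I • v) = -(2 * z.im) := by
        rw [fderiv_normSq (hQ p), map_smul, smul_eq_mul]
        have h1 : conj (Q p) * (Complex.I * fderiv ℂ Q p v) = Complex.I * z := by
          rw [hz]
          ring
        rw [h1, Complex.I_mul_re]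
        ring
      rw [h5, h6, ← hzn]
      ring
    rw [h1, h2, h4]
    field_simp
    ring
  obtain ⟨hh1, hh2, hh3⟩ := LP_h s hs
  have cψ : ContDiffAt ℝ 2 (fun q => Real.log (Complex.normSq (Q q)) - φ q) p := cl.sub hφ
  have hev : (fun w => Real.log (Complex.normSq (Q w) + s ^ 2 * Real.exp (φ w))) =ᶠ[nhds p]
      fun w => φ w + Real.log (Real.exp (Real.log (Complex.normSq (Q w)) - φ w) + s ^ 2) := by
    filter_upwards [hQne] with w hw
    have hnw : 0 < Complex.normSq (Q w) := Complex.normSq_pos.2 hw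
    have he := Real.exp_pos (φ w)
    have h1 : Complex.normSq (Q w) + s ^ 2 * Real.exp (φ w) =
        Real.exp (φ w) * (Real.exp (Real.log (Complex.normSq (Q w)) - φ w) + s ^ 2) := by
      rw [Real.exp_sub, Real.exp_log hnw]
      field_simp
    rw [h1, Real.log_mul he.ne' (by positivity), Real.log_exp]
  have cc : ContDiffAt ℝ 2 (fun w => Real.log (Real.exp (Real.log (Complex.normSq (Q w)) - φ w) + s ^ 2)) p :=
    ContDiffAt.comp (g := fun t => Real.log (Real.exp t + s ^ 2)) p hh1.contDiffAt cψ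
  rw [levi_congr hev, levi_add hφ cc,
    levi_comp (h := fun t => Real.log (Real.exp t + s ^ 2)) cψ hh1.contDiffAt v, hh2, hh3,
    levi_sub cl hφ, hl0]
  have hq : Real.exp (Real.log (Complex.normSq (Q p)) - φ p) =
      Complex.normSq (Q p) * Real.exp (-φ p) := by
    rw [sub_eq_add_neg, Real.exp_add, Real.exp_log hn0]
  rw [hq]
  have hG : Complex.normSq (fderiv ℂ Q p v / Q p) / 2 - gradm φ φ p v ≤
      gradm (fun q => Real.log (Complex.normSq (Q q)) - φ q)
        (fun q => Real.log (Complex.normSq (Q q)) - φ q) p v := by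
    rw [← hll]
    unfold gradm
    have h1 : fderiv ℝ (fun q => Real.log (Complex.normSq (Q q)) - φ q) p =
        fderiv ℝ (fun q => Real.log (Complex.normSq (Q q))) p - fderiv ℝ φ p :=
      fderiv_fun_sub dl dφ
    rw [h1]
    simp only [sub_apply]
    nlinarith [sq_nonneg (fderiv ℝ (fun q => Real.log (Complex.normSq (Q q))) p v -
      2 * fderiv ℝ φ p v), sq_nonneg (fderiv ℝ (fun q => Real.log (Complex.normSq (Q q))) p
        (Complex.I • v) - 2 * fderiv ℝ φ p (Complex.I • v))]
  obtain ⟨q, hqd⟩ : ∃ q : ℝ, q = Complex.normSq (Q p) * Real.exp (-φ p) := ⟨_, rfl⟩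
  have hqpos : 0 < q := by
    rw [hqd]
    have := Real.exp_pos (-φ p)
    positivity
  rw [← hqd]
  have h1 : levi φ p v + (q / (q + s ^ 2) * (0 - levi φ p v) + s ^ 2 * q / (q + s ^ 2) ^ 2 *
      gradm (fun q => Real.log (Complex.normSq (Q q)) - φ q)
        (fun q => Real.log (Complex.normSq (Q q)) - φ q) p v) =
      s ^ 2 / (q + s ^ 2) * levi φ p v + s ^ 2 * q / (q + s ^ 2) ^ 2 *
      gradm (fun q => Real.log (Complex.normSq (Q q)) - φ q)
        (fun q => Real.log (Complex.normSq (Q q)) - φ q) p v := by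
    have hne : q + s ^ 2 ≠ 0 := by positivity
    have h2 : 1 - q / (q + s ^ 2) = s ^ 2 / (q + s ^ 2) := by
      field_simp
      ring
    rw [← h2]
    ring
  rw [h1]
  have h2 : 0 ≤ s ^ 2 / (q + s ^ 2) * levi φ p v := by positivity
  have h3 : 0 ≤ s ^ 2 * q / (q + s ^ 2) ^ 2 := by positivity
  have h4 := mul_le_mul_of_nonneg_left hG h3
  linarith

end Pool.Agent.H24.CU
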