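import Pool.Agent.H24.CU.LC

/-!
# Row LW (Levi form and Wirtinger derivatives on `C^3`)

PROOFS.  (1) For real `f` differentiable at `x` and `v = ∑ v_j e_j`, `v_j = a_j + i b_j`:
`Df(v) = ∑ a_j Df(e_j) + b_j Df(i e_j)`, `Df(i v) = ∑ a_j Df(i e_j) - b_j Df(e_j)`, hence
`∑_j v_j dz j f = (Df(v) - i Df(i v))/2` and `∑_k conj(v_k) dzbar k f = (Df(v) + i Df(i v))/2`
(`f` real or complex valued).  Apply it twice to `u` (`C^2` at `x`):
`∑_jk dz j (dzbar k u) v_j conj v_k = (D_v - i D_iv)(D_v + i D_iv) u / 4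
 = (D²u(v,v) + D²u(iv,iv) + i (D²u(v,iv) - D²u(iv,v)))/4`, and the last bracket is `0` by symmetry.
(`e_j = Pi.single j 1`, `i e_j = Pi.single j I`.)
(2) `exists_leviForm`: define `A x j k = if x = 0 then 0 else dz j (dzbar k u) x`.
Smooth on `{0}ᶜ`: `u` is smooth on the open set, `fderiv` of a smooth function evaluated at a constant
vector is smooth.  Homogeneity: differentiate `u (c • x) = u x`: `fderiv u (c x) (c w) = fderiv u x w`,
so `dzbar k u (c x) = (conj c)⁻¹ dzbar k u x` and `dz j (dzbar k u) (c x) = c⁻¹ (conj c)⁻¹ dz j (dzbar k u) x`.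
Basic: `u (t x) = u x` for complex `t` near `1` gives `fderiv u x x = 0 = fderiv u x (i x)` for all
`x ≠ 0`, i.e. `∑_j x_j dz j u x = 0` and `∑_k conj x_k dzbar k u x = 0` on `{0}ᶜ`.  Apply `dzbar k` to the
first and `dz j` to the second identity, using `dzbar k x_j = 0`, `dz j (conj x_k) = 0` and the
commutation `dz j (dzbar k u) = dzbar k (dz j u)` (symmetry of the second derivative).
-/

namespace Pool.Agent.H24.CU

open scoped ComplexConjugate ContDiff

open Topology in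
/-- the complex linear part of a real linear map, evaluated at `w` -/
noncomputable def LW_a (ℓ : V →L[ℝ] ℂ) (w : V) : ℂ := (ℓ w - Complex.I * ℓ (Complex.I • w)) / 2

/-- the antilinear part -/
noncomputable def LW_b (ℓ : V →L[ℝ] ℂ) (w : V) : ℂ := (ℓ w + Complex.I * ℓ (Complex.I • w)) / 2

theorem LW_I (a : ℂ) (w : V) : Complex.I • a • w = a.re • (Complex.I • w) - a.im • w := by
  rw [smul_comm, LC_c a (Complex.I • w), LC_II, smul_neg, sub_eq_add_neg]

theorem LW_a_smul (ℓ : V →L[ℝ] ℂ) (a : ℂ) (w : V) : LW_a ℓ (a • w) = a * LW_a ℓ w := by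
  have e1 : ℓ (a • w) = a.re * ℓ w + a.im * ℓ (Complex.I • w) := by
    rw [LC_c a w, map_add, map_smul, map_smul, Complex.real_smul, Complex.real_smul]
  have e2 : ℓ (Complex.I • a • w) = a.re * ℓ (Complex.I • w) - a.im * ℓ w := by
    rw [LW_I, map_sub, ℓ.map_smul a.re, ℓ.map_smul a.im, Complex.real_smul, Complex.real_smul]
  unfold LW_a
  rw [e1, e2]
  have e3 : a = a.re + a.im * Complex.I := (Complex.re_add_im a).symm
  obtain ⟨α, hα⟩ : ∃ α : ℂ, α = (a.re : ℂ) := ⟨_, rfl⟩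
  obtain ⟨β, hβ⟩ : ∃ β : ℂ, β = (a.im : ℂ) := ⟨_, rfl⟩
  rw [← hα, ← hβ] at e3 ⊢
  rw [e3]
  linear_combination (β * ℓ (Complex.I • w) / 2) * Complex.I_sq

theorem LW_b_smul (ℓ : V →L[ℝ] ℂ) (a : ℂ) (w : V) : LW_b ℓ (a • w) = conj a * LW_b ℓ w := by
  have e1 : ℓ (a • w) = a.re * ℓ w + a.im * ℓ (Complex.I • w) := by
    rw [LC_c a w, map_add, map_smul, map_smul, Complex.real_smul, Complex.real_smul]
  have e2 : ℓ (Complex.I • a • w) = a.re * ℓ (Complex.I • w) - a.im * ℓ w := by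
    rw [LW_I, map_sub, ℓ.map_smul a.re, ℓ.map_smul a.im, Complex.real_smul, Complex.real_smul]
  unfold LW_b
  rw [e1, e2]
  have e3 : conj a = a.re - a.im * Complex.I := by
    apply Complex.ext <;> simp
  rw [e3]
  linear_combination ((a.im : ℂ) * ℓ (Complex.I • w) / 2) * Complex.I_sq

theorem LW_dec (v : V) : v = ∑ j, v j • (Pi.single j (1 : ℂ) : V) := by
  funext i
  simp [Finset.sum_apply, Pi.single_apply]

theorem LW_a_sum (ℓ : V →L[ℝ] ℂ) (v : V) :
    LW_a ℓ v = ∑ j, LW_a ℓ (Pi.single j 1) * v j := by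
  have h : LW_a ℓ v = ∑ j, LW_a ℓ (v j • (Pi.single j (1 : ℂ) : V)) := by
    conv_lhs => rw [LW_dec v]
    unfold LW_a
    rw [Finset.smul_sum, map_sum, map_sum, Finset.mul_sum, ← Finset.sum_sub_distrib,
      Finset.sum_div]
  rw [h]
  refine Finset.sum_congr rfl fun j _ => ?_
  rw [LW_a_smul, mul_comm]

theorem LW_b_sum (ℓ : V →L[ℝ] ℂ) (v : V) :
    LW_b ℓ v = ∑ j, LW_b ℓ (Pi.single j 1) * conj (v j) := by
  have h : LW_b ℓ v = ∑ j, LW_b ℓ (v j • (Pi.single j (1 : ℂ) : V)) := by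
    conv_lhs => rw [LW_dec v]
    unfold LW_b
    rw [Finset.smul_sum, map_sum, map_sum, Finset.mul_sum, ← Finset.sum_add_distrib,
      Finset.sum_div]
  rw [h]
  refine Finset.sum_congr rfl fun j _ => ?_
  rw [LW_b_smul, mul_comm]

theorem LW_single (j : Fin 3) : Complex.I • (Pi.single j (1 : ℂ) : V) = Pi.single j Complex.I := by
  funext i
  simp [Pi.single_apply]

theorem LW_dz (j : Fin 3) (f : V → ℂ) (x : V) :
    dz j f x = LW_a (fderiv ℝ f x) (Pi.single j 1) := by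
  unfold dz LW_a
  rw [LW_single]

theorem LW_dzbar (j : Fin 3) (f : V → ℂ) (x : V) :
    dzbar j f x = LW_b (fderiv ℝ f x) (Pi.single j 1) := by
  unfold dzbar LW_b
  rw [LW_single]

theorem LW_real {u : V → ℝ} {x : V} (hu : ContDiffAt ℝ 2 u x) (v w : V) :
    fderiv ℝ (fderiv ℝ (fun y => (u y : ℂ))) x w v =
      ((fderiv ℝ (fun q => fderiv ℝ u q v) x w : ℝ) : ℂ) := by
  have hU : ContDiffAt ℝ 2 (fun y => (u y : ℂ)) x :=
    Complex.ofRealCLM.contDiff.contDiffAt.comp x hu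
  rw [← LC_app hU]
  have h1 : (fun q => fderiv ℝ (fun y => (u y : ℂ)) q v) =ᶠ[nhds x]
      fun q => ((fderiv ℝ u q v : ℝ) : ℂ) := by
    filter_upwards [LC_ev hu] with q hq
    have h2 : HasFDerivAt (fun y => (u y : ℂ)) (Complex.ofRealCLM.comp (fderiv ℝ u q)) q :=
      Complex.ofRealCLM.hasFDerivAt.comp q hq.hasFDerivAt
    rw [h2.fderiv]
    rfl
  rw [h1.fderiv_eq]
  have h3 : HasFDerivAt (fun q => ((fderiv ℝ u q v : ℝ) : ℂ))
      (Complex.ofRealCLM.comp (fderiv ℝ (fun q => fderiv ℝ u q v) x)) x :=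
    Complex.ofRealCLM.hasFDerivAt.comp x (LC_dapp hu v).hasFDerivAt
  rw [h3.fderiv]
  rfl

theorem LW_dbar_fderiv {U : V → ℂ} {x : V} (hU : ContDiffAt ℝ 2 U x) (k : Fin 3) (w : V) :
    fderiv ℝ (dzbar k U) x w = LW_b (fderiv ℝ (fderiv ℝ U) x w) (Pi.single k 1) := by
  have h1 : dzbar k U = fun q => (fderiv ℝ U q (Pi.single k 1) +
      Complex.I * fderiv ℝ U q (Pi.single k Complex.I)) / 2 := rfl
  have d1 := LC_dapp hU (Pi.single k (1 : ℂ))
  have d2 := LC_dapp hU (Pi.single k Complex.I)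
  have h2 : HasFDerivAt (fun q => (fderiv ℝ U q (Pi.single k 1) +
      Complex.I * fderiv ℝ U q (Pi.single k Complex.I)) * (2 : ℂ)⁻¹) _ x :=
    (d1.hasFDerivAt.add (d2.hasFDerivAt.const_mul Complex.I)).mul_const (2 : ℂ)⁻¹
  have h3 : dzbar k U = fun q => (fderiv ℝ U q (Pi.single k 1) +
      Complex.I * fderiv ℝ U q (Pi.single k Complex.I)) * (2 : ℂ)⁻¹ := by
    rw [h1]
    funext q
    rw [div_eq_mul_inv]
  rw [h3, h2.fderiv]
  simp only [add_apply, smul_apply, smul_eq_mul]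
  rw [LC_app hU, LC_app hU]
  unfold LW_b
  rw [LW_single]
  ring

theorem sum_dz_dzbar {u : V → ℝ} {x : V} (hu : ContDiffAt ℝ 2 u x) (v : V) :
    ∑ j, ∑ k, dz j (dzbar k (fun y => (u y : ℂ))) x * v j * conj (v k) =
      ((levi u x v : ℝ) : ℂ) := by
  have hU : ContDiffAt ℝ 2 (fun y => (u y : ℂ)) x :=
    Complex.ofRealCLM.contDiff.contDiffAt.comp x hu
  rw [Finset.sum_comm]
  have h1 : ∀ k, ∑ j, dz j (dzbar k (fun y => (u y : ℂ))) x * v j * conj (v k) =
      LW_a (fderiv ℝ (dzbar k (fun y => (u y : ℂ))) x) v * conj (v k) := by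
    intro k
    rw [LW_a_sum, Finset.sum_mul]
    refine Finset.sum_congr rfl fun j _ => ?_
    rw [LW_dz]
  rw [Finset.sum_congr rfl fun k _ => h1 k]
  have h2 : ∀ k, LW_a (fderiv ℝ (dzbar k (fun y => (u y : ℂ))) x) v * conj (v k) =
      (LW_b (fderiv ℝ (fderiv ℝ (fun y => (u y : ℂ))) x v) (Pi.single k 1) * conj (v k) -
        Complex.I * (LW_b (fderiv ℝ (fderiv ℝ (fun y => (u y : ℂ))) x (Complex.I • v))
          (Pi.single k 1) * conj (v k))) / 2 := by
    intro k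
    rw [LW_a, LW_dbar_fderiv hU, LW_dbar_fderiv hU]
    ring
  rw [Finset.sum_congr rfl fun k _ => h2 k, ← Finset.sum_div, Finset.sum_sub_distrib,
    ← Finset.mul_sum, ← LW_b_sum, ← LW_b_sum]
  unfold LW_b
  rw [LC_symm hU (Complex.I • v) v, LW_real hu, LW_real hu, LW_real hu]
  unfold levi
  push_cast
  linear_combination (-(1 / 4 : ℂ) *
    ((fderiv ℝ (fun q => fderiv ℝ u q (Complex.I • v)) x (Complex.I • v) : ℝ) : ℂ)) * Complex.I_sq

theorem LW_open : IsOpen ({0}ᶜ : Set V) := isOpen_compl_singleton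

theorem LW_chain {g : V → ℂ} {c μ : ℂ} (hc : c ≠ 0) (hg : ∀ y : V, y ≠ 0 → g (c • y) = μ * g y)
    (hd : ∀ y : V, y ≠ 0 → DifferentiableAt ℝ g y) {x : V} (hx : x ≠ 0) (w : V) :
    fderiv ℝ g (c • x) (c • w) = μ * fderiv ℝ g x w := by
  have hcx : c • x ≠ 0 := smul_ne_zero hc hx
  obtain ⟨L, hL⟩ : ∃ L : V →L[ℝ] V, ∀ y, L y = c • y :=
    ⟨((c • ContinuousLinearMap.id ℂ V).restrictScalars ℝ), fun y => rfl⟩
  have h1 : HasFDerivAt (fun y => g (L y)) ((fderiv ℝ g (L x)).comp L) x :=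
    HasFDerivAt.comp (g := g) x (by rw [hL]; exact (hd _ hcx).hasFDerivAt) L.hasFDerivAt
  have h2 : HasFDerivAt (fun y => μ * g y) (μ • fderiv ℝ g x) x :=
    (hd x hx).hasFDerivAt.const_mul μ
  have h3 : (fun y => g (L y)) =ᶠ[nhds x] fun y => μ * g y := by
    filter_upwards [LW_open.mem_nhds hx] with y hy
    rw [hL]
    exact hg y hy
  have h4 := (h1.congr_of_eventuallyEq h3.symm).unique h2
  have h5 := DFunLike.congr_fun h4 w
  rw [ContinuousLinearMap.comp_apply, hL, hL] at h5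
  exact h5

theorem LW_euler {g : V → ℂ} {m : ℂ → ℂ} (hg : ∀ (c : ℂ) (y : V), c ≠ 0 → y ≠ 0 →
      g (c • y) = m c * g y) {x : V} (hx : x ≠ 0)
    (hd : DifferentiableAt ℝ g x) (a m' : ℂ) (hm : HasDerivAt (fun t : ℝ => m (1 + t * a)) m' 0) :
    fderiv ℝ g x (a • x) = m' * g x := by
  have h1 : HasDerivAt (fun t : ℝ => g (x + t • (a • x))) (fderiv ℝ g x (a • x)) 0 := by
    have h2 : HasDerivAt (fun t : ℝ => x + t • (a • x)) ((1 : ℝ) • (a • x)) 0 :=
      ((hasDerivAt_id (0 : ℝ)).smul_const (a • x)).const_add x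
    rw [one_smul] at h2
    have h3 : HasFDerivAt g (fderiv ℝ g x) (x + (0 : ℝ) • (a • x)) := by
      rw [zero_smul, add_zero]
      exact hd.hasFDerivAt
    exact h3.comp_hasDerivAt 0 h2
  have h4 : HasDerivAt (fun t : ℝ => m (1 + t * a) * g x) (m' * g x) 0 := hm.mul_const _
  have h5 : (fun t : ℝ => g (x + t • (a • x))) =ᶠ[nhds 0] fun t : ℝ => m (1 + t * a) * g x := by
    have h6 : ContinuousAt (fun t : ℝ => 1 + (t : ℂ) * a) 0 := by fun_prop
    have h7 : ∀ᶠ t : ℝ in nhds 0, 1 + (t : ℂ) * a ≠ 0 := h6.eventually_ne (by simp)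
    filter_upwards [h7] with t ht
    rw [← hg _ x ht hx]
    congr 1
    rw [add_smul, one_smul, mul_smul]
    rfl
  exact (h1.congr_of_eventuallyEq h5.symm).unique h4

theorem LW_hom_a {g : V → ℂ} {c μ : ℂ} (hc : c ≠ 0) (hg : ∀ y : V, y ≠ 0 → g (c • y) = μ * g y)
    (hd : ∀ y : V, y ≠ 0 → DifferentiableAt ℝ g y) {x : V} (hx : x ≠ 0) (w : V) :
    LW_a (fderiv ℝ g (c • x)) w = c⁻¹ * μ * LW_a (fderiv ℝ g x) w := by
  have h1 : ∀ w, fderiv ℝ g (c • x) w = μ * fderiv ℝ g x (c⁻¹ • w) := by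
    intro w
    rw [← LW_chain hc hg hd hx, smul_smul, mul_inv_cancel₀ hc, one_smul]
  have h2 : LW_a (fderiv ℝ g (c • x)) w = μ * LW_a (fderiv ℝ g x) (c⁻¹ • w) := by
    unfold LW_a
    rw [h1, h1, smul_comm c⁻¹ Complex.I w]
    ring
  rw [h2, LW_a_smul]
  ring

theorem LW_hom_b {g : V → ℂ} {c μ : ℂ} (hc : c ≠ 0) (hg : ∀ y : V, y ≠ 0 → g (c • y) = μ * g y)
    (hd : ∀ y : V, y ≠ 0 → DifferentiableAt ℝ g y) {x : V} (hx : x ≠ 0) (w : V) :
    LW_b (fderiv ℝ g (c • x)) w = (conj c)⁻¹ * μ * LW_b (fderiv ℝ g x) w := by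
  have h1 : ∀ w, fderiv ℝ g (c • x) w = μ * fderiv ℝ g x (c⁻¹ • w) := by
    intro w
    rw [← LW_chain hc hg hd hx, smul_smul, mul_inv_cancel₀ hc, one_smul]
  have h2 : LW_b (fderiv ℝ g (c • x)) w = μ * LW_b (fderiv ℝ g x) (c⁻¹ • w) := by
    unfold LW_b
    rw [h1, h1, smul_comm c⁻¹ Complex.I w]
    ring
  rw [h2, LW_b_smul, map_inv₀]
  ring

theorem LW_smooth_fd {g : V → ℂ} (hg : ContDiffOn ℝ ∞ g {0}ᶜ) (w : V) :
    ContDiffOn ℝ ∞ (fun x => fderiv ℝ g x w) {0}ᶜ :=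
  (hg.fderiv_of_isOpen LW_open (by simp)).clm_apply contDiffOn_const

theorem LW_smooth_dzbar {g : V → ℂ} (hg : ContDiffOn ℝ ∞ g {0}ᶜ) (k : Fin 3) :
    ContDiffOn ℝ ∞ (dzbar k g) {0}ᶜ :=
  ((LW_smooth_fd hg _).add (contDiffOn_const.mul (LW_smooth_fd hg _))).div_const 2

theorem LW_smooth_dz {g : V → ℂ} (hg : ContDiffOn ℝ ∞ g {0}ᶜ) (k : Fin 3) :
    ContDiffOn ℝ ∞ (dz k g) {0}ᶜ :=
  ((LW_smooth_fd hg _).sub (contDiffOn_const.mul (LW_smooth_fd hg _))).div_const 2

theorem LW_diff {g : V → ℂ} (hg : ContDiffOn ℝ ∞ g {0}ᶜ) (y : V) (hy : y ≠ 0) :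
    DifferentiableAt ℝ g y :=
  (hg.differentiableOn (by simp)).differentiableAt (LW_open.mem_nhds hy)

theorem exists_leviForm (u : V → ℂ) (hu : IsFun u) :
    ∃ A : Form11, ∀ x : V, x ≠ 0 → ∀ j k, A.1 x j k = dz j (dzbar k u) x := by
  classical
  have hs := hu.smooth
  have hd := LW_diff hs
  have hsk : ∀ k, ContDiffOn ℝ ∞ (dzbar k u) {0}ᶜ := LW_smooth_dzbar hs
  have hdk : ∀ k, ∀ y : V, y ≠ 0 → DifferentiableAt ℝ (dzbar k u) y := fun k => LW_diff (hsk k)
  have homk : ∀ (k : Fin 3) (c : ℂ) (y : V), c ≠ 0 → y ≠ 0 →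
      dzbar k u (c • y) = (conj c)⁻¹ * dzbar k u y := by
    intro k c y hc hy
    rw [LW_dzbar, LW_dzbar, LW_hom_b (μ := 1) hc (fun z hz => by rw [one_mul]; exact hu.hom c z hc hz)
      hd hy, mul_one]
  refine ⟨⟨fun x => if x = 0 then 0 else Matrix.of fun j k => dz j (dzbar k u) x, ?_, ?_, ?_, ?_⟩, ?_⟩
  · intro j k
    refine (LW_smooth_dz (hsk k) j).congr ?_
    intro x hx
    have hx' : x ≠ 0 := hx
    simp only [if_neg hx', Matrix.of_apply]
  · simp
  · intro c x hc hx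
    have hcx : c • x ≠ 0 := smul_ne_zero hc hx
    simp only [if_neg hx, if_neg hcx]
    ext j k
    rw [Matrix.smul_apply, Matrix.of_apply, Matrix.of_apply, LW_dz, LW_dz,
      LW_hom_a hc (fun y hy => homk k c y hc hy) (hdk k) hx, smul_eq_mul, ← mul_inv,
      Complex.mul_conj]
  · intro x hx
    simp only [if_neg hx, Matrix.of_apply]
    constructor
    · intro k
      have h1 : ∑ j, x j * dz j (dzbar k u) x = LW_a (fderiv ℝ (dzbar k u) x) x := by
        rw [LW_a_sum]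
        refine Finset.sum_congr rfl fun j _ => ?_
        rw [LW_dz, mul_comm]
      have hmd : ∀ a : ℂ, HasDerivAt (fun t : ℝ => (conj (1 + (t : ℂ) * a))⁻¹) (-conj a) 0 := by
        intro a
        have h2 : HasDerivAt (fun t : ℝ => 1 + (t : ℂ) * conj a) (1 * conj a) 0 :=
          ((Complex.ofRealCLM.hasDerivAt (x := (0 : ℝ))).mul_const (conj a)).const_add 1
        have h3 := h2.inv (by simp)
        have h4 : (fun t : ℝ => (conj (1 + (t : ℂ) * a))⁻¹) =
            (fun t : ℝ => 1 + (t : ℂ) * conj a)⁻¹ := by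
          funext t
          simp
        rw [h4]
        refine h3.congr_deriv ?_
        simp
      have e1 := LW_euler (g := dzbar k u) (m := fun c => (conj c)⁻¹) (homk k) hx (hdk k x hx) 1 _
        (hmd 1)
      have e2 := LW_euler (g := dzbar k u) (m := fun c => (conj c)⁻¹) (homk k) hx (hdk k x hx)
        Complex.I _ (hmd Complex.I)
      rw [one_smul] at e1
      rw [h1, LW_a, e1, e2, Complex.conj_I, map_one]
      linear_combination (-(1 / 2 : ℂ) * dzbar k u x) * Complex.I_sq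
    · intro j
      have hG : (fun y : V => ∑ k, dzbar k u y * conj (y k)) =ᶠ[nhds x] fun _ => 0 := by
        filter_upwards [LW_open.mem_nhds hx] with y hy
        have hy' : y ≠ 0 := hy
        have h1 : ∑ k, dzbar k u y * conj (y k) = LW_b (fderiv ℝ u y) y := by
          rw [LW_b_sum]
          refine Finset.sum_congr rfl fun k _ => ?_
          rw [LW_dzbar]
        have e1 := LW_euler (g := u) (m := fun _ => 1)
          (fun c z hc hz => by rw [one_mul]; exact hu.hom c z hc hz) hy' (hd y hy') 1 0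
          (hasDerivAt_const _ _)
        have e2 := LW_euler (g := u) (m := fun _ => 1)
          (fun c z hc hz => by rw [one_mul]; exact hu.hom c z hc hz) hy' (hd y hy') Complex.I 0
          (hasDerivAt_const _ _)
        rw [one_smul] at e1
        rw [h1, LW_b, e1, e2]
        simp
      obtain ⟨c, hc⟩ : ∃ c : Fin 3 → (V →L[ℝ] ℂ), ∀ k y, c k y = conj (y k) :=
        ⟨fun k => (Complex.conjCLE : ℂ →L[ℝ] ℂ).comp
          ((ContinuousLinearMap.proj (R := ℂ) (φ := fun _ : Fin 3 => ℂ) k).restrictScalars ℝ),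
          fun k y => rfl⟩
      have hGd : HasFDerivAt (fun y : V => ∑ k, dzbar k u y * c k y)
          (∑ k, (dzbar k u x • c k + c k x • fderiv ℝ (dzbar k u) x)) x :=
        HasFDerivAt.fun_sum fun k _ => ((hdk k x hx).hasFDerivAt).mul (c k).hasFDerivAt
      have hG' : (fun y : V => ∑ k, dzbar k u y * c k y) =ᶠ[nhds x] fun _ => 0 := by
        refine hG.mono fun y hy => ?_
        rw [← hy]
        exact Finset.sum_congr rfl fun k _ => by rw [hc]
      have h0 := (hGd.congr_of_eventuallyEq hG'.symm).unique (hasFDerivAt_const (0 : ℂ) x)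
      have h1 : ∀ w : V, ∑ k, (dzbar k u x * conj (w k) +
          conj (x k) * fderiv ℝ (dzbar k u) x w) = 0 := by
        intro w
        have h2 := DFunLike.congr_fun h0 w
        rw [_root_.sum_apply] at h2
        simp only [add_apply, smul_apply, smul_eq_mul, hc, zero_apply] at h2
        exact h2
      have h3 := h1 (Pi.single j 1)
      have h4 := h1 (Complex.I • Pi.single j 1)
      have h5 : ∑ k, dz j (dzbar k u) x * conj (x k) =
          ((∑ k, (dzbar k u x * conj ((Pi.single j (1 : ℂ) : V) k) +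
          conj (x k) * fderiv ℝ (dzbar k u) x (Pi.single j 1))) - Complex.I *
          (∑ k, (dzbar k u x * conj ((Complex.I • (Pi.single j (1 : ℂ) : V)) k) +
          conj (x k) * fderiv ℝ (dzbar k u) x (Complex.I • Pi.single j 1)))) / 2 := by
        rw [Finset.mul_sum, ← Finset.sum_sub_distrib, Finset.sum_div]
        refine Finset.sum_congr rfl fun k _ => ?_
        rw [LW_dz, LW_a, Pi.smul_apply, smul_eq_mul, map_mul, Complex.conj_I]
        linear_combination (-(1 / 2 : ℂ) * dzbar k u x *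
          conj ((Pi.single j (1 : ℂ) : V) k)) * Complex.I_sq
      rw [h5, h3, h4]
      simp
  · intro x hx j k
    show (if x = 0 then (0 : Matrix (Fin 3) (Fin 3) ℂ) else
      Matrix.of fun j k => dz j (dzbar k u) x) j k = _
    rw [if_neg hx, Matrix.of_apply]

end Pool.Agent.H24.CU
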