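import Pool.Agent.H24.CU.Basic

/-!
# Local notation: affine chart at a regular point
-/

namespace Pool.Agent.H24.CU

open MeasureTheory
open scoped ComplexConjugate ContDiff

/-- The affine chart at `y₀`: `p ↦ y₀ + p_1 F(y₀) + p_2 conj(α(y₀))`. -/
noncomputable def Foliation.psi (𝓕 : Foliation) (y₀ : V) (p : ℂ × ℂ) : V :=
  y₀ + p.1 • 𝓕.vec y₀ + p.2 • (fun j => conj (𝓕.alpha y₀ j))

/-- Unit vectors over the image of `E` in the chart. -/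
def Foliation.cone (𝓕 : Foliation) (y₀ : V) (E : Set (ℂ × ℂ)) : Set V :=
  {y | nsq y = 1 ∧ ∃ p ∈ E, ∃ t : ℂ, t ≠ 0 ∧ y = t • 𝓕.psi y₀ p}

/-- A holomorphic vector field `X` on `C^2` with `X(0) = (1,0)` and a finite measure `M`
harmonic along `X` on the bidisc of radius `r` (sup norm of `ℂ × ℂ`). -/
structure Loc (X : ℂ × ℂ → ℂ × ℂ) (r : ℝ) (M : Measure (ℂ × ℂ)) : Prop where
  r_pos : 0 < r
  hol : Differentiable ℂ X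
  zero : X 0 = (1, 0)
  fin : IsFiniteMeasure M
  harm : ∀ g : ℂ × ℂ → ℝ, ContDiff ℝ ∞ g → HasCompactSupport g →
    tsupport g ⊆ Metric.ball 0 r → ∫ p, levi g p (X p) ∂M = 0

/-- The data of the affine chart at a regular point `y₀` for the measure `μ`. -/
structure Chart (𝓕 : Foliation) (μ : Measure V) (y₀ : V) (X : ℂ × ℂ → ℂ × ℂ) (c₀ : ℂ × ℂ → ℂ)
    (r : ℝ) (M : Measure (ℂ × ℂ)) : Prop where
  r_pos : 0 < r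
  hol : Differentiable ℂ X
  hol₀ : Differentiable ℂ c₀
  zero : X 0 = (1, 0)
  fin : IsFiniteMeasure M
  psi_ne : ∀ p : ℂ × ℂ, 𝓕.psi y₀ p ≠ 0
  reg : ∀ p ∈ Metric.closedBall (0 : ℂ × ℂ) r, 𝓕.alpha (𝓕.psi y₀ p) ≠ 0
  vec : ∀ p : ℂ × ℂ, 𝓕.vec (𝓕.psi y₀ p) = c₀ p • 𝓕.psi y₀ p + (X p).1 • 𝓕.vec y₀ +
    (X p).2 • (fun j => conj (𝓕.alpha y₀ j))
  transfer : ∀ Φ : V → ℝ, Measurable Φ →
    (∀ (t : ℂ) (y : V), t ≠ 0 → y ≠ 0 →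
      Φ (t • y) = Complex.normSq t ^ 𝓕.deg / Complex.normSq t * Φ y) →
    ∀ E : Set (ℂ × ℂ), MeasurableSet E → E ⊆ Metric.ball 0 r →
      (∫ y in 𝓕.cone y₀ E, Φ y / nsq (𝓕.alpha y) ∂μ = ∫ p in E, Φ (𝓕.psi y₀ p) ∂M) ∧
      (∫⁻ y in 𝓕.cone y₀ E, ENNReal.ofReal (Φ y / nsq (𝓕.alpha y)) ∂μ =
        ∫⁻ p in E, ENNReal.ofReal (Φ (𝓕.psi y₀ p)) ∂M)

/-- The local leaf through the origin: `Y` is holomorphic on `|z| < ρ`, `Y 0 = 0`,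
`Y' X_1 = X_2` along the graph. -/
structure Leaf (X : ℂ × ℂ → ℂ × ℂ) (r ρ : ℝ) (Y : ℂ → ℂ) : Prop where
  pos : 0 < ρ
  hol : DifferentiableOn ℂ Y (Metric.ball 0 ρ)
  zero : Y 0 = 0
  mem : ∀ z ∈ Metric.ball (0 : ℂ) ρ, (z, Y z) ∈ Metric.ball (0 : ℂ × ℂ) r
  ne : ∀ z ∈ Metric.ball (0 : ℂ) ρ, (X (z, Y z)).1 ≠ 0
  ode : ∀ z ∈ Metric.ball (0 : ℂ) ρ, deriv Y z * (X (z, Y z)).1 = (X (z, Y z)).2

end Pool.Agent.H24.CU
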