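import Pool.Agent.H24.CU.FS

/-!
# Row RB (adjoint and bound)

PROOFS.  Let `H` be in `Form11` with `H x` Hermitian for all `x`.  On the compact set
`K = {nsq x = 1}` the entries are bounded, `|H_jk| <= c`.  For `x ∈ K` and a vector `v` write
`a = conj v` (so `star v ⬝ᵥ (H *ᵥ v) = ∑ H_jk a_j conj(a_k) =: H(a,a)`) and `a' = a - herm a x • x`;
since `∑ x_j H_jk = 0` and `∑ H_jk conj x_k = 0`, `H(a,a) = H(a',a')`, `|H(a',a')| <= 9 c |a'|^2`
and `|a'|^2 = fubiniStudy x (a,a)` (`fubiniStudy_quad`).  By homogeneity (both scale by `(normSq c)⁻¹`)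
for all `x ≠ 0` the matrices `C • fubiniStudy x ± H x` are positive semidefinite, `C = 9 c`.
(0) Hence (form `C • W ± H`, `W` the form of `exists_scaled` with `u = 1`) `T.pos` shows
`(T.toLin H).im = 0`.
(1) `toLin_adj`: `A = H1 + i H2`, `H1 = (A + A†)/2`, `H2 = (A - A†)/(2i)`, both Hermitian;
`B = A† = H1 - i H2`, `T.toLin B = T H1 - i T H2 = conj (T H1 + i T H2)`.
(2) `exists_bound`: with the constants `C1, C2` for `H1, H2` and `ψ >= 0`:
`ψ (C_i W ± H_i)` is positive semidefinite, so `|T(ψ H_i)| <= C_i T(ψ W)`;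
`‖T(ψ A)‖ <= (C1 + C2) (T (ψ W)).re`.  (Forms are determined off `0`: `Form11.ext_off`; use
`exists_mul`, `exists_adj`, `exists_scaled` to produce the intermediate forms.)
-/

namespace Pool.Agent.H24.CU

open MeasureTheory
open scoped ComplexConjugate ComplexOrder ContDiff

theorem RB_quad (M : Matrix (Fin 3) (Fin 3) ℂ) (v : V) :
    star v ⬝ᵥ (M.mulVec v) =
      ∑ j, ∑ k, M j k * ((fun i => conj (v i)) : V) j * conj (((fun i => conj (v i)) : V) k) := by
  simp only [dotProduct, Matrix.mulVec, Pi.star_apply, Finset.mul_sum, Complex.conj_conj]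
  refine Finset.sum_congr rfl fun j _ => Finset.sum_congr rfl fun k _ => ?_
  simp only [RCLike.star_def]
  ring

theorem RB_le_nsq (x : V) (j : Fin 3) : Complex.normSq (x j) ≤ nsq x :=
  Finset.single_le_sum (f := fun j => Complex.normSq (x j))
    (fun i _ => Complex.normSq_nonneg (x i)) (Finset.mem_univ j)

theorem RB_continuous_nsq : Continuous nsq := by
  unfold nsq
  exact continuous_finsetSum _ fun j _ => Complex.continuous_normSq.comp (continuous_apply j)

theorem RB_compact : IsCompact {x : V | nsq x = 1} := by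
  apply Metric.isCompact_of_isClosed_isBounded
  · exact isClosed_eq RB_continuous_nsq continuous_const
  · apply (Metric.isBounded_closedBall (x := (0 : V)) (r := 1)).subset
    intro x hx
    have hx1 : nsq x = 1 := hx
    rw [mem_closedBall_zero_iff, pi_norm_le_iff_of_nonneg zero_le_one]
    intro j
    have h1 := RB_le_nsq x j
    rw [hx1, Complex.normSq_eq_norm_sq] at h1
    have h2 := norm_nonneg (x j)
    nlinarith

theorem RB_bound (A : Form11) :
    ∃ c : ℝ, 0 ≤ c ∧ ∀ x : V, x ≠ 0 → ∀ j k, ‖A.1 x j k‖ ≤ c / nsq x := by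
  have hsub : {x : V | nsq x = 1} ⊆ ({0}ᶜ : Set V) := by
    intro x hx h0
    have hx1 : nsq x = 1 := hx
    rw [Set.mem_singleton_iff] at h0
    rw [nsq_eq_zero.2 h0] at hx1
    exact zero_ne_one hx1
  have hb : ∀ j k, ∃ c : ℝ, ∀ x ∈ {x : V | nsq x = 1}, ‖A.1 x j k‖ ≤ c := by
    intro j k
    exact RB_compact.exists_bound_of_continuousOn (((A.2.1 j k).continuousOn).mono hsub)
  choose c hc using hb
  refine ⟨∑ j, ∑ k, |c j k|, Finset.sum_nonneg fun j _ => Finset.sum_nonneg fun k _ => abs_nonneg _, ?_⟩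
  intro x hx j k
  have hN := nsq_pos hx
  have hs : 0 < Real.sqrt (nsq x) := Real.sqrt_pos.2 hN
  have hsc : ((Real.sqrt (nsq x) : ℝ) : ℂ) ≠ 0 := by exact_mod_cast hs.ne'
  set s : ℂ := ((Real.sqrt (nsq x) : ℝ) : ℂ) with hsdef
  have hns : Complex.normSq s = nsq x := by
    rw [hsdef, Complex.normSq_ofReal, Real.mul_self_sqrt hN.le]
  set y : V := s⁻¹ • x with hy
  have hxy : x = s • y := by rw [hy, smul_inv_smul₀ hsc]
  have hy1 : nsq y = 1 := by
    rw [hy, nsq_smul, Complex.normSq_inv, hns, inv_mul_cancel₀ hN.ne']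
  have hy0 : y ≠ 0 := fun h => by
    rw [nsq_eq_zero.2 h] at hy1
    exact zero_ne_one hy1
  have hA : A.1 x j k = ((nsq x : ℝ) : ℂ)⁻¹ * A.1 y j k := by
    have := A.2.2.2.1 s y hsc hy0
    rw [← hxy, hns] at this
    rw [this]
    rfl
  rw [hA, norm_mul, norm_inv, Complex.norm_real, Real.norm_of_nonneg hN.le, div_eq_inv_mul]
  apply mul_le_mul_of_nonneg_left _ (inv_nonneg.2 hN.le)
  calc ‖A.1 y j k‖ ≤ c j k := hc j k y hy1
    _ ≤ |c j k| := le_abs_self _
    _ ≤ ∑ k, |c j k| := Finset.single_le_sum (f := fun k => |c j k|)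
        (fun i _ => abs_nonneg _) (Finset.mem_univ k)
    _ ≤ ∑ j, ∑ k, |c j k| := Finset.single_le_sum (f := fun j => ∑ k, |c j k|)
        (fun i _ => Finset.sum_nonneg fun k _ => abs_nonneg _) (Finset.mem_univ j)

theorem RB_shift (M : Matrix (Fin 3) (Fin 3) ℂ) (x a : V) (l : ℂ)
    (h1 : ∀ k, ∑ j, x j * M j k = 0) (h2 : ∀ j, ∑ k, M j k * conj (x k) = 0) :
    ∑ j, ∑ k, M j k * a j * conj (a k) =
      ∑ j, ∑ k, M j k * (a j - l * x j) * conj (a k - l * x k) := by
  have e1 : ∀ (b : V), ∑ j, ∑ k, M j k * x j * conj (b k) = 0 := by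
    intro b
    rw [Finset.sum_comm]
    apply Finset.sum_eq_zero
    intro k _
    have := h1 k
    calc ∑ j, M j k * x j * conj (b k) = (∑ j, x j * M j k) * conj (b k) := by
          rw [Finset.sum_mul]
          exact Finset.sum_congr rfl fun j _ => by ring
      _ = 0 := by rw [this, zero_mul]
  have e2 : ∀ (b : V), ∑ j, ∑ k, M j k * b j * conj (x k) = 0 := by
    intro b
    apply Finset.sum_eq_zero
    intro j _
    have := h2 j
    calc ∑ k, M j k * b j * conj (x k) = b j * (∑ k, M j k * conj (x k)) := by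
          rw [Finset.mul_sum]
          exact Finset.sum_congr rfl fun j _ => by ring
      _ = 0 := by rw [this, mul_zero]
  have h3 := e1 a
  have h4 := e2 a
  have h5 := e1 x
  have : ∑ j, ∑ k, M j k * (a j - l * x j) * conj (a k - l * x k) =
      ∑ j, ∑ k, M j k * a j * conj (a k) - l * ∑ j, ∑ k, M j k * x j * conj (a k)
        - conj l * ∑ j, ∑ k, M j k * a j * conj (x k)
        + l * conj l * ∑ j, ∑ k, M j k * x j * conj (x k) := by
    simp only [Finset.mul_sum, ← Finset.sum_add_distrib, ← Finset.sum_sub_distrib]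
    refine Finset.sum_congr rfl fun j _ => Finset.sum_congr rfl fun k _ => ?_
    rw [map_sub, map_mul]
    ring
  rw [this, h3, h4, h5]
  ring

theorem RB_nsq_shift (x a : V) (hx : x ≠ 0) :
    nsq (fun j => a j - herm a x / (nsq x : ℂ) * x j) =
      (nsq x * nsq a - Complex.normSq (herm a x)) / nsq x := by
  have hN := nsq_pos hx
  have hNc : ((nsq x : ℝ) : ℂ) ≠ 0 := by exact_mod_cast hN.ne'
  have hn : ∀ y : V, ((nsq y : ℝ) : ℂ) = ∑ j, y j * conj (y j) := by
    intro y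
    simp only [nsq, Complex.ofReal_sum, Complex.mul_conj]
  apply Complex.ofReal_injective
  rw [hn]
  set l : ℂ := herm a x / (nsq x : ℂ) with hl
  have hh : herm a x = l * (nsq x : ℂ) := by rw [hl, div_mul_cancel₀ _ hNc]
  have hh' : conj (herm a x) = ∑ j, x j * conj (a j) := by
    simp only [herm, map_sum, map_mul, Complex.conj_conj]
    exact Finset.sum_congr rfl fun j _ => by ring
  have hcl : conj (herm a x) = conj l * (nsq x : ℂ) := by
    rw [hh, map_mul, Complex.conj_ofReal]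
  have e : ∑ j, (a j - l * x j) * conj (a j - l * x j) =
      ∑ j, a j * conj (a j) - conj l * ∑ j, a j * conj (x j) - l * ∑ j, x j * conj (a j)
        + l * conj l * ∑ j, x j * conj (x j) := by
    simp only [Finset.mul_sum, ← Finset.sum_add_distrib, ← Finset.sum_sub_distrib]
    refine Finset.sum_congr rfl fun j _ => ?_
    rw [map_sub, map_mul]
    ring
  rw [e, ← hn, ← hn, ← hh']
  have hherm : ∑ j, a j * conj (x j) = herm a x := rfl
  rw [hherm]
  push_cast
  rw [← Complex.mul_conj, hcl, hh]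
  field_simp
  ring

theorem RB_est (A : Form11) : ∃ C : ℝ, 0 ≤ C ∧ ∀ x : V, x ≠ 0 → ∀ a : V,
    ‖∑ j, ∑ k, A.1 x j k * a j * conj (a k)‖ ≤
      C * (∑ j, ∑ k, fubiniStudy x j k * a j * conj (a k)).re := by
  obtain ⟨c, hc0, hc⟩ := RB_bound A
  refine ⟨3 * c, by positivity, ?_⟩
  intro x hx a
  have hN := nsq_pos hx
  rw [fubiniStudy_quad x hx a, Complex.ofReal_re]
  have hb := A.2.2.2.2 x hx
  rw [RB_shift (A.1 x) x a (herm a x / (nsq x : ℂ)) hb.1 hb.2]
  set b : V := fun j => a j - herm a x / (nsq x : ℂ) * x j with hbdef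
  have hbn : nsq b = (nsq x * nsq a - Complex.normSq (herm a x)) / nsq x := RB_nsq_shift x a hx
  have hstep : ‖∑ j, ∑ k, A.1 x j k * (a j - herm a x / (nsq x : ℂ) * x j) *
      conj (a k - herm a x / (nsq x : ℂ) * x k)‖ ≤ c / nsq x * (∑ j, ‖b j‖) ^ 2 := by
    calc ‖∑ j, ∑ k, A.1 x j k * (a j - herm a x / (nsq x : ℂ) * x j) *
      conj (a k - herm a x / (nsq x : ℂ) * x k)‖ 
        ≤ ∑ j, ∑ k, c / nsq x * (‖b j‖ * ‖b k‖) := by
          refine (norm_sum_le _ _).trans (Finset.sum_le_sum fun j _ => ?_)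
          refine (norm_sum_le _ _).trans (Finset.sum_le_sum fun k _ => ?_)
          rw [norm_mul, norm_mul, RCLike.norm_conj, mul_assoc]
          exact mul_le_mul_of_nonneg_right (hc x hx j k) (by positivity)
      _ = c / nsq x * (∑ j, ‖b j‖) ^ 2 := by
          rw [sq, Finset.sum_mul_sum, Finset.mul_sum]
          exact Finset.sum_congr rfl fun j _ => by rw [Finset.mul_sum]
  refine hstep.trans ?_
  have hcs : (∑ j, ‖b j‖) ^ 2 ≤ 3 * nsq b := by
    have := sq_sum_le_card_mul_sum_sq (s := (Finset.univ : Finset (Fin 3))) (f := fun j => ‖b j‖)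
    simpa [nsq, Complex.normSq_eq_norm_sq] using this
  calc c / nsq x * (∑ j, ‖b j‖) ^ 2 ≤ c / nsq x * (3 * nsq b) :=
        mul_le_mul_of_nonneg_left hcs (by positivity)
    _ = 3 * c * ((nsq x * nsq a - Complex.normSq (herm a x)) / nsq x ^ 2) := by
        rw [hbn]
        field_simp

theorem RB_psd (A : Form11) (hA : ∀ x : V, (A.1 x).IsHermitian) :
    ∃ C : ℝ, 0 ≤ C ∧ ∀ x : V, x ≠ 0 →
      ((C : ℂ) • fubiniStudy x + A.1 x).PosSemidef ∧
      ((C : ℂ) • fubiniStudy x - A.1 x).PosSemidef := by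
  obtain ⟨C, hC0, hC⟩ := RB_est A
  refine ⟨C, hC0, fun x hx => ?_⟩
  have hW : ((C : ℂ) • fubiniStudy x).IsHermitian := by
    have h1 := (fubiniStudy_posSemidef x).1
    unfold Matrix.IsHermitian at h1 ⊢
    rw [Matrix.conjTranspose_smul, h1]
    simp
  have key : ∀ v : V, |(star v ⬝ᵥ ((A.1 x).mulVec v)).re| ≤
      (star v ⬝ᵥ (((C : ℂ) • fubiniStudy x).mulVec v)).re := by
    intro v
    refine (Complex.abs_re_le_norm _).trans ?_
    rw [Matrix.smul_mulVec, dotProduct_smul, RB_quad, RB_quad, smul_eq_mul, Complex.re_ofReal_mul]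
    exact hC x hx _
  constructor
  · rw [Matrix.posSemidef_iff_dotProduct_mulVec]
    have hH : ((C : ℂ) • fubiniStudy x + A.1 x).IsHermitian := hW.add (hA x)
    refine ⟨hH, fun v => ?_⟩
    rw [Complex.nonneg_iff]
    refine ⟨?_, (hH.im_star_dotProduct_mulVec_self v).symm⟩
    rw [Matrix.add_mulVec, dotProduct_add, Complex.add_re]
    have := abs_le.1 (key v)
    linarith [this.1]
  · rw [Matrix.posSemidef_iff_dotProduct_mulVec]
    have hH : ((C : ℂ) • fubiniStudy x - A.1 x).IsHermitian := hW.sub (hA x)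
    refine ⟨hH, fun v => ?_⟩
    rw [Complex.nonneg_iff]
    refine ⟨?_, (hH.im_star_dotProduct_mulVec_self v).symm⟩
    rw [Matrix.sub_mulVec, dotProduct_sub, Complex.sub_re]
    have := abs_le.1 (key v)
    linarith [this.2]

theorem RB_isFun_one : IsFun (fun _ => (1 : ℂ)) := ⟨contDiffOn_const, fun _ _ _ _ => rfl⟩

/-- positivity off the origin is enough -/
theorem RB_pos (T : PosCurrent) (A : Form11) (h : ∀ x : V, x ≠ 0 → (A.1 x).PosSemidef) :
    0 ≤ (T.toLin A).re ∧ (T.toLin A).im = 0 := by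
  apply T.pos A
  intro x
  by_cases hx : x = 0
  · rw [hx, A.2.2.1]
    exact Matrix.PosSemidef.zero
  · exact h x hx

theorem RB_real (T : PosCurrent) (A : Form11) (hA : ∀ x : V, (A.1 x).IsHermitian) :
    (T.toLin A).im = 0 := by
  obtain ⟨C, hC0, hC⟩ := RB_psd A hA
  obtain ⟨W, hW⟩ := exists_scaled _ RB_isFun_one
  have h1 := (RB_pos T W (fun x hx => by
    rw [hW x hx, one_smul]; exact fubiniStudy_posSemidef x)).2
  have h2 := (RB_pos T ((C : ℂ) • W + A) (fun x hx => by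
    have : ((C : ℂ) • W + A).1 x = (C : ℂ) • fubiniStudy x + A.1 x := by
      show (C : ℂ) • W.1 x + A.1 x = _
      rw [hW x hx, one_smul]
    rw [this]
    exact (hC x hx).1)).2
  rw [map_add, map_smul, Complex.add_im, smul_eq_mul, Complex.im_ofReal_mul, h1] at h2
  simpa using h2

/-- Hermitian decomposition -/
theorem RB_decomp (A B : Form11) (h : ∀ x : V, B.1 x = (A.1 x).conjTranspose) :
    ∃ H₁ H₂ : Form11, (∀ x : V, (H₁.1 x).IsHermitian) ∧ (∀ x : V, (H₂.1 x).IsHermitian) ∧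
      A = H₁ + Complex.I • H₂ ∧ B = H₁ - Complex.I • H₂ := by
  refine ⟨(1 / 2 : ℂ) • (A + B), (-Complex.I / 2) • (A - B), ?_, ?_, ?_, ?_⟩
  · intro x
    have : ((1 / 2 : ℂ) • (A + B)).1 x = (1 / 2 : ℂ) • (A.1 x + B.1 x) := rfl
    rw [this, h x]
    unfold Matrix.IsHermitian
    rw [Matrix.conjTranspose_smul, Matrix.conjTranspose_add, Matrix.conjTranspose_conjTranspose,
      add_comm]
    congr 1
    simp
  · intro x
    have : ((-Complex.I / 2) • (A - B)).1 x = (-Complex.I / 2) • (A.1 x - B.1 x) := rfl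
    rw [this, h x]
    unfold Matrix.IsHermitian
    rw [Matrix.conjTranspose_smul, Matrix.conjTranspose_sub, Matrix.conjTranspose_conjTranspose,
      ← neg_sub, smul_neg, ← neg_smul]
    congr 1
    simp
    ring
  · rw [smul_smul]
    have : Complex.I * (-Complex.I / 2) = 1 / 2 := by
      linear_combination (-1 / 2 : ℂ) * Complex.I_mul_I
    rw [this, ← smul_add]
    have : A + B + (A - B) = (2 : ℂ) • A := by rw [two_smul]; abel
    rw [this, smul_smul]
    norm_num
  · apply Subtype.ext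
    funext x
    show B.1 x = (1 / 2 : ℂ) • (A.1 x + B.1 x) - Complex.I • ((-Complex.I / 2) • (A.1 x - B.1 x))
    ext j k
    simp only [Matrix.sub_apply, Matrix.smul_apply, Matrix.add_apply, smul_eq_mul]
    linear_combination (-(A.1 x j k - B.1 x j k) / 2) * Complex.I_mul_I

theorem toLin_adj (T : PosCurrent) (A B : Form11) (h : ∀ x : V, B.1 x = (A.1 x).conjTranspose) :
    T.toLin B = conj (T.toLin A) := by
  obtain ⟨H₁, H₂, h1, h2, hA, hB⟩ := RB_decomp A B h
  have r1 := RB_real T H₁ h1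
  have r2 := RB_real T H₂ h2
  rw [hA, hB, map_add, map_sub, map_smul, smul_eq_mul, map_add, map_mul, Complex.conj_I,
    Complex.conj_eq_iff_im.2 r1, Complex.conj_eq_iff_im.2 r2]
  ring

theorem RB_herm_bound (A : Form11) (hA : ∀ x : V, (A.1 x).IsHermitian) :
    ∃ C : ℝ, 0 ≤ C ∧ ∀ (T : PosCurrent) (ψ : V → ℝ) (B D : Form11),
      (∀ x, 0 ≤ ψ x) →
      (∀ x : V, x ≠ 0 → B.1 x = (ψ x : ℂ) • A.1 x) →
      (∀ x : V, x ≠ 0 → D.1 x = (ψ x : ℂ) • fubiniStudy x) →
      ‖T.toLin B‖ ≤ C * (T.toLin D).re := by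
  obtain ⟨C, hC0, hC⟩ := RB_psd A hA
  refine ⟨C, hC0, ?_⟩
  intro T ψ B D hψ hB hD
  have hBh : ∀ x : V, (B.1 x).IsHermitian := by
    intro x
    by_cases hx : x = 0
    · rw [hx, B.2.2.1]
      exact Matrix.isHermitian_zero
    · rw [hB x hx]
      unfold Matrix.IsHermitian
      rw [Matrix.conjTranspose_smul, hA x]
      simp
  have hre := RB_real T B hBh
  have hψ' : ∀ x, (0 : ℂ) ≤ (ψ x : ℂ) := fun x => by exact_mod_cast hψ x
  have p1 := (RB_pos T ((C : ℂ) • D + B) (fun x hx => by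
    have : ((C : ℂ) • D + B).1 x = (ψ x : ℂ) • ((C : ℂ) • fubiniStudy x + A.1 x) := by
      show (C : ℂ) • D.1 x + B.1 x = _
      rw [hD x hx, hB x hx, smul_add, smul_comm]
    rw [this]
    exact (hC x hx).1.smul (hψ' x))).1
  have p2 := (RB_pos T ((C : ℂ) • D - B) (fun x hx => by
    have : ((C : ℂ) • D - B).1 x = (ψ x : ℂ) • ((C : ℂ) • fubiniStudy x - A.1 x) := by
      show (C : ℂ) • D.1 x - B.1 x = _
      rw [hD x hx, hB x hx, smul_sub, smul_comm]
    rw [this]
    exact (hC x hx).2.smul (hψ' x))).1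
  rw [map_add, map_smul, smul_eq_mul, Complex.add_re, Complex.re_ofReal_mul] at p1
  rw [map_sub, map_smul, smul_eq_mul, Complex.sub_re, Complex.re_ofReal_mul] at p2
  have hn : ‖T.toLin B‖ = |(T.toLin B).re| := by
    have : T.toLin B = (((T.toLin B).re : ℝ) : ℂ) := by
      apply Complex.ext
      · simp
      · simp [hre]
    rw [this, Complex.norm_real, Real.norm_eq_abs, Complex.ofReal_re]
  rw [hn, abs_le]
  constructor <;> linarith

theorem exists_bound (A : Form11) :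
    ∃ C : ℝ, 0 ≤ C ∧ ∀ (T : PosCurrent) (ψ : V → ℝ) (B D : Form11),
      IsFun (fun x => (ψ x : ℂ)) → (∀ x, 0 ≤ ψ x) →
      (∀ x : V, x ≠ 0 → B.1 x = (ψ x : ℂ) • A.1 x) →
      (∀ x : V, x ≠ 0 → D.1 x = (ψ x : ℂ) • fubiniStudy x) →
      ‖T.toLin B‖ ≤ C * (T.toLin D).re := by
  obtain ⟨A', hA'⟩ := exists_adj A
  obtain ⟨H₁, H₂, h1, h2, hA, -⟩ := RB_decomp A A' hA'
  obtain ⟨C₁, hC₁, b1⟩ := RB_herm_bound H₁ h1
  obtain ⟨C₂, hC₂, b2⟩ := RB_herm_bound H₂ h2
  refine ⟨C₁ + C₂, by positivity, ?_⟩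
  intro T ψ B D hψf hψ hB hD
  obtain ⟨B₁, hB₁⟩ := exists_mul H₁ _ hψf
  obtain ⟨B₂, hB₂⟩ := exists_mul H₂ _ hψf
  have hBd : B = B₁ + Complex.I • B₂ := by
    apply Form11.ext_off
    intro x hx
    rw [hB x hx, hA]
    show (ψ x : ℂ) • (H₁.1 x + Complex.I • H₂.1 x) = B₁.1 x + Complex.I • B₂.1 x
    rw [hB₁ x hx, hB₂ x hx, smul_add, smul_comm (ψ x : ℂ) Complex.I]
  rw [hBd, map_add, map_smul]
  have e1 := b1 T ψ B₁ D hψ hB₁ hD
  have e2 := b2 T ψ B₂ D hψ hB₂ hD
  calc ‖T.toLin B₁ + Complex.I • T.toLin B₂‖ ≤ ‖T.toLin B₁‖ + ‖Complex.I • T.toLin B₂‖ :=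
        norm_add_le _ _
    _ = ‖T.toLin B₁‖ + ‖T.toLin B₂‖ := by rw [norm_smul, Complex.norm_I, one_mul]
    _ ≤ (C₁ + C₂) * (T.toLin D).re := by linarith

end Pool.Agent.H24.CU
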