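import Pool.Agent.H24.CU.RB
import Pool.Agent.H24.CU.AL

/-!
# Row RD (a directed current only sees the value of a form on the leaf direction)

PROOF.  Write `η = 𝓕.alpha x`, `e = nsq η`, `N = nsq x`, `F = 𝓕.vec x`.  On the open set
`U = {x ≠ 0, e ≠ 0}` the functions `dens A.1 x`, `c_k`, `c'_j` of `form_decomp` are smooth
(`ContDiffOn ℝ ∞`): they are polynomials in `x, conj x` and in the entries of `A` divided by powers of
`e` (polynomial maps `x ↦ eval x P` are smooth; `conj`, `normSq` are smooth over `ℝ`).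
The set `U' = {x ≠ 0, e < (δ/2)... }`: let `O = {x ≠ 0 | e < δ N^(deg+1)}`, open, `χ = 0` on `O` by
`hsupp`; `O ∪ U = {0}ᶜ` and both are open, so any function `χ * f` with `f` smooth on `U` is smooth on
`{0}ᶜ` (`ContDiffOn` is local: `contDiffOn_of_locally..`/`ContDiffAt` at every point; on `O` it is
eventually `0`).
(1) `IsFun u`: smooth as just said (replace `u` off `0` by the formula), degree `0`:
`dens A.1 (c x) = (normSq c)⁻¹ (normSq c)^deg / (normSq c)^(deg+1) dens A.1 x`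
(`vec_smul`, `alpha_smul`), `(nsq (c x))^2 = (normSq c)^2 N^2`.
(2) Let `c x := χ x • (c_k(x))_k`, `c' x := χ x • (c'_j(x))_j` (0 at points with `e = 0`, since
`x / 0 = 0`); smooth off `0`.  The matrix field `G1 x = vecMulVec (α x) (c x)` belongs to `Form11` (value
`0` at `0`: take `if x = 0 then 0`): smooth; homogeneous because `c(t x) = t^-(deg+1) (normSq t)⁻¹ c(x)`
(check from the formula) ; basic because `∑ x_j η_j = 0` and `∑_k c_k conj x_k = 0`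
(`∑_k A_ik conj x_k = 0`, `∑_k conj η_k conj x_k = 0`).  So `T.toLin G1 = 0` by `hT`.
The matrix field `G2 x = vecMulVec (c' x) (conj α x)` belongs to `Form11`, its adjoint is
`vecMulVec (α x) (conj c' x)`, so `T.toLin G2 = conj 0 = 0` (`toLin_adj` in the right order and `hT`).
By `form_decomp` (its hypothesis `h3` is `nsq_cross`) `B.1 x = D.1 x + G1 x + G2 x` for `x ≠ 0`
(both sides are `0` on `O`; where `e ≠ 0` it is `χ x` times the decomposition), so `B = D + G1 + G2`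
(`Form11.ext_off`) and `T.toLin B = T.toLin D`.
-/

namespace Pool.Agent.H24.CU

open MeasureTheory
open scoped ComplexConjugate ComplexOrder ContDiff


theorem RD_eval_smooth (P : MvPolynomial (Fin 3) ℂ) :
    ContDiff ℝ ∞ (fun x : V => MvPolynomial.eval x P) := by
  induction P using MvPolynomial.induction_on with
  | C a => simpa using contDiff_const
  | add p q hp hq => simpa using hp.add hq
  | mul_X p i hp =>
    have h : ContDiff ℝ ∞ (fun x : V => x i) := contDiff_apply ℝ ℂ i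
    simpa using hp.mul h

theorem RD_conj_smooth {f : V → ℂ} {s : Set V} (hf : ContDiffOn ℝ ∞ f s) :
    ContDiffOn ℝ ∞ (fun x => conj (f x)) s :=
  (Complex.conjCLE.contDiff.comp_contDiffOn hf : _)

theorem RD_vec_smooth (𝓕 : Foliation) (j : Fin 3) : ContDiff ℝ ∞ (fun x : V => 𝓕.vec x j) :=
  RD_eval_smooth (𝓕.F j)

theorem RD_alpha_smooth (𝓕 : Foliation) (j : Fin 3) : ContDiff ℝ ∞ (fun x : V => 𝓕.alpha x j) := by
  obtain ⟨Q, _, hQ, _⟩ := exists_alpha_poly 𝓕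
  have : (fun x : V => 𝓕.alpha x j) = fun x => MvPolynomial.eval x (Q j) := by
    funext x
    exact hQ x j
  rw [this]
  exact RD_eval_smooth (Q j)

theorem RD_nsq_eq (f : V) : (nsq f : ℂ) = ∑ j, f j * conj (f j) := by
  unfold nsq
  push_cast
  exact Finset.sum_congr rfl fun j _ => (Complex.mul_conj (f j)).symm

theorem RD_nsq_smooth {f : V → V} {s : Set V} (hf : ∀ j, ContDiffOn ℝ ∞ (fun x => f x j) s) :
    ContDiffOn ℝ ∞ (fun x => (nsq (f x) : ℂ)) s := by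
  simp_rw [RD_nsq_eq]
  exact ContDiffOn.sum fun j _ => (hf j).mul (RD_conj_smooth (hf j))

theorem RD_alpha_cont (𝓕 : Foliation) : Continuous (fun x : V => nsq (𝓕.alpha x)) := by
  unfold nsq
  exact continuous_finsetSum _ fun j _ => Complex.continuous_normSq.comp (RD_alpha_smooth 𝓕 j).continuous

theorem RD_nsq_cont : Continuous (fun x : V => nsq x) := by
  unfold nsq
  exact continuous_finsetSum _ fun j _ => Complex.continuous_normSq.comp (continuous_apply j)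

theorem RD_div {f g : V → ℂ} {s : Set V} (hf : ContDiffOn ℝ ∞ f s) (hg : ContDiffOn ℝ ∞ g s)
    (h : ∀ x ∈ s, g x ≠ 0) : ContDiffOn ℝ ∞ (fun x => f x / g x) s := by
  simp_rw [div_eq_mul_inv]
  exact hf.mul (hg.inv h)

/-- The regular set. -/
def RD_U (𝓕 : Foliation) : Set V := {x | x ≠ 0 ∧ nsq (𝓕.alpha x) ≠ 0}

theorem RD_U_open (𝓕 : Foliation) : IsOpen (RD_U 𝓕) := by
  unfold RD_U
  exact (isOpen_ne).inter ((RD_alpha_cont 𝓕).isOpen_preimage _ isOpen_ne)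

theorem RD_cut (𝓕 : Foliation) (χ : V → ℝ) (hχ : IsFun (fun x => (χ x : ℂ))) (δ : ℝ) (hδ : 0 < δ)
    (hsupp : ∀ x : V, x ≠ 0 → nsq (𝓕.alpha x) ≤ δ * nsq x ^ (𝓕.deg + 1) → χ x = 0)
    (f : V → ℂ) (hf : ContDiffOn ℝ ∞ f (RD_U 𝓕)) :
    ContDiffOn ℝ ∞ (fun x => (χ x : ℂ) * f x) {0}ᶜ := by
  intro x hx
  apply ContDiffAt.contDiffWithinAt
  have hx0 : x ≠ 0 := hx
  by_cases h : nsq (𝓕.alpha x) = 0
  · have hO : {y : V | y ≠ 0 ∧ nsq (𝓕.alpha y) < δ * nsq y ^ (𝓕.deg + 1)} ∈ nhds x := by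
      apply IsOpen.mem_nhds
      · exact (isOpen_ne).inter (isOpen_lt (RD_alpha_cont 𝓕)
          (continuous_const.mul (RD_nsq_cont.pow _)))
      · refine ⟨hx0, ?_⟩
        rw [h]
        have := nsq_pos hx0
        positivity
    have he : (fun y => (χ y : ℂ) * f y) =ᶠ[nhds x] fun _ => 0 := by
      filter_upwards [hO] with y hy
      rw [hsupp y hy.1 hy.2.le]
      simp
    exact (contDiffAt_const (c := (0 : ℂ))).congr_of_eventuallyEq he
  · have hU : x ∈ RD_U 𝓕 := ⟨hx0, h⟩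
    have h1 : ContDiffAt ℝ ∞ f x := hf.contDiffAt ((RD_U_open 𝓕).mem_nhds hU)
    have h2 : ContDiffAt ℝ ∞ (fun x => (χ x : ℂ)) x :=
      hχ.smooth.contDiffAt (isOpen_compl_singleton.mem_nhds hx0)
    exact h2.mul h1

/-- `A(F,F)` -/
noncomputable def RD_AFF (𝓕 : Foliation) (A : V → Matrix (Fin 3) (Fin 3) ℂ) (x : V) : ℂ :=
  ∑ j, ∑ k, A x j k * 𝓕.vec x j * conj (𝓕.vec x k)

/-- the coefficients `c_k` -/
noncomputable def RD_c (𝓕 : Foliation) (A : V → Matrix (Fin 3) (Fin 3) ℂ) (x : V) (k : Fin 3) : ℂ :=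
  (∑ i, conj (𝓕.alpha x i) * A x i k) / (nsq (𝓕.alpha x) : ℂ)
    - RD_AFF 𝓕 A x * (nsq x : ℂ) / (nsq (𝓕.alpha x) : ℂ) ^ 2 * conj (𝓕.alpha x k)

/-- the coefficients `c'_j` -/
noncomputable def RD_d (𝓕 : Foliation) (A : V → Matrix (Fin 3) (Fin 3) ℂ) (x : V) (j : Fin 3) : ℂ :=
  (∑ i, A x j i * 𝓕.alpha x i) / (nsq (𝓕.alpha x) : ℂ)
    - (∑ i, ∑ l, conj (𝓕.alpha x i) * A x i l * 𝓕.alpha x l) / (nsq (𝓕.alpha x) : ℂ) ^ 2 *
      𝓕.alpha x j

section smooth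

variable (𝓕 : Foliation) (A : Form11)

theorem RD_A_smooth (j k : Fin 3) : ContDiffOn ℝ ∞ (fun x => A.1 x j k) (RD_U 𝓕) :=
  (A.2.1 j k).mono fun _ hx => hx.1

theorem RD_ne {x : V} (hx : x ∈ RD_U 𝓕) : (nsq (𝓕.alpha x) : ℂ) ≠ 0 := by
  exact_mod_cast hx.2

theorem RD_e_smooth : ContDiffOn ℝ ∞ (fun x => (nsq (𝓕.alpha x) : ℂ)) (RD_U 𝓕) :=
  RD_nsq_smooth fun j => (RD_alpha_smooth 𝓕 j).contDiffOn

theorem RD_N_smooth : ContDiffOn ℝ ∞ (fun x : V => (nsq x : ℂ)) (RD_U 𝓕) :=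
  RD_nsq_smooth (f := fun x => x) fun j => (contDiff_apply ℝ ℂ j).contDiffOn

theorem RD_AFF_smooth : ContDiffOn ℝ ∞ (RD_AFF 𝓕 A.1) (RD_U 𝓕) := by
  unfold RD_AFF
  exact ContDiffOn.sum fun j _ => ContDiffOn.sum fun k _ =>
    ((RD_A_smooth 𝓕 A j k).mul (RD_vec_smooth 𝓕 j).contDiffOn).mul
      (RD_conj_smooth (RD_vec_smooth 𝓕 k).contDiffOn)

theorem RD_dens_smooth : ContDiffOn ℝ ∞ (fun x => 𝓕.dens A.1 x) (RD_U 𝓕) := by
  unfold Foliation.dens
  exact RD_div (RD_AFF_smooth 𝓕 A) (RD_e_smooth 𝓕) fun x hx => RD_ne 𝓕 hx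

theorem RD_c_smooth (k : Fin 3) : ContDiffOn ℝ ∞ (fun x => RD_c 𝓕 A.1 x k) (RD_U 𝓕) := by
  unfold RD_c
  have ha : ∀ i, ContDiffOn ℝ ∞ (fun x : V => conj (𝓕.alpha x i)) (RD_U 𝓕) := fun i =>
    RD_conj_smooth (RD_alpha_smooth 𝓕 i).contDiffOn
  refine (RD_div (ContDiffOn.sum fun i _ => (ha i).mul (RD_A_smooth 𝓕 A i k)) (RD_e_smooth 𝓕)
    fun x hx => RD_ne 𝓕 hx).sub ?_
  exact (RD_div ((RD_AFF_smooth 𝓕 A).mul (RD_N_smooth 𝓕)) ((RD_e_smooth 𝓕).pow 2)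
    fun x hx => pow_ne_zero 2 (RD_ne 𝓕 hx)).mul (ha k)

theorem RD_d_smooth (j : Fin 3) : ContDiffOn ℝ ∞ (fun x => RD_d 𝓕 A.1 x j) (RD_U 𝓕) := by
  unfold RD_d
  have ha : ∀ i, ContDiffOn ℝ ∞ (fun x : V => conj (𝓕.alpha x i)) (RD_U 𝓕) := fun i =>
    RD_conj_smooth (RD_alpha_smooth 𝓕 i).contDiffOn
  have hb : ∀ i, ContDiffOn ℝ ∞ (fun x : V => 𝓕.alpha x i) (RD_U 𝓕) := fun i =>
    (RD_alpha_smooth 𝓕 i).contDiffOn
  refine (RD_div (ContDiffOn.sum fun i _ => (RD_A_smooth 𝓕 A j i).mul (hb i)) (RD_e_smooth 𝓕)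
    fun x hx => RD_ne 𝓕 hx).sub ?_
  exact (RD_div (ContDiffOn.sum fun i _ => ContDiffOn.sum fun l _ =>
    ((ha i).mul (RD_A_smooth 𝓕 A i l)).mul (hb l)) ((RD_e_smooth 𝓕).pow 2)
    fun x hx => pow_ne_zero 2 (RD_ne 𝓕 hx)).mul (hb j)

/-! ### homogeneity -/

theorem RD_vec_hom (c : ℂ) (x : V) (j : Fin 3) : 𝓕.vec (c • x) j = c ^ 𝓕.deg * 𝓕.vec x j := by
  rw [vec_smul]; rfl

theorem RD_alpha_hom (c : ℂ) (x : V) (j : Fin 3) :
    𝓕.alpha (c • x) j = c ^ (𝓕.deg + 1) * 𝓕.alpha x j := by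
  rw [alpha_smul]; rfl

theorem RD_e_hom (c : ℂ) (x : V) : (nsq (𝓕.alpha (c • x)) : ℂ)
    = (c * conj c) ^ (𝓕.deg + 1) * (nsq (𝓕.alpha x) : ℂ) := by
  rw [alpha_smul, nsq_smul]
  push_cast
  rw [← Complex.mul_conj, map_pow, mul_pow]

theorem RD_N_hom (c : ℂ) (x : V) : (nsq (c • x) : ℂ) = (c * conj c) * (nsq x : ℂ) := by
  rw [nsq_smul]
  push_cast
  rw [← Complex.mul_conj]

theorem RD_A_hom (c : ℂ) (x : V) (hc : c ≠ 0) (hx : x ≠ 0) (j k : Fin 3) :
    A.1 (c • x) j k = (c * conj c)⁻¹ * A.1 x j k := by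
  rw [A.2.2.2.1 c x hc hx, ← Complex.mul_conj]; rfl

theorem RD_AFF_hom (c : ℂ) (x : V) (hc : c ≠ 0) (hx : x ≠ 0) :
    RD_AFF 𝓕 A.1 (c • x) = (c * conj c)⁻¹ * (c * conj c) ^ 𝓕.deg * RD_AFF 𝓕 A.1 x := by
  unfold RD_AFF
  rw [Finset.mul_sum]
  refine Finset.sum_congr rfl fun j _ => ?_
  rw [Finset.mul_sum]
  refine Finset.sum_congr rfl fun k _ => ?_
  rw [RD_A_hom A c x hc hx, RD_vec_hom, RD_vec_hom, map_mul, map_pow, mul_pow]
  ring

theorem RD_dens_hom (c : ℂ) (x : V) (hc : c ≠ 0) (hx : x ≠ 0) :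
    (nsq (c • x) : ℂ) ^ 2 * 𝓕.dens A.1 (c • x) = (nsq x : ℂ) ^ 2 * 𝓕.dens A.1 x := by
  have hc' : conj c ≠ 0 := by simpa using hc
  have h1 : 𝓕.dens A.1 (c • x) = RD_AFF 𝓕 A.1 (c • x) / (nsq (𝓕.alpha (c • x)) : ℂ) := rfl
  have h2 : 𝓕.dens A.1 x = RD_AFF 𝓕 A.1 x / (nsq (𝓕.alpha x) : ℂ) := rfl
  rw [h1, h2, RD_AFF_hom 𝓕 A c x hc hx, RD_e_hom, RD_N_hom, pow_succ (c * conj c) 𝓕.deg]
  by_cases he : (nsq (𝓕.alpha x) : ℂ) = 0
  · rw [he]; simp
  · field_simp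

theorem RD_c_hom (c : ℂ) (x : V) (hc : c ≠ 0) (hx : x ≠ 0) (k : Fin 3) :
    c ^ (𝓕.deg + 1) * RD_c 𝓕 A.1 (c • x) k = (c * conj c)⁻¹ * RD_c 𝓕 A.1 x k := by
  have hc' : conj c ≠ 0 := by simpa using hc
  unfold RD_c
  have h1 : ∑ i, conj (𝓕.alpha (c • x) i) * A.1 (c • x) i k
      = (conj c) ^ (𝓕.deg + 1) * (c * conj c)⁻¹ * ∑ i, conj (𝓕.alpha x i) * A.1 x i k := by
    rw [Finset.mul_sum]
    refine Finset.sum_congr rfl fun i _ => ?_
    rw [RD_A_hom A c x hc hx, RD_alpha_hom, map_mul, map_pow]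
    ring
  rw [h1, RD_AFF_hom 𝓕 A c x hc hx, RD_e_hom, RD_N_hom, RD_alpha_hom, map_mul, map_pow,
    mul_pow c (conj c) (𝓕.deg + 1), mul_pow c (conj c) 𝓕.deg]
  by_cases he : (nsq (𝓕.alpha x) : ℂ) = 0
  · rw [he]; simp
  · field_simp
    ring

theorem RD_d_hom (c : ℂ) (x : V) (hc : c ≠ 0) (hx : x ≠ 0) (j : Fin 3) :
    (conj c) ^ (𝓕.deg + 1) * RD_d 𝓕 A.1 (c • x) j = (c * conj c)⁻¹ * RD_d 𝓕 A.1 x j := by
  have hc' : conj c ≠ 0 := by simpa using hc
  unfold RD_d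
  have h1 : ∑ i, A.1 (c • x) j i * 𝓕.alpha (c • x) i
      = c ^ (𝓕.deg + 1) * (c * conj c)⁻¹ * ∑ i, A.1 x j i * 𝓕.alpha x i := by
    rw [Finset.mul_sum]
    refine Finset.sum_congr rfl fun i _ => ?_
    rw [RD_A_hom A c x hc hx, RD_alpha_hom]
    ring
  have h2 : ∑ i, ∑ l, conj (𝓕.alpha (c • x) i) * A.1 (c • x) i l * 𝓕.alpha (c • x) l
      = (c * conj c) ^ (𝓕.deg + 1) * (c * conj c)⁻¹ *
        ∑ i, ∑ l, conj (𝓕.alpha x i) * A.1 x i l * 𝓕.alpha x l := by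
    rw [Finset.mul_sum]
    refine Finset.sum_congr rfl fun i _ => ?_
    rw [Finset.mul_sum]
    refine Finset.sum_congr rfl fun l _ => ?_
    rw [RD_A_hom A c x hc hx, RD_alpha_hom, RD_alpha_hom, map_mul, map_pow, mul_pow]
    ring
  rw [h1, h2, RD_e_hom, RD_alpha_hom, mul_pow c (conj c) (𝓕.deg + 1)]
  by_cases he : (nsq (𝓕.alpha x) : ℂ) = 0
  · rw [he]; simp
  · field_simp

/-! ### basic -/

theorem RD_c_basic (x : V) (hx : x ≠ 0) : ∑ k, RD_c 𝓕 A.1 x k * conj (x k) = 0 := by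
  unfold RD_c
  have h1 : ∑ k, (∑ i, conj (𝓕.alpha x i) * A.1 x i k) * conj (x k) = 0 := by
    simp_rw [Finset.sum_mul]
    rw [Finset.sum_comm]
    refine Finset.sum_eq_zero fun i _ => ?_
    have := (A.2.2.2.2 x hx).2 i
    calc ∑ k, conj (𝓕.alpha x i) * A.1 x i k * conj (x k)
        = conj (𝓕.alpha x i) * ∑ k, A.1 x i k * conj (x k) := by
          rw [Finset.mul_sum]
          exact Finset.sum_congr rfl fun k _ => by ring
      _ = 0 := by rw [this, mul_zero]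
  have h2 : ∑ k, conj (𝓕.alpha x k) * conj (x k) = 0 := by
    have := congrArg conj (sum_mul_alpha 𝓕 x)
    rw [map_sum, map_zero] at this
    rw [← this]
    refine Finset.sum_congr rfl fun k _ => ?_
    rw [map_mul]
    ring
  calc _ = (∑ k, (∑ i, conj (𝓕.alpha x i) * A.1 x i k) * conj (x k)) / (nsq (𝓕.alpha x) : ℂ)
        - RD_AFF 𝓕 A.1 x * (nsq x : ℂ) / (nsq (𝓕.alpha x) : ℂ) ^ 2 *
          ∑ k, conj (𝓕.alpha x k) * conj (x k) := by
        rw [Finset.sum_div, Finset.mul_sum, ← Finset.sum_sub_distrib]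
        exact Finset.sum_congr rfl fun k _ => by ring
    _ = 0 := by rw [h1, h2]; simp

theorem RD_d_basic (x : V) (hx : x ≠ 0) : ∑ j, x j * RD_d 𝓕 A.1 x j = 0 := by
  unfold RD_d
  have h1 : ∑ j, x j * (∑ i, A.1 x j i * 𝓕.alpha x i) = 0 := by
    simp_rw [Finset.mul_sum]
    rw [Finset.sum_comm]
    refine Finset.sum_eq_zero fun i _ => ?_
    have := (A.2.2.2.2 x hx).1 i
    calc ∑ j, x j * (A.1 x j i * 𝓕.alpha x i)
        = (∑ j, x j * A.1 x j i) * 𝓕.alpha x i := by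
          rw [Finset.sum_mul]
          exact Finset.sum_congr rfl fun k _ => by ring
      _ = 0 := by rw [this, zero_mul]
  generalize (∑ i, ∑ l, conj (𝓕.alpha x i) * A.1 x i l * 𝓕.alpha x l) = S
  calc _ = (∑ j, x j * (∑ i, A.1 x j i * 𝓕.alpha x i)) / (nsq (𝓕.alpha x) : ℂ)
        - S / (nsq (𝓕.alpha x) : ℂ) ^ 2 * ∑ j, x j * 𝓕.alpha x j := by
        rw [Finset.sum_div, Finset.mul_sum, ← Finset.sum_sub_distrib]
        exact Finset.sum_congr rfl fun k _ => by ring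
    _ = 0 := by rw [h1, sum_mul_alpha]; simp

end smooth

theorem directed_reduce (𝓕 : Foliation) (T : PosCurrent) (hT : T.Directed 𝓕) (A : Form11)
    (χ : V → ℝ) (hχ : IsFun (fun x => (χ x : ℂ))) (δ : ℝ) (hδ : 0 < δ)
    (hsupp : ∀ x : V, x ≠ 0 → nsq (𝓕.alpha x) ≤ δ * nsq x ^ (𝓕.deg + 1) → χ x = 0)
    (u : V → ℂ) (hu : ∀ x : V, x ≠ 0 → u x = (χ x : ℂ) * (nsq x : ℂ) ^ 2 * 𝓕.dens A.1 x) :
    IsFun u ∧ ∀ B D : Form11, (∀ x : V, x ≠ 0 → B.1 x = (χ x : ℂ) • A.1 x) →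
      (∀ x : V, x ≠ 0 → D.1 x = u x • fubiniStudy x) → T.toLin B = T.toLin D := by
  have hχ0 : ∀ x : V, x ≠ 0 → nsq (𝓕.alpha x) = 0 → χ x = 0 := by
    intro x hx h
    apply hsupp x hx
    rw [h]
    have := nsq_pos hx
    positivity
  constructor
  · constructor
    · have h1 := RD_cut 𝓕 χ hχ δ hδ hsupp (fun x => (nsq x : ℂ) ^ 2 * 𝓕.dens A.1 x)
        (((RD_N_smooth 𝓕).pow 2).mul (RD_dens_smooth 𝓕 A))
      refine h1.congr fun x hx => ?_
      rw [hu x hx]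
      ring
    · intro c x hc hx
      have hcx : c • x ≠ 0 := smul_ne_zero hc hx
      have h2 : (χ (c • x) : ℂ) = χ x := hχ.hom c x hc hx
      rw [hu x hx, hu _ hcx, h2, mul_assoc, mul_assoc, RD_dens_hom 𝓕 A c x hc hx]
  · intro B D hB hD
    classical
    -- the form `G1`
    let cc : V → V := fun x k => (χ x : ℂ) * RD_c 𝓕 A.1 x k
    let dd : V → V := fun x j => (χ x : ℂ) * RD_d 𝓕 A.1 x j
    have hcc : ∀ k, ContDiffOn ℝ ∞ (fun x => cc x k) {0}ᶜ := fun k =>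
      RD_cut 𝓕 χ hχ δ hδ hsupp _ (RD_c_smooth 𝓕 A k)
    have hdd : ∀ k, ContDiffOn ℝ ∞ (fun x => dd x k) {0}ᶜ := fun k =>
      RD_cut 𝓕 χ hχ δ hδ hsupp _ (RD_d_smooth 𝓕 A k)
    have hα : ∀ j, ContDiffOn ℝ ∞ (fun x => 𝓕.alpha x j) ({0}ᶜ : Set V) := fun j =>
      (RD_alpha_smooth 𝓕 j).contDiffOn
    have hG1 : (fun x => if x = 0 then 0 else Matrix.vecMulVec (𝓕.alpha x) (cc x)) ∈ Form11 := by
      refine ⟨fun j k => ?_, by simp, fun c x hc hx => ?_, fun x hx => ⟨fun k => ?_, fun j => ?_⟩⟩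
      · refine ((hα j).mul (hcc k)).congr fun x hx => ?_
        have hx0 : x ≠ 0 := hx
        simp only [if_neg hx0, Matrix.vecMulVec_apply]
      · have hcx : c • x ≠ 0 := smul_ne_zero hc hx
        simp only [if_neg hcx, if_neg hx]
        ext j k
        have h2 : (χ (c • x) : ℂ) = χ x := hχ.hom c x hc hx
        simp only [Matrix.vecMulVec_apply, Matrix.smul_apply, smul_eq_mul, cc]
        rw [h2, RD_alpha_hom, ← Complex.mul_conj]
        have h3 := RD_c_hom 𝓕 A c x hc hx k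
        linear_combination (𝓕.alpha x j * (χ x : ℂ)) * h3
      · simp only [if_neg hx, Matrix.vecMulVec_apply]
        calc ∑ j, x j * (𝓕.alpha x j * cc x k) = (∑ j, x j * 𝓕.alpha x j) * cc x k := by
              rw [Finset.sum_mul]
              exact Finset.sum_congr rfl fun j _ => by ring
          _ = 0 := by rw [sum_mul_alpha, zero_mul]
      · simp only [if_neg hx, Matrix.vecMulVec_apply, cc]
        calc ∑ k, 𝓕.alpha x j * ((χ x : ℂ) * RD_c 𝓕 A.1 x k) * conj (x k)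
            = 𝓕.alpha x j * (χ x : ℂ) * ∑ k, RD_c 𝓕 A.1 x k * conj (x k) := by
              rw [Finset.mul_sum]
              exact Finset.sum_congr rfl fun j _ => by ring
          _ = 0 := by rw [RD_c_basic 𝓕 A x hx, mul_zero]
    have hG2 : (fun x => if x = 0 then 0 else
        Matrix.vecMulVec (dd x) (fun k => conj (𝓕.alpha x k))) ∈ Form11 := by
      refine ⟨fun j k => ?_, by simp, fun c x hc hx => ?_, fun x hx => ⟨fun k => ?_, fun j => ?_⟩⟩
      · refine ((hdd j).mul (RD_conj_smooth (hα k))).congr fun x hx => ?_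
        have hx0 : x ≠ 0 := hx
        simp only [if_neg hx0, Matrix.vecMulVec_apply]
      · have hcx : c • x ≠ 0 := smul_ne_zero hc hx
        simp only [if_neg hcx, if_neg hx]
        ext j k
        have h2 : (χ (c • x) : ℂ) = χ x := hχ.hom c x hc hx
        simp only [Matrix.vecMulVec_apply, Matrix.smul_apply, smul_eq_mul, dd]
        rw [h2, RD_alpha_hom, ← Complex.mul_conj, map_mul, map_pow]
        have h3 := RD_d_hom 𝓕 A c x hc hx j
        linear_combination (conj (𝓕.alpha x k) * (χ x : ℂ)) * h3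
      · simp only [if_neg hx, Matrix.vecMulVec_apply, dd]
        calc ∑ j, x j * ((χ x : ℂ) * RD_d 𝓕 A.1 x j * conj (𝓕.alpha x k))
            = (χ x : ℂ) * conj (𝓕.alpha x k) * ∑ j, x j * RD_d 𝓕 A.1 x j := by
              rw [Finset.mul_sum]
              exact Finset.sum_congr rfl fun j _ => by ring
          _ = 0 := by rw [RD_d_basic 𝓕 A x hx, mul_zero]
      · simp only [if_neg hx, Matrix.vecMulVec_apply]
        have h2 : ∑ k, conj (𝓕.alpha x k) * conj (x k) = 0 := by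
          have := congrArg conj (sum_mul_alpha 𝓕 x)
          rw [map_sum, map_zero] at this
          rw [← this]
          refine Finset.sum_congr rfl fun k _ => ?_
          rw [map_mul]
          ring
        calc ∑ k, dd x j * conj (𝓕.alpha x k) * conj (x k)
            = dd x j * ∑ k, conj (𝓕.alpha x k) * conj (x k) := by
              rw [Finset.mul_sum]
              exact Finset.sum_congr rfl fun j _ => by ring
          _ = 0 := by rw [h2, mul_zero]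
    let G1 : Form11 := ⟨_, hG1⟩
    let G2 : Form11 := ⟨_, hG2⟩
    have hcc' : ContDiffOn ℝ ∞ cc {0}ᶜ := contDiffOn_pi.2 hcc
    have hdd' : ContDiffOn ℝ ∞ (fun x k => conj (dd x k)) ({0}ᶜ : Set V) :=
      contDiffOn_pi.2 fun k => RD_conj_smooth (hdd k)
    have t1 : T.toLin G1 = 0 := by
      refine hT cc G1 hcc' fun x hx => ?_
      change (if x = 0 then (0 : Matrix (Fin 3) (Fin 3) ℂ) else _) = _
      rw [if_neg hx]
    have t2 : T.toLin G2 = 0 := by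
      obtain ⟨G2', hG2'⟩ := exists_adj G2
      have h1 : T.toLin G2' = 0 := by
        refine hT _ G2' hdd' fun x hx => ?_
        rw [hG2' x]
        change (if x = 0 then (0 : Matrix (Fin 3) (Fin 3) ℂ) else _).conjTranspose = _
        rw [if_neg hx]
        ext j k
        simp only [Matrix.conjTranspose_apply, Matrix.vecMulVec_apply, star_mul']
        simp [mul_comm]
      have h2 := toLin_adj T G2 G2' hG2'
      rw [h1] at h2
      have h3 := congrArg conj h2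
      rw [map_zero, Complex.conj_conj] at h3
      exact h3.symm
    have hdec : B = D + G1 + G2 := by
      apply Form11.ext_off
      intro x hx
      change B.1 x = D.1 x + (if x = 0 then (0 : Matrix (Fin 3) (Fin 3) ℂ) else _)
        + (if x = 0 then (0 : Matrix (Fin 3) (Fin 3) ℂ) else _)
      rw [if_neg hx, if_neg hx, hB x hx, hD x hx, hu x hx]
      ext j k
      simp only [Matrix.add_apply, Matrix.smul_apply, Matrix.vecMulVec_apply, smul_eq_mul, cc, dd]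
      by_cases he : nsq (𝓕.alpha x) = 0
      · rw [hχ0 x hx he]
        simp
      · have hη : 𝓕.alpha x ≠ 0 := fun h => he (nsq_eq_zero.2 h)
        have h3 : nsq (𝓕.alpha x) = nsq x * nsq (𝓕.vec x)
            - Complex.normSq (herm (𝓕.vec x) x) := nsq_cross x (𝓕.vec x)
        have key := form_decomp x (𝓕.alpha x) (𝓕.vec x) (A.1 x) hx hη (sum_mul_alpha 𝓕 x)
          (sum_vec_mul_alpha 𝓕 x) h3 (A.2.2.2.2 x hx).1 (A.2.2.2.2 x hx).2 j k
        have e1 : 𝓕.dens A.1 x = (∑ j, ∑ k, A.1 x j k * 𝓕.vec x j * conj (𝓕.vec x k))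
          / (nsq (𝓕.alpha x) : ℂ) := rfl
        have e2 : RD_c 𝓕 A.1 x k = (∑ i, conj (𝓕.alpha x i) * A.1 x i k) / (nsq (𝓕.alpha x) : ℂ)
          - (∑ j, ∑ k, A.1 x j k * 𝓕.vec x j * conj (𝓕.vec x k)) * (nsq x : ℂ) /
            (nsq (𝓕.alpha x) : ℂ) ^ 2 * conj (𝓕.alpha x k) := rfl
        have e3 : RD_d 𝓕 A.1 x j = (∑ i, A.1 x j i * 𝓕.alpha x i) / (nsq (𝓕.alpha x) : ℂ)
          - (∑ i, ∑ l, conj (𝓕.alpha x i) * A.1 x i l * 𝓕.alpha x l) /
            (nsq (𝓕.alpha x) : ℂ) ^ 2 * 𝓕.alpha x j := rfl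
        rw [e1, e2, e3]
        linear_combination (χ x : ℂ) * key
    rw [hdec, map_add, map_add, t1, t2, add_zero, add_zero]

end Pool.Agent.H24.CU
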