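import Pool.Agent.H24.CU.FRM
import Pool.Agent.H76.FL.LA

/-!
# Row RSP (restriction of the vector field to a chart)

`x = chi p b c q`, `c₀ = ev (res0) q`, `A = ev (resA) q`, `B = ev (resB) q`.
PROOFS.  `ev_res`: induction on the polynomial (`MvPolynomial.induction_on`) or `aeval`/`eval` composition: `ev` of
`C (p j) + X 0 * C (b j) + X 1 * C (c j)` at `q` is `chi p b c q j`.
`vec_chi`: `ev (∑ C (conj (b j)) * res (F j)) q = ∑ conj (b j) F_j(x) = herm (vec x) b` etc.; `Frame.expand` for `vec x`: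
`vec x = c₀ p + herm(vec x, b) b + herm(vec x, c) c = c₀ • x + (herm(vec x,b) - q_1 c₀) b + (..) c`.
`nsq_alpha_chi`: `alpha x = x × vec x = x × (A b + B c)` (`x × x = 0`) and `Frame.nsq_cross_chi`.
`alpha_zero_iff`: from it.
`div_res`: chain rule `pderiv 0 (res f) = ∑_k C (b k) * res (pderiv k f)`, `pderiv 1 (res f) = ∑_k C (c k) * res (pderiv k f)`
(induction on `f`).  With `D_jk = eval x (pderiv k (F j))`:
`ev (divp A B) q = ∑_jk conj(b_j) b_k D_jk - c₀ - q_1 ∑ conj(p_j) b_k D_jk + ∑ conj(c_j) c_k D_jk - c₀ - q_2 ∑ conj(p_j) c_k D_jk`;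
`q_1 b_k + q_2 c_k = x_k - p_k`, Euler `∑_k x_k D_jk = deg F_j(x)` (`MvPolynomial.IsHomogeneous.sum_X_mul_pderiv`-like
lemma; or by induction on monomials), and `Frame.resolution`: total
`∑_jk δ_jk D_jk - (deg + 2) c₀`.
`dv_chi`: `herm (vec x) x = c₀ nsq x + A herm b x + B herm c x`, `herm b x = conj q_1`, `herm c x = conj q_2`.
`dv_wt`: `dv (t y)`: `∑ eval (t y) (pderiv j (F j)) = t^(deg-1) ∑..` for `deg ≥ 1` (`pderiv` of a homogeneous polynomial is
homogeneous of degree `deg - 1`), `= 0` if `deg = 0`; the second part has weight `t^deg conj t/|t|^2 = t^(deg) / t`.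
So `dv (t y) = t^deg / t * dv y`, and `normSq` of it.  `Wt` for `normSq (dv y)`.
-/

namespace Pool.Agent.H24.CU

open MvPolynomial
open scoped ComplexConjugate

variable {𝓕 : Foliation} {p b c : V}

theorem ev_res (p b c : V) (f : MvPolynomial (Fin 3) ℂ) (q : ℂ × ℂ) :
    FC76.ev (res p b c f) q = MvPolynomial.eval (chi p b c q) f := by
  induction f using MvPolynomial.induction_on with
  | C a =>
    have h : res p b c (C a) = C a := by
      rw [← MvPolynomial.algebraMap_eq, ← MvPolynomial.algebraMap_eq]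
      exact AlgHom.commutes _ _
    rw [h, FC76.ev_C, eval_C]
  | add f g hf hg =>
    have h : res p b c (f + g) = res p b c f + res p b c g := map_add _ _ _
    rw [h, FC76.ev_add, hf, hg, map_add]
  | mul_X f i hf =>
    have h : res p b c (f * X i) = res p b c f * (C (p i) + X 0 * C (b i) + X 1 * C (c i)) := by
      unfold res
      rw [map_mul, aeval_X]
    rw [h, FC76.ev_mul, hf, map_mul, eval_X, FC76.ev_add, FC76.ev_add, FC76.ev_mul, FC76.ev_mul,
      FC76.ev_C, FC76.ev_C, FC76.ev_C, FC76.ev_X0, FC76.ev_X1]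
    rfl

theorem RSP_ev_sum (g : Fin 3 → FC76.P2) (q : ℂ × ℂ) :
    FC76.ev (∑ j, g j) q = ∑ j, FC76.ev (g j) q := by
  rw [Fin.sum_univ_three, Fin.sum_univ_three, FC76.ev_add, FC76.ev_add]

theorem RSP_ev0 (𝓕 : Foliation) (p b c d : V) (q : ℂ × ℂ) :
    FC76.ev (∑ j, C (conj (d j)) * res p b c (𝓕.F j)) q = herm (𝓕.vec (chi p b c q)) d := by
  rw [RSP_ev_sum]
  unfold herm
  refine Finset.sum_congr rfl fun j _ => ?_
  rw [FC76.ev_mul, FC76.ev_C, ev_res, mul_comm]
  rfl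

theorem RSP_evA (𝓕 : Foliation) (p b c : V) (q : ℂ × ℂ) :
    FC76.ev (resA 𝓕 p b c) q = herm (𝓕.vec (chi p b c q)) b - q.1 * FC76.ev (res0 𝓕 p b c) q := by
  unfold resA
  rw [FC76.ev_sub, RSP_ev0, FC76.ev_mul, FC76.ev_X0]

theorem RSP_evB (𝓕 : Foliation) (p b c : V) (q : ℂ × ℂ) :
    FC76.ev (resB 𝓕 p b c) q = herm (𝓕.vec (chi p b c q)) c - q.2 * FC76.ev (res0 𝓕 p b c) q := by
  unfold resB
  rw [FC76.ev_sub, RSP_ev0, FC76.ev_mul, FC76.ev_X1]

theorem Frame.vec_chi (h : Frame p b c) (𝓕 : Foliation) (q : ℂ × ℂ) :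
    𝓕.vec (chi p b c q) = FC76.ev (res0 𝓕 p b c) q • chi p b c q +
      FC76.ev (resA 𝓕 p b c) q • b + FC76.ev (resB 𝓕 p b c) q • c := by
  have h0 : FC76.ev (res0 𝓕 p b c) q = herm (𝓕.vec (chi p b c q)) p := RSP_ev0 𝓕 p b c p q
  rw [RSP_evA, RSP_evB]
  conv_lhs => rw [h.expand (𝓕.vec (chi p b c q)), ← h0]
  have hx : chi p b c q = p + q.1 • b + q.2 • c := rfl
  obtain ⟨v, hv⟩ : ∃ v, v = 𝓕.vec (chi p b c q) := ⟨_, rfl⟩
  rw [← hv, hx]
  funext j
  simp only [Pi.add_apply, Pi.smul_apply, smul_eq_mul]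
  ring

theorem Frame.nsq_alpha_chi (h : Frame p b c) (𝓕 : Foliation) (q : ℂ × ℂ) :
    nsq (𝓕.alpha (chi p b c q)) =
      FC76.nsq (FC76.vf (resA 𝓕 p b c) (resB 𝓕 p b c) q) +
        Complex.normSq (q.1 * FC76.ev (resB 𝓕 p b c) q - q.2 * FC76.ev (resA 𝓕 p b c) q) := by
  have h1 : 𝓕.alpha (chi p b c q) = crossProduct (chi p b c q)
      (FC76.ev (resA 𝓕 p b c) q • b + FC76.ev (resB 𝓕 p b c) q • c) := by
    have h2 : 𝓕.alpha (chi p b c q) = crossProduct (chi p b c q) (𝓕.vec (chi p b c q)) := rfl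
    rw [h2]
    conv_lhs => rw [h.vec_chi 𝓕 q, add_assoc, map_add, map_smul, cross_self, smul_zero, zero_add]
  rw [h1, h.nsq_cross_chi]
  unfold FC76.nsq FC76.vf
  rw [Complex.normSq_eq_norm_sq (FC76.ev (resA 𝓕 p b c) q),
    Complex.normSq_eq_norm_sq (FC76.ev (resB 𝓕 p b c) q)]

theorem Frame.nsq_alpha_bounds (h : Frame p b c) (𝓕 : Foliation) (q : ℂ × ℂ) (hq : ‖q‖ ≤ 1) :
    FC76.nsq (FC76.vf (resA 𝓕 p b c) (resB 𝓕 p b c) q) ≤ nsq (𝓕.alpha (chi p b c q)) ∧
      nsq (𝓕.alpha (chi p b c q)) ≤ 3 * FC76.nsq (FC76.vf (resA 𝓕 p b c) (resB 𝓕 p b c) q) := by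
  rw [h.nsq_alpha_chi]
  have hq1 : ‖q.1‖ ≤ 1 := (norm_fst_le q).trans hq
  have hq2 : ‖q.2‖ ≤ 1 := (norm_snd_le q).trans hq
  constructor
  · have := Complex.normSq_nonneg
      (q.1 * FC76.ev (resB 𝓕 p b c) q - q.2 * FC76.ev (resA 𝓕 p b c) q)
    linarith
  · rw [Complex.normSq_eq_norm_sq]
    unfold FC76.nsq FC76.vf
    simp only
    obtain ⟨A, hA⟩ : ∃ A, A = FC76.ev (resA 𝓕 p b c) q := ⟨_, rfl⟩
    obtain ⟨B, hB⟩ : ∃ B, B = FC76.ev (resB 𝓕 p b c) q := ⟨_, rfl⟩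
    rw [← hA, ← hB]
    have h1 : ‖q.1 * B - q.2 * A‖ ≤ ‖B‖ + ‖A‖ := by
      refine (norm_sub_le _ _).trans ?_
      rw [norm_mul, norm_mul]
      have hA0 := norm_nonneg A
      have hB0 := norm_nonneg B
      nlinarith
    have h2 := norm_nonneg (q.1 * B - q.2 * A)
    have hA0 := norm_nonneg A
    have hB0 := norm_nonneg B
    have h3 : ‖q.1 * B - q.2 * A‖ ^ 2 ≤ (‖B‖ + ‖A‖) ^ 2 := pow_le_pow_left₀ h2 h1 2
    nlinarith [sq_nonneg (‖A‖ - ‖B‖)]

theorem Frame.alpha_zero_iff (h : Frame p b c) (𝓕 : Foliation) (q : ℂ × ℂ) :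
    𝓕.alpha (chi p b c q) = 0 ↔
      FC76.ev (resA 𝓕 p b c) q = 0 ∧ FC76.ev (resB 𝓕 p b c) q = 0 := by
  rw [← nsq_eq_zero, h.nsq_alpha_chi]
  unfold FC76.nsq FC76.vf
  simp only
  obtain ⟨A, hA⟩ : ∃ A, A = FC76.ev (resA 𝓕 p b c) q := ⟨_, rfl⟩
  obtain ⟨B, hB⟩ : ∃ B, B = FC76.ev (resB 𝓕 p b c) q := ⟨_, rfl⟩
  rw [← hA, ← hB]
  constructor
  · intro h0
    have h1 := Complex.normSq_nonneg (q.1 * B - q.2 * A)
    have h2 := sq_nonneg ‖A‖
    have h3 := sq_nonneg ‖B‖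
    have h4 : ‖A‖ ^ 2 = 0 := by linarith
    have h5 : ‖B‖ ^ 2 = 0 := by linarith
    exact ⟨norm_eq_zero.1 (pow_eq_zero_iff (two_ne_zero) |>.1 h4),
      norm_eq_zero.1 (pow_eq_zero_iff (two_ne_zero) |>.1 h5)⟩
  · rintro ⟨rfl, rfl⟩
    simp

theorem RSP_pd (i : Fin 2) (d : V) (hd : ∀ j, d j = if i = 0 then b j else c j)
    (f : MvPolynomial (Fin 3) ℂ) (q : ℂ × ℂ) :
    FC76.ev (pderiv i (res p b c f)) q =
      ∑ k, d k * MvPolynomial.eval (chi p b c q) (pderiv k f) := by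
  induction f using MvPolynomial.induction_on with
  | C a =>
    have h : res p b c (C a) = C a := by
      rw [← MvPolynomial.algebraMap_eq, ← MvPolynomial.algebraMap_eq]
      exact AlgHom.commutes _ _
    rw [h, pderiv_C]
    simp only [pderiv_C, map_zero, mul_zero, Finset.sum_const_zero]
    unfold FC76.ev
    rw [map_zero]
  | add f g hf hg =>
    have h : res p b c (f + g) = res p b c f + res p b c g := map_add _ _ _
    rw [h, map_add, FC76.ev_add, hf, hg, ← Finset.sum_add_distrib]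
    refine Finset.sum_congr rfl fun k _ => ?_
    rw [map_add, map_add]
    ring
  | mul_X f l hf =>
    have h : res p b c (f * X l) = res p b c f * (C (p l) + X 0 * C (b l) + X 1 * C (c l)) := by
      unfold res
      rw [map_mul, aeval_X]
    have h2 : FC76.ev (pderiv i (C (p l) + X 0 * C (b l) + X 1 * C (c l) : FC76.P2)) q = d l := by
      rw [hd]
      fin_cases i
      · simp [pderiv_X, FC76.ev]
      · simp [pderiv_X, FC76.ev]
    have h3 : FC76.ev (C (p l) + X 0 * C (b l) + X 1 * C (c l)) q = chi p b c q l := by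
      rw [FC76.ev_add, FC76.ev_add, FC76.ev_mul, FC76.ev_mul,
        FC76.ev_C, FC76.ev_C, FC76.ev_C, FC76.ev_X0, FC76.ev_X1]
      rfl
    rw [h, pderiv_mul, FC76.ev_add, FC76.ev_mul, FC76.ev_mul, hf, h2, h3, ev_res]
    have h4 : ∀ k, MvPolynomial.eval (chi p b c q) (pderiv k (f * X l)) =
        MvPolynomial.eval (chi p b c q) (pderiv k f) * chi p b c q l +
          MvPolynomial.eval (chi p b c q) f * (if l = k then 1 else 0) := by
      intro k
      rw [pderiv_mul, map_add, map_mul, map_mul, eval_X, pderiv_X]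
      congr 2
      by_cases hlk : l = k
      · subst hlk
        simp
      · simp [hlk]
    simp only [h4, mul_add, Finset.sum_add_distrib, Finset.sum_mul]
    congr 1
    · exact Finset.sum_congr rfl fun k _ => by ring
    · rw [Finset.sum_eq_single l]
      · rw [if_pos rfl]; ring
      · intro k _ hk
        rw [if_neg (Ne.symm hk)]; ring
      · intro hl
        exact absurd (Finset.mem_univ l) hl

theorem RSP_alg (p b c F : V) (D : Fin 3 → Fin 3 → ℂ) (n q1 q2 : ℂ)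
    (hr : ∀ k j, p k * conj (p j) + b k * conj (b j) + c k * conj (c j) = if k = j then 1 else 0)
    (he : ∀ j, ∑ k, (p k + q1 * b k + q2 * c k) * D j k = n * F j) :
    (∑ j, conj (b j) * (∑ k, b k * D j k) - ∑ j, conj (p j) * F j -
        q1 * ∑ j, conj (p j) * (∑ k, b k * D j k)) +
      (∑ j, conj (c j) * (∑ k, c k * D j k) - ∑ j, conj (p j) * F j -
        q2 * ∑ j, conj (p j) * (∑ k, c k * D j k)) =
      ∑ j, D j j - (n + 2) * ∑ j, conj (p j) * F j := by
  have h00 := hr 0 0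
  have h01 := hr 0 1
  have h02 := hr 0 2
  have h10 := hr 1 0
  have h11 := hr 1 1
  have h12 := hr 1 2
  have h20 := hr 2 0
  have h21 := hr 2 1
  have h22 := hr 2 2
  have e0 := he 0
  have e1 := he 1
  have e2 := he 2
  simp only [Fin.sum_univ_three, Fin.isValue, if_true, if_false, Fin.reduceEq] at *
  linear_combination D 0 0 * h00 + D 1 0 * h01 + D 2 0 * h02 + D 0 1 * h10 + D 1 1 * h11 +
    D 2 1 * h12 + D 0 2 * h20 + D 1 2 * h21 + D 2 2 * h22 - conj (p 0) * e0 - conj (p 1) * e1 -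
    conj (p 2) * e2

theorem RSP_pd_sum (i : Fin 2) (d e : V) (hd : ∀ j, d j = if i = 0 then b j else c j)
    (𝓕 : Foliation) (q : ℂ × ℂ) :
    FC76.ev (pderiv i (∑ j, C (conj (e j)) * res p b c (𝓕.F j))) q =
      ∑ j, conj (e j) * ∑ k, d k * MvPolynomial.eval (chi p b c q) (pderiv k (𝓕.F j)) := by
  rw [map_sum, RSP_ev_sum]
  refine Finset.sum_congr rfl fun j _ => ?_
  rw [pderiv_C_mul, FC76.ev_mul, FC76.ev_C, RSP_pd i d hd]

theorem Frame.div_res (h : Frame p b c) (𝓕 : Foliation) (q : ℂ × ℂ) :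
    FC76.ev (FC76.divp (resA 𝓕 p b c) (resB 𝓕 p b c)) q =
      (∑ j, MvPolynomial.eval (chi p b c q) (pderiv j (𝓕.F j))) -
        ((𝓕.deg : ℂ) + 2) * FC76.ev (res0 𝓕 p b c) q := by
  have hb : ∀ j, b j = if (0 : Fin 2) = 0 then b j else c j := fun j => by simp
  have hc : ∀ j, c j = if (1 : Fin 2) = 0 then b j else c j := fun j => by simp
  have h0 : FC76.ev (res0 𝓕 p b c) q = ∑ j, conj (p j) * 𝓕.vec (chi p b c q) j := by
    have := RSP_ev0 𝓕 p b c p q
    unfold herm at this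
    unfold res0
    rw [this]
    exact Finset.sum_congr rfl fun j _ => mul_comm _ _
  have hA : FC76.ev (pderiv 0 (resA 𝓕 p b c)) q =
      ∑ j, conj (b j) * (∑ k, b k * MvPolynomial.eval (chi p b c q) (pderiv k (𝓕.F j))) -
        ∑ j, conj (p j) * 𝓕.vec (chi p b c q) j -
        q.1 * ∑ j, conj (p j) * (∑ k, b k * MvPolynomial.eval (chi p b c q) (pderiv k (𝓕.F j))) := by
    unfold resA
    rw [map_sub, FC76.ev_sub, RSP_pd_sum 0 b b hb, pderiv_mul, pderiv_X_self, one_mul, FC76.ev_add,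
      FC76.ev_mul, FC76.ev_X0, h0]
    unfold res0
    rw [RSP_pd_sum 0 b p hb]
    ring
  have hB : FC76.ev (pderiv 1 (resB 𝓕 p b c)) q =
      ∑ j, conj (c j) * (∑ k, c k * MvPolynomial.eval (chi p b c q) (pderiv k (𝓕.F j))) -
        ∑ j, conj (p j) * 𝓕.vec (chi p b c q) j -
        q.2 * ∑ j, conj (p j) * (∑ k, c k * MvPolynomial.eval (chi p b c q) (pderiv k (𝓕.F j))) := by
    unfold resB
    rw [map_sub, FC76.ev_sub, RSP_pd_sum 1 c c hc, pderiv_mul, pderiv_X_self, one_mul, FC76.ev_add,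
      FC76.ev_mul, FC76.ev_X1, h0]
    unfold res0
    rw [RSP_pd_sum 1 c p hc]
    ring
  have he : ∀ j, ∑ k, (p k + q.1 * b k + q.2 * c k) *
      MvPolynomial.eval (chi p b c q) (pderiv k (𝓕.F j)) = (𝓕.deg : ℂ) * 𝓕.vec (chi p b c q) j := by
    intro j
    have h1 := congrArg (MvPolynomial.eval (chi p b c q)) ((𝓕.hom j).sum_X_mul_pderiv)
    rw [map_sum, map_nsmul, nsmul_eq_mul] at h1
    refine Eq.trans (Finset.sum_congr rfl fun k _ => ?_) h1
    rw [map_mul, eval_X]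
    rfl
  unfold FC76.divp
  rw [FC76.ev_add, hA, hB, h0]
  exact RSP_alg p b c (𝓕.vec (chi p b c q))
    (fun j k => MvPolynomial.eval (chi p b c q) (pderiv k (𝓕.F j))) (𝓕.deg : ℂ) q.1 q.2
    (fun k j => h.resolution k j) he

theorem RSP_herm_conj (x y : V) : herm x y = conj (herm y x) := by
  unfold herm
  rw [map_sum]
  refine Finset.sum_congr rfl fun j _ => ?_
  rw [map_mul, Complex.conj_conj, mul_comm]

theorem RSP_herm_add (x y z : V) : herm (x + y) z = herm x z + herm y z := by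
  unfold herm
  rw [← Finset.sum_add_distrib]
  exact Finset.sum_congr rfl fun j _ => add_mul _ _ _

theorem RSP_herm_smul (t : ℂ) (x z : V) : herm (t • x) z = t * herm x z := by
  unfold herm
  rw [Finset.mul_sum]
  exact Finset.sum_congr rfl fun j _ => by rw [Pi.smul_apply, smul_eq_mul, mul_assoc]

theorem RSP_herm_self (x : V) : herm x x = (nsq x : ℂ) := by
  unfold herm nsq
  push_cast
  exact Finset.sum_congr rfl fun j _ => by rw [Complex.mul_conj]

theorem Frame.dv_chi (h : Frame p b c) (𝓕 : Foliation) (q : ℂ × ℂ) :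
    𝓕.dv (chi p b c q) = FC76.ev (FC76.divp (resA 𝓕 p b c) (resB 𝓕 p b c)) q -
      ((𝓕.deg : ℂ) + 2) * (FC76.ev (resA 𝓕 p b c) q * conj q.1 +
        FC76.ev (resB 𝓕 p b c) q * conj q.2) / (nsq (chi p b c q) : ℂ) := by
  have hN : (nsq (chi p b c q) : ℂ) ≠ 0 := by exact_mod_cast (nsq_pos (h.chi_ne q)).ne'
  obtain ⟨-, hb, hc⟩ := h.herm_chi q
  have h1 : herm (𝓕.vec (chi p b c q)) (chi p b c q) =
      FC76.ev (res0 𝓕 p b c) q * (nsq (chi p b c q) : ℂ) +
        (FC76.ev (resA 𝓕 p b c) q * conj q.1 + FC76.ev (resB 𝓕 p b c) q * conj q.2) := by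
    conv_lhs => rw [h.vec_chi 𝓕 q]
    rw [RSP_herm_add, RSP_herm_add, RSP_herm_smul, RSP_herm_smul, RSP_herm_smul, RSP_herm_self,
      RSP_herm_conj b, RSP_herm_conj c, hb, hc]
    ring
  unfold Foliation.dv
  rw [h.div_res, h1]
  field_simp
  ring

theorem RSP_eval (P : MvPolynomial (Fin 3) ℂ) (n : ℕ) (hP : P.IsHomogeneous n) (c : ℂ)
    (x : V) : MvPolynomial.eval (c • x) P = c ^ n * MvPolynomial.eval x P := by
  rw [MvPolynomial.eval_eq', MvPolynomial.eval_eq', Finset.mul_sum]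
  refine Finset.sum_congr rfl fun d hd => ?_
  have h1 := hP (MvPolynomial.mem_support_iff.1 hd)
  have h2 : ∑ i, d i = n := by
    rw [← h1, Finsupp.weight_apply, Finsupp.sum_fintype _ _ (by simp)]
    simp
  have h3 : ∏ i, (c • x) i ^ d i = c ^ n * ∏ i, x i ^ d i := by
    rw [← h2, ← Finset.prod_pow_eq_pow_sum, ← Finset.prod_mul_distrib]
    refine Finset.prod_congr rfl fun i _ => ?_
    rw [Pi.smul_apply, smul_eq_mul, mul_pow]
  rw [h3]
  ring

theorem RSP_dv_smul (𝓕 : Foliation) {t : ℂ} {y : V} (ht : t ≠ 0) (hy : y ≠ 0) :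
    t * 𝓕.dv (t • y) = t ^ 𝓕.deg * 𝓕.dv y := by
  have h1 : ∀ j, t * MvPolynomial.eval (t • y) (pderiv j (𝓕.F j)) =
      t ^ 𝓕.deg * MvPolynomial.eval y (pderiv j (𝓕.F j)) := by
    intro j
    rcases Nat.eq_zero_or_pos 𝓕.deg with h0 | h0
    · have h2 : (𝓕.F j).totalDegree = 0 := by
        have := (𝓕.hom j).totalDegree_le
        omega
      rw [MvPolynomial.totalDegree_eq_zero_iff_eq_C.1 h2, pderiv_C]
      simp
    · rw [RSP_eval _ _ ((𝓕.hom j).pderiv) t y, ← mul_assoc, ← pow_succ',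
        Nat.sub_add_cancel h0]
  have hN : (nsq y : ℂ) ≠ 0 := by exact_mod_cast (nsq_pos hy).ne'
  have hct : conj t ≠ 0 := (map_ne_zero _).2 ht
  have h2 : herm (𝓕.vec (t • y)) (t • y) = t ^ 𝓕.deg * conj t * herm (𝓕.vec y) y := by
    rw [vec_smul, RSP_herm_smul, RSP_herm_conj, RSP_herm_smul, map_mul, ← RSP_herm_conj]
    ring
  have h3 : ((nsq (t • y) : ℝ) : ℂ) = t * conj t * (nsq y : ℂ) := by
    rw [nsq_smul]
    push_cast
    rw [Complex.mul_conj]
  unfold Foliation.dv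
  rw [mul_sub, mul_sub, Finset.mul_sum, Finset.mul_sum, h2, h3]
  rw [Finset.sum_congr rfl fun j _ => h1 j]
  congr 1
  field_simp

theorem dv_wt (𝓕 : Foliation) : 𝓕.Wt (fun y => ((Complex.normSq (𝓕.dv y) : ℝ) : ℂ)) := by
  intro t y ht hy
  have h := congrArg Complex.normSq (RSP_dv_smul 𝓕 ht hy)
  rw [map_mul, map_mul, map_pow] at h
  have hT : Complex.normSq t ≠ 0 := fun h => ht (Complex.normSq_eq_zero.1 h)
  have h2 : Complex.normSq (𝓕.dv (t • y)) =
      Complex.normSq t ^ 𝓕.deg / Complex.normSq t * Complex.normSq (𝓕.dv y) := by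
    field_simp
    linarith
  show ((Complex.normSq (𝓕.dv (t • y)) : ℝ) : ℂ) = _
  rw [h2]
  push_cast
  ring

theorem measurable_dv (𝓕 : Foliation) : Measurable 𝓕.dv := by
  have h1 : ∀ P : MvPolynomial (Fin 3) ℂ, Continuous fun y : V => MvPolynomial.eval y P :=
    fun P => MvPolynomial.continuous_eval P
  have h2 : Continuous fun y : V => herm (𝓕.vec y) y := by
    unfold herm
    refine continuous_finsetSum _ fun j _ => ?_
    have h3 : Continuous fun y : V => 𝓕.vec y j := h1 (𝓕.F j)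
    exact h3.mul (Complex.continuous_conj.comp (continuous_apply j))
  have h4 : Continuous fun y : V => (nsq y : ℂ) := by
    unfold nsq
    exact Complex.continuous_ofReal.comp
      (continuous_finsetSum _ fun j _ => Complex.continuous_normSq.comp (continuous_apply j))
  have h5 : Continuous fun y : V => ∑ j, MvPolynomial.eval y (pderiv j (𝓕.F j)) :=
    continuous_finsetSum _ fun j _ => h1 _
  have h6 : Measurable fun y : V => ((𝓕.deg : ℂ) + 2) * herm (𝓕.vec y) y / (nsq y : ℂ) :=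
    (h2.measurable.const_mul _).div h4.measurable
  exact h5.measurable.sub h6

end Pool.Agent.H24.CU
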