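import Pool.Agent.H24.CU.FS

/-!
# Row RZ (Riesz representation of the trace measure)

PROOF.  `K := {x : V // nsq x = 1}`, a compact Hausdorff space (closed and bounded subset of `V`;
`|x_j|^2 <= nsq x`).  `E := C(K, ℝ)`.  Domain `D : Submodule ℝ E` := the set of all `f` such that there
is `χ : V → ℝ` with `IsFun (fun x => (χ x : ℂ))` and `f x = χ x` on `K`.
`χ` is determined off `0` by `f`: for `x ≠ 0`, `x = c • x1` with `nsq x1 = 1`, `c = √(nsq x)`,
so `χ x = χ x1`.  For such a `χ` let `A_χ` be the form of `exists_scaled`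
(`A_χ x = χ x • fubiniStudy x` for `x ≠ 0`; unique by `Form11.ext_off`).  Define the linear map
`φ : D → ℝ`, `φ f = (T.toLin A_χ).re` with a chosen `χ` (well defined and linear by uniqueness).
Nonnegative: if `0 ≤ f` on `K` then `0 ≤ χ x` for `x ≠ 0`, so `A_χ x` is positive semidefinite for
all `x` (`fubiniStudy_posSemidef`, at `0` it is the zero matrix) and `T.pos` applies.
Constants are in `D`, and every `y ∈ E` is bounded below (`K` compact), so the hypothesis `dense` of
`riesz_extension` (cone of nonnegative functions as a `PointedCone ℝ E`) holds: there is a linear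
`g : E → ℝ` extending `φ`, nonnegative on nonnegative functions.
Transfer `g` to `Λ : C_c(K, ℝ) →ₚ[ℝ] ℝ` (`CompactlySupportedContinuousMap`, `K` is compact) and put
`μK := RealRMK.rieszMeasure Λ`, finite because `K` is compact and the measure is finite on compacts,
`RealRMK.integral_rieszMeasure`.  `μ := μK.map Subtype.val` (the inclusion is measurable,
`MeasurableEmbedding` or `measurable_subtype_coe`).  Then `μ {x | nsq x ≠ 1} = 0`,
`∫ x, χ x ∂μ = ∫ x : K, χ x ∂μK = φ f = (T.toLin A).re`.  The imaginary part of `T.toLin A` is `0`: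
`χ + C >= 0` off `0` for a constant `C` (bounded on `K`), so `T.pos` gives imaginary part `0` for the
forms of `χ + C` and of `C`, and `A` is the difference.
-/

namespace Pool.Agent.H24.CU

open MeasureTheory
open scoped ComplexConjugate ComplexOrder ContDiff

/-- `μ` is the trace measure of `T`. -/
def IsRiesz (T : PosCurrent) (μ : Measure V) : Prop :=
  ∀ (χ : V → ℝ) (A : Form11), IsFun (fun x => (χ x : ℂ)) →
    (∀ x : V, x ≠ 0 → A.1 x = (χ x : ℂ) • fubiniStudy x) →
    T.toLin A = ((∫ x, χ x ∂μ : ℝ) : ℂ)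

/-- abstract form: extension and representation of a positive functional -/
theorem RZ_abs {X : Type*} [TopologicalSpace X] [T2Space X] [CompactSpace X] [MeasurableSpace X]
    [BorelSpace X] (D : Submodule ℝ C(X, ℝ)) (φ : D →ₗ[ℝ] ℝ)
    (hpos : ∀ f : D, (∀ x, 0 ≤ f.1 x) → 0 ≤ φ f)
    (hone : ∀ c : ℝ, ContinuousMap.const X c ∈ D) :
    ∃ μ : Measure X, IsFiniteMeasure μ ∧ ∀ f : D, ∫ x, f.1 x ∂μ = φ f := by
  let s : PointedCone ℝ C(X, ℝ) :=
    { carrier := {f | ∀ x, 0 ≤ f x}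
      add_mem' := fun hf hg x => add_nonneg (hf x) (hg x)
      zero_mem' := fun x => le_rfl
      smul_mem' := fun c f hf x => mul_nonneg c.2 (hf x) }
  obtain ⟨g, hg1, hg2⟩ := riesz_extension s ⟨D, φ⟩ (fun f hf => hpos f hf) (by
    intro y
    refine ⟨⟨ContinuousMap.const X ‖y‖, hone _⟩, fun x => ?_⟩
    have h1 := y.norm_coe_le_norm x
    rw [Real.norm_eq_abs] at h1
    have h2 := neg_abs_le (y x)
    show 0 ≤ ‖y‖ + y x
    linarith)
  let Λ : CompactlySupportedContinuousMap X ℝ →ₚ[ℝ] ℝ := PositiveLinearMap.mk₀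
    { toFun := fun h => g h.toContinuousMap
      map_add' := fun a b => g.map_add a.toContinuousMap b.toContinuousMap
      map_smul' := fun c a => g.map_smul c a.toContinuousMap } (fun h hh => hg2 _ hh)
  refine ⟨RealRMK.rieszMeasure Λ, inferInstance, fun f => ?_⟩
  have h3 := RealRMK.integral_rieszMeasure Λ ⟨f.1, HasCompactSupport.of_compactSpace _⟩
  exact h3.trans (hg1 f)

/-- the unit sphere -/
abbrev RZ_K : Type := {x : V // nsq x = 1}

theorem RZ_nsq_continuous : Continuous nsq :=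
  continuous_finsetSum _ fun j _ => Complex.continuous_normSq.comp (continuous_apply j)

theorem RZ_isCompact : IsCompact {x : V | nsq x = 1} := by
  refine Metric.isCompact_of_isClosed_isBounded
    (isClosed_eq RZ_nsq_continuous continuous_const) ?_
  rw [isBounded_iff_forall_norm_le]
  refine ⟨1, fun x hx => ?_⟩
  rw [pi_norm_le_iff_of_nonneg zero_le_one]
  intro j
  have h1 : Complex.normSq (x j) ≤ nsq x :=
    Finset.single_le_sum (f := fun j => Complex.normSq (x j)) (fun j _ => Complex.normSq_nonneg _)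
      (Finset.mem_univ j)
  rw [show nsq x = 1 from hx, Complex.normSq_eq_norm_sq] at h1
  nlinarith [norm_nonneg (x j)]

instance RZ_compact : CompactSpace RZ_K := isCompact_iff_compactSpace.1 RZ_isCompact

theorem RZ_ne {x : V} (hx : nsq x = 1) : x ≠ 0 := by
  rintro rfl
  rw [nsq_eq_zero.2 rfl] at hx
  exact zero_ne_one hx

/-- normalisation -/
noncomputable def RZ_nz (x : V) (hx : x ≠ 0) : RZ_K :=
  ⟨(((Real.sqrt (nsq x))⁻¹ : ℝ) : ℂ) • x, by
    rw [nsq_smul, Complex.normSq_ofReal, ← mul_inv, Real.mul_self_sqrt (nsq_nonneg x),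
      inv_mul_cancel₀ (nsq_pos hx).ne']⟩

theorem RZ_fun_nz {χ : V → ℝ} (hχ : IsFun (fun x => (χ x : ℂ))) (x : V) (hx : x ≠ 0) :
    χ (RZ_nz x hx).1 = χ x := by
  have h1 : (((Real.sqrt (nsq x))⁻¹ : ℝ) : ℂ) ≠ 0 := by
    rw [Ne, Complex.ofReal_eq_zero, inv_eq_zero, Real.sqrt_eq_zero (nsq_nonneg x)]
    exact (nsq_pos hx).ne'
  have h2 := hχ.hom _ x h1 hx
  exact_mod_cast h2

/-- the form with the given values on the sphere -/
noncomputable def RZ_psi (f : C(RZ_K, ℝ)) : V → Matrix (Fin 3) (Fin 3) ℂ := by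
  classical
  exact fun x => if h : x = 0 then 0 else ((f (RZ_nz x h) : ℝ) : ℂ) • fubiniStudy x

theorem RZ_psi_zero (f : C(RZ_K, ℝ)) : RZ_psi f 0 = 0 := by
  simp [RZ_psi]

theorem RZ_psi_ne (f : C(RZ_K, ℝ)) {x : V} (h : x ≠ 0) :
    RZ_psi f x = ((f (RZ_nz x h) : ℝ) : ℂ) • fubiniStudy x := by
  simp [RZ_psi, h]

theorem RZ_psi_add (f g : C(RZ_K, ℝ)) : RZ_psi (f + g) = RZ_psi f + RZ_psi g := by
  funext x
  by_cases h : x = 0
  · subst h
    rw [Pi.add_apply, RZ_psi_zero, RZ_psi_zero, RZ_psi_zero, add_zero]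
  · rw [Pi.add_apply, RZ_psi_ne _ h, RZ_psi_ne _ h, RZ_psi_ne _ h, ContinuousMap.add_apply,
      Complex.ofReal_add, add_smul]

theorem RZ_psi_smul (r : ℝ) (f : C(RZ_K, ℝ)) : RZ_psi (r • f) = (r : ℂ) • RZ_psi f := by
  funext x
  by_cases h : x = 0
  · subst h
    rw [Pi.smul_apply, RZ_psi_zero, RZ_psi_zero, smul_zero]
  · rw [Pi.smul_apply, RZ_psi_ne _ h, RZ_psi_ne _ h, ContinuousMap.smul_apply, smul_eq_mul,
      Complex.ofReal_mul, mul_smul]

/-- the functions on the sphere which give smooth forms -/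
def RZ_D : Submodule ℝ C(RZ_K, ℝ) where
  carrier := {f | RZ_psi f ∈ Form11}
  add_mem' := by
    intro f g hf hg
    show RZ_psi (f + g) ∈ Form11
    rw [RZ_psi_add]
    exact Form11.add_mem hf hg
  zero_mem' := by
    show RZ_psi 0 ∈ Form11
    have h : RZ_psi 0 = 0 := by
      have h1 := RZ_psi_smul 0 0
      rw [zero_smul, Complex.ofReal_zero, zero_smul] at h1
      exact h1
    rw [h]
    exact Form11.zero_mem
  smul_mem' := by
    intro r f hf
    show RZ_psi (r • f) ∈ Form11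
    rw [RZ_psi_smul]
    exact Form11.smul_mem _ hf

/-- the functional on the sphere -/
noncomputable def RZ_phi (T : PosCurrent) : RZ_D →ₗ[ℝ] ℝ where
  toFun f := (T.toLin ⟨RZ_psi f.1, f.2⟩).re
  map_add' f g := by
    have h : (⟨RZ_psi (f + g).1, (f + g).2⟩ : Form11) =
        ⟨RZ_psi f.1, f.2⟩ + ⟨RZ_psi g.1, g.2⟩ := Subtype.ext (RZ_psi_add f.1 g.1)
    rw [h, map_add, Complex.add_re]
  map_smul' r f := by
    have h : (⟨RZ_psi (r • f).1, (r • f).2⟩ : Form11) =
        (r : ℂ) • ⟨RZ_psi f.1, f.2⟩ := Subtype.ext (RZ_psi_smul r f.1)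
    rw [h, map_smul, smul_eq_mul, Complex.re_ofReal_mul, RingHom.id_apply, smul_eq_mul]

/-- the restriction of a function to the sphere -/
noncomputable def RZ_res {χ : V → ℝ} (hχ : IsFun (fun x => (χ x : ℂ))) : C(RZ_K, ℝ) :=
  ⟨fun x => χ x.1, by
    have h1 : ContinuousOn (fun x => (χ x : ℂ)) {0}ᶜ := hχ.smooth.continuousOn
    have h2 : ContinuousOn χ {0}ᶜ := by
      have h3 := Complex.continuous_re.comp_continuousOn h1
      exact h3
    exact h2.comp_continuous continuous_subtype_val fun x => RZ_ne x.2⟩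

theorem RZ_res_psi {χ : V → ℝ} (hχ : IsFun (fun x => (χ x : ℂ))) (A : Form11)
    (hA : ∀ x : V, x ≠ 0 → A.1 x = (χ x : ℂ) • fubiniStudy x) : RZ_psi (RZ_res hχ) = A.1 := by
  funext x
  by_cases h : x = 0
  · subst h
    rw [RZ_psi_zero, A.2.2.1]
  · rw [RZ_psi_ne _ h, hA x h]
    congr 2
    exact RZ_fun_nz hχ x h

theorem RZ_isFun_const (c : ℝ) : IsFun (fun _ => ((c : ℝ) : ℂ)) :=
  ⟨contDiffOn_const, fun _ _ _ _ => rfl⟩

theorem RZ_pos (T : PosCurrent) (f : RZ_D) (hf : ∀ x, 0 ≤ f.1 x) : 0 ≤ RZ_phi T f := by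
  refine (T.pos ⟨RZ_psi f.1, f.2⟩ fun x => ?_).1
  show (RZ_psi f.1 x).PosSemidef
  by_cases h : x = 0
  · subst h
    rw [RZ_psi_zero]
    exact Matrix.PosSemidef.zero
  · rw [RZ_psi_ne _ h]
    exact (fubiniStudy_posSemidef x).smul (by exact_mod_cast hf _)

/-- the imaginary part vanishes -/
theorem RZ_im (T : PosCurrent) {χ : V → ℝ} (hχ : IsFun (fun x => (χ x : ℂ))) (A : Form11)
    (hA : ∀ x : V, x ≠ 0 → A.1 x = (χ x : ℂ) • fubiniStudy x) : (T.toLin A).im = 0 := by
  obtain ⟨C, hC⟩ : ∃ C, C = ‖RZ_res hχ‖ := ⟨_, rfl⟩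
  obtain ⟨B, hB⟩ := exists_scaled _ (RZ_isFun_const C)
  have hC0 : 0 ≤ C := hC ▸ norm_nonneg _
  have hbound : ∀ x : V, x ≠ 0 → 0 ≤ χ x + C := by
    intro x hx
    have h1 := (RZ_res hχ).norm_coe_le_norm (RZ_nz x hx)
    rw [Real.norm_eq_abs, ← hC] at h1
    have h2 := neg_abs_le ((RZ_res hχ) (RZ_nz x hx))
    have h3 : (RZ_res hχ) (RZ_nz x hx) = χ x := RZ_fun_nz hχ x hx
    rw [h3] at h1 h2
    linarith
  have hzero : ∀ D : Form11, (D.1 0).PosSemidef := by
    intro D
    rw [D.2.2.1]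
    exact Matrix.PosSemidef.zero
  have h1 := (T.pos (A + B) fun x => by
    by_cases h : x = 0
    · subst h
      exact hzero _
    · have h2 : (A + B).1 x = ((χ x + C : ℝ) : ℂ) • fubiniStudy x := by
        show A.1 x + B.1 x = _
        rw [hA x h, hB x h, Complex.ofReal_add, add_smul]
      rw [h2]
      exact (fubiniStudy_posSemidef x).smul (by exact_mod_cast hbound x h)).2
  have h2 := (T.pos B fun x => by
    by_cases h : x = 0
    · subst h
      exact hzero _
    · rw [hB x h]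
      exact (fubiniStudy_posSemidef x).smul (by exact_mod_cast hC0)).2
  rw [map_add, Complex.add_im, h2, add_zero] at h1
  exact h1

theorem riesz (T : PosCurrent) :
    ∃ μ : Measure V, IsFiniteMeasure μ ∧ μ {x | nsq x ≠ 1} = 0 ∧ IsRiesz T μ := by
  have hmeas : MeasurableSet {x : V | nsq x = 1} :=
    (isClosed_eq RZ_nsq_continuous continuous_const).measurableSet
  have he : MeasurableEmbedding (Subtype.val : RZ_K → V) := MeasurableEmbedding.subtype_coe hmeas
  obtain ⟨μK, hfin, hμK⟩ := RZ_abs RZ_D (RZ_phi T) (RZ_pos T) (by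
    intro c
    obtain ⟨B, hB⟩ := exists_scaled _ (RZ_isFun_const c)
    have h1 := RZ_res_psi (RZ_isFun_const c) B hB
    show RZ_psi (ContinuousMap.const RZ_K c) ∈ Form11
    have h2 : ContinuousMap.const RZ_K c = RZ_res (RZ_isFun_const c) := rfl
    rw [h2, h1]
    exact B.2)
  refine ⟨μK.map Subtype.val, Measure.isFiniteMeasure_map _ _, ?_, ?_⟩
  · rw [he.map_apply]
    convert measure_empty (μ := μK)
    ext x
    simp [x.2]
  · intro χ A hχ hA
    have hψ := RZ_res_psi hχ A hA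
    have hmem : RZ_res hχ ∈ RZ_D := by
      show RZ_psi (RZ_res hχ) ∈ Form11
      rw [hψ]
      exact A.2
    have h1 := hμK ⟨RZ_res hχ, hmem⟩
    have h2 : RZ_phi T ⟨RZ_res hχ, hmem⟩ = (T.toLin A).re := by
      show (T.toLin ⟨RZ_psi (RZ_res hχ), hmem⟩).re = _
      congr 2
      exact Subtype.ext hψ
    have h3 : ∫ x, χ x ∂(μK.map Subtype.val) = (T.toLin A).re := by
      rw [he.integral_map, ← h2, ← h1]
      rfl
    rw [h3]
    apply Complex.ext
    · rw [Complex.ofReal_re]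
    · rw [Complex.ofReal_im]
      exact RZ_im T hχ A hA

end Pool.Agent.H24.CU
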