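import Pool.Agent.H24.CU.LC
import Pool.Agent.H24.CU.GI

/-!
# Row SB (a polynomial of finite order along the leaf)

NOTATION.  `Q q = eval (psi q) P` (holomorphic, polynomial), `φ q = k * log (nsq (psi q))` (smooth,
`psi q ≠ 0`), `a z = Q (z, Y z) = z^m f z` near `0`, `p = (z, Y z)`.
PROOF.  (1) `levi φ p v >= 0`: `levi_comp_hol` with `psi` (affine map) and `levi_log_nsq`, Cauchy-Schwarz
`|herm w y|^2 <= nsq w nsq y`.
(2) chain rule: `a' z = fderiv ℂ Q p (1, Y' z)` and `X p = (X p).1 • (1, Y' z)` (`Leaf.ode`), so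
`fderiv ℂ Q p (X p) = (X p).1 * a' z`.  `a'/a = m/z + f'/f`, `f'/f` bounded near `0`, hence
`|a' z / a z| >= m/(2|z|)` for small `z ≠ 0` (`m >= 1`).  `normSq (X p).1 >= 1/2` for small `z`.  So
`normSq (fderiv ℂ Q p (X p) / Q p)/2 >= (1/2)(1/2) m^2/(4|z|^2) = m^2/(16 |z|^2)`.
`gradm φ φ p (X p)` is bounded near `0` (continuity), so `<= m^2/(32 |z|^2)` for small `z`.
(3) `normSq (Q p) exp(-φ p) = |z|^(2m) |f z|^2 exp(-φ p)`, the last two factors are between two positive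
constants near `0`.
-/

namespace Pool.Agent.H24.CU

open MeasureTheory Filter
open scoped Topology ComplexConjugate

variable {𝓕 : Foliation} {μ : Measure V} {y₀ : V} {X : ℂ × ℂ → ℂ × ℂ} {c₀ : ℂ × ℂ → ℂ} {r : ℝ}
  {M : Measure (ℂ × ℂ)}

open scoped ContDiff in
theorem SB_nsq : ContDiff ℝ ∞ nsq := by
  have h0 : nsq = fun x : V => ∑ j, ((x j).re * (x j).re + (x j).im * (x j).im) := by
    funext x
    exact Finset.sum_congr rfl fun j _ => Complex.normSq_apply _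
  rw [h0]
  apply ContDiff.sum
  intro j _
  have h1 : ContDiff ℝ ∞ (fun x : V => x j) := contDiff_apply ℝ ℂ j
  have h2 : ContDiff ℝ ∞ (fun x : V => (x j).re) := Complex.reCLM.contDiff.comp h1
  have h3 : ContDiff ℝ ∞ (fun x : V => (x j).im) := Complex.imCLM.contDiff.comp h1
  exact (h2.mul h2).add (h3.mul h3)

theorem SB_cs (w y : V) : Complex.normSq (herm w y) ≤ nsq y * nsq w := by
  have h1 : ‖herm w y‖ ≤ ∑ j, ‖w j‖ * ‖y j‖ := by
    unfold herm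
    refine (norm_sum_le _ _).trans (le_of_eq ?_)
    exact Finset.sum_congr rfl fun j _ => by rw [norm_mul, RCLike.norm_conj]
  have h2 := Finset.sum_mul_sq_le_sq_mul_sq Finset.univ (fun j => ‖w j‖) (fun j => ‖y j‖)
  have h3 : ∀ x : V, nsq x = ∑ j, ‖x j‖ ^ 2 := by
    intro x
    exact Finset.sum_congr rfl fun j _ => Complex.normSq_eq_norm_sq _
  rw [Complex.normSq_eq_norm_sq, h3, h3, mul_comm]
  exact (pow_le_pow_left₀ (norm_nonneg _) h1 2).trans h2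

open scoped ContDiff in
theorem SB_psi (𝓕 : Foliation) (y₀ : V) : ContDiff ℂ ∞ (𝓕.psi y₀) := by
  unfold Foliation.psi
  exact (contDiff_const.add (contDiff_fst.smul contDiff_const)).add (contDiff_snd.smul contDiff_const)

open scoped ContDiff in
theorem SB_phi (h : Chart 𝓕 μ y₀ X c₀ r M) :
    ContDiff ℝ ∞ (fun q => Real.log (nsq (𝓕.psi y₀ q))) := by
  have h1 : ContDiff ℝ ∞ (𝓕.psi y₀) := (SB_psi 𝓕 y₀).restrict_scalars ℝ
  exact (SB_nsq.comp h1).log (fun q => (nsq_pos (h.psi_ne q)).ne')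

theorem levi_phi_nonneg (h : Chart 𝓕 μ y₀ X c₀ r M) (k : ℕ) (p v : ℂ × ℂ) :
    0 ≤ levi (fun q => (k : ℝ) * Real.log (nsq (𝓕.psi y₀ q))) p v := by
  have h2 : (2 : WithTop ℕ∞) ≤ ((⊤ : ℕ∞) : WithTop ℕ∞) := WithTop.coe_le_coe.2 (le_top : (2 : ℕ∞) ≤ ⊤)
  have hphi : ContDiffAt ℝ 2 (fun q => Real.log (nsq (𝓕.psi y₀ q))) p := (SB_phi h).contDiffAt.of_le h2
  have hpsi : ContDiffAt ℝ 2 (𝓕.psi y₀) p := ((SB_psi 𝓕 y₀).restrict_scalars ℝ).contDiffAt.of_le h2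
  have hd : ∀ᶠ q in 𝓝 p, DifferentiableAt ℂ (𝓕.psi y₀) q :=
    Filter.Eventually.of_forall fun q => (SB_psi 𝓕 y₀).differentiable (by simp) q
  have hg : ContDiffAt ℝ 2 (fun x : V => Real.log (nsq x)) (𝓕.psi y₀ p) :=
    (SB_nsq.contDiffAt.of_le h2).log (nsq_pos (h.psi_ne p)).ne'
  rw [levi_const_mul hphi, levi_comp_hol (g := fun x : V => Real.log (nsq x)) hd hpsi hg,
    levi_log_nsq _ _ (h.psi_ne p)]
  refine mul_nonneg (Nat.cast_nonneg k) (div_nonneg ?_ (sq_nonneg _))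
  have := SB_cs (fderiv ℂ (𝓕.psi y₀) p v) (𝓕.psi y₀ p)
  linarith

theorem SB_eval (P : MvPolynomial (Fin 3) ℂ) : Differentiable ℂ (fun x : V => MvPolynomial.eval x P) := by
  induction P using MvPolynomial.induction_on with
  | C a => simp
  | add p q hp hq =>
    simp only [map_add]
    exact hp.add hq
  | mul_X p i hp =>
    simp only [map_mul, MvPolynomial.eval_X]
    exact hp.mul (differentiable_apply i)

/-- the logarithmic derivative along the leaf -/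
theorem SB_chain {ρ : ℝ} {Y : ℂ → ℂ} (hY : Leaf X r ρ Y)
    (P : MvPolynomial (Fin 3) ℂ) {z : ℂ} (hz : z ∈ Metric.ball (0 : ℂ) ρ) :
    fderiv ℂ (fun q => MvPolynomial.eval (𝓕.psi y₀ q) P) (z, Y z) (X (z, Y z)) =
      (X (z, Y z)).1 * deriv (fun z => MvPolynomial.eval (𝓕.psi y₀ (z, Y z)) P) z := by
  have hQ : DifferentiableAt ℂ (fun q => MvPolynomial.eval (𝓕.psi y₀ q) P) (z, Y z) :=
    (SB_eval P).comp ((SB_psi 𝓕 y₀).differentiable (by simp)) (z, Y z)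
  have hYd : HasDerivAt Y (deriv Y z) z := (hY.hol.differentiableAt (Metric.isOpen_ball.mem_nhds hz)).hasDerivAt
  have h1 : HasDerivAt (fun z => (z, Y z)) ((1 : ℂ), deriv Y z) z := (hasDerivAt_id z).prodMk hYd
  have h2 := hQ.hasFDerivAt.comp_hasDerivAt z h1
  have h3 : X (z, Y z) = (X (z, Y z)).1 • ((1 : ℂ), deriv Y z) := by
    refine Prod.ext ?_ ?_
    · show (X (z, Y z)).1 = (X (z, Y z)).1 * 1
      rw [mul_one]
    · show (X (z, Y z)).2 = (X (z, Y z)).1 * deriv Y z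
      rw [← hY.ode z hz, mul_comm]
  have h4 : deriv (fun z => MvPolynomial.eval (𝓕.psi y₀ (z, Y z)) P) z =
      fderiv ℂ (fun q => MvPolynomial.eval (𝓕.psi y₀ q) P) (z, Y z) ((1 : ℂ), deriv Y z) := h2.deriv
  rw [h4]
  conv_lhs => rw [h3]
  rw [map_smul, smul_eq_mul]

theorem leaf_lower (h : Chart 𝓕 μ y₀ X c₀ r M) {ρ : ℝ} {Y : ℂ → ℂ} (hY : Leaf X r ρ Y) (k : ℕ)
    (P : MvPolynomial (Fin 3) ℂ) (m : ℕ) (hm : 1 ≤ m) (f : ℂ → ℂ) (hf : AnalyticAt ℂ f 0)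
    (hf0 : f 0 ≠ 0)
    (hfP : ∀ᶠ z in 𝓝 (0 : ℂ), MvPolynomial.eval (𝓕.psi y₀ (z, Y z)) P = z ^ m * f z) :
    ∃ rP cP CP : ℝ, 0 < rP ∧ rP < ρ ∧ 0 < cP ∧ 0 < CP ∧ ∀ z : ℂ, 0 < ‖z‖ → ‖z‖ < rP →
      MvPolynomial.eval (𝓕.psi y₀ (z, Y z)) P ≠ 0 ∧
      (m : ℝ) ^ 2 / (32 * ‖z‖ ^ 2) ≤
        Complex.normSq (fderiv ℂ (fun q => MvPolynomial.eval (𝓕.psi y₀ q) P) (z, Y z)
          (X (z, Y z)) / MvPolynomial.eval (𝓕.psi y₀ (z, Y z)) P) / 2 -
        gradm (fun q => (k : ℝ) * Real.log (nsq (𝓕.psi y₀ q)))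
          (fun q => (k : ℝ) * Real.log (nsq (𝓕.psi y₀ q))) (z, Y z) (X (z, Y z)) ∧
      cP * ‖z‖ ^ (2 * m) ≤ Complex.normSq (MvPolynomial.eval (𝓕.psi y₀ (z, Y z)) P) *
        Real.exp (- ((k : ℝ) * Real.log (nsq (𝓕.psi y₀ (z, Y z))))) ∧
      Complex.normSq (MvPolynomial.eval (𝓕.psi y₀ (z, Y z)) P) *
        Real.exp (- ((k : ℝ) * Real.log (nsq (𝓕.psi y₀ (z, Y z))))) ≤ CP * ‖z‖ ^ (2 * m) := by
  have h2 : (2 : WithTop ℕ∞) ≤ ((⊤ : ℕ∞) : WithTop ℕ∞) := WithTop.coe_le_coe.2 (le_top : (2 : ℕ∞) ≤ ⊤)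
  -- names
  let φ : ℂ × ℂ → ℝ := fun q => (k : ℝ) * Real.log (nsq (𝓕.psi y₀ q))
  let G : ℂ × ℂ → ℝ := fun q => gradm φ φ q (X q)
  let u : ℂ → ℂ := fun z => (X (z, Y z)).1 * ((m : ℂ) + z * (deriv f z / f z))
  let Θ : ℂ → ℝ := fun z => Complex.normSq (u z) / 2 - ‖z‖ ^ 2 * G (z, Y z)
  let L : ℂ → ℝ := fun z => Complex.normSq (f z) * Real.exp (- φ (z, Y z))
  have hφ : ContDiff ℝ 2 φ := contDiff_const.mul ((SB_phi h).of_le h2)
  have hφd : Continuous (fderiv ℝ φ) := hφ.continuous_fderiv (by simp)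
  have hXc : Continuous X := h.hol.continuous
  have hG : Continuous G := by
    have g1 : Continuous (fun q => fderiv ℝ φ q (X q)) := hφd.clm_apply hXc
    have g2 : Continuous (fun q => fderiv ℝ φ q (Complex.I • X q)) :=
      hφd.clm_apply (hXc.const_smul Complex.I)
    exact ((g1.mul g1).add (g2.mul g2)).div_const 4
  have h00 : (0 : ℂ) ∈ Metric.ball (0 : ℂ) ρ := Metric.mem_ball_self hY.pos
  have hYc : ContinuousAt Y 0 := (hY.hol.differentiableAt (Metric.isOpen_ball.mem_nhds h00)).continuousAt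
  have hYY : ContinuousAt (fun z => (z, Y z)) 0 := continuousAt_id.prodMk hYc
  have hfc : ContinuousAt f 0 := hf.continuousAt
  have hf'c : ContinuousAt (deriv f) 0 := hf.deriv.continuousAt
  have hu : ContinuousAt u 0 := by
    have u1 : ContinuousAt (fun z => (X (z, Y z)).1) 0 :=
      (continuous_fst.comp hXc).continuousAt.comp (f := fun z => (z, Y z)) hYY
    exact u1.mul (continuousAt_const.add (continuousAt_id.mul (hf'c.div hfc hf0)))
  have hΘ : ContinuousAt Θ 0 := by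
    have t1 : ContinuousAt (fun z => G (z, Y z)) 0 := hG.continuousAt.comp (f := fun z => (z, Y z)) hYY
    have t2 : ContinuousAt (fun z => Complex.normSq (u z)) 0 :=
      Complex.continuous_normSq.continuousAt.comp hu
    have t3 : ContinuousAt (fun z : ℂ => ‖z‖ ^ 2) 0 := (continuous_norm.pow 2).continuousAt
    exact (t2.div_const 2).sub (t3.mul t1)
  have hL : ContinuousAt L 0 := by
    have t1 : ContinuousAt (fun z => φ (z, Y z)) 0 :=
      hφ.continuous.continuousAt.comp (f := fun z => (z, Y z)) hYY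
    have t2 : ContinuousAt (fun z => Complex.normSq (f z)) 0 :=
      Complex.continuous_normSq.continuousAt.comp hfc
    exact t2.mul (Real.continuous_exp.continuousAt.comp t1.neg)
  have hm0 : (0 : ℝ) < (m : ℝ) ^ 2 := by
    have : (0 : ℝ) < m := by exact_mod_cast hm
    positivity
  have hu0 : u 0 = m := by
    show (X (0, Y 0)).1 * ((m : ℂ) + 0 * (deriv f 0 / f 0)) = m
    have e1 : X ((0 : ℂ), Y 0) = (1, 0) := by
      rw [hY.zero]
      exact h.zero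
    rw [e1]
    simp
  have hΘ0 : (m : ℝ) ^ 2 / 32 < Θ 0 := by
    show (m : ℝ) ^ 2 / 32 < Complex.normSq (u 0) / 2 - ‖(0 : ℂ)‖ ^ 2 * G (0, Y 0)
    rw [hu0, norm_zero, Complex.normSq_natCast]
    have : (m : ℝ) * m = m ^ 2 := by ring
    rw [this]
    linarith
  have hL0 : 0 < L 0 := mul_pos (Complex.normSq_pos.2 hf0) (Real.exp_pos _)
  have ev1 : ∀ᶠ z in 𝓝 (0 : ℂ), (m : ℝ) ^ 2 / 32 < Θ z := hΘ.eventually (lt_mem_nhds hΘ0)
  have ev2 : ∀ᶠ z in 𝓝 (0 : ℂ), L 0 / 2 < L z := hL.eventually (lt_mem_nhds (by linarith))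
  have ev3 : ∀ᶠ z in 𝓝 (0 : ℂ), L z < 2 * L 0 := hL.eventually (gt_mem_nhds (by linarith))
  have ev4 : ∀ᶠ z in 𝓝 (0 : ℂ), f z ≠ 0 := hfc.eventually_ne hf0
  have ev5 : ∀ᶠ z in 𝓝 (0 : ℂ), AnalyticAt ℂ f z := hf.eventually_analyticAt
  have ev6 : ∀ᶠ z in 𝓝 (0 : ℂ), ∀ᶠ w in 𝓝 z,
      MvPolynomial.eval (𝓕.psi y₀ (w, Y w)) P = w ^ m * f w := eventually_eventually_nhds.2 hfP
  have evall := (ev1.and (ev2.and (ev3.and (ev4.and (ev5.and ev6)))))
  obtain ⟨r1, hr1, hball⟩ := Metric.eventually_nhds_iff_ball.1 evall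
  refine ⟨min r1 ρ / 2, L 0 / 2, 2 * L 0, ?_, ?_, by linarith, by linarith, ?_⟩
  · have := lt_min hr1 hY.pos
    linarith
  · have h3 := min_le_right r1 ρ
    have h4 := hY.pos
    have h5 := lt_min hr1 hY.pos
    linarith
  intro z hz0 hz
  have hzne : z ≠ 0 := norm_pos_iff.1 hz0
  have hzr : z ∈ Metric.ball (0 : ℂ) r1 := by
    rw [mem_ball_zero_iff]
    have h3 := min_le_left r1 ρ
    have h5 := lt_min hr1 hY.pos
    linarith
  have hzρ : z ∈ Metric.ball (0 : ℂ) ρ := by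
    rw [mem_ball_zero_iff]
    have h3 := min_le_right r1 ρ
    have h5 := lt_min hr1 hY.pos
    linarith
  obtain ⟨q1, q2, q3, q4, q5, q6⟩ := hball z hzr
  have hQ : MvPolynomial.eval (𝓕.psi y₀ (z, Y z)) P = z ^ m * f z := q6.self_of_nhds
  have hzm : z ^ m ≠ 0 := pow_ne_zero _ hzne
  have hder : deriv (fun z => MvPolynomial.eval (𝓕.psi y₀ (z, Y z)) P) z =
      (m : ℂ) * z ^ (m - 1) * f z + z ^ m * deriv f z := by
    rw [Filter.EventuallyEq.deriv_eq q6]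
    have d1 : HasDerivAt (fun w : ℂ => w ^ m) ((m : ℂ) * z ^ (m - 1)) z := hasDerivAt_pow m z
    exact (d1.mul q5.differentiableAt.hasDerivAt).deriv
  have hratio : fderiv ℂ (fun q => MvPolynomial.eval (𝓕.psi y₀ q) P) (z, Y z) (X (z, Y z)) /
      MvPolynomial.eval (𝓕.psi y₀ (z, Y z)) P = u z / z := by
    rw [SB_chain hY P hzρ, hder, hQ]
    show (X (z, Y z)).1 * ((m : ℂ) * z ^ (m - 1) * f z + z ^ m * deriv f z) / (z ^ m * f z) =
      (X (z, Y z)).1 * ((m : ℂ) + z * (deriv f z / f z)) / z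
    obtain ⟨n, rfl⟩ : ∃ n, m = n + 1 := ⟨m - 1, by omega⟩
    have hzn : z ^ n ≠ 0 := pow_ne_zero _ hzne
    rw [Nat.add_sub_cancel]
    field_simp
    ring
  have hz2 : (0 : ℝ) < ‖z‖ ^ 2 := by positivity
  refine ⟨?_, ?_, ?_, ?_⟩
  · rw [hQ]
    exact mul_ne_zero hzm q4
  · rw [hratio, map_div₀]
    show (m : ℝ) ^ 2 / (32 * ‖z‖ ^ 2) ≤ Complex.normSq (u z) / Complex.normSq z / 2 - G (z, Y z)
    rw [Complex.normSq_eq_norm_sq z]
    have e1 : Complex.normSq (u z) / ‖z‖ ^ 2 / 2 - G (z, Y z) = Θ z / ‖z‖ ^ 2 := by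
      show Complex.normSq (u z) / ‖z‖ ^ 2 / 2 - G (z, Y z) =
        (Complex.normSq (u z) / 2 - ‖z‖ ^ 2 * G (z, Y z)) / ‖z‖ ^ 2
      field_simp
    rw [e1, ← div_div]
    gcongr
  · rw [hQ, map_mul, map_pow, Complex.normSq_eq_norm_sq z, ← pow_mul]
    show L 0 / 2 * ‖z‖ ^ (2 * m) ≤ ‖z‖ ^ (2 * m) * Complex.normSq (f z) * Real.exp (- φ (z, Y z))
    have e1 : ‖z‖ ^ (2 * m) * Complex.normSq (f z) * Real.exp (- φ (z, Y z)) = L z * ‖z‖ ^ (2 * m) := by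
      show ‖z‖ ^ (2 * m) * Complex.normSq (f z) * Real.exp (- φ (z, Y z)) =
        Complex.normSq (f z) * Real.exp (- φ (z, Y z)) * ‖z‖ ^ (2 * m)
      ring
    rw [e1]
    gcongr
  · rw [hQ, map_mul, map_pow, Complex.normSq_eq_norm_sq z, ← pow_mul]
    show ‖z‖ ^ (2 * m) * Complex.normSq (f z) * Real.exp (- φ (z, Y z)) ≤ 2 * L 0 * ‖z‖ ^ (2 * m)
    have e1 : ‖z‖ ^ (2 * m) * Complex.normSq (f z) * Real.exp (- φ (z, Y z)) = L z * ‖z‖ ^ (2 * m) := by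
      show ‖z‖ ^ (2 * m) * Complex.normSq (f z) * Real.exp (- φ (z, Y z)) =
        Complex.normSq (f z) * Real.exp (- φ (z, Y z)) * ‖z‖ ^ (2 * m)
      ring
    rw [e1]
    gcongr

end Pool.Agent.H24.CU
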