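import Pool.Agent.H24.CU.Basic
import Pool.Agent.H76.FL.Defs
import Pool.Agent.H85.DC.Defs

/-!
# Charts at arbitrary points (unitary frames), restriction of the foliation to the chart
-/

namespace Pool.Agent.H24.CU

open MeasureTheory MvPolynomial
open scoped ComplexConjugate ContDiff

/-- `(p, b, c)` is an orthonormal basis of `C^3`. -/
structure Frame (p b c : V) : Prop where
  pp : nsq p = 1
  bb : nsq b = 1
  cc : nsq c = 1
  pb : herm p b = 0
  pc : herm p c = 0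
  bc : herm b c = 0

/-- The affine chart centred at `p`. -/
noncomputable def chi (p b c : V) (q : ℂ × ℂ) : V := p + q.1 • b + q.2 • c

/-- Unit vectors over the image of `E` in the chart. -/
def scone (p b c : V) (E : Set (ℂ × ℂ)) : Set V :=
  {y | nsq y = 1 ∧ ∃ q ∈ E, ∃ t : ℂ, t ≠ 0 ∧ y = t • chi p b c q}

/-- Restriction of a polynomial to the chart. -/
noncomputable def res (p b c : V) (f : MvPolynomial (Fin 3) ℂ) : FC76.P2 :=
  aeval (fun j => C (p j) + X 0 * C (b j) + X 1 * C (c j)) f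

/-- The coefficient of `chi` in the expansion of the vector field. -/
noncomputable def res0 (𝓕 : Foliation) (p b c : V) : FC76.P2 :=
  ∑ j, C (conj (p j)) * res p b c (𝓕.F j)

/-- First component of the vector field in the chart. -/
noncomputable def resA (𝓕 : Foliation) (p b c : V) : FC76.P2 :=
  ∑ j, C (conj (b j)) * res p b c (𝓕.F j) - X 0 * res0 𝓕 p b c

/-- Second component of the vector field in the chart. -/
noncomputable def resB (𝓕 : Foliation) (p b c : V) : FC76.P2 :=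
  ∑ j, C (conj (c j)) * res p b c (𝓕.F j) - X 1 * res0 𝓕 p b c

/-- `Φ` has the weight of `A_y(F(y), F(y))`, `A` a `(1,1)`-form. -/
def Foliation.Wt (𝓕 : Foliation) (Φ : V → ℂ) : Prop :=
  ∀ (t : ℂ) (y : V), t ≠ 0 → y ≠ 0 →
    Φ (t • y) = ((Complex.normSq t ^ 𝓕.deg / Complex.normSq t : ℝ) : ℂ) * Φ y

/-- The measure `M` on the chart centred at `p` which corresponds to `μ`. -/
structure SChart (𝓕 : Foliation) (μ : Measure V) (p b c : V) (ρ : ℝ) (M : Measure (ℂ × ℂ)) :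
    Prop where
  frame : Frame p b c
  r_pos : 0 < ρ
  r_le : ρ ≤ 1
  carried : M (Metric.ball 0 ρ)ᶜ = 0
  reg : ∀ q ∈ Metric.closedBall (0 : ℂ × ℂ) ρ, q ≠ 0 → 𝓕.alpha (chi p b c q) ≠ 0
  int : ∀ Φ : V → ℂ, Measurable Φ → 𝓕.Wt Φ → ∀ E : Set (ℂ × ℂ), MeasurableSet E →
    E ⊆ Metric.ball 0 ρ →
      ∫ y in scone p b c E, Φ y / (nsq (𝓕.alpha y) : ℂ) ∂μ = ∫ q in E, Φ (chi p b c q) ∂M
  lint : ∀ Φ : V → ℝ, Measurable Φ → 𝓕.Wt (fun y => (Φ y : ℂ)) → ∀ E : Set (ℂ × ℂ),
    MeasurableSet E → E ⊆ Metric.ball 0 ρ →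
      ∫⁻ y in scone p b c E, ENNReal.ofReal (Φ y / nsq (𝓕.alpha y)) ∂μ =
        ∫⁻ q in E, ENNReal.ofReal (Φ (chi p b c q)) ∂M

/-- The divergence of the vector field minus its radial part (a section of weight `deg - 1`). -/
noncomputable def Foliation.dv (𝓕 : Foliation) (y : V) : ℂ :=
  (∑ j, MvPolynomial.eval y (pderiv j (𝓕.F j))) -
    ((𝓕.deg : ℂ) + 2) * herm (𝓕.vec y) y / (nsq y : ℂ)

/-- The logarithm of the norm of `α`. -/
noncomputable def Foliation.la (𝓕 : Foliation) (y : V) : ℝ :=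
  Real.log (nsq (𝓕.alpha y)) - ((𝓕.deg : ℝ) + 1) * Real.log (nsq y)

/-- `K_y^2`: the square of the transversal variation of the direction of the foliation. -/
noncomputable def Foliation.K2 (𝓕 : Foliation) (y : V) : ℝ :=
  nsq (crossProduct (fderiv ℂ 𝓕.alpha y (fun j => conj (𝓕.alpha y j))) (𝓕.alpha y)) /
    nsq (𝓕.alpha y) ^ 3

/-- The Lelong numbers of `μ` vanish at all regular points. -/
def Foliation.LelZero (𝓕 : Foliation) (μ : Measure V) : Prop :=
  ∀ y : V, nsq y = 1 → 𝓕.alpha y ≠ 0 →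
    Filter.Tendsto (fun s : ℝ => (μ {y' | tau y y' < s ^ 2}).toReal / s ^ 2)
      (nhdsWithin 0 (Set.Ioi 0)) (nhds 0)

end Pool.Agent.H24.CU
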