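import Pool.Agent.H24.CU.STR

/-!
# Row SIN (local finiteness of the chart measure; first fields of `FC76.Inv0`)

`dom 1 ρ = ball 0 ρ \ {0}` (`ev 1 p = 1`).
PROOFS.  `sin_carried`: `carried` and `M_zero`.
`sin_locfin`: `K ⊆ ball 0 ρ \ {0}` compact: `q ↦ nsq (alpha (chi q)) / nsq (chi q)^2` is continuous and positive on `K`
(`reg`), so `>= c > 0` there; `mass_eq`: `ofReal c * M K <= μ (scone K) < ⊤`.
`sin_fin`: `M` is carried by the ball; `nsq (vf q) <= nsq (alpha (chi q))` (`nsq_alpha_bounds`, `ρ <= 1`) and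
`nsq (chi q)^2 <= 9` there, so `∫⁻ ofReal (nsq (vf q)) dM <= 9 μ (scone (ball)) < ⊤`.
`sin_log`: `Zp A B 1 = 0` (`pderiv` of `1` is `0`), integrand `ofReal (0/1) = 0`; `C = 0`.
`sin_small`: `M (ball q s)` for a point `q` of the domain: if `LelZero`, `M (ball q s) / s^2 → 0`: for small `s` the closed ball of
radius `s` is inside `dom`, `nsq (alpha (chi)) / nsq (chi)^2 >= c > 0` on it, so `M (ball q s) <= c⁻¹ μ (scone (ball q s))`, and
`scone (ball q s) ⊆ {y' | tau y y' < (L s)^2}` with `y = chi q / |chi q|` by `Frame.tau_chi_le` and `tau_smul`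
(`nsq (chi q' - chi q) <= 2 ‖q' - q‖^2 < (2 s)^2`).
-/

namespace Pool.Agent.H24.CU

open MeasureTheory
open scoped ComplexConjugate

variable {𝓕 : Foliation} {μ : Measure V} {p b c : V} {ρ : ℝ} {M : Measure (ℂ × ℂ)}

theorem SIN_alpha_cont (𝓕 : Foliation) : Continuous (fun x : V => nsq (𝓕.alpha x)) := by
  obtain ⟨Q, -, hQ, -⟩ := exists_alpha_poly 𝓕
  have h1 : ∀ x, nsq (𝓕.alpha x) = ∑ j, Complex.normSq (MvPolynomial.eval x (Q j)) := by
    intro x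
    unfold nsq
    exact Finset.sum_congr rfl fun j _ => by rw [hQ]
  simp_rw [h1]
  exact continuous_finsetSum _ fun j _ =>
    Complex.continuous_normSq.comp (MvPolynomial.continuous_eval (Q j))

theorem SIN_nsq_cont : Continuous nsq := by
  unfold nsq
  exact continuous_finsetSum _ fun j _ => Complex.continuous_normSq.comp (continuous_apply j)

theorem SIN_chi_cont (p b c : V) : Continuous (chi p b c) := by
  unfold chi
  exact (continuous_const.add (continuous_fst.smul continuous_const)).add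
    (continuous_snd.smul continuous_const)

/-- the density of the mass -/
noncomputable def SIN_ph (𝓕 : Foliation) (p b c : V) (q : ℂ × ℂ) : ℝ :=
  nsq (𝓕.alpha (chi p b c q)) / nsq (chi p b c q) ^ 2

theorem SIN_ph_cont (h : Frame p b c) : Continuous (SIN_ph 𝓕 p b c) := by
  have h1 := SIN_chi_cont p b c
  unfold SIN_ph
  refine ((SIN_alpha_cont 𝓕).comp h1).div ((SIN_nsq_cont.comp h1).pow 2) (fun q => ?_)
  exact pow_ne_zero _ (nsq_pos (h.chi_ne q)).ne'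

theorem SIN_ph_pos (h : SChart 𝓕 μ p b c ρ M) {q : ℂ × ℂ} (hq : ‖q‖ ≤ ρ) (hq0 : q ≠ 0) :
    0 < SIN_ph 𝓕 p b c q := by
  unfold SIN_ph
  have h1 := h.reg q (mem_closedBall_zero_iff.2 hq) hq0
  have h2 := nsq_pos h1
  have h3 := nsq_pos (h.frame.chi_ne q)
  positivity

/-- lower bound on compact sets -/
theorem SIN_low (h : SChart 𝓕 μ p b c ρ M) {K : Set (ℂ × ℂ)} (hK : IsCompact K)
    (hK2 : ∀ q ∈ K, ‖q‖ ≤ ρ ∧ q ≠ 0) : ∃ a : ℝ, 0 < a ∧ ∀ q ∈ K, a ≤ SIN_ph 𝓕 p b c q := by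
  rcases K.eq_empty_or_nonempty with h0 | h0
  · refine ⟨1, one_pos, fun q hq => ?_⟩
    rw [h0] at hq
    exact absurd hq (Set.notMem_empty _)
  · obtain ⟨q0, hq0, hmin⟩ := hK.exists_isMinOn h0 (SIN_ph_cont (𝓕 := 𝓕) h.frame).continuousOn
    exact ⟨_, SIN_ph_pos h (hK2 q0 hq0).1 (hK2 q0 hq0).2, fun q hq => hmin hq⟩

/-- comparison of the masses -/
theorem SIN_mass (h : SChart 𝓕 μ p b c ρ M) (hs0 : μ {x | 𝓕.alpha x = 0} = 0) {E : Set (ℂ × ℂ)}
    (hE : MeasurableSet E) (hE2 : E ⊆ Metric.ball 0 ρ) {a : ℝ}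
    (hlow : ∀ q ∈ E, a ≤ SIN_ph 𝓕 p b c q) : ENNReal.ofReal a * M E ≤ μ (scone p b c E) := by
  rw [h.mass_eq hs0 hE hE2, ← setLIntegral_const]
  exact setLIntegral_mono' hE (fun q hq => ENNReal.ofReal_le_ofReal (hlow q hq))

theorem mem_dom_one (ρ : ℝ) (q : ℂ × ℂ) :
    q ∈ FC76.dom 1 ρ ↔ q ∈ Metric.ball (0 : ℂ × ℂ) ρ ∧ q ≠ 0 := by
  unfold FC76.dom FC76.ev
  simp

theorem SChart.sin_carried (h : SChart 𝓕 μ p b c ρ M) (hp : 𝓕.alpha p = 0) :
    M (FC76.dom 1 ρ)ᶜ = 0 := by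
  have h1 : (FC76.dom 1 ρ)ᶜ ⊆ (Metric.ball (0 : ℂ × ℂ) ρ)ᶜ ∪ {0} := by
    intro q hq
    rw [Set.mem_compl_iff, mem_dom_one, not_and_or, not_not] at hq
    exact hq
  exact measure_mono_null h1 (measure_union_null h.carried (h.M_zero hp))

theorem SChart.sin_locfin [IsFiniteMeasure μ] (h : SChart 𝓕 μ p b c ρ M)
    (hs0 : μ {x | 𝓕.alpha x = 0} = 0) (K : Set (ℂ × ℂ)) (hK : IsCompact K)
    (hK2 : K ⊆ FC76.dom 1 ρ) : M K < ⊤ := by
  have hK3 : ∀ q ∈ K, q ∈ Metric.ball (0 : ℂ × ℂ) ρ ∧ q ≠ 0 := fun q hq => (mem_dom_one ρ q).1 (hK2 hq)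
  obtain ⟨a, ha, hlow⟩ := SIN_low h hK (fun q hq =>
    ⟨(mem_ball_zero_iff.1 (hK3 q hq).1).le, (hK3 q hq).2⟩)
  have h1 := SIN_mass h hs0 hK.measurableSet (fun q hq => (hK3 q hq).1) hlow
  have h2 := h1.trans_lt (measure_lt_top μ _)
  by_contra h3
  rw [not_lt, top_le_iff] at h3
  rw [h3, ENNReal.mul_top (by rw [Ne, ENNReal.ofReal_eq_zero, not_le]; exact ha)] at h2
  exact lt_irrefl _ h2

theorem SChart.sin_fin [IsFiniteMeasure μ] (h : SChart 𝓕 μ p b c ρ M)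
    (hs0 : μ {x | 𝓕.alpha x = 0} = 0) :
    ∫⁻ q, ENNReal.ofReal (FC76.nsq (FC76.vf (resA 𝓕 p b c) (resB 𝓕 p b c) q)) ∂M < ⊤ := by
  have hb : MeasurableSet (Metric.ball (0 : ℂ × ℂ) ρ) := Metric.isOpen_ball.measurableSet
  have hae : ∀ᵐ q ∂M, q ∈ Metric.ball (0 : ℂ × ℂ) ρ := h.carried
  have hr : M.restrict (Metric.ball (0 : ℂ × ℂ) ρ) = M := Measure.restrict_eq_self_of_ae_mem hae
  have h1 : ∀ q ∈ Metric.ball (0 : ℂ × ℂ) ρ,
      FC76.nsq (FC76.vf (resA 𝓕 p b c) (resB 𝓕 p b c) q) ≤ 9 * SIN_ph 𝓕 p b c q := by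
    intro q hq
    have h2 : ‖q‖ ≤ 1 := (mem_ball_zero_iff.1 hq).le.trans h.r_le
    have h3 := (h.frame.nsq_alpha_bounds 𝓕 q h2).1
    have h4 := (FC76.norm_sq_le_nsq q).2
    have h5 := h.frame.nsq_chi q
    have h6 : nsq (chi p b c q) ≤ 3 := by
      rw [h5]
      nlinarith [norm_nonneg q]
    have h7 := nsq_pos (h.frame.chi_ne q)
    have h8 := nsq_nonneg (𝓕.alpha (chi p b c q))
    refine h3.trans ?_
    unfold SIN_ph
    rw [← mul_div_assoc, le_div_iff₀ (by positivity)]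
    have h9 : nsq (chi p b c q) ^ 2 ≤ 9 := by nlinarith
    rw [mul_comm (9 : ℝ)]
    exact mul_le_mul_of_nonneg_left h9 h8
  calc ∫⁻ q, ENNReal.ofReal (FC76.nsq (FC76.vf (resA 𝓕 p b c) (resB 𝓕 p b c) q)) ∂M
      = ∫⁻ q in Metric.ball (0 : ℂ × ℂ) ρ,
          ENNReal.ofReal (FC76.nsq (FC76.vf (resA 𝓕 p b c) (resB 𝓕 p b c) q)) ∂M := by rw [hr]
    _ ≤ ∫⁻ q in Metric.ball (0 : ℂ × ℂ) ρ, ENNReal.ofReal 9 * ENNReal.ofReal (SIN_ph 𝓕 p b c q) ∂M := by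
        apply setLIntegral_mono' hb
        intro q hq
        rw [← ENNReal.ofReal_mul (by norm_num)]
        exact ENNReal.ofReal_le_ofReal (h1 q hq)
    _ = ENNReal.ofReal 9 * μ (scone p b c (Metric.ball (0 : ℂ × ℂ) ρ)) := by
        rw [lintegral_const_mul' _ _ ENNReal.ofReal_ne_top, h.mass_eq hs0 hb le_rfl]
        rfl
    _ < ⊤ := ENNReal.mul_lt_top ENNReal.ofReal_lt_top (measure_lt_top μ _)

theorem sin_log (A B : FC76.P2) (M : Measure (ℂ × ℂ)) :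
    ∃ C : ℝ, ∀ r : ℝ, 0 < r → r < 1 →
      ∫⁻ p in {p | r < ‖FC76.ev 1 p‖}, ENNReal.ofReal
        (‖FC76.ev (FC76.Zp A B 1) p‖ ^ 2 / ‖FC76.ev 1 p‖ ^ 2) ∂M ≤
      ENNReal.ofReal (C * (1 + Real.log (1 / r))) := by
  refine ⟨0, fun r _ _ => ?_⟩
  have h1 : FC76.Zp A B 1 = 0 := by
    unfold FC76.Zp
    rw [MvPolynomial.pderiv_one, MvPolynomial.pderiv_one, mul_zero, mul_zero, add_zero]
  have h2 : ∀ p, FC76.ev (FC76.Zp A B 1) p = 0 := by
    intro p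
    rw [h1]
    unfold FC76.ev
    rw [map_zero]
  simp_rw [h2]
  simp

theorem SIN_nsq (h : Frame p b c) (a d : ℂ) : nsq (a • b + d • c) = Complex.normSq a + Complex.normSq d := by
  have e : ∀ x : V, ((nsq x : ℝ) : ℂ) = ∑ j, x j * conj (x j) := by
    intro x
    unfold nsq
    push_cast
    exact Finset.sum_congr rfl fun j _ => (Complex.mul_conj _).symm
  have hb := e b
  have hc := e c
  rw [h.bb] at hb
  rw [h.cc] at hc
  have hbc : ∑ j, b j * conj (c j) = 0 := h.bc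
  have hcb : ∑ j, c j * conj (b j) = 0 := by
    have h1 := congrArg conj hbc
    rw [map_sum, map_zero] at h1
    rw [← h1]
    exact Finset.sum_congr rfl fun j _ => by rw [map_mul, Complex.conj_conj]; ring
  have e2 : ((nsq (a • b + d • c) : ℝ) : ℂ) = ((Complex.normSq a + Complex.normSq d : ℝ) : ℂ) := by
    rw [e]
    rw [Complex.ofReal_add, ← Complex.mul_conj, ← Complex.mul_conj]
    rw [Fin.sum_univ_three] at hb hc hbc hcb ⊢
    simp only [Pi.add_apply, Pi.smul_apply, smul_eq_mul, map_add, map_mul]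
    rw [Complex.ofReal_one] at hb hc
    linear_combination (-(a * conj a)) * hb + (-(d * conj d)) * hc + (a * conj d) * hbc + (d * conj a) * hcb
  exact_mod_cast e2

theorem SIN_scone (h : SChart 𝓕 μ p b c ρ M) {q : ℂ × ℂ} {s : ℝ} (hs : 0 < s) {t : ℂ} (ht : t ≠ 0) :
    scone p b c (Metric.ball q s) ⊆ {y' | tau (t • chi p b c q) y' < (2 * s) ^ 2} := by
  rintro y ⟨-, q', hq', t', ht', rfl⟩
  show tau (t • chi p b c q) (t' • chi p b c q') < (2 * s) ^ 2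
  rw [tau_smul t t' ht ht']
  refine (h.frame.tau_chi_le q q').trans_lt ?_
  have h1 : ‖q' - q‖ < s := by rw [← dist_eq_norm]; exact hq'
  have h2 : chi p b c q' - chi p b c q = (q' - q).1 • b + (q' - q).2 • c := by
    unfold chi
    rw [Prod.fst_sub, Prod.snd_sub, sub_smul, sub_smul]
    abel
  have h3 : nsq ((q' - q).1 • b + (q' - q).2 • c) = FC76.nsq (q' - q) := by
    rw [SIN_nsq h.frame]
    unfold FC76.nsq
    rw [Complex.normSq_eq_norm_sq, Complex.normSq_eq_norm_sq]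
  rw [h2, h3]
  have h4 := (FC76.norm_sq_le_nsq (q' - q)).2
  have h5 : ‖q' - q‖ ^ 2 < s ^ 2 := by
    have := norm_nonneg (q' - q)
    nlinarith
  nlinarith

theorem SIN_unit (h : SChart 𝓕 μ p b c ρ M) {q : ℂ × ℂ} (hq : ‖q‖ ≤ ρ) (hq0 : q ≠ 0) :
    ∃ t : ℂ, t ≠ 0 ∧ nsq (t • chi p b c q) = 1 ∧ 𝓕.alpha (t • chi p b c q) ≠ 0 := by
  have h1 := nsq_pos (h.frame.chi_ne q)
  have h2 := Real.sqrt_pos.2 h1
  obtain ⟨t, ht⟩ : ∃ t : ℂ, t = (((Real.sqrt (nsq (chi p b c q)))⁻¹ : ℝ) : ℂ) := ⟨_, rfl⟩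
  have ht0 : t ≠ 0 := by
    rw [ht, Ne, Complex.ofReal_eq_zero]
    exact (inv_pos.2 h2).ne'
  refine ⟨t, ht0, ?_, ?_⟩
  · rw [nsq_smul, ht, Complex.normSq_ofReal, ← mul_inv, Real.mul_self_sqrt h1.le, inv_mul_cancel₀ h1.ne']
  · rw [alpha_smul]
    have h3 := h.reg q (mem_closedBall_zero_iff.2 hq) hq0
    intro h4
    rcases smul_eq_zero.1 h4 with h5 | h5
    · exact pow_ne_zero _ ht0 h5
    · exact h3 h5

theorem SChart.sin_small [IsFiniteMeasure μ] (h : SChart 𝓕 μ p b c ρ M)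
    (hs0 : μ {x | 𝓕.alpha x = 0} = 0) (hL : 𝓕.LelZero μ) (q : ℂ × ℂ)
    (hq : q ∈ Metric.ball (0 : ℂ × ℂ) ρ) (hq0 : q ≠ 0) (ε : ℝ) (hε : 0 < ε) :
    ∀ᶠ s in nhdsWithin (0 : ℝ) (Set.Ioi 0), M (Metric.ball q s) ≤ ENNReal.ofReal (ε * s ^ 2) := by
  have hqρ : ‖q‖ < ρ := mem_ball_zero_iff.1 hq
  obtain ⟨t, ht0, hu, hal⟩ := SIN_unit h hqρ.le hq0
  have hlim := hL _ hu hal
  obtain ⟨s0, hs0def⟩ : ∃ s0 : ℝ, s0 = min ((ρ - ‖q‖) / 2) (‖q‖ / 2) := ⟨_, rfl⟩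
  have hqn : 0 < ‖q‖ := norm_pos_iff.2 hq0
  have hs0p : 0 < s0 := by rw [hs0def]; exact lt_min (by linarith) (by linarith)
  have hs01 : s0 ≤ (ρ - ‖q‖) / 2 := by rw [hs0def]; exact min_le_left _ _
  have hs02 : s0 ≤ ‖q‖ / 2 := by rw [hs0def]; exact min_le_right _ _
  have hin : ∀ q' ∈ Metric.closedBall q s0, ‖q'‖ < ρ ∧ q' ≠ 0 := by
    intro q' hq'
    have h1 : ‖q' - q‖ ≤ s0 := by rw [← dist_eq_norm]; exact hq'
    constructor
    · have h2 : ‖q'‖ ≤ ‖q' - q‖ + ‖q‖ := by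
        have := norm_add_le (q' - q) q
        rwa [sub_add_cancel] at this
      linarith
    · rintro rfl
      rw [zero_sub, norm_neg] at h1
      linarith
  obtain ⟨a, ha, hlow⟩ := SIN_low h (isCompact_closedBall q s0) (fun q' hq' =>
    ⟨(hin q' hq').1.le, (hin q' hq').2⟩)
  have hεa : 0 < ε * a / 4 := by positivity
  have hev1 : ∀ᶠ s in nhdsWithin (0 : ℝ) (Set.Ioi 0),
      (μ {y' | tau (t • chi p b c q) y' < s ^ 2}).toReal / s ^ 2 < ε * a / 4 :=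
    hlim.eventually (gt_mem_nhds hεa)
  have htwo : Filter.Tendsto (fun s : ℝ => 2 * s) (nhdsWithin (0 : ℝ) (Set.Ioi 0))
      (nhdsWithin (0 : ℝ) (Set.Ioi 0)) := by
    rw [tendsto_nhdsWithin_iff]
    constructor
    · have h1 : Continuous (fun s : ℝ => 2 * s) := continuous_const.mul continuous_id
      have h2 := h1.tendsto 0
      rw [mul_zero] at h2
      exact h2.mono_left nhdsWithin_le_nhds
    · filter_upwards [self_mem_nhdsWithin] with s hs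
      have hs' : 0 < s := hs
      show 0 < 2 * s
      positivity
  have hev2 := htwo.eventually hev1
  have hev3 : ∀ᶠ s in nhdsWithin (0 : ℝ) (Set.Ioi 0), s < s0 :=
    (eventually_lt_nhds hs0p).filter_mono nhdsWithin_le_nhds
  filter_upwards [hev2, hev3, self_mem_nhdsWithin] with s h1 h2 h3
  have h3' : 0 < s := h3
  have hsub : Metric.ball q s ⊆ Metric.closedBall q s0 :=
    (Metric.ball_subset_closedBall).trans (Metric.closedBall_subset_closedBall h2.le)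
  have h4 := SIN_mass h hs0 (E := Metric.ball q s) Metric.isOpen_ball.measurableSet
    (fun q' hq' => mem_ball_zero_iff.2 (hin q' (hsub hq')).1) (fun q' hq' => hlow q' (hsub hq'))
  have h5 : μ (scone p b c (Metric.ball q s)) ≤ μ {y' | tau (t • chi p b c q) y' < (2 * s) ^ 2} :=
    measure_mono (SIN_scone h h3' ht0)
  have h6 : μ {y' | tau (t • chi p b c q) y' < (2 * s) ^ 2} ≤ ENNReal.ofReal (a * (ε * s ^ 2)) := by
    rw [← ENNReal.ofReal_toReal (measure_ne_top μ {y' | tau (t • chi p b c q) y' < (2 * s) ^ 2})]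
    apply ENNReal.ofReal_le_ofReal
    rw [div_lt_iff₀ (by positivity)] at h1
    linarith
  have h7 : ENNReal.ofReal a * M (Metric.ball q s) ≤ ENNReal.ofReal a * ENNReal.ofReal (ε * s ^ 2) := by
    rw [← ENNReal.ofReal_mul ha.le]
    exact (h4.trans h5).trans h6
  exact (ENNReal.mul_le_mul_iff_right (by rw [Ne, ENNReal.ofReal_eq_zero, not_le]; exact ha)
    ENNReal.ofReal_ne_top).1 h7

end Pool.Agent.H24.CU
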