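import Pool.Agent.H24.CU.RSP
import Pool.Agent.H76.FL.LB

/-!
# Row SVA (pull back of (1,0)-forms of the chart to `C^3`)

`ℓ0 y = herm y p`, `ℓ1 y = herm y b`, `ℓ2 y = herm y c` (complex linear), `π y = (ℓ1 y/ℓ0 y, ℓ2 y/ℓ0 y)`.  `pbf` is the pull back by `π` of the form
`f dq_1 + g dq_2` (`dℓ1 = ∑ conj(b_j) dx_j` etc.); it is `0` where `ℓ0 = 0` (division by zero).
PROOFS.  `pbf_isCov`: on the open set `{ℓ0 ≠ 0}` it is smooth.  Let `‖q‖ <= R` on the supports.  If `ℓ0 y₀ = 0`, `y₀ ≠ 0`: then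
`|ℓ1 y₀|^2 + |ℓ2 y₀|^2 = nsq y₀ > 0` (`Frame.expand`), so `‖π y‖ > R` for all `y` near `y₀` with `ℓ0 y ≠ 0`: `pbf = 0` near `y₀` (`pbf_zero`).
`hom`: `π (l y) = π y`, the bracket scales by `l`, the denominator by `l^2`.  `kill`: `∑_j y_j (ℓ0 y conj(b_j) - ℓ1 y conj(p_j)) = ℓ0 ℓ1 - ℓ1 ℓ0 = 0`.
`wt_db`: for `DC.IsCov ζ`: differentiate `ζ (t y) = t⁻¹ ζ y` in `y`: `dzb k ζ_j (t y) = t⁻¹ (conj t)⁻¹ dzb k ζ_j (y)`; `vec (t y) = t^deg vec y`.
`pbf_pr`: at `y = chi q`.  Since `vec_j` is a polynomial, `∑_jk dzb_k ζ_j vec_j conj(vec_k) = ∑_k conj(vec_k) dzb_k H`, `H(y) = ∑_j ζ_j(y) vec_j(y)`; near `y = chi q`, writing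
`y = t • chi (π y)`, `t = ℓ0 y`: `vec y = t^deg (c₀ chi + A b + B c)` (`Frame.vec_chi` at `π y`), `∑_j ζ_j b_j = f(π y)/t`, `∑ ζ_j c_j = g(π y)/t`, `∑ ζ_j y_j = 0`, so
`H(y) = t^deg/t (A(π y) f(π y) + B(π y) g(π y))`.  The factor `(ℓ0 y)^deg/(ℓ0 y)` is holomorphic, so at `chi q` (`t = 1`)
`∑_k conj(vec_k) dzb_k H = dWb (A f + B g) q (Dπ (vec)) = A dWb f q Z + B dWb g q Z` (`A, B` holomorphic; `π` holomorphic with
`Dπ (vec (chi q)) = Z q`: `Dπ` at `chi q` kills `chi q`, maps `b` to `(1,0)`, `c` to `(0,1)`; the operator `∑_k conj(v_k) dzb_k` is `(D_v + i D_{iv})/2`).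
`continuous_db`: `y ↦ ∑∑ db ζ ..` is continuous on `{0}ᶜ`.
-/

namespace Pool.Agent.H24.CU

open MvPolynomial
open scoped ComplexConjugate ContDiff

/-- The chart map. -/
noncomputable def pim (p b c : V) (y : V) : ℂ × ℂ := (herm y b / herm y p, herm y c / herm y p)

/-- The pull back of `f dq_1 + g dq_2`. -/
noncomputable def pbf (p b c : V) (f g : ℂ × ℂ → ℂ) (y : V) : V := fun j =>
  (f (pim p b c y) * (herm y p * conj (b j) - herm y b * conj (p j)) +
    g (pim p b c y) * (herm y p * conj (c j) - herm y c * conj (p j))) / (herm y p) ^ 2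

/-- The pairing of `∂̄ζ` with the vector field. -/
noncomputable def Foliation.pdb (𝓕 : Foliation) (ζ : V → V) (y : V) : ℂ :=
  ∑ j, ∑ k, Pool.Agent.H85.DC.db ζ y j k * 𝓕.vec y j * conj (𝓕.vec y k)

variable {p b c : V}

/-- The operator `∑_k conj(v_k) ∂/∂conj(x_k)`. -/
noncomputable def SVA_wb (g : V → ℂ) (y v : V) : ℂ :=
  (fderiv ℝ g y v + Complex.I * fderiv ℝ g y (Complex.I • v)) / 2

private theorem SVA_lin (L : V →L[ℝ] ℂ) (v : V) (z : ℂ) :
    L (z • v) = (z.re : ℂ) * L v + (z.im : ℂ) * L (Complex.I • v) := by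
  have h : z • v = z.re • v + z.im • (Complex.I • v) := by
    funext j
    show z * v j = z.re • v j + z.im • (Complex.I * v j)
    rw [Complex.real_smul, Complex.real_smul]
    conv_lhs => rw [← Complex.re_add_im z]
    ring
  rw [h, map_add, map_smul, map_smul, Complex.real_smul, Complex.real_smul]

private theorem SVA_smul (g : V → ℂ) (y v : V) (z : ℂ) :
    SVA_wb g y (z • v) = conj z * SVA_wb g y v := by
  have e1 : Complex.I • (z • v) = z • (Complex.I • v) := smul_comm _ _ _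
  have e2 : Complex.I • (Complex.I • v) = -v := by
    rw [smul_smul, Complex.I_mul_I, neg_one_smul]
  have e3 : conj z = (z.re : ℂ) - (z.im : ℂ) * Complex.I := by
    apply Complex.ext
    · simp
    · simp
  unfold SVA_wb
  rw [e1, SVA_lin _ v z, SVA_lin _ (Complex.I • v) z, e2, map_neg, e3]
  linear_combination ((1 : ℂ) / 2 * (z.im : ℂ) * fderiv ℝ g y (Complex.I • v)) * Complex.I_mul_I

private theorem SVA_add (g : V → ℂ) (y v w : V) :
    SVA_wb g y (v + w) = SVA_wb g y v + SVA_wb g y w := by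
  unfold SVA_wb
  rw [smul_add, map_add, map_add]
  ring

private theorem SVA_dzb (g : V → ℂ) (y : V) (k : Fin 3) :
    Pool.Agent.H85.DC.dzb k g y = SVA_wb g y (Pi.single k 1) := by
  have h : Complex.I • (Pi.single k 1 : V) = Pi.single k Complex.I := by
    rw [← Pi.single_smul, smul_eq_mul, mul_one]
  unfold Pool.Agent.H85.DC.dzb SVA_wb
  rw [h]

private theorem SVA_sum (g : V → ℂ) (y v : V) :
    ∑ k, Pool.Agent.H85.DC.dzb k g y * conj (v k) = SVA_wb g y v := by
  have h : v = v 0 • (Pi.single 0 1 : V) + v 1 • (Pi.single 1 1 : V) +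
      v 2 • (Pi.single 2 1 : V) := by
    funext j
    fin_cases j <;> simp
  conv_rhs => rw [h]
  rw [SVA_add, SVA_add, SVA_smul, SVA_smul, SVA_smul, Fin.sum_univ_three, SVA_dzb, SVA_dzb,
    SVA_dzb]
  ring

private theorem SVA_pdb (𝓕 : Foliation) (ζ : V → V) (y : V) :
    𝓕.pdb ζ y = ∑ j, 𝓕.vec y j * SVA_wb (fun z => ζ z j) y (𝓕.vec y) := by
  unfold Foliation.pdb
  refine Finset.sum_congr rfl fun j _ => ?_
  rw [← SVA_sum, Finset.mul_sum]
  refine Finset.sum_congr rfl fun k _ => ?_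
  show Pool.Agent.H85.DC.dzb k (fun z => ζ z j) y * 𝓕.vec y j * conj (𝓕.vec y k) =
    𝓕.vec y j * (Pool.Agent.H85.DC.dzb k (fun z => ζ z j) y * conj (𝓕.vec y k))
  ring

/-- The complex linear form `y ↦ herm y w`. -/
noncomputable def SVA_L (w : V) : V →L[ℂ] ℂ :=
  ∑ j, conj (w j) • (ContinuousLinearMap.proj j : V →L[ℂ] ℂ)

private theorem SVA_L_apply (w y : V) : SVA_L w y = herm y w := by
  unfold SVA_L herm
  rw [sum_apply]
  refine Finset.sum_congr rfl fun j _ => ?_
  show conj (w j) * y j = y j * conj (w j)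
  ring

private theorem SVA_hasFDerivAt (w y : V) : HasFDerivAt (fun z => herm z w) (SVA_L w) y := by
  have h := (SVA_L w).hasFDerivAt (x := y)
  exact h.congr_of_eventuallyEq (Filter.Eventually.of_forall fun z => (SVA_L_apply w z).symm)

private theorem SVA_smooth (w : V) : ContDiff ℝ ∞ (fun z : V => herm z w) := by
  have h : (fun z : V => herm z w) = fun z => SVA_L w z := by
    funext z
    exact (SVA_L_apply w z).symm
  rw [h]
  exact ((SVA_L w).contDiff).restrict_scalars ℝ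

private theorem SVA_herm_smul (l : ℂ) (x w : V) : herm (l • x) w = l * herm x w := by
  rw [← SVA_L_apply, ← SVA_L_apply, map_smul, smul_eq_mul]

theorem pbf_zero (h : Frame p b c) {f g : ℂ × ℂ → ℂ} (hf : HasCompactSupport f)
    (hg : HasCompactSupport g) (y : V) (hy : y ≠ 0) (hp : herm y p = 0) :
    ∀ᶠ y' in nhds y, pbf p b c f g y' = 0 := by
  obtain ⟨R, hR⟩ := ((hf.union hg).isBounded).subset_closedBall (0 : ℂ × ℂ)
  have hfR : ∀ q, |R| < ‖q‖ → f q = 0 ∧ g q = 0 := by
    intro q hq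
    have h1 : ∀ s : Set (ℂ × ℂ), s ⊆ tsupport f ∪ tsupport g → q ∉ s := by
      intro s hs hqs
      have h2 := hR (hs hqs)
      rw [mem_closedBall_zero_iff] at h2
      linarith [le_abs_self R]
    exact ⟨image_eq_zero_of_notMem_tsupport (h1 _ Set.subset_union_left),
      image_eq_zero_of_notMem_tsupport (h1 _ Set.subset_union_right)⟩
  have hpos : 0 < max ‖herm y b‖ ‖herm y c‖ := by
    by_contra hcon
    rw [not_lt] at hcon
    have h1 : ‖herm y b‖ = 0 := le_antisymm ((le_max_left _ _).trans hcon) (norm_nonneg _)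
    have h2 : ‖herm y c‖ = 0 := le_antisymm ((le_max_right _ _).trans hcon) (norm_nonneg _)
    apply hy
    rw [h.expand y, hp, norm_eq_zero.1 h1, norm_eq_zero.1 h2]
    simp
  have hc : ∀ w, Continuous (fun z : V => herm z w) := fun w => (SVA_smooth w).continuous
  have hev : ∀ᶠ y' in nhds y, (|R| + 1) * ‖herm y' p‖ < max ‖herm y' b‖ ‖herm y' c‖ := by
    have h1 : Continuous (fun y' : V => (|R| + 1) * ‖herm y' p‖) :=
      continuous_const.mul (hc p).norm
    have h2 : Continuous (fun y' : V => max ‖herm y' b‖ ‖herm y' c‖) :=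
      (hc b).norm.max (hc c).norm
    refine h1.continuousAt.eventually_lt h2.continuousAt ?_
    show (|R| + 1) * ‖herm y p‖ < max ‖herm y b‖ ‖herm y c‖
    rw [hp, norm_zero, mul_zero]
    exact hpos
  filter_upwards [hev] with y' hy'
  funext j
  show (f (pim p b c y') * (herm y' p * conj (b j) - herm y' b * conj (p j)) +
    g (pim p b c y') * (herm y' p * conj (c j) - herm y' c * conj (p j))) / (herm y' p) ^ 2 = 0
  by_cases h0 : herm y' p = 0
  · rw [h0]
    simp
  · have hn : 0 < ‖herm y' p‖ := norm_pos_iff.2 h0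
    have h1 : |R| < ‖pim p b c y'‖ := by
      have h2 : ‖pim p b c y'‖ = max (‖herm y' b‖ / ‖herm y' p‖) (‖herm y' c‖ / ‖herm y' p‖) := by
        unfold pim
        rw [Prod.norm_def]
        show max ‖herm y' b / herm y' p‖ ‖herm y' c / herm y' p‖ = _
        rw [norm_div, norm_div]
      rw [h2]
      rcases lt_max_iff.1 hy' with h3 | h3
      · apply lt_max_of_lt_left
        rw [lt_div_iff₀ hn]
        nlinarith [abs_nonneg R]
      · apply lt_max_of_lt_right
        rw [lt_div_iff₀ hn]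
        nlinarith [abs_nonneg R]
    obtain ⟨e1, e2⟩ := hfR _ h1
    rw [e1, e2]
    simp

private theorem SVA_pim_contDiffAt (y : V) (hp : herm y p ≠ 0) :
    ContDiffAt ℝ ∞ (pim p b c) y := by
  have h0 : ContDiffAt ℝ ∞ (fun z : V => (herm z p)⁻¹) y := (SVA_smooth p).contDiffAt.inv hp
  have h1 := (((SVA_smooth b).contDiffAt (x := y)).mul h0).prodMk
    (((SVA_smooth c).contDiffAt (x := y)).mul h0)
  refine h1.congr_of_eventuallyEq (Filter.Eventually.of_forall fun z => ?_)
  show (herm z b / herm z p, herm z c / herm z p) =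
    (herm z b * (herm z p)⁻¹, herm z c * (herm z p)⁻¹)
  rw [div_eq_mul_inv, div_eq_mul_inv]

theorem pbf_isCov (h : Frame p b c) {f g : ℂ × ℂ → ℂ} (hf : ContDiff ℝ ∞ f)
    (hg : ContDiff ℝ ∞ g) (hf2 : HasCompactSupport f) (hg2 : HasCompactSupport g) :
    Pool.Agent.H85.DC.IsCov (pbf p b c f g) := by
  refine ⟨?_, ?_, ?_⟩
  · intro y hy
    apply ContDiffAt.contDiffWithinAt
    by_cases hp : herm y p = 0
    · exact contDiffAt_const.congr_of_eventuallyEq (pbf_zero h hf2 hg2 y hy hp)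
    · rw [contDiffAt_pi]
      intro j
      have h1 := SVA_pim_contDiffAt (b := b) (c := c) y hp
      have h2 : ContDiffAt ℝ ∞ (fun y => f (pim p b c y)) y := hf.contDiffAt.comp y h1
      have h3 : ContDiffAt ℝ ∞ (fun y => g (pim p b c y)) y := hg.contDiffAt.comp y h1
      have sp := (SVA_smooth p).contDiffAt (x := y)
      have sb := (SVA_smooth b).contDiffAt (x := y)
      have sc := (SVA_smooth c).contDiffAt (x := y)
      have h4 := ((h2.mul ((sp.mul (contDiffAt_const (c := conj (b j)))).sub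
        (sb.mul (contDiffAt_const (c := conj (p j)))))).add
        (h3.mul ((sp.mul (contDiffAt_const (c := conj (c j)))).sub
        (sc.mul (contDiffAt_const (c := conj (p j))))))).mul ((sp.pow 2).inv (pow_ne_zero 2 hp))
      refine h4.congr_of_eventuallyEq (Filter.Eventually.of_forall fun z => ?_)
      show (f (pim p b c z) * (herm z p * conj (b j) - herm z b * conj (p j)) +
        g (pim p b c z) * (herm z p * conj (c j) - herm z c * conj (p j))) / (herm z p) ^ 2 = _
      rw [div_eq_mul_inv]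
      rfl
  · intro l x hl
    have e1 : pim p b c (l • x) = pim p b c x := by
      unfold pim
      rw [SVA_herm_smul, SVA_herm_smul, SVA_herm_smul, mul_div_mul_left _ _ hl,
        mul_div_mul_left _ _ hl]
    funext j
    show (f (pim p b c (l • x)) * (herm (l • x) p * conj (b j) - herm (l • x) b * conj (p j)) +
      g (pim p b c (l • x)) * (herm (l • x) p * conj (c j) - herm (l • x) c * conj (p j))) /
        (herm (l • x) p) ^ 2 =
      l⁻¹ * ((f (pim p b c x) * (herm x p * conj (b j) - herm x b * conj (p j)) +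
      g (pim p b c x) * (herm x p * conj (c j) - herm x c * conj (p j))) / (herm x p) ^ 2)
    rw [e1, SVA_herm_smul, SVA_herm_smul, SVA_herm_smul, mul_pow, div_eq_mul_inv, div_eq_mul_inv,
      mul_inv]
    have e2 : l * (l ^ 2)⁻¹ = l⁻¹ := by
      field_simp
    rw [← e2]
    ring
  · intro x _
    have e : ∀ (F G ℓ0 ℓ1 ℓ2 : ℂ), ∑ j, x j * ((F * (ℓ0 * conj (b j) - ℓ1 * conj (p j)) +
        G * (ℓ0 * conj (c j) - ℓ2 * conj (p j))) / ℓ0 ^ 2) =
        (F * (ℓ0 * herm x b - ℓ1 * herm x p) + G * (ℓ0 * herm x c - ℓ2 * herm x p)) / ℓ0 ^ 2 := by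
      intro F G ℓ0 ℓ1 ℓ2
      unfold herm
      rw [Fin.sum_univ_three, Fin.sum_univ_three, Fin.sum_univ_three, Fin.sum_univ_three]
      ring
    have e2 := e (f (pim p b c x)) (g (pim p b c x)) (herm x p) (herm x b) (herm x c)
    have e3 : ∑ j, x j * pbf p b c f g x j = (f (pim p b c x) * (herm x p * herm x b -
        herm x b * herm x p) + g (pim p b c x) * (herm x p * herm x c - herm x c * herm x p)) /
        (herm x p) ^ 2 := e2
    rw [e3]
    have e4 : f (pim p b c x) * (herm x p * herm x b - herm x b * herm x p) +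
        g (pim p b c x) * (herm x p * herm x c - herm x c * herm x p) = 0 := by ring
    rw [e4, zero_div]

theorem wt_pdb (𝓕 : Foliation) (ζ : V → V) (hζ : Pool.Agent.H85.DC.IsCov ζ) : 𝓕.Wt (𝓕.pdb ζ) := by
  intro t y ht hy
  have hty : t • y ≠ 0 := smul_ne_zero ht hy
  have hd : ∀ (z : V) (j : Fin 3), z ≠ 0 → DifferentiableAt ℝ (fun w => ζ w j) z := by
    intro z j hz
    have h1 := (hζ.smooth z hz).contDiffAt (isOpen_compl_singleton.mem_nhds hz)
    exact (contDiffAt_pi.1 h1 j).differentiableAt (by simp)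
  have key : ∀ (j : Fin 3) (v : V), SVA_wb (fun w => ζ w j) (t • y) v =
      ((Complex.normSq t : ℝ) : ℂ)⁻¹ * SVA_wb (fun w => ζ w j) y v := by
    intro j v
    have h1 : ∀ v : V, fderiv ℝ (fun w => ζ w j) (t • y) (t • v) =
        t⁻¹ * fderiv ℝ (fun w => ζ w j) y v := by
      intro v
      obtain ⟨Lt, hLt⟩ : ∃ Lt : V →L[ℝ] V, ∀ z, Lt z = t • z :=
        ⟨(t • ContinuousLinearMap.id ℂ V).restrictScalars ℝ, fun z => rfl⟩
      have h2 : HasFDerivAt (fun w => ζ (t • w) j)
          ((fderiv ℝ (fun w => ζ w j) (t • y)).comp Lt) y := by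
        have h3 : HasFDerivAt (fun w => ζ w j) (fderiv ℝ (fun w => ζ w j) (t • y)) (Lt y) := by
          rw [hLt]
          exact (hd (t • y) j hty).hasFDerivAt
        have h4 := h3.comp y Lt.hasFDerivAt
        refine h4.congr_of_eventuallyEq (Filter.Eventually.of_forall fun z => ?_)
        show ζ (t • z) j = ζ (Lt z) j
        rw [hLt]
      have h5 : HasFDerivAt (fun w => ζ (t • w) j) (t⁻¹ • fderiv ℝ (fun w => ζ w j) y) y := by
        have h6 := (hd y j hy).hasFDerivAt.const_smul t⁻¹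
        refine h6.congr_of_eventuallyEq (Filter.Eventually.of_forall fun z => ?_)
        show ζ (t • z) j = t⁻¹ • ζ z j
        rw [hζ.hom t z ht]
        rfl
      have h6 := congrArg (fun L : V →L[ℝ] ℂ => L v) (h2.unique h5)
      have h7 : fderiv ℝ (fun w => ζ w j) (t • y) (Lt v) =
        t⁻¹ * fderiv ℝ (fun w => ζ w j) y v := h6
      rw [hLt] at h7
      exact h7
    have h8 : SVA_wb (fun w => ζ w j) (t • y) (t • v) = t⁻¹ * SVA_wb (fun w => ζ w j) y v := by
      unfold SVA_wb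
      rw [smul_comm Complex.I t v, h1, h1]
      ring
    rw [SVA_smul] at h8
    have hct : conj t ≠ 0 := by
      rw [Ne, map_eq_zero]
      exact ht
    have hns : ((Complex.normSq t : ℝ) : ℂ) = t * conj t := (Complex.mul_conj t).symm
    rw [hns, mul_inv]
    calc SVA_wb (fun w => ζ w j) (t • y) v =
        (conj t)⁻¹ * (conj t * SVA_wb (fun w => ζ w j) (t • y) v) := by
          rw [← mul_assoc, inv_mul_cancel₀ hct, one_mul]
      _ = _ := by
          rw [h8]
          ring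
  rw [SVA_pdb, SVA_pdb, Finset.mul_sum]
  refine Finset.sum_congr rfl fun j _ => ?_
  rw [key, vec_smul, SVA_smul]
  show t ^ 𝓕.deg * 𝓕.vec y j * _ = _
  have hns : ((Complex.normSq t : ℝ) : ℂ) = t * conj t := (Complex.mul_conj t).symm
  rw [Complex.ofReal_div, Complex.ofReal_pow, map_pow]
  have e : ((Complex.normSq t : ℝ) : ℂ) ^ 𝓕.deg = t ^ 𝓕.deg * conj t ^ 𝓕.deg := by
    rw [hns, mul_pow]
  rw [e]
  ring

theorem continuousOn_pdb (𝓕 : Foliation) (ζ : V → V) (hζ : Pool.Agent.H85.DC.IsCov ζ) :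
    ContinuousOn (𝓕.pdb ζ) {0}ᶜ := by
  have hvec : ∀ j, Continuous (fun y => 𝓕.vec y j) := fun j =>
    MvPolynomial.continuous_eval (𝓕.F j)
  have hfd : ∀ j, ContinuousOn (fun y => fderiv ℝ (fun w => ζ w j) y) {0}ᶜ := by
    intro j
    have h1 : ContDiffOn ℝ ∞ (fun w => ζ w j) {0}ᶜ := contDiffOn_pi.1 hζ.smooth j
    exact h1.continuousOn_fderiv_of_isOpen isOpen_compl_singleton (by simp)
  have hdzb : ∀ j k, ContinuousOn (fun y => Pool.Agent.H85.DC.db ζ y j k) {0}ᶜ := by
    intro j k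
    have h1 : ContinuousOn (fun y => (fderiv ℝ (fun w => ζ w j) y (Pi.single k 1) +
        Complex.I * fderiv ℝ (fun w => ζ w j) y (Pi.single k Complex.I)) / 2) {0}ᶜ :=
      (((hfd j).clm_apply continuousOn_const).add
        (continuousOn_const.mul ((hfd j).clm_apply continuousOn_const))).div_const 2
    exact h1
  refine continuousOn_finsetSum _ fun j _ => continuousOn_finsetSum _ fun k _ => ?_
  exact ((hdzb j k).mul (hvec j).continuousOn).mul
    (Complex.continuous_conj.comp (hvec k)).continuousOn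

private theorem SVA_mul {f g : V → ℂ} {y : V} (hf : DifferentiableAt ℝ f y)
    (hg : DifferentiableAt ℝ g y) (v : V) :
    SVA_wb (fun q => f q * g q) y v = f y * SVA_wb g y v + g y * SVA_wb f y v := by
  have h := (hf.hasFDerivAt.mul hg.hasFDerivAt).fderiv
  have h1 : ∀ w, fderiv ℝ (fun q => f q * g q) y w = f y * fderiv ℝ g y w + g y * fderiv ℝ f y w := by
    intro w
    have h2 := congrArg (fun L : V →L[ℝ] ℂ => L w) h
    exact h2
  unfold SVA_wb
  rw [h1, h1]
  ring

private theorem SVA_fadd {f g : V → ℂ} {y : V} (hf : DifferentiableAt ℝ f y)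
    (hg : DifferentiableAt ℝ g y) (v : V) :
    SVA_wb (fun q => f q + g q) y v = SVA_wb f y v + SVA_wb g y v := by
  have h := (hf.hasFDerivAt.add hg.hasFDerivAt).fderiv
  have h1 : ∀ w, fderiv ℝ (fun q => f q + g q) y w = fderiv ℝ f y w + fderiv ℝ g y w := by
    intro w
    have h2 := congrArg (fun L : V →L[ℝ] ℂ => L w) h
    exact h2
  unfold SVA_wb
  rw [h1, h1]
  ring

private theorem SVA_holo {F : V → ℂ} {y : V} (hF : DifferentiableAt ℂ F y) (v : V) :
    SVA_wb F y v = 0 := by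
  have h1 : ∀ w, fderiv ℝ F y w = fderiv ℂ F y w := by
    intro w
    rw [hF.fderiv_restrictScalars ℝ]
    rfl
  unfold SVA_wb
  rw [h1, h1, map_smul, smul_eq_mul]
  linear_combination ((fderiv ℂ F y v) / 2) * Complex.I_mul_I

private theorem SVA_comp {f : ℂ × ℂ → ℂ} {π : V → ℂ × ℂ} {y : V} {L : V →L[ℂ] ℂ × ℂ}
    (hf : DifferentiableAt ℝ f (π y)) (hπ : HasFDerivAt π L y) (v : V) :
    SVA_wb (fun z => f (π z)) y v = FC76.dWb f (π y) (L v) := by
  have h1 : ∀ w, fderiv ℝ (fun z => f (π z)) y w = fderiv ℝ f (π y) (L w) := by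
    intro w
    have h2 := hf.hasFDerivAt.comp y (hπ.restrictScalars ℝ)
    have h3 := congrArg (fun L : V →L[ℝ] ℂ => L w) h2.fderiv
    exact h3
  unfold SVA_wb FC76.dWb
  rw [h1, h1, map_smul]

/-- The derivative of the quotient of two linear forms. -/
private theorem SVA_quot (w y : V) (hp : herm y p ≠ 0) :
    HasFDerivAt (fun z => herm z w / herm z p)
      ((herm y p)⁻¹ • SVA_L w - (herm y w * ((herm y p) ^ 2)⁻¹) • SVA_L p) y := by
  have h1 := (hasDerivAt_inv hp).comp_hasFDerivAt y (SVA_hasFDerivAt p y)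
  have h2 := (SVA_hasFDerivAt w y).mul h1
  have h3 : (fun z => herm z w / herm z p) = fun z => herm z w * ((fun x : ℂ => x⁻¹) ∘
      (fun z => herm z p)) z := by
    funext z
    rw [div_eq_mul_inv]
    rfl
  rw [h3]
  refine h2.congr_fderiv ?_
  ext v
  show herm y w * (-(herm y p ^ 2)⁻¹ * SVA_L p v) + (herm y p)⁻¹ * SVA_L w v =
    (herm y p)⁻¹ * SVA_L w v - (herm y w * ((herm y p) ^ 2)⁻¹) * SVA_L p v
  ring

theorem pbf_pdb (h : Frame p b c) (𝓕 : Foliation) {f g : ℂ × ℂ → ℂ} (hf : ContDiff ℝ ∞ f)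
    (hg : ContDiff ℝ ∞ g) (q : ℂ × ℂ) :
    𝓕.pdb (pbf p b c f g) (chi p b c q) =
      FC76.ev (resA 𝓕 p b c) q *
        FC76.dWb f q (FC76.vf (resA 𝓕 p b c) (resB 𝓕 p b c) q) +
      FC76.ev (resB 𝓕 p b c) q *
        FC76.dWb g q (FC76.vf (resA 𝓕 p b c) (resB 𝓕 p b c) q) := by
  obtain ⟨hq0, hq1, hq2⟩ := h.herm_chi q
  have hq00 : herm (chi p b c q) p ≠ 0 := by
    rw [hq0]
    exact one_ne_zero
  -- products of the vector field with the frame
  have hlin : ∀ w, herm (𝓕.vec (chi p b c q)) w =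
      FC76.ev (res0 𝓕 p b c) q * herm (chi p b c q) w +
        FC76.ev (resA 𝓕 p b c) q * herm b w + FC76.ev (resB 𝓕 p b c) q * herm c w := by
    intro w
    rw [h.vec_chi, ← SVA_L_apply, map_add, map_add, map_smul, map_smul, map_smul, SVA_L_apply,
      SVA_L_apply, SVA_L_apply, smul_eq_mul, smul_eq_mul, smul_eq_mul]
  have hconj : ∀ x y : V, herm x y = conj (herm y x) := by
    intro x y
    unfold herm
    rw [map_sum]
    refine Finset.sum_congr rfl fun j _ => ?_
    rw [map_mul, Complex.conj_conj, mul_comm]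
  have hself : ∀ x : V, herm x x = ((nsq x : ℝ) : ℂ) := by
    intro x
    unfold herm nsq
    rw [Complex.ofReal_sum]
    exact Finset.sum_congr rfl fun j _ => Complex.mul_conj (x j)
  have hbp : herm b p = 0 := by rw [hconj, h.pb, map_zero]
  have hcp : herm c p = 0 := by rw [hconj, h.pc, map_zero]
  have hcb : herm c b = 0 := by rw [hconj, h.bc, map_zero]
  have hbb : herm b b = 1 := by rw [hself, h.bb, Complex.ofReal_one]
  have hcc : herm c c = 1 := by rw [hself, h.cc, Complex.ofReal_one]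
  have v0 : herm (𝓕.vec (chi p b c q)) p = FC76.ev (res0 𝓕 p b c) q := by
    rw [hlin, hq0, hbp, hcp]
    ring
  have v1 : herm (𝓕.vec (chi p b c q)) b = FC76.ev (res0 𝓕 p b c) q * q.1 +
      FC76.ev (resA 𝓕 p b c) q := by
    rw [hlin, hq1, hbb, hcb]
    ring
  have v2 : herm (𝓕.vec (chi p b c q)) c = FC76.ev (res0 𝓕 p b c) q * q.2 +
      FC76.ev (resB 𝓕 p b c) q := by
    rw [hlin, hq2, h.bc, hcc]
    ring
  have hπq : pim p b c (chi p b c q) = q := by
    unfold pim
    rw [hq0, hq1, hq2, div_one, div_one]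
  have hπ := (SVA_quot (p := p) b (chi p b c q) hq00).prodMk
    (SVA_quot (p := p) c (chi p b c q) hq00)
  have hπ' : HasFDerivAt (pim p b c) _ (chi p b c q) := hπ
  have hdir : (((herm (chi p b c q) p)⁻¹ • SVA_L b -
      (herm (chi p b c q) b * ((herm (chi p b c q) p) ^ 2)⁻¹) • SVA_L p).prod
      ((herm (chi p b c q) p)⁻¹ • SVA_L c -
      (herm (chi p b c q) c * ((herm (chi p b c q) p) ^ 2)⁻¹) • SVA_L p))
      (𝓕.vec (chi p b c q)) = FC76.vf (resA 𝓕 p b c) (resB 𝓕 p b c) q := by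
    apply Prod.ext
    · show (herm (chi p b c q) p)⁻¹ * SVA_L b (𝓕.vec (chi p b c q)) -
        (herm (chi p b c q) b * ((herm (chi p b c q) p) ^ 2)⁻¹) * SVA_L p (𝓕.vec (chi p b c q)) =
        FC76.ev (resA 𝓕 p b c) q
      rw [SVA_L_apply, SVA_L_apply, hq0, hq1, v0, v1]
      ring
    · show (herm (chi p b c q) p)⁻¹ * SVA_L c (𝓕.vec (chi p b c q)) -
        (herm (chi p b c q) c * ((herm (chi p b c q) p) ^ 2)⁻¹) * SVA_L p (𝓕.vec (chi p b c q)) =
        FC76.ev (resB 𝓕 p b c) q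
      rw [SVA_L_apply, SVA_L_apply, hq0, hq2, v0, v2]
      ring
  have hcomp : ∀ F : ℂ × ℂ → ℂ, ContDiff ℝ ∞ F →
      SVA_wb (fun z => F (pim p b c z)) (chi p b c q) (𝓕.vec (chi p b c q)) =
        FC76.dWb F q (FC76.vf (resA 𝓕 p b c) (resB 𝓕 p b c) q) := by
    intro F hF
    rw [SVA_comp (hF.differentiable (by simp) _) hπ', hπq, hdir]
  have hdF : ∀ F : ℂ × ℂ → ℂ, ContDiff ℝ ∞ F →
      DifferentiableAt ℝ (fun z => F (pim p b c z)) (chi p b c q) := by
    intro F hF
    exact (hF.differentiable (by simp) _).comp _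
      ((hπ'.restrictScalars ℝ).differentiableAt)
  -- the holomorphic coefficients
  have hco : ∀ (w : V) (j : Fin 3), DifferentiableAt ℂ (fun z => (herm z p * conj (w j) -
      herm z w * conj (p j)) / (herm z p) ^ 2) (chi p b c q) := by
    intro w j
    have d0 := (SVA_hasFDerivAt p (chi p b c q)).differentiableAt
    have d1 := (SVA_hasFDerivAt w (chi p b c q)).differentiableAt
    have d2 : DifferentiableAt ℂ (fun z => (herm z p) ^ 2) (chi p b c q) := d0.fun_pow 2
    have d3 : DifferentiableAt ℂ (fun z => herm z p * conj (w j) - herm z w * conj (p j))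
        (chi p b c q) := (d0.mul_const _).fun_sub (d1.mul_const _)
    have d4 : (fun z => (herm z p) ^ 2) (chi p b c q) ≠ 0 := pow_ne_zero 2 hq00
    have d5 : DifferentiableAt ℂ (fun z => (herm z p * conj (w j) - herm z w * conj (p j)) *
      ((herm z p) ^ 2)⁻¹) (chi p b c q) := d3.fun_mul (d2.fun_inv d4)
    exact d5
  have hterm : ∀ j, SVA_wb (fun z => pbf p b c f g z j) (chi p b c q) (𝓕.vec (chi p b c q)) =
      (conj (b j) - q.1 * conj (p j)) *
        FC76.dWb f q (FC76.vf (resA 𝓕 p b c) (resB 𝓕 p b c) q) +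
      (conj (c j) - q.2 * conj (p j)) *
        FC76.dWb g q (FC76.vf (resA 𝓕 p b c) (resB 𝓕 p b c) q) := by
    intro j
    have e : (fun z => pbf p b c f g z j) = fun z =>
        f (pim p b c z) * ((herm z p * conj (b j) - herm z b * conj (p j)) / (herm z p) ^ 2) +
        g (pim p b c z) * ((herm z p * conj (c j) - herm z c * conj (p j)) / (herm z p) ^ 2) := by
      funext z
      show (f (pim p b c z) * (herm z p * conj (b j) - herm z b * conj (p j)) +
        g (pim p b c z) * (herm z p * conj (c j) - herm z c * conj (p j))) / (herm z p) ^ 2 = _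
      ring
    have dr := fun w => (hco w j).restrictScalars ℝ
    rw [e, SVA_fadd ((hdF f hf).fun_mul (dr b)) ((hdF g hg).fun_mul (dr c)), SVA_mul (hdF f hf) (dr b),
      SVA_mul (hdF g hg) (dr c), SVA_holo (hco b j), SVA_holo (hco c j), hcomp f hf, hcomp g hg,
      hq0, hq1, hq2]
    ring
  rw [SVA_pdb]
  have e2 : ∀ j, 𝓕.vec (chi p b c q) j * SVA_wb (fun z => pbf p b c f g z j) (chi p b c q)
      (𝓕.vec (chi p b c q)) =
      (𝓕.vec (chi p b c q) j * conj (b j) - q.1 * (𝓕.vec (chi p b c q) j * conj (p j))) *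
        FC76.dWb f q (FC76.vf (resA 𝓕 p b c) (resB 𝓕 p b c) q) +
      (𝓕.vec (chi p b c q) j * conj (c j) - q.2 * (𝓕.vec (chi p b c q) j * conj (p j))) *
        FC76.dWb g q (FC76.vf (resA 𝓕 p b c) (resB 𝓕 p b c) q) := by
    intro j
    rw [hterm]
    ring
  rw [Finset.sum_congr rfl fun j _ => e2 j, Finset.sum_add_distrib, ← Finset.sum_mul,
    ← Finset.sum_mul, Finset.sum_sub_distrib, Finset.sum_sub_distrib, ← Finset.mul_sum,
    ← Finset.mul_sum]
  have e3 : ∀ w : V, ∑ j, 𝓕.vec (chi p b c q) j * conj (w j) = herm (𝓕.vec (chi p b c q)) w :=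
    fun w => rfl
  rw [e3, e3, e3, v0, v1, v2]
  ring

end Pool.Agent.H24.CU
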