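import Pool.Agent.H24.CU.SIN
import Pool.Agent.H24.CU.SVA

/-!
# Row SIV (invariance of the chart measure of a closed current)

`Z = (A, B) = vf (resA) (resB)`, `n q = nsq (Z q)`, positive on `dom 1 ρ` (`reg`, `Frame.alpha_zero_iff`), `g` smooth with compact support in `dom 1 ρ`.
PROOF.  `f₁ = conj(g) conj(A)/n`, `f₂ = conj(g) conj(B)/n` (`0` where `g = 0`): smooth with compact support contained in `tsupport g`.
`ζ = pbf p b c f₁ f₂`, `pbf_isCov`.  `pbf_pdb`: `pdb ζ (chi q) = A dWb f₁ q Z + B dWb f₂ q Z = dWb (A f₁ + B f₂) q Z = dWb (conj g) q Z = conj (dW g q Z)`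
(`dWb` kills the holomorphic functions `A, B`: `dWb_mul`, `dW_holo`; `dW_conj`; outside `tsupport g` both sides are `0`).
`0 = ∫ DC.pr F (db ζ) dμ` (`CurClosed`) `= ∫ pdb ζ y / nsq (α y) dμ` (`DC.N (eta) = nsq (alpha)`).  `μ` is carried by the unit sphere, and for a unit vector `y` outside
`scone (ball 0 ρ)`: if `herm y p = 0` then `ζ = 0` near `y` (`pbf_zero`), `pdb ζ y = 0`; if `herm y p ≠ 0` then `y = t • chi q`, `q = pim y` not in the ball, so by `wt_pdb`
`pdb ζ y = (..) pdb ζ (chi q) = (..) conj (dW g q Z) = 0`.  Hence `0 = ∫_{scone (ball)} pdb ζ y/nsq (α y) dμ = ∫_ball pdb ζ (chi q) dM` (`SChart.int` with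
`Φ = pdb ζ` modified at `0`, measurable by `continuousOn_pdb`) `= ∫_ball conj (dW g q (Z q)) dM`; `integral_conj`; `M` is carried by the ball.
-/

namespace Pool.Agent.H24.CU

open MeasureTheory
open scoped ComplexConjugate ContDiff

variable {𝓕 : Foliation} {μ : Measure V} {p b c : V} {ρ : ℝ} {M : Measure (ℂ × ℂ)}

private theorem SIV_dWb_add {f g : ℂ × ℂ → ℂ} {q : ℂ × ℂ} (hf : DifferentiableAt ℝ f q)
    (hg : DifferentiableAt ℝ g q) (v : ℂ × ℂ) :
    FC76.dWb (fun q => f q + g q) q v = FC76.dWb f q v + FC76.dWb g q v := by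
  have h := (hf.hasFDerivAt.add hg.hasFDerivAt).fderiv
  have h1 : ∀ w, fderiv ℝ (fun q => f q + g q) q w = fderiv ℝ f q w + fderiv ℝ g q w := by
    intro w
    have h2 := congrArg (fun L : ℂ × ℂ →L[ℝ] ℂ => L w) h
    exact h2
  unfold FC76.dWb
  rw [h1, h1]
  ring

private theorem SIV_dW_zero {g : ℂ × ℂ → ℂ} {q : ℂ × ℂ} (hq : q ∉ tsupport g) (v : ℂ × ℂ) :
    FC76.dW g q v = 0 := by
  have h : g =ᶠ[nhds q] fun _ => 0 := by
    have h1 : (tsupport g)ᶜ ∈ nhds q := (isClosed_tsupport g).isOpen_compl.mem_nhds hq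
    filter_upwards [h1] with x hx
    exact image_eq_zero_of_notMem_tsupport hx
  unfold FC76.dW
  rw [h.fderiv_eq]
  simp

/-- smoothness of `conj g * A / n` -/
private theorem SIV_smooth {g A n : ℂ × ℂ → ℂ} (hg : ContDiff ℝ ∞ g) (hA : ContDiff ℝ ∞ A)
    (hn : ContDiff ℝ ∞ n) (h0 : ∀ q ∈ tsupport g, n q ≠ 0) :
    ContDiff ℝ ∞ (fun q => conj (g q) * conj (A q) / n q) := by
  have hcg : ContDiff ℝ ∞ (fun q => conj (g q)) := Complex.conjCLE.contDiff.comp hg
  have hcA : ContDiff ℝ ∞ (fun q => conj (A q)) := Complex.conjCLE.contDiff.comp hA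
  rw [contDiff_iff_contDiffAt]
  intro q
  by_cases hq : q ∈ tsupport g
  · have h1 := (hcg.mul hcA).contDiffAt.mul (hn.contDiffAt.inv (h0 q hq))
    refine h1.congr_of_eventuallyEq ?_
    filter_upwards with x
    exact div_eq_mul_inv _ _
  · have h : (fun q => conj (g q) * conj (A q) / n q) =ᶠ[nhds q] fun _ => 0 := by
      have h1 : (tsupport g)ᶜ ∈ nhds q := (isClosed_tsupport g).isOpen_compl.mem_nhds hq
      filter_upwards [h1] with x hx
      rw [image_eq_zero_of_notMem_tsupport hx]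
      simp
    exact contDiffAt_const.congr_of_eventuallyEq h

private theorem SIV_supp {g A n : ℂ × ℂ → ℂ} (hg : HasCompactSupport g) :
    HasCompactSupport (fun q => conj (g q) * conj (A q) / n q) := by
  apply hg.mono
  intro q hq
  rw [Function.mem_support] at hq ⊢
  intro h
  apply hq
  rw [h]
  simp

private theorem SIV_pdb (h : Frame p b c) (g : ℂ × ℂ → ℂ) (hg : ContDiff ℝ ∞ g)
    (n : ℂ × ℂ → ℂ) (hn : ContDiff ℝ ∞ n)
    (hn2 : ∀ q, n q = FC76.ev (resA 𝓕 p b c) q * conj (FC76.ev (resA 𝓕 p b c) q) +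
      FC76.ev (resB 𝓕 p b c) q * conj (FC76.ev (resB 𝓕 p b c) q))
    (h0 : ∀ q ∈ tsupport g, n q ≠ 0) (q : ℂ × ℂ) :
    𝓕.pdb (pbf p b c (fun q => conj (g q) * conj (FC76.ev (resA 𝓕 p b c) q) / n q)
      (fun q => conj (g q) * conj (FC76.ev (resB 𝓕 p b c) q) / n q)) (chi p b c q) =
      conj (FC76.dW g q (FC76.vf (resA 𝓕 p b c) (resB 𝓕 p b c) q)) := by
  have hA := FC76.contDiff_real_ev (resA 𝓕 p b c)
  have hB := FC76.contDiff_real_ev (resB 𝓕 p b c)
  have s1 := SIV_smooth hg hA hn h0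
  have s2 := SIV_smooth hg hB hn h0
  rw [pbf_pdb h 𝓕 s1 s2 q, ← (FC76.dW_conj g q _).2]
  have e : (fun q => conj (g q)) = fun q =>
      FC76.ev (resA 𝓕 p b c) q * (conj (g q) * conj (FC76.ev (resA 𝓕 p b c) q) / n q) +
      FC76.ev (resB 𝓕 p b c) q * (conj (g q) * conj (FC76.ev (resB 𝓕 p b c) q) / n q) := by
    funext x
    by_cases hx : g x = 0
    · rw [hx]
      simp
    · have hx2 : x ∈ tsupport g := subset_tsupport g hx
      have h3 := h0 x hx2
      have h4 : FC76.ev (resA 𝓕 p b c) x * (conj (g x) * conj (FC76.ev (resA 𝓕 p b c) x) / n x) +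
          FC76.ev (resB 𝓕 p b c) x * (conj (g x) * conj (FC76.ev (resB 𝓕 p b c) x) / n x) =
          conj (g x) * (FC76.ev (resA 𝓕 p b c) x * conj (FC76.ev (resA 𝓕 p b c) x) +
            FC76.ev (resB 𝓕 p b c) x * conj (FC76.ev (resB 𝓕 p b c) x)) / n x := by ring
      rw [h4, ← hn2, mul_div_assoc, div_self h3, mul_one]
  have dA : DifferentiableAt ℝ (FC76.ev (resA 𝓕 p b c)) q :=
    hA.differentiable (by simp) q
  have dB : DifferentiableAt ℝ (FC76.ev (resB 𝓕 p b c)) q :=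
    hB.differentiable (by simp) q
  have d1 := s1.differentiable (by simp) q
  have d2 := s2.differentiable (by simp) q
  have c1 : DifferentiableAt ℂ (FC76.ev (resA 𝓕 p b c)) q :=
    (FC76.contDiff_ev _).differentiable (by simp) q
  have c2 : DifferentiableAt ℂ (FC76.ev (resB 𝓕 p b c)) q :=
    (FC76.contDiff_ev _).differentiable (by simp) q
  have a1 := SIV_dWb_add (f := fun q => FC76.ev (resA 𝓕 p b c) q *
      (conj (g q) * conj (FC76.ev (resA 𝓕 p b c) q) / n q))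
    (g := fun q => FC76.ev (resB 𝓕 p b c) q *
      (conj (g q) * conj (FC76.ev (resB 𝓕 p b c) q) / n q)) (dA.mul d1) (dB.mul d2)
    (FC76.vf (resA 𝓕 p b c) (resB 𝓕 p b c) q)
  rw [e, a1, FC76.dWb_mul dA d1, FC76.dWb_mul dB d2,
    (FC76.dW_holo c1 _).2, (FC76.dW_holo c2 _).2]
  ring

private theorem SIV_pr (ζ : V → V) (y : V) :
    Pool.Agent.H85.DC.pr 𝓕.F (Pool.Agent.H85.DC.db ζ) y = 𝓕.pdb ζ y / (nsq (𝓕.alpha y) : ℂ) := by
  have h1 : Pool.Agent.H85.DC.eta 𝓕.F y = 𝓕.alpha y := by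
    unfold Pool.Agent.H85.DC.eta Foliation.alpha
    rw [cross_apply]
    rfl
  unfold Pool.Agent.H85.DC.pr
  rw [h1]
  rfl

private theorem SIV_chi (h : Frame p b c) (y : V) (hy : herm y p ≠ 0) :
    y = herm y p • chi p b c (pim p b c y) := by
  have e := h.expand y
  unfold chi pim
  conv_lhs => rw [e]
  rw [smul_add, smul_add, smul_smul, smul_smul]
  dsimp only
  rw [mul_div_cancel₀ _ hy, mul_div_cancel₀ _ hy]

theorem SChart.siv [IsFiniteMeasure μ] (h : SChart 𝓕 μ p b c ρ M)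
    (hs : μ {x | nsq x ≠ 1} = 0) (hcl : Pool.Agent.H85.DC.CurClosed 𝓕.F μ)
    (g : ℂ × ℂ → ℂ) (hg : ContDiff ℝ ∞ g) (hg2 : HasCompactSupport g)
    (hg3 : tsupport g ⊆ FC76.dom 1 ρ) :
    ∫ q, FC76.dW g q (FC76.vf (resA 𝓕 p b c) (resB 𝓕 p b c) q) ∂M = 0 := by
  set n : ℂ × ℂ → ℂ := fun q => FC76.ev (resA 𝓕 p b c) q * conj (FC76.ev (resA 𝓕 p b c) q) +
      FC76.ev (resB 𝓕 p b c) q * conj (FC76.ev (resB 𝓕 p b c) q) with hn
  have hA := FC76.contDiff_real_ev (resA 𝓕 p b c)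
  have hB := FC76.contDiff_real_ev (resB 𝓕 p b c)
  have hnc : ContDiff ℝ ∞ n :=
    (hA.mul (Complex.conjCLE.contDiff.comp hA)).add (hB.mul (Complex.conjCLE.contDiff.comp hB))
  have hn2 : ∀ q, n q = ((Complex.normSq (FC76.ev (resA 𝓕 p b c) q) +
      Complex.normSq (FC76.ev (resB 𝓕 p b c) q) : ℝ) : ℂ) := by
    intro q
    simp only [hn]
    rw [Complex.mul_conj, Complex.mul_conj]
    push_cast
    rfl
  have h0 : ∀ q ∈ tsupport g, n q ≠ 0 := by
    intro q hq hq0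
    have h1 := (mem_dom_one ρ q).1 (hg3 hq)
    have h2 := h.reg q (Metric.ball_subset_closedBall h1.1) h1.2
    apply h2
    rw [h.frame.alpha_zero_iff]
    rw [hn2, Complex.ofReal_eq_zero] at hq0
    have h3 := Complex.normSq_nonneg (FC76.ev (resA 𝓕 p b c) q)
    have h4 := Complex.normSq_nonneg (FC76.ev (resB 𝓕 p b c) q)
    exact ⟨Complex.normSq_eq_zero.1 (by linarith), Complex.normSq_eq_zero.1 (by linarith)⟩
  set ζ : V → V := pbf p b c (fun q => conj (g q) * conj (FC76.ev (resA 𝓕 p b c) q) / n q)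
      (fun q => conj (g q) * conj (FC76.ev (resB 𝓕 p b c) q) / n q) with hζ
  have k1 := SIV_supp (A := FC76.ev (resA 𝓕 p b c)) (n := n) hg2
  have k2 := SIV_supp (A := FC76.ev (resB 𝓕 p b c)) (n := n) hg2
  have hcov : Pool.Agent.H85.DC.IsCov ζ :=
    pbf_isCov h.frame (SIV_smooth hg hA hnc h0) (SIV_smooth hg hB hnc h0) k1 k2
  have hpdb : ∀ q, 𝓕.pdb ζ (chi p b c q) =
      conj (FC76.dW g q (FC76.vf (resA 𝓕 p b c) (resB 𝓕 p b c) q)) :=
    SIV_pdb h.frame g hg n hnc (fun q => rfl) h0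
  have hball : ∀ q : ℂ × ℂ, q ∉ Metric.ball (0 : ℂ × ℂ) ρ →
      conj (FC76.dW g q (FC76.vf (resA 𝓕 p b c) (resB 𝓕 p b c) q)) = 0 := by
    intro q hq
    rw [SIV_dW_zero, map_zero]
    intro hq2
    exact hq ((mem_dom_one ρ q).1 (hg3 hq2)).1
  -- vanishing outside the cone
  have hout : ∀ y : V, nsq y = 1 → y ∉ scone p b c (Metric.ball (0 : ℂ × ℂ) ρ) →
      𝓕.pdb ζ y = 0 := by
    intro y hy hy2
    have hy0 : y ≠ 0 := by
      rintro rfl
      rw [nsq_eq_zero.2 rfl] at hy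
      exact zero_ne_one hy
    by_cases hyp : herm y p = 0
    · have hz := pbf_zero h.frame k1 k2 y hy0 hyp
      have hz2 : ∀ j k, Pool.Agent.H85.DC.db ζ y j k = 0 := by
        intro j k
        unfold Pool.Agent.H85.DC.db Pool.Agent.H85.DC.dzb
        have hz3 : (fun y => ζ y j) =ᶠ[nhds y] fun _ => 0 := by
          filter_upwards [hz] with x hx
          rw [hζ, hx]
          rfl
        rw [hz3.fderiv_eq]
        simp
      unfold Foliation.pdb
      simp [hz2]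
    · have e := SIV_chi h.frame y hyp
      have hq : pim p b c y ∉ Metric.ball (0 : ℂ × ℂ) ρ := by
        intro hq
        exact hy2 ((h.frame.scone_iff _ y).2 ⟨hy, hyp, hq⟩)
      rw [e, wt_pdb 𝓕 ζ hcov _ _ hyp (h.frame.chi_ne _), hpdb, hball _ hq, mul_zero]
  -- the integral
  classical
  have i0 := hcl ζ hcov
  simp_rw [SIV_pr] at i0
  set Φ : V → ℂ := ({0}ᶜ : Set V).piecewise (𝓕.pdb ζ) 0 with hΦ
  have hΦm : Measurable Φ := by
    apply ContinuousOn.measurable_piecewise (continuousOn_pdb 𝓕 ζ hcov) continuousOn_const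
    exact (measurableSet_singleton _).compl
  have hΦe : ∀ y : V, y ≠ 0 → Φ y = 𝓕.pdb ζ y := by
    intro y hy
    exact Set.piecewise_eq_of_mem _ _ _ hy
  have hΦw : 𝓕.Wt Φ := by
    intro t y ht hy
    rw [hΦe y hy, hΦe _ (smul_ne_zero ht hy)]
    exact wt_pdb 𝓕 ζ hcov t y ht hy
  have hΦa : ∀ y : V, Φ y / (nsq (𝓕.alpha y) : ℂ) = 𝓕.pdb ζ y / (nsq (𝓕.alpha y) : ℂ) := by
    intro y
    by_cases hy : y = 0
    · have h1 : 𝓕.alpha y = 0 := by
        rw [hy]
        unfold Foliation.alpha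
        simp
      rw [h1, nsq_eq_zero.2 rfl]
      simp
    · rw [hΦe y hy]
  have i1 := h.int Φ hΦm hΦw (Metric.ball (0 : ℂ × ℂ) ρ) Metric.isOpen_ball.measurableSet
    subset_rfl
  simp_rw [hΦa] at i1
  have i2 : ∫ y in scone p b c (Metric.ball (0 : ℂ × ℂ) ρ),
      𝓕.pdb ζ y / (nsq (𝓕.alpha y) : ℂ) ∂μ = ∫ y, 𝓕.pdb ζ y / (nsq (𝓕.alpha y) : ℂ) ∂μ := by
    apply setIntegral_eq_integral_of_ae_compl_eq_zero
    have hs2 : ∀ᵐ y ∂μ, nsq y = 1 := by
      rw [ae_iff]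
      exact hs
    filter_upwards [hs2] with y hy hy2
    rw [hout y hy hy2, zero_div]
  have i3 : ∫ q in Metric.ball (0 : ℂ × ℂ) ρ, Φ (chi p b c q) ∂M =
      ∫ q, conj (FC76.dW g q (FC76.vf (resA 𝓕 p b c) (resB 𝓕 p b c) q)) ∂M := by
    rw [← setIntegral_eq_integral_of_forall_compl_eq_zero (s := Metric.ball (0 : ℂ × ℂ) ρ) hball]
    apply setIntegral_congr_fun Metric.isOpen_ball.measurableSet
    intro q _
    show Φ (chi p b c q) = _
    rw [hΦe _ (h.frame.chi_ne q), hpdb]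
  rw [i2, i0, i3, integral_conj] at i1
  have i4 := congrArg conj i1
  rw [map_zero, Complex.conj_conj] at i4
  exact i4.symm

end Pool.Agent.H24.CU
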