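import Pool.Agent.H24.CU.SB
import Pool.Agent.H24.CU.LP

/-!
# Row SM (the order along the leaf is bounded by the degree)

PROOF.  `Λ, c', t₀` as in the hypothesis (annuli), `m₀ = (μ univ).toReal`,
`κ = c' log 2 / (800 (m₀ + 1) log Λ)`.  Fix `k, P, m, f` and `rP, cP, CP` of `leaf_lower`; choose
`t₁ <= t₀`, `t₁ < rP`, `t₁ < 1`, `CP t₁^(2m) < 1`.  For `J >= 1` let `t_j = t₁ Λ^-j`,
`A_j = {t_{j+1} < ‖p.1‖ <= t_j, p.2 = Y p.1}` (`j < J`, pairwise disjoint, measurable), `A = ⋃ A_j ⊆ ball 0 r`.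
Let `q(p) = normSq (Q p) exp(-φ p)`.  On `A`: `cP (t_J)^(2m) <= q < 1`.
Let `n >= 1` be a natural number with `4^-n <= cP t_J^(2m)`; one can take
`n <= J m log Λ / log 2 + B`, `B` independent of `J` (`n = ⌈(2 m (J log Λ - log t₁) - log cP)/log 4⌉ + 1`, at
least `1`).
For `i = 1..n`, `s_i = 2^-i`: `global_ineq` with `E = A` (the function there equals
`log (normSq Q + s^2 exp φ)`, `φ q = k log (nsq (psi q))`) and `levi_log_lower` + `leaf_lower` give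
`∫⁻_A ofReal (s_i^2 q/(q+s_i^2)^2 * m^2/(32 ‖p.1‖^2)) dM <= ofReal (k m₀)`.
Sum over `i`: for `4^-n <= q < 1` there is `i ∈ {1..n}` with `s_i^2 <= q < 4 s_i^2`, and then
`s_i^2 q/(q+s_i^2)^2 >= s_i^4/(5 s_i^2)^2 = 1/25`.  So
`n k m₀ >= ∫_A (1/25) m^2/(32 ‖p.1‖^2) dM >= ∑_{j<J} (m^2/800) (1/t_j^2) M(A_j) >= (m^2/800) c' J`.
With the bound for `n`: `(J m log Λ/log 2 + B) k m₀ >= m^2 c' J/800` for all `J >= 1`; divide by `J` and let
`J → ∞`: `k m₀ m log Λ/log 2 >= m^2 c'/800`, i.e. `κ m <= k` (`m₀ < m₀ + 1`, everything nonnegative).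
-/

namespace Pool.Agent.H24.CU

open MeasureTheory Filter
open scoped Topology ComplexConjugate

variable {𝓕 : Foliation} {μ : Measure V} {y₀ : V} {X : ℂ × ℂ → ℂ × ℂ} {c₀ : ℂ × ℂ → ℂ} {r : ℝ}
  {M : Measure (ℂ × ℂ)}

theorem SM_psi (𝓕 : Foliation) (y₀ : V) (p : ℂ × ℂ) (j : Fin 3) :
    𝓕.psi y₀ p j = y₀ j + p.1 * 𝓕.vec y₀ j + p.2 * conj (𝓕.alpha y₀ j) := by
  simp [Foliation.psi]

theorem SM_Q (𝓕 : Foliation) (y₀ : V) (P : MvPolynomial (Fin 3) ℂ) :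
    Differentiable ℂ (fun q : ℂ × ℂ => MvPolynomial.eval (𝓕.psi y₀ q) P) := by
  induction P using MvPolynomial.induction_on with
  | C a =>
    simp only [MvPolynomial.eval_C]
    exact differentiable_const a
  | add p q hp hq =>
    simp only [map_add]
    exact hp.add hq
  | mul_X p j hp =>
    simp only [map_mul, MvPolynomial.eval_X, SM_psi]
    exact hp.mul (((differentiable_const _).add (differentiable_fst.mul_const _)).add
      (differentiable_snd.mul_const _))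

theorem SM_nsq : ContDiff ℝ 2 (fun x : V => nsq x) := by
  have h : (fun x : V => nsq x) = fun x : V => ∑ j, ((x j).re * (x j).re + (x j).im * (x j).im) := by
    funext x
    unfold nsq
    exact Finset.sum_congr rfl fun j _ => Complex.normSq_apply _
  rw [h]
  refine ContDiff.sum fun j _ => ?_
  have h1 : ContDiff ℝ 2 (fun x : V => (x j).re) :=
    Complex.reCLM.contDiff.comp (contDiff_apply ℝ ℂ j)
  have h2 : ContDiff ℝ 2 (fun x : V => (x j).im) :=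
    Complex.imCLM.contDiff.comp (contDiff_apply ℝ ℂ j)
  exact (h1.mul h1).add (h2.mul h2)

theorem SM_psi_smooth (𝓕 : Foliation) (y₀ : V) : ContDiff ℝ 2 (𝓕.psi y₀) := by
  rw [contDiff_pi]
  intro j
  simp only [SM_psi]
  exact (contDiff_const.add (contDiff_fst.mul contDiff_const)).add (contDiff_snd.mul contDiff_const)

theorem SM_phi (h : Chart 𝓕 μ y₀ X c₀ r M) (k : ℕ) :
    ContDiff ℝ 2 (fun q : ℂ × ℂ => (k : ℝ) * Real.log (nsq (𝓕.psi y₀ q))) := by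
  refine contDiff_const.mul ?_
  exact (SM_nsq.comp (SM_psi_smooth 𝓕 y₀)).log fun p => (nsq_pos (h.psi_ne p)).ne'

theorem SM_pointwise (h : Chart 𝓕 μ y₀ X c₀ r M) (k : ℕ) (P : MvPolynomial (Fin 3) ℂ) (m : ℕ)
    {s : ℝ} (hs : 0 < s) (p : ℂ × ℂ) {T : ℝ}
    (hQ0 : MvPolynomial.eval (𝓕.psi y₀ p) P ≠ 0)
    (hlow : T ≤ Complex.normSq (fderiv ℂ (fun q => MvPolynomial.eval (𝓕.psi y₀ q) P) p
          (X p) / MvPolynomial.eval (𝓕.psi y₀ p) P) / 2 -
        gradm (fun q => (k : ℝ) * Real.log (nsq (𝓕.psi y₀ q)))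
          (fun q => (k : ℝ) * Real.log (nsq (𝓕.psi y₀ q))) p (X p)) :
    s ^ 2 * (Complex.normSq (MvPolynomial.eval (𝓕.psi y₀ p) P) *
        Real.exp (- ((k : ℝ) * Real.log (nsq (𝓕.psi y₀ p))))) /
      (Complex.normSq (MvPolynomial.eval (𝓕.psi y₀ p) P) *
        Real.exp (- ((k : ℝ) * Real.log (nsq (𝓕.psi y₀ p)))) + s ^ 2) ^ 2 * T ≤
      levi (fun q => Real.log (Complex.normSq
        (MvPolynomial.eval (𝓕.psi y₀ q) P) + s ^ 2 * nsq (𝓕.psi y₀ q) ^ k)) p (X p) := by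
  have h1 := levi_log_lower (SM_Q 𝓕 y₀ P) (φ := fun q => (k : ℝ) * Real.log (nsq (𝓕.psi y₀ q)))
    (p := p) (SM_phi h k).contDiffAt (X p) (levi_phi_nonneg h k p (X p)) s hs hQ0
  have h2 : (fun q : ℂ × ℂ => Real.log (Complex.normSq (MvPolynomial.eval (𝓕.psi y₀ q) P) +
      s ^ 2 * Real.exp ((k : ℝ) * Real.log (nsq (𝓕.psi y₀ q))))) =
      fun q => Real.log (Complex.normSq
        (MvPolynomial.eval (𝓕.psi y₀ q) P) + s ^ 2 * nsq (𝓕.psi y₀ q) ^ k) := by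
    funext q
    rw [Real.exp_nat_mul, Real.exp_log (nsq_pos (h.psi_ne q))]
  rw [h2] at h1
  refine le_trans ?_ h1
  refine mul_le_mul_of_nonneg_left hlow ?_
  have h3 := Complex.normSq_nonneg (MvPolynomial.eval (𝓕.psi y₀ p) P)
  have h4 := (Real.exp_pos (- ((k : ℝ) * Real.log (nsq (𝓕.psi y₀ p))))).le
  positivity

theorem SM_dyadic {q : ℝ} {n : ℕ} (h1 : (1 / 4 : ℝ) ^ n ≤ q) (h2 : q < 1) :
    ∃ i ∈ Finset.range n, 1 / 25 ≤ ((1 / 2 : ℝ) ^ (i + 1)) ^ 2 * q / (q + ((1 / 2 : ℝ) ^ (i + 1)) ^ 2) ^ 2 := by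
  classical
  have hex : ∃ i : ℕ, (1 / 4 : ℝ) ^ i ≤ q := ⟨n, h1⟩
  obtain ⟨i₀, hi₀⟩ : ∃ i₀, i₀ = Nat.find hex := ⟨_, rfl⟩
  have h3 : (1 / 4 : ℝ) ^ i₀ ≤ q := by
    rw [hi₀]
    exact Nat.find_spec hex
  have h4 : i₀ ≤ n := by
    rw [hi₀]
    exact Nat.find_min' hex h1
  have h5 : i₀ ≠ 0 := by
    rintro h0
    rw [h0, pow_zero] at h3
    linarith
  obtain ⟨i, rfl⟩ : ∃ i, i₀ = i + 1 := ⟨i₀ - 1, by omega⟩
  have h6 : q < (1 / 4 : ℝ) ^ i := by
    by_contra hcon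
    have : i + 1 ≤ i := by
      conv_lhs => rw [hi₀]
      exact Nat.find_min' hex (not_lt.1 hcon)
    omega
  refine ⟨i, Finset.mem_range.2 (by omega), ?_⟩
  have h7 : ((1 / 2 : ℝ) ^ (i + 1)) ^ 2 = (1 / 4 : ℝ) ^ (i + 1) := by
    rw [← pow_mul, mul_comm, pow_mul]
    norm_num
  rw [h7]
  have h8 : (0 : ℝ) < (1 / 4 : ℝ) ^ (i + 1) := by positivity
  have h9 : (1 / 4 : ℝ) ^ i = 4 * (1 / 4 : ℝ) ^ (i + 1) := by
    rw [pow_succ]
    ring
  rw [h9] at h6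
  generalize (1 / 4 : ℝ) ^ (i + 1) = σ at *
  have hqpos : 0 < q := lt_of_lt_of_le h8 h3
  rw [div_le_div_iff₀ (by norm_num) (by positivity)]
  nlinarith [mul_nonneg (sub_nonneg.2 h3) (sub_nonneg.2 h6.le)]

theorem SM_meas {ρ : ℝ} {Y : ℂ → ℂ} (hY : Leaf X r ρ Y) {t a : ℝ} (ht : t < ρ) :
    MeasurableSet {p : ℂ × ℂ | a < ‖p.1‖ ∧ ‖p.1‖ ≤ t ∧ p.2 = Y p.1} := by
  have h1 : IsCompact ((fun z : ℂ => (z, Y z)) '' Metric.closedBall 0 t) := by
    refine (isCompact_closedBall 0 t).image_of_continuousOn ?_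
    exact continuousOn_id.prodMk (hY.hol.continuousOn.mono (Metric.closedBall_subset_ball ht))
  have h2 : {p : ℂ × ℂ | a < ‖p.1‖ ∧ ‖p.1‖ ≤ t ∧ p.2 = Y p.1} =
      {p : ℂ × ℂ | a < ‖p.1‖} ∩ ((fun z : ℂ => (z, Y z)) '' Metric.closedBall 0 t) := by
    ext ⟨z, w⟩
    constructor
    · rintro ⟨h3, h4, h5⟩
      exact ⟨h3, z, by simpa using h4, by rw [show w = Y z from h5]⟩
    · rintro ⟨h3, z', h4, h5⟩
      rw [Prod.mk.injEq] at h5
      obtain ⟨rfl, rfl⟩ := h5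
      exact ⟨h3, by simpa using h4, rfl⟩
  rw [h2]
  exact (isOpen_lt continuous_const (continuous_fst.norm)).measurableSet.inter h1.isClosed.measurableSet

theorem SM_final {Λ c' m₀ cP t₁ : ℝ} (hΛ : 1 < Λ) (hc : 0 < c') (hm₀ : 0 ≤ m₀) (hcP : 0 < cP)
    (ht₁ : 0 < t₁) {m k : ℕ} (hm : 1 ≤ m)
    (H : ∀ J n : ℕ, (1 / 4 : ℝ) ^ n ≤ cP * (t₁ / Λ ^ J) ^ (2 * m) →
      (J : ℝ) * ((m : ℝ) ^ 2 * c' / 800) ≤ n * (k * m₀)) :
    c' * Real.log 2 / (800 * (m₀ + 1) * Real.log Λ) * m ≤ k := by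
  have hL : 0 < Real.log Λ := Real.log_pos hΛ
  have h2 : 0 < Real.log 2 := Real.log_pos (by norm_num)
  have h4 : Real.log 4 = 2 * Real.log 2 := by
    rw [show (4 : ℝ) = 2 ^ 2 by norm_num, Real.log_pow]
    norm_num
  have hmr : (0 : ℝ) < m := by exact_mod_cast hm
  obtain ⟨b, hb⟩ : ∃ b : ℝ, b = |(-(2 * m * Real.log t₁) - Real.log cP) / Real.log 4| := ⟨_, rfl⟩
  have hb0 : 0 ≤ b := by
    rw [hb]
    exact abs_nonneg _
  have key : ∀ J : ℕ, (J : ℝ) * ((m : ℝ) ^ 2 * c' / 800) ≤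
      ((J : ℝ) * m * (Real.log Λ / Real.log 2) + b + 2) * (k * m₀) := by
    intro J
    have hy0 : 0 ≤ (J : ℝ) * m * (Real.log Λ / Real.log 2) + b := by positivity
    have h5 := H J (⌈(J : ℝ) * m * (Real.log Λ / Real.log 2) + b⌉₊ + 1) ?_
    · refine h5.trans (mul_le_mul_of_nonneg_right ?_ (by positivity))
      have h6 := Nat.ceil_lt_add_one hy0
      push_cast
      linarith
    · have h6 : (J : ℝ) * m * (Real.log Λ / Real.log 2) + b ≤
          (⌈(J : ℝ) * m * (Real.log Λ / Real.log 2) + b⌉₊ : ℝ) := Nat.le_ceil _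
      have hpos : 0 < cP * (t₁ / Λ ^ J) ^ (2 * m) := by
        have : 0 < Λ := by linarith
        positivity
      rw [← Real.log_le_log_iff (by positivity) hpos]
      have hΛ0 : Λ ≠ 0 := by linarith
      rw [Real.log_mul hcP.ne' (by positivity), Real.log_pow, Real.log_pow,
        Real.log_div ht₁.ne' (by positivity), Real.log_pow, one_div, Real.log_inv]
      push_cast
      have h7 : -(2 * m * Real.log t₁) - Real.log cP ≤ b * Real.log 4 := by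
        rw [hb]
        have h8 : (0 : ℝ) < Real.log 4 := by
          rw [h4]
          linarith
        calc -(2 * m * Real.log t₁) - Real.log cP
            = ((-(2 * m * Real.log t₁) - Real.log cP) / Real.log 4) * Real.log 4 := by
              field_simp
          _ ≤ _ := mul_le_mul_of_nonneg_right (le_abs_self _) h8.le
      have h9 : (J : ℝ) * m * (Real.log Λ / Real.log 2) * Real.log 4 = 2 * m * (J * Real.log Λ) := by
        rw [h4]
        field_simp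
      have h10 : ((J : ℝ) * m * (Real.log Λ / Real.log 2) + b) * Real.log 4 ≤
          (⌈(J : ℝ) * m * (Real.log Λ / Real.log 2) + b⌉₊ : ℝ) * Real.log 4 := by
        refine mul_le_mul_of_nonneg_right h6 ?_
        rw [h4]
        linarith
      have h11 : 0 < Real.log 4 := by
        rw [h4]
        linarith
      nlinarith
  have hmain : (m : ℝ) ^ 2 * c' / 800 ≤ m * (Real.log Λ / Real.log 2) * (k * m₀) := by
    by_contra hcon
    push Not at hcon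
    obtain ⟨J, hJ⟩ := exists_nat_gt ((b + 2) * (k * m₀) /
      ((m : ℝ) ^ 2 * c' / 800 - m * (Real.log Λ / Real.log 2) * (k * m₀)))
    rw [div_lt_iff₀ (by linarith)] at hJ
    have h5 := key J
    nlinarith
  have h6 : (m : ℝ) * (c' / 800) ≤ (Real.log Λ / Real.log 2) * (k * m₀) := by
    have h7 : (m : ℝ) * ((m : ℝ) * (c' / 800)) ≤ m * ((Real.log Λ / Real.log 2) * (k * m₀)) := by
      calc (m : ℝ) * ((m : ℝ) * (c' / 800)) = (m : ℝ) ^ 2 * c' / 800 := by ring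
        _ ≤ _ := hmain
        _ = _ := by ring
    exact le_of_mul_le_mul_left h7 hmr
  have h8 : (Real.log Λ / Real.log 2) * (k * m₀) ≤ (Real.log Λ / Real.log 2) * (k * (m₀ + 1)) := by
    refine mul_le_mul_of_nonneg_left ?_ (by positivity)
    refine mul_le_mul_of_nonneg_left (by linarith) (by positivity)
  have h9 : (m : ℝ) * (c' / 800) ≤ (Real.log Λ / Real.log 2) * (k * (m₀ + 1)) := h6.trans h8
  have h10 : c' * Real.log 2 / (800 * (m₀ + 1) * Real.log Λ) * m =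
      ((m : ℝ) * (c' / 800)) * (Real.log 2 / (Real.log Λ * (m₀ + 1))) := by
    have : m₀ + 1 ≠ 0 := by linarith
    field_simp
  rw [h10]
  have h11 : 0 ≤ Real.log 2 / (Real.log Λ * (m₀ + 1)) := by positivity
  calc ((m : ℝ) * (c' / 800)) * (Real.log 2 / (Real.log Λ * (m₀ + 1)))
      ≤ ((Real.log Λ / Real.log 2) * (k * (m₀ + 1))) * (Real.log 2 / (Real.log Λ * (m₀ + 1))) :=
        mul_le_mul_of_nonneg_right h9 h11
    _ = k := by
      have : m₀ + 1 ≠ 0 := by linarith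
      field_simp

theorem order_le (h : Chart 𝓕 μ y₀ X c₀ r M) (hμ : Harm 𝓕 μ) {ρ : ℝ} {Y : ℂ → ℂ}
    (hY : Leaf X r ρ Y) (Λ c' t₀ : ℝ) (hΛ : 1 < Λ) (hc : 0 < c') (ht : 0 < t₀) (htρ : t₀ < ρ)
    (hA : ∀ t : ℝ, 0 < t → t ≤ t₀ →
      c' * t ^ 2 ≤ (M {p : ℂ × ℂ | t / Λ < ‖p.1‖ ∧ ‖p.1‖ ≤ t ∧ p.2 = Y p.1}).toReal) :
    ∃ κ : ℝ, 0 < κ ∧ ∀ (k : ℕ) (P : MvPolynomial (Fin 3) ℂ), P.IsHomogeneous k →
      ∀ (m : ℕ), 1 ≤ m → ∀ f : ℂ → ℂ, AnalyticAt ℂ f 0 → f 0 ≠ 0 →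
        (∀ᶠ z in 𝓝 (0 : ℂ), MvPolynomial.eval (𝓕.psi y₀ (z, Y z)) P = z ^ m * f z) →
        κ * m ≤ k := by
  classical
  have hMfin := h.fin
  have hμfin := hμ.fin
  obtain ⟨m₀, hm₀⟩ : ∃ m₀ : ℝ, m₀ = (μ Set.univ).toReal := ⟨_, rfl⟩
  have hm₀0 : 0 ≤ m₀ := by
    rw [hm₀]
    exact ENNReal.toReal_nonneg
  have hL : 0 < Real.log Λ := Real.log_pos hΛ
  have h2 : 0 < Real.log 2 := Real.log_pos (by norm_num)
  have hΛ0 : 0 < Λ := by linarith
  refine ⟨c' * Real.log 2 / (800 * (m₀ + 1) * Real.log Λ), by positivity, ?_⟩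
  intro k P hP m hm f hf hf0 hfP
  obtain ⟨rP, cP, CP, hrP, hrPρ, hcP, hCP, hlow⟩ := leaf_lower h hY k P m hm f hf hf0 hfP
  -- the radius
  obtain ⟨t₁, ht₁, ht₁0, ht₁r, ht₁1, ht₁C⟩ : ∃ t₁ : ℝ, 0 < t₁ ∧ t₁ ≤ t₀ ∧ t₁ < rP ∧ t₁ < 1 ∧
      CP * t₁ ^ (2 * m) < 1 := by
    obtain ⟨a, ha⟩ : ∃ a : ℝ, a = 1 / (CP + 1) := ⟨_, rfl⟩
    have ha0 : 0 < a := by
      rw [ha]
      positivity
    have ht : 0 < min (min t₀ (rP / 2)) (min (1 / 2) a) :=
      lt_min (lt_min ht (by positivity)) (lt_min (by norm_num) ha0)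
    obtain ⟨t, htt⟩ : ∃ t : ℝ, t = min (min t₀ (rP / 2)) (min (1 / 2) a) := ⟨_, rfl⟩
    rw [← htt] at ht
    have h3 : t ≤ t₀ := by
      rw [htt]
      exact (min_le_left _ _).trans (min_le_left _ _)
    have h4 : t ≤ rP / 2 := by
      rw [htt]
      exact (min_le_left _ _).trans (min_le_right _ _)
    have h5 : t ≤ 1 / 2 := by
      rw [htt]
      exact (min_le_right _ _).trans (min_le_left _ _)
    have h6 : t ≤ a := by
      rw [htt]
      exact (min_le_right _ _).trans (min_le_right _ _)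
    refine ⟨t, ht, h3, by linarith, by linarith, ?_⟩
    have h7 : t ^ (2 * m) ≤ t := by
      calc t ^ (2 * m) ≤ t ^ 1 := pow_le_pow_of_le_one ht.le (by linarith) (by omega)
        _ = t := pow_one t
    calc CP * t ^ (2 * m) ≤ CP * a := mul_le_mul_of_nonneg_left (h7.trans h6) hCP.le
      _ < 1 := by
        rw [ha, mul_one_div, div_lt_one (by positivity)]
        linarith
  apply SM_final hΛ hc hm₀0 hcP ht₁ hm
  intro J n hn
  -- the annuli
  obtain ⟨τ, hτ⟩ : ∃ τ : ℕ → ℝ, ∀ j, τ j = t₁ / Λ ^ j := ⟨_, fun _ => rfl⟩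
  have hτ0 : ∀ j, 0 < τ j := fun j => by
    rw [hτ]
    positivity
  have hτanti : ∀ i j, i ≤ j → τ j ≤ τ i := by
    intro i j hij
    rw [hτ, hτ]
    exact div_le_div_of_nonneg_left ht₁.le (by positivity) (pow_le_pow_right₀ hΛ.le hij)
  have hτ1 : ∀ j, τ j ≤ t₁ := by
    intro j
    have := hτanti 0 j (Nat.zero_le j)
    rwa [hτ 0, pow_zero, div_one] at this
  have hτs : ∀ j, τ j / Λ = τ (j + 1) := by
    intro j
    rw [hτ, hτ, pow_succ, div_div]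
  obtain ⟨A, hAd⟩ : ∃ A : ℕ → Set (ℂ × ℂ), ∀ j, A j =
      {p : ℂ × ℂ | τ j / Λ < ‖p.1‖ ∧ ‖p.1‖ ≤ τ j ∧ p.2 = Y p.1} := ⟨_, fun _ => rfl⟩
  have hAmem : ∀ j p, p ∈ A j ↔ τ j / Λ < ‖p.1‖ ∧ ‖p.1‖ ≤ τ j ∧ p.2 = Y p.1 := by
    intro j p
    rw [hAd]
    rfl
  have hAmeas : ∀ j, MeasurableSet (A j) := by
    intro j
    rw [hAd]
    exact SM_meas hY (by linarith [hτ1 j])
  have hAmass : ∀ j, ENNReal.ofReal (c' * τ j ^ 2) ≤ M (A j) := by
    intro j
    have h3 := hA (τ j) (hτ0 j) ((hτ1 j).trans ht₁0)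
    rw [← hAd j] at h3
    calc ENNReal.ofReal (c' * τ j ^ 2) ≤ ENNReal.ofReal (M (A j)).toReal := ENNReal.ofReal_le_ofReal h3
      _ = M (A j) := ENNReal.ofReal_toReal (measure_ne_top M (A j))
  have hAdisj : Set.PairwiseDisjoint (Finset.range J : Set ℕ) A := by
    have h3 : ∀ i j, i < j → Disjoint (A i) (A j) := by
      intro i j hij
      rw [Set.disjoint_left]
      intro p hp hp'
      rw [hAmem] at hp hp'
      have h4 := hτanti (i + 1) j hij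
      rw [← hτs i] at h4
      linarith [hp.1, hp'.2.1]
    intro i _ j _ hij
    rcases lt_or_gt_of_ne hij with h4 | h4
    · exact h3 i j h4
    · exact (h3 j i h4).symm
  obtain ⟨B, hB⟩ : ∃ B : Set (ℂ × ℂ), B = ⋃ j ∈ Finset.range J, A j := ⟨_, rfl⟩
  have hBmeas : MeasurableSet B := by
    rw [hB]
    exact Finset.measurableSet_biUnion _ fun j _ => hAmeas j
  have hBp : ∀ p ∈ B, 0 < ‖p.1‖ ∧ t₁ / Λ ^ J < ‖p.1‖ ∧ ‖p.1‖ ≤ t₁ ∧ p.2 = Y p.1 := by
    intro p hp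
    rw [hB] at hp
    obtain ⟨j, hj, hpj⟩ := Set.mem_iUnion₂.1 hp
    rw [hAmem] at hpj
    have h3 : τ J ≤ τ j / Λ := by
      rw [hτs]
      exact hτanti _ _ (Finset.mem_range.1 hj)
    rw [hτ J] at h3
    have h4 : 0 < t₁ / Λ ^ J := by positivity
    exact ⟨by linarith [hpj.1], by linarith [hpj.1], hpj.2.1.trans (hτ1 j), hpj.2.2⟩
  have hBr : B ⊆ Metric.ball 0 r := by
    intro p hp
    obtain ⟨h3, -, h4, h5⟩ := hBp p hp
    have h6 : p = (p.1, Y p.1) := by rw [← h5]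
    rw [h6]
    exact hY.mem p.1 (by rw [mem_ball_zero_iff]; linarith)
  -- the function q
  obtain ⟨q, hq⟩ : ∃ q : ℂ × ℂ → ℝ, ∀ p, q p = Complex.normSq (MvPolynomial.eval (𝓕.psi y₀ p) P) *
        Real.exp (- ((k : ℝ) * Real.log (nsq (𝓕.psi y₀ p)))) := ⟨_, fun _ => rfl⟩
  have hqm : Measurable q := by
    have h3 : Continuous q := by
      have h4 : q = fun p => Complex.normSq (MvPolynomial.eval (𝓕.psi y₀ p) P) *
        Real.exp (- ((k : ℝ) * Real.log (nsq (𝓕.psi y₀ p)))) := funext hq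
      rw [h4]
      exact (Complex.continuous_normSq.comp (SM_Q 𝓕 y₀ P).continuous).mul
        (Real.continuous_exp.comp (SM_phi h k).continuous.neg)
    exact h3.measurable
  obtain ⟨G, hG⟩ : ∃ G : ℕ → ℂ × ℂ → ENNReal, ∀ i p, G i p =
      ENNReal.ofReal (((1 / 2 : ℝ) ^ (i + 1)) ^ 2 * q p / (q p + ((1 / 2 : ℝ) ^ (i + 1)) ^ 2) ^ 2 *
        ((m : ℝ) ^ 2 / (32 * ‖p.1‖ ^ 2))) := ⟨_, fun _ _ => rfl⟩
  have hGm : ∀ i, Measurable (G i) := by
    intro i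
    have h3 : G i = fun p => ENNReal.ofReal (((1 / 2 : ℝ) ^ (i + 1)) ^ 2 * q p /
        (q p + ((1 / 2 : ℝ) ^ (i + 1)) ^ 2) ^ 2 * ((m : ℝ) ^ 2 / (32 * ‖p.1‖ ^ 2))) := funext (hG i)
    rw [h3]
    have h4 : Measurable (fun p : ℂ × ℂ => ‖p.1‖) := measurable_fst.norm
    exact (((measurable_const.mul hqm).div ((hqm.add measurable_const).pow_const 2)).mul
      (measurable_const.div (measurable_const.mul (h4.pow_const 2)))).ennreal_ofReal
  -- upper bound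
  have hup : ∀ i, ∫⁻ p in B, G i p ∂M ≤ ENNReal.ofReal (k * m₀) := by
    intro i
    have h3 : (0 : ℝ) < (1 / 2 : ℝ) ^ (i + 1) := by positivity
    have h4 := global_ineq h hμ k P hP ((1 / 2 : ℝ) ^ (i + 1)) h3 B hBmeas hBr
    rw [← hm₀] at h4
    refine le_trans (setLIntegral_mono' hBmeas fun p hp => ?_) h4
    obtain ⟨h5, -, h6, h7⟩ := hBp p hp
    have h8 : p = (p.1, Y p.1) := by rw [← h7]
    obtain ⟨h9, h10, -, -⟩ := hlow p.1 h5 (by linarith)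
    rw [← h8] at h9 h10
    rw [hG, hq]
    exact ENNReal.ofReal_le_ofReal (SM_pointwise h k P m h3 p h9 h10)
  -- lower bound
  have hlo : ∀ p ∈ B, ENNReal.ofReal ((m : ℝ) ^ 2 / (800 * ‖p.1‖ ^ 2)) ≤
      ∑ i ∈ Finset.range n, G i p := by
    intro p hp
    obtain ⟨h5, h5', h6, h7⟩ := hBp p hp
    have h8 : p = (p.1, Y p.1) := by rw [← h7]
    obtain ⟨-, -, h11, h12⟩ := hlow p.1 h5 (by linarith)
    rw [← h8, ← hq] at h11 h12
    have h13 : (1 / 4 : ℝ) ^ n ≤ q p := by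
      refine hn.trans (le_trans ?_ h11)
      refine mul_le_mul_of_nonneg_left ?_ hcP.le
      exact pow_le_pow_left₀ (by positivity) h5'.le _
    have h14 : q p < 1 := by
      refine lt_of_le_of_lt h12 (lt_of_le_of_lt ?_ ht₁C)
      refine mul_le_mul_of_nonneg_left ?_ hCP.le
      exact pow_le_pow_left₀ h5.le h6 _
    obtain ⟨i, hi, hi2⟩ := SM_dyadic h13 h14
    refine le_trans ?_ (Finset.single_le_sum (f := fun i => G i p) (fun _ _ => zero_le) hi)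
    rw [hG]
    refine ENNReal.ofReal_le_ofReal ?_
    have h15 : (m : ℝ) ^ 2 / (800 * ‖p.1‖ ^ 2) = 1 / 25 * ((m : ℝ) ^ 2 / (32 * ‖p.1‖ ^ 2)) := by
      field_simp
      ring
    rw [h15]
    exact mul_le_mul_of_nonneg_right hi2 (by positivity)
  have hsum : ∫⁻ p in B, ENNReal.ofReal ((m : ℝ) ^ 2 / (800 * ‖p.1‖ ^ 2)) ∂M ≤
      ENNReal.ofReal (n * (k * m₀)) := by
    calc ∫⁻ p in B, ENNReal.ofReal ((m : ℝ) ^ 2 / (800 * ‖p.1‖ ^ 2)) ∂M
        ≤ ∫⁻ p in B, ∑ i ∈ Finset.range n, G i p ∂M := setLIntegral_mono' hBmeas hlo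
      _ = ∑ i ∈ Finset.range n, ∫⁻ p in B, G i p ∂M :=
          lintegral_finsetSum _ fun i _ => hGm i
      _ ≤ ∑ _i ∈ Finset.range n, ENNReal.ofReal (k * m₀) := Finset.sum_le_sum fun i _ => hup i
      _ = ENNReal.ofReal (n * (k * m₀)) := by
          rw [Finset.sum_const, Finset.card_range, nsmul_eq_mul,
            ENNReal.ofReal_mul (Nat.cast_nonneg n), ENNReal.ofReal_natCast]
  have hsum2 : ENNReal.ofReal ((J : ℝ) * ((m : ℝ) ^ 2 * c' / 800)) ≤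
      ∫⁻ p in B, ENNReal.ofReal ((m : ℝ) ^ 2 / (800 * ‖p.1‖ ^ 2)) ∂M := by
    have h3 : ∀ j, ENNReal.ofReal ((m : ℝ) ^ 2 * c' / 800) ≤
        ∫⁻ p in A j, ENNReal.ofReal ((m : ℝ) ^ 2 / (800 * ‖p.1‖ ^ 2)) ∂M := by
      intro j
      calc ENNReal.ofReal ((m : ℝ) ^ 2 * c' / 800)
          = ENNReal.ofReal ((m : ℝ) ^ 2 / (800 * τ j ^ 2)) * ENNReal.ofReal (c' * τ j ^ 2) := by
            rw [← ENNReal.ofReal_mul (by positivity)]
            congr 1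
            have := (hτ0 j).ne'
            field_simp
        _ ≤ ENNReal.ofReal ((m : ℝ) ^ 2 / (800 * τ j ^ 2)) * M (A j) := by
            gcongr
            exact hAmass j
        _ = ∫⁻ p in A j, ENNReal.ofReal ((m : ℝ) ^ 2 / (800 * τ j ^ 2)) ∂M := by
            rw [setLIntegral_const]
        _ ≤ _ := by
            refine setLIntegral_mono' (hAmeas j) fun p hp => ?_
            rw [hAmem] at hp
            have h4 : 0 < ‖p.1‖ := by
              have h5 : 0 < τ j / Λ := div_pos (hτ0 j) hΛ0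
              linarith [hp.1]
            refine ENNReal.ofReal_le_ofReal ?_
            refine div_le_div_of_nonneg_left (by positivity) (by positivity) ?_
            refine mul_le_mul_of_nonneg_left ?_ (by norm_num)
            exact pow_le_pow_left₀ h4.le hp.2.1 2
    rw [hB, lintegral_biUnion_finset hAdisj fun j _ => hAmeas j]
    calc ENNReal.ofReal ((J : ℝ) * ((m : ℝ) ^ 2 * c' / 800))
        = ∑ _j ∈ Finset.range J, ENNReal.ofReal ((m : ℝ) ^ 2 * c' / 800) := by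
          rw [Finset.sum_const, Finset.card_range, nsmul_eq_mul,
            ENNReal.ofReal_mul (Nat.cast_nonneg J), ENNReal.ofReal_natCast]
      _ ≤ _ := Finset.sum_le_sum fun j _ => h3 j
  have hfin := hsum2.trans hsum
  rwa [ENNReal.ofReal_le_ofReal_iff (by positivity)] at hfin

end Pool.Agent.H24.CU
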