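import Pool.Agent.H24.CU.RSP

/-!
# Row STR (the chart measure at an arbitrary point)

PROOFS.  `ℓ0 y = herm y p`, `π y = (herm y b / herm y p, herm y c / herm y p)`, measurable.  For `y ∈ scone E`:
`y = ℓ0 y • chi (π y)` (`Frame.expand`).
`finite_zero_chart`: `q ↦` the line of `chi q` is injective (`Frame.herm_chi`), and it maps zeros of `alpha ∘ chi`
into the finite set `𝓕.finite_sing` (`alpha` at `ℓ.rep`, `rep` is a multiple of `chi q`; `alpha (t y) = t^(deg+1) alpha y`, see
`alpha_smul` in AL).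
`exists_schart`: `ρ ∈ (0, 1]` with no zero `q ≠ 0` of `alpha (chi q)` with `‖q‖ ≤ ρ` (finite set).
`C = scone (ball 0 ρ)`, measurable (`Frame.scone_iff`).  `w y = normSq (ℓ0 y) ^ deg / normSq (ℓ0 y) / nsq (α y)`,
`M = Measure.map π ((μ.restrict C).withDensity (fun y => ENNReal.ofReal (w y)))`.
For `E ⊆ ball 0 ρ` measurable, `scone E = C ∩ π⁻¹ E`.  For `y ∈ C`:
`Φ y / nsq (α y) = w y Φ (chi (π y))` by the weight property.  `int`: `setIntegral_map`/`integral_map`,
`integral_withDensity_eq_integral_toReal_smul` (density finite), `w ≥ 0`.  `lint`: `lintegral_map`,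
`lintegral_withDensity_eq_lintegral_mul`, `ENNReal.ofReal_mul`.  (`Φ ∘ chi` is measurable.)
`carried`: `M (ball)ᶜ = (..) (C ∩ π⁻¹ (ball)ᶜ) = 0`.
`M_eq`: apply `lint` with `Φ y = normSq (ℓ0 y)^deg / normSq (ℓ0 y)` (`Φ (chi q) = 1` as `ℓ0 (chi q) = 1`).
`M_zero`: if `α p = 0` then `α = 0` on `scone {0}` and the integrand in `M_eq` is `ofReal (x / 0) = 0`.
-/

namespace Pool.Agent.H24.CU

open MeasureTheory
open scoped ComplexConjugate

variable {𝓕 : Foliation} {μ : Measure V} {p b c : V} {ρ : ℝ} {M : Measure (ℂ × ℂ)}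

theorem STR_herm_smul (t : ℂ) (x y : V) : herm (t • x) y = t * herm x y := by
  unfold herm
  rw [Finset.mul_sum]
  exact Finset.sum_congr rfl fun j _ => by simp [mul_assoc]

theorem STR_herm_cont (y : V) : Continuous fun x : V => herm x y := by
  unfold herm
  exact continuous_finsetSum _ fun j _ => (continuous_apply j).mul continuous_const

theorem STR_chi_cont (p b c : V) : Continuous (chi p b c) := by
  unfold chi
  exact (continuous_const.add (continuous_fst.smul continuous_const)).add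
    (continuous_snd.smul continuous_const)

theorem STR_eval_cont (P : MvPolynomial (Fin 3) ℂ) :
    Continuous (fun x : V => MvPolynomial.eval x P) := by
  induction P using MvPolynomial.induction_on with
  | C a => simpa using continuous_const
  | add p q hp hq =>
    simp only [map_add]
    exact hp.add hq
  | mul_X p i hp =>
    simp only [map_mul, MvPolynomial.eval_X]
    exact hp.mul (continuous_apply i)

theorem STR_alpha_cont (𝓕 : Foliation) : Continuous 𝓕.alpha := by
  obtain ⟨Q, -, hQ, -⟩ := exists_alpha_poly 𝓕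
  refine continuous_pi fun j => ?_
  have : (fun x => 𝓕.alpha x j) = fun x : V => MvPolynomial.eval x (Q j) := funext fun x => hQ x j
  rw [this]
  exact STR_eval_cont (Q j)

theorem STR_nsq_cont : Continuous nsq := by
  unfold nsq
  exact continuous_finsetSum _ fun j _ => Complex.continuous_normSq.comp (continuous_apply j)

/-- affine coordinates -/
noncomputable def STR_pi (p b c : V) (y : V) : ℂ × ℂ := (herm y b / herm y p, herm y c / herm y p)

theorem STR_pi_meas (p b c : V) : Measurable (STR_pi p b c) := by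
  unfold STR_pi
  exact (((STR_herm_cont b).measurable).div ((STR_herm_cont p).measurable)).prodMk
    (((STR_herm_cont c).measurable).div ((STR_herm_cont p).measurable))

theorem STR_rec (h : Frame p b c) {y : V} (h0 : herm y p ≠ 0) :
    y = herm y p • chi p b c (STR_pi p b c y) := by
  conv_lhs => rw [h.expand y]
  unfold chi STR_pi
  simp only [smul_add, smul_smul]
  rw [mul_div_cancel₀ _ h0, mul_div_cancel₀ _ h0]

theorem finite_zero_chart (𝓕 : Foliation) (h : Frame p b c) :
    {q : ℂ × ℂ | 𝓕.alpha (chi p b c q) = 0}.Finite := by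
  have hinj : Function.Injective
      (fun q : ℂ × ℂ => Projectivization.mk ℂ (chi p b c q) (h.chi_ne q)) := by
    intro q q' hq
    obtain ⟨a, ha⟩ := (Projectivization.mk_eq_mk_iff' ℂ _ _ (h.chi_ne q) (h.chi_ne q')).1 hq
    obtain ⟨e1, e2, e3⟩ := h.herm_chi q
    obtain ⟨f1, f2, f3⟩ := h.herm_chi q'
    rw [← ha, STR_herm_smul, f1, mul_one] at e1
    rw [← ha, STR_herm_smul, f2, e1, one_mul] at e2
    rw [← ha, STR_herm_smul, f3, e1, one_mul] at e3
    exact Prod.ext e2.symm e3.symm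
  refine Set.Finite.of_finite_image (𝓕.finite_sing.subset ?_) hinj.injOn
  rintro _ ⟨q, hq, rfl⟩
  show 𝓕.alpha (Projectivization.mk ℂ (chi p b c q) (h.chi_ne q)).rep = 0
  obtain ⟨a, ha⟩ := Projectivization.exists_smul_eq_mk_rep ℂ (chi p b c q) (h.chi_ne q)
  have hq' : 𝓕.alpha (chi p b c q) = 0 := hq
  rw [← ha]
  show 𝓕.alpha ((a : ℂ) • chi p b c q) = 0
  rw [alpha_smul, hq', smul_zero]

theorem Frame.measurableSet_scone (h : Frame p b c) {E : Set (ℂ × ℂ)} (hE : MeasurableSet E) :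
    MeasurableSet (scone p b c E) := by
  have h2 : scone p b c E = {y | nsq y = 1} ∩ ({y | herm y p ≠ 0} ∩ STR_pi p b c ⁻¹' E) := by
    ext y
    exact h.scone_iff E y
  rw [h2]
  refine MeasurableSet.inter ?_ (MeasurableSet.inter ?_ (STR_pi_meas p b c hE))
  · exact (isClosed_eq STR_nsq_cont continuous_const).measurableSet
  · exact (isOpen_ne_fun (STR_herm_cont p) continuous_const).measurableSet

/-- the density -/
noncomputable def STR_w (𝓕 : Foliation) (p : V) (y : V) : ℝ :=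
  Complex.normSq (herm y p) ^ 𝓕.deg / Complex.normSq (herm y p) / nsq (𝓕.alpha y)

theorem STR_w_nonneg (𝓕 : Foliation) (p y : V) : 0 ≤ STR_w 𝓕 p y := by
  unfold STR_w
  exact div_nonneg (div_nonneg (pow_nonneg (Complex.normSq_nonneg _) _) (Complex.normSq_nonneg _))
    (nsq_nonneg _)

theorem STR_w_meas (𝓕 : Foliation) (p : V) : Measurable (STR_w 𝓕 p) := by
  unfold STR_w
  have h1 : Measurable fun y : V => Complex.normSq (herm y p) :=
    (Complex.continuous_normSq.comp (STR_herm_cont p)).measurable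
  have h2 : Measurable fun y : V => nsq (𝓕.alpha y) :=
    (STR_nsq_cont.comp (STR_alpha_cont 𝓕)).measurable
  exact ((h1.pow_const _).div h1).div h2

theorem STR_phi_eq (h : Frame p b c) {Φ : V → ℂ} (hΦ : 𝓕.Wt Φ) {y : V} (h0 : herm y p ≠ 0) :
    Φ y / (nsq (𝓕.alpha y) : ℂ) = (STR_w 𝓕 p y : ℂ) * Φ (chi p b c (STR_pi p b c y)) := by
  have e := hΦ (herm y p) _ h0 (h.chi_ne (STR_pi p b c y))
  rw [← STR_rec h h0] at e
  rw [e]
  unfold STR_w
  push_cast
  ring

theorem exists_schart (𝓕 : Foliation) (μ : Measure V) [IsFiniteMeasure μ] (h : Frame p b c) :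
    ∃ ρ M, SChart 𝓕 μ p b c ρ M := by
  have hS : ({q : ℂ × ℂ | 𝓕.alpha (chi p b c q) = 0} \ {0}).Finite :=
    (finite_zero_chart 𝓕 h).subset Set.sdiff_subset
  have hS2 : ({q : ℂ × ℂ | 𝓕.alpha (chi p b c q) = 0} \ {0})ᶜ ∈ nhds (0 : ℂ × ℂ) :=
    hS.isClosed.isOpen_compl.mem_nhds (by simp)
  obtain ⟨r, hr0, hr⟩ := Metric.nhds_basis_closedBall.mem_iff.1 hS2
  set ρ := min r 1 with hρ
  have hρ0 : 0 < ρ := lt_min hr0 one_pos
  set C := scone p b c (Metric.ball 0 ρ) with hC
  have hCm : MeasurableSet C := h.measurableSet_scone Metric.isOpen_ball.measurableSet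
  have hwm : Measurable fun y => ENNReal.ofReal (STR_w 𝓕 p y) := (STR_w_meas 𝓕 p).ennreal_ofReal
  set ν := (μ.restrict C).withDensity (fun y => ENNReal.ofReal (STR_w 𝓕 p y)) with hν
  have hπ := STR_pi_meas p b c
  have hcone : ∀ E : Set (ℂ × ℂ), STR_pi p b c ⁻¹' E ∩ C = scone p b c (E ∩ Metric.ball 0 ρ) := by
    intro E
    ext y
    rw [Set.mem_inter_iff, hC, h.scone_iff, h.scone_iff, Set.mem_preimage]
    constructor
    · rintro ⟨h1, h2, h3, h4⟩
      exact ⟨h2, h3, h1, h4⟩
    · rintro ⟨h1, h2, h3, h4⟩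
      exact ⟨h3, h1, h2, h4⟩
  refine ⟨ρ, Measure.map (STR_pi p b c) ν, h, hρ0, min_le_right _ _, ?_, ?_, ?_, ?_⟩
  · rw [Measure.map_apply hπ Metric.isOpen_ball.measurableSet.compl, hν,
      withDensity_apply _ (hπ Metric.isOpen_ball.measurableSet.compl),
      Measure.restrict_restrict (hπ Metric.isOpen_ball.measurableSet.compl), hcone]
    have he : scone p b c ((Metric.ball 0 ρ)ᶜ ∩ Metric.ball 0 ρ) = ∅ := by
      rw [Set.compl_inter_self]
      ext y
      simp [scone]
    rw [he]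
    simp
  · intro q hq hq0 hα
    have hq2 : q ∈ Metric.closedBall (0 : ℂ × ℂ) r :=
      Metric.closedBall_subset_closedBall (min_le_left _ _) hq
    exact hr hq2 ⟨hα, hq0⟩
  · intro Φ hΦm hΦ E hE hEr
    have hcm : MeasurableSet (scone p b c E) := h.measurableSet_scone hE
    have hm : Measurable fun q => Φ (chi p b c q) := hΦm.comp (STR_chi_cont p b c).measurable
    rw [setIntegral_map hE hm.aestronglyMeasurable hπ.aemeasurable, hν,
      setIntegral_withDensity_eq_setIntegral_toReal_smul hwm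
        (Filter.Eventually.of_forall fun _ => ENNReal.ofReal_lt_top) _ (hπ hE),
      Measure.restrict_restrict (hπ hE), hcone E, Set.inter_eq_left.2 hEr]
    refine setIntegral_congr_fun hcm ?_
    intro y hy
    obtain ⟨h1, h2, h3⟩ := (h.scone_iff E y).1 hy
    show Φ y / (nsq (𝓕.alpha y) : ℂ) =
      (ENNReal.ofReal (STR_w 𝓕 p y)).toReal • Φ (chi p b c (STR_pi p b c y))
    rw [ENNReal.toReal_ofReal (STR_w_nonneg 𝓕 p y), Complex.real_smul]
    exact STR_phi_eq h hΦ h2
  · intro Φ hΦm hΦ E hE hEr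
    have hcm : MeasurableSet (scone p b c E) := h.measurableSet_scone hE
    have hm : Measurable fun q => ENNReal.ofReal (Φ (chi p b c q)) :=
      (hΦm.comp (STR_chi_cont p b c).measurable).ennreal_ofReal
    have hm2 : Measurable fun y => ENNReal.ofReal (Φ (chi p b c (STR_pi p b c y))) := hm.comp hπ
    rw [setLIntegral_map hE hm hπ, hν,
      setLIntegral_withDensity_eq_setLIntegral_mul _ hwm hm2 (hπ hE),
      Measure.restrict_restrict (hπ hE), hcone E, Set.inter_eq_left.2 hEr]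
    refine setLIntegral_congr_fun hcm ?_
    intro y hy
    obtain ⟨h1, h2, h3⟩ := (h.scone_iff E y).1 hy
    show ENNReal.ofReal (Φ y / nsq (𝓕.alpha y)) =
      ENNReal.ofReal (STR_w 𝓕 p y) * ENNReal.ofReal (Φ (chi p b c (STR_pi p b c y)))
    have e := STR_phi_eq h hΦ h2
    have e2 : Φ y / nsq (𝓕.alpha y) = STR_w 𝓕 p y * Φ (chi p b c (STR_pi p b c y)) := by
      exact_mod_cast e
    rw [← ENNReal.ofReal_mul (STR_w_nonneg 𝓕 p y), e2]

theorem SChart.M_eq (h : SChart 𝓕 μ p b c ρ M) {E : Set (ℂ × ℂ)} (hE : MeasurableSet E)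
    (hE2 : E ⊆ Metric.ball 0 ρ) :
    M E = ∫⁻ y in scone p b c E, ENNReal.ofReal
      (Complex.normSq (herm y p) ^ 𝓕.deg / Complex.normSq (herm y p) / nsq (𝓕.alpha y)) ∂μ := by
  have hm : Measurable fun y : V =>
      Complex.normSq (herm y p) ^ 𝓕.deg / Complex.normSq (herm y p) := by
    have h1 : Measurable fun y : V => Complex.normSq (herm y p) :=
      (Complex.continuous_normSq.comp (STR_herm_cont p)).measurable
    exact (h1.pow_const _).div h1
  have hW : 𝓕.Wt (fun y => ((Complex.normSq (herm y p) ^ 𝓕.deg /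
      Complex.normSq (herm y p) : ℝ) : ℂ)) := by
    intro t y _ _
    show ((Complex.normSq (herm (t • y) p) ^ 𝓕.deg / Complex.normSq (herm (t • y) p) : ℝ) : ℂ) =
      ((Complex.normSq t ^ 𝓕.deg / Complex.normSq t : ℝ) : ℂ) *
        ((Complex.normSq (herm y p) ^ 𝓕.deg / Complex.normSq (herm y p) : ℝ) : ℂ)
    rw [STR_herm_smul, map_mul, mul_pow, mul_div_mul_comm, Complex.ofReal_mul]
  have := h.lint _ hm hW E hE hE2
  rw [this]
  have e : ∀ q : ℂ × ℂ, ENNReal.ofReal (Complex.normSq (herm (chi p b c q) p) ^ 𝓕.deg /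
      Complex.normSq (herm (chi p b c q) p)) = 1 := by
    intro q
    rw [(h.frame.herm_chi q).1]
    simp
  simp only [e]
  rw [setLIntegral_const, one_mul]

theorem SChart.M_zero (h : SChart 𝓕 μ p b c ρ M) (hp : 𝓕.alpha p = 0) : M {0} = 0 := by
  rw [h.M_eq (measurableSet_singleton _) (by simpa using h.r_pos)]
  have e : ∫⁻ y in scone p b c {0}, ENNReal.ofReal
      (Complex.normSq (herm y p) ^ 𝓕.deg / Complex.normSq (herm y p) / nsq (𝓕.alpha y)) ∂μ =
      ∫⁻ _ in scone p b c {0}, 0 ∂μ := by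
    refine setLIntegral_congr_fun (h.frame.measurableSet_scone (measurableSet_singleton _)) ?_
    rintro y ⟨h1, q, hq, t, ht, rfl⟩
    have hq' : q = 0 := hq
    subst hq'
    have h2 : chi p b c 0 = p := by simp [chi]
    have h3 : nsq (𝓕.alpha (t • chi p b c 0)) = 0 := by
      rw [alpha_smul, h2, hp, smul_zero]
      exact nsq_eq_zero.2 rfl
    show ENNReal.ofReal (_ / nsq (𝓕.alpha (t • chi p b c 0))) = 0
    rw [h3, div_zero, ENNReal.ofReal_zero]
  rw [e]
  simp

/-- The mass of the current: `μ (scone E) = ∫_E |α|^2 / |x|^4 dM`. -/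
theorem SChart.mass_eq (h : SChart 𝓕 μ p b c ρ M) (hs0 : μ {x | 𝓕.alpha x = 0} = 0)
    {E : Set (ℂ × ℂ)} (hE : MeasurableSet E) (hE2 : E ⊆ Metric.ball 0 ρ) :
    μ (scone p b c E) = ∫⁻ q in E, ENNReal.ofReal
      (nsq (𝓕.alpha (chi p b c q)) / nsq (chi p b c q) ^ 2) ∂M := by
  have hm : Measurable fun y : V => nsq (𝓕.alpha y) / nsq y ^ 2 :=
    (STR_nsq_cont.comp (STR_alpha_cont 𝓕)).measurable.div (STR_nsq_cont.measurable.pow_const 2)
  have hW : 𝓕.Wt (fun y => ((nsq (𝓕.alpha y) / nsq y ^ 2 : ℝ) : ℂ)) := by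
    intro t y ht hy
    have hT : Complex.normSq t ≠ 0 := fun h => ht (Complex.normSq_eq_zero.1 h)
    have hy' : nsq y ≠ 0 := (nsq_pos hy).ne'
    have e : nsq (𝓕.alpha (t • y)) / nsq (t • y) ^ 2 =
        Complex.normSq t ^ 𝓕.deg / Complex.normSq t * (nsq (𝓕.alpha y) / nsq y ^ 2) := by
      rw [alpha_smul, nsq_smul, nsq_smul, map_pow]
      field_simp
      ring
    show ((nsq (𝓕.alpha (t • y)) / nsq (t • y) ^ 2 : ℝ) : ℂ) = _
    rw [e, Complex.ofReal_mul]
  rw [← h.lint _ hm hW E hE hE2]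
  have hcm : MeasurableSet (scone p b c E) := h.frame.measurableSet_scone hE
  have e : ∫⁻ y in scone p b c E, ENNReal.ofReal (nsq (𝓕.alpha y) / nsq y ^ 2 /
      nsq (𝓕.alpha y)) ∂μ = ∫⁻ _ in scone p b c E, 1 ∂μ := by
    refine setLIntegral_congr_fun_ae hcm ?_
    have h1 : ∀ᵐ y ∂μ, 𝓕.alpha y ≠ 0 := by
      rw [ae_iff]
      simpa using hs0
    filter_upwards [h1] with y hy hy2
    have h3 : nsq y = 1 := hy2.1
    have h4 : nsq (𝓕.alpha y) ≠ 0 := (nsq_pos hy).ne'
    rw [h3, one_pow, div_one, div_self h4, ENNReal.ofReal_one]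
  rw [e, setLIntegral_const, one_mul]

end Pool.Agent.H24.CU
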