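import Pool.Agent.H24.CU.LocDefs

/-!
# Row TT (a dyadic estimate)

PROOF.  `T` is a measurable set (a tube), `m t = M (T ∩ {‖p.1‖ <= t})`.  Hypothesis: `m t <= C t^2` for
`b' <= t <= b`.  For `i >= 0` with `2^i b' <= b`..: split `{‖p.1‖ <= b}` into `{‖p.1‖ <= b'}` and the shells
`2^i b' < ‖p.1‖ <= min (2^(i+1) b') b` (`i < n`, `2^n b' >= b > 2^(n-1) b'`).  On the first set
`1/(‖p.1‖ + b') <= 1/b'`, contribution `<= C b'^2 / b' = C b'`.  On the `i`-th shell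
`1/(‖p.1‖ + b') <= 1/(2^i b')` and the mass is `<= C (min (2^(i+1) b') b)^2 <= C 4 (2^i b')^2`, contribution
`<= 4 C 2^i b'`; the sum is `<= 4 C 2^n b' <= 8 C b`.  Total `<= 9 C b`.
(Alternatively a layer cake argument.)  The function is bounded and measurable, so integrable on a set of
finite measure.
-/

namespace Pool.Agent.H24.CU

open MeasureTheory

theorem tube_integral (M : Measure (ℂ × ℂ)) [IsFiniteMeasure M] (T : Set (ℂ × ℂ))
    (hT : MeasurableSet T) (C b b' : ℝ) (hC : 0 ≤ C) (hb' : 0 < b') (hbb : b' ≤ b)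
    (hm : ∀ t : ℝ, b' ≤ t → t ≤ b → (M (T ∩ {p | ‖p.1‖ ≤ t})).toReal ≤ C * t ^ 2) :
    ∫ p in T ∩ {p | ‖p.1‖ ≤ b}, (1 / (‖p.1‖ + b')) ∂M ≤ 9 * C * b := by
  obtain ⟨k, hk1, hk2⟩ := exists_nat_pow_near (x := b / b') (y := 2)
    ((one_le_div₀ hb').2 hbb) (by norm_num)
  rw [le_div_iff₀ hb'] at hk1
  rw [div_lt_iff₀ hb'] at hk2
  have hnorm : Measurable (fun p : ℂ × ℂ => ‖p.1‖) := measurable_fst.norm
  have hS : MeasurableSet (T ∩ {p : ℂ × ℂ | ‖p.1‖ ≤ b}) :=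
    hT.inter (measurableSet_le hnorm measurable_const)
  have hA : ∀ i : ℕ, MeasurableSet {p : ℂ × ℂ | ‖p.1‖ ≤ min (2 ^ i * b') b} := fun i =>
    measurableSet_le hnorm measurable_const
  obtain ⟨g, hg⟩ : ∃ g : ℕ → ℂ × ℂ → ℝ, g = fun i p => 2 / (2 ^ i * b') *
      ({p : ℂ × ℂ | ‖p.1‖ ≤ min (2 ^ i * b') b}).indicator (fun _ => (1 : ℝ)) p := ⟨_, rfl⟩
  have hgm : ∀ i, Measurable (g i) := by
    intro i
    rw [hg]
    exact (measurable_const.indicator (hA i)).const_mul _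
  have hg0 : ∀ i p, 0 ≤ g i p := by
    intro i p
    rw [hg]
    exact mul_nonneg (by positivity) (Set.indicator_nonneg (fun _ _ => zero_le_one) _)
  have hgi : ∀ i, IntegrableOn (g i) (T ∩ {p : ℂ × ℂ | ‖p.1‖ ≤ b}) M := by
    intro i
    refine Integrable.of_bound (hgm i).aestronglyMeasurable (2 / (2 ^ i * b')) ?_
    refine Filter.Eventually.of_forall fun p => ?_
    rw [Real.norm_eq_abs, abs_of_nonneg (hg0 i p), hg]
    show 2 / (2 ^ i * b') * _ ≤ _
    have h1 : ({p : ℂ × ℂ | ‖p.1‖ ≤ min (2 ^ i * b') b}).indicator (fun _ => (1 : ℝ)) p ≤ 1 :=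
      Set.indicator_le_self' (fun _ _ => zero_le_one) p
    calc _ ≤ 2 / (2 ^ i * b') * 1 := mul_le_mul_of_nonneg_left h1 (by positivity)
      _ = _ := mul_one _
  have hfi : IntegrableOn (fun p : ℂ × ℂ => 1 / (‖p.1‖ + b')) (T ∩ {p : ℂ × ℂ | ‖p.1‖ ≤ b}) M := by
    refine Integrable.of_bound ?_ (1 / b') ?_
    · exact (measurable_const.div (hnorm.add_const b')).aestronglyMeasurable
    · refine Filter.Eventually.of_forall fun p => ?_
      have h1 : 0 ≤ ‖p.1‖ := norm_nonneg _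
      rw [Real.norm_eq_abs, abs_of_nonneg (by positivity)]
      exact one_div_le_one_div_of_le hb' (by linarith)
  have hpt : ∀ p ∈ T ∩ {p : ℂ × ℂ | ‖p.1‖ ≤ b}, 1 / (‖p.1‖ + b') ≤
      ∑ i ∈ Finset.range (k + 2), g i p := by
    rintro p ⟨_, hp⟩
    have hp : ‖p.1‖ ≤ b := hp
    have h0 : 0 ≤ ‖p.1‖ := norm_nonneg _
    have hex : ∃ i : ℕ, ‖p.1‖ ≤ 2 ^ i * b' := ⟨k + 1, hp.trans hk2.le⟩
    classical
    obtain ⟨i, hi1, hi2⟩ : ∃ i : ℕ, ‖p.1‖ ≤ 2 ^ i * b' ∧ ∀ j < i, ¬ ‖p.1‖ ≤ 2 ^ j * b' :=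
      ⟨Nat.find hex, Nat.find_spec hex, fun j hj => Nat.find_min hex hj⟩
    have hik : i < k + 2 := by
      by_contra hcon
      exact hi2 (k + 1) (by omega) (hp.trans hk2.le)
    have h1 : 1 / (‖p.1‖ + b') ≤ g i p := by
      rw [hg]
      show _ ≤ 2 / (2 ^ i * b') * _
      rw [Set.indicator_of_mem (show p ∈ {p : ℂ × ℂ | ‖p.1‖ ≤ min (2 ^ i * b') b} from
        le_min hi1 hp), mul_one, div_le_div_iff₀ (by positivity) (by positivity)]
      rcases Nat.eq_zero_or_pos i with h2 | h2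
      · rw [h2]
        simp only [pow_zero, one_mul]
        linarith
      · have h3 := hi2 (i - 1) (by omega)
        push Not at h3
        have h4 : (2 : ℝ) ^ i = 2 * 2 ^ (i - 1) := by
          rw [← pow_succ']
          congr 1
          omega
        rw [h4]
        linarith
    exact h1.trans (Finset.single_le_sum (f := fun i => g i p) (fun j _ => hg0 j p)
      (Finset.mem_range.2 hik))
  have hterm : ∀ i ∈ Finset.range (k + 2), ∫ p in T ∩ {p : ℂ × ℂ | ‖p.1‖ ≤ b}, g i p ∂M ≤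
      2 * C * b' * 2 ^ i := by
    intro i _
    have h1 : ∫ p in T ∩ {p : ℂ × ℂ | ‖p.1‖ ≤ b}, g i p ∂M = 2 / (2 ^ i * b') *
        (M (T ∩ {p | ‖p.1‖ ≤ min (2 ^ i * b') b})).toReal := by
      rw [hg]
      simp only
      rw [integral_const_mul, integral_indicator_const _ (hA i), smul_eq_mul, mul_one,
        measureReal_restrict_apply (hA i)]
      congr 2
      ext p
      simp only [Set.mem_inter_iff, Set.mem_ofPred_eq, le_min_iff]
      tauto
    rw [h1]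
    have h2 : (1 : ℝ) ≤ 2 ^ i := one_le_pow₀ (by norm_num)
    have h3 : b' ≤ min (2 ^ i * b') b := le_min (by nlinarith) hbb
    have h4 := hm _ h3 (min_le_right _ _)
    have h5 : (min (2 ^ i * b') b) ^ 2 ≤ (2 ^ i * b') ^ 2 :=
      pow_le_pow_left₀ (hb'.le.trans h3) (min_le_left _ _) 2
    have h6 := h4.trans (mul_le_mul_of_nonneg_left h5 hC)
    calc _ ≤ 2 / (2 ^ i * b') * (C * (2 ^ i * b') ^ 2) :=
          mul_le_mul_of_nonneg_left h6 (by positivity)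
      _ = _ := by
          field_simp
  have h7 : ∑ i ∈ Finset.range (k + 2), 2 * C * b' * (2 : ℝ) ^ i =
      2 * C * b' * (2 ^ (k + 2) - 1) := by
    rw [← Finset.mul_sum, geom_sum_eq (by norm_num)]
    norm_num
  calc _ ≤ ∫ p in T ∩ {p : ℂ × ℂ | ‖p.1‖ ≤ b}, ∑ i ∈ Finset.range (k + 2), g i p ∂M :=
        setIntegral_mono_on hfi (integrable_finsetSum _ fun i _ => hgi i) hS hpt
    _ = ∑ i ∈ Finset.range (k + 2), ∫ p in T ∩ {p : ℂ × ℂ | ‖p.1‖ ≤ b}, g i p ∂M :=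
        integral_finsetSum _ fun i _ => hgi i
    _ ≤ ∑ i ∈ Finset.range (k + 2), 2 * C * b' * (2 : ℝ) ^ i := Finset.sum_le_sum hterm
    _ = 2 * C * b' * (2 ^ (k + 2) - 1) := h7
    _ ≤ 9 * C * b := by
        have h8 : (2 : ℝ) ^ (k + 2) = 4 * 2 ^ k := by rw [pow_add]; norm_num; ring
        rw [h8]
        have h9 : C * (2 ^ k * b') ≤ C * b := mul_le_mul_of_nonneg_left hk1 hC
        have h10 : 0 ≤ C * b' := mul_nonneg hC hb'.le
        have h11 : 0 ≤ C * b := mul_nonneg hC (hb'.le.trans hbb)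
        nlinarith [h9, h10, h11]

end Pool.Agent.H24.CU
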